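import Pool.Agent.Lib.MP_7c08ba_nt.CN.Defs
import Pool.Agent.Lib.MP_7c08ba_nt.RZ.Main

set_option autoImplicit false

/-! Project CN: assembly of the analytic part and the `2`-adic part. -/

namespace Pool.Agent.Lib.MP_7c08ba_nt.CN

open NumberField IsDedekindDomain
open scoped nonZeroDivisors ComplexConjugate

namespace NVAux

variable {q : ℕ} {F : Type} [Field F] [NumberField F] {s : 𝓞 F} {σ : F →+* ℂ}

omit [NumberField F] in
theorem span_neg (s : 𝓞 F) : Ideal.span {-s} = Ideal.span {s} := Ideal.span_singleton_neg s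

omit [NumberField F] in
theorem isCan_neg {m : ℕ} {φ : Ideal (𝓞 F) →*₀ ℂ} (h : IsCan q s σ m φ) :
    IsCan q (-s) σ m φ := fun t a ht hta => h t a ht (neg_dvd.1 hta)

theorem res1_neg {A : ValuationSubring ℂ} {φ : Ideal (𝓞 F) →*₀ ℂ} (h : Res1 A s φ) :
    Res1 A (-s) φ := fun a ha hc => h a ha (by rwa [span_neg] at hc)

/-- the image of the square root -/
theorem im_cases (h : RZC.FieldC q F (s : F)) :
    σ s = Complex.I * Real.sqrt q ∨ σ s = -(Complex.I * Real.sqrt q) := by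
  have h3 : (Real.sqrt q : ℂ) ^ 2 = q := by
    rw [← Complex.ofReal_pow, Real.sq_sqrt (Nat.cast_nonneg q), Complex.ofReal_natCast]
  have h4 : σ s ^ 2 = -(q : ℂ) := by rw [← map_pow, h.2.2.2, map_neg, map_natCast]
  have h2 : (σ s - Complex.I * Real.sqrt q) * (σ s + Complex.I * Real.sqrt q) = 0 := by
    have h5 : (σ s - Complex.I * Real.sqrt q) * (σ s + Complex.I * Real.sqrt q) =
        σ s ^ 2 - Complex.I ^ 2 * (Real.sqrt q : ℂ) ^ 2 := by ring
    rw [h5, h3, h4, Complex.I_sq]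
    ring
  rcases mul_eq_zero.mp h2 with h3 | h3
  · exact Or.inl (sub_eq_zero.mp h3)
  · exact Or.inr (add_eq_zero_iff_eq_neg.mp h3)

theorem fieldC_neg (h : RZC.FieldC q F (s : F)) : RZC.FieldC q F ((-s : 𝓞 F) : F) := by
  refine ⟨h.1, h.2.1, h.2.2.1, ?_⟩
  have h1 : ((-s : 𝓞 F) : F) = -(s : F) := map_neg _ _
  rw [h1, neg_sq, h.2.2.2]

theorem exists_dat (h : RZC.FieldC q F (s : F)) (him : 0 < (σ s).im) :
    ∃ (χ : DirichletCharacter ℂ q) (cj : 𝓞 F ≃+* 𝓞 F), RZ.Dat q s σ χ cj := by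
  obtain ⟨χ, hχ⟩ := RZ.MainAux.exists_chi h.1
  obtain ⟨cj, hcj⟩ := RZ.MainAux.exists_cj h.2.2.1 σ
  refine ⟨χ, cj, h.1, h.2.1, h.2.2.1, ?_, ?_, hχ, hcj⟩
  · apply RingOfIntegers.ext
    simp only [map_pow, map_neg, map_natCast]
    exact h.2.2.2
  · rcases im_cases (σ := σ) h with h1 | h1
    · exact h1
    · exfalso
      rw [h1] at him
      simp only [Complex.neg_im, Complex.mul_im, Complex.I_re, Complex.I_im, Complex.ofReal_re,
        Complex.ofReal_im, one_mul, zero_add, mul_zero] at him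
      have := Real.sqrt_nonneg (q : ℝ)
      linarith

theorem main (h1 : StAn) (h2 : StSys) (h3 : StPa) {A : ValuationSubring ℂ} {j : ℕ}
    {φ : Ideal (𝓞 F) →*₀ ℂ} (hF : RZC.FieldC q F (s : F)) (him : 0 < (σ s).im)
    (hA : RZC.Above2 A) (hφ : IsCan q s σ (4 * j + 1) φ) (hres : Res1 A s φ) :
    ∃ Λ : ℂ → ℂ, IsLF φ (2 * j + 1) Λ ∧ Λ 0 ≠ 0 := by
  obtain ⟨χ, cj, hD⟩ := exists_dat hF him
  obtain ⟨P, e, hP, hPN, he, H⟩ := h3 q F _ _ s σ A j φ hF him hA hφ hres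
  obtain ⟨b, g, d, d', hd, hd', hg, hcop⟩ := h2 q F _ _ s hF P hP hPN e
  have hq0 : NeZero q := ⟨hF.1.ne_zero⟩
  obtain ⟨Λ, hΛ, hval⟩ := h1 q hq0 F _ _ s σ χ cj (2 * j) φ hD (even_two_mul j)
    (by rwa [show 2 * (2 * j) + 1 = 4 * j + 1 by ring])
  obtain ⟨c, hc, hv⟩ := hval e b g d d' hd hd' he fun B C =>
    ⟨(hcop B C).1, ((mul_dvd_mul_left _ (pow_dvd_pow _ (by norm_num))).trans (hcop B C).2)⟩
  refine ⟨Λ, hΛ, ?_⟩
  have hS : SumS σ (2 * j) (2 ^ e) g d φ ≠ 0 := by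
    refine H b g d hd hg fun C => (mul_dvd_mul_left _ ?_).trans (hcop C 1).2
    rw [mul_pow]
    exact dvd_mul_of_dvd_left (pow_dvd_pow _ (by norm_num)) _
  have hS' : SumS σ (2 * j) (2 ^ e) g d' φ ≠ 0 := by
    refine H b g d' hd' hg fun C => (mul_dvd_mul_left _ ?_).trans (hcop 1 C).2
    rw [mul_pow]
    exact dvd_mul_of_dvd_right (pow_dvd_pow _ (by norm_num)) _
  rw [hv]
  exact mul_ne_zero (mul_ne_zero hc ((map_ne_zero _).2 hS)) hS'

end NVAux

open NVAux in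
theorem stNV (h1 : StAn) (h2 : StSys) (h3 : StPa) : StNV := by
  intro q F _ _ s σ A j φ hF hA hφ hres
  by_cases him : 0 < (σ s).im
  · exact main h1 h2 h3 hF him hA hφ hres
  · refine main h1 h2 h3 (fieldC_neg hF) ?_ hA (isCan_neg hφ) (res1_neg hres)
    have h4 : ((-s : 𝓞 F) : F) = -(s : F) := map_neg _ _
    rw [h4, map_neg, Complex.neg_im, neg_pos]
    rcases im_cases (σ := σ) hF with h5 | h5
    · exfalso
      apply him
      rw [h5]
      simp only [Complex.mul_im, Complex.I_re, Complex.I_im, Complex.ofReal_re,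
        Complex.ofReal_im, zero_mul, one_mul, zero_add]
      exact Real.sqrt_pos.2 (by exact_mod_cast hF.1.pos)
    · rw [h5]
      simp only [Complex.neg_im, Complex.mul_im, Complex.I_re, Complex.I_im, Complex.ofReal_re,
        Complex.ofReal_im, zero_mul, one_mul, zero_add]
      have := Real.sqrt_pos.2 (show (0 : ℝ) < q by exact_mod_cast hF.1.pos)
      linarith

end Pool.Agent.Lib.MP_7c08ba_nt.CN
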