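import Pool.Agent.Lib.MP_7c08ba_nt.CN.StAn

set_option autoImplicit false

/-!
Project CN, analytic part: assembly.
-/

namespace Pool.Agent.Lib.MP_7c08ba_nt.CN

open NumberField IsDedekindDomain MeasureTheory Polynomial Pool.Agent.Lib.MP_7c08ba_nt.RZ
open scoped nonZeroDivisors ComplexConjugate

/-- (An) -/
theorem stAn (hOm : StOm) (hCM : StCM) (hInv : StInv) (hPair : StPair) (hLs : StLs)
    (hRep : StRep) (hVal : StVal) (hBij : StBij) : StAn := by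
  intro q _ F _ _ s σ χ cj n φ hD _ hcan
  obtain ⟨c, hcX, hcop⟩ := hRep q F _ _ s σ χ cj hD
  refine ⟨Lam q χ n φ c, hLs q _ F _ _ s σ χ cj n φ c hD hcan hcX hcop, ?_⟩
  intro e b g d d' hS hS' he hAB
  obtain ⟨ε, hε, hval⟩ := hVal q _ F _ _ s σ χ cj n φ c hD hcan
  -- the auxiliary numbers
  have hOm' : ∀ A B, ∃ (a ω : ℤ) (ga : 𝓞 F), PD q s e (d A) (d' B) b a ω g ga := fun A B =>
    hOm q F _ _ s σ χ cj e (d A) (d' B) b g hD he (hS.odd A) (hS'.odd B) (hAB A B).1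
      (hS.cop A) (hS'.cop B) (hAB A B).2 hS.dvd hS.two
  choose a ω ga hPD using hOm'
  have hcm := fun A B => hCM q F _ _ s σ χ cj e (d A) (d' B) b (a A B) (ω A B) g (ga A B) hD
    (hPD A B)
  -- the ideals are not zero
  have hne : ∀ m : ℕ, m ≠ 0 → idl g m ≠ ⊥ := by
    intro m hm h
    have h1 : (m : 𝓞 F) ∈ idl g m := Ideal.subset_span (Set.mem_insert _ _)
    rw [h, Ideal.mem_bot, Nat.cast_eq_zero] at h1
    exact hm h1
  have hd0 : ∀ A, d A ≠ 0 := fun A h => by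
    have := hS.odd A
    rw [h] at this
    exact (by decide : ¬ Odd 0) this
  have hd0' : ∀ A, d' A ≠ 0 := fun A h => by
    have := hS'.odd A
    rw [h] at this
    exact (by decide : ¬ Odd 0) this
  let I : ClassGroup (𝓞 F) → (Ideal (𝓞 F))⁰ := fun A =>
    ⟨idl g (d A), mem_nonZeroDivisors_iff_ne_zero.2 (hne _ (hd0 A))⟩
  let J : ClassGroup (𝓞 F) → (Ideal (𝓞 F))⁰ := fun A =>
    ⟨idl g (d' A), mem_nonZeroDivisors_iff_ne_zero.2 (hne _ (hd0' A))⟩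
  let P : (Ideal (𝓞 F))⁰ :=
    ⟨idl g (2 ^ e), mem_nonZeroDivisors_iff_ne_zero.2 (hne _ (by positivity))⟩
  obtain ⟨E, hE⟩ := hBij q F _ _ s σ χ cj P I J hD (fun A => hS.cls A (I A) rfl)
    (fun A => hS'.cls A (J A) rfl)
  let aa : ClassGroup (𝓞 F) → ClassGroup (𝓞 F) → Ideal (𝓞 F) := fun A B =>
    idl g (d A) * (idl g (d' B)).map (cj : 𝓞 F →+* 𝓞 F)
  let bb : ClassGroup (𝓞 F) → ClassGroup (𝓞 F) → Ideal (𝓞 F) := fun A B =>
    (idl g (2 ^ e) * idl g (d A) * idl g (d' B)).map (cj : 𝓞 F →+* 𝓞 F)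
  have haamem : ∀ A B, ((d A * d' B : ℕ) : 𝓞 F) ∈ aa A B := by
    intro A B
    refine ((hcm A B).2.2.2.1.mem _).2 ⟨0, 1, ?_⟩
    push_cast
    ring
  have haa0 : ∀ A B, aa A B ≠ ⊥ := by
    intro A B h
    have h1 := haamem A B
    rw [h, Ideal.mem_bot, Nat.cast_eq_zero] at h1
    exact mul_ne_zero (hd0 A) (hd0' B) h1
  have hbb0 : ∀ A B, bb A B ≠ ⊥ := by
    intro A B h
    have h1 : ((2 ^ e * (d A * d' B) : ℕ) : 𝓞 F) ∈ bb A B := by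
      refine ((hcm A B).2.2.2.2.2 _).2 ⟨1, 0, ?_⟩
      push_cast
      ring
    rw [h, Ideal.mem_bot, Nat.cast_eq_zero] at h1
    exact mul_ne_zero (by positivity) (mul_ne_zero (hd0 A) (hd0' B)) h1
  have haacop : ∀ A B, IsCoprime (aa A B) (Ideal.span {s}) := by
    intro A B
    have h1 : (d A * d' B).Coprime q := Nat.Coprime.mul_left (hS.cop A) (hS'.cop B)
    obtain ⟨u, v, huv⟩ := Nat.isCoprime_iff_coprime.2 h1
    rw [Ideal.isCoprime_iff_exists]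
    refine ⟨(u : 𝓞 F) * ((d A * d' B : ℕ) : 𝓞 F), Ideal.mul_mem_left _ _ (haamem A B),
      (v : 𝓞 F) * (q : 𝓞 F), ?_, ?_⟩
    · rw [Ideal.mem_span_singleton]
      refine ⟨-(v : 𝓞 F) * s, ?_⟩
      have h2 : (q : 𝓞 F) = -(s ^ 2) := by rw [hD.sq, neg_neg]
      rw [h2]
      ring
    · have h3 := congrArg (fun z : ℤ => (z : 𝓞 F)) huv
      push_cast at h3 ⊢
      exact h3
  have hEp : ∀ A B, E (A, B) = (ClassGroup.mk0 ⟨aa A B, mem_nonZeroDivisors_iff_ne_zero.2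
      (haa0 A B)⟩, ClassGroup.mk0 ⟨bb A B, mem_nonZeroDivisors_iff_ne_zero.2 (hbb0 A B)⟩) :=
    fun A B => hE (A, B) _ _ rfl rfl
  -- the terms
  have hterm : ∀ p : ClassGroup (𝓞 F) × ClassGroup (𝓞 F),
      GG q σ n φ (c.R (E p).1 : Ideal (𝓞 F)) (c.R (E p).2 : Ideal (𝓞 F)) (c.X (E p).1)
        (c.Y (E p).1) =
      ((2 * Real.sqrt q : ℂ) ^ (n + 1))⁻¹ * (Real.sqrt (Real.sqrt q) /
        (Real.sqrt ((2 ^ e : ℕ) : ℝ) * 2 ^ n * n.factorial)) *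
      conj (φ (idl g (d p.1)) * ((d p.1 : ℂ) ^ (n + 1))⁻¹ *
        hth n (σ g / ((2 ^ e : ℕ) * (d p.1 : ℂ) ^ 2))) *
      (φ (idl g (d' p.2)) * ((d' p.2 : ℂ) ^ (n + 1))⁻¹ *
        hth n (σ g / ((2 ^ e : ℕ) * (d' p.2 : ℂ) ^ 2))) := by
    rintro ⟨A, B⟩
    rw [← hPair q F _ _ s σ χ cj n e (d A) (d' B) b (a A B) (ω A B) g (ga A B) φ hD hcan
      (hPD A B)]
    refine hInv q F _ _ s σ χ cj n φ _ (aa A B) _ (bb A B) _ _ _ _ hD hcan (c.bas _)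
      (hcm A B).2.2.2.1 (hcX _) (hcm A B).2.2.2.2.1 (hcop _) (haacop A B)
      (mem_nonZeroDivisors_iff_ne_zero.1 (c.R (E (A, B)).2).2) (hbb0 A B) ?_ ?_
    · have h1 : ClassGroup.mk0 (c.R (E (A, B)).1) = ClassGroup.mk0 ⟨aa A B,
          mem_nonZeroDivisors_iff_ne_zero.2 (haa0 A B)⟩ := by
        rw [c.cls, hEp]
      obtain ⟨x, y, hx, hy, hxy⟩ := ClassGroup.mk0_eq_mk0_iff.1 h1
      exact ⟨x, y, hx, hy, hxy⟩
    · have h1 : ClassGroup.mk0 (c.R (E (A, B)).2) = ClassGroup.mk0 ⟨bb A B,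
          mem_nonZeroDivisors_iff_ne_zero.2 (hbb0 A B)⟩ := by
        rw [c.cls, hEp]
      obtain ⟨x, y, hx, hy, hxy⟩ := ClassGroup.mk0_eq_mk0_iff.1 h1
      exact ⟨x, y, hx, hy, hxy⟩
  have hq : (0 : ℝ) < Real.sqrt q := Real.sqrt_pos.2 (Nat.cast_pos.2 hD.prime.pos)
  have hK0 : ((2 * Real.sqrt q : ℂ) ^ (n + 1))⁻¹ * (Real.sqrt (Real.sqrt q) /
      (Real.sqrt ((2 ^ e : ℕ) : ℝ) * 2 ^ n * n.factorial)) ≠ 0 := by
    have h1 : (Real.sqrt q : ℂ) ≠ 0 := Complex.ofReal_ne_zero.2 hq.ne'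
    have h2 : (Real.sqrt (Real.sqrt q) : ℂ) ≠ 0 :=
      Complex.ofReal_ne_zero.2 (Real.sqrt_pos.2 hq).ne'
    have h3 : (Real.sqrt ((2 ^ e : ℕ) : ℝ) : ℂ) ≠ 0 :=
      Complex.ofReal_ne_zero.2 (Real.sqrt_pos.2 (by positivity)).ne'
    have h4 : (n.factorial : ℂ) ≠ 0 := Nat.cast_ne_zero.2 (Nat.factorial_ne_zero n)
    refine mul_ne_zero (inv_ne_zero (pow_ne_zero _ (mul_ne_zero two_ne_zero h1)))
      (div_ne_zero h2 (mul_ne_zero (mul_ne_zero h3 (pow_ne_zero _ two_ne_zero)) h4))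
  set K0 : ℂ := ((2 * Real.sqrt q : ℂ) ^ (n + 1))⁻¹ * (Real.sqrt (Real.sqrt q) /
    (Real.sqrt ((2 ^ e : ℕ) : ℝ) * 2 ^ n * n.factorial)) with hK0def
  refine ⟨ε * K0, mul_ne_zero hε hK0, ?_⟩
  have hsp : ∑ A : ClassGroup (𝓞 F), ∑ B : ClassGroup (𝓞 F),
      GG q σ n φ (c.R A : Ideal (𝓞 F)) (c.R B : Ideal (𝓞 F)) (c.X A) (c.Y A) =
      ∑ p : ClassGroup (𝓞 F) × ClassGroup (𝓞 F),
      GG q σ n φ (c.R p.1 : Ideal (𝓞 F)) (c.R p.2 : Ideal (𝓞 F)) (c.X p.1) (c.Y p.1) :=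
    (Fintype.sum_prod_type fun p : ClassGroup (𝓞 F) × ClassGroup (𝓞 F) =>
      GG q σ n φ (c.R p.1 : Ideal (𝓞 F)) (c.R p.2 : Ideal (𝓞 F)) (c.X p.1) (c.Y p.1)).symm
  rw [hval, hsp, ← E.sum_comp, Finset.sum_congr rfl (fun p _ => hterm p),
    Fintype.sum_prod_type]
  unfold SumS
  rw [map_sum, mul_assoc, mul_assoc, Finset.sum_mul_sum]
  refine congrArg (fun z => ε * z) ?_
  rw [Finset.mul_sum]
  refine Finset.sum_congr rfl fun A _ => ?_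
  rw [Finset.mul_sum]
  refine Finset.sum_congr rfl fun B _ => ?_
  rw [mul_assoc]

end Pool.Agent.Lib.MP_7c08ba_nt.CN
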