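import Mathlib
import Pool.Agent.Lib.MP_7c08ba_nt.RZ.StB
import Pool.Agent.Lib.MP_7c08ba_nt.RZ.StmtsC

set_option autoImplicit false

/-!
Project CN: central values of the odd powers of canonical Hecke characters of `ℚ(√-q)`,
`q ≡ 7 (mod 16)` prime.  Definitions and the statements which connect the analytic part and the
`2`-adic part.  Plan: team store `cn_formula.md`, `cn_plan.md`.
-/

namespace Pool.Agent.Lib.MP_7c08ba_nt.CN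

open NumberField IsDedekindDomain Polynomial
open scoped nonZeroDivisors ComplexConjugate

/-- The Hermite polynomials (of the physicists). -/
noncomputable def HP : ℕ → ℤ[X]
  | 0 => 1
  | n + 1 => 2 * X * HP n - derivative (HP n)

/-- The theta series with the Hermite polynomial of degree `n` (weight `n + 1 / 2`). -/
noncomputable def hth (n : ℕ) (τ : ℂ) : ℂ :=
  ∑' m : ℤ, ((aeval (Real.sqrt (2 * Real.pi * τ.im) * m) (HP n) : ℝ) : ℂ) *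
    Complex.exp (Real.pi * Complex.I * m ^ 2 * τ)

section

variable {F : Type} [Field F] [NumberField F]

/-- Hecke characters of conductor `(s)`, `s = √-q`, and type `(m, 0)`, `m` odd: the value at `(t)`
is `(a/q) σ(t)^m` for `t ≡ a (mod s)`. -/
def IsCan (q : ℕ) (s : 𝓞 F) (σ : F →+* ℂ) (m : ℕ) (φ : Ideal (𝓞 F) →*₀ ℂ) : Prop :=
  ∀ (t : 𝓞 F) (a : ℤ), t ≠ 0 → s ∣ t - a → φ (Ideal.span {t}) = (jacobiSym a q : ℂ) * σ t ^ m

/-- `Λ` is the `L`-function of `φ`, shifted by `k`, in `Re z > -1/2`. -/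
structure IsLF (φ : Ideal (𝓞 F) →*₀ ℂ) (k : ℕ) (Λ : ℂ → ℂ) : Prop where
  differentiable : DifferentiableOn ℂ Λ {z | -1 / 2 < z.re}
  euler : ∀ z : ℂ, 1 < z.re → HasProd (fun v : HeightOneSpectrum (𝓞 F) =>
    (1 - φ v.asIdeal * (Ideal.absNorm v.asIdeal : ℂ) ^ (-((k : ℂ) + z)))⁻¹) (Λ z)

/-- The ideal `(d, g)`. -/
abbrev idl (g : 𝓞 F) (d : ℕ) : Ideal (𝓞 F) := Ideal.span {(d : 𝓞 F), g}

/-- Representatives `(d A, g)`, `g = (b + s) / 2`, of the classes of ideals. -/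
structure Sys (q : ℕ) (s : 𝓞 F) (b : ℤ) (g : 𝓞 F) (d : ClassGroup (𝓞 F) → ℕ) : Prop where
  two : 2 * g = b + s
  dvd : (q : ℤ) ∣ b
  odd : ∀ A, Odd (d A)
  cop : ∀ A, (d A).Coprime q
  cls : ∀ (A : ClassGroup (𝓞 F)) (I : (Ideal (𝓞 F))⁰), (I : Ideal (𝓞 F)) = idl g (d A) →
    ClassGroup.mk0 I = A

/-- The sum over the classes; the points are `σ g / (K d²)`. -/
noncomputable def SumS (σ : F →+* ℂ) (n K : ℕ) (g : 𝓞 F) (d : ClassGroup (𝓞 F) → ℕ)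
    (φ : Ideal (𝓞 F) →*₀ ℂ) : ℂ :=
  ∑ A : ClassGroup (𝓞 F), φ (idl g (d A)) * ((d A : ℂ) ^ (n + 1))⁻¹ *
    hth n (σ g / (K * (d A : ℂ) ^ 2))

end

/-- (AN) the analytic part: the `L`-function and the factorisation of the central value,
`k = n + 1`. -/
def StAn : Prop :=
  ∀ (q : ℕ) (_ : NeZero q) (F : Type) (_ : Field F) (_ : NumberField F) (s : 𝓞 F)
    (σ : F →+* ℂ) (χ : DirichletCharacter ℂ q) (cj : 𝓞 F ≃+* 𝓞 F) (n : ℕ)
    (φ : Ideal (𝓞 F) →*₀ ℂ), RZ.Dat q s σ χ cj → Even n → IsCan q s σ (2 * n + 1) φ →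
    ∃ Λ : ℂ → ℂ, IsLF φ (n + 1) Λ ∧
      ∀ (e : ℕ) (b : ℤ) (g : 𝓞 F) (d d' : ClassGroup (𝓞 F) → ℕ), Sys q s b g d →
        Sys q s b g d' → 1 ≤ e →
        (∀ A B, (d A).Coprime (d' B) ∧
          (8 * 2 ^ e * ((d A : ℤ) * d' B) ^ 2 : ℤ) ∣ b ^ 2 + q) →
        ∃ c : ℂ, c ≠ 0 ∧ Λ 0 = c * conj (SumS σ n (2 ^ e) g d φ) * SumS σ n (2 ^ e) g d' φ

/-- The character is trivial modulo the maximal ideal of `A` on the ideals of odd norm prime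
to `s`. -/
def Res1 {F : Type} [Field F] [NumberField F] (A : ValuationSubring ℂ) (s : 𝓞 F)
    (φ : Ideal (𝓞 F) →*₀ ℂ) : Prop :=
  ∀ a : Ideal (𝓞 F), Odd (Ideal.absNorm a) → IsCoprime a (Ideal.span {s}) →
    φ a - 1 ∈ A.nonunits

/-- (SYS) existence of representatives adapted to a prime `P` of norm 2 -/
def StSys : Prop :=
  ∀ (q : ℕ) (F : Type) (_ : Field F) (_ : NumberField F) (s : 𝓞 F), RZC.FieldC q F (s : F) →
    ∀ P : Ideal (𝓞 F), P.IsPrime → Ideal.absNorm P = 2 → ∀ e : ℕ,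
    ∃ (b : ℤ) (g : 𝓞 F) (d d' : ClassGroup (𝓞 F) → ℕ), Sys q s b g d ∧ Sys q s b g d' ∧
      g ∈ P ^ (e + 1) ∧
      (∀ A B, (d A).Coprime (d' B) ∧
        (8 * 2 ^ e * ((d A : ℤ) * d' B) ^ 4 : ℤ) ∣ b ^ 2 + q)

/-- (PA) the `2`-adic part: the sums are not zero -/
def StPa : Prop :=
  ∀ (q : ℕ) (F : Type) (_ : Field F) (_ : NumberField F) (s : 𝓞 F) (σ : F →+* ℂ)
    (A : ValuationSubring ℂ) (j : ℕ) (φ : Ideal (𝓞 F) →*₀ ℂ), RZC.FieldC q F (s : F) →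
    0 < (σ s).im → RZC.Above2 A → IsCan q s σ (4 * j + 1) φ → Res1 A s φ →
    ∃ (P : Ideal (𝓞 F)) (e : ℕ), P.IsPrime ∧ Ideal.absNorm P = 2 ∧ 1 ≤ e ∧
      ∀ (b : ℤ) (g : 𝓞 F) (d : ClassGroup (𝓞 F) → ℕ), Sys q s b g d → g ∈ P ^ (e + 1) →
        (∀ C, (8 * 2 ^ e * ((d C : ℤ)) ^ 2 : ℤ) ∣ b ^ 2 + q) →
        SumS σ (2 * j) (2 ^ e) g d φ ≠ 0

/-- (NV) the central values are not zero: `k = 2 * j + 1` -/
def StNV : Prop :=
  ∀ (q : ℕ) (F : Type) (_ : Field F) (_ : NumberField F) (s : 𝓞 F) (σ : F →+* ℂ)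
    (A : ValuationSubring ℂ) (j : ℕ) (φ : Ideal (𝓞 F) →*₀ ℂ), RZC.FieldC q F (s : F) →
    RZC.Above2 A → IsCan q s σ (4 * j + 1) φ → Res1 A s φ →
    ∃ Λ : ℂ → ℂ, IsLF φ (2 * j + 1) Λ ∧ Λ 0 ≠ 0

end Pool.Agent.Lib.MP_7c08ba_nt.CN
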