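import Mathlib
import Pool.Agent.Lib.MP_7c08ba_nt.CN.Defs

set_option autoImplicit false

/-!
Project CN, analytic part: statements of the modules.  One module = one file `CN/A<Name>.lean`
proving `theorem st<Name> : St<Name>` with the listed earlier statements as hypotheses.
-/

namespace Pool.Agent.Lib.MP_7c08ba_nt.CN

open NumberField IsDedekindDomain MeasureTheory Polynomial Pool.Agent.Lib.MP_7c08ba_nt.RZ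
open scoped nonZeroDivisors ComplexConjugate

/-! ### Hermite functions -/

/-- The Hermite functions. -/
noncomputable def hf (n : ℕ) (x : ℝ) : ℝ :=
  aeval (Real.sqrt (2 * Real.pi) * x) (HP n) * Real.exp (-(Real.pi * x ^ 2))

/-- Laguerre polynomials times the Gaussian, in the plane. -/
noncomputable def LG (n : ℕ) (T Z : ℝ) : ℂ :=
  2 ^ n * n.factorial / Real.sqrt 2 * lag n (Real.pi * (T ^ 2 + Z ^ 2)) *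
    Real.exp (-(Real.pi * (T ^ 2 + Z ^ 2) / 2))

/-- (Her) the Fourier transform of the product of two translates of a Hermite function -/
def StHer : Prop :=
  ∀ (n : ℕ) (T Z : ℝ),
    Integrable (fun v : ℝ => ((hf n (v + T / 2) * hf n (v - T / 2) : ℝ) : ℂ) * ee (-(Z * v))) ∧
    ∫ v : ℝ, ((hf n (v + T / 2) * hf n (v - T / 2) : ℝ) : ℂ) * ee (-(Z * v)) = LG n T Z

/-- (PoiH) Poisson summation -/
def StPoiH : Prop :=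
  ∀ (n : ℕ) (g t ν x₀ : ℝ), 0 < g →
    (Summable fun l : ℤ => ‖hf n (g * (x₀ + l + t / 2)) * hf n (g * (x₀ + l - t / 2))‖) ∧
    (Summable fun z : ℤ => ‖LG n (g * t) ((z - ν) / g)‖) ∧
    ∑' l : ℤ, ((hf n (g * (x₀ + l + t / 2)) * hf n (g * (x₀ + l - t / 2)) : ℝ) : ℂ) *
        ee (ν * (x₀ + l)) =
      ∑' z : ℤ, (g : ℂ)⁻¹ * LG n (g * t) ((z - ν) / g) * ee (z * x₀)

/-- The quadratic form. -/
noncomputable def Qz (q K d : ℕ) (b : ℤ) (p : ℤ × ℤ) : ℝ :=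
  ((K * d * p.1 - b * p.2 / 2) ^ 2 + q * p.2 ^ 2 / 4) / (K * d)

/-- The point of the upper half plane. -/
noncomputable def pt (q K d : ℕ) (b : ℤ) : ℂ :=
  (b + Complex.I * Real.sqrt q) / (2 * (K * (d : ℂ) ^ 2))

/-- (Fac) the product of two theta series -/
def StFac : Prop :=
  ∀ (n q K d₁ d₂ : ℕ) (b ω : ℤ), 0 < q → 0 < K → 0 < d₁ → 0 < d₂ → (2 * d₁ : ℤ) ∣ ω - 1 →
    (2 * d₂ : ℤ) ∣ ω + 1 →
    (Summable fun p : ℤ × ℤ => ‖lag n (4 * Real.pi * Qz q K (d₁ * d₂) b p *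
      (1 / (2 * (d₁ * d₂ : ℕ) * Real.sqrt q) : ℝ)) *
        ee (Complex.I * Qz q K (d₁ * d₂) b p * (1 / (2 * (d₁ * d₂ : ℕ) * Real.sqrt q) : ℝ))‖) ∧
    hth n (pt q K d₁ b) * conj (hth n (pt q K d₂ b)) =
      Real.sqrt K * 2 ^ n * n.factorial / Real.sqrt (Real.sqrt q) *
        ∑' p : ℤ × ℤ, lag n (4 * Real.pi * Qz q K (d₁ * d₂) b p *
          (1 / (2 * (d₁ * d₂ : ℕ) * Real.sqrt q) : ℝ)) *
        ee (Complex.I * Qz q K (d₁ * d₂) b p * (1 / (2 * (d₁ * d₂ : ℕ) * Real.sqrt q) : ℝ)) *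
        ee ((p.1 * ω * p.2 : ℤ) / (2 * (d₁ * d₂ : ℕ)))

/-! ### Arithmetic -/

/-- The data of a pair of coprime norms: `K = 2 ^ e`, `8 K (d₁ d₂)² ∣ b² + q`, `g = (b + s) / 2`,
`ω ≡ 1 (mod 2 d₁)`, `ω ≡ -1 (mod 2 d₂)`, `a ≡ ω b (mod 2 d₁ d₂)`, `q ∣ a`, `ga = (a + s) / 2`. -/
structure PD {F : Type} [Field F] [NumberField F] (q : ℕ) (s : 𝓞 F) (e d₁ d₂ : ℕ) (b a ω : ℤ)
    (g ga : 𝓞 F) : Prop where
  epos : 1 ≤ e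
  odd₁ : Odd d₁
  odd₂ : Odd d₂
  cop : d₁.Coprime d₂
  cq₁ : d₁.Coprime q
  cq₂ : d₂.Coprime q
  dvd : (8 * 2 ^ e * ((d₁ : ℤ) * d₂) ^ 2 : ℤ) ∣ b ^ 2 + q
  qb : (q : ℤ) ∣ b
  two : 2 * g = b + s
  om₁ : (2 * d₁ : ℤ) ∣ ω - 1
  om₂ : (2 * d₂ : ℤ) ∣ ω + 1
  qa : (q : ℤ) ∣ a
  ab : (2 * (d₁ * d₂) : ℤ) ∣ a - ω * b
  two' : 2 * ga = a + s

/-- (Om) existence of the auxiliary numbers -/
def StOm : Prop :=
  ∀ (q : ℕ) (F : Type) (_ : Field F) (_ : NumberField F) (s : 𝓞 F) (σ : F →+* ℂ)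
    (χ : DirichletCharacter ℂ q) (cj : 𝓞 F ≃+* 𝓞 F) (e d₁ d₂ : ℕ) (b : ℤ) (g : 𝓞 F),
    Dat q s σ χ cj → 1 ≤ e → Odd d₁ → Odd d₂ → d₁.Coprime d₂ → d₁.Coprime q → d₂.Coprime q →
    (8 * 2 ^ e * ((d₁ : ℤ) * d₂) ^ 2 : ℤ) ∣ b ^ 2 + q → (q : ℤ) ∣ b → 2 * g = b + s →
    ∃ (a ω : ℤ) (ga : 𝓞 F), PD q s e d₁ d₂ b a ω g ga

/-- (CM) the ideals attached to a pair -/
def StCM : Prop :=
  ∀ (q : ℕ) (F : Type) (_ : Field F) (_ : NumberField F) (s : 𝓞 F) (σ : F →+* ℂ)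
    (χ : DirichletCharacter ℂ q) (cj : 𝓞 F ≃+* 𝓞 F) (e d₁ d₂ : ℕ) (b a ω : ℤ) (g ga : 𝓞 F),
    Dat q s σ χ cj → PD q s e d₁ d₂ b a ω g ga →
    Ideal.absNorm (idl g d₁) = d₁ ∧ Ideal.absNorm (idl g d₂) = d₂ ∧
    Ideal.absNorm (idl g (2 ^ e)) = 2 ^ e ∧
    OBasis σ (idl g d₁ * (idl g d₂).map (cj : 𝓞 F →+* 𝓞 F)) ga ((d₁ * d₂ : ℕ) : 𝓞 F) ∧
    s ∣ ga ∧
    (∀ x : 𝓞 F, x ∈ (idl g (2 ^ e) * idl g d₁ * idl g d₂).map (cj : 𝓞 F →+* 𝓞 F) ↔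
      ∃ m k : ℤ, x = ((2 ^ e * (d₁ * d₂) : ℕ) : 𝓞 F) * m - k * cj g)

/-- (Cj) the character and the conjugation -/
def StCj : Prop :=
  ∀ (q : ℕ) (F : Type) (_ : Field F) (_ : NumberField F) (s : 𝓞 F) (σ : F →+* ℂ)
    (χ : DirichletCharacter ℂ q) (cj : 𝓞 F ≃+* 𝓞 F) (n : ℕ) (φ : Ideal (𝓞 F) →*₀ ℂ),
    Dat q s σ χ cj → IsCan q s σ (2 * n + 1) φ →
    (∀ a : Ideal (𝓞 F), a.map (cj : 𝓞 F →+* 𝓞 F) * a = Ideal.span {(Ideal.absNorm a : 𝓞 F)}) ∧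
    (∀ a : Ideal (𝓞 F), φ (a.map (cj : 𝓞 F →+* 𝓞 F)) = conj (φ a)) ∧
    (∀ a : Ideal (𝓞 F), IsCoprime a (Ideal.span {s}) →
      jacobiSym (Ideal.absNorm a) q = 1 ∧ ‖φ a‖ ^ 2 = (Ideal.absNorm a : ℝ) ^ (2 * n + 1)) ∧
    (∀ a : Ideal (𝓞 F), ¬ IsCoprime a (Ideal.span {s}) → φ a = 0)

/-! ### The function of two classes -/

/-- The terms of the central value, `u = X / (q Y)`. -/
noncomputable def GG {F : Type} [Field F] [NumberField F] (q : ℕ) (σ : F →+* ℂ) (n : ℕ)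
    (φ : Ideal (𝓞 F) →*₀ ℂ) (a b : Ideal (𝓞 F)) (X Y : 𝓞 F) : ℂ :=
  (φ a)⁻¹ * φ (Ideal.span {Y}) * ((σ X / (q * σ Y)).im : ℂ) ^ (2 * n + 1) *
    conj (thl σ b n (σ X / (q * σ Y)))

/-- (Inv) the terms depend on the classes only -/
def StInv : Prop :=
  ∀ (q : ℕ) (F : Type) (_ : Field F) (_ : NumberField F) (s : 𝓞 F) (σ : F →+* ℂ)
    (χ : DirichletCharacter ℂ q) (cj : 𝓞 F ≃+* 𝓞 F) (n : ℕ) (φ : Ideal (𝓞 F) →*₀ ℂ)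
    (a a' b b' : Ideal (𝓞 F)) (X Y X' Y' : 𝓞 F), Dat q s σ χ cj →
    IsCan q s σ (2 * n + 1) φ → OBasis σ a X Y → OBasis σ a' X' Y' → s ∣ X → s ∣ X' →
    IsCoprime a (Ideal.span {s}) → IsCoprime a' (Ideal.span {s}) → b ≠ ⊥ → b' ≠ ⊥ →
    (∃ t t' : 𝓞 F, t ≠ 0 ∧ t' ≠ 0 ∧ Ideal.span {t} * a = Ideal.span {t'} * a') →
    (∃ t t' : 𝓞 F, t ≠ 0 ∧ t' ≠ 0 ∧ Ideal.span {t} * b = Ideal.span {t'} * b') →
    GG q σ n φ a b X Y = GG q σ n φ a' b' X' Y'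

/-- (Pair) the terms for the ideals attached to a pair -/
def StPair : Prop :=
  ∀ (q : ℕ) (F : Type) (_ : Field F) (_ : NumberField F) (s : 𝓞 F) (σ : F →+* ℂ)
    (χ : DirichletCharacter ℂ q) (cj : 𝓞 F ≃+* 𝓞 F) (n e d₁ d₂ : ℕ) (b a ω : ℤ) (g ga : 𝓞 F)
    (φ : Ideal (𝓞 F) →*₀ ℂ), Dat q s σ χ cj → IsCan q s σ (2 * n + 1) φ →
    PD q s e d₁ d₂ b a ω g ga →
    GG q σ n φ (idl g d₁ * (idl g d₂).map (cj : 𝓞 F →+* 𝓞 F))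
        ((idl g (2 ^ e) * idl g d₁ * idl g d₂).map (cj : 𝓞 F →+* 𝓞 F)) ga
        ((d₁ * d₂ : ℕ) : 𝓞 F) =
      ((2 * Real.sqrt q : ℂ) ^ (n + 1))⁻¹ * (Real.sqrt (Real.sqrt q) /
        (Real.sqrt ((2 ^ e : ℕ) : ℝ) * 2 ^ n * n.factorial)) *
      conj (φ (idl g d₁) * ((d₁ : ℂ) ^ (n + 1))⁻¹ *
        hth n (σ g / ((2 ^ e : ℕ) * (d₁ : ℂ) ^ 2))) *
      (φ (idl g d₂) * ((d₂ : ℂ) ^ (n + 1))⁻¹ * hth n (σ g / ((2 ^ e : ℕ) * (d₂ : ℂ) ^ 2)))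

/-! ### The `L`-function -/

/-- (EisF) the Eisenstein series as a sum over all pairs -/
def StEisF : Prop :=
  ∀ (q : ℕ) (_ : NeZero q) (χ : DirichletCharacter ℂ q) (r : ℕ), q.Prime → 2 < q →
    (∀ n : ℤ, χ n = (jacobiSym n q : ℂ)) → jacobiSym (-1) q = -1 →
    ∀ s u : ℂ, 1 / 2 - (r : ℝ) < s.re → 0 < u.im →
      (Summable fun p : ℤ × ℤ => ‖χ p.2 * gE r s (p.1 * q * u + p.2)‖) ∧
      (u.im : ℂ) ^ s * ∑' p : ℤ × ℤ, χ p.2 * gE r s (p.1 * q * u + p.2) =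
        2 * eis q χ r s u

/-- (EulId) Euler products over the prime ideals -/
def StEulId : Prop :=
  ∀ (F : Type) (_ : Field F) (_ : NumberField F) (g : Ideal (𝓞 F) →*₀ ℂ),
    (Summable fun b : (Ideal (𝓞 F))⁰ => ‖g (b : Ideal (𝓞 F))‖) →
    HasProd (fun v : HeightOneSpectrum (𝓞 F) => (1 - g v.asIdeal)⁻¹)
      (∑' b : (Ideal (𝓞 F))⁰, g (b : Ideal (𝓞 F)))

/-- (Dec) the Dirichlet series over the ideals: Euler product and decomposition into classes -/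
def StDec : Prop :=
  ∀ (q : ℕ) (F : Type) (_ : Field F) (_ : NumberField F) (s : 𝓞 F) (σ : F →+* ℂ)
    (χ : DirichletCharacter ℂ q) (cj : 𝓞 F ≃+* 𝓞 F) (n : ℕ) (φ : Ideal (𝓞 F) →*₀ ℂ)
    (c : Reps σ), Dat q s σ χ cj →
    (∀ b : Ideal (𝓞 F), ‖φ b‖ ≤ (Ideal.absNorm b : ℝ) ^ ((n : ℝ) + 1 / 2)) →
    (∀ A, φ (c.R A : Ideal (𝓞 F)) ≠ 0) → ∀ z : ℂ, 1 < z.re →
    (Summable fun b : (Ideal (𝓞 F))⁰ => ‖φ (b : Ideal (𝓞 F)) *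
      (Ideal.absNorm (b : Ideal (𝓞 F)) : ℂ) ^ (-((n : ℂ) + 1 + z))‖) ∧
    (∀ A, Summable fun x : (c.R A : Ideal (𝓞 F)) => ‖φ (Ideal.span {(x : 𝓞 F)}) *
      (Ideal.absNorm (Ideal.span {(x : 𝓞 F)}) : ℂ) ^ (-((n : ℂ) + 1 + z))‖) ∧
    HasProd (fun v : HeightOneSpectrum (𝓞 F) => (1 - φ v.asIdeal *
        (Ideal.absNorm v.asIdeal : ℂ) ^ (-((n : ℂ) + 1 + z)))⁻¹)
      (∑' b : (Ideal (𝓞 F))⁰, φ (b : Ideal (𝓞 F)) *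
        (Ideal.absNorm (b : Ideal (𝓞 F)) : ℂ) ^ (-((n : ℂ) + 1 + z))) ∧
    ∑' b : (Ideal (𝓞 F))⁰, φ (b : Ideal (𝓞 F)) *
        (Ideal.absNorm (b : Ideal (𝓞 F)) : ℂ) ^ (-((n : ℂ) + 1 + z)) =
      ∑ A : ClassGroup (𝓞 F), (φ (c.R A : Ideal (𝓞 F)))⁻¹ *
        (Ideal.absNorm (c.R A : Ideal (𝓞 F)) : ℂ) ^ ((n : ℂ) + 1 + z) *
        (1 / 2 * ∑' x : (c.R A : Ideal (𝓞 F)), φ (Ideal.span {(x : 𝓞 F)}) *
          (Ideal.absNorm (Ideal.span {(x : 𝓞 F)}) : ℂ) ^ (-((n : ℂ) + 1 + z)))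

/-- The `L`-function in terms of Eisenstein series. -/
noncomputable def Lam {F : Type} [Field F] [NumberField F] (q : ℕ) [NeZero q]
    (χ : DirichletCharacter ℂ q) {σ : F →+* ℂ} (n : ℕ) (φ : Ideal (𝓞 F) →*₀ ℂ) (c : Reps σ)
    (z : ℂ) : ℂ :=
  (2 * Real.sqrt q : ℂ) ^ ((n : ℂ) + 1 + z) * ∑ A : ClassGroup (𝓞 F),
    (φ (c.R A : Ideal (𝓞 F)))⁻¹ * φ (Ideal.span {c.Y A}) *
      ((σ (c.X A) / (q * σ (c.Y A))).im : ℂ) ^ (2 * n + 1) *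
      conj (eis q χ n (conj z - n) (σ (c.X A) / (q * σ (c.Y A))))

/-- (LsS) the Dirichlet series over the ideals in terms of Eisenstein series -/
def StLsS : Prop :=
  ∀ (q : ℕ) (_ : NeZero q) (F : Type) (_ : Field F) (_ : NumberField F) (s : 𝓞 F)
    (σ : F →+* ℂ) (χ : DirichletCharacter ℂ q) (cj : 𝓞 F ≃+* 𝓞 F) (n : ℕ)
    (φ : Ideal (𝓞 F) →*₀ ℂ) (c : Reps σ), Dat q s σ χ cj → IsCan q s σ (2 * n + 1) φ →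
    (∀ A, s ∣ c.X A) → (∀ A, IsCoprime (c.R A : Ideal (𝓞 F)) (Ideal.span {s})) →
    ∀ z : ℂ, 1 < z.re →
      ∑' b : (Ideal (𝓞 F))⁰, φ (b : Ideal (𝓞 F)) *
        (Ideal.absNorm (b : Ideal (𝓞 F)) : ℂ) ^ (-((n : ℂ) + 1 + z)) = Lam q χ n φ c z

/-- (Ls) the `L`-function -/
def StLs : Prop :=
  ∀ (q : ℕ) (_ : NeZero q) (F : Type) (_ : Field F) (_ : NumberField F) (s : 𝓞 F)
    (σ : F →+* ℂ) (χ : DirichletCharacter ℂ q) (cj : 𝓞 F ≃+* 𝓞 F) (n : ℕ)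
    (φ : Ideal (𝓞 F) →*₀ ℂ) (c : Reps σ), Dat q s σ χ cj → IsCan q s σ (2 * n + 1) φ →
    (∀ A, s ∣ c.X A) → (∀ A, IsCoprime (c.R A : Ideal (𝓞 F)) (Ideal.span {s})) →
    IsLF φ (n + 1) (Lam q χ n φ c)

/-- (Rep) representatives with a basis whose first member is divisible by `s` -/
def StRep : Prop :=
  ∀ (q : ℕ) (F : Type) (_ : Field F) (_ : NumberField F) (s : 𝓞 F) (σ : F →+* ℂ)
    (χ : DirichletCharacter ℂ q) (cj : 𝓞 F ≃+* 𝓞 F), Dat q s σ χ cj →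
    ∃ c : Reps σ, (∀ A, s ∣ c.X A) ∧ ∀ A, IsCoprime (c.R A : Ideal (𝓞 F)) (Ideal.span {s})

/-- (Val) the central value as a sum over pairs of classes -/
def StVal : Prop :=
  ∀ (q : ℕ) (_ : NeZero q) (F : Type) (_ : Field F) (_ : NumberField F) (s : 𝓞 F)
    (σ : F →+* ℂ) (χ : DirichletCharacter ℂ q) (cj : 𝓞 F ≃+* 𝓞 F) (n : ℕ)
    (φ : Ideal (𝓞 F) →*₀ ℂ) (c : Reps σ), Dat q s σ χ cj → IsCan q s σ (2 * n + 1) φ →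
    ∃ ε : ℂ, ε ≠ 0 ∧ Lam q χ n φ c 0 = ε * ∑ A : ClassGroup (𝓞 F), ∑ B : ClassGroup (𝓞 F),
      GG q σ n φ (c.R A : Ideal (𝓞 F)) (c.R B : Ideal (𝓞 F)) (c.X A) (c.Y A)

/-- (Bij) the classes of the ideals attached to pairs -/
def StBij : Prop :=
  ∀ (q : ℕ) (F : Type) (_ : Field F) (_ : NumberField F) (s : 𝓞 F) (σ : F →+* ℂ)
    (χ : DirichletCharacter ℂ q) (cj : 𝓞 F ≃+* 𝓞 F) (P : (Ideal (𝓞 F))⁰)
    (I J : ClassGroup (𝓞 F) → (Ideal (𝓞 F))⁰), Dat q s σ χ cj →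
    (∀ A, ClassGroup.mk0 (I A) = A) → (∀ A, ClassGroup.mk0 (J A) = A) →
    ∃ e : ClassGroup (𝓞 F) × ClassGroup (𝓞 F) ≃ ClassGroup (𝓞 F) × ClassGroup (𝓞 F),
      ∀ (p : ClassGroup (𝓞 F) × ClassGroup (𝓞 F)) (a b : (Ideal (𝓞 F))⁰),
        (a : Ideal (𝓞 F)) = (I p.1 : Ideal (𝓞 F)) * (J p.2 : Ideal (𝓞 F)).map
          (cj : 𝓞 F →+* 𝓞 F) →
        (b : Ideal (𝓞 F)) = ((P : Ideal (𝓞 F)) * (I p.1 : Ideal (𝓞 F)) *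
          (J p.2 : Ideal (𝓞 F))).map (cj : 𝓞 F →+* 𝓞 F) →
        e p = (ClassGroup.mk0 a, ClassGroup.mk0 b)

end Pool.Agent.Lib.MP_7c08ba_nt.CN
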