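import Mathlib
import Pool.Agent.Lib.MP_7c08ba_nt.CN.StAn

set_option autoImplicit false

/-!
(Bij) the classes of the ideals attached to pairs.
-/

namespace Pool.Agent.Lib.MP_7c08ba_nt.CN

open NumberField IsDedekindDomain Pool.Agent.Lib.MP_7c08ba_nt.RZ
open scoped nonZeroDivisors

namespace ABijAux

theorem mk_conj {F : Type} [Field F] [NumberField F] (cj : 𝓞 F ≃+* 𝓞 F)
    (h : ∀ a : Ideal (𝓞 F), a * a.map (cj : 𝓞 F →+* 𝓞 F) =
      Ideal.span {(Ideal.absNorm a : 𝓞 F)})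
    (K L : (Ideal (𝓞 F))⁰)
    (e : (L : Ideal (𝓞 F)) = (K : Ideal (𝓞 F)).map (cj : 𝓞 F →+* 𝓞 F)) :
    ClassGroup.mk0 L = (ClassGroup.mk0 K)⁻¹ := by
  rw [eq_inv_iff_mul_eq_one, mul_comm, ← map_mul]
  have h1 : ((K * L : (Ideal (𝓞 F))⁰) : Ideal (𝓞 F)) =
      Ideal.span {(Ideal.absNorm (K : Ideal (𝓞 F)) : 𝓞 F)} := by
    rw [Submonoid.coe_mul, e, h]
  refine (ClassGroup.mk0_eq_one_iff (K * L).2).2 ?_
  rw [h1]
  exact ⟨⟨_, rfl⟩⟩

/-- In a finite group of odd order squaring is injective. -/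
theorem sq_inj {G : Type} [CommGroup G] [Finite G] (hG : Odd (Nat.card G)) {x y : G}
    (h : x ^ 2 = y ^ 2) : x = y := by
  obtain ⟨k, hk⟩ := hG
  have key : ∀ z : G, (z ^ 2) ^ (k + 1) = z := by
    intro z
    rw [← pow_mul, show 2 * (k + 1) = Nat.card G + 1 by omega, pow_succ, pow_card_eq_one',
      one_mul]
  rw [← key x, ← key y, h]

end ABijAux

open ABijAux in
theorem stBij (h3 : StReps) (h1 : StBas) : StBij := by
  intro q F _ _ s σ χ cj P I J hD hI hJ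
  have hodd := (h3 q F _ _ s σ χ cj hD).1
  obtain ⟨-, -, -, -, -, -, hcj, -⟩ := h1 q F _ _ s σ χ cj hD
  have hinj : Function.Injective (fun p : ClassGroup (𝓞 F) × ClassGroup (𝓞 F) =>
      (p.1 * p.2⁻¹, (ClassGroup.mk0 P * p.1 * p.2)⁻¹)) := by
    rintro ⟨x, y⟩ ⟨x', y'⟩ hxy
    simp only [Prod.mk.injEq] at hxy
    obtain ⟨e1, e2⟩ := hxy
    have e3 : x * y = x' * y' := by
      have := inv_injective e2
      rw [mul_assoc, mul_assoc] at this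
      exact mul_left_cancel this
    have e4 : x ^ 2 = x' ^ 2 := by
      calc x ^ 2 = (x * y⁻¹) * (x * y) := by
            rw [pow_two, mul_mul_mul_comm, inv_mul_cancel, mul_one]
        _ = (x' * y'⁻¹) * (x' * y') := by rw [e1, e3]
        _ = x' ^ 2 := by rw [pow_two, mul_mul_mul_comm, inv_mul_cancel, mul_one]
    have e5 := sq_inj hodd e4
    subst e5
    exact Prod.ext rfl (mul_left_cancel e3)
  refine ⟨Equiv.ofBijective _ (Finite.injective_iff_bijective.1 hinj), ?_⟩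
  intro p a b ha hb
  have hJ0 : ∀ K : (Ideal (𝓞 F))⁰, (K : Ideal (𝓞 F)).map (cj : 𝓞 F →+* 𝓞 F) ∈
      (Ideal (𝓞 F))⁰ := by
    intro K
    rw [mem_nonZeroDivisors_iff_ne_zero]
    intro h0
    have h2 := hcj (K : Ideal (𝓞 F))
    rw [h0, mul_zero] at h2
    have h3 : (Ideal.absNorm (K : Ideal (𝓞 F)) : 𝓞 F) = 0 := by
      have := h2.symm
      rwa [Ideal.zero_eq_bot, Ideal.span_singleton_eq_bot] at this
    have h4 : Ideal.absNorm (K : Ideal (𝓞 F)) = 0 := by exact_mod_cast h3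
    exact nonZeroDivisors.coe_ne_zero K (Ideal.absNorm_eq_zero_iff.1 h4)
  change (p.1 * p.2⁻¹, (ClassGroup.mk0 P * p.1 * p.2)⁻¹) = _
  refine Prod.ext ?_ ?_
  · have e1 : a = I p.1 * ⟨_, hJ0 (J p.2)⟩ := Subtype.ext ha
    rw [e1, map_mul, hI, mk_conj cj hcj (J p.2) ⟨_, hJ0 (J p.2)⟩ rfl, hJ]
  · have e2 : (b : Ideal (𝓞 F)) =
        ((P * I p.1 * J p.2 : (Ideal (𝓞 F))⁰) : Ideal (𝓞 F)).map (cj : 𝓞 F →+* 𝓞 F) := hb
    rw [mk_conj cj hcj (P * I p.1 * J p.2) b e2, map_mul, map_mul, hI, hJ]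

end Pool.Agent.Lib.MP_7c08ba_nt.CN
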