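import Mathlib
import Pool.Agent.Lib.MP_7c08ba_nt.CN.StAn

set_option autoImplicit false

/-!
Project CN, analytic part: module CM (the ideals attached to a pair).
-/

namespace Pool.Agent.Lib.MP_7c08ba_nt.CN

open NumberField IsDedekindDomain MeasureTheory Polynomial Pool.Agent.Lib.MP_7c08ba_nt.RZ
open scoped nonZeroDivisors ComplexConjugate

section

variable {F : Type} [Field F] [NumberField F]

/-- Products of the ideals `(M, g)`. -/
theorem acm_mul (g : 𝓞 F) {M N : ℕ} (h : M.Coprime N) : idl g M * idl g N = idl g (M * N) := by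
  unfold idl
  rw [Ideal.span_pair_mul_span_pair]
  apply le_antisymm
  · rw [Ideal.span_le]
    have hg : g ∈ Ideal.span {((M * N : ℕ) : 𝓞 F), g} := Ideal.subset_span (by simp)
    have hMN : ((M * N : ℕ) : 𝓞 F) ∈ Ideal.span {((M * N : ℕ) : 𝓞 F), g} :=
      Ideal.subset_span (by simp)
    rintro x hx
    simp only [Set.mem_insert_iff, Set.mem_singleton_iff] at hx
    rcases hx with rfl | rfl | rfl | rfl
    · rw [← Nat.cast_mul]
      exact hMN
    · exact Ideal.mul_mem_left _ _ hg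
    · exact Ideal.mul_mem_right _ _ hg
    · exact Ideal.mul_mem_left _ _ hg
  · rw [Ideal.span_le]
    rintro x hx
    simp only [Set.mem_insert_iff, Set.mem_singleton_iff] at hx
    rcases hx with rfl | rfl
    · rw [Nat.cast_mul]
      exact Ideal.subset_span (by simp)
    · have h1 : IsCoprime (M : ℤ) (N : ℤ) := Nat.isCoprime_iff_coprime.2 h
      obtain ⟨u, v, huv⟩ := h1
      have h2 : (u : 𝓞 F) * M + v * N = 1 := by exact_mod_cast congrArg (Int.cast : ℤ → 𝓞 F) huv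
      have h3 : x = u * (M * x) + v * (x * N) := by linear_combination (-x) * h2
      have h4 : (M : 𝓞 F) * x ∈ Ideal.span {(M : 𝓞 F) * N, (M : 𝓞 F) * x, x * N, x * x} :=
        Ideal.subset_span (by simp)
      have h5 : x * (N : 𝓞 F) ∈ Ideal.span {(M : 𝓞 F) * N, (M : 𝓞 F) * x, x * N, x * x} :=
        Ideal.subset_span (by simp)
      have h6 := Ideal.add_mem _ (Ideal.mul_mem_left _ (u : 𝓞 F) h4)
        (Ideal.mul_mem_left _ (v : 𝓞 F) h5)
      rwa [← h3] at h6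

omit [NumberField F] in
/-- The ideal `(d, g)` depends only on `g` modulo `d`. -/
theorem acm_congr {g g' : 𝓞 F} {d : ℕ} {c : 𝓞 F} (h : g' = g + d * c) : idl g' d = idl g d := by
  unfold idl
  apply le_antisymm
  · rw [Ideal.span_le]
    rintro x hx
    simp only [Set.mem_insert_iff, Set.mem_singleton_iff] at hx
    rcases hx with rfl | rfl
    · exact Ideal.subset_span (by simp)
    · rw [h]
      exact Ideal.add_mem _ (Ideal.subset_span (by simp))
        (Ideal.mul_mem_right _ _ (Ideal.subset_span (by simp)))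
  · rw [Ideal.span_le]
    rintro x hx
    simp only [Set.mem_insert_iff, Set.mem_singleton_iff] at hx
    rcases hx with rfl | rfl
    · exact Ideal.subset_span (by simp)
    · have h1 : x = g' + d * (-c) := by rw [h]; ring
      rw [h1]
      exact Ideal.add_mem _ (Ideal.subset_span (by simp))
        (Ideal.mul_mem_right _ _ (Ideal.subset_span (by simp)))

omit [NumberField F] in
theorem acm_neg (g : 𝓞 F) (d : ℕ) : idl (-g) d = idl g d := by
  unfold idl
  apply le_antisymm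
  · rw [Ideal.span_le]
    rintro x hx
    simp only [Set.mem_insert_iff, Set.mem_singleton_iff] at hx
    rcases hx with rfl | rfl
    · exact Ideal.subset_span (by simp)
    · exact (Ideal.neg_mem_iff _).2 (Ideal.subset_span (by simp))
  · rw [Ideal.span_le]
    rintro x hx
    simp only [Set.mem_insert_iff, Set.mem_singleton_iff] at hx
    rcases hx with rfl | rfl
    · exact Ideal.subset_span (by simp)
    · exact (Ideal.neg_mem_iff _).1 (Ideal.subset_span (by simp))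

omit [NumberField F] in
theorem acm_map (cj : 𝓞 F ≃+* 𝓞 F) (g : 𝓞 F) (d : ℕ) :
    (idl g d).map (cj : 𝓞 F →+* 𝓞 F) = idl (cj g) d := by
  unfold idl
  rw [Ideal.map_span, Set.image_pair]
  simp

variable {q : ℕ} {s : 𝓞 F} {σ : F →+* ℂ} {χ : DirichletCharacter ℂ q} {cj : 𝓞 F ≃+* 𝓞 F}

theorem acm_odd (hD : Dat q s σ χ cj) {b : ℤ} (h : (4 : ℤ) ∣ b ^ 2 + q) : Odd b := by
  by_contra hn
  rw [Int.not_odd_iff_even] at hn
  obtain ⟨k, hk⟩ := hn
  obtain ⟨c, hc⟩ := h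
  have h1 := hD.mod
  have h2 : b ^ 2 = 4 * (k * k) := by rw [hk]; ring
  omega

/-- The basis `g, d` of the ideal `(d, g)`. -/
theorem acm_basis (h1 : StBas) (h2 : StBase) (hD : Dat q s σ χ cj) {b : ℤ} {g : 𝓞 F} {d : ℕ}
    (hd : 0 < d) (hg : 2 * g = b + s) (hdvd : (4 * d : ℤ) ∣ b ^ 2 + q) :
    OBasis σ (idl g d) g (d : 𝓞 F) ∧ Ideal.absNorm (idl g d) = d := by
  obtain ⟨H1, H2, H3, H4, H5, H6, H7, H8, H9, H10, H11⟩ := h1 q F _ _ s σ χ cj hD
  have hq : 0 < q := hD.prime.pos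
  have hs0 : s ≠ 0 := by
    intro h0
    have h3 := hD.sq
    rw [h0, zero_pow two_ne_zero, eq_comm, neg_eq_zero, Nat.cast_eq_zero] at h3
    omega
  obtain ⟨k, hk⟩ := acm_odd hD ((Dvd.intro _ rfl).trans hdvd)
  obtain ⟨c, hc⟩ := hdvd
  have hc' : (b : 𝓞 F) ^ 2 + q = 4 * d * c := by
    exact_mod_cast congrArg (Int.cast : ℤ → 𝓞 F) hc
  have hk' : (b : 𝓞 F) = 2 * k + 1 := by
    exact_mod_cast congrArg (Int.cast : ℤ → 𝓞 F) hk
  have h20 : (2 : 𝓞 F) ≠ 0 := two_ne_zero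
  have hgg : g * g = b * g - d * c := by
    have h40 : (4 : 𝓞 F) ≠ 0 := by
      have h : (4 : 𝓞 F) = 2 * 2 := by norm_num
      rw [h]
      exact mul_ne_zero h20 h20
    apply mul_left_cancel₀ h40
    linear_combination (2 * g + b + s - 2 * b) * hg + hD.sq - hc'
  have hdec : ∀ x : 𝓞 F, ∃ u v : ℤ, x = u + v * g := by
    intro x
    obtain ⟨α, β, hx, γ, hγ⟩ := H1 x
    refine ⟨γ - k * β, β, ?_⟩
    apply mul_left_cancel₀ h20
    have hγ' : (α : 𝓞 F) - β = 2 * γ := by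
      exact_mod_cast congrArg (Int.cast : ℤ → 𝓞 F) hγ
    push_cast
    linear_combination hx + hγ' - (β : 𝓞 F) * hg - (β : 𝓞 F) * hk'
  have hmem : ∀ z : 𝓞 F, z ∈ idl g d ↔ ∃ m n : ℤ, z = (m : 𝓞 F) * g + (n : 𝓞 F) * (d : 𝓞 F) := by
    intro z
    constructor
    · intro hz
      obtain ⟨x, y, rfl⟩ := Ideal.mem_span_pair.1 hz
      obtain ⟨u, v, rfl⟩ := hdec x
      obtain ⟨u', v', rfl⟩ := hdec y
      refine ⟨v * d + u' + v' * b, u - v' * c, ?_⟩
      push_cast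
      linear_combination (v' : 𝓞 F) * hgg
    · rintro ⟨m, n, rfl⟩
      exact Ideal.mem_span_pair.2 ⟨n, m, by ring⟩
  have hσ : 2 * σ g = b + Complex.I * Real.sqrt q := by
    have h3 := congrArg (fun z : 𝓞 F => σ (z : F)) hg
    simp only [map_mul, map_add, map_ofNat, map_intCast] at h3
    rw [hD.im] at h3
    exact_mod_cast h3
  have him : (σ g).im = Real.sqrt q / 2 := by
    have h3 := congrArg Complex.im hσ
    simp only [Complex.mul_im, Complex.add_im, Complex.intCast_im, Complex.I_re, Complex.I_im,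
      Complex.ofReal_re, Complex.ofReal_im, Complex.re_ofNat, Complex.im_ofNat] at h3
    linarith
  have hpos : 0 < (σ g * conj (σ (d : 𝓞 F))).im := by
    have h3 : σ ((d : 𝓞 F) : F) = (d : ℂ) := by simp
    rw [h3, Complex.conj_natCast, Complex.mul_im, Complex.natCast_re, Complex.natCast_im, him]
    have h4 : (0 : ℝ) < Real.sqrt q := Real.sqrt_pos.2 (by exact_mod_cast hq)
    have h5 : (0 : ℝ) < d := by exact_mod_cast hd
    nlinarith [mul_pos h4 h5]
  have hO : OBasis σ (idl g d) g (d : 𝓞 F) := ⟨hmem, hpos⟩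
  refine ⟨hO, ?_⟩
  have h3 := (h2 q F _ _ s σ χ cj hD).2.1 _ _ _ hO
  have h4 : 2 * cj g = b - s := by
    have h5 := congrArg cj hg
    rw [map_mul, map_ofNat, map_add, map_intCast, H3] at h5
    rw [h5, sub_eq_add_neg]
  rw [map_natCast] at h3
  have h6 : s * (Ideal.absNorm (idl g d) : 𝓞 F) = s * (d : 𝓞 F) := by
    rw [← h3]
    apply mul_left_cancel₀ h20
    linear_combination (d : 𝓞 F) * hg - (d : 𝓞 F) * h4
  exact_mod_cast mul_left_cancel₀ hs0 h6

end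

/-- Module CM. -/
theorem stCM (h1 : StBas) (h2 : StBase) : StCM := by
  intro q F _ _ s σ χ cj e d₁ d₂ b a ω g ga hD hP
  obtain ⟨H1, H2, H3, H4, H5, H6, H7, H8, H9, H10, H11⟩ := h1 q F _ _ s σ χ cj hD
  obtain ⟨u, hu⟩ := hP.dvd
  obtain ⟨ω₁, hω₁⟩ := hP.om₁
  obtain ⟨ω₂, hω₂⟩ := hP.om₂
  obtain ⟨c, hc⟩ := hP.ab
  have hd₁ : 0 < d₁ := hP.odd₁.pos
  have hd₂ : 0 < d₂ := hP.odd₂.pos
  have hb1 : (4 * d₁ : ℤ) ∣ b ^ 2 + q := ⟨2 * 2 ^ e * d₁ * d₂ ^ 2 * u, by rw [hu]; ring⟩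
  have hb2 : (4 * d₂ : ℤ) ∣ b ^ 2 + q := ⟨2 * 2 ^ e * d₁ ^ 2 * d₂ * u, by rw [hu]; ring⟩
  have hb3 : (4 * (2 ^ e : ℕ) : ℤ) ∣ b ^ 2 + q :=
    ⟨2 * (d₁ * d₂) ^ 2 * u, by rw [hu]; push_cast; ring⟩
  have hb4 : (4 * (2 ^ e * (d₁ * d₂) : ℕ) : ℤ) ∣ b ^ 2 + q :=
    ⟨2 * (d₁ * d₂) * u, by rw [hu]; push_cast; ring⟩
  have ha : (4 * (d₁ * d₂ : ℕ) : ℤ) ∣ a ^ 2 + q := by
    have h3 : a = ω * b + 2 * (d₁ * d₂) * c := by linarith
    have h4 : ω = 2 * d₁ * ω₁ + 1 := by linarith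
    refine ⟨ω₁ * ω₂ * b ^ 2 + ω * b * c + d₁ * d₂ * c ^ 2 + 2 * 2 ^ e * (d₁ * d₂) * u, ?_⟩
    push_cast
    have h5 : a ^ 2 + (q : ℤ) = (ω - 1) * (ω + 1) * b ^ 2 + 4 * (d₁ * d₂) * (ω * b * c) +
        4 * (d₁ * d₂) * (d₁ * d₂ * c ^ 2) + (b ^ 2 + q) := by
      rw [h3]
      ring
    rw [h5, hω₁, hω₂, hu]
    ring
  have hbo : Odd b := acm_odd hD ((Dvd.intro _ rfl).trans hb1)
  have hao : Odd a := acm_odd hD ((Dvd.intro _ rfl).trans ha)
  have hcop : (2 ^ e).Coprime (d₁ * d₂) := by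
    refine Nat.Coprime.pow_left e ?_
    rw [Nat.coprime_two_left]
    exact hP.odd₁.mul hP.odd₂
  have h20 : (2 : 𝓞 F) ≠ 0 := two_ne_zero
  refine ⟨(acm_basis h1 h2 hD hd₁ hP.two hb1).2, (acm_basis h1 h2 hD hd₂ hP.two hb2).2,
    (acm_basis h1 h2 hD (by positivity) hP.two hb3).2, ?_, ?_, ?_⟩
  · -- the first ideal
    have e1 : idl ga d₁ = idl g d₁ := by
      refine acm_congr (c := (d₂ * c + ω₁ * b : ℤ)) ?_
      apply mul_left_cancel₀ h20
      have h3 : a - b = 2 * (d₁ * (d₂ * c + ω₁ * b)) := by linear_combination hc + b * hω₁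
      have h4 : (a : 𝓞 F) - b = 2 * (d₁ * ((d₂ * c + ω₁ * b : ℤ) : 𝓞 F)) := by
        exact_mod_cast congrArg (Int.cast : ℤ → 𝓞 F) h3
      linear_combination hP.two' - hP.two + h4
    have e2 : idl ga d₂ = idl (cj g) d₂ := by
      rw [← acm_neg (cj g)]
      refine acm_congr (c := (d₁ * c + ω₂ * b : ℤ)) ?_
      apply mul_left_cancel₀ h20
      have h3 : a + b = 2 * (d₂ * (d₁ * c + ω₂ * b)) := by linear_combination hc + b * hω₂
      have h4 : (a : 𝓞 F) + b = 2 * (d₂ * ((d₁ * c + ω₂ * b : ℤ) : 𝓞 F)) := by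
        exact_mod_cast congrArg (Int.cast : ℤ → 𝓞 F) h3
      have h5 : 2 * cj g = b - s := by
        have h6 := congrArg cj hP.two
        rw [map_mul, map_ofNat, map_add, map_intCast, H3] at h6
        rw [h6, sub_eq_add_neg]
      linear_combination hP.two' + h5 + h4
    rw [acm_map, ← e1, ← e2, acm_mul ga hP.cop]
    exact (acm_basis h1 h2 hD (Nat.mul_pos hd₁ hd₂) hP.two' ha).1
  · -- divisibility
    obtain ⟨a', ha'⟩ := hP.qa
    obtain ⟨k, hk⟩ := hbo
    have ha'o : Odd a' := by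
      rw [ha'] at hao
      exact (Int.odd_mul.1 hao).2
    obtain ⟨l, hl⟩ := ha'o
    refine ⟨-a' * g + (2 * l * k + l + k + 1 : ℤ), ?_⟩
    apply mul_left_cancel₀ h20
    have e1 : (a : 𝓞 F) = q * a' := by exact_mod_cast congrArg (Int.cast : ℤ → 𝓞 F) ha'
    have e2 : (b : 𝓞 F) = 2 * k + 1 := by exact_mod_cast congrArg (Int.cast : ℤ → 𝓞 F) hk
    have e3 : (a' : 𝓞 F) = 2 * l + 1 := by exact_mod_cast congrArg (Int.cast : ℤ → 𝓞 F) hl
    push_cast
    linear_combination hP.two' + e1 + (a' : 𝓞 F) * hD.sq + s * a' * hP.two + s * a' * e2 +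
      s * (2 * k + 1) * e3
  · -- the second ideal
    intro x
    rw [mul_assoc, acm_mul g hP.cop, acm_mul g hcop]
    have h3 := (h2 q F _ _ s σ χ cj hD).2.2.2.2.2.1 _ _ _
      (acm_basis h1 h2 hD (Nat.mul_pos (by positivity) (Nat.mul_pos hd₁ hd₂)) hP.two hb4).1
    rw [h3.mem x, map_natCast]
    constructor
    · rintro ⟨m, n, rfl⟩
      exact ⟨n, m, by ring⟩
    · rintro ⟨m, k, rfl⟩
      exact ⟨k, m, by ring⟩

end Pool.Agent.Lib.MP_7c08ba_nt.CN
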