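import Mathlib
import Pool.Agent.Lib.MP_7c08ba_nt.CN.StAn

set_option autoImplicit false

/-!
Project CN, module Cj: the values of the character and the conjugation.
-/

namespace Pool.Agent.Lib.MP_7c08ba_nt.CN

open NumberField IsDedekindDomain Pool.Agent.Lib.MP_7c08ba_nt.RZ
open scoped nonZeroDivisors ComplexConjugate

theorem stCj (h1 : StBas) (h3 : StReps) : StCj := by
  intro q F _ _ s σ χ cj n φ hD hφ
  obtain ⟨-, hcc, hcs, hsub, hmul, hnsq, hN, -, hprime, hrep, hdvd⟩ := h1 q F _ _ s σ χ cj hD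
  obtain ⟨hodd, -⟩ := h3 q F _ _ s σ χ cj hD
  have hq1 : 1 < q := hD.prime.one_lt
  have hs0 : s ≠ 0 := by
    rintro rfl
    have h := (hdvd 1).mp
    have h2 := (hdvd q).mpr dvd_rfl
    rw [zero_dvd_iff] at h2
    have h4 : (q : 𝓞 F) = 0 := by exact_mod_cast h2
    exact (by omega : q ≠ 0) (by exact_mod_cast h4)
  have hsI : (Ideal.span {s} : Ideal (𝓞 F)) ≠ ⊥ := by
    rwa [Ne, Ideal.span_singleton_eq_bot]
  have hmax : (Ideal.span {s} : Ideal (𝓞 F)).IsMaximal := hprime.isMaximal hsI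
  -- coprimality
  have hcop : ∀ a : Ideal (𝓞 F), ¬ IsCoprime a (Ideal.span {s}) ↔ a ≤ Ideal.span {s} := by
    intro a
    constructor
    · intro h
      by_contra hle
      apply h
      rw [Ideal.isCoprime_iff_sup_eq]
      by_contra hne
      have h5 : (Ideal.span {s} : Ideal (𝓞 F)) ≤ a ⊔ Ideal.span {s} := le_sup_right
      have h6 := hmax.eq_of_le hne h5
      exact hle (by rw [h6]; exact le_sup_left)
    · intro h h'
      rw [Ideal.isCoprime_iff_sup_eq, sup_eq_right.mpr h] at h'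
      exact hprime.ne_top h'
  have hφs : φ (Ideal.span {s}) = 0 := by
    have h := hφ s 0 hs0 (by simp)
    rw [h, jacobiSym.zero_left hq1]
    simp
  have hzero : ∀ a : Ideal (𝓞 F), ¬ IsCoprime a (Ideal.span {s}) → φ a = 0 := by
    intro a ha
    obtain ⟨a', rfl⟩ := Ideal.dvd_iff_le.mpr ((hcop a).mp ha)
    rw [map_mul, hφs, zero_mul]
  have hmain : ∀ a : Ideal (𝓞 F), IsCoprime a (Ideal.span {s}) →
      jacobiSym (Ideal.absNorm a) q = 1 ∧
        ‖φ a‖ ^ 2 = (Ideal.absNorm a : ℝ) ^ (2 * n + 1) := by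
    intro a ha
    set h := Nat.card (ClassGroup (𝓞 F)) with hh
    have hh0 : h ≠ 0 := by
      rintro h0
      rw [h0] at hodd
      exact absurd hodd (by decide)
    have ha0 : a ≠ ⊥ := by
      rintro rfl
      exact ((hcop ⊥).mpr bot_le) ha
    have hamem : a ∈ (Ideal (𝓞 F))⁰ := mem_nonZeroDivisors_of_ne_zero ha0
    have hprin : (a ^ h).IsPrincipal := by
      have h7 : ClassGroup.mk0 (⟨a, hamem⟩ : (Ideal (𝓞 F))⁰) ^ h = 1 := pow_card_eq_one'
      rw [← map_pow] at h7
      have h8 := (ClassGroup.mk0_eq_one_iff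
        (I := ((⟨a, hamem⟩ : (Ideal (𝓞 F))⁰) ^ h : (Ideal (𝓞 F))⁰).1)
        ((⟨a, hamem⟩ : (Ideal (𝓞 F))⁰) ^ h : (Ideal (𝓞 F))⁰).2).mp h7
      simpa using h8
    obtain ⟨t, ht⟩ := hprin.principal
    have ht : a ^ h = Ideal.span {t} := ht
    have hcopt : IsCoprime (Ideal.span {t}) (Ideal.span {s}) := by
      rw [← ht]
      exact ha.pow_left
    have hst : ¬ s ∣ t := by
      intro hst
      exact (hcop _).mpr ((Ideal.span_singleton_le_span_singleton).mpr hst) hcopt
    have ht0 : t ≠ 0 := by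
      rintro rfl
      exact hst (dvd_zero s)
    obtain ⟨t0, ht0'⟩ := hrep t
    have hqt0 : ¬ (q : ℤ) ∣ t0 := by
      intro hd
      have := (hdvd t0).mpr hd
      exact hst ((dvd_sub_left this).mp ht0')
    have hNt : Ideal.absNorm (Ideal.span {t}) = Ideal.absNorm a ^ h := by
      rw [← ht, map_pow]
    have hcong : (q : ℤ) ∣ ((Ideal.absNorm a : ℤ)) ^ h - t0 ^ 2 := by
      rw [← hdvd]
      push_cast
      have h9 : ((Ideal.absNorm a : 𝓞 F)) ^ h = t * cj t := by
        rw [hmul t, hNt]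
        push_cast
        rfl
      rw [h9]
      have h10 : t * cj t - (t0 : 𝓞 F) ^ 2 = (t - t0) * (t + t0) - t * (t - cj t) := by ring
      rw [h10]
      exact dvd_sub (ht0'.mul_right _) ((hsub t).mul_left _)
    have hj : jacobiSym ((Ideal.absNorm a : ℤ) ^ h) q = 1 := by
      have h11 : jacobiSym ((Ideal.absNorm a : ℤ) ^ h) q = jacobiSym (t0 ^ 2) q := by
        apply jacobiSym.mod_left'
        exact (Int.emod_eq_emod_iff_emod_sub_eq_zero).mpr (Int.emod_eq_zero_of_dvd hcong)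
      rw [h11, pow_two, jacobiSym.mul_left, ← pow_two]
      apply jacobiSym.sq_one
      rw [Int.gcd_comm]
      have hpz : Prime (q : ℤ) := Nat.prime_iff_prime_int.mp hD.prime
      have := (Int.isCoprime_iff_gcd_eq_one (m := (q : ℤ)) (n := t0)).mp
        ((Prime.coprime_iff_not_dvd hpz).mpr hqt0)
      exact this
    have hj1 : jacobiSym (Ideal.absNorm a) q ^ h = 1 := by
      rw [← jacobiSym.pow_left]
      exact hj
    have hjac : jacobiSym (Ideal.absNorm a) q = 1 := by
      rcases jacobiSym.trichotomy (Ideal.absNorm a : ℤ) q with h12 | h12 | h12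
      · rw [h12, zero_pow hh0] at hj1
        exact absurd hj1 (by norm_num)
      · exact h12
      · rw [h12, hodd.neg_one_pow] at hj1
        exact absurd hj1 (by norm_num)
    refine ⟨hjac, ?_⟩
    have hφt : φ a ^ h = (jacobiSym t0 q : ℂ) * σ t ^ (2 * n + 1) := by
      rw [← map_pow, ht]
      exact hφ t t0 ht0 ht0'
    have hnorm1 : ‖(jacobiSym t0 q : ℂ)‖ = 1 := by
      rcases jacobiSym.trichotomy t0 q with h12 | h12 | h12
      · exfalso
        rw [jacobiSym.eq_zero_iff] at h12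
        have hpz : Prime (q : ℤ) := Nat.prime_iff_prime_int.mp hD.prime
        have h13 := (Int.isCoprime_iff_gcd_eq_one (m := (q : ℤ)) (n := t0)).mp
          ((Prime.coprime_iff_not_dvd hpz).mpr hqt0)
        rw [Int.gcd_comm] at h13
        exact h12.2 h13
      · rw [h12]; simp
      · rw [h12]; simp
    have h14 : (‖φ a‖ ^ 2) ^ h = ((Ideal.absNorm a : ℝ) ^ (2 * n + 1)) ^ h := by
      calc (‖φ a‖ ^ 2) ^ h = ‖φ a ^ h‖ ^ 2 := by
            rw [norm_pow, ← pow_mul, ← pow_mul, mul_comm]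
        _ = (‖σ t‖ ^ 2) ^ (2 * n + 1) := by
            rw [hφt, norm_mul, hnorm1, one_mul, norm_pow, ← pow_mul, ← pow_mul, mul_comm]
        _ = ((Ideal.absNorm a : ℝ) ^ h) ^ (2 * n + 1) := by
            rw [← Complex.normSq_eq_norm_sq, hnsq t, hNt]
            push_cast
            rfl
        _ = _ := by rw [← pow_mul, ← pow_mul, mul_comm]
    exact (pow_left_inj₀ (by positivity) (by positivity) hh0).mp h14
  refine ⟨fun a => by rw [mul_comm, hN], ?_, hmain, hzero⟩
  intro a
  by_cases ha : IsCoprime a (Ideal.span {s})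
  · obtain ⟨hjac, hsq⟩ := hmain a ha
    have ha0 : a ≠ ⊥ := by
      rintro rfl
      exact ((hcop ⊥).mpr bot_le) ha
    have hNa : Ideal.absNorm a ≠ 0 := by
      rw [Ne, Ideal.absNorm_eq_zero_iff]
      exact ha0
    have h15 : φ (a.map (cj : 𝓞 F →+* 𝓞 F)) * φ a = (Ideal.absNorm a : ℂ) ^ (2 * n + 1) := by
      rw [← map_mul, mul_comm (Ideal.map _ a), hN]
      have h16 := hφ (Ideal.absNorm a : 𝓞 F) (Ideal.absNorm a : ℤ) (by exact_mod_cast hNa)
        (by simp)
      rw [h16, hjac]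
      simp
    have h17 : conj (φ a) * φ a = (Ideal.absNorm a : ℂ) ^ (2 * n + 1) := by
      rw [mul_comm, Complex.mul_conj, Complex.normSq_eq_norm_sq, hsq]
      push_cast
      rfl
    have hne : φ a ≠ 0 := by
      intro h0
      rw [h0, mul_zero] at h17
      exact pow_ne_zero _ (by exact_mod_cast hNa) h17.symm
    exact mul_right_cancel₀ hne (h15.trans h17.symm)
  · have hle := (hcop a).mp ha
    have h18 : a.map (cj : 𝓞 F →+* 𝓞 F) ≤ Ideal.span {s} := by
      calc a.map (cj : 𝓞 F →+* 𝓞 F) ≤ (Ideal.span {s}).map (cj : 𝓞 F →+* 𝓞 F) :=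
            Ideal.map_mono hle
        _ = Ideal.span {s} := by
            rw [Ideal.map_span, Set.image_singleton]
            have : (cj : 𝓞 F →+* 𝓞 F) s = -s := hcs
            rw [this, Ideal.span_singleton_neg]
    rw [hzero a ha, hzero _ ((hcop _).mpr h18), map_zero]

end Pool.Agent.Lib.MP_7c08ba_nt.CN
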