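import Mathlib
import Pool.Agent.Lib.MP_7c08ba_nt.CN.StAn

set_option autoImplicit false

/-!
Module (Dec): the Dirichlet series over the ideals, Euler product and decomposition into classes.
-/

namespace Pool.Agent.Lib.MP_7c08ba_nt.CN

open NumberField IsDedekindDomain MeasureTheory Polynomial Pool.Agent.Lib.MP_7c08ba_nt.RZ
open scoped nonZeroDivisors ComplexConjugate

namespace DecAux

section

variable {F : Type} [Field F]

lemma bot_eq (φ : Ideal (𝓞 F) →*₀ ℂ) : φ ⊥ = 0 := by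
  rw [← Ideal.zero_eq_bot]
  exact map_zero φ

lemma top_eq (φ : Ideal (𝓞 F) →*₀ ℂ) : φ ⊤ = 1 := by
  rw [← Ideal.one_eq_top]
  exact map_one φ

end

variable {F : Type} [Field F] [NumberField F]

/-- The character times a power of the norm. -/
noncomputable def gz (φ : Ideal (𝓞 F) →*₀ ℂ) (w : ℂ) : Ideal (𝓞 F) →*₀ ℂ where
  toFun b := φ b * (Ideal.absNorm b : ℂ) ^ w
  map_zero' := by simp [bot_eq]
  map_one' := by simp [top_eq]
  map_mul' a b := by
    rw [map_mul, map_mul, Nat.cast_mul, Complex.natCast_mul_natCast_cpow]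
    ring

lemma summable_pairs (u : ℂ) (hu : 0 < u.im) (k : ℝ) (hk : 2 < k) :
    Summable fun p : ℤ × ℤ => ‖(p.1 : ℂ) * u + p.2‖ ^ (-k) := by
  have h1 := EisensteinSeries.summable_one_div_norm_rpow hk
  have h2 : Summable fun p : ℤ × ℤ =>
      ‖((finTwoArrowEquiv ℤ).symm p 0 : ℂ) * u + (finTwoArrowEquiv ℤ).symm p 1‖ ^ (-k) := by
    have h3 : Summable fun x : Fin 2 → ℤ => ‖(x 0 : ℂ) * u + x 1‖ ^ (-k) := by
      refine Summable.of_nonneg_of_le (fun _ => by positivity) (fun x => ?_)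
        (h1.mul_left ((EisensteinSeries.r ⟨u, hu⟩) ^ (-k)))
      exact EisensteinSeries.summand_bound ⟨u, hu⟩ (by linarith) x
    exact h3.comp_injective (finTwoArrowEquiv ℤ).symm.injective
  simpa using h2

lemma summable_lattice (σ : F →+* ℂ) (a : Ideal (𝓞 F)) (X Y : 𝓞 F) (hb : OBasis σ a X Y)
    (k : ℝ) (hk : 2 < k) : Summable fun x : a => ‖σ (x : 𝓞 F)‖ ^ (-k) := by
  have hY : σ (Y : 𝓞 F) ≠ 0 := by
    intro h
    have h1 := hb.pos
    rw [h] at h1
    simp at h1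
  have hu : 0 < (σ (X : 𝓞 F) / σ (Y : 𝓞 F)).im := by
    have h1 := hb.pos
    have h2 : σ (X : 𝓞 F) / σ (Y : 𝓞 F) =
        ((Complex.normSq (σ (Y : 𝓞 F)))⁻¹ : ℝ) * (σ (X : 𝓞 F) * conj (σ (Y : 𝓞 F))) := by
      have h3 : (Complex.normSq (σ (Y : 𝓞 F)) : ℂ) ≠ 0 := by
        exact_mod_cast (Complex.normSq_pos.2 hY).ne'
      rw [Complex.ofReal_inv, div_eq_iff hY]
      field_simp
      rw [mul_assoc, mul_comm (conj (σ (Y : 𝓞 F))), Complex.mul_conj]
    rw [h2, Complex.im_ofReal_mul]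
    exact mul_pos (inv_pos.2 (Complex.normSq_pos.2 hY)) h1
  choose m n hmn using fun x : a => (hb.mem x).1 x.2
  have hinj : Function.Injective fun x : a => ((m x, n x) : ℤ × ℤ) := by
    intro x x' h
    have h1 := (Prod.ext_iff.1 h).1
    have h2 := (Prod.ext_iff.1 h).2
    dsimp only at h1 h2
    apply Subtype.ext
    rw [hmn x, hmn x', h1, h2]
  have h3 := ((summable_pairs _ hu k hk).mul_left (‖σ (Y : 𝓞 F)‖ ^ (-k))).comp_injective hinj
  refine h3.congr fun x => ?_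
  dsimp only [Function.comp]
  rw [← Real.mul_rpow (norm_nonneg _) (norm_nonneg _), ← norm_mul]
  congr 2
  have h4 : σ ((x : 𝓞 F) : F) = (m x : ℂ) * σ (X : 𝓞 F) + (n x : ℂ) * σ (Y : 𝓞 F) := by
    rw [hmn x]
    simp
  rw [h4]
  field_simp

end DecAux

/-- (Dec) the Dirichlet series over the ideals: Euler product and decomposition into classes -/
theorem stDec (h1 : StEulId) (h2 : RZ.StBas) (h3 : RZ.StIdSum) : StDec := by
  intro q F _ _ s σ χ cj n φ c hD hφ hR z hz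
  obtain ⟨-, -, -, -, -, hN, -⟩ := h2 q F _ _ s σ χ cj hD
  have hdiv : ∀ x : 𝓞 F, (Ideal.absNorm (Ideal.span {x}) : ℝ) = ‖σ (x : F)‖ ^ (2 : ℝ) := by
    intro x
    rw [← hN x, Complex.normSq_eq_norm_sq]
    norm_cast
  have hle : ∀ x : 𝓞 F, ‖φ (Ideal.span {x}) *
      (Ideal.absNorm (Ideal.span {x}) : ℂ) ^ (-((n : ℂ) + 1 + z))‖ ≤
      ‖σ (x : F)‖ ^ (-(1 + 2 * z.re)) := by
    intro x
    by_cases hx : x = 0
    · subst hx
      have : φ (Ideal.span {(0 : 𝓞 F)}) = 0 := by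
        simp [DecAux.bot_eq]
      rw [this, zero_mul, norm_zero]
      positivity
    · have hN0 : Ideal.absNorm (Ideal.span {x}) ≠ 0 := by
        rw [Ne, Ideal.absNorm_eq_zero_iff, Ideal.span_singleton_eq_bot]
        exact hx
      have hNp : (0 : ℝ) < Ideal.absNorm (Ideal.span {x}) := by
        exact_mod_cast Nat.pos_of_ne_zero hN0
      rw [norm_mul, Complex.norm_natCast_cpow_of_pos (Nat.pos_of_ne_zero hN0)]
      refine (mul_le_mul_of_nonneg_right (hφ _) (by positivity)).trans ?_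
      rw [← Real.rpow_add hNp, hdiv x, ← Real.rpow_mul (norm_nonneg _)]
      apply le_of_eq
      congr 1
      simp
      ring
  have hs : ∀ A, Summable fun x : (c.R A : Ideal (𝓞 F)) => ‖φ (Ideal.span {(x : 𝓞 F)}) *
      (Ideal.absNorm (Ideal.span {(x : 𝓞 F)}) : ℂ) ^ (-((n : ℂ) + 1 + z))‖ := by
    intro A
    refine Summable.of_nonneg_of_le (fun _ => norm_nonneg _) (fun x => hle x)
      (DecAux.summable_lattice σ _ _ _ (c.bas A) (1 + 2 * z.re) (by linarith))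
  have hmain := h3 q F _ _ s σ χ cj c
    (fun b => φ b * (Ideal.absNorm b : ℂ) ^ (-((n : ℂ) + 1 + z)))
    (fun A x => (φ (c.R A : Ideal (𝓞 F)))⁻¹ *
        (Ideal.absNorm (c.R A : Ideal (𝓞 F)) : ℂ) ^ ((n : ℂ) + 1 + z) *
        (φ (Ideal.span {x}) * (Ideal.absNorm (Ideal.span {x}) : ℂ) ^ (-((n : ℂ) + 1 + z)))) hD
    (fun A => by simp [DecAux.bot_eq])
    (fun A x b hx hb => by
      have hA := hR A
      have hNA : (Ideal.absNorm (c.R A : Ideal (𝓞 F)) : ℂ) ≠ 0 := by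
        have : Ideal.absNorm (c.R A : Ideal (𝓞 F)) ≠ 0 := by
          rw [Ne, Ideal.absNorm_eq_zero_iff]
          exact nonZeroDivisors.coe_ne_zero (c.R A)
        exact_mod_cast this
      rw [← hb, map_mul, map_mul, Nat.cast_mul, Complex.natCast_mul_natCast_cpow,
        Complex.cpow_neg (Ideal.absNorm (c.R A : Ideal (𝓞 F)) : ℂ)]
      have h4 : (Ideal.absNorm (c.R A : Ideal (𝓞 F)) : ℂ) ^ ((n : ℂ) + 1 + z) ≠ 0 := by
        rw [Ne, Complex.cpow_eq_zero_iff]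
        tauto
      field_simp)
    (fun A => by
      have := (hs A).mul_left ‖(φ (c.R A : Ideal (𝓞 F)))⁻¹ *
        (Ideal.absNorm (c.R A : Ideal (𝓞 F)) : ℂ) ^ ((n : ℂ) + 1 + z)‖
      refine this.congr fun x => ?_
      rw [norm_mul _ (φ (Ideal.span {(x : 𝓞 F)}) * _)])
  obtain ⟨hm1, hm2⟩ := hmain
  refine ⟨hm1, hs, ?_, ?_⟩
  · exact h1 F _ inferInstance (DecAux.gz φ (-((n : ℂ) + 1 + z))) hm1
  · have h5 : ∑' b : (Ideal (𝓞 F))⁰, φ (b : Ideal (𝓞 F)) *
        (Ideal.absNorm (b : Ideal (𝓞 F)) : ℂ) ^ (-((n : ℂ) + 1 + z)) = 1 / 2 *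
        (2 * ∑' b : (Ideal (𝓞 F))⁰, φ (b : Ideal (𝓞 F)) *
        (Ideal.absNorm (b : Ideal (𝓞 F)) : ℂ) ^ (-((n : ℂ) + 1 + z))) := by ring
    rw [h5, ← hm2, Finset.mul_sum]
    refine Finset.sum_congr rfl fun A _ => ?_
    rw [tsum_mul_left]
    ring

end Pool.Agent.Lib.MP_7c08ba_nt.CN
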