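import Pool.Agent.Lib.MP_7c08ba_nt.CN.StAn
import Pool.Agent.Lib.MP_7c08ba_nt.RZ.TrS

set_option autoImplicit false

/-!
(EisF) the Eisenstein series as a sum over all pairs.
-/

namespace Pool.Agent.Lib.MP_7c08ba_nt.CN

open Pool.Agent.Lib.MP_7c08ba_nt.RZ

open RZ.EisBigAux RZ.TrSAux in
/-- (EisF) the Eisenstein series as a sum over all pairs. -/
theorem stEisF : StEisF := by
  intro q _ χ r _ _ hχ hm1 s u hs hu
  have hodd : χ (-1) = -1 := by
    have h1 := hχ (-1)
    rw [hm1] at h1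
    push_cast at h1
    exact h1
  have e : ∀ p : ℤ × ℤ, χ (p.2 : ZMod q) * gE r s ((p.1 : ℂ) * q * u + p.2) =
      HK χ r s u p := by
    intro p
    unfold HK
    rw [show (q : ℂ) * ((p.1 : ℂ) * u) = (p.1 : ℂ) * q * u by ring]
  refine ⟨(summable_HK χ r s u hs hu).congr fun p => by rw [e p], ?_⟩
  rw [eis_eq χ r s hodd u hs hu, tsum_congr e]
  ring

end Pool.Agent.Lib.MP_7c08ba_nt.CN
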