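import Pool.Agent.Lib.MP_7c08ba_nt.CN.StAn

set_option autoImplicit false

/-!
The Euler product of an absolutely summable completely multiplicative function on the ideals
of a number field.
-/

namespace Pool.Agent.Lib.MP_7c08ba_nt.CN

namespace EulIdAux

open Filter Topology NumberField IsDedekindDomain
open scoped nonZeroDivisors

set_option linter.unusedSectionVars false

variable {K : Type} [Field K] [NumberField K]

section Ideals

variable (S : Finset (HeightOneSpectrum (𝓞 K)))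

/-- The ideal with given exponents. -/
noncomputable def idl (e : S → ℕ) : Ideal (𝓞 K) := ∏ i : S, i.1.asIdeal ^ e i

lemma pow_dvd_idl_iff (e : S → ℕ) (i : S) (k : ℕ) : i.1.asIdeal ^ k ∣ idl S e ↔ k ≤ e i := by
  classical
  have hprime : Prime i.1.asIdeal := i.1.prime
  have hne : i.1.asIdeal ≠ 0 := i.1.ne_bot
  have hsplit : idl S e = i.1.asIdeal ^ e i * ∏ j ∈ Finset.univ.erase i, j.1.asIdeal ^ e j := by
    rw [idl]
    exact (Finset.mul_prod_erase _ (fun j : S => j.1.asIdeal ^ e j) (Finset.mem_univ i)).symm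
  constructor
  · intro h
    by_contra hcon
    have hlt : e i + 1 ≤ k := by omega
    have h1 : i.1.asIdeal ^ (e i + 1) ∣ idl S e := (pow_dvd_pow _ hlt).trans h
    rw [hsplit, pow_succ] at h1
    have h2 := (mul_dvd_mul_iff_left (pow_ne_zero (e i) hne)).mp h1
    obtain ⟨j, hj, h3⟩ := (Prime.dvd_finsetProd_iff hprime _).mp h2
    have h4 := hprime.dvd_of_dvd_pow h3
    have h5 : j.1.asIdeal ≤ i.1.asIdeal := Ideal.le_of_dvd h4
    have h6 : j.1.asIdeal = i.1.asIdeal :=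
      j.1.isMaximal.eq_of_le i.1.isPrime.ne_top h5
    exact (Finset.ne_of_mem_erase hj) (Subtype.ext (HeightOneSpectrum.ext h6))
  · intro h
    rw [hsplit]
    exact (pow_dvd_pow _ h).mul_right _

lemma idl_injective : Function.Injective (idl S) := by
  intro e e' h
  ext i
  apply le_antisymm
  · rw [← pow_dvd_idl_iff S e' i, ← h, pow_dvd_idl_iff]
  · rw [← pow_dvd_idl_iff S e i, h, pow_dvd_idl_iff]

lemma map_idl (g : Ideal (𝓞 K) →*₀ ℂ) (e : S → ℕ) :
    g (idl S e) = ∏ i : S, (g i.1.asIdeal) ^ e i := by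
  rw [idl, map_prod]
  exact Finset.prod_congr rfl fun i _ => map_pow _ _ _

end Ideals

lemma summable_all (g : Ideal (𝓞 K) →*₀ ℂ)
    (hg : Summable fun b : (Ideal (𝓞 K))⁰ => ‖g (b : Ideal (𝓞 K))‖) :
    Summable fun b : Ideal (𝓞 K) => ‖g b‖ := by
  have hinj : Function.Injective (Subtype.val : (Ideal (𝓞 K))⁰ → Ideal (𝓞 K)) :=
    Subtype.val_injective
  refine (hinj.summable_iff (f := fun b : Ideal (𝓞 K) => ‖g b‖) ?_).mp hg
  intro b hb
  have hb0 : b = 0 := by
    by_contra h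
    exact hb ⟨⟨b, mem_nonZeroDivisors_of_ne_zero h⟩, rfl⟩
  rw [hb0, map_zero, norm_zero]

lemma hasSum_all (g : Ideal (𝓞 K) →*₀ ℂ)
    (hg : Summable fun b : (Ideal (𝓞 K))⁰ => ‖g (b : Ideal (𝓞 K))‖) :
    HasSum (fun b : Ideal (𝓞 K) => g b) (∑' b : (Ideal (𝓞 K))⁰, g (b : Ideal (𝓞 K))) := by
  have hinj : Function.Injective (Subtype.val : (Ideal (𝓞 K))⁰ → Ideal (𝓞 K)) :=
    Subtype.val_injective
  refine (hinj.hasSum_iff (f := fun b : Ideal (𝓞 K) => g b) ?_).mp ?_
  · intro b hb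
    have hb0 : b = 0 := by
      by_contra h
      exact hb ⟨⟨b, mem_nonZeroDivisors_of_ne_zero h⟩, rfl⟩
    rw [hb0, map_zero]
  · exact (Summable.of_norm hg).hasSum

lemma norm_local (g : Ideal (𝓞 K) →*₀ ℂ)
    (hg : Summable fun b : (Ideal (𝓞 K))⁰ => ‖g (b : Ideal (𝓞 K))‖)
    (v : HeightOneSpectrum (𝓞 K)) : ‖g v.asIdeal‖ < 1 := by
  have h1 : Function.Injective fun k : ℕ => v.asIdeal ^ k := by
    have hne : v.asIdeal ≠ 0 := v.ne_bot
    have hu : ¬ IsUnit v.asIdeal := v.prime.not_isUnit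
    exact pow_injective_of_not_isUnit hu hne
  have h2 := (summable_all g hg).comp_injective h1
  have h3 : Summable fun k : ℕ => ‖g v.asIdeal‖ ^ k := by
    refine h2.congr fun k => ?_
    simp [map_pow, norm_pow]
  have h4 := summable_geometric_iff_norm_lt_one.mp h3
  simpa using h4

lemma prod_geom_eq (g : Ideal (𝓞 K) →*₀ ℂ) (S : Finset (HeightOneSpectrum (𝓞 K))) (M : ℕ)
    [DecidableEq (Ideal (𝓞 K))] [DecidableEq S] :
    ∏ i : S, ∑ k ∈ Finset.range M, (g i.1.asIdeal) ^ k =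
      ∑ I ∈ (Fintype.piFinset (fun _ : S => Finset.range M)).image (idl S), g I := by
  rw [Finset.prod_univ_sum]
  rw [Finset.sum_image (fun a _ b _ h => idl_injective S h)]
  refine Finset.sum_congr rfl fun e _ => ?_
  rw [map_idl]

lemma exists_idl {I : Ideal (𝓞 K)} (hI : I ≠ 0) :
    ∃ S₀ : Finset (HeightOneSpectrum (𝓞 K)), ∀ S : Finset (HeightOneSpectrum (𝓞 K)), S₀ ⊆ S →
      ∃ e : S → ℕ, idl S e = I := by
  classical
  have hfin := Ideal.hasFiniteMulSupport hI
  refine ⟨hfin.toFinset, fun S hS => ?_⟩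
  refine ⟨fun i => (Associates.mk i.1.asIdeal).count (Associates.mk I).factors, ?_⟩
  have h1 := Ideal.finprod_heightOneSpectrum_factorization hI
  rw [finprod_eq_prod_of_mulSupport_subset (s := S) _ (by
    intro v hv
    exact hS (hfin.mem_toFinset.mpr hv))] at h1
  rw [idl]
  rw [← Finset.prod_coe_sort] at h1
  exact h1

/-- The Euler product. -/
theorem tendsto_euler (g : Ideal (𝓞 K) →*₀ ℂ)
    (hg : Summable fun b : (Ideal (𝓞 K))⁰ => ‖g (b : Ideal (𝓞 K))‖) :
    Tendsto (fun S : Finset (HeightOneSpectrum (𝓞 K)) => ∏ v ∈ S, (1 - g v.asIdeal)⁻¹) atTop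
      (𝓝 (∑' b : (Ideal (𝓞 K))⁰, g (b : Ideal (𝓞 K)))) := by
  classical
  have hZ := hasSum_all g hg
  rw [Metric.tendsto_atTop]
  intro ε hε
  have hZ' : Tendsto (fun T : Finset (Ideal (𝓞 K)) => ∑ I ∈ T, g I) atTop
      (𝓝 (∑' b : (Ideal (𝓞 K))⁰, g (b : Ideal (𝓞 K)))) := hZ
  rw [Metric.tendsto_atTop] at hZ'
  obtain ⟨F, hF⟩ := hZ' (ε / 2) (by linarith)
  have hc : ∀ I : Ideal (𝓞 K), ∃ S₀ : Finset (HeightOneSpectrum (𝓞 K)), I ≠ 0 →
      ∀ S : Finset (HeightOneSpectrum (𝓞 K)), S₀ ⊆ S → ∃ e : S → ℕ, idl S e = I := by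
    intro I
    by_cases hI : I = 0
    · exact ⟨∅, fun h => absurd hI h⟩
    · obtain ⟨S₀, h⟩ := exists_idl hI
      exact ⟨S₀, fun _ => h⟩
  choose S₀ hS₀ using hc
  refine ⟨F.biUnion S₀, fun S hS => ?_⟩
  have hS' : ∀ I ∈ F, I ≠ 0 → ∃ e : S → ℕ, idl S e = I := fun I hI hI0 =>
    hS₀ I hI0 S ((Finset.subset_biUnion_of_mem S₀ hI).trans hS)
  have hev : ∀ᶠ M : ℕ in atTop, ∀ I ∈ F, I ≠ 0 →
      I ∈ (Fintype.piFinset (fun _ : S => Finset.range M)).image (idl S) := by
    rw [Filter.eventually_all_finset]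
    intro I hI
    by_cases hI0 : I = 0
    · exact Eventually.of_forall fun M h => absurd hI0 h
    · obtain ⟨e, he⟩ := hS' I hI hI0
      filter_upwards [eventually_ge_atTop (Finset.univ.sup e + 1)] with M hM _
      refine Finset.mem_image.mpr ⟨e, ?_, he⟩
      rw [Fintype.mem_piFinset]
      intro i
      rw [Finset.mem_range]
      have := Finset.le_sup (f := e) (Finset.mem_univ i)
      omega
  have hlim : Tendsto (fun M : ℕ => ∏ i : S, ∑ k ∈ Finset.range M, (g i.1.asIdeal) ^ k) atTop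
      (𝓝 (∏ i : S, (1 - g i.1.asIdeal)⁻¹)) :=
    tendsto_finsetProd _ fun i _ =>
      (hasSum_geometric_of_norm_lt_one (norm_local g hg i.1)).tendsto_sum_nat
  rw [← Finset.prod_coe_sort]
  refine lt_of_le_of_lt ?_ (half_lt_self hε)
  refine le_of_tendsto (hlim.dist tendsto_const_nhds) ?_
  filter_upwards [hev] with M hM
  rw [prod_geom_eq g]
  have h0 : g (0 : Ideal (𝓞 K)) = 0 := map_zero g
  rw [← Finset.sum_insert_zero (a := (0 : Ideal (𝓞 K))) h0]
  refine (hF _ ?_).le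
  intro I hI
  rw [Finset.mem_insert]
  by_cases hI0 : I = 0
  · exact Or.inl hI0
  · exact Or.inr (hM I hI hI0)

end EulIdAux

open NumberField IsDedekindDomain
open scoped nonZeroDivisors

theorem stEulId : StEulId := by
  intro F _ _ g hg
  exact EulIdAux.tendsto_euler g hg

end Pool.Agent.Lib.MP_7c08ba_nt.CN
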