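import Mathlib
import Pool.Agent.Lib.MP_7c08ba_nt.CN.StAn

set_option autoImplicit false

/-!
Project CN, analytic part: the product of two theta series (module Fac).
-/

namespace Pool.Agent.Lib.MP_7c08ba_nt.CN

open NumberField IsDedekindDomain MeasureTheory Polynomial Pool.Agent.Lib.MP_7c08ba_nt.RZ
open scoped nonZeroDivisors ComplexConjugate

namespace AFacAux

/-! ### Bounds and summability -/

lemma exp_abs_le {a : ℝ} (ha : 0 < a) (x : ℝ) :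
    Real.exp |x| ≤ Real.exp (1 / (4 * a)) * Real.exp (a * x ^ 2) := by
  rw [← Real.exp_add, Real.exp_le_exp]
  have h1 : 0 ≤ (2 * a * |x| - 1) ^ 2 := sq_nonneg _
  have h2 : |x| ^ 2 = x ^ 2 := sq_abs x
  have h3 : 1 / (4 * a) + a * x ^ 2 - |x| = (2 * a * |x| - 1) ^ 2 / (4 * a) := by
    rw [← h2]
    field_simp
    ring
  have h4 : 0 ≤ (2 * a * |x| - 1) ^ 2 / (4 * a) := by positivity
  linarith

lemma poly_bd {a : ℝ} (ha : 0 < a) (P : ℤ[X]) :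
    ∃ C : ℝ, 0 ≤ C ∧ ∀ x : ℝ, |aeval x P| ≤ C * Real.exp (a * x ^ 2) := by
  induction P using Polynomial.induction_on' with
  | add P Q hP hQ =>
    obtain ⟨C, hC, h⟩ := hP
    obtain ⟨D, hD, h'⟩ := hQ
    refine ⟨C + D, by positivity, fun x => ?_⟩
    rw [map_add, add_mul]
    exact (abs_add_le _ _).trans (add_le_add (h x) (h' x))
  | monomial n c =>
    refine ⟨|(c : ℝ)| * (n.factorial * Real.exp (1 / (4 * a))), by positivity, fun x => ?_⟩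
    rw [aeval_monomial, abs_mul, abs_pow, eq_intCast]
    have h1 := Real.pow_div_factorial_le_exp |x| (abs_nonneg x) n
    rw [div_le_iff₀ (by positivity)] at h1
    have h2 := exp_abs_le ha x
    have h3 : |x| ^ n ≤ n.factorial * (Real.exp (1 / (4 * a)) * Real.exp (a * x ^ 2)) := by
      refine h1.trans ?_
      rw [mul_comm]
      exact mul_le_mul_of_nonneg_left h2 (by positivity)
    calc |(c : ℝ)| * |x| ^ n ≤
        |(c : ℝ)| * (n.factorial * (Real.exp (1 / (4 * a)) * Real.exp (a * x ^ 2))) :=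
          mul_le_mul_of_nonneg_left h3 (abs_nonneg _)
      _ = _ := by ring

lemma hf_bd (n : ℕ) :
    ∃ C : ℝ, 0 ≤ C ∧ ∀ x : ℝ, |hf n x| ≤ C * Real.exp (-(Real.pi / 2 * x ^ 2)) := by
  obtain ⟨C, hC, h⟩ := poly_bd (show (0 : ℝ) < 1 / 4 by norm_num) (HP n)
  refine ⟨C, hC, fun x => ?_⟩
  have h1 := h (Real.sqrt (2 * Real.pi) * x)
  unfold hf
  rw [abs_mul, abs_of_pos (Real.exp_pos _)]
  have h2 : (Real.sqrt (2 * Real.pi) * x) ^ 2 = 2 * Real.pi * x ^ 2 := by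
    rw [mul_pow, Real.sq_sqrt (by positivity)]
  rw [h2] at h1
  calc |aeval (Real.sqrt (2 * Real.pi) * x) (HP n)| * Real.exp (-(Real.pi * x ^ 2)) ≤
      C * Real.exp (1 / 4 * (2 * Real.pi * x ^ 2)) * Real.exp (-(Real.pi * x ^ 2)) :=
        mul_le_mul_of_nonneg_right h1 (Real.exp_pos _).le
    _ = C * Real.exp (-(Real.pi / 2 * x ^ 2)) := by
        rw [mul_assoc, ← Real.exp_add]
        congr 2
        ring

lemma gauss_sum {a : ℝ} (ha : 0 < a) : Summable fun m : ℤ => Real.exp (-(a * (m : ℝ) ^ 2)) := by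
  have h := summable_pow_mul_jacobiTheta₂_term_bound 0 (T := a / Real.pi)
    (div_pos ha Real.pi_pos) 0
  refine h.congr fun m => ?_
  rw [pow_zero, one_mul]
  congr 1
  have := Real.pi_pos
  field_simp
  ring

lemma hf_sum (n : ℕ) {g : ℝ} (hg : g ≠ 0) : Summable fun m : ℤ => ‖hf n (g * m)‖ := by
  obtain ⟨C, hC, h⟩ := hf_bd n
  have h1 := (gauss_sum (show 0 < Real.pi / 2 * g ^ 2 by positivity)).mul_left C
  refine Summable.of_nonneg_of_le (fun m => norm_nonneg _) (fun m => ?_) h1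
  rw [Real.norm_eq_abs]
  refine (h _).trans (le_of_eq ?_)
  congr 3
  ring

/-- Laguerre polynomials are small compared with exponentials. -/
lemma lag_bd (n : ℕ) : ∃ C : ℝ, 0 ≤ C ∧ ∀ x : ℝ, 0 ≤ x → ‖lag n (x : ℂ)‖ ≤
    C * Real.exp (x / 4) := by
  refine ⟨∑ j ∈ Finset.range (n + 1), (n.choose j : ℝ) * 4 ^ j, by positivity, fun x hx => ?_⟩
  unfold lag
  refine (norm_sum_le _ _).trans ?_
  rw [Finset.sum_mul]
  refine Finset.sum_le_sum fun j _ => ?_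
  rw [norm_div, norm_mul, norm_pow, norm_neg, Complex.norm_natCast, Complex.norm_natCast,
    Complex.norm_of_nonneg hx, mul_div_assoc, mul_assoc]
  refine mul_le_mul_of_nonneg_left ?_ (by positivity)
  have h1 := Real.pow_div_factorial_le_exp (x / 4) (by positivity) j
  calc x ^ j / (j.factorial : ℝ) = 4 ^ j * ((x / 4) ^ j / (j.factorial : ℝ)) := by
        rw [div_pow]
        field_simp
    _ ≤ 4 ^ j * Real.exp (x / 4) := mul_le_mul_of_nonneg_left h1 (by positivity)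

lemma Qz_nonneg (q K d : ℕ) (b : ℤ) (p : ℤ × ℤ) : 0 ≤ Qz q K d b p := by
  unfold Qz
  positivity

lemma Qz_ge {q K d : ℕ} (hq : 0 < q) (hK : 0 < K) (hd : 0 < d) (b : ℤ) (p : ℤ × ℤ) :
    1 / (4 * (1 + (b : ℝ) ^ 2) * (K * d)) * ((p.1 : ℝ) ^ 2 + (p.2 : ℝ) ^ 2) ≤ Qz q K d b p := by
  unfold Qz
  have hKd : (1 : ℝ) ≤ (K : ℝ) * d := by exact_mod_cast Nat.mul_pos hK hd
  have hq' : (1 : ℝ) ≤ q := by exact_mod_cast hq
  have hKd0 : (0 : ℝ) < (K : ℝ) * d := by linarith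
  rw [le_div_iff₀ hKd0]
  obtain ⟨x, hx⟩ : ∃ x : ℝ, x = p.1 := ⟨_, rfl⟩
  obtain ⟨y, hy⟩ : ∃ y : ℝ, y = p.2 := ⟨_, rfl⟩
  obtain ⟨c, hc⟩ : ∃ c : ℝ, c = b := ⟨_, rfl⟩
  obtain ⟨D, hD⟩ : ∃ D : ℝ, D = (K : ℝ) * d := ⟨_, rfl⟩
  rw [← hx, ← hy, ← hc, ← hD]
  rw [← hD] at hKd hKd0
  have h1 : 1 / (4 * (1 + c ^ 2) * D) * (x ^ 2 + y ^ 2) * D =
      (x ^ 2 + y ^ 2) / (4 * (1 + c ^ 2)) := by
    field_simp
  rw [h1, div_le_iff₀ (by positivity)]
  obtain ⟨u, hu⟩ : ∃ u : ℝ, u = D * x - c * y / 2 := ⟨_, rfl⟩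
  rw [← hu]
  have hx1 : x ^ 2 ≤ (D * x) ^ 2 := by
    rw [mul_pow]
    have : (1 : ℝ) ≤ D ^ 2 := one_le_pow₀ hKd
    nlinarith [sq_nonneg x]
  have hx2 : (D * x) ^ 2 ≤ 2 * u ^ 2 + c ^ 2 * y ^ 2 / 2 := by
    have h2 : D * x = u + c * y / 2 := by rw [hu]; ring
    rw [h2]
    nlinarith [sq_nonneg (u - c * y / 2)]
  have h3 : y ^ 2 ≤ q * y ^ 2 := by nlinarith [sq_nonneg y]
  nlinarith [sq_nonneg u, sq_nonneg y, sq_nonneg (c * u), sq_nonneg (c * y), sq_nonneg c,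
    mul_nonneg (sq_nonneg c) (sq_nonneg y), mul_nonneg (sq_nonneg c) (sq_nonneg u)]

lemma norm_ee_I (x : ℝ) : ‖ee (Complex.I * x)‖ = Real.exp (-(2 * Real.pi * x)) := by
  unfold ee
  rw [Complex.norm_exp]
  congr 1
  have h : 2 * (Real.pi : ℂ) * Complex.I * (Complex.I * x) = ((-(2 * Real.pi * x) : ℝ) : ℂ) := by
    push_cast
    linear_combination (2 * (Real.pi : ℂ) * x) * Complex.I_sq
  rw [h, Complex.ofReal_re]

lemma norm_ee_real (x : ℝ) : ‖ee (x : ℂ)‖ = 1 := by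
  unfold ee
  have h : 2 * (Real.pi : ℂ) * Complex.I * (x : ℂ) = ((2 * Real.pi * x : ℝ) : ℂ) * Complex.I := by
    push_cast
    ring
  rw [h, Complex.norm_exp_ofReal_mul_I]

/-- The first clause. -/
lemma sum2 (n q K d : ℕ) (b : ℤ) (hq : 0 < q) (hK : 0 < K) (hd : 0 < d) {y : ℝ} (hy : 0 < y) :
    Summable fun p : ℤ × ℤ => ‖lag n (4 * Real.pi * Qz q K d b p * (y : ℝ)) *
        ee (Complex.I * Qz q K d b p * (y : ℝ))‖ := by
  obtain ⟨C, hC, h⟩ := lag_bd n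
  obtain ⟨c, hc⟩ : ∃ c : ℝ, c = 1 / (4 * (1 + (b : ℝ) ^ 2) * (K * d)) := ⟨_, rfl⟩
  have hK' : (0 : ℝ) < K := by exact_mod_cast hK
  have hd' : (0 : ℝ) < d := by exact_mod_cast hd
  have hc0 : 0 < c := by rw [hc]; positivity
  have ha : 0 < Real.pi * c * y := by positivity
  have h1 := ((gauss_sum ha).mul_of_nonneg (gauss_sum ha) (fun _ => (Real.exp_pos _).le)
    (fun _ => (Real.exp_pos _).le)).mul_left C
  refine Summable.of_nonneg_of_le (fun p => norm_nonneg _) (fun p => ?_) h1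
  have hQ := Qz_nonneg q K d b p
  have hQ2 := Qz_ge hq hK hd b p
  rw [← hc] at hQ2
  have hx : 0 ≤ 4 * Real.pi * Qz q K d b p * y := by positivity
  have h2 := h _ hx
  push_cast at h2
  have h3 := norm_ee_I (Qz q K d b p * y)
  push_cast at h3
  rw [← mul_assoc] at h3
  rw [norm_mul, h3]
  calc ‖lag n (4 * Real.pi * Qz q K d b p * (y : ℝ))‖ *
        Real.exp (-(2 * Real.pi * (Qz q K d b p * y))) ≤
      C * Real.exp (4 * Real.pi * Qz q K d b p * y / 4) *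
        Real.exp (-(2 * Real.pi * (Qz q K d b p * y))) :=
        mul_le_mul_of_nonneg_right h2 (Real.exp_pos _).le
    _ = C * Real.exp (-(Real.pi * y * Qz q K d b p)) := by
        rw [mul_assoc, ← Real.exp_add]
        congr 2
        ring
    _ ≤ C * (Real.exp (-(Real.pi * c * y * (p.1 : ℝ) ^ 2)) *
          Real.exp (-(Real.pi * c * y * (p.2 : ℝ) ^ 2))) := by
        rw [← Real.exp_add]
        refine mul_le_mul_of_nonneg_left (Real.exp_le_exp.2 ?_) hC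
        have h5 : Real.pi * y * (c * ((p.1 : ℝ) ^ 2 + (p.2 : ℝ) ^ 2)) ≤
            Real.pi * y * Qz q K d b p := mul_le_mul_of_nonneg_left hQ2 (by positivity)
        linarith

/-! ### The theta series -/

/-- The scale. -/
noncomputable def gg (q K : ℕ) : ℝ := Real.sqrt (Real.sqrt q / (2 * K))

lemma gg_pos {q K : ℕ} (hq : 0 < q) (hK : 0 < K) : 0 < gg q K := by
  have h1 : (0 : ℝ) < q := by exact_mod_cast hq
  have h2 : (0 : ℝ) < K := by exact_mod_cast hK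
  unfold gg
  positivity

lemma gg_sq {q K : ℕ} : gg q K ^ 2 = Real.sqrt q / (2 * K) := by
  unfold gg
  rw [Real.sq_sqrt (by positivity)]

lemma pt_im (q K d : ℕ) (b : ℤ) : (pt q K d b).im = Real.sqrt q / (2 * (K * (d : ℝ) ^ 2)) := by
  unfold pt
  have h : (2 * (K * (d : ℂ) ^ 2)) = ((2 * (K * (d : ℝ) ^ 2) : ℝ) : ℂ) := by push_cast; ring
  rw [h, Complex.div_ofReal_im]
  congr 1
  simp

lemma hth_term (n q K d : ℕ) (b : ℤ) (hd : 0 < d) (m : ℤ) :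
    ((aeval (Real.sqrt (2 * Real.pi * (pt q K d b).im) * m) (HP n) : ℝ) : ℂ) *
      Complex.exp (Real.pi * Complex.I * m ^ 2 * pt q K d b) =
    (hf n (gg q K / d * m) : ℂ) * ee ((m ^ 2 * b / (4 * K * d ^ 2) : ℝ) : ℂ) := by
  have hd' : (0 : ℝ) < d := by exact_mod_cast hd
  have h1 : Real.sqrt (2 * Real.pi * (pt q K d b).im) * m =
      Real.sqrt (2 * Real.pi) * (gg q K / d * m) := by
    rw [pt_im, Real.sqrt_mul (by positivity)]
    have h2 : Real.sqrt q / (2 * (K * (d : ℝ) ^ 2)) = (gg q K / d) ^ 2 := by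
      rw [div_pow, gg_sq]
      field_simp
    rw [h2, Real.sqrt_sq (by unfold gg; positivity)]
    ring
  have h3 : (gg q K / d * m) ^ 2 = Real.sqrt q / (2 * K) / d ^ 2 * m ^ 2 := by
    rw [mul_pow, div_pow, gg_sq]
  have key : Complex.exp (Real.pi * Complex.I * m ^ 2 * pt q K d b) =
      Complex.exp ((-(Real.pi * (gg q K / d * m) ^ 2) : ℝ) : ℂ) *
        Complex.exp (2 * Real.pi * Complex.I * ((m ^ 2 * b / (4 * K * d ^ 2) : ℝ) : ℂ)) := by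
    rw [← Complex.exp_add]
    congr 1
    rw [h3]
    unfold pt
    push_cast
    have hdc : (d : ℂ) ≠ 0 := by exact_mod_cast hd.ne'
    rcases Nat.eq_zero_or_pos K with hK | hK
    · subst hK
      simp
    have hKc : (K : ℂ) ≠ 0 := by exact_mod_cast hK.ne'
    field_simp
    linear_combination (4 * (m : ℂ) ^ 2 * (Real.sqrt q : ℂ)) * Complex.I_sq
  rw [h1, key]
  unfold hf ee
  rw [Complex.ofReal_mul, Complex.ofReal_exp]
  ring

/-- The terms of the theta series. -/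
noncomputable def ft (n q K d : ℕ) (b : ℤ) (m : ℤ) : ℂ :=
  (hf n (gg q K / d * m) : ℂ) * ee ((m ^ 2 * b / (4 * K * d ^ 2) : ℝ) : ℂ)

lemma hth_eq (n q K d : ℕ) (b : ℤ) (hd : 0 < d) :
    hth n (pt q K d b) = ∑' m : ℤ, ft n q K d b m :=
  tsum_congr fun m => hth_term n q K d b hd m

lemma ft_sum (n : ℕ) {q K d : ℕ} (b : ℤ) (hq : 0 < q) (hK : 0 < K) (hd : 0 < d) :
    Summable fun m => ‖ft n q K d b m‖ := by
  have hd' : (0 : ℝ) < d := by exact_mod_cast hd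
  refine (hf_sum n (g := gg q K / d) (div_pos (gg_pos hq hK) hd').ne').congr fun m => ?_
  unfold ft
  rw [norm_mul, norm_ee_real, mul_one, Complex.norm_real]

lemma conj_ee (x : ℝ) : conj (ee (x : ℂ)) = ee ((-x : ℝ) : ℂ) := by
  unfold ee
  rw [← Complex.exp_conj]
  congr 1
  rw [map_mul, map_mul, map_mul, Complex.conj_I, Complex.conj_ofReal, Complex.conj_ofReal,
    map_ofNat]
  push_cast
  ring

lemma ee_add (z w : ℂ) : ee z * ee w = ee (z + w) := by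
  unfold ee
  rw [mul_add, Complex.exp_add]

/-- The change of variables. -/
def eqv (A₁ A₂ d₁ d₂ : ℤ) (h : A₂ * d₂ - A₁ * d₁ = 1) : ℤ × ℤ ≃ ℤ × ℤ where
  toFun p := (A₂ * p.1 + d₁ * p.2, A₁ * p.1 + d₂ * p.2)
  invFun r := (d₂ * r.1 - d₁ * r.2, A₂ * r.2 - A₁ * r.1)
  left_inv p := by
    ext
    · show d₂ * (A₂ * p.1 + d₁ * p.2) - d₁ * (A₁ * p.1 + d₂ * p.2) = p.1
      linear_combination p.1 * h
    · show A₂ * (A₁ * p.1 + d₂ * p.2) - A₁ * (A₂ * p.1 + d₁ * p.2) = p.2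
      linear_combination p.2 * h
  right_inv r := by
    ext
    · show A₂ * (d₂ * r.1 - d₁ * r.2) + d₁ * (A₂ * r.2 - A₁ * r.1) = r.1
      linear_combination r.1 * h
    · show A₁ * (d₂ * r.1 - d₁ * r.2) + d₂ * (A₂ * r.2 - A₁ * r.1) = r.2
      linear_combination r.2 * h

/-- The terms after the change of variables. -/
lemma term (n q K d₁ d₂ : ℕ) (b ω A₁ A₂ : ℤ) (hK : 0 < K) (hd₁ : 0 < d₁) (hd₂ : 0 < d₂)
    (h₁ : ω - 1 = 2 * d₁ * A₁) (h₂ : ω + 1 = 2 * d₂ * A₂) (N l : ℤ) :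
    ft n q K d₁ b (A₂ * N + d₁ * l) * conj (ft n q K d₂ b (A₁ * N + d₂ * l)) =
      ((hf n (gg q K * ((ω * N / (2 * (d₁ * d₂)) : ℝ) + l + (N / (d₁ * d₂) : ℝ) / 2)) *
        hf n (gg q K * ((ω * N / (2 * (d₁ * d₂)) : ℝ) + l - (N / (d₁ * d₂) : ℝ) / 2)) : ℝ) : ℂ) *
        ee (((b * N / (2 * K * (d₁ * d₂)) : ℝ) : ℂ) *
          (((ω * N / (2 * (d₁ * d₂)) : ℝ) : ℂ) + (l : ℂ))) := by
  have hd₁' : (d₁ : ℝ) ≠ 0 := by exact_mod_cast hd₁.ne'
  have hd₂' : (d₂ : ℝ) ≠ 0 := by exact_mod_cast hd₂.ne'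
  have hK' : (K : ℝ) ≠ 0 := by exact_mod_cast hK.ne'
  have e₁ : (A₁ : ℝ) = (ω - 1) / (2 * d₁) := by
    have h : ((ω : ℝ) - 1) = 2 * d₁ * A₁ := by exact_mod_cast h₁
    rw [h]
    field_simp
  have e₂ : (A₂ : ℝ) = (ω + 1) / (2 * d₂) := by
    have h : ((ω : ℝ) + 1) = 2 * d₂ * A₂ := by exact_mod_cast h₂
    rw [h]
    field_simp
  have f₁ : gg q K / d₁ * ((A₂ * N + d₁ * l : ℤ) : ℝ) =
      gg q K * ((ω * N / (2 * (d₁ * d₂)) : ℝ) + l + (N / (d₁ * d₂) : ℝ) / 2) := by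
    push_cast
    rw [e₂]
    field_simp
    ring
  have f₂ : gg q K / d₂ * ((A₁ * N + d₂ * l : ℤ) : ℝ) =
      gg q K * ((ω * N / (2 * (d₁ * d₂)) : ℝ) + l - (N / (d₁ * d₂) : ℝ) / 2) := by
    push_cast
    rw [e₁]
    field_simp
    ring
  unfold ft
  rw [map_mul, Complex.conj_ofReal, conj_ee, f₁, f₂]
  have e3 : ∀ x y z w : ℂ, x * y * (z * w) = x * z * (y * w) := fun x y z w => by ring
  rw [e3, ee_add, ← Complex.ofReal_mul, ← Complex.ofReal_add]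
  congr 2
  have f3 : ((A₂ * N + d₁ * l : ℤ) : ℝ) ^ 2 * b / (4 * K * d₁ ^ 2) +
      -(((A₁ * N + d₂ * l : ℤ) : ℝ) ^ 2 * b / (4 * K * d₂ ^ 2)) =
      (b * N / (2 * K * (d₁ * d₂)) : ℝ) * ((ω * N / (2 * (d₁ * d₂)) : ℝ) + l) := by
    push_cast
    rw [e₁, e₂]
    field_simp
    ring
  rw [f3]
  push_cast
  ring

lemma gg_mul {q K : ℕ} (hK : 0 < K) :
    gg q K * Real.sqrt 2 * Real.sqrt K = Real.sqrt (Real.sqrt q) := by
  have hK' : (0 : ℝ) < K := by exact_mod_cast hK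
  unfold gg
  rw [← Real.sqrt_mul (by positivity), ← Real.sqrt_mul (by positivity)]
  congr 1
  field_simp

lemma quad_eq (q K d : ℕ) (b z N : ℤ) (hq : 0 < q) (hK : 0 < K) (hd : 0 < d) :
    (gg q K * (N / d)) ^ 2 + ((z - b * N / (2 * K * d)) / gg q K) ^ 2 =
      4 * Qz q K d b (z, N) * (1 / (2 * d * Real.sqrt q)) := by
  have hK' : (0 : ℝ) < K := by exact_mod_cast hK
  have hd' : (0 : ℝ) < d := by exact_mod_cast hd
  have hq' : (0 : ℝ) < q := by exact_mod_cast hq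
  obtain ⟨s, hs⟩ : ∃ s : ℝ, s = Real.sqrt q := ⟨_, rfl⟩
  have hs0 : 0 < s := by rw [hs]; positivity
  have hs2 : (q : ℝ) = s ^ 2 := by rw [hs, Real.sq_sqrt hq'.le]
  rw [mul_pow, div_pow ((z : ℝ) - _), gg_sq]
  unfold Qz
  rw [← hs]
  simp only
  rw [hs2]
  field_simp
  ring

lemma LG_term (n q K d : ℕ) (b z N : ℤ) (hq : 0 < q) (hK : 0 < K) (hd : 0 < d) :
    ((gg q K : ℝ) : ℂ)⁻¹ * LG n (gg q K * (N / d)) ((z - b * N / (2 * K * d)) / gg q K) =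
      Real.sqrt K * 2 ^ n * n.factorial / Real.sqrt (Real.sqrt q) *
        (lag n (4 * Real.pi * Qz q K d b (z, N) * ((1 / (2 * d * Real.sqrt q) : ℝ) : ℂ)) *
          ee (Complex.I * Qz q K d b (z, N) * ((1 / (2 * d * Real.sqrt q) : ℝ) : ℂ))) := by
  have hK' : (0 : ℝ) < K := by exact_mod_cast hK
  have hq' : (0 : ℝ) < q := by exact_mod_cast hq
  have h := quad_eq q K d b z N hq hK hd
  obtain ⟨Q, hQ⟩ : ∃ Q : ℝ, Q = Qz q K d b (z, N) := ⟨_, rfl⟩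
  obtain ⟨y, hy⟩ : ∃ y : ℝ, y = 1 / (2 * d * Real.sqrt q) := ⟨_, rfl⟩
  obtain ⟨g, hg⟩ : ∃ g : ℝ, g = gg q K := ⟨_, rfl⟩
  have hg0 : 0 < g := by rw [hg]; exact gg_pos hq hK
  have hm := gg_mul (q := q) hK
  rw [← hQ, ← hy] at h ⊢
  rw [← hg] at h hm ⊢
  unfold LG
  rw [← hm]
  obtain ⟨T, hT⟩ : ∃ T : ℝ, T = g * (N / d) := ⟨_, rfl⟩
  obtain ⟨Z, hZ⟩ : ∃ Z : ℝ, Z = (z - b * N / (2 * K * d)) / g := ⟨_, rfl⟩
  rw [← hT, ← hZ] at h ⊢
  have h1 : (Real.pi : ℂ) * ((T : ℂ) ^ 2 + (Z : ℂ) ^ 2) = 4 * Real.pi * Q * y := by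
    have h2 : (T : ℂ) ^ 2 + (Z : ℂ) ^ 2 = 4 * Q * y := by exact_mod_cast h
    rw [h2]
    ring
  have h3 : ((Real.exp (-(Real.pi * (T ^ 2 + Z ^ 2) / 2)) : ℝ) : ℂ) = ee (Complex.I * Q * y) := by
    rw [h, Complex.ofReal_exp]
    unfold ee
    congr 1
    push_cast
    linear_combination (-(2 * (Real.pi : ℂ) * Q * y)) * Complex.I_sq
  rw [h3, h1]
  have hs2 : ((Real.sqrt 2 : ℝ) : ℂ) ≠ 0 := by
    rw [Complex.ofReal_ne_zero]
    positivity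
  have hsK : ((Real.sqrt K : ℝ) : ℂ) ≠ 0 := by
    rw [Complex.ofReal_ne_zero]
    positivity
  have hgc : (g : ℂ) ≠ 0 := by
    rw [Complex.ofReal_ne_zero]
    exact hg0.ne'
  push_cast
  field_simp

end AFacAux

open AFacAux in
/-- (Fac) the product of two theta series -/
theorem stFac (h : StPoiH) : StFac := by
  intro n q K d₁ d₂ b ω hq hK hd₁ hd₂ hω₁ hω₂
  obtain ⟨A₁, hA₁⟩ := hω₁
  obtain ⟨A₂, hA₂⟩ := hω₂
  have hd : 0 < d₁ * d₂ := Nat.mul_pos hd₁ hd₂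
  have hd' : (0 : ℝ) < (d₁ * d₂ : ℕ) := by exact_mod_cast hd
  have hq' : (0 : ℝ) < q := by exact_mod_cast hq
  have hy : (0 : ℝ) < 1 / (2 * (d₁ * d₂ : ℕ) * Real.sqrt q) := by positivity
  have hS := sum2 n q K (d₁ * d₂) b hq hK hd hy
  refine ⟨hS, ?_⟩
  obtain ⟨G, hG⟩ : ∃ G : ℤ × ℤ → ℂ, G = fun p => lag n (4 * Real.pi * Qz q K (d₁ * d₂) b p *
      (1 / (2 * (d₁ * d₂ : ℕ) * Real.sqrt q) : ℝ)) *
        ee (Complex.I * Qz q K (d₁ * d₂) b p * (1 / (2 * (d₁ * d₂ : ℕ) * Real.sqrt q) : ℝ)) *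
        ee ((p.1 * ω * p.2 : ℤ) / (2 * (d₁ * d₂ : ℕ))) := ⟨_, rfl⟩
  have hGS : Summable G := by
    refine Summable.of_norm (hS.congr fun p => ?_)
    rw [hG]
    simp only
    rw [norm_mul (_ * _)]
    have e1 : (((p.1 * ω * p.2 : ℤ) : ℂ) / (2 * (d₁ * d₂ : ℕ))) =
        (((p.1 * ω * p.2 : ℤ) / (2 * (d₁ * d₂ : ℕ)) : ℝ) : ℂ) := by push_cast; ring
    rw [e1, norm_ee_real, mul_one]
  have hdet : A₂ * d₂ - A₁ * d₁ = 1 := by
    have h1 : 2 * (A₂ * d₂ - A₁ * d₁) = 2 * 1 := by linear_combination hA₁ - hA₂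
    exact mul_left_cancel₀ two_ne_zero h1
  -- the product of the series
  have hf₁ := ft_sum n b hq hK hd₁
  have hf₂ := ft_sum n b hq hK hd₂
  have hf₂' : Summable fun m => ‖conj (ft n q K d₂ b m)‖ := by
    refine hf₂.congr fun m => ?_
    rw [RCLike.norm_conj]
  rw [hth_eq n q K d₁ b hd₁, hth_eq n q K d₂ b hd₂, Complex.conj_tsum,
    tsum_mul_tsum_of_summable_norm hf₁ hf₂',
    ← (eqv A₁ A₂ d₁ d₂ hdet).tsum_eq (fun r => ft n q K d₁ b r.1 * conj (ft n q K d₂ b r.2))]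
  have hFS : Summable fun p : ℤ × ℤ => ft n q K d₁ b (eqv A₁ A₂ d₁ d₂ hdet p).1 *
      conj (ft n q K d₂ b (eqv A₁ A₂ d₁ d₂ hdet p).2) :=
    ((eqv A₁ A₂ d₁ d₂ hdet).summable_iff).2 (summable_mul_of_summable_norm hf₁ hf₂')
  rw [hFS.tsum_prod]
  have hrow : ∀ N : ℤ, ∑' l : ℤ, ft n q K d₁ b (eqv A₁ A₂ d₁ d₂ hdet (N, l)).1 *
      conj (ft n q K d₂ b (eqv A₁ A₂ d₁ d₂ hdet (N, l)).2) =
      Real.sqrt K * 2 ^ n * n.factorial / Real.sqrt (Real.sqrt q) * ∑' z : ℤ, G (z, N) := by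
    intro N
    have e1 : ∀ l : ℤ, ft n q K d₁ b (eqv A₁ A₂ d₁ d₂ hdet (N, l)).1 *
        conj (ft n q K d₂ b (eqv A₁ A₂ d₁ d₂ hdet (N, l)).2) = _ := fun l =>
      term n q K d₁ d₂ b ω A₁ A₂ hK hd₁ hd₂ hA₁ hA₂ N l
    rw [tsum_congr e1]
    have h1 := (h n (gg q K) (N / (d₁ * d₂)) (b * N / (2 * K * (d₁ * d₂)))
      (ω * N / (2 * (d₁ * d₂))) (gg_pos hq hK)).2.2
    rw [h1, ← tsum_mul_left]
    refine tsum_congr fun z => ?_
    have h2 := LG_term n q K (d₁ * d₂) b z N hq hK hd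
    rw [hG]
    simp only
    rw [← mul_assoc ((Real.sqrt K : ℂ) * 2 ^ n * n.factorial / Real.sqrt (Real.sqrt q)), ← h2]
    push_cast
    congr 2
    ring
  rw [tsum_congr hrow, tsum_mul_left]
  congr 1
  have hG' : Summable fun p : ℤ × ℤ => G ((Equiv.prodComm ℤ ℤ) p) :=
    ((Equiv.prodComm ℤ ℤ).summable_iff).2 hGS
  have e2 := hG'.tsum_prod
  rw [(Equiv.prodComm ℤ ℤ).tsum_eq G] at e2
  have e3 : ∀ N : ℤ, ∑' z : ℤ, G ((Equiv.prodComm ℤ ℤ) (N, z)) = ∑' z : ℤ, G (z, N) :=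
    fun N => rfl
  rw [tsum_congr e3] at e2
  rw [← e2, hG]

end Pool.Agent.Lib.MP_7c08ba_nt.CN
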