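import Pool.Agent.Lib.MP_7c08ba_nt.CN.StAn

set_option autoImplicit false

/-! (Her) the Fourier transform of the product of two translates of a Hermite function. -/

namespace Pool.Agent.Lib.MP_7c08ba_nt.CN

open MeasureTheory Polynomial Pool.Agent.Lib.MP_7c08ba_nt.RZ

namespace HerAux

/-- The exponential factor. -/
noncomputable def EE (T Z : ℝ) (w : ℂ) : ℂ :=
  Complex.exp (-(2 * Real.pi : ℂ) * w ^ 2 + (-(2 * Real.pi * Complex.I * Z)) * w +
    (-(Real.pi * T ^ 2 / 2)))

theorem hasDeriv_EE (T Z : ℝ) (w : ℂ) :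
    HasDerivAt (EE T Z) (-(4 * Real.pi * w + 2 * Real.pi * Complex.I * Z) * EE T Z w) w := by
  unfold EE
  have h1 : HasDerivAt (fun w : ℂ => -(2 * Real.pi : ℂ) * w ^ 2 +
      (-(2 * Real.pi * Complex.I * Z)) * w + (-(Real.pi * T ^ 2 / 2)))
      (-(4 * Real.pi * w + 2 * Real.pi * Complex.I * Z)) w := by
    have h2 := (((hasDerivAt_pow 2 w).const_mul (-(2 * Real.pi : ℂ))).add
      ((hasDerivAt_id w).const_mul (-(2 * Real.pi * Complex.I * Z)))).add_const
      (-(Real.pi * T ^ 2 / 2) : ℂ)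
    exact h2.congr_deriv (by push_cast; ring)
  exact h1.cexp.congr_deriv (by ring)

theorem norm_EE (T Z v : ℝ) : ‖EE T Z v‖ ≤ Real.exp (-(2 * Real.pi) * v ^ 2) := by
  unfold EE
  rw [Complex.norm_exp]
  apply Real.exp_le_exp.2
  have h : (-(2 * Real.pi : ℂ) * (v : ℂ) ^ 2 + (-(2 * Real.pi * Complex.I * Z)) * v +
      (-(Real.pi * T ^ 2 / 2))).re = -(2 * Real.pi) * v ^ 2 - Real.pi * T ^ 2 / 2 := by
    have e : (-(2 * Real.pi : ℂ) * (v : ℂ) ^ 2 + (-(2 * Real.pi * Complex.I * Z)) * v +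
      (-(Real.pi * T ^ 2 / 2))) = ((-(2 * Real.pi) * v ^ 2 - Real.pi * T ^ 2 / 2 : ℝ) : ℂ) +
        ((-(2 * Real.pi * Z * v) : ℝ) : ℂ) * Complex.I := by
      push_cast
      ring
    rw [e, Complex.add_re, Complex.ofReal_re, Complex.re_ofReal_mul, Complex.I_re]
    ring
  rw [h]
  have := Real.pi_pos
  nlinarith [mul_nonneg this.le (sq_nonneg T)]

theorem cont_EE (T Z : ℝ) : Continuous (EE T Z) := by
  unfold EE
  fun_prop

theorem int_pow (T Z : ℝ) (n : ℕ) : Integrable (fun v : ℝ => (v : ℂ) ^ n * EE T Z v) := by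
  have h1 : Integrable (fun x : ℝ => x ^ n * Real.exp (-(2 * Real.pi) * x ^ 2)) := by
    have h := integrable_rpow_mul_exp_neg_mul_sq (b := 2 * Real.pi) (by positivity)
      (s := (n : ℝ)) (by have : (0 : ℝ) ≤ n := Nat.cast_nonneg n; linarith)
    refine h.congr (Filter.Eventually.of_forall fun x => ?_)
    simp only [Real.rpow_natCast]
  refine h1.mono ?_ (Filter.Eventually.of_forall fun x => ?_)
  · apply Continuous.aestronglyMeasurable
    have := (cont_EE T Z).comp Complex.continuous_ofReal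
    exact (Complex.continuous_ofReal.pow n).mul this
  · rw [norm_mul, norm_mul, norm_pow, norm_pow, Complex.norm_real]
    apply mul_le_mul_of_nonneg_left _ (by positivity)
    refine (norm_EE T Z x).trans ?_
    rw [Real.norm_eq_abs]
    exact le_abs_self _

theorem int_poly (T Z : ℝ) (Q : ℂ[X]) : Integrable (fun v : ℝ => Q.eval (v : ℂ) * EE T Z v) := by
  induction Q using Polynomial.induction_on' with
  | add p q hp hq =>
    simp only [eval_add, add_mul]
    exact hp.add hq
  | monomial n a =>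
    simp only [eval_monomial, mul_assoc]
    exact (int_pow T Z n).const_mul a

/-- The linear functional. -/
noncomputable def II (T Z : ℝ) (Q : ℂ[X]) : ℂ := ∫ v : ℝ, Q.eval (v : ℂ) * EE T Z v

theorem II_add (T Z : ℝ) (P Q : ℂ[X]) : II T Z (P + Q) = II T Z P + II T Z Q := by
  unfold II
  rw [← integral_add (int_poly T Z P) (int_poly T Z Q)]
  simp only [eval_add, add_mul]

theorem II_smul (T Z : ℝ) (a : ℂ) (Q : ℂ[X]) : II T Z (C a * Q) = a * II T Z Q := by
  unfold II
  rw [← integral_const_mul]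
  simp only [eval_mul, eval_C, mul_assoc]

theorem II_zero (T Z : ℝ) : II T Z 0 = 0 := by
  unfold II
  simp

/-- Integration by parts. -/
theorem II_parts (T Z : ℝ) (Q : ℂ[X]) : II T Z (derivative Q) =
    II T Z ((C (4 * Real.pi : ℂ) * X + C (2 * Real.pi * Complex.I * Z)) * Q) := by
  have h1 : ∀ v : ℝ, HasDerivAt (fun v : ℝ => Q.eval (v : ℂ) * EE T Z v)
      ((derivative Q).eval (v : ℂ) * EE T Z v - (((C (4 * Real.pi : ℂ) * X +
        C (2 * Real.pi * Complex.I * Z)) * Q).eval (v : ℂ) * EE T Z v)) v := by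
    intro v
    have h2 := ((Q.hasDerivAt (v : ℂ)).mul (hasDeriv_EE T Z v)).comp_ofReal
    exact h2.congr_deriv (by simp only [eval_mul, eval_add, eval_C, eval_X]; ring)
  have h3 := integral_eq_zero_of_hasDerivAt_of_integrable h1
    ((int_poly T Z _).sub (int_poly T Z _)) (int_poly T Z Q)
  rw [integral_sub (int_poly T Z _) (int_poly T Z _)] at h3
  exact sub_eq_zero.1 h3

/-- The derivative of the Hermite polynomials. -/
theorem deriv_hp (n : ℕ) : derivative (HP (n + 1)) = (2 * (n + 1) : ℕ) • HP n := by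
  induction n with
  | zero =>
    simp [HP]
  | succ n ih =>
    have h1 : HP (n + 1 + 1) = 2 * X * HP (n + 1) - derivative (HP (n + 1)) := rfl
    have h5 : HP (n + 1) = 2 * X * HP n - derivative (HP n) := rfl
    rw [h1, derivative_sub, derivative_mul, ih]
    have h3 : derivative ((2 : ℤ[X]) * X) = 2 := by simp
    have h4 : derivative ((2 * (n + 1) : ℕ) • HP n) = (2 * (n + 1) : ℕ) • derivative (HP n) :=
      derivative_smul _ _
    rw [h3, h4, h5]
    simp only [nsmul_eq_mul]
    push_cast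
    ring

/-- The Hermite polynomials over the complex numbers. -/
noncomputable def Hc (n : ℕ) : ℂ[X] := (HP n).map (Int.castRingHom ℂ)

theorem Hc_zero : Hc 0 = 1 := by simp [Hc, HP]

theorem Hc_succ (n : ℕ) : Hc (n + 1) = 2 * X * Hc n - derivative (Hc n) := by
  have h1 : HP (n + 1) = 2 * X * HP n - derivative (HP n) := rfl
  unfold Hc
  rw [h1, Polynomial.map_sub, Polynomial.map_mul, Polynomial.map_mul, derivative_map,
    Polynomial.map_ofNat, Polynomial.map_X]

theorem Hc_deriv (n : ℕ) : derivative (Hc n) = C (2 * n : ℂ) * Hc (n - 1) := by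
  cases n with
  | zero => simp [Hc_zero]
  | succ n =>
    unfold Hc
    rw [derivative_map, deriv_hp, Nat.add_sub_cancel]
    rw [nsmul_eq_mul, Polynomial.map_mul, Polynomial.map_natCast]
    have h3 : (C (2 : ℂ)) = (2 : ℂ[X]) := map_ofNat C 2
    rw [C_mul, h3]
    push_cast
    simp

/-- The shifted Hermite polynomials. -/
noncomputable def Hs (c a : ℂ) (n : ℕ) : ℂ[X] := (Hc n).comp (C c * X + C a)

theorem Hs_zero (c a : ℂ) : Hs c a 0 = 1 := by simp [Hs, Hc_zero]

theorem Hs_deriv (c a : ℂ) (n : ℕ) :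
    derivative (Hs c a n) = C c * (C (2 * n : ℂ) * Hs c a (n - 1)) := by
  unfold Hs
  rw [derivative_comp, Hc_deriv]
  simp

theorem Hs_succ (c a : ℂ) (n : ℕ) :
    Hs c a (n + 1) = (C (2 * c) * X + C (2 * a)) * Hs c a n - C (2 * n : ℂ) * Hs c a (n - 1) := by
  unfold Hs
  rw [Hc_succ, Hc_deriv]
  simp only [sub_comp, mul_comp, X_comp, C_comp]
  have h2 : (2 : ℂ[X]).comp (C c * X + C a) = 2 := by simp
  have h3 : (C (2 : ℂ)) = (2 : ℂ[X]) := map_ofNat C 2
  rw [h2]
  simp only [C_mul]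
  rw [h3]
  ring

section

variable (T Z : ℝ)

/-- The square root of `2 π`. -/
noncomputable def cc : ℂ := (Real.sqrt (2 * Real.pi) : ℂ)

theorem cc_sq : cc ^ 2 = 2 * Real.pi := by
  unfold cc
  rw [← Complex.ofReal_pow, Real.sq_sqrt (by positivity)]
  push_cast
  ring

theorem cc_ne : cc ≠ 0 := by
  unfold cc
  have : Real.sqrt (2 * Real.pi) ≠ 0 := by positivity
  exact_mod_cast this

/-- The integrals. -/
noncomputable def AA (n m : ℕ) : ℂ :=
  II T Z (Hs cc (cc * T / 2) n * Hs cc (-(cc * T / 2)) m)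

/-- `α` -/
noncomputable def al : ℂ := cc * (T - Complex.I * Z)

/-- minus the conjugate of `α` -/
noncomputable def be : ℂ := -(cc * (T + Complex.I * Z))

theorem rec1 (n m : ℕ) : AA T Z (n + 1) m = al T Z * AA T Z n m + 2 * m * AA T Z n (m - 1) := by
  set P := Hs cc (cc * T / 2) with hP
  set R := Hs cc (-(cc * T / 2)) with hR
  have h1 := II_parts T Z (P n * R m)
  rw [derivative_mul, hP, hR, Hs_deriv, Hs_deriv, ← hP, ← hR] at h1
  have h2 : C cc * (P (n + 1) * R m) + C cc * (C (2 * n : ℂ) * (P (n - 1) * R m)) =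
      (C (4 * Real.pi : ℂ) * X + C (2 * Real.pi * Complex.I * Z)) * (P n * R m) +
        C (cc * al T Z) * (P n * R m) := by
    rw [hP, Hs_succ, ← hP]
    have e1 : cc * (2 * cc) = 4 * Real.pi := by
      have := cc_sq
      linear_combination 2 * this
    have e2 : cc * (2 * (cc * T / 2)) = 2 * Real.pi * Complex.I * Z + cc * al T Z := by
      have := cc_sq
      unfold al
      linear_combination (Complex.I * Z) * this
    calc _ = (C (cc * (2 * cc)) * X + C (cc * (2 * (cc * T / 2)))) * (P n * R m) := by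
          simp only [C_mul]
          ring
      _ = _ := by
          rw [e1, e2, C_add]
          ring
  have h3 := congrArg (II T Z) h2
  rw [II_add, II_add, II_smul, II_smul, II_smul, II_smul] at h3
  have h4 : C cc * (C (2 * n : ℂ) * P (n - 1)) * R m + P n * (C cc * (C (2 * m : ℂ) * R (m - 1))) =
      C cc * (C (2 * n : ℂ) * (P (n - 1) * R m)) + C cc * (C (2 * m : ℂ) * (P n * R (m - 1))) := by
    ring
  rw [h4, II_add, II_smul, II_smul, II_smul, II_smul] at h1
  have h5 : cc * AA T Z (n + 1) m = cc * (al T Z * AA T Z n m + 2 * m * AA T Z n (m - 1)) := by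
    unfold AA
    rw [← hP, ← hR]
    linear_combination h3 - h1
  exact mul_left_cancel₀ cc_ne h5

theorem rec2 (m : ℕ) : AA T Z 0 (m + 1) = be T Z * AA T Z 0 m := by
  set R := Hs cc (-(cc * T / 2)) with hR
  have h1 := II_parts T Z (R m)
  rw [hR, Hs_deriv, ← hR, II_smul, II_smul] at h1
  have h2 : C cc * (R (m + 1)) + C cc * (C (2 * m : ℂ) * (R (m - 1))) =
      (C (4 * Real.pi : ℂ) * X + C (2 * Real.pi * Complex.I * Z)) * (R m) +
        C (cc * be T Z) * (R m) := by
    rw [hR, Hs_succ, ← hR]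
    have e1 : cc * (2 * cc) = 4 * Real.pi := by
      have := cc_sq
      linear_combination 2 * this
    have e2 : cc * (2 * (-(cc * T / 2))) = 2 * Real.pi * Complex.I * Z + cc * be T Z := by
      have := cc_sq
      unfold be
      linear_combination (Complex.I * Z) * this
    calc _ = (C (cc * (2 * cc)) * X + C (cc * (2 * (-(cc * T / 2))))) * (R m) := by
          simp only [C_mul]
          ring
      _ = _ := by
          rw [e1, e2, C_add]
          ring
  have h3 := congrArg (II T Z) h2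
  rw [II_add, II_add, II_smul, II_smul, II_smul, II_smul] at h3
  have h5 : cc * AA T Z 0 (m + 1) = cc * (be T Z * AA T Z 0 m) := by
    unfold AA
    rw [← hR, Hs_zero, one_mul, one_mul]
    linear_combination h3 - h1
  exact mul_left_cancel₀ cc_ne h5

end

/-- The sum. -/
noncomputable def SS (a b : ℂ) (n m : ℕ) : ℂ :=
  ∑ j ∈ Finset.range (n + 1), (n.choose j : ℂ) * (m.descFactorial j : ℂ) * 2 ^ j *
    a ^ (n - j) * b ^ (m - j)

theorem desc_succ (m j : ℕ) : m.descFactorial (j + 1) = m * (m - 1).descFactorial j := by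
  cases m with
  | zero => simp
  | succ m => rw [Nat.succ_descFactorial_succ, Nat.add_sub_cancel]

theorem SS_succ (a b : ℂ) (n m : ℕ) :
    SS a b (n + 1) m = a * SS a b n m + 2 * m * SS a b n (m - 1) := by
  have e1 : a * SS a b n m = ∑ j ∈ Finset.range (n + 2), (n.choose j : ℂ) *
      (m.descFactorial j : ℂ) * 2 ^ j * a ^ (n + 1 - j) * b ^ (m - j) := by
    rw [Finset.sum_range_succ _ (n + 1), Nat.choose_succ_self]
    unfold SS
    rw [Finset.mul_sum]
    simp only [Nat.cast_zero, zero_mul, add_zero]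
    apply Finset.sum_congr rfl
    intro j hj
    have hj' : j ≤ n := Nat.lt_succ_iff.1 (Finset.mem_range.1 hj)
    have : n + 1 - j = (n - j) + 1 := by omega
    rw [this, pow_succ]
    ring
  rw [e1, Finset.sum_range_succ' _ (n + 1)]
  unfold SS
  rw [Finset.sum_range_succ' _ (n + 1)]
  simp only [Nat.choose_zero_right]
  rw [add_right_comm, add_left_inj, Finset.mul_sum, ← Finset.sum_add_distrib]
  apply Finset.sum_congr rfl
  intro j _
  rw [Nat.choose_succ_succ, desc_succ]
  have h1 : n + 1 - (j + 1) = n - j := by omega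
  have h2 : m - (j + 1) = m - 1 - j := by omega
  rw [h1, h2]
  push_cast
  ring

theorem AA_closed (T Z : ℝ) (n : ℕ) : ∀ m : ℕ,
    AA T Z n m = AA T Z 0 0 * SS (al T Z) (be T Z) n m := by
  induction n with
  | zero =>
    intro m
    have h : SS (al T Z) (be T Z) 0 m = be T Z ^ m := by
      unfold SS
      simp
    rw [h]
    induction m with
    | zero => simp
    | succ m ih =>
      have ih' := ih (by unfold SS; simp)
      rw [rec2, ih', pow_succ]
      ring
  | succ n ih =>
    intro m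
    rw [rec1, ih m, ih (m - 1), SS_succ]
    ring

theorem SS_diag (a b x : ℂ) (hab : a * b = -(2 * x)) (n : ℕ) :
    SS a b n n = 2 ^ n * n.factorial * lag n x := by
  unfold SS lag
  rw [Finset.mul_sum, ← Finset.sum_range_reflect]
  apply Finset.sum_congr rfl
  intro i hi
  have hi' : i ≤ n := Nat.lt_succ_iff.1 (Finset.mem_range.1 hi)
  have e1 : n + 1 - 1 - i = n - i := by omega
  have e2 : n - (n - i) = i := by omega
  rw [e1, e2, Nat.choose_symm hi']
  have h1 := Nat.factorial_mul_descFactorial (n := n) (k := n - i) (by omega)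
  rw [e2] at h1
  have h2 : (i.factorial : ℂ) * (n.descFactorial (n - i) : ℂ) = n.factorial := by
    exact_mod_cast h1
  have h3 : (i.factorial : ℂ) ≠ 0 := by exact_mod_cast Nat.factorial_ne_zero i
  have h4 : (2 : ℂ) ^ n = 2 ^ (n - i) * 2 ^ i := by
    rw [← pow_add]
    congr 1
    omega
  have h5 : a ^ i * b ^ i = (-1) ^ i * 2 ^ i * x ^ i := by
    rw [← mul_pow, hab, ← mul_pow, ← mul_pow]
    congr 1
    ring
  have h6 : (-x) ^ i = (-1) ^ i * x ^ i := by
    rw [← mul_pow]
    congr 1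
    ring
  rw [← h2, h4, h6]
  field_simp
  linear_combination (n.choose i : ℂ) * h5

theorem AA_zero (T Z : ℝ) : AA T Z 0 0 =
    (Real.sqrt 2 : ℂ)⁻¹ * Real.exp (-(Real.pi * (T ^ 2 + Z ^ 2) / 2)) := by
  unfold AA II
  rw [Hs_zero, Hs_zero, mul_one]
  simp only [eval_one, one_mul]
  unfold EE
  have hb : (-(2 * Real.pi : ℂ)).re < 0 := by
    have : (-(2 * Real.pi : ℂ)) = ((-(2 * Real.pi) : ℝ) : ℂ) := by push_cast; ring
    rw [this, Complex.ofReal_re]
    have := Real.pi_pos
    linarith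
  rw [integral_cexp_quadratic hb]
  have hpi : (Real.pi : ℂ) ≠ 0 := by exact_mod_cast Real.pi_ne_zero
  have h1 : (Real.pi / - -(2 * Real.pi : ℂ)) ^ (1 / 2 : ℂ) = (Real.sqrt 2 : ℂ)⁻¹ := by
    have e1 : (Real.pi / - -(2 * Real.pi : ℂ)) = (((2 : ℝ)⁻¹ : ℝ) : ℂ) := by
      push_cast
      field_simp
    have e2 : (1 / 2 : ℂ) = ((1 / 2 : ℝ) : ℂ) := by push_cast; ring
    rw [e1, e2, ← Complex.ofReal_cpow (by norm_num), ← Real.sqrt_eq_rpow, Real.sqrt_inv,
      Complex.ofReal_inv]
  rw [h1]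
  congr 1
  rw [Complex.ofReal_exp]
  congr 1
  push_cast
  have hI : Complex.I ^ 2 = -1 := Complex.I_sq
  field_simp
  linear_combination (4 * Z ^ 2 : ℂ) * hI

theorem eval_Hs (T v : ℝ) (n : ℕ) : (Hs cc (cc * T / 2) n).eval (v : ℂ) =
    ((aeval (Real.sqrt (2 * Real.pi) * (v + T / 2)) (HP n) : ℝ) : ℂ) := by
  unfold Hs Hc
  rw [eval_comp]
  have h1 : (C cc * X + C (cc * T / 2)).eval (v : ℂ) =
      algebraMap ℝ ℂ (Real.sqrt (2 * Real.pi) * (v + T / 2)) := by
    simp only [eval_add, eval_mul, eval_C, eval_X, Complex.coe_algebraMap]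
    unfold cc
    push_cast
    ring
  rw [h1, eval_map]
  have h2 := Polynomial.aeval_algebraMap_apply ℂ (Real.sqrt (2 * Real.pi) * (v + T / 2)) (HP n)
  rw [aeval_def] at h2
  exact h2

theorem integrand (n : ℕ) (T Z v : ℝ) :
    ((hf n (v + T / 2) * hf n (v - T / 2) : ℝ) : ℂ) * ee (-(Z * v)) =
      (Hs cc (cc * T / 2) n * Hs cc (-(cc * T / 2)) n).eval (v : ℂ) * EE T Z v := by
  rw [eval_mul, eval_Hs]
  have h1 : -(cc * T / 2) = cc * ((-T : ℝ) : ℂ) / 2 := by push_cast; ring
  rw [h1, eval_Hs]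
  have h2 : v + -T / 2 = v - T / 2 := by ring
  rw [h2]
  unfold hf ee EE
  push_cast
  have h3 : Complex.exp (-(2 * Real.pi : ℂ) * v ^ 2 + (-(2 * Real.pi * Complex.I * Z)) * v +
      (-(Real.pi * T ^ 2 / 2))) = Complex.exp (-(Real.pi * (v + T / 2) ^ 2)) *
        Complex.exp (-(Real.pi * (v - T / 2) ^ 2)) *
        Complex.exp (2 * Real.pi * Complex.I * (-(Z * v))) := by
    rw [← Complex.exp_add, ← Complex.exp_add]
    congr 1
    ring
  rw [h3]
  ring

end HerAux

open HerAux

/-- (Her) -/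
theorem stHer : StHer := by
  intro n T Z
  simp only [integrand]
  refine ⟨int_poly T Z _, ?_⟩
  have h1 : ∫ v : ℝ, (Hs cc (cc * T / 2) n * Hs cc (-(cc * T / 2)) n).eval (v : ℂ) * EE T Z v =
      AA T Z n n := rfl
  rw [h1, AA_closed, SS_diag _ _ (Real.pi * (T ^ 2 + Z ^ 2)), AA_zero]
  · unfold LG
    ring
  · unfold al be
    have h2 := cc_sq
    have hI : Complex.I ^ 2 = -1 := Complex.I_sq
    linear_combination (-(T ^ 2 + Z ^ 2) : ℂ) * h2 + (cc ^ 2 * Z ^ 2 : ℂ) * hI

end Pool.Agent.Lib.MP_7c08ba_nt.CN
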