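import Mathlib
import Pool.Agent.Lib.MP_7c08ba_nt.CN.StAn

set_option autoImplicit false

/-!
(Ls) the `L`-function in terms of Eisenstein series.
-/

namespace Pool.Agent.Lib.MP_7c08ba_nt.CN

open NumberField IsDedekindDomain MeasureTheory Polynomial Pool.Agent.Lib.MP_7c08ba_nt.RZ
open scoped nonZeroDivisors ComplexConjugate

namespace LsAux

theorem diff_conj {f : ℂ → ℂ} {z : ℂ} (hf : DifferentiableAt ℂ f (conj z)) :
    DifferentiableAt ℂ (fun w => conj (f (conj w))) z := by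
  have h := hf.conj_conj
  rw [Complex.conj_conj] at h
  exact h

theorem im_pos {x y : ℂ} {q : ℕ} (hq : 0 < q) (h : 0 < (x * conj y).im) :
    0 < (x / (q * y)).im := by
  have hy : y ≠ 0 := by
    rintro rfl
    simp at h
  have hn : 0 < Complex.normSq y := Complex.normSq_pos.2 hy
  have hq' : (0 : ℝ) < q := by exact_mod_cast hq
  have e : x / (q * y) = ((((q : ℝ) * Complex.normSq y)⁻¹ : ℝ) : ℂ) * (x * conj y) := by
    have h1 : ((Complex.normSq y : ℝ) : ℂ) = y * conj y := (Complex.mul_conj y).symm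
    have h2 : (conj y : ℂ) ≠ 0 := (_root_.map_ne_zero _).2 hy
    have h3 : (q : ℂ) ≠ 0 := by exact_mod_cast hq.ne'
    push_cast
    rw [h1]
    field_simp
  rw [e, Complex.im_ofReal_mul]
  positivity

section

variable {q : ℕ} {F : Type} [Field F] [NumberField F] {s : 𝓞 F} {σ : F →+* ℂ}
  {χ : DirichletCharacter ℂ q} {cj : 𝓞 F ≃+* 𝓞 F} {n : ℕ} {φ : Ideal (𝓞 F) →*₀ ℂ}

/-- The size of the character. -/
theorem norm_le (h3 : StCj) (D : Dat q s σ χ cj) (hφ : IsCan q s σ (2 * n + 1) φ)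
    (b : Ideal (𝓞 F)) : ‖φ b‖ ≤ (Ideal.absNorm b : ℝ) ^ ((n : ℝ) + 1 / 2) := by
  obtain ⟨-, -, c3, c4⟩ := h3 q F _ _ s σ χ cj n φ D hφ
  by_cases hb : IsCoprime b (Ideal.span {s})
  · obtain ⟨-, h⟩ := c3 b hb
    have hN : (0 : ℝ) ≤ (Ideal.absNorm b : ℝ) := Nat.cast_nonneg _
    have e : ((Ideal.absNorm b : ℝ) ^ ((n : ℝ) + 1 / 2)) ^ 2 =
        (Ideal.absNorm b : ℝ) ^ (2 * n + 1) := by
      rw [← Real.rpow_natCast, ← Real.rpow_mul hN, ← Real.rpow_natCast]
      congr 1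
      push_cast
      ring
    rw [← e] at h
    exact le_of_eq ((pow_left_inj₀ (norm_nonneg _) (by positivity) two_ne_zero).1 h)
  · rw [c4 b hb, norm_zero]
    positivity

theorem ne_zero (h3 : StCj) (D : Dat q s σ χ cj) (hφ : IsCan q s σ (2 * n + 1) φ)
    {b : Ideal (𝓞 F)} (hb : IsCoprime b (Ideal.span {s})) (h0 : b ≠ ⊥) : φ b ≠ 0 := by
  obtain ⟨-, -, c3, -⟩ := h3 q F _ _ s σ χ cj n φ D hφ
  obtain ⟨-, h⟩ := c3 b hb
  intro h1
  rw [h1, norm_zero] at h
  have hN : (0 : ℝ) < (Ideal.absNorm b : ℝ) := by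
    have : Ideal.absNorm b ≠ 0 := fun e => h0 (Ideal.absNorm_eq_zero_iff.1 e)
    positivity
  have : (0 : ℝ) < (Ideal.absNorm b : ℝ) ^ (2 * n + 1) := by positivity
  rw [← h] at this
  norm_num at this

theorem diff [NeZero q] (h4 : StEisA) (D : Dat q s σ χ cj) (c : Reps σ) :
    DifferentiableOn ℂ (Lam q χ n φ c) {z | -1 / 2 < z.re} := by
  intro z hz
  have hz' : -1 / 2 < z.re := hz
  have hq2 : 2 < q := by
    have := D.mod
    have := D.prime.two_le
    omega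
  have hq0 : 0 < q := by omega
  obtain ⟨hd, -⟩ := h4 q inferInstance χ n D.prime hq2 D.chi
  have hbase : (2 * Real.sqrt q : ℂ) ≠ 0 := by
    have : (0 : ℝ) < Real.sqrt q := Real.sqrt_pos.2 (by exact_mod_cast hq0)
    exact mul_ne_zero two_ne_zero (by exact_mod_cast this.ne')
  apply DifferentiableAt.differentiableWithinAt
  have hA : ∀ A : ClassGroup (𝓞 F), DifferentiableAt ℂ
      (fun z => conj (eis q χ n (conj z - n) (σ (c.X A) / (q * σ (c.Y A))))) z := by
    intro A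
    have hu : 0 < (σ (c.X A) / (q * σ (c.Y A))).im := im_pos hq0 (c.bas A).pos
    have hw : DifferentiableAt ℂ (fun w => eis q χ n w (σ (c.X A) / (q * σ (c.Y A))))
        (conj z - n) := by
      have hopen : IsOpen {w : ℂ | -(n : ℝ) - 1 / 2 < w.re} :=
        isOpen_lt continuous_const Complex.continuous_re
      refine (hd _ hu).differentiableAt (hopen.mem_nhds ?_)
      show -(n : ℝ) - 1 / 2 < (conj z - n).re
      rw [Complex.sub_re, Complex.conj_re, Complex.natCast_re]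
      linarith
    refine diff_conj (f := fun w => eis q χ n (w - n) (σ (c.X A) / (q * σ (c.Y A)))) ?_
    exact hw.comp (conj z) (differentiableAt_id.sub_const (n : ℂ))
  unfold Lam
  refine DifferentiableAt.mul ?_ ?_
  · exact DifferentiableAt.const_cpow (differentiableAt_id.const_add _) (Or.inl hbase)
  · exact DifferentiableAt.fun_sum fun A _ => (hA A).const_mul _

end

end LsAux

open LsAux

theorem stLs (h1 : StDec) (h2 : StLsS) (h3 : StCj) (h4 : RZ.StEisA) : StLs := by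
  intro q hNZ F iF iNF s σ χ cj n φ c D hφ hsX hcop
  refine ⟨diff h4 D c, ?_⟩
  intro z hz
  have hR : ∀ A, φ (c.R A : Ideal (𝓞 F)) ≠ 0 := fun A =>
    ne_zero h3 D hφ (hcop A) (nonZeroDivisors.coe_ne_zero _)
  obtain ⟨-, -, hP, -⟩ := h1 q F _ _ s σ χ cj n φ c D (norm_le h3 D hφ) hR z hz
  have h5 := h2 q hNZ F _ _ s σ χ cj n φ c D hφ hsX hcop z hz
  rw [h5] at hP
  have e : ∀ v : HeightOneSpectrum (𝓞 F),
      (1 - φ v.asIdeal * (Ideal.absNorm v.asIdeal : ℂ) ^ (-(((n + 1 : ℕ) : ℂ) + z)))⁻¹ =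
      (1 - φ v.asIdeal * (Ideal.absNorm v.asIdeal : ℂ) ^ (-((n : ℂ) + 1 + z)))⁻¹ := by
    intro v
    rw [Nat.cast_succ]
  simp only [e]
  exact hP

end Pool.Agent.Lib.MP_7c08ba_nt.CN
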