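import Pool.Agent.Lib.MP_7c08ba_nt.CN.StAn

set_option autoImplicit false

/-!
Project CN, module LsS: the `L`-series in terms of Eisenstein series.
-/

namespace Pool.Agent.Lib.MP_7c08ba_nt.CN

open NumberField IsDedekindDomain Pool.Agent.Lib.MP_7c08ba_nt.RZ
open scoped nonZeroDivisors ComplexConjugate

namespace LsS

private lemma conj_cpow_real {x : ℝ} (hx : 0 < x) (m : ℂ) :
    conj ((x : ℂ) ^ m) = (x : ℂ) ^ (conj m) := by
  have harg : (x : ℂ).arg ≠ Real.pi := by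
    rw [Complex.arg_ofReal_of_nonneg hx.le]
    exact Real.pi_pos.ne
  rw [Complex.cpow_conj _ _ harg, Complex.conj_ofReal]

/-- the power of a complex number in terms of the general term -/
private lemma pow_gE (n : ℕ) (z w : ℂ) (hw : w ≠ 0) :
    w ^ (2 * n + 1) * ((Complex.normSq w : ℝ) : ℂ) ^ (-((n : ℂ) + 1 + z)) =
      conj (gE n (conj z - n) w) := by
  have h0 : (0 : ℝ) < Complex.normSq w := Complex.normSq_pos.2 hw
  have h0' : ((Complex.normSq w : ℝ) : ℂ) ≠ 0 := by exact_mod_cast h0.ne'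
  have hcw : conj w ≠ 0 := (map_ne_zero _).2 hw
  have h1 : conj (((Complex.normSq w : ℝ) : ℂ) ^ (-(conj z - n)))
      = ((Complex.normSq w : ℝ) : ℂ) ^ (-(z - n)) := by
    rw [conj_cpow_real h0]
    simp
  rw [gE, map_mul, map_inv₀, map_pow, h1]
  have h2 : ((Complex.normSq w : ℝ) : ℂ) = conj w * w := Complex.normSq_eq_conj_mul_self
  have h3 : ((Complex.normSq w : ℝ) : ℂ) ^ (-(z - n))
      = ((Complex.normSq w : ℝ) : ℂ) ^ (-((n : ℂ) + 1 + z)) *
        ((Complex.normSq w : ℝ) : ℂ) ^ (2 * n + 1) := by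
    rw [← Complex.cpow_natCast, ← Complex.cpow_add _ _ h0']
    congr 1
    push_cast
    ring
  rw [h3]
  generalize ((Complex.normSq w : ℝ) : ℂ) ^ (-((n : ℂ) + 1 + z)) = P
  rw [h2, mul_pow]
  field_simp

/-- pairs of integers and elements of an ideal -/
private noncomputable def pairEquiv {F : Type} [Field F] [NumberField F] {σ : F →+* ℂ}
    {a : Ideal (𝓞 F)} {x y : 𝓞 F} (hB : OBasis σ a x y)
    (hinj : ∀ m n : ℤ, (m : 𝓞 F) * x + (n : 𝓞 F) * y = 0 → m = 0 ∧ n = 0) : ℤ × ℤ ≃ a :=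
  Equiv.ofBijective
    (fun p => ⟨(p.1 : 𝓞 F) * x + (p.2 : 𝓞 F) * y, (hB.mem _).2 ⟨p.1, p.2, rfl⟩⟩) (by
      constructor
      · intro p p' h
        have h1 : (p.1 : 𝓞 F) * x + (p.2 : 𝓞 F) * y = (p'.1 : 𝓞 F) * x + (p'.2 : 𝓞 F) * y :=
          congrArg Subtype.val h
        obtain ⟨h2, h3⟩ := hinj (p.1 - p'.1) (p.2 - p'.2) (by
          push_cast
          linear_combination h1)
        exact Prod.ext (sub_eq_zero.1 h2) (sub_eq_zero.1 h3)
      · rintro ⟨z, hz⟩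
        obtain ⟨m, n, h⟩ := (hB.mem z).1 hz
        exact ⟨(m, n), Subtype.ext h.symm⟩)

private lemma pairEquiv_val {F : Type} [Field F] [NumberField F] {σ : F →+* ℂ}
    {a : Ideal (𝓞 F)} {x y : 𝓞 F} (hB : OBasis σ a x y)
    (hinj : ∀ m n : ℤ, (m : 𝓞 F) * x + (n : 𝓞 F) * y = 0 → m = 0 ∧ n = 0) (p : ℤ × ℤ) :
    ((pairEquiv hB hinj p : a) : 𝓞 F) = (p.1 : 𝓞 F) * x + (p.2 : 𝓞 F) * y := rfl

private lemma neg_one_sym {q : ℕ} (h : q % 16 = 7) : jacobiSym (-1) q = -1 := by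
  have h1 : Odd q := Nat.odd_iff.2 (by omega)
  rw [jacobiSym.at_neg_one h1]
  exact ZMod.χ₄_nat_three_mod_four (by omega)

/-- the sum over one class -/
private lemma one_class (h2 : StEisF) (h4 : StBas) (h5 : StBase) {q : ℕ} [NeZero q] {F : Type}
    [Field F] [NumberField F] {s : 𝓞 F} {σ : F →+* ℂ} {χ : DirichletCharacter ℂ q}
    {cj : 𝓞 F ≃+* 𝓞 F} {n : ℕ} {φ : Ideal (𝓞 F) →*₀ ℂ} {a : Ideal (𝓞 F)} {X Y : 𝓞 F}
    (hD : Dat q s σ χ cj) (hφ : IsCan q s σ (2 * n + 1) φ) (hB : OBasis σ a X Y) (hX : s ∣ X)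
    (z : ℂ) (hz : 1 < z.re) :
    (Ideal.absNorm a : ℂ) ^ ((n : ℂ) + 1 + z) * (1 / 2 * ∑' x : a, φ (Ideal.span {(x : 𝓞 F)}) *
      (Ideal.absNorm (Ideal.span {(x : 𝓞 F)}) : ℂ) ^ (-((n : ℂ) + 1 + z))) =
    (2 * Real.sqrt q : ℂ) ^ ((n : ℂ) + 1 + z) * (φ (Ideal.span {Y}) *
      ((σ X / (q * σ Y)).im : ℂ) ^ (2 * n + 1) *
        conj (eis q χ n (conj z - n) (σ X / (q * σ Y)))) := by
  obtain ⟨-, -, -, -, -, hnorm, -, -, -, hint, -⟩ := h4 q F _ _ s σ χ cj hD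
  obtain ⟨-, -, him, hinj, -⟩ := h5 q F _ _ s σ χ cj hD
  have hq7 : 7 ≤ q := by
    have := hD.mod
    omega
  have hq0 : (0 : ℝ) < q := by exact_mod_cast hD.prime.pos
  have hqC : (q : ℂ) ≠ 0 := by exact_mod_cast hD.prime.ne_zero
  have hsq : (0 : ℝ) < Real.sqrt q := Real.sqrt_pos.2 hq0
  have hpos := hB.pos
  have hY0 : σ Y ≠ 0 := by
    intro h
    rw [h, map_zero, mul_zero] at hpos
    exact lt_irrefl _ hpos
  have hY : Y ≠ 0 := by
    intro h
    apply hY0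
    rw [h]
    exact map_zero σ
  have hNY : 0 < Complex.normSq (σ Y) := Complex.normSq_pos.2 hY0
  obtain ⟨u, hu⟩ : ∃ u, u = σ X / (q * σ Y) := ⟨_, rfl⟩
  rw [← hu]
  have huX : σ X = q * u * σ Y := by
    rw [hu]
    field_simp
  have huim : u.im = (σ X * conj (σ Y)).im / (q * Complex.normSq (σ Y)) := by
    have h1 : σ X * conj (σ Y) = ((q * Complex.normSq (σ Y) : ℝ) : ℂ) * u := by
      rw [huX]
      push_cast
      rw [Complex.normSq_eq_conj_mul_self]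
      ring
    rw [h1, Complex.im_ofReal_mul]
    field_simp
  have hupos : 0 < u.im := by
    rw [huim]
    positivity
  have huN : (Ideal.absNorm a : ℝ) = 2 * Real.sqrt q * (u.im * Complex.normSq (σ Y)) := by
    rw [huim, him a X Y hB]
    have h1 : Real.sqrt q * Real.sqrt q = q := Real.mul_self_sqrt hq0.le
    field_simp
    nlinarith [h1]
  -- the integer congruent to `Y`
  obtain ⟨y₀, hy₀⟩ := hint Y
  have hφY : φ (Ideal.span {Y}) = (jacobiSym y₀ q : ℂ) * σ Y ^ (2 * n + 1) := hφ Y y₀ hY hy₀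
  obtain ⟨E, hE⟩ : ∃ E : ℂ, E = (n : ℂ) + 1 + z := ⟨_, rfl⟩
  rw [← hE]
  have hterm : ∀ p : ℤ × ℤ, φ (Ideal.span {((pairEquiv hB (hinj a X Y hB) p : a) : 𝓞 F)}) *
      (Ideal.absNorm (Ideal.span {((pairEquiv hB (hinj a X Y hB) p : a) : 𝓞 F)}) : ℂ) ^ (-E) =
      φ (Ideal.span {Y}) * ((Complex.normSq (σ Y) : ℝ) : ℂ) ^ (-E) *
        conj (χ p.2 * gE n (conj z - n) (p.1 * q * u + p.2)) := by
    rintro ⟨l, m⟩
    rw [pairEquiv_val]
    dsimp only
    by_cases hx : (l : 𝓞 F) * X + (m : 𝓞 F) * Y = 0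
    · obtain ⟨rfl, rfl⟩ := hinj a X Y hB l m hx
      have h1 : χ ((0 : ℤ) : ZMod q) = 0 := by
        rw [hD.chi 0, jacobiSym.zero_left (by omega)]
        simp
      rw [hx, Ideal.span_singleton_eq_bot.2 rfl, ← Ideal.zero_eq_bot, map_zero, zero_mul, h1,
        zero_mul, map_zero, mul_zero]
    · have hσx : σ (((l : 𝓞 F) * X + (m : 𝓞 F) * Y : 𝓞 F) : F) =
          σ Y * (l * q * u + m) := by
        have h1 : σ (((l : 𝓞 F) * X + (m : 𝓞 F) * Y : 𝓞 F) : F) = l * σ X + m * σ Y := by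
          push_cast
          simp
        rw [h1, huX]
        ring
      have hσx0 : σ (((l : 𝓞 F) * X + (m : 𝓞 F) * Y : 𝓞 F) : F) ≠ 0 := by
        intro h
        rw [map_eq_zero] at h
        exact hx (by exact_mod_cast h)
      have hw : (l : ℂ) * q * u + m ≠ 0 := by
        intro h
        rw [hσx, h, mul_zero] at hσx0
        exact hσx0 rfl
      have hdvd : s ∣ ((l : 𝓞 F) * X + (m : 𝓞 F) * Y) - ((m * y₀ : ℤ) : 𝓞 F) := by
        have h1 : ((l : 𝓞 F) * X + (m : 𝓞 F) * Y) - ((m * y₀ : ℤ) : 𝓞 F) =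
            (l : 𝓞 F) * X + (m : 𝓞 F) * (Y - y₀) := by
          push_cast
          ring
        rw [h1]
        exact dvd_add (Dvd.dvd.mul_left hX _) (Dvd.dvd.mul_left hy₀ _)
      have h2 : (Ideal.absNorm (Ideal.span {(l : 𝓞 F) * X + (m : 𝓞 F) * Y}) : ℂ) =
          ((Complex.normSq (σ Y) : ℝ) : ℂ) *
            ((Complex.normSq ((l : ℂ) * q * u + m) : ℝ) : ℂ) := by
        rw [← Complex.ofReal_mul, ← Complex.normSq_mul, ← hσx, hnorm]
        exact (Complex.ofReal_natCast _).symm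
      rw [hφ _ (m * y₀) hx hdvd, h2, Complex.mul_cpow_ofReal_nonneg (Complex.normSq_nonneg _)
        (Complex.normSq_nonneg _), map_mul, ← pow_gE n z _ hw, hφY, hσx, ← hE,
        jacobiSym.mul_left, hD.chi m]
      simp only [map_intCast, Int.cast_mul]
      generalize (l : ℂ) * q * u + m = w
      rw [mul_pow]
      ring
  rw [← Equiv.tsum_eq (pairEquiv hB (hinj a X Y hB)), tsum_congr hterm, tsum_mul_left,
    ← Complex.conj_tsum]
  obtain ⟨-, hS⟩ := h2 q inferInstance χ n hD.prime (by omega) hD.chi (neg_one_sym hD.mod)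
    (conj z - n) u (by simp; linarith) hupos
  generalize (∑' p : ℤ × ℤ, χ p.2 * gE n (conj z - n) (p.1 * q * u + p.2)) = S at hS ⊢
  have hS' : (u.im : ℂ) ^ (z - n) * conj S = 2 * conj (eis q χ n (conj z - n) u) := by
    have h1 := congrArg (starRingEnd ℂ) hS
    rw [map_mul, conj_cpow_real hupos, map_mul, map_ofNat] at h1
    simpa using h1
  have hui : (u.im : ℂ) ≠ 0 := by exact_mod_cast hupos.ne'
  have hNYC : ((Complex.normSq (σ Y) : ℝ) : ℂ) ≠ 0 := by exact_mod_cast hNY.ne'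
  have hNa : (Ideal.absNorm a : ℂ) ^ E = (2 * Real.sqrt q : ℂ) ^ E *
      ((u.im : ℂ) ^ E * ((Complex.normSq (σ Y) : ℝ) : ℂ) ^ E) := by
    rw [← Complex.mul_cpow_ofReal_nonneg hupos.le hNY.le, ← Complex.ofReal_mul]
    have h1 : (2 * Real.sqrt q : ℂ) = ((2 * Real.sqrt q : ℝ) : ℂ) := by push_cast; ring
    rw [h1, ← Complex.mul_cpow_ofReal_nonneg (by positivity) (by positivity),
      ← Complex.ofReal_mul, ← huN, Complex.ofReal_natCast]
  have h3 : (u.im : ℂ) ^ E = (u.im : ℂ) ^ (2 * n + 1) * (u.im : ℂ) ^ (z - n) := by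
    rw [← Complex.cpow_natCast, ← Complex.cpow_add _ _ hui, hE]
    congr 1
    push_cast
    ring
  have h4' : ((Complex.normSq (σ Y) : ℝ) : ℂ) ^ E * ((Complex.normSq (σ Y) : ℝ) : ℂ) ^ (-E) =
      1 := by
    rw [← Complex.cpow_add _ _ hNYC, add_neg_cancel, Complex.cpow_zero]
  have h5' : conj (eis q χ n (conj z - n) u) = 1 / 2 * ((u.im : ℂ) ^ (z - n) * conj S) := by
    rw [hS']
    ring
  rw [hNa, h5', h3]
  linear_combination (2 * Real.sqrt q : ℂ) ^ E * (u.im : ℂ) ^ (2 * n + 1) *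
    (u.im : ℂ) ^ (z - n) * (1 / 2) * φ (Ideal.span {Y}) * conj S * h4'

end LsS

open LsS in
/-- (LsS) the Dirichlet series over the ideals in terms of Eisenstein series. -/
theorem stLsS (h1 : StDec) (h2 : StEisF) (h3 : StCj) (h4 : StBas) (h5 : StBase) : StLsS := by
  intro q _ F _ _ s σ χ cj n φ c hD hφ hX hcop z hz
  obtain ⟨-, -, hnorm, hzero⟩ := h3 q F _ _ s σ χ cj n φ hD hφ
  have hb : ∀ b : Ideal (𝓞 F), ‖φ b‖ ≤ (Ideal.absNorm b : ℝ) ^ ((n : ℝ) + 1 / 2) := by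
    intro b
    by_cases hc : IsCoprime b (Ideal.span {s})
    · have h6 := (hnorm b hc).2
      have h7 : ((Ideal.absNorm b : ℝ) ^ ((n : ℝ) + 1 / 2)) ^ 2 =
          (Ideal.absNorm b : ℝ) ^ (2 * n + 1) := by
        rw [← Real.rpow_natCast, ← Real.rpow_natCast, ← Real.rpow_mul (Nat.cast_nonneg _)]
        congr 1
        push_cast
        ring
      rw [← h7] at h6
      exact le_of_eq ((pow_left_inj₀ (norm_nonneg _) (by positivity) two_ne_zero).1 h6)
    · rw [hzero b hc, norm_zero]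
      positivity
  have hne : ∀ A, φ (c.R A : Ideal (𝓞 F)) ≠ 0 := by
    intro A h
    have h6 := (hnorm _ (hcop A)).2
    rw [h, norm_zero] at h6
    have h7 : (Ideal.absNorm (c.R A : Ideal (𝓞 F)) : ℝ) ≠ 0 := by
      have h8 : Ideal.absNorm (c.R A : Ideal (𝓞 F)) ≠ 0 := by
        rw [Ne, Ideal.absNorm_eq_zero_iff]
        exact nonZeroDivisors.coe_ne_zero (c.R A)
      exact_mod_cast h8
    exact pow_ne_zero _ h7 (by rw [← h6]; norm_num)
  obtain ⟨-, -, -, hsum⟩ := h1 q F _ _ s σ χ cj n φ c hD hb hne z hz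
  rw [hsum, Lam, Finset.mul_sum]
  refine Finset.sum_congr rfl fun A _ => ?_
  have h6 := one_class h2 h4 h5 hD hφ (c.bas A) (hX A) z hz
  rw [mul_assoc, h6]
  ring

end Pool.Agent.Lib.MP_7c08ba_nt.CN
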