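import Pool.Agent.Lib.MP_7c08ba_nt.CN.StAn

set_option autoImplicit false

/-!
Project CN: existence of the auxiliary numbers of a pair.
-/

namespace Pool.Agent.Lib.MP_7c08ba_nt.CN

open NumberField

theorem stOm : StOm := by
  intro q F _ _ s σ χ cj e d₁ d₂ b g _ he h1 h2 hc hq1 hq2 hd hb hg
  obtain ⟨x, y, hxy⟩ : ∃ x y : ℤ, x * d₁ + y * d₂ = 1 :=
    (Nat.isCoprime_iff_coprime.2 hc)
  refine ⟨(1 - 2 * (x * d₁)) * b, 1 - 2 * (x * d₁), g - ((x * d₁ * b : ℤ) : 𝓞 F),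
    he, h1, h2, hc, hq1, hq2, hd, hb, hg, ⟨-x, by ring⟩, ⟨y, ?_⟩, ?_, ?_, ?_⟩
  · linear_combination (-2 : ℤ) * hxy
  · exact Dvd.dvd.mul_left hb _
  · rw [sub_self]
    exact dvd_zero _
  · push_cast
    linear_combination hg

end Pool.Agent.Lib.MP_7c08ba_nt.CN
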