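import Mathlib
import Pool.Agent.Lib.MP_7c08ba_nt.CN.StAn

set_option autoImplicit false

/-!
Project CN, module PoiH: Poisson summation for the products of two translates of a Hermite
function.
-/

namespace Pool.Agent.Lib.MP_7c08ba_nt.CN

open MeasureTheory Polynomial Pool.Agent.Lib.MP_7c08ba_nt.RZ Filter Asymptotics
open scoped FourierTransform

namespace PoiHAux

/-- A power is bounded by an exponential. -/
theorem pow_le_exp (k : ℕ) (x : ℝ) : |x| ^ k ≤ k.factorial * Real.exp |x| := by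
  have h := Real.pow_div_factorial_le_exp |x| (abs_nonneg x) k
  rw [div_le_iff₀ (by positivity)] at h
  linarith

/-- A polynomial is bounded by an exponential. -/
theorem poly_le_exp (p : ℝ[X]) : ∃ C : ℝ, 0 < C ∧ ∀ x : ℝ, |p.eval x| ≤ C * Real.exp |x| := by
  induction p using Polynomial.induction_on' with
  | add p q hp hq =>
    obtain ⟨C, hC, h⟩ := hp
    obtain ⟨D, hD, h'⟩ := hq
    refine ⟨C + D, by positivity, fun x => ?_⟩
    rw [eval_add]
    calc |p.eval x + q.eval x| ≤ |p.eval x| + |q.eval x| := abs_add_le _ _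
      _ ≤ C * Real.exp |x| + D * Real.exp |x| := add_le_add (h x) (h' x)
      _ = (C + D) * Real.exp |x| := by ring
  | monomial k a =>
    refine ⟨(|a| + 1) * k.factorial, by positivity, fun x => ?_⟩
    rw [eval_monomial, abs_mul, abs_pow]
    calc |a| * |x| ^ k ≤ (|a| + 1) * (k.factorial * Real.exp |x|) := by
          refine mul_le_mul (by linarith) (pow_le_exp k x) (by positivity) (by positivity)
      _ = (|a| + 1) * k.factorial * Real.exp |x| := by ring

theorem hf_eq (n : ℕ) : ∃ p : ℝ[X], ∀ x : ℝ,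
    hf n x = p.eval x * Real.exp (-(Real.pi * x ^ 2)) := by
  refine ⟨((HP n).map (Int.castRingHom ℝ)).comp (C (Real.sqrt (2 * Real.pi)) * X), fun x => ?_⟩
  rw [hf, eval_comp, eval_mul, eval_C, eval_X, eval_map, aeval_def]
  rfl

theorem hf_cont (n : ℕ) : Continuous (hf n) := by
  obtain ⟨p, hp⟩ := hf_eq n
  rw [show hf n = fun x => p.eval x * Real.exp (-(Real.pi * x ^ 2)) from funext hp]
  exact p.continuous.mul (Real.continuous_exp.comp (by fun_prop))

theorem hf_le (n : ℕ) : ∃ C : ℝ, 0 < C ∧ ∀ x : ℝ, |hf n x| ≤ C * Real.exp (-(x ^ 2)) := by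
  obtain ⟨p, hp⟩ := hf_eq n
  obtain ⟨C, hC, h⟩ := poly_le_exp p
  refine ⟨C * Real.exp 1, by positivity, fun x => ?_⟩
  rw [hp, abs_mul, abs_of_pos (Real.exp_pos _)]
  have h1 : |x| ≤ 1 + x ^ 2 := by
    have := sq_nonneg (|x| - 1)
    have := sq_abs x
    nlinarith
  calc |p.eval x| * Real.exp (-(Real.pi * x ^ 2))
      ≤ C * Real.exp |x| * Real.exp (-(Real.pi * x ^ 2)) := by
        gcongr
        exact h x
    _ = C * Real.exp (|x| - Real.pi * x ^ 2) := by
        rw [mul_assoc, ← Real.exp_add]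
        ring_nf
    _ ≤ C * Real.exp (1 + -(x ^ 2)) := by
        gcongr
        have := Real.pi_gt_three
        nlinarith [sq_nonneg x]
    _ = C * Real.exp 1 * Real.exp (-(x ^ 2)) := by
        rw [Real.exp_add, mul_assoc]

theorem prod_le (n : ℕ) : ∃ C : ℝ, 0 < C ∧ ∀ g t v : ℝ,
    |hf n (g * (v + t / 2)) * hf n (g * (v - t / 2))| ≤ C * Real.exp (-(2 * g ^ 2 * v ^ 2)) := by
  obtain ⟨C, hC, h⟩ := hf_le n
  refine ⟨C * C, by positivity, fun g t v => ?_⟩
  rw [abs_mul]
  calc |hf n (g * (v + t / 2))| * |hf n (g * (v - t / 2))|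
      ≤ (C * Real.exp (-((g * (v + t / 2)) ^ 2))) * (C * Real.exp (-((g * (v - t / 2)) ^ 2))) := by
        gcongr
        · exact h _
        · exact h _
    _ = C * C * Real.exp (-((g * (v + t / 2)) ^ 2) + -((g * (v - t / 2)) ^ 2)) := by
        rw [Real.exp_add]
        ring
    _ ≤ C * C * Real.exp (-(2 * g ^ 2 * v ^ 2)) := by
        gcongr
        nlinarith [sq_nonneg (g * t)]

theorem lag_eq (n : ℕ) (x : ℝ) : ∃ y : ℝ, lag n x = y ∧
    y = ∑ j ∈ Finset.range (n + 1), (n.choose j : ℝ) * (-x) ^ j / (j.factorial : ℝ) := by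
  refine ⟨_, ?_, rfl⟩
  rw [lag]
  push_cast
  rfl

theorem LG_le (n : ℕ) : ∃ C : ℝ, 0 < C ∧ ∀ T Z : ℝ, ‖LG n T Z‖ ≤ C * Real.exp (-(Z ^ 2 / 2)) := by
  obtain ⟨C, hC, h⟩ := poly_le_exp (∑ j ∈ Finset.range (n + 1),
    Polynomial.C ((n.choose j : ℝ) * (-Real.pi) ^ j / (j.factorial : ℝ)) * X ^ j)
  have h2 : 0 < Real.sqrt 2 := by positivity
  refine ⟨2 ^ n * n.factorial / Real.sqrt 2 * C, by positivity, fun T Z => ?_⟩
  set r : ℝ := T ^ 2 + Z ^ 2 with hr
  have hr0 : 0 ≤ r := by positivity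
  have h1 : ‖lag n (Real.pi * (T ^ 2 + Z ^ 2))‖ ≤ C * Real.exp r := by
    obtain ⟨y, hy1, hy2⟩ := lag_eq n (Real.pi * r)
    have e1 : ((Real.pi : ℂ) * ((T : ℂ) ^ 2 + (Z : ℂ) ^ 2)) = ((Real.pi * r : ℝ) : ℂ) := by
      rw [hr]
      push_cast
      ring
    rw [e1, hy1, Complex.norm_real, hy2, Real.norm_eq_abs]
    have h3 := h r
    rw [abs_of_nonneg hr0, eval_finsetSum] at h3
    convert h3 using 2
    refine Finset.sum_congr rfl fun j _ => ?_
    rw [eval_mul, eval_C, eval_pow, eval_X, neg_mul_eq_neg_mul, mul_pow]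
    ring
  have h3 : ‖((2 : ℂ) ^ n * n.factorial / Real.sqrt 2)‖ = 2 ^ n * n.factorial / Real.sqrt 2 := by
    rw [norm_div, norm_mul, norm_pow, Complex.norm_natCast, Complex.norm_real, Complex.norm_ofNat,
      Real.norm_of_nonneg h2.le]
  have h4 : ‖((Real.exp (-(Real.pi * (T ^ 2 + Z ^ 2) / 2)) : ℝ) : ℂ)‖ =
      Real.exp (-(Real.pi * r / 2)) := by
    rw [Complex.norm_real, Real.norm_of_nonneg (Real.exp_pos _).le]
  rw [LG, norm_mul, norm_mul, h3, h4]
  calc 2 ^ n * (n.factorial : ℝ) / Real.sqrt 2 * ‖lag n (Real.pi * (T ^ 2 + Z ^ 2))‖ *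
        Real.exp (-(Real.pi * r / 2))
      ≤ 2 ^ n * (n.factorial : ℝ) / Real.sqrt 2 * (C * Real.exp r) *
        Real.exp (-(Real.pi * r / 2)) := by gcongr
    _ = 2 ^ n * (n.factorial : ℝ) / Real.sqrt 2 * C * Real.exp (r + -(Real.pi * r / 2)) := by
        rw [Real.exp_add r, mul_assoc, mul_assoc, mul_assoc]
    _ ≤ 2 ^ n * (n.factorial : ℝ) / Real.sqrt 2 * C * Real.exp (-(Z ^ 2 / 2)) := by
        gcongr
        have := Real.pi_gt_three
        nlinarith [sq_nonneg T, sq_nonneg Z]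

/-- Gaussian sums converge. -/
theorem sumG {c : ℝ} (hc : 0 < c) (x : ℝ) :
    Summable fun l : ℤ => Real.exp (-(c * (x + l) ^ 2)) := by
  have h1 : Summable fun l : ℤ => Real.exp (-(c / 2 * (l : ℝ) ^ 2)) := by
    have h3 := summable_pow_mul_jacobiTheta₂_term_bound 0 (T := c / (2 * Real.pi))
      (by positivity) 0
    refine h3.congr fun l => ?_
    rw [pow_zero, one_mul]
    congr 1
    field_simp
    ring
  refine Summable.of_nonneg_of_le (fun _ => (Real.exp_pos _).le) (fun l => ?_)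
    (h1.mul_left (Real.exp (c * x ^ 2)))
  rw [← Real.exp_add]
  refine Real.exp_le_exp.2 ?_
  nlinarith [mul_nonneg hc.le (sq_nonneg (2 * x + l))]

end PoiHAux

open PoiHAux

/-- (PoiH) Poisson summation -/
theorem stPoiH (h : StHer) : StPoiH := by
  intro n g t ν x₀ hg
  obtain ⟨C, hC, hb⟩ := prod_le n
  obtain ⟨D, hD, hL⟩ := LG_le n
  have s1 : Summable fun l : ℤ =>
      ‖hf n (g * (x₀ + l + t / 2)) * hf n (g * (x₀ + l - t / 2))‖ := by
    refine Summable.of_nonneg_of_le (fun _ => norm_nonneg _) (fun l => ?_)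
      ((sumG (c := 2 * g ^ 2) (by positivity) x₀).mul_left C)
    exact hb g t (x₀ + l)
  have s2 : Summable fun z : ℤ => ‖LG n (g * t) ((z - ν) / g)‖ := by
    refine Summable.of_nonneg_of_le (fun _ => norm_nonneg _) (fun z => ?_)
      ((sumG (c := 1 / (2 * g ^ 2)) (by positivity) (-ν)).mul_left D)
    refine (hL _ _).trans (le_of_eq ?_)
    congr 2
    field_simp
    ring
  refine ⟨s1, s2, ?_⟩
  set f : ℝ → ℂ := fun v => ((hf n (g * (v + t / 2)) * hf n (g * (v - t / 2)) : ℝ) : ℂ) *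
    ee (ν * v) with hf'
  have hee : ∀ x : ℝ, ‖ee (x : ℂ)‖ = 1 := by
    intro x
    rw [ee, show 2 * (Real.pi : ℂ) * Complex.I * x = ((2 * Real.pi * x : ℝ) : ℂ) * Complex.I by
      push_cast
      ring]
    exact Complex.norm_exp_ofReal_mul_I _
  have hcont : Continuous f := by
    refine (Complex.continuous_ofReal.comp (((hf_cont n).comp (by fun_prop)).mul
      ((hf_cont n).comp (by fun_prop)))).mul ?_
    unfold ee
    fun_prop
  have hFou : ∀ z : ℝ, 𝓕 f z = (g : ℂ)⁻¹ * LG n (g * t) ((z - ν) / g) := by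
    intro z
    rw [Real.fourier_eq']
    have h1 := (h n (g * t) ((z - ν) / g)).2
    have h2 := Measure.integral_comp_mul_left (fun v : ℝ =>
      ((hf n (v + (g * t) / 2) * hf n (v - (g * t) / 2) : ℝ) : ℂ) *
        ee (-(((z - ν) / g : ℝ) * v))) g
    rw [h1] at h2
    have h3 : |g⁻¹| = g⁻¹ := abs_of_pos (inv_pos.2 hg)
    rw [h3, Complex.real_smul] at h2
    rw [← Complex.ofReal_inv, ← h2]
    refine integral_congr_ae (Filter.Eventually.of_forall fun v => ?_)
    simp only [hf', smul_eq_mul]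
    rw [show g * (v + t / 2) = g * v + g * t / 2 by ring,
      show g * (v - t / 2) = g * v - g * t / 2 by ring, mul_comm (Complex.exp _), mul_assoc]
    congr 1
    rw [ee, ee, ← Complex.exp_add]
    congr 1
    have hg' : (g : ℂ) ≠ 0 := Complex.ofReal_ne_zero.2 hg.ne'
    simp only [RCLike.inner_apply, conj_trivial]
    push_cast
    field_simp
    ring
  have hdec : f =O[cocompact ℝ] fun x : ℝ => |x| ^ (-(2 : ℝ)) := by
    refine IsBigO.of_bound (C / (2 * g ^ 2)) ?_
    filter_upwards [(isCompact_singleton (x := (0 : ℝ))).compl_mem_cocompact] with v hv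
    have hv0 : v ≠ 0 := fun h0 => hv (by rw [h0]; exact Set.mem_singleton _)
    have h1 : ‖f v‖ ≤ C * Real.exp (-(2 * g ^ 2 * v ^ 2)) := by
      simp only [hf']
      have h2 := hee (ν * v)
      push_cast at h2
      rw [norm_mul, h2, mul_one, Complex.norm_real]
      exact hb g t v
    have h2 : Real.exp (-(2 * g ^ 2 * v ^ 2)) ≤ 1 / (2 * g ^ 2 * v ^ 2) := by
      rw [Real.exp_neg, ← one_div]
      refine one_div_le_one_div_of_le (by positivity) ?_
      have := Real.add_one_le_exp (2 * g ^ 2 * v ^ 2)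
      linarith
    have h3 : ‖|v| ^ (-(2 : ℝ))‖ = 1 / v ^ 2 := by
      rw [Real.norm_of_nonneg (by positivity), Real.rpow_neg (abs_nonneg v),
        show (2 : ℝ) = ((2 : ℕ) : ℝ) by norm_num, Real.rpow_natCast, sq_abs, one_div]
    rw [h3]
    calc ‖f v‖ ≤ C * Real.exp (-(2 * g ^ 2 * v ^ 2)) := h1
      _ ≤ C * (1 / (2 * g ^ 2 * v ^ 2)) := by gcongr
      _ = C / (2 * g ^ 2) * (1 / v ^ 2) := by
        field_simp
  have hFs : Summable fun z : ℤ => 𝓕 f z := by
    refine Summable.of_norm ?_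
    refine (s2.mul_left ‖(g : ℂ)⁻¹‖).congr fun z => ?_
    rw [hFou, norm_mul]
  have hP := Real.tsum_eq_tsum_fourier_of_rpow_decay_of_summable hcont one_lt_two hdec hFs x₀
  have e1 : ∀ l : ℤ, f (x₀ + l) =
      ((hf n (g * (x₀ + l + t / 2)) * hf n (g * (x₀ + l - t / 2)) : ℝ) : ℂ) *
        ee (ν * (x₀ + l)) := by
    intro l
    simp only [hf']
    push_cast
    rfl
  have e2 : ∀ z : ℤ, 𝓕 f z * fourier z (x₀ : UnitAddCircle) =
      (g : ℂ)⁻¹ * LG n (g * t) ((z - ν) / g) * ee (z * x₀) := by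
    intro z
    rw [hFou, fourier_coe_apply, ee]
    congr 2
    push_cast
    ring
  rw [← tsum_congr e1, ← tsum_congr e2]
  exact hP

end Pool.Agent.Lib.MP_7c08ba_nt.CN
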