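import Mathlib
import Pool.Agent.Lib.MP_7c08ba_nt.CN.StAn

set_option autoImplicit false

/-!
Module Rep: representatives of the classes with a basis whose first member is divisible by `s`.
-/

namespace Pool.Agent.Lib.MP_7c08ba_nt.CN

open NumberField IsDedekindDomain Polynomial Pool.Agent.Lib.MP_7c08ba_nt.RZ
open scoped nonZeroDivisors ComplexConjugate

namespace ARep

/-- A pair of integers is orthogonal to a primitive pair. -/
theorem exists_prim (x y : ℤ) : ∃ l m a b : ℤ, l * x + m * y = 0 ∧ a * l + b * m = 1 := by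
  by_cases h : 0 < Int.gcd x y
  · obtain ⟨m', n', hc, hx, hy⟩ := Int.exists_gcd_one h
    have hcop : IsCoprime m' n' := Int.isCoprime_iff_gcd_eq_one.2 hc
    obtain ⟨u, v, huv⟩ := hcop
    refine ⟨n', -m', v, -u, ?_, ?_⟩
    · linear_combination n' * hx - m' * hy
    · linarith [huv]
  · have h0 : Int.gcd x y = 0 := by omega
    rw [Int.gcd_eq_zero_iff] at h0
    refine ⟨1, 0, 1, 0, ?_, ?_⟩
    · rw [h0.1, h0.2]; ring
    · ring

variable {F : Type} [Field F] [NumberField F] {σ : F →+* ℂ}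

/-- Unimodular change of an oriented basis. -/
theorem change {I : Ideal (𝓞 F)} {x y : 𝓞 F} (h : OBasis σ I x y) {l m a b : ℤ}
    (h1 : a * l + b * m = 1) :
    OBasis σ I ((l : 𝓞 F) * x + (m : 𝓞 F) * y) (((-b : ℤ) : 𝓞 F) * x + (a : 𝓞 F) * y) := by
  have h1' : (a : 𝓞 F) * l + b * m = 1 := by exact_mod_cast h1
  constructor
  · intro z
    rw [h.mem z]
    constructor
    · rintro ⟨u, v, rfl⟩
      refine ⟨u * a + v * b, -(u * m) + v * l, ?_⟩
      push_cast
      linear_combination (-(u : 𝓞 F) * x - v * y) * h1'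
    · rintro ⟨u, v, rfl⟩
      refine ⟨u * l - v * b, u * m + v * a, ?_⟩
      push_cast
      ring
  · have hp := h.pos
    have h1r : (a : ℝ) * l + b * m = 1 := by exact_mod_cast h1
    have e : (σ (((l : 𝓞 F) * x + (m : 𝓞 F) * y : 𝓞 F) : F) *
        conj (σ ((((-b : ℤ) : 𝓞 F) * x + (a : 𝓞 F) * y : 𝓞 F) : F))).im =
        (a * l + b * m) * (σ x * conj (σ y)).im := by
      push_cast
      simp only [map_add, map_mul, map_neg, map_intCast, Complex.add_im, Complex.mul_im,
        Complex.add_re, Complex.mul_re, Complex.neg_re, Complex.neg_im, Complex.intCast_re,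
        Complex.intCast_im, Complex.conj_re, Complex.conj_im]
      ring
    rw [e, h1r, one_mul]
    exact hp

end ARep

open ARep in
theorem stRep (h1 : StBas) (_h2 : StBase) (h3 : StReps) : StRep := by
  intro q F _ _ s σ χ cj D
  obtain ⟨-, c, hc⟩ := h3 q F _ _ s σ χ cj D
  obtain ⟨-, -, -, -, -, -, -, -, -, hn, -⟩ := h1 q F _ _ s σ χ cj D
  have key : ∀ A : ClassGroup (𝓞 F), ∃ X Y : 𝓞 F,
      OBasis σ (c.R A : Ideal (𝓞 F)) X Y ∧ s ∣ X := by
    intro A
    obtain ⟨x', hx⟩ := hn (c.X A)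
    obtain ⟨y', hy⟩ := hn (c.Y A)
    obtain ⟨l, m, a, b, h0, h1⟩ := exists_prim x' y'
    refine ⟨_, _, change (c.bas A) h1, ?_⟩
    have h0' : (l : 𝓞 F) * x' + m * y' = 0 := by exact_mod_cast h0
    have e : (l : 𝓞 F) * c.X A + (m : 𝓞 F) * c.Y A =
        l * (c.X A - x') + m * (c.Y A - y') := by
      linear_combination h0'
    rw [e]
    exact dvd_add (hx.mul_left _) (hy.mul_left _)
  choose X Y hb hs using key
  exact ⟨⟨c.R, X, Y, c.cls, hb⟩, hs, hc⟩

end Pool.Agent.Lib.MP_7c08ba_nt.CN
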