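import Mathlib
import Pool.Agent.Lib.MP_7c08ba_nt.CN.StAn

set_option autoImplicit false

/-!
Project CN: the central value as a sum over pairs of classes.
-/

namespace Pool.Agent.Lib.MP_7c08ba_nt.CN

open NumberField IsDedekindDomain MeasureTheory Polynomial Pool.Agent.Lib.MP_7c08ba_nt.RZ
open scoped nonZeroDivisors ComplexConjugate

namespace AVal

variable {F : Type} [Field F] [NumberField F]

omit [NumberField F] in
/-- The point attached to an oriented basis is in the upper half plane. -/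
lemma im_pos {σ : F →+* ℂ} {a : Ideal (𝓞 F)} {x y : 𝓞 F} (h : OBasis σ a x y) {q : ℕ}
    (hq : 0 < q) : 0 < (σ x / (q * σ y)).im := by
  have hp := h.pos
  have hy : σ y ≠ 0 := by
    intro h0
    rw [h0] at hp
    simp at hp
  have hn : 0 < Complex.normSq (σ y) := Complex.normSq_pos.mpr hy
  have hq' : (0 : ℝ) < q := by exact_mod_cast hq
  have e : σ x / (q * σ y) = ((1 / (q * Complex.normSq (σ y)) : ℝ) : ℂ) *
      (σ x * conj (σ y)) := by
    have h1 : ((Complex.normSq (σ y) : ℝ) : ℂ) = σ y * conj (σ y) := (Complex.mul_conj _).symm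
    have h2 : conj (σ y) ≠ 0 := by simpa using hy
    have h3 : (q : ℂ) ≠ 0 := by exact_mod_cast hq.ne'
    push_cast
    rw [h1]
    field_simp
  rw [e, Complex.im_ofReal_mul]
  positivity

end AVal

/-- The central value as a sum over pairs of classes. -/
theorem stVal (h : RZ.StEisTh) : StVal := by
  intro q hq0 F _ _ s σ χ cj n φ c hD _
  have hq : 0 < q := Nat.pos_of_ne_zero hq0.out
  have hsq : Real.sqrt q ≠ 0 := by
    have : (0 : ℝ) < q := by exact_mod_cast hq
    positivity
  obtain ⟨ε, hε, hE⟩ := h q hq0 F _ _ s σ χ cj c hD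
  have hε0 : conj ε ≠ 0 := by
    rcases hε with rfl | rfl <;> simp
  have hsq' : (Real.sqrt q : ℂ) ≠ 0 := by exact_mod_cast hsq
  have hpi : (Real.pi : ℂ) ≠ 0 := by exact_mod_cast Real.pi_ne_zero
  refine ⟨(2 * Real.sqrt q : ℂ) ^ ((n : ℂ) + 1 + 0) * (conj ε * (Real.pi / Real.sqrt q)), ?_, ?_⟩
  · refine mul_ne_zero ?_ (mul_ne_zero hε0 (div_ne_zero hpi hsq'))
    rw [Complex.cpow_def_of_ne_zero (mul_ne_zero two_ne_zero hsq')]
    exact Complex.exp_ne_zero _
  · unfold Lam GG
    rw [mul_assoc]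
    congr 1
    rw [Finset.mul_sum]
    refine Finset.sum_congr rfl fun A _ => ?_
    have hu := AVal.im_pos (c.bas A) hq
    have e0 : (conj (0 : ℂ) - n : ℂ) = -(n : ℂ) := by simp
    rw [e0, hE n _ hu, map_mul, map_mul, map_div₀, Complex.conj_ofReal, Complex.conj_ofReal,
      map_sum, Finset.mul_sum, Finset.mul_sum, Finset.mul_sum]
    refine Finset.sum_congr rfl fun B _ => ?_
    ring

end Pool.Agent.Lib.MP_7c08ba_nt.CN
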