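import Mathlib
import Pool.Agent.Lib.MP_7c08ba_nt.CN.AAn
import Pool.Agent.Lib.MP_7c08ba_nt.CN.ABij
import Pool.Agent.Lib.MP_7c08ba_nt.CN.ACM
import Pool.Agent.Lib.MP_7c08ba_nt.CN.ACj
import Pool.Agent.Lib.MP_7c08ba_nt.CN.ADec
import Pool.Agent.Lib.MP_7c08ba_nt.CN.AEisF
import Pool.Agent.Lib.MP_7c08ba_nt.CN.AEulId
import Pool.Agent.Lib.MP_7c08ba_nt.CN.AFac
import Pool.Agent.Lib.MP_7c08ba_nt.CN.AHer
import Pool.Agent.Lib.MP_7c08ba_nt.CN.AInv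
import Pool.Agent.Lib.MP_7c08ba_nt.CN.ALs
import Pool.Agent.Lib.MP_7c08ba_nt.CN.ALsS
import Pool.Agent.Lib.MP_7c08ba_nt.CN.AOm
import Pool.Agent.Lib.MP_7c08ba_nt.CN.APair
import Pool.Agent.Lib.MP_7c08ba_nt.CN.APoiH
import Pool.Agent.Lib.MP_7c08ba_nt.CN.ARep
import Pool.Agent.Lib.MP_7c08ba_nt.CN.AVal
import Pool.Agent.Lib.MP_7c08ba_nt.RZ.Bas
import Pool.Agent.Lib.MP_7c08ba_nt.RZ.Base
import Pool.Agent.Lib.MP_7c08ba_nt.RZ.Count
import Pool.Agent.Lib.MP_7c08ba_nt.RZ.EisA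
import Pool.Agent.Lib.MP_7c08ba_nt.RZ.EisAt
import Pool.Agent.Lib.MP_7c08ba_nt.RZ.EisBig
import Pool.Agent.Lib.MP_7c08ba_nt.RZ.EisLaw
import Pool.Agent.Lib.MP_7c08ba_nt.RZ.EisTh
import Pool.Agent.Lib.MP_7c08ba_nt.RZ.IdSum
import Pool.Agent.Lib.MP_7c08ba_nt.RZ.PoisK
import Pool.Agent.Lib.MP_7c08ba_nt.RZ.Poisson
import Pool.Agent.Lib.MP_7c08ba_nt.RZ.Raise
import Pool.Agent.Lib.MP_7c08ba_nt.RZ.Reps
import Pool.Agent.Lib.MP_7c08ba_nt.RZ.Split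
import Pool.Agent.Lib.MP_7c08ba_nt.RZ.ThB
import Pool.Agent.Lib.MP_7c08ba_nt.RZ.ThG
import Pool.Agent.Lib.MP_7c08ba_nt.RZ.ThS
import Pool.Agent.Lib.MP_7c08ba_nt.RZ.Thl

set_option autoImplicit false

/-!
Project CN, analytic part: assembly.
-/

namespace Pool.Agent.Lib.MP_7c08ba_nt.CN

namespace A

theorem bas : RZ.StBas := RZ.stBas

theorem base : RZ.StBase := RZ.stBase bas

theorem reps : RZ.StReps := RZ.stReps bas base

theorem thB : RZ.StThB := RZ.stThB bas base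

theorem poisK : RZ.StPoisK := RZ.stPoisK RZ.stPoisson

theorem thl : RZ.StThl :=
  RZ.stThl RZ.stRaise (RZ.stThS poisK base bas) (RZ.stThG poisK base bas thB) bas thB

theorem idSum : RZ.StIdSum := RZ.stIdSum bas

theorem eisTh : RZ.StEisTh :=
  RZ.stEisTh (RZ.stEisAt RZ.stEisA) (RZ.stEisLaw RZ.stEisA RZ.stEisBig) thl idSum
    (RZ.stCount bas (RZ.stSplit bas)) bas thB

theorem cm : StCM := stCM bas base

theorem cj : StCj := stCj bas reps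

theorem fac : StFac := stFac (stPoiH stHer)

theorem dec : StDec := stDec stEulId bas idSum

theorem lsS : StLsS := stLsS dec stEisF cj bas base

theorem ls : StLs := stLs dec lsS cj RZ.stEisA

end A

/-- The analytic part. -/
theorem aAn : StAn :=
  stAn stOm A.cm (stInv A.bas A.base A.thl) (stPair A.fac A.cm A.cj) A.ls
    (stRep A.bas A.base A.reps) (stVal A.eisTh) (stBij A.reps A.bas)

end Pool.Agent.Lib.MP_7c08ba_nt.CN
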