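import Pool.Agent.Lib.MP_7c08ba_nt.CN.StP

set_option autoImplicit false

/-!
(N4) Families of pairwise coprime values.
-/

namespace Pool.Agent.Lib.MP_7c08ba_nt.CN

namespace FamAux

/-- The statement for the indices in a finite set. -/
theorem fam_finset {ι X : Type} [DecidableEq ι] (f : X → ℕ) (P : ι → X → Prop)
    (h : ∀ i (M : ℕ), 0 < M → ∃ x, P i x ∧ (f x).Coprime M ∧ 0 < f x) (M : ℕ) (hM : 0 < M)
    (s : Finset ι) : ∃ x : ι → X, (∀ i, P i (x i) ∧ (f (x i)).Coprime M ∧ 0 < f (x i)) ∧
      ∀ i ∈ s, ∀ i' ∈ s, i ≠ i' → (f (x i)).Coprime (f (x i')) := by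
  induction s using Finset.induction_on with
  | empty =>
    choose x hx using fun i => h i M hM
    exact ⟨x, hx, fun i hi => absurd hi (Finset.notMem_empty i)⟩
  | insert a s ha ih =>
    obtain ⟨x, h1, h2⟩ := ih
    obtain ⟨z, h3, h4, h5⟩ := h a (M * ∏ i ∈ s, f (x i))
      (Nat.mul_pos hM (Finset.prod_pos fun i _ => (h1 i).2.2))
    have h6 : ∀ i ∈ s, (f z).Coprime (f (x i)) := fun i hi =>
      (Nat.Coprime.coprime_mul_left_right h4).coprime_dvd_right (Finset.dvd_prod_of_mem (fun i => f (x i)) hi)
    have hne : ∀ i ∈ s, i ≠ a := by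
      rintro i hi rfl
      exact ha hi
    refine ⟨Function.update x a z, ?_, ?_⟩
    · intro i
      by_cases hi : i = a
      · subst hi
        rw [Function.update_self]
        exact ⟨h3, Nat.Coprime.coprime_mul_right_right h4, h5⟩
      · rw [Function.update_of_ne hi]
        exact h1 i
    · intro i hi i' hi' hii
      rcases Finset.mem_insert.mp hi with e | hi
      · rcases Finset.mem_insert.mp hi' with e' | hi'
        · exact absurd (e.trans e'.symm) hii
        · rw [e, Function.update_self, Function.update_of_ne (hne i' hi')]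
          exact h6 i' hi'
      · rcases Finset.mem_insert.mp hi' with e' | hi'
        · rw [e', Function.update_self, Function.update_of_ne (hne i hi)]
          exact (h6 i hi).symm
        · rw [Function.update_of_ne (hne i hi), Function.update_of_ne (hne i' hi')]
          exact h2 i hi i' hi' hii

end FamAux

theorem stFam : StFam := by
  classical
  intro ι X _ f P h M hM
  have := Fintype.ofFinite ι
  obtain ⟨x, h1, h2⟩ := FamAux.fam_finset f P h M hM Finset.univ
  exact ⟨x, h1, fun i i' hii => h2 i (Finset.mem_univ i) i' (Finset.mem_univ i') hii⟩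

end Pool.Agent.Lib.MP_7c08ba_nt.CN
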