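import Mathlib
import Pool.Agent.Lib.MP_7c08ba_nt.CN.Defs

set_option autoImplicit false

/-!
Project CN, `2`-adic part: definitions and statements of the modules.
Proofs: team store `cn_plan.md`.
-/

namespace Pool.Agent.Lib.MP_7c08ba_nt.CN

open NumberField IsDedekindDomain UpperHalfPlane ModularForm EisensteinSeries RZC
open scoped nonZeroDivisors ComplexConjugate MatrixGroups

/-! ### group N: ideals -/

/-- (N1) representatives prime to a given ideal -/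
def StRepM : Prop :=
  ∀ (F : Type) (_ : Field F) (_ : NumberField F) (C : ClassGroup (𝓞 F)) (M : Ideal (𝓞 F)),
    M ≠ ⊥ → ∃ I : (Ideal (𝓞 F))⁰, ClassGroup.mk0 I = C ∧ IsCoprime (I : Ideal (𝓞 F)) M

/-- (N2) the ideals `(M, g)`, `g = (b + s) / 2`, `M` a divisor of `N(g) = (b ^ 2 + q) / 4` -/
def StIdl : Prop :=
  ∀ (q : ℕ) (F : Type) (_ : Field F) (_ : NumberField F) (s : 𝓞 F) (b n : ℤ) (g : 𝓞 F),
    FieldC q F (s : F) → 2 * g = b + s → 4 * n = b ^ 2 + q →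
    g ^ 2 = b * g - n ∧ Odd b ∧
    (∀ x : 𝓞 F, ∃ u v : ℤ, x = u + v * g) ∧
    (∀ u v : ℤ, (u : 𝓞 F) + v * g = 0 → u = 0 ∧ v = 0) ∧
    (∀ M : ℕ, 0 < M → (M : ℤ) ∣ n →
      (∀ z : 𝓞 F, z ∈ idl g M ↔ ∃ u v : ℤ, z = u * M + v * g) ∧
      Ideal.absNorm (idl g M) = M) ∧
    (∀ M N : ℕ, 0 < M → 0 < N → ((M * N : ℕ) : ℤ) ∣ n → IsCoprime (M : ℤ) b →
      idl g M * idl g N = idl g (M * N)) ∧
    (∀ P : Ideal (𝓞 F), P.IsPrime → Ideal.absNorm P = 2 → ∀ k : ℕ, g ∈ P ^ k →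
      ((2 ^ k : ℕ) : ℤ) ∣ n ∧ idl g (2 ^ k) = P ^ k)

/-- (N3) every nonzero ideal is a multiple of an ideal which contains an element
`(b + s) / 2` -/
def StPrim : Prop :=
  ∀ (q : ℕ) (F : Type) (_ : Field F) (_ : NumberField F) (s : 𝓞 F), FieldC q F (s : F) →
    ∀ c : Ideal (𝓞 F), c ≠ ⊥ → ∃ (m : ℕ) (D : Ideal (𝓞 F)) (b : ℤ) (g : 𝓞 F), 0 < m ∧
      c = Ideal.span {(m : 𝓞 F)} * D ∧ 2 * g = b + s ∧ g ∈ D ∧ D = idl g (Ideal.absNorm D)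

/-- (N4) families of pairwise coprime values -/
def StFam : Prop :=
  ∀ (ι X : Type) (_ : Finite ι) (f : X → ℕ) (P : ι → X → Prop),
    (∀ i (M : ℕ), 0 < M → ∃ x, P i x ∧ (f x).Coprime M ∧ 0 < f x) →
    ∀ M : ℕ, 0 < M → ∃ x : ι → X, (∀ i, P i (x i) ∧ (f (x i)).Coprime M ∧ 0 < f (x i)) ∧
      ∀ i i', i ≠ i' → (f (x i)).Coprime (f (x i'))

/-! ### group T: theta constants -/

/-- `θ₃` -/
noncomputable def t3 (τ : ℂ) : ℂ := ∑' m : ℤ, Complex.exp (Real.pi * Complex.I * (m : ℂ) ^ 2 * τ)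

/-- `θ₄` -/
noncomputable def t4 (τ : ℂ) : ℂ :=
  ∑' m : ℤ, (-1 : ℂ) ^ m * Complex.exp (Real.pi * Complex.I * (m : ℂ) ^ 2 * τ)

/-- `θ₂` -/
noncomputable def t2 (τ : ℂ) : ℂ :=
  ∑' m : ℤ, Complex.exp (Real.pi * Complex.I * ((m : ℂ) + 1 / 2) ^ 2 * τ)

/-- the `i`-th derivative of `θ₃` (normalised) -/
noncomputable def tm (i : ℕ) (τ : ℂ) : ℂ :=
  ∑' m : ℤ, (m : ℂ) ^ (2 * i) * Complex.exp (Real.pi * Complex.I * (m : ℂ) ^ 2 * τ)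

/-- (T1) transformation formulas -/
def StTh1 : Prop :=
  ∀ τ : ℂ, 0 < τ.im →
    t3 (τ + 1) = t4 τ ∧ t4 (τ + 1) = t3 τ ∧
    t2 (τ + 1) = Complex.exp (Real.pi * Complex.I / 4) * t2 τ ∧
    t3 (-1 / τ) ^ 2 = -Complex.I * τ * t3 τ ^ 2 ∧
    t4 (-1 / τ) ^ 2 = -Complex.I * τ * t2 τ ^ 2 ∧
    t2 (-1 / τ) ^ 2 = -Complex.I * τ * t4 τ ^ 2

/-- (T2) duplication formulas and the identity of Jacobi -/
def StTh2 : Prop :=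
  ∀ τ : ℂ, 0 < τ.im →
    t3 τ ^ 2 = t3 (2 * τ) ^ 2 + t2 (2 * τ) ^ 2 ∧
    t4 τ ^ 2 = t3 (2 * τ) ^ 2 - t2 (2 * τ) ^ 2 ∧
    t3 τ * t4 τ = t4 (2 * τ) ^ 2 ∧
    t2 τ ^ 2 = 2 * t2 (2 * τ) * t3 (2 * τ) ∧
    t3 τ ^ 4 = t2 τ ^ 4 + t4 τ ^ 4

/-- (T3) Eisenstein series of weight 4 and 6 -/
def StTh3 : Prop :=
  ∀ τ : ℍ, 2 * E₄ τ = t2 τ ^ 8 + t3 τ ^ 8 + t4 τ ^ 8 ∧
    2 * E₆ τ = (t2 τ ^ 4 + t3 τ ^ 4) * (t3 τ ^ 4 + t4 τ ^ 4) * (t4 τ ^ 4 - t2 τ ^ 4)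

/-- (T4) the discriminant -/
def StTh4 : Prop :=
  ∀ τ : ℍ, 256 * discriminant τ = (t2 τ * t3 τ * t4 τ) ^ 8 ∧
    t2 τ ≠ 0 ∧ t3 τ ≠ 0 ∧ t4 τ ≠ 0

/-- (T5) logarithmic derivatives -/
def StTh5 : Prop :=
  ∀ τ : ℍ,
    HasDerivAt t3 (2 * Real.pi * Complex.I / 24 * (t3 τ * (E2 τ + t2 τ ^ 4 - t4 τ ^ 4))) τ ∧
    HasDerivAt t4 (2 * Real.pi * Complex.I / 24 * (t4 τ * (E2 τ - t2 τ ^ 4 - t3 τ ^ 4))) τ ∧
    HasDerivAt t2 (2 * Real.pi * Complex.I / 24 * (t2 τ * (E2 τ + t3 τ ^ 4 + t4 τ ^ 4))) τ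

/-- (T6) `E₂` at `2 * τ` -/
def StTh6 : Prop :=
  ∀ τ τ' : ℍ, (τ' : ℂ) = 2 * τ → 4 * E2 τ' = 2 * E2 τ + t3 τ ^ 4 + t4 τ ^ 4

/-- the function `θ₂⁴ / (16 θ₃⁴)` -/
noncomputable def tt (τ : ℂ) : ℂ := t2 τ ^ 4 / (16 * t3 τ ^ 4)

/-- the function `θ₃(2τ)² / θ₃(τ)²` -/
noncomputable def rr (τ : ℂ) : ℂ := t3 (2 * τ) ^ 2 / t3 τ ^ 2

/-- the function `E₂^* / θ₃⁴` -/
noncomputable def ep (τ : ℂ) : ℂ := E2s τ 1 / t3 τ ^ 4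

/-- (T7) all the identities at a point -/
def StFun : Prop :=
  ∀ τ : ℂ, 0 < τ.im → t3 τ ≠ 0 ∧ tt τ ≠ 0 ∧
    rr τ ^ 2 - rr τ + 4 * tt τ = 0 ∧
    tt (2 * τ) * rr τ ^ 4 = tt τ ^ 2 ∧
    ep τ = 2 * rr τ ^ 2 * ep (2 * τ) - 1 + 8 * tt τ ∧
    e4 τ 1 = t3 τ ^ 8 * (1 - 16 * tt τ + 256 * tt τ ^ 2) ∧
    e6 τ 1 = t3 τ ^ 12 * ((1 + 16 * tt τ) * (1 - 8 * tt τ) * (1 - 32 * tt τ)) ∧
    (e4 τ 1 ≠ 0 →
      jv τ 1 * (1 - 16 * tt τ + 256 * tt τ ^ 2) ^ 3 = tt τ ^ 2 * (1 - 16 * tt τ) ^ 2) ∧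
    XX τ 1 * tt τ ^ 2 = 1 - 16 * tt τ

/-! ### group Q: expansions in `p = exp(πiτ)` -/

/-- `f` is given by the power series `g` in `p = exp(πiτ)` -/
def HasExp (f : ℂ → ℂ) (g : PowerSeries ℂ) : Prop :=
  ∀ τ : ℂ, 0 < τ.im →
    HasSum (fun n : ℕ => g.coeff n * Complex.exp (Real.pi * Complex.I * τ) ^ n) (f τ)

/-- (Q1) rules for expansions -/
def StExp : Prop :=
  (∀ f f' g g', HasExp f g → HasExp f' g' → HasExp (fun τ => f τ + f' τ) (g + g') ∧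
    HasExp (fun τ => f τ * f' τ) (g * g')) ∧
  (∀ (c : ℂ) f g, HasExp f g → HasExp (fun τ => c * f τ) (PowerSeries.C c * g)) ∧
  (∀ f g g', HasExp f g → HasExp f g' → g = g') ∧
  (∀ f g, HasExp f g → HasExp (fun τ => f (2 * τ)) (Vq g)) ∧
  (∀ f g, HasExp f g → ∀ f' : ℂ → ℂ, (∀ τ : ℂ, 0 < τ.im →
    HasDerivAt f (Real.pi * Complex.I * f' τ) τ) → HasExp f' (th g))

/-- `θ₃` as a power series in `p` -/
noncomputable def Th3 : PowerSeries ℤ := by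
  classical exact PowerSeries.mk fun n => if n = 0 then 1 else if IsSquare n then 2 else 0

/-- `θ₄` as a power series in `p` -/
noncomputable def Th4 : PowerSeries ℤ := by
  classical
  exact PowerSeries.mk fun n => if n = 0 then 1 else if IsSquare n then 2 * (-1) ^ n else 0

/-- `∑_{m ≥ 0} p ^ (m (m + 1))` -/
noncomputable def UU : PowerSeries ℤ := by
  classical exact PowerSeries.mk fun n => if ∃ m : ℕ, m * (m + 1) = n then 1 else 0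

/-- `θ₂⁴ / 16` as a power series in `p` -/
noncomputable def FF : PowerSeries ℤ := PowerSeries.X * UU ^ 4

/-- (Q2) the expansions of theta constants and Eisenstein series -/
def StExpT : Prop :=
  HasExp t3 (toC Th3) ∧ HasExp t4 (toC Th4) ∧ HasExp (fun τ => t2 τ ^ 4) (toC (16 * FF)) ∧
  (∀ j : ℕ, HasExp (tm j) (toC (th^[j] Th3))) ∧
  HasExp (fun τ => E2 (ofComplex τ)) (toC (Vq P2)) ∧
  HasExp (fun τ => E₄ (ofComplex τ)) (toC (Vq Q4))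

/-- (Q3) relations between the power series -/
def StRelT : Prop :=
  Th3 ^ 4 = Th4 ^ 4 + 16 * FF ∧ 2 * Vq Th3 ^ 2 = Th3 ^ 2 + Th4 ^ 2 ∧
  Vq FF * Vq Th3 ^ 4 = FF ^ 2 ∧ Vq Q4 = Th3 ^ 8 - 16 * FF * Th3 ^ 4 + 256 * FF ^ 2 ∧
  12 * th Th3 = Th3 * (Vq P2 - Th3 ^ 4 + 32 * FF) ∧
  2 * Vq (Vq P2) = Vq P2 + Th3 ^ 4 - 8 * FF ∧
  3 * th FF = FF * (Vq P2 + 2 * Th3 ^ 4 - 16 * FF)

/-! ### group R: the polynomials -/

open MvPolynomial in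
/-- The polynomials of the derivatives of `θ₃`; `X 0 = E₂ / θ₃⁴`, `X 1 = θ₂⁴ / (16 θ₃⁴)`. -/
noncomputable def RJ : ℕ → MvPolynomial (Fin 2) ℤ
  | 0 => 1
  | j + 1 => C (4 * (j : ℤ) + 1) * (X 0 - 1 + 32 * X 1) * RJ j +
      12 * X 1 * (1 - 16 * X 1) * pderiv 1 (RJ j) +
      (2 * (X 0 ^ 2 - 1 + 16 * X 1 - 256 * X 1 ^ 2) - 4 * X 0 * (X 0 - 1 + 32 * X 1)) *
        pderiv 0 (RJ j)

open MvPolynomial in
/-- (R1) the derivative with respect to the first variable -/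
def StRe : Prop := ∀ j : ℕ, pderiv 0 (RJ (j + 1)) =
  C (((j : ℤ) + 1) * (2 * j + 1)) * RJ j

/-- (R2) translation of the first variable -/
def StRh : Prop := ∀ (j : ℕ) (e h t : ℂ), MvPolynomial.aeval ![e + h, t] (RJ j) =
  ∑ k ∈ Finset.range (j + 1), ((2 * j).factorial : ℂ) /
    ((k.factorial : ℂ) * 2 ^ k * ((2 * j - 2 * k).factorial : ℂ)) * h ^ k *
      MvPolynomial.aeval ![e, t] (RJ (j - k))

/-- (R3) Hermite polynomials: derivative, and the explicit formula in even degree -/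
def StHP : Prop :=
  (∀ n : ℕ, Polynomial.derivative (HP (n + 1)) = (2 * (n + 1) : ℕ) • HP n) ∧
  ∀ (j : ℕ) (x : ℝ), Polynomial.aeval x (HP (2 * j)) = ∑ k ∈ Finset.range (j + 1),
    (-1) ^ k * ((2 * j).factorial : ℝ) / ((k.factorial : ℝ) * ((2 * j - 2 * k).factorial : ℝ)) *
      (4 * x ^ 2) ^ (j - k)

/-- (R4) the derivatives of `θ₃` in terms of the polynomials -/
def StDer : Prop := ∀ (j : ℕ) (τ : ℍ), 12 ^ j * tm j τ =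
  t3 τ ^ (4 * j + 1) * MvPolynomial.aeval ![E2 τ / t3 τ ^ 4, tt τ] (RJ j)

/-- (R5) the Hermite theta series in terms of the polynomials -/
def StHth : Prop := ∀ (j : ℕ) (τ : ℂ), 0 < τ.im → hth (2 * j) τ =
  (2 * Real.pi * τ.im / 3) ^ j * t3 τ ^ (4 * j + 1) * MvPolynomial.aeval ![ep τ, tt τ] (RJ j)

/-- (R6) universal approximation of `e 0` by a polynomial in `t 0` -/
def StUnivG : Prop := ∀ N : ℕ, ∃ G : Polynomial ℤ, ∀ (R : Type) (_ : CommRing R)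
  (t r e : ℕ → R), (∀ k < N, r k ^ 2 - r k + 4 * t k = 0 ∧ (∃ z, 1 - r k = 4 * z) ∧
    t (k + 1) * r k ^ 4 = t k ^ 2 ∧ e k = 2 * r k ^ 2 * e (k + 1) - 1 + 8 * t k) →
  ∃ z, e 0 = Polynomial.aeval (t 0) G + 2 ^ N * z

/-- (R7) power series satisfying the relations -/
def StQexp : Prop := ∃ t r e : PowerSeries ℤ, t.coeff 0 = 0 ∧ t.coeff 1 = 1 ∧
  r ^ 2 - r + 4 * t = 0 ∧ (∃ z, 1 - r = 4 * z) ∧ Vq t * r ^ 4 = t ^ 2 ∧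
  e = 2 * r ^ 2 * Vq e - 1 + 8 * t ∧
  ∀ j : ℕ, 1 ≤ j → ∃ z, MvPolynomial.aeval ![e, t] (RJ j) = 2 * 12 ^ j * (t + 2 * z)

/-- (R8) the universal congruence -/
def StUniv : Prop := ∀ j : ℕ, 1 ≤ j → ∀ (R : Type) (_ : CommRing R)
  (t r e : ℕ → R), (∀ k < 2 * j + 2, r k ^ 2 - r k + 4 * t k = 0 ∧ (∃ z, 1 - r k = 4 * z) ∧
    t (k + 1) * r k ^ 4 = t k ^ 2 ∧ e k = 2 * r k ^ 2 * e (k + 1) - 1 + 8 * t k) →
  ∃ z, MvPolynomial.aeval ![e 0, t 0] (RJ j) = 2 * 12 ^ j * t 0 + 2 ^ (2 * j + 2) * z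

/-! ### group M: the points with complex multiplication -/

/-- (M1) the sum of `1/j` over the classes -/
def StJsum : Prop :=
  ∀ (q : ℕ) (F : Type) (_ : Field F) (_ : NumberField F) (s : F) (σ : F →+* ℂ)
    (A : ValuationSubring ℂ), FieldC q F s → Above2 A →
  ∀ (rep : ClassGroup (𝓞 F) → (Ideal (𝓞 F))⁰) (w₁ w₂ : ClassGroup (𝓞 F) → ℂ),
      (∀ c, ClassGroup.mk0 (rep c) = c) → (∀ c, IsB σ (rep c : Ideal (𝓞 F)) (w₁ c) (w₂ c)) →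
      ∑ c, jv (w₁ c) (w₂ c) - 1 ∈ A.nonunits

/-- the conditions on `P`, `e`, `b`, `g`, `d` -/
structure Adm {F : Type} [Field F] [NumberField F] (q : ℕ) (s : 𝓞 F) (P : Ideal (𝓞 F))
    (e : ℕ) (b : ℤ) (g : 𝓞 F) (d : ℕ) : Prop where
  two : 2 * g = b + s
  dvd : (q : ℤ) ∣ b
  odd : Odd d
  cop : d.Coprime q
  div : (8 * 2 ^ e * (d : ℤ) ^ 2 : ℤ) ∣ b ^ 2 + q
  mem : g ∈ P ^ (e + 1)

/-- (M2) the lattices `P ^ (e - k) * (d, g) ^ 2` are ordinary -/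
def StCMP : Prop :=
  ∀ (q : ℕ) (F : Type) (_ : Field F) (_ : NumberField F) (s : 𝓞 F) (σ : F →+* ℂ)
    (A : ValuationSubring ℂ), FieldC q F (s : F) → 0 < (σ s).im → Above2 A →
    ∃ P : Ideal (𝓞 F), P.IsPrime ∧ Ideal.absNorm P = 2 ∧
      ∀ (e : ℕ) (b : ℤ) (g : 𝓞 F) (d : ℕ), Adm q s P e b g d →
        (∀ k < e, Ord A (σ g) (2 ^ (e - k) * (d : ℂ) ^ 2) ∧
          XX (σ g) (2 ^ (e - k) * (d : ℂ) ^ 2) ∈ A ∧
          (XX (σ g) (2 ^ (e - k) * (d : ℂ) ^ 2))⁻¹ ∈ A ∧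
          E2s (σ g) (2 ^ (e - k) * (d : ℂ) ^ 2) * e6 (σ g) (2 ^ (e - k) * (d : ℂ) ^ 2) /
            e4 (σ g) (2 ^ (e - k) * (d : ℂ) ^ 2) ^ 2 ∈ A) ∧
        (1 ≤ e → e4 (σ g) (2 ^ e * (d : ℂ) ^ 2) / e4 (σ g) (2 ^ e) - 1 ∈ A.nonunits)

/-- (M3) the sum of `1/j` over the lattices `P ^ e * (d, g) ^ 2` -/
def StJs2 : Prop :=
  ∀ (q : ℕ) (F : Type) (_ : Field F) (_ : NumberField F) (s : 𝓞 F) (σ : F →+* ℂ)
    (A : ValuationSubring ℂ), FieldC q F (s : F) → 0 < (σ s).im → Above2 A →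
    ∀ (P : Ideal (𝓞 F)) (e : ℕ) (b : ℤ) (g : 𝓞 F) (d : ClassGroup (𝓞 F) → ℕ), P.IsPrime →
      Ideal.absNorm P = 2 → Sys q s b g d → (∀ C, Adm q s P e b g (d C)) →
      ∑ C, jv (σ g) (2 ^ e * (d C : ℂ) ^ 2) - 1 ∈ A.nonunits

/-- (M4) the values at the points of a chain -/
def StPt : Prop :=
  ∀ (A : ValuationSubring ℂ) (j e : ℕ) (τ : ℂ), Above2 A → 0 < τ.im → 2 * j + 3 ≤ e →
    (∀ k < e, Ord A (2 ^ k * τ) 1 ∧ XX (2 ^ k * τ) 1 ∈ A ∧ (XX (2 ^ k * τ) 1)⁻¹ ∈ A ∧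
      E2s (2 ^ k * τ) 1 * e6 (2 ^ k * τ) 1 / e4 (2 ^ k * τ) 1 ^ 2 ∈ A) →
    tt τ ∈ A ∧ tt τ ^ 2 - jv τ 1 ∈ A.nonunits ∧ e4 τ 1 / t3 τ ^ 8 - 1 ∈ A.nonunits ∧
    (1 ≤ j → MvPolynomial.aeval ![ep τ, tt τ] (RJ j) / (2 * 12 ^ j) - tt τ ∈ A.nonunits)

/-! ### group F: characters, conclusion -/

/-- (F1) for every canonical character there is a valuation ring above 2 such that the character
is trivial modulo the maximal ideal -/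
def StEx : Prop :=
  ∀ (q : ℕ) (F : Type) (_ : Field F) (_ : NumberField F) (s : 𝓞 F) (σ : F →+* ℂ)
    (ψ : Ideal (𝓞 F) →*₀ ℂ), FieldC q F (s : F) → IsCan q s σ 1 ψ →
    ∃ A : ValuationSubring ℂ, Above2 A ∧ Res1 A s ψ

end Pool.Agent.Lib.MP_7c08ba_nt.CN
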