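import Mathlib
import Pool.Agent.Lib.MP_7c08ba_nt.CN.StP
import Pool.Agent.Lib.MP_7c08ba_nt.RZ.C.Basis
import Pool.Agent.Lib.MP_7c08ba_nt.Tw.Primes

set_option autoImplicit false

/-!
Project CN, module N2: the ideals `(M, g)`, `g = (b + s) / 2`.
-/

namespace Pool.Agent.Lib.MP_7c08ba_nt.CN

open NumberField IsDedekindDomain RZC Module
open scoped nonZeroDivisors

namespace IdlAux

variable {q : ℕ} {F : Type} [Field F] [NumberField F] {s : 𝓞 F} {b n : ℤ} {g : 𝓞 F}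

/-- the equation of `g` -/
theorem sq_g (h : FieldC q F (s : F)) (hg : 2 * g = b + s) (hn : 4 * n = b ^ 2 + q) :
    g ^ 2 = b * g - n := by
  obtain ⟨-, -, -, hs⟩ := h
  have hs' : s ^ 2 = -(q : 𝓞 F) := by
    apply RingOfIntegers.ext
    change algebraMap (𝓞 F) F (s ^ 2) = algebraMap (𝓞 F) F (-(q : 𝓞 F))
    rw [map_pow, map_neg, map_natCast]
    exact hs
  have hn' : (4 : 𝓞 F) * n = b ^ 2 + q := by exact_mod_cast congrArg (Int.cast : ℤ → 𝓞 F) hn
  have h4 : (4 : 𝓞 F) ≠ 0 := by norm_num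
  apply mul_left_cancel₀ h4
  linear_combination (2 * g - b + s) * hg + hs' + hn'

theorem odd_b (h : FieldC q F (s : F)) (hn : 4 * n = b ^ 2 + q) : Odd b := by
  obtain ⟨-, h16, -, -⟩ := h
  by_contra hb
  rw [Int.not_odd_iff_even] at hb
  obtain ⟨c, rfl⟩ := hb
  have h1 : 4 * n = 4 * c ^ 2 + q := by rw [hn]; ring
  omega

/-- the integral basis `1, g` -/
theorem exists_basis (h : FieldC q F (s : F)) (hg : 2 * g = b + s) (hn : 4 * n = b ^ 2 + q) :
    ∃ B : Basis (Fin 2) ℤ (𝓞 F), B 0 = 1 ∧ B 1 = g := by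
  obtain ⟨θ, hθ⟩ := BasisAux.exists_theta h
  obtain ⟨B, hB0, hB1⟩ := BasisAux.exists_intBasis h hθ
  obtain ⟨c, hc⟩ := odd_b h hn
  have hθg : θ = g - c := by
    have h1 : (2 : 𝓞 F) * θ = 1 + s := by
      apply RingOfIntegers.ext
      change algebraMap (𝓞 F) F (2 * θ) = algebraMap (𝓞 F) F (1 + s)
      rw [map_mul, map_add, map_one, map_ofNat]
      exact hθ
    have hc' : (b : 𝓞 F) = 2 * c + 1 := by exact_mod_cast congrArg (Int.cast : ℤ → 𝓞 F) hc
    have h2 : (2 : 𝓞 F) ≠ 0 := two_ne_zero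
    apply mul_left_cancel₀ h2
    linear_combination h1 - hg - hc'
  have hrep : ∀ x : 𝓞 F, x = (B.repr x 0 : 𝓞 F) + (B.repr x 1 : 𝓞 F) * θ := by
    intro x
    conv_lhs => rw [← B.sum_repr x]
    rw [Fin.sum_univ_two, hB0, hB1, zsmul_eq_mul, zsmul_eq_mul, mul_one]
  have hli : LinearIndependent ℤ ![(1 : 𝓞 F), g] := by
    rw [LinearIndependent.pair_iff]
    intro u v huv
    have h1 : (u + v * c : ℤ) • B 0 + v • B 1 = 0 := by
      rw [hB0, hB1, hθg]
      rw [zsmul_eq_mul, zsmul_eq_mul] at huv ⊢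
      push_cast
      linear_combination huv
    have h2 := B.linearIndependent
    rw [Fintype.linearIndependent_iff] at h2
    have h3 := h2 ![u + v * c, v] (by
      rw [Fin.sum_univ_two]
      exact h1)
    have h4 : v = 0 := h3 1
    have h5 : u + v * c = 0 := h3 0
    rw [h4, zero_mul, add_zero] at h5
    exact ⟨h5, h4⟩
  have hsp : ⊤ ≤ Submodule.span ℤ (Set.range ![(1 : 𝓞 F), g]) := by
    intro x _
    rw [Matrix.range_cons_cons_empty, Submodule.mem_span_pair]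
    refine ⟨B.repr x 0 - B.repr x 1 * c, B.repr x 1, ?_⟩
    rw [zsmul_eq_mul, zsmul_eq_mul]
    conv_rhs => rw [hrep x]
    rw [hθg]
    push_cast
    ring
  refine ⟨Basis.mk hli hsp, ?_, ?_⟩
  · simp
  · simp

omit [NumberField F] in
theorem mem_idl (hsq : g ^ 2 = b * g - n) (hrep : ∀ x : 𝓞 F, ∃ u v : ℤ, x = u + v * g) {M : ℕ}
    (hM : (M : ℤ) ∣ n) (z : 𝓞 F) : z ∈ idl g M ↔ ∃ u v : ℤ, z = u * M + v * g := by
  obtain ⟨c, rfl⟩ := hM
  rw [Ideal.mem_span_pair]
  constructor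
  · rintro ⟨x, y, rfl⟩
    obtain ⟨x₁, x₂, rfl⟩ := hrep x
    obtain ⟨y₁, y₂, rfl⟩ := hrep y
    refine ⟨x₁ - y₂ * c, x₂ * M + y₁ + y₂ * b, ?_⟩
    push_cast at hsq ⊢
    linear_combination (y₂ : 𝓞 F) * hsq
  · rintro ⟨u, v, rfl⟩
    exact ⟨u, v, rfl⟩

theorem absNorm_idl (B : Basis (Fin 2) ℤ (𝓞 F)) (hB0 : B 0 = 1) (hB1 : B 1 = g) {M : ℕ}
    (hM0 : 0 < M) (hmem : ∀ z : 𝓞 F, z ∈ idl g M ↔ ∃ u v : ℤ, z = u * M + v * g)
    (huv : ∀ u v : ℤ, (u : 𝓞 F) + v * g = 0 → u = 0 ∧ v = 0) :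
    Ideal.absNorm (idl g M) = M := by
  have h1 : (M : 𝓞 F) ∈ idl g M := Ideal.subset_span (Set.mem_insert _ _)
  have h2 : g ∈ idl g M := Ideal.subset_span (Set.mem_insert_of_mem _ rfl)
  have hli : LinearIndependent ℤ ![(⟨(M : 𝓞 F), h1⟩ : idl g M), ⟨g, h2⟩] := by
    rw [LinearIndependent.pair_iff]
    intro u v h
    have h3 := congrArg (Subtype.val : idl g M → 𝓞 F) h
    have h4 : ((u * M : ℤ) : 𝓞 F) + v * g = 0 := by
      push_cast
      simpa [zsmul_eq_mul] using h3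
    obtain ⟨h5, h6⟩ := huv _ _ h4
    refine ⟨?_, h6⟩
    rcases mul_eq_zero.1 h5 with h7 | h7
    · exact h7
    · omega
  have hsp : ⊤ ≤ Submodule.span ℤ (Set.range ![(⟨(M : 𝓞 F), h1⟩ : idl g M), ⟨g, h2⟩]) := by
    rintro ⟨x, hx⟩ -
    rw [Matrix.range_cons_cons_empty, Submodule.mem_span_pair]
    obtain ⟨u, v, h3⟩ := (hmem x).1 hx
    refine ⟨u, v, ?_⟩
    apply Subtype.ext
    refine Eq.trans ?_ h3.symm
    simp [zsmul_eq_mul]
  have h3 := Ideal.natAbs_det_basis_change B (idl g M) (Basis.mk hli hsp)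
  rw [← h3, Basis.det_apply, Matrix.det_fin_two]
  simp only [Basis.toMatrix_apply, Function.comp_apply, Basis.mk_apply, Matrix.cons_val_zero,
    Matrix.cons_val_one]
  have e1 : (M : 𝓞 F) = (M : ℤ) • B 0 := by rw [hB0, zsmul_eq_mul, mul_one, Int.cast_natCast]
  have e2 : B.repr (M : 𝓞 F) 0 = M := by
    rw [e1, map_smul, B.repr_self, Finsupp.smul_apply, Finsupp.single_eq_same, smul_eq_mul,
      mul_one]
  have e3 : B.repr g 0 = 0 := by
    rw [← hB1, B.repr_self, Finsupp.single_eq_of_ne (by decide)]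
  have e4 : B.repr g 1 = 1 := by
    rw [← hB1, B.repr_self, Finsupp.single_eq_same]
  rw [e2, e3, e4, zero_mul, sub_zero, mul_one, Int.natAbs_natCast]

end IdlAux

open IdlAux in
/-- (N2) -/
theorem stIdl : StIdl := by
  intro q F _ _ s b n g h hg hn
  obtain ⟨B, hB0, hB1⟩ := IdlAux.exists_basis h hg hn
  have hsq := sq_g h hg hn
  have hrep : ∀ x : 𝓞 F, ∃ u v : ℤ, x = u + v * g := by
    intro x
    refine ⟨B.repr x 0, B.repr x 1, ?_⟩
    conv_lhs => rw [← B.sum_repr x]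
    rw [Fin.sum_univ_two, hB0, hB1, zsmul_eq_mul, zsmul_eq_mul, mul_one]
  have huv : ∀ u v : ℤ, (u : 𝓞 F) + v * g = 0 → u = 0 ∧ v = 0 := by
    intro u v huv
    have h2 := B.linearIndependent
    rw [Fintype.linearIndependent_iff] at h2
    have h3 := h2 ![u, v] (by
      rw [Fin.sum_univ_two, hB0, hB1, zsmul_eq_mul, zsmul_eq_mul, mul_one]
      exact huv)
    exact ⟨h3 0, h3 1⟩
  have hidl : ∀ M : ℕ, 0 < M → (M : ℤ) ∣ n →
      (∀ z : 𝓞 F, z ∈ idl g M ↔ ∃ u v : ℤ, z = u * M + v * g) ∧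
      Ideal.absNorm (idl g M) = M := by
    intro M hM hMn
    have h1 := mem_idl hsq hrep hMn
    exact ⟨h1, absNorm_idl B hB0 hB1 hM h1 huv⟩
  refine ⟨hsq, odd_b h hn, hrep, huv, hidl, ?_, ?_⟩
  · intro M N hM hN hMN hcop
    obtain ⟨c, hc⟩ := hMN
    have hc' : (n : 𝓞 F) = M * N * c := by
      have := congrArg (Int.cast : ℤ → 𝓞 F) hc
      push_cast at this
      exact this
    rw [Ideal.span_pair_mul_span_pair]
    apply le_antisymm
    · rw [Ideal.span_le]
      have h1 : ((M * N : ℕ) : 𝓞 F) ∈ idl g (M * N) := Ideal.subset_span (Set.mem_insert _ _)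
      have h2 : g ∈ idl g (M * N) := Ideal.subset_span (Set.mem_insert_of_mem _ rfl)
      rintro x (rfl | rfl | rfl | rfl)
      · push_cast at h1
        exact h1
      · exact Ideal.mul_mem_left _ _ h2
      · exact Ideal.mul_mem_right _ _ h2
      · exact Ideal.mul_mem_left _ _ h2
    · rw [Ideal.span_le]
      have h1 : (M : 𝓞 F) * N ∈ Ideal.span {(M : 𝓞 F) * N, M * g, g * N, g * g} :=
        Ideal.subset_span (by simp)
      have h2 : (M : 𝓞 F) * g ∈ Ideal.span {(M : 𝓞 F) * N, M * g, g * N, g * g} :=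
        Ideal.subset_span (by simp)
      have h3 : g * g ∈ Ideal.span {(M : 𝓞 F) * N, M * g, g * N, g * g} :=
        Ideal.subset_span (by simp)
      rintro x (rfl | hx)
      · push_cast
        exact h1
      · rw [Set.mem_singleton_iff.1 hx]
        obtain ⟨u, v, huv'⟩ := hcop
        have e : (u : 𝓞 F) * M + v * b = 1 := by exact_mod_cast congrArg (Int.cast : ℤ → 𝓞 F) huv'
        have e2 : g = u * ((M : 𝓞 F) * g) + v * (g * g) + v * c * ((M : 𝓞 F) * N) := by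
          linear_combination (-g) * e - (v : 𝓞 F) * hsq + (v : 𝓞 F) * hc'
        have h4 : u * ((M : 𝓞 F) * g) + v * (g * g) + v * c * ((M : 𝓞 F) * N) ∈
            Ideal.span {(M : 𝓞 F) * N, M * g, g * N, g * g} :=
          Ideal.add_mem _ (Ideal.add_mem _ (Ideal.mul_mem_left _ _ h2)
            (Ideal.mul_mem_left _ _ h3)) (Ideal.mul_mem_left _ _ h1)
        rw [← e2] at h4
        exact h4
  · intro P hP hP2 k hk
    have h0 := h
    obtain ⟨hq, h16, hF, hs⟩ := h0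
    have hnorm : Algebra.norm ℤ g = n := by
      have h1 := four_norm hq.pos hF hs (z := g) (A := b) (B := 1) (by
        have h3 := congrArg (algebraMap (𝓞 F) F) hg
        rw [map_mul, map_add, map_ofNat, map_intCast] at h3
        rw [Int.cast_one, one_mul]
        exact h3)
      have h2 : 4 * Algebra.norm ℤ g = 4 * n := by rw [h1, hn]; ring
      omega
    have hdvd : ((2 ^ k : ℕ) : ℤ) ∣ n := by
      have h1 : Ideal.absNorm (P ^ k) ∣ Ideal.absNorm (Ideal.span {g}) :=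
        Ideal.absNorm_dvd_absNorm_of_le ((Ideal.span_singleton_le_iff_mem _).2 hk)
      rw [map_pow, hP2, Ideal.absNorm_span_singleton, hnorm] at h1
      exact Int.natCast_dvd.2 h1
    refine ⟨hdvd, ?_⟩
    have h2 : (2 : 𝓞 F) ∈ P := by
      have := Ideal.absNorm_mem P
      rw [hP2] at this
      exact_mod_cast this
    have hle : idl g (2 ^ k) ≤ P ^ k := by
      rw [Ideal.span_le]
      rintro x (rfl | rfl)
      · push_cast
        exact Ideal.pow_mem_pow h2 k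
      · exact hk
    obtain ⟨K, hK⟩ := Ideal.dvd_iff_le.2 hle
    have h3 := (hidl (2 ^ k) (by positivity) hdvd).2
    rw [hK, map_mul, map_pow, hP2] at h3
    have h4 : Ideal.absNorm K = 1 := by
      have h5 : 0 < 2 ^ k := by positivity
      exact Nat.eq_of_mul_eq_mul_left h5 (by rw [h3, mul_one])
    rw [Ideal.absNorm_eq_one_iff] at h4
    rw [hK, h4, Ideal.mul_top]

end Pool.Agent.Lib.MP_7c08ba_nt.CN
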