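import Pool.Agent.Lib.MP_7c08ba_nt.CN.StP
import Pool.Agent.Lib.MP_7c08ba_nt.RZ.C.Sum

set_option autoImplicit false

/-! (M1) the sum of `1/j` over the classes. -/

namespace Pool.Agent.Lib.MP_7c08ba_nt.CN

open NumberField IsDedekindDomain UpperHalfPlane ModularForm EisensteinSeries RZC
open scoped nonZeroDivisors ComplexConjugate MatrixGroups

open RZC.SumAux in
theorem stJsum (h1 : StClass) (h3 : StUnit) (h4 : StRep) (h5 : StChain)
    (h6 : StOrdC) (h8 : StLat) : StJsum := by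
  intro q F _ _ s σ A hF hA rep w₁ w₂ hrep hw
  -- the prime above 2 and the chains
  obtain ⟨P, hP, hPn, hPu⟩ := h3 q F s hF σ A hA
  have hP0 : P ≠ ⊥ := by
    rintro rfl
    simp at hPn
  set m : ℕ := Fintype.card (ClassGroup (𝓞 F)) with hm
  have hmodd : Odd m := h1 q F s hF
  have hm0 : 0 < m := hmodd.pos
  have hPz : P ∈ (Ideal (𝓞 F))⁰ := mem_nonZeroDivisors_of_ne_zero hP0
  obtain ⟨x, hx⟩ : ∃ x : 𝓞 F, P ^ m = Ideal.span {x} := by
    have h : ClassGroup.mk0 (⟨P ^ m, pow_mem hPz m⟩ : (Ideal (𝓞 F))⁰) = 1 := by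
      have h' : (⟨P ^ m, pow_mem hPz m⟩ : (Ideal (𝓞 F))⁰) = ⟨P, hPz⟩ ^ m := rfl
      rw [h', map_pow, hm]
      exact pow_card_eq_one
    obtain ⟨x, hx⟩ := (ClassGroup.mk0_eq_one_iff _).mp h
    exact ⟨x, hx⟩
  have hU : UnitC A m (σ (x : F)) := hPu m x hmodd hx
  -- the values at an ideal
  have hval : ∀ a : Ideal (𝓞 F), a ≠ ⊥ → ∃ u v : ℕ → ℂ, Chain m (σ (x : F)) u v ∧
      ∀ i ≤ m, IsB σ (P ^ (m - i) * a) (u i) (v i) := h5 q F s hF σ P hP hPn m x hm0 hx
  choose a ha hodd using h4 q F s hF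
  choose u v hc hb using fun c => hval (a c : Ideal (𝓞 F)) (ne_bot_coe (a c))
  have hBm : ∀ c, IsB σ (a c : Ideal (𝓞 F)) (u c m) (v c m) := by
    intro c
    have := hb c m le_rfl
    rwa [Nat.sub_self, pow_zero, one_mul] at this
  -- change of representatives
  have hsum : ∑ c, jv (w₁ c) (w₂ c) = ∑ c, jv (u c m) (v c m) :=
    Finset.sum_congr rfl fun c _ => jv_class h8 ((hrep c).trans (ha c).symm) (hw c) (hBm c)
  rw [hsum]
  -- the values on the chains
  have hch : ∀ c, ∀ i < m, jv (u c (i + 1)) (v c (i + 1)) =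
      jv (u (ClassGroup.mk0 ⟨P, hPz⟩ ^ (m - (i + 1)) * c) m)
        (v (ClassGroup.mk0 ⟨P, hPz⟩ ^ (m - (i + 1)) * c) m) := by
    intro c i hi
    have hB := hb c (i + 1) hi
    have hcl : ClassGroup.mk0 ((⟨P, hPz⟩ : (Ideal (𝓞 F))⁰) ^ (m - (i + 1)) * a c) =
        ClassGroup.mk0 (a (ClassGroup.mk0 ⟨P, hPz⟩ ^ (m - (i + 1)) * c)) := by
      rw [ha, map_mul, map_pow, ha]
    exact jv_class h8 hcl hB (hBm _)
  have hchain : ∀ c, (∑ i ∈ Finset.range m, jv (u c (i + 1)) (v c (i + 1))) - 1 ∈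
      A.nonunits := fun c => (h6 A hA m _ (u c) (v c) hm0 (hc c) hU).2
  have h9 := sum_nonunits Finset.univ _ fun c (_ : c ∈ Finset.univ) => hchain c
  have h10 : ∑ c, ((∑ i ∈ Finset.range m, jv (u c (i + 1)) (v c (i + 1))) - 1) =
      (m : ℂ) * (∑ c, jv (u c m) (v c m) - 1) := by
    rw [Finset.sum_sub_distrib, Finset.sum_comm]
    have h11 : ∀ i ∈ Finset.range m, ∑ c, jv (u c (i + 1)) (v c (i + 1)) =
        ∑ c, jv (u c m) (v c m) := by
      intro i hi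
      rw [Finset.sum_congr rfl fun c _ => hch c i (Finset.mem_range.mp hi)]
      exact Fintype.sum_equiv (Equiv.mulLeft (ClassGroup.mk0 ⟨P, hPz⟩ ^ (m - (i + 1)))) _ _
        fun c => rfl
    rw [Finset.sum_congr rfl h11, Finset.sum_const, Finset.sum_const, Finset.card_range,
      Finset.card_univ, ← hm]
    simp only [nsmul_eq_mul]
    ring
  rw [h10] at h9
  have h12 : (m : ℂ) - 1 ∈ A.nonunits := by
    have := odd_sub_one hA (n := (m : ℤ)) (by exact_mod_cast hmodd)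
    simpa using this
  obtain ⟨-, -, h13, h14⟩ := unit_of_sub_one h12
  exact nonunits_of_mul_unit h14 h13 h9

end Pool.Agent.Lib.MP_7c08ba_nt.CN
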