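import Mathlib
import Pool.Agent.Lib.MP_7c08ba_nt.CN.Defs

set_option autoImplicit false

/-!
Project CN, even `k` (odd `n = k - 1`): central values of `L(φ, k)` for characters
`φ((t)) = (a/q) (-1/N t) t ^ (2k - 1)` of `ℚ(√-q)`, `q ≡ 7 (mod 16)` prime.  Definitions and the
statements which connect the analytic part and the `2`-adic part.  Plan: team store
`cn_even_plan.md`.
-/

namespace Pool.Agent.Lib.MP_7c08ba_nt.CN

open NumberField IsDedekindDomain Polynomial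
open scoped nonZeroDivisors ComplexConjugate

/-- The character modulo 4. -/
noncomputable def c4 (m : ℤ) : ℂ := ((ZMod.χ₄ (m : ZMod 4) : ℤ) : ℂ)

/-- The theta series with the character modulo 4 and the Hermite polynomial of degree `n`
(weight `n + 1 / 2`). -/
noncomputable def hthO (n : ℕ) (τ : ℂ) : ℂ :=
  ∑' m : ℤ, c4 m * ((aeval (Real.sqrt (2 * Real.pi * τ.im) * m / 2) (HP n) : ℝ) : ℂ) *
    Complex.exp (Real.pi * Complex.I * m ^ 2 * τ / 4)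

/-- The theta series of weight `3 / 2`. -/
noncomputable def yO (τ : ℂ) : ℂ :=
  ∑' m : ℤ, c4 m * m * Complex.exp (Real.pi * Complex.I * m ^ 2 * τ / 4)

section

variable {F : Type} [Field F] [NumberField F]

/-- Hecke characters of type `(m, 0)`, `m` odd, with value `(a/q) (-1/N t) σ(t)^m` at `(t)` for
`t ≡ a (mod s)`, `s = √-q` (and `0` if `t` is not prime to `2s`). -/
def IsCanO (q : ℕ) (s : 𝓞 F) (σ : F →+* ℂ) (m : ℕ) (φ : Ideal (𝓞 F) →*₀ ℂ) : Prop :=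
  ∀ (t : 𝓞 F) (a : ℤ), t ≠ 0 → s ∣ t - a →
    φ (Ideal.span {t}) = (jacobiSym a q : ℂ) * c4 (Ideal.absNorm (Ideal.span {t})) * σ t ^ m

/-- The ideals of the system are squares. -/
def Sqr (g : 𝓞 F) (d : ClassGroup (𝓞 F) → ℕ) : Prop :=
  ∀ A, ∃ e : ℕ, d A = e ^ 2 ∧ idl g (d A) = idl g e ^ 2

/-- The sum over the classes; the points are `σ g / (K d²)`. -/
noncomputable def SumO (σ : F →+* ℂ) (n K : ℕ) (g : 𝓞 F) (d : ClassGroup (𝓞 F) → ℕ)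
    (φ : Ideal (𝓞 F) →*₀ ℂ) : ℂ :=
  ∑ A : ClassGroup (𝓞 F), φ (idl g (d A)) * ((d A : ℂ) ^ (n + 1))⁻¹ *
    hthO n (σ g / (K * (d A : ℂ) ^ 2))

end

/-- (AnO) the analytic part: the `L`-function and the factorisation of the central value,
`k = n + 1`. -/
def StAnO : Prop :=
  ∀ (q : ℕ) (_ : NeZero q) (F : Type) (_ : Field F) (_ : NumberField F) (s : 𝓞 F)
    (σ : F →+* ℂ) (χ : DirichletCharacter ℂ q) (cj : 𝓞 F ≃+* 𝓞 F) (n : ℕ)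
    (φ : Ideal (𝓞 F) →*₀ ℂ), RZ.Dat q s σ χ cj → IsCanO q s σ (2 * n + 1) φ →
    ∀ (e : ℕ) (b : ℤ) (g : 𝓞 F) (d d' : ClassGroup (𝓞 F) → ℕ), 1 ≤ e → Sys q s b g d →
      Sys q s b g d' → Sqr g d → Sqr g d' →
      (∀ A B, (d A).Coprime (d' B) ∧
        (8 * 2 ^ e * ((d A : ℤ) * d' B) ^ 2 : ℤ) ∣ b ^ 2 + q) →
      ∃ Λ : ℂ → ℂ, IsLF φ (n + 1) Λ ∧ ∃ c : ℂ, c ≠ 0 ∧
        Λ 0 = c * conj (SumO σ n (2 ^ e) g d φ) * SumO σ n (2 ^ e) g d' φ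

/-- (SysO) existence of representatives which are squares -/
def StSysO : Prop :=
  ∀ (q : ℕ) (F : Type) (_ : Field F) (_ : NumberField F) (s : 𝓞 F), RZC.FieldC q F (s : F) →
    ∀ e : ℕ, ∃ (b : ℤ) (g : 𝓞 F) (d d' : ClassGroup (𝓞 F) → ℕ), Sys q s b g d ∧
      Sys q s b g d' ∧ Sqr g d ∧ Sqr g d' ∧
      (∀ A B, (d A).Coprime (d' B) ∧
        (8 * 2 ^ e * ((d A : ℤ) * d' B) ^ 2 : ℤ) ∣ b ^ 2 + q)

/-- (PaO) the `2`-adic part: the sums are not zero -/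
def StPaO : Prop :=
  ∀ (q : ℕ) (F : Type) (_ : Field F) (_ : NumberField F) (s : 𝓞 F) (σ : F →+* ℂ)
    (A : ValuationSubring ℂ) (r : ℕ) (φ : Ideal (𝓞 F) →*₀ ℂ), RZC.FieldC q F (s : F) →
    0 < (σ s).im → RZC.Above2 A → Res1 A s φ →
    ∀ (e : ℕ) (b : ℤ) (g : 𝓞 F) (d : ClassGroup (𝓞 F) → ℕ), Sys q s b g d →
      (∀ C, (8 * 2 ^ e * (d C : ℤ) ^ 2 : ℤ) ∣ b ^ 2 + q) →
      SumO σ (2 * r + 1) (2 ^ e) g d φ ≠ 0

/-- (NVO) the central values are not zero: `k = 2 * r + 2` -/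
def StNVO : Prop :=
  ∀ (q : ℕ) (F : Type) (_ : Field F) (_ : NumberField F) (s : 𝓞 F) (σ : F →+* ℂ)
    (A : ValuationSubring ℂ) (r : ℕ) (φ : Ideal (𝓞 F) →*₀ ℂ), RZC.FieldC q F (s : F) →
    RZC.Above2 A → IsCanO q s σ (2 * (2 * r + 1) + 1) φ → Res1 A s φ →
    ∃ Λ : ℂ → ℂ, IsLF φ (2 * r + 2) Λ ∧ Λ 0 ≠ 0

end Pool.Agent.Lib.MP_7c08ba_nt.CN
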