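import Mathlib
import Pool.Agent.Lib.MP_7c08ba_nt.CN.DefsO
import Pool.Agent.Lib.MP_7c08ba_nt.CN.StAn

set_option autoImplicit false

/-!
Project CN, even `k`, analytic part: statements of the modules.  One module = one file
`CN/O<Name>.lean` proving `theorem st<Name>O : St<Name>O`, with earlier statements as hypotheses.
-/

namespace Pool.Agent.Lib.MP_7c08ba_nt.CN

open NumberField IsDedekindDomain MeasureTheory Polynomial Pool.Agent.Lib.MP_7c08ba_nt.RZ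
open scoped nonZeroDivisors ComplexConjugate

/-- (FacO) the product of two theta series -/
def StFacO : Prop :=
  ∀ (n q K d₁ d₂ : ℕ) (b ω : ℤ), 0 < q → 0 < K → Odd d₁ → Odd d₂ → (2 * d₁ : ℤ) ∣ ω - 1 →
    (2 * d₂ : ℤ) ∣ ω + 1 →
    hthO n (pt q K d₁ b) * conj (hthO n (pt q K d₂ b)) =
      c4 (d₁ * d₂) * (Real.sqrt K * 2 ^ n * n.factorial / Real.sqrt (Real.sqrt q)) *
        ∑' p : ℤ × ℤ, (-1 : ℂ) ^ (p.1 + p.2) * (lag n (4 * Real.pi * Qz q K (d₁ * d₂) b p *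
          (1 / (2 * (d₁ * d₂ : ℕ) * Real.sqrt q) : ℝ)) *
        ee (Complex.I * Qz q K (d₁ * d₂) b p * (1 / (2 * (d₁ * d₂ : ℕ) * Real.sqrt q) : ℝ)) *
        ee ((p.1 * ω * p.2 : ℤ) / (2 * (d₁ * d₂ : ℕ))))

/-- (CjO) the character and the conjugation -/
def StCjO : Prop :=
  ∀ (q : ℕ) (F : Type) (_ : Field F) (_ : NumberField F) (s : 𝓞 F) (σ : F →+* ℂ)
    (χ : DirichletCharacter ℂ q) (cj : 𝓞 F ≃+* 𝓞 F) (n : ℕ) (φ : Ideal (𝓞 F) →*₀ ℂ),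
    Dat q s σ χ cj → IsCanO q s σ (2 * n + 1) φ →
    (∀ a : Ideal (𝓞 F), φ (a.map (cj : 𝓞 F →+* 𝓞 F)) = conj (φ a)) ∧
    (∀ a : Ideal (𝓞 F), IsCoprime a (Ideal.span {s}) → Odd (Ideal.absNorm a) →
      ‖φ a‖ ^ 2 = (Ideal.absNorm a : ℝ) ^ (2 * n + 1)) ∧
    (∀ a : Ideal (𝓞 F), ¬ IsCoprime a (Ideal.span {s}) → φ a = 0) ∧
    (∀ a : Ideal (𝓞 F), ¬ Odd (Ideal.absNorm a) → φ a = 0)

/-- The terms of the central value, `u = X / (q Y)`. -/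
noncomputable def GO {F : Type} [Field F] [NumberField F] (q : ℕ) (σ : F →+* ℂ) (n : ℕ)
    (φ : Ideal (𝓞 F) →*₀ ℂ) (a b : Ideal (𝓞 F)) (X Y : 𝓞 F) : ℂ :=
  (φ a)⁻¹ * φ (Ideal.span {Y}) * ((σ X / (q * σ Y)).im : ℂ) ^ (2 * n + 1) *
    conj (2 * 4 ^ n * thl σ b n (4 * (σ X / (q * σ Y))) - thl σ b n (σ X / (q * σ Y) + 1 / 2))

/-- (InvO) for squares of ideals the terms depend on the classes only -/
def StInvO : Prop :=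
  ∀ (q : ℕ) (F : Type) (_ : Field F) (_ : NumberField F) (s : 𝓞 F) (σ : F →+* ℂ)
    (χ : DirichletCharacter ℂ q) (cj : 𝓞 F ≃+* 𝓞 F) (n : ℕ) (φ : Ideal (𝓞 F) →*₀ ℂ)
    (a a' c c' b b' : Ideal (𝓞 F)) (X X' : 𝓞 F) (α α' : ℤ) (β β' : ℕ), Dat q s σ χ cj →
    IsCanO q s σ (2 * n + 1) φ → OBasis σ a X (β : 𝓞 F) → OBasis σ a' X' (β' : 𝓞 F) →
    2 * X = α + s → 2 * X' = α' + s → (q : ℤ) ∣ α → (q : ℤ) ∣ α' → Odd β → Odd β' →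
    β.Coprime q → β'.Coprime q → a = c ^ 2 → a' = c' ^ 2 → b ≠ ⊥ → b' ≠ ⊥ →
    (∃ t t' : 𝓞 F, t ≠ 0 ∧ t' ≠ 0 ∧ Ideal.span {t} * a = Ideal.span {t'} * a') →
    (∃ t t' : 𝓞 F, t ≠ 0 ∧ t' ≠ 0 ∧ Ideal.span {t} * b = Ideal.span {t'} * b') →
    GO q σ n φ a b X β = GO q σ n φ a' b' X' β'

/-- (PairO) the terms for the ideals attached to a pair -/
def StPairO : Prop :=
  ∀ (q : ℕ) (F : Type) (_ : Field F) (_ : NumberField F) (s : 𝓞 F) (σ : F →+* ℂ)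
    (χ : DirichletCharacter ℂ q) (cj : 𝓞 F ≃+* 𝓞 F) (n e d₁ d₂ : ℕ) (b a ω : ℤ) (g ga : 𝓞 F)
    (φ : Ideal (𝓞 F) →*₀ ℂ), Dat q s σ χ cj → IsCanO q s σ (2 * n + 1) φ →
    PD q s e d₁ d₂ b a ω g ga →
    GO q σ n φ (idl g d₁ * (idl g d₂).map (cj : 𝓞 F →+* 𝓞 F))
        ((idl g (2 ^ e) * idl g d₁ * idl g d₂).map (cj : 𝓞 F →+* 𝓞 F)) ga
        ((d₁ * d₂ : ℕ) : 𝓞 F) =
      c4 (d₁ * d₂) * ((2 * Real.sqrt q : ℂ) ^ (n + 1))⁻¹ * (Real.sqrt (Real.sqrt q) /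
        (Real.sqrt ((2 ^ e : ℕ) : ℝ) * 2 ^ n * n.factorial)) *
      conj (φ (idl g d₁) * ((d₁ : ℂ) ^ (n + 1))⁻¹ *
        hthO n (σ g / ((2 ^ e : ℕ) * (d₁ : ℂ) ^ 2))) *
      (φ (idl g d₂) * ((d₂ : ℂ) ^ (n + 1))⁻¹ * hthO n (σ g / ((2 ^ e : ℕ) * (d₂ : ℂ) ^ 2)))

/-- The combination of Eisenstein series which belongs to the character modulo 4. -/
noncomputable def EO (q : ℕ) [NeZero q] (χ : DirichletCharacter ℂ q) (r : ℕ) (t u : ℂ) : ℂ :=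
  2 * (4 : ℂ) ^ (-t) * eis q χ r t (4 * u) -
    (1 + 2 * gE r t 2) * (2 : ℂ) ^ (-t) * eis q χ r t (2 * u) + gE r t 2 * eis q χ r t u

/-- (HkO) the Hecke relation at 2 at the point `-r` -/
def StHkO : Prop :=
  ∀ (q : ℕ) (_ : NeZero q) (χ : DirichletCharacter ℂ q) (r : ℕ) (u : ℂ), q.Prime → q % 8 = 7 →
    (∀ n : ℤ, χ n = (jacobiSym n q : ℂ)) → 0 < u.im →
    eis q χ r (-r) u + eis q χ r (-r) (u + 1 / 2) + 2 * 4 ^ r * eis q χ r (-r) (4 * u) =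
      4 * 2 ^ r * eis q χ r (-r) (2 * u) ∧
    EO q χ r (-r) u =
      1 / 2 * (2 * 4 ^ r * eis q χ r (-r) (4 * u) - eis q χ r (-r) (u + 1 / 2))

/-- Representatives with bases of the form `((α + s) / 2, β)`, `q ∣ α`. -/
structure IsRO {F : Type} [Field F] [NumberField F] (q : ℕ) (s : 𝓞 F) {σ : F →+* ℂ}
    (c : Reps σ) (α : ClassGroup (𝓞 F) → ℤ) (β : ClassGroup (𝓞 F) → ℕ) : Prop where
  two : ∀ A, 2 * c.X A = α A + s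
  dvd : ∀ A, (q : ℤ) ∣ α A
  Y : ∀ A, c.Y A = (β A : 𝓞 F)
  odd : ∀ A, Odd (β A)
  cop : ∀ A, (β A).Coprime q

/-- (LatO) sums over an ideal in terms of Eisenstein series -/
def StLatO : Prop :=
  ∀ (q : ℕ) (_ : NeZero q) (F : Type) (_ : Field F) (_ : NumberField F) (s : 𝓞 F)
    (σ : F →+* ℂ) (χ : DirichletCharacter ℂ q) (cj : 𝓞 F ≃+* 𝓞 F) (n : ℕ)
    (φ : Ideal (𝓞 F) →*₀ ℂ) (a : Ideal (𝓞 F)) (X : 𝓞 F) (α : ℤ) (β : ℕ), Dat q s σ χ cj →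
    IsCanO q s σ (2 * n + 1) φ → OBasis σ a X (β : 𝓞 F) → 2 * X = α + s → (q : ℤ) ∣ α →
    Odd β → β.Coprime q → Ideal.absNorm a = β ∧ IsCoprime a (Ideal.span {s}) ∧
    ∀ z : ℂ, 1 < z.re →
      1 / 2 * ∑' x : a, φ (Ideal.span {(x : 𝓞 F)}) *
          (Ideal.absNorm (Ideal.span {(x : 𝓞 F)}) : ℂ) ^ (-((n : ℂ) + 1 + z)) =
        φ (Ideal.span {(β : 𝓞 F)}) * (β : ℂ) ^ (-(2 * ((n : ℂ) + 1 + z))) *
          ((σ X / (q * β)).im : ℂ) ^ ((n : ℂ) - z) *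
          conj (EO q χ n (conj z - n) (σ X / (q * β)))

/-- The `L`-function in terms of Eisenstein series. -/
noncomputable def LamO {F : Type} [Field F] [NumberField F] (q : ℕ) [NeZero q]
    (χ : DirichletCharacter ℂ q) {σ : F →+* ℂ} (n : ℕ) (φ : Ideal (𝓞 F) →*₀ ℂ) (c : Reps σ)
    (z : ℂ) : ℂ :=
  (2 * Real.sqrt q : ℂ) ^ ((n : ℂ) + 1 + z) * ∑ A : ClassGroup (𝓞 F),
    (φ (c.R A : Ideal (𝓞 F)))⁻¹ * φ (Ideal.span {c.Y A}) *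
      ((σ (c.X A) / (q * σ (c.Y A))).im : ℂ) ^ (2 * n + 1) *
      conj (EO q χ n (conj z - n) (σ (c.X A) / (q * σ (c.Y A))))

/-- (LsO) the `L`-function -/
def StLsO : Prop :=
  ∀ (q : ℕ) (_ : NeZero q) (F : Type) (_ : Field F) (_ : NumberField F) (s : 𝓞 F)
    (σ : F →+* ℂ) (χ : DirichletCharacter ℂ q) (cj : 𝓞 F ≃+* 𝓞 F) (n : ℕ)
    (φ : Ideal (𝓞 F) →*₀ ℂ) (c : Reps σ) (α : ClassGroup (𝓞 F) → ℤ)
    (β : ClassGroup (𝓞 F) → ℕ), Dat q s σ χ cj → IsCanO q s σ (2 * n + 1) φ → IsRO q s c α β →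
    IsLF φ (n + 1) (LamO q χ n φ c)

/-- (ValO) the central value as a sum over pairs of classes -/
def StValO : Prop :=
  ∀ (q : ℕ) (_ : NeZero q) (F : Type) (_ : Field F) (_ : NumberField F) (s : 𝓞 F)
    (σ : F →+* ℂ) (χ : DirichletCharacter ℂ q) (cj : 𝓞 F ≃+* 𝓞 F) (n : ℕ)
    (φ : Ideal (𝓞 F) →*₀ ℂ) (c : Reps σ), Dat q s σ χ cj →
    ∃ ε : ℂ, ε ≠ 0 ∧ LamO q χ n φ c 0 = ε * ∑ A : ClassGroup (𝓞 F), ∑ B : ClassGroup (𝓞 F),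
      GO q σ n φ (c.R A : Ideal (𝓞 F)) (c.R B : Ideal (𝓞 F)) (c.X A) (c.Y A)

end Pool.Agent.Lib.MP_7c08ba_nt.CN
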