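import Mathlib
import Pool.Agent.Lib.MP_7c08ba_nt.CN.StOA

set_option autoImplicit false

/-!
Project CN, even `k`, module Cj: the values of the character and the conjugation.
-/

namespace Pool.Agent.Lib.MP_7c08ba_nt.CN

open NumberField IsDedekindDomain Pool.Agent.Lib.MP_7c08ba_nt.RZ
open scoped nonZeroDivisors ComplexConjugate

namespace OCjAux

theorem c4_even {m : ℤ} (h : Even m) : c4 m = 0 := by
  unfold c4
  rw [ZMod.χ₄_int_eq_if_mod_four, if_pos (Int.even_iff.mp h)]
  simp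

theorem norm_c4 {m : ℤ} (h : Odd m) : ‖c4 m‖ = 1 := by
  unfold c4
  rw [ZMod.χ₄_int_eq_if_mod_four, if_neg (by rw [Int.odd_iff.mp h]; norm_num)]
  split_ifs <;> simp

theorem c4_sq {m : ℤ} (h : Odd m) : c4 (m ^ 2) = 1 := by
  unfold c4
  have h1 : m ^ 2 % 4 = 1 := by
    obtain ⟨k, rfl⟩ := h
    have : (2 * k + 1) ^ 2 = 4 * (k ^ 2 + k) + 1 := by ring
    rw [this]
    omega
  rw [ZMod.χ₄_int_eq_if_mod_four, if_neg (by omega), if_pos h1]
  simp

end OCjAux

open OCjAux in
theorem stCjO (h1 : StBas) (h3 : StReps) (hS : StSplit) : StCjO := by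
  intro q F _ _ s σ χ cj n φ hD hφ
  obtain ⟨-, hcc, hcs, hsub, hmul, hnsq, hN, -, hprime, hrep, hdvd⟩ := h1 q F _ _ s σ χ cj hD
  obtain ⟨hodd, -⟩ := h3 q F _ _ s σ χ cj hD
  have hq1 : 1 < q := hD.prime.one_lt
  have hs0 : s ≠ 0 := by
    rintro rfl
    have h := (hdvd 1).mp
    have h2 := (hdvd q).mpr dvd_rfl
    rw [zero_dvd_iff] at h2
    have h4 : (q : 𝓞 F) = 0 := by exact_mod_cast h2
    exact (by omega : q ≠ 0) (by exact_mod_cast h4)
  have hsI : (Ideal.span {s} : Ideal (𝓞 F)) ≠ ⊥ := by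
    rwa [Ne, Ideal.span_singleton_eq_bot]
  have hmax : (Ideal.span {s} : Ideal (𝓞 F)).IsMaximal := hprime.isMaximal hsI
  -- coprimality
  have hcop : ∀ a : Ideal (𝓞 F), ¬ IsCoprime a (Ideal.span {s}) ↔ a ≤ Ideal.span {s} := by
    intro a
    constructor
    · intro h
      by_contra hle
      apply h
      rw [Ideal.isCoprime_iff_sup_eq]
      by_contra hne
      have h5 : (Ideal.span {s} : Ideal (𝓞 F)) ≤ a ⊔ Ideal.span {s} := le_sup_right
      have h6 := hmax.eq_of_le hne h5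
      exact hle (by rw [h6]; exact le_sup_left)
    · intro h h'
      rw [Ideal.isCoprime_iff_sup_eq, sup_eq_right.mpr h] at h'
      exact hprime.ne_top h'
  have hφs : φ (Ideal.span {s}) = 0 := by
    have h := hφ s 0 hs0 (by simp)
    rw [h, jacobiSym.zero_left hq1]
    simp
  have hnat : ∀ m : ℕ, Ideal.absNorm (Ideal.span {(m : 𝓞 F)}) = m ^ 2 := by
    intro m
    have h := hmul (m : 𝓞 F)
    rw [map_natCast] at h
    have h' : ((m ^ 2 : ℕ) : 𝓞 F) = (Ideal.absNorm (Ideal.span {(m : 𝓞 F)}) : 𝓞 F) := by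
      rw [← h]
      push_cast
      ring
    exact (Nat.cast_injective h').symm
  have hzero : ∀ a : Ideal (𝓞 F), ¬ IsCoprime a (Ideal.span {s}) → φ a = 0 := by
    intro a ha
    obtain ⟨a', rfl⟩ := Ideal.dvd_iff_le.mpr ((hcop a).mp ha)
    rw [map_mul, hφs, zero_mul]
  have hmain : ∀ a : Ideal (𝓞 F), IsCoprime a (Ideal.span {s}) → Odd (Ideal.absNorm a) →
      jacobiSym (Ideal.absNorm a) q = 1 ∧
        ‖φ a‖ ^ 2 = (Ideal.absNorm a : ℝ) ^ (2 * n + 1) := by
    intro a ha hao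
    set h := Nat.card (ClassGroup (𝓞 F)) with hh
    have hh0 : h ≠ 0 := by
      rintro h0
      rw [h0] at hodd
      exact absurd hodd (by decide)
    have ha0 : a ≠ ⊥ := by
      rintro rfl
      exact ((hcop ⊥).mpr bot_le) ha
    have hamem : a ∈ (Ideal (𝓞 F))⁰ := mem_nonZeroDivisors_of_ne_zero ha0
    have hprin : (a ^ h).IsPrincipal := by
      have h7 : ClassGroup.mk0 (⟨a, hamem⟩ : (Ideal (𝓞 F))⁰) ^ h = 1 := pow_card_eq_one'
      rw [← map_pow] at h7
      have h8 := (ClassGroup.mk0_eq_one_iff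
        (I := ((⟨a, hamem⟩ : (Ideal (𝓞 F))⁰) ^ h : (Ideal (𝓞 F))⁰).1)
        ((⟨a, hamem⟩ : (Ideal (𝓞 F))⁰) ^ h : (Ideal (𝓞 F))⁰).2).mp h7
      simpa using h8
    obtain ⟨t, ht⟩ := hprin.principal
    have ht : a ^ h = Ideal.span {t} := ht
    have hcopt : IsCoprime (Ideal.span {t}) (Ideal.span {s}) := by
      rw [← ht]
      exact ha.pow_left
    have hst : ¬ s ∣ t := by
      intro hst
      exact (hcop _).mpr ((Ideal.span_singleton_le_span_singleton).mpr hst) hcopt
    have ht0 : t ≠ 0 := by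
      rintro rfl
      exact hst (dvd_zero s)
    obtain ⟨t0, ht0'⟩ := hrep t
    have hqt0 : ¬ (q : ℤ) ∣ t0 := by
      intro hd
      have := (hdvd t0).mpr hd
      exact hst ((dvd_sub_left this).mp ht0')
    have hNt : Ideal.absNorm (Ideal.span {t}) = Ideal.absNorm a ^ h := by
      rw [← ht, map_pow]
    have hcong : (q : ℤ) ∣ ((Ideal.absNorm a : ℤ)) ^ h - t0 ^ 2 := by
      rw [← hdvd]
      push_cast
      have h9 : ((Ideal.absNorm a : 𝓞 F)) ^ h = t * cj t := by
        rw [hmul t, hNt]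
        push_cast
        rfl
      rw [h9]
      have h10 : t * cj t - (t0 : 𝓞 F) ^ 2 = (t - t0) * (t + t0) - t * (t - cj t) := by ring
      rw [h10]
      exact dvd_sub (ht0'.mul_right _) ((hsub t).mul_left _)
    have hj : jacobiSym ((Ideal.absNorm a : ℤ) ^ h) q = 1 := by
      have h11 : jacobiSym ((Ideal.absNorm a : ℤ) ^ h) q = jacobiSym (t0 ^ 2) q := by
        apply jacobiSym.mod_left'
        exact (Int.emod_eq_emod_iff_emod_sub_eq_zero).mpr (Int.emod_eq_zero_of_dvd hcong)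
      rw [h11, pow_two, jacobiSym.mul_left, ← pow_two]
      apply jacobiSym.sq_one
      rw [Int.gcd_comm]
      have hpz : Prime (q : ℤ) := Nat.prime_iff_prime_int.mp hD.prime
      have := (Int.isCoprime_iff_gcd_eq_one (m := (q : ℤ)) (n := t0)).mp
        ((Prime.coprime_iff_not_dvd hpz).mpr hqt0)
      exact this
    have hj1 : jacobiSym (Ideal.absNorm a) q ^ h = 1 := by
      rw [← jacobiSym.pow_left]
      exact hj
    have hjac : jacobiSym (Ideal.absNorm a) q = 1 := by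
      rcases jacobiSym.trichotomy (Ideal.absNorm a : ℤ) q with h12 | h12 | h12
      · rw [h12, zero_pow hh0] at hj1
        exact absurd hj1 (by norm_num)
      · exact h12
      · rw [h12, hodd.neg_one_pow] at hj1
        exact absurd hj1 (by norm_num)
    refine ⟨hjac, ?_⟩
    have hφt : φ a ^ h = (jacobiSym t0 q : ℂ) * c4 (Ideal.absNorm (Ideal.span {t})) *
        σ t ^ (2 * n + 1) := by
      rw [← map_pow, ht]
      exact hφ t t0 ht0 ht0'
    have hc4 : ‖c4 (Ideal.absNorm (Ideal.span {t}))‖ = 1 := by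
      apply norm_c4
      rw [hNt]
      exact_mod_cast hao.pow
    have hnorm1 : ‖(jacobiSym t0 q : ℂ)‖ = 1 := by
      rcases jacobiSym.trichotomy t0 q with h12 | h12 | h12
      · exfalso
        rw [jacobiSym.eq_zero_iff] at h12
        have hpz : Prime (q : ℤ) := Nat.prime_iff_prime_int.mp hD.prime
        have h13 := (Int.isCoprime_iff_gcd_eq_one (m := (q : ℤ)) (n := t0)).mp
          ((Prime.coprime_iff_not_dvd hpz).mpr hqt0)
        rw [Int.gcd_comm] at h13
        exact h12.2 h13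
      · rw [h12]; simp
      · rw [h12]; simp
    have h14 : (‖φ a‖ ^ 2) ^ h = ((Ideal.absNorm a : ℝ) ^ (2 * n + 1)) ^ h := by
      calc (‖φ a‖ ^ 2) ^ h = ‖φ a ^ h‖ ^ 2 := by
            rw [norm_pow, ← pow_mul, ← pow_mul, mul_comm]
        _ = (‖σ t‖ ^ 2) ^ (2 * n + 1) := by
            rw [hφt, norm_mul, norm_mul, hnorm1, hc4, one_mul, one_mul, norm_pow, ← pow_mul,
              ← pow_mul, mul_comm]
        _ = ((Ideal.absNorm a : ℝ) ^ h) ^ (2 * n + 1) := by
            rw [← Complex.normSq_eq_norm_sq, hnsq t, hNt]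
            push_cast
            rfl
        _ = _ := by rw [← pow_mul, ← pow_mul, mul_comm]
    exact (pow_left_inj₀ (by positivity) (by positivity) hh0).mp h14
  -- ideals of even norm
  have hQ : ∀ Q : Ideal (𝓞 F), Ideal.absNorm Q = 2 → φ Q = 0 := by
    intro Q hQ2
    set h := Nat.card (ClassGroup (𝓞 F)) with hh
    have hh0 : h ≠ 0 := by
      rintro h0
      rw [h0] at hodd
      exact absurd hodd (by decide)
    have hQ0 : Q ≠ ⊥ := by
      rintro rfl
      rw [Ideal.absNorm_bot] at hQ2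
      exact absurd hQ2 (by norm_num)
    have hamem : Q ∈ (Ideal (𝓞 F))⁰ := mem_nonZeroDivisors_of_ne_zero hQ0
    have hprin : (Q ^ h).IsPrincipal := by
      have h7 : ClassGroup.mk0 (⟨Q, hamem⟩ : (Ideal (𝓞 F))⁰) ^ h = 1 := pow_card_eq_one'
      rw [← map_pow] at h7
      have h8 := (ClassGroup.mk0_eq_one_iff
        (I := ((⟨Q, hamem⟩ : (Ideal (𝓞 F))⁰) ^ h : (Ideal (𝓞 F))⁰).1)
        ((⟨Q, hamem⟩ : (Ideal (𝓞 F))⁰) ^ h : (Ideal (𝓞 F))⁰).2).mp h7
      simpa using h8
    obtain ⟨t, ht⟩ := hprin.principal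
    have ht : Q ^ h = Ideal.span {t} := ht
    have ht0 : t ≠ 0 := by
      rintro rfl
      have h9 : Q ^ h = ⊥ := by rw [ht, Ideal.span_singleton_eq_bot]
      exact hQ0 (pow_eq_zero_iff hh0 |>.mp h9)
    obtain ⟨t0, ht0'⟩ := hrep t
    have hNt : Ideal.absNorm (Ideal.span {t}) = 2 ^ h := by
      rw [← ht, map_pow, hQ2]
    have h10 : φ Q ^ h = 0 := by
      rw [← map_pow, ht, hφ t t0 ht0 ht0', hNt, c4_even, mul_zero, zero_mul]
      exact_mod_cast (even_two.pow_of_ne_zero hh0)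
    exact (pow_eq_zero_iff hh0).mp h10
  have heven : ∀ a : Ideal (𝓞 F), ¬ Odd (Ideal.absNorm a) → φ a = 0 := by
    intro a ha
    have h2 : (2 : ℕ) ∣ Ideal.absNorm a := (Nat.not_odd_iff_even.mp ha).two_dvd
    have hq8 : q % 8 = 7 := by
      have := hD.mod
      omega
    have hj2 : jacobiSym 2 q = 1 := by
      have hqo : Odd q := by
        rw [Nat.odd_iff]
        omega
      rw [jacobiSym.at_two hqo, ZMod.χ₈_nat_eq_if_mod_eight, if_neg (by omega), if_pos (by omega)]
    obtain ⟨P, P', hP, hP', -, hPP, hNP, hNP'⟩ :=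
      (hS q F _ _ s σ χ cj hD 2 Nat.prime_two).1 (by exact_mod_cast hj2)
    have hP0 : P ≠ 0 := by
      rintro rfl
      rw [Ideal.zero_eq_bot, Ideal.absNorm_bot] at hNP
      exact absurd hNP (by norm_num)
    have hcP : P.map (cj : 𝓞 F →+* 𝓞 F) = P' := by
      have h3 := hN P
      rw [hNP, ← hPP] at h3
      exact mul_left_cancel₀ hP0 h3
    have hle : a * a.map (cj : 𝓞 F →+* 𝓞 F) ≤ P := by
      rw [hN a]
      calc Ideal.span {(Ideal.absNorm a : 𝓞 F)} ≤ Ideal.span {((2 : ℕ) : 𝓞 F)} := by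
            rw [Ideal.span_singleton_le_span_singleton]
            exact_mod_cast Nat.cast_dvd_cast h2
        _ = P * P' := hPP.symm
        _ ≤ P := Ideal.mul_le_left
    rcases hP.mul_le.mp hle with h4 | h4
    · obtain ⟨a', rfl⟩ := Ideal.dvd_iff_le.mpr h4
      rw [map_mul, hQ P hNP, zero_mul]
    · have h5 : a ≤ P' := by
        have h6 := Ideal.map_mono (f := (cj : 𝓞 F →+* 𝓞 F)) h4
        rw [hcP, Ideal.map_map] at h6
        have h7 : ((cj : 𝓞 F →+* 𝓞 F).comp (cj : 𝓞 F →+* 𝓞 F)) = RingHom.id _ :=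
          RingHom.ext fun x => hcc x
        rwa [h7, Ideal.map_id] at h6
      obtain ⟨a', rfl⟩ := Ideal.dvd_iff_le.mpr h5
      rw [map_mul, hQ P' hNP', zero_mul]
  refine ⟨?_, fun a ha hao => (hmain a ha hao).2, hzero, heven⟩
  intro a
  by_cases ha : IsCoprime a (Ideal.span {s})
  · by_cases hao : Odd (Ideal.absNorm a)
    · obtain ⟨hjac, hsq⟩ := hmain a ha hao
      have ha0 : a ≠ ⊥ := by
        rintro rfl
        exact ((hcop ⊥).mpr bot_le) ha
      have hNa : Ideal.absNorm a ≠ 0 := by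
        rw [Ne, Ideal.absNorm_eq_zero_iff]
        exact ha0
      have h15 : φ (a.map (cj : 𝓞 F →+* 𝓞 F)) * φ a = (Ideal.absNorm a : ℂ) ^ (2 * n + 1) := by
        rw [← map_mul, mul_comm (Ideal.map _ a), hN]
        have h16 := hφ (Ideal.absNorm a : 𝓞 F) (Ideal.absNorm a : ℤ) (by exact_mod_cast hNa)
          (by simp)
        rw [h16, hjac, hnat, Nat.cast_pow, c4_sq (by exact_mod_cast hao)]
        simp
      have h17 : conj (φ a) * φ a = (Ideal.absNorm a : ℂ) ^ (2 * n + 1) := by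
        rw [mul_comm, Complex.mul_conj, Complex.normSq_eq_norm_sq, hsq]
        push_cast
        rfl
      have hne : φ a ≠ 0 := by
        intro h0
        rw [h0, mul_zero] at h17
        exact pow_ne_zero _ (by exact_mod_cast hNa) h17.symm
      exact mul_right_cancel₀ hne (h15.trans h17.symm)
    · have h19 : Ideal.absNorm (a.map (cj : 𝓞 F →+* 𝓞 F)) = Ideal.absNorm a := by
        have h20 := hN (a.map (cj : 𝓞 F →+* 𝓞 F))
        have h7 : ((cj : 𝓞 F →+* 𝓞 F).comp (cj : 𝓞 F →+* 𝓞 F)) = RingHom.id _ :=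
          RingHom.ext fun x => hcc x
        rw [Ideal.map_map, h7, Ideal.map_id, mul_comm, hN a] at h20
        have h21 := congrArg Ideal.absNorm h20
        rw [hnat, hnat] at h21
        exact ((pow_left_inj₀ (Nat.zero_le _) (Nat.zero_le _) two_ne_zero).mp h21).symm
      rw [heven a hao, heven _ (by rw [h19]; exact hao), map_zero]
  · have hle := (hcop a).mp ha
    have h18 : a.map (cj : 𝓞 F →+* 𝓞 F) ≤ Ideal.span {s} := by
      calc a.map (cj : 𝓞 F →+* 𝓞 F) ≤ (Ideal.span {s}).map (cj : 𝓞 F →+* 𝓞 F) :=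
            Ideal.map_mono hle
        _ = Ideal.span {s} := by
            rw [Ideal.map_span, Set.image_singleton]
            have : (cj : 𝓞 F →+* 𝓞 F) s = -s := hcs
            rw [this, Ideal.span_singleton_neg]
    rw [hzero a ha, hzero _ ((hcop _).mpr h18), map_zero]

end Pool.Agent.Lib.MP_7c08ba_nt.CN
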