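import Mathlib
import Pool.Agent.Lib.MP_7c08ba_nt.CN.DefsO

set_option autoImplicit false

/-!
Project CN, even `k`, `2`-adic part: statements of the modules.  One module = one file
`CN/O<Name>.lean` proving `theorem st<Name>O : St<Name>O`, with earlier statements as hypotheses.
-/

namespace Pool.Agent.Lib.MP_7c08ba_nt.CN

open NumberField IsDedekindDomain UpperHalfPlane ModularForm EisensteinSeries RZC
open scoped nonZeroDivisors ComplexConjugate MatrixGroups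

open MvPolynomial in
/-- The polynomials of the derivatives of `η³` (divided by `η³`). -/
noncomputable def WO : ℕ → MvPolynomial (Fin 4) ℂ
  | 0 => 1
  | r + 1 => C 8 * dd (WO r) + X 0 * WO r

/-- (EtaO) the eighth power of the theta series of weight `3 / 2` -/
def StEtaO : Prop := ∀ τ : ℂ, 0 < τ.im → yO τ ^ 8 = 256 * dl τ 1

/-- (LadO) the Hermite theta series in terms of the polynomials -/
def StLadO : Prop := ∀ (r : ℕ) (τ : ℂ), 0 < τ.im → hthO (2 * r + 1) τ =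
  Real.sqrt (2 * Real.pi * τ.im) * (2 * Real.pi * τ.im) ^ r * yO τ *
    ev (WO r) τ 1 (conj τ) 1

/-- (WO) the polynomials: homogeneity and values modulo the maximal ideal -/
def StWO : Prop :=
  (∀ r : ℕ, (WO r).IsWeightedHomogeneous wt (2 * r)) ∧
  (∀ (r : ℕ) (w₁ w₂ α β c : ℂ), c ≠ 0 → w₂ ≠ 0 → vol w₁ w₂ α β ≠ 0 →
    ev (WO r) (c * w₁) (c * w₂) (conj c * α) (conj c * β) =
      (c ^ (2 * r))⁻¹ * ev (WO r) w₁ w₂ α β) ∧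
  ∀ (A : ValuationSubring ℂ), Above2 A → ∀ (r : ℕ) (w₁ w₂ α β : ℂ), e4 w₁ w₂ ≠ 0 →
    e6 w₁ w₂ ^ 2 / e4 w₁ w₂ ^ 3 - 1 ∈ A.nonunits →
    e2s w₁ w₂ α β * e6 w₁ w₂ / e4 w₁ w₂ ^ 2 - 1 ∈ A.nonunits →
    ev (WO r) w₁ w₂ α β * (e6 w₁ w₂ / e4 w₁ w₂ ^ 2) ^ r - 1 ∈ A.nonunits

/-- (FldO) the lattices of the ideals -/
def StFldO : Prop :=
  ∀ (q : ℕ) (F : Type) (_ : Field F) (_ : NumberField F) (s : F) (σ : F →+* ℂ)
    (A : ValuationSubring ℂ), FieldC q F s → Above2 A →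
    ∀ (a : Ideal (𝓞 F)) (w₁ w₂ : ℂ), a ≠ ⊥ → IsB σ a w₁ w₂ →
      Ord A w₁ w₂ ∧ e6 w₁ w₂ ≠ 0 ∧ e6 w₁ w₂ ^ 2 / e4 w₁ w₂ ^ 3 - 1 ∈ A.nonunits ∧
      E2s w₁ w₂ * e6 w₁ w₂ / e4 w₁ w₂ ^ 2 - 1 ∈ A.nonunits

/-- (LcO) the lattices `(2 ^ e, g) (d, g) ^ 2` -/
def StLcO : Prop :=
  ∀ (q : ℕ) (F : Type) (_ : Field F) (_ : NumberField F) (s : 𝓞 F) (σ : F →+* ℂ) (e : ℕ)
    (b : ℤ) (g : 𝓞 F) (d : ClassGroup (𝓞 F) → ℕ), FieldC q F (s : F) → 0 < (σ s).im →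
    Sys q s b g d → (∀ C, (8 * 2 ^ e * (d C : ℤ) ^ 2 : ℤ) ∣ b ^ 2 + q) →
    (∀ C, IsB σ (idl g (2 ^ e) * idl g (d C) ^ 2) (σ g) (2 ^ e * (d C : ℂ) ^ 2)) ∧
    (∀ C, Ideal.absNorm (idl g (d C)) = d C ∧ IsCoprime (idl g (d C)) (Ideal.span {s})) ∧
    (∀ C, (lat (σ g) (2 ^ e * (d C : ℂ) ^ 2)).toAddSubgroup.relIndex
      (lat (σ g) (2 ^ e)).toAddSubgroup = d C ^ 2) ∧
    IsB σ (idl g (2 ^ e)) (σ g) (2 ^ e) ∧
    ∀ A : ValuationSubring ℂ, Above2 A →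
      ∑ C, jv (σ g) (2 ^ e * (d C : ℂ) ^ 2) - 1 ∈ A.nonunits

end Pool.Agent.Lib.MP_7c08ba_nt.CN
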