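import Mathlib
import Pool.Agent.Lib.MP_7c08ba_nt.CN.StOP

set_option autoImplicit false

/-!
Project CN, even `k`, module OEta: the eighth power of the theta series of weight `3 / 2` is
`256` times the discriminant.
-/

namespace Pool.Agent.Lib.MP_7c08ba_nt.CN

namespace OEtaAux

open Complex Filter Topology UpperHalfPlane ModularForm MatrixGroups

theorem exp_pi_int (m : ℤ) : Complex.exp (Real.pi * Complex.I * (m : ℂ)) = (-1 : ℂ) ^ m := by
  rw [mul_comm, Complex.exp_int_mul, Complex.exp_pi_mul_I]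

theorem c4_even (n : ℤ) : c4 (2 * n) = 0 := by
  have h : ((2 * n : ℤ) : ZMod 4) = 0 ∨ ((2 * n : ℤ) : ZMod 4) = 2 := by
    push_cast
    generalize (n : ZMod 4) = x
    revert x
    decide
  unfold c4
  rcases h with h | h
  · rw [h]
    have : ZMod.χ₄ 0 = 0 := by decide
    rw [this]
    simp
  · rw [h]
    have : ZMod.χ₄ 2 = 0 := by decide
    rw [this]
    simp

theorem c4_odd (n : ℤ) : c4 (2 * n + 1) = (-1 : ℂ) ^ n := by
  rcases Int.even_or_odd n with h | h
  · rw [h.neg_one_zpow]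
    obtain ⟨k, rfl⟩ := h
    have h1 : ((2 * (k + k) + 1 : ℤ) : ZMod 4) = 1 := by
      push_cast
      generalize (k : ZMod 4) = x
      revert x
      decide
    unfold c4
    rw [h1]
    have : ZMod.χ₄ 1 = 1 := by decide
    rw [this]
    simp
  · rw [h.neg_one_zpow]
    obtain ⟨k, rfl⟩ := h
    have h1 : ((2 * (2 * k + 1) + 1 : ℤ) : ZMod 4) = 3 := by
      push_cast
      generalize (k : ZMod 4) = x
      revert x
      decide
    unfold c4
    rw [h1]
    have : ZMod.χ₄ 3 = -1 := by decide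
    rw [this]
    simp

/-- the terms -/
noncomputable def tm (m : ℤ) (τ : ℂ) : ℂ :=
  c4 m * m * Complex.exp (Real.pi * Complex.I * m ^ 2 * τ / 4)

theorem yO_eq (τ : ℂ) : yO τ = ∑' m : ℤ, tm m τ := rfl

theorem inj_odd : Function.Injective (fun n : ℤ => 2 * n + 1) := by
  intro a b h
  have : 2 * a + 1 = 2 * b + 1 := h
  omega

theorem yO_odd (τ : ℂ) : yO τ = ∑' n : ℤ, (-1 : ℂ) ^ n * (2 * n + 1) *
    Complex.exp (Real.pi * Complex.I * (2 * n + 1) ^ 2 * τ / 4) := by
  have h1 : Function.support (fun m : ℤ => tm m τ) ⊆ Set.range (fun n : ℤ => 2 * n + 1) := by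
    intro m hm
    rcases Int.even_or_odd m with h | h
    · exfalso
      obtain ⟨k, rfl⟩ := h
      apply hm
      show tm (k + k) τ = 0
      rw [tm, ← two_mul, c4_even, zero_mul, zero_mul]
    · obtain ⟨k, rfl⟩ := h
      exact ⟨k, rfl⟩
  rw [yO_eq, ← inj_odd.tsum_eq h1]
  refine tsum_congr fun n => ?_
  show tm (2 * n + 1) τ = _
  rw [tm, c4_odd]
  push_cast
  ring

theorem term_eq (n : ℤ) (τ : ℂ) : jacobiTheta₂_term n ((τ + 1) / 2) τ =
    (-1 : ℂ) ^ n * Complex.exp (Real.pi * Complex.I * (2 * n + 1) ^ 2 * τ / 4) *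
      Complex.exp (-(Real.pi * Complex.I * τ / 4)) := by
  rw [jacobiTheta₂_term, ← exp_pi_int, ← Complex.exp_add, ← Complex.exp_add]
  congr 1
  ring

theorem th_zero (τ : ℂ) : jacobiTheta₂ ((τ + 1) / 2) τ = 0 := by
  have h1 : jacobiTheta₂ (-((τ + 1) / 2) + 1 + τ) τ =
      Complex.exp (-Real.pi * Complex.I * (τ + 2 * (-((τ + 1) / 2) + 1))) *
        jacobiTheta₂ (-((τ + 1) / 2) + 1) τ := jacobiTheta₂_add_left' _ _
  have h2 : -((τ + 1) / 2) + 1 + τ = (τ + 1) / 2 := by ring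
  have h3 : -Real.pi * Complex.I * (τ + 2 * (-((τ + 1) / 2) + 1)) =
      -(Real.pi * Complex.I) := by ring
  rw [h2, h3, Complex.exp_neg, Complex.exp_pi_mul_I, jacobiTheta₂_add_left,
    jacobiTheta₂_neg_left] at h1
  have h4 : (2 : ℂ) * jacobiTheta₂ ((τ + 1) / 2) τ = 0 := by
    linear_combination h1
  simpa using h4

theorem th'_eq {τ : ℂ} (hτ : 0 < τ.im) : jacobiTheta₂' ((τ + 1) / 2) τ =
    Real.pi * Complex.I * Complex.exp (-(Real.pi * Complex.I * τ / 4)) * yO τ := by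
  have h1 := (hasSum_jacobiTheta₂'_term ((τ + 1) / 2) hτ).add
    ((hasSum_jacobiTheta₂_term ((τ + 1) / 2) hτ).mul_left (Real.pi * Complex.I))
  rw [th_zero, mul_zero, add_zero] at h1
  rw [← h1.tsum_eq, yO_odd, ← tsum_mul_left]
  refine tsum_congr fun n => ?_
  rw [jacobiTheta₂'_term, term_eq]
  ring

theorem sq_half {x : ℂ} : (x ^ (1 / 2 : ℂ)) ^ 2 = x := by
  rw [← Complex.cpow_nat_mul]
  norm_num

theorem im_pos {τ : ℂ} (hτ : 0 < τ.im) : 0 < (-1 / τ).im := by
  have h0 : τ ≠ 0 := by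
    rintro rfl
    simp at hτ
  rw [neg_div, one_div, Complex.neg_im, Complex.inv_im, neg_div, neg_neg]
  exact div_pos hτ (Complex.normSq_pos.2 h0)

theorem exp_half : Complex.exp (-(Real.pi * Complex.I / 2)) = -Complex.I := by
  rw [Complex.exp_neg]
  have : Real.pi * Complex.I / 2 = Real.pi / 2 * Complex.I := by ring
  rw [this, Complex.exp_pi_div_two_mul_I, Complex.inv_I]

/-- the transformation `S` -/
theorem yO_S {τ : ℂ} (hτ : 0 < τ.im) : yO (-1 / τ) =
    -Complex.I * τ * (-Complex.I * τ) ^ (1 / 2 : ℂ) * yO τ := by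
  have h0 : τ ≠ 0 := by
    rintro rfl
    simp at hτ
  have h1 : -Complex.I * τ ≠ 0 := mul_ne_zero (neg_ne_zero.2 Complex.I_ne_zero) h0
  have h2 : (-Complex.I * τ) ^ (1 / 2 : ℂ) ≠ 0 := by
    rw [Ne, Complex.cpow_eq_zero_iff]
    exact fun h => h1 h.1
  have h3 := jacobiTheta₂'_functional_equation ((τ + 1) / 2) τ
  have h4 : (τ + 1) / 2 / τ = -((-1 / τ + 1) / 2) + 1 := by
    field_simp
    ring
  have h5 : Complex.exp (-Real.pi * Complex.I * ((τ + 1) / 2) ^ 2 / τ) =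
      Complex.exp (-(Real.pi * Complex.I * τ / 4)) * -Complex.I *
        Complex.exp (Real.pi * Complex.I * (-1 / τ) / 4) := by
    rw [← exp_half, ← Complex.exp_add, ← Complex.exp_add]
    congr 1
    field_simp
    ring
  rw [h4, jacobiTheta₂'_add_left, jacobiTheta₂'_neg_left, jacobiTheta₂_add_left,
    jacobiTheta₂_neg_left, th_zero, th'_eq hτ, th'_eq (im_pos hτ), h5] at h3
  have e1 : Complex.exp (Real.pi * Complex.I * (-1 / τ) / 4) *
      Complex.exp (-(Real.pi * Complex.I * (-1 / τ) / 4)) = 1 := by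
    rw [← Complex.exp_add, add_neg_cancel, Complex.exp_zero]
  have hpi : (Real.pi : ℂ) ≠ 0 := by
    exact_mod_cast Real.pi_ne_zero
  have hI := Complex.I_ne_zero
  generalize (-Complex.I * τ) ^ (1 / 2 : ℂ) = r at *
  have he : Complex.exp (-(Real.pi * Complex.I * τ / 4)) ≠ 0 := Complex.exp_ne_zero _
  generalize Complex.exp (-(Real.pi * Complex.I * τ / 4)) = E at *
  generalize Complex.exp (Real.pi * Complex.I * (-1 / τ) / 4) = F at *
  generalize Complex.exp (-(Real.pi * Complex.I * (-1 / τ) / 4)) = G at *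
  generalize yO (-1 / τ) = Y' at *
  generalize yO τ = Y at *
  have h6 : (Real.pi * Complex.I * E) * Y = (Real.pi * Complex.I * E) *
      (1 / r * (1 / τ) * Complex.I * Y' * (F * G)) := by
    rw [h3]
    ring
  rw [e1, mul_one] at h6
  have h7 := mul_left_cancel₀ (mul_ne_zero (mul_ne_zero hpi hI) he) h6
  rw [h7]
  have : -Complex.I * τ * r * (1 / r * (1 / τ) * Complex.I * Y') =
      -(Complex.I * Complex.I) * (τ * (1 / τ)) * (r * (1 / r)) * Y' := by ring
  rw [this, mul_one_div_cancel h0, mul_one_div_cancel h2, Complex.I_mul_I]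
  ring

theorem yO_S8 {τ : ℂ} (hτ : 0 < τ.im) : yO (-1 / τ) ^ 8 = τ ^ 12 * yO τ ^ 8 := by
  rw [yO_S hτ]
  have h1 : (-Complex.I * τ * (-Complex.I * τ) ^ (1 / 2 : ℂ) * yO τ) ^ 8 =
      (Complex.I ^ 8) * τ ^ 8 * (((-Complex.I * τ) ^ (1 / 2 : ℂ)) ^ 2) ^ 4 * yO τ ^ 8 := by
    ring
  rw [h1, sq_half]
  have h2 : Complex.I ^ 8 * τ ^ 8 * (-Complex.I * τ) ^ 4 * yO τ ^ 8 =
      (Complex.I ^ 4) ^ 3 * τ ^ 12 * yO τ ^ 8 := by ring
  rw [h2, Complex.I_pow_four]
  ring

theorem exp_odd (n : ℤ) : Complex.exp (Real.pi * Complex.I * (2 * n + 1) ^ 2 / 4) =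
    Complex.exp (Real.pi * Complex.I / 4) := by
  have h1 : Real.pi * Complex.I * (2 * (n : ℂ) + 1) ^ 2 / 4 =
      Real.pi * Complex.I / 4 + Real.pi * Complex.I * ((n * (n + 1) : ℤ) : ℂ) := by
    push_cast
    ring
  rw [h1, Complex.exp_add, exp_pi_int, (Int.even_mul_succ_self n).neg_one_zpow, mul_one]

/-- the transformation `T` -/
theorem yO_T (τ : ℂ) : yO (τ + 1) = Complex.exp (Real.pi * Complex.I / 4) * yO τ := by
  rw [yO_odd, yO_odd, ← tsum_mul_left]
  refine tsum_congr fun n => ?_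
  rw [← exp_odd n]
  have h1 : Real.pi * Complex.I * (2 * (n : ℂ) + 1) ^ 2 * (τ + 1) / 4 =
      Real.pi * Complex.I * (2 * n + 1) ^ 2 / 4 +
        Real.pi * Complex.I * (2 * n + 1) ^ 2 * τ / 4 := by ring
  rw [h1, Complex.exp_add]
  ring

theorem yO_T8 (τ : ℂ) : yO (τ + 1) ^ 8 = yO τ ^ 8 := by
  rw [yO_T, mul_pow, ← Complex.exp_nat_mul]
  have h1 : ((8 : ℕ) : ℂ) * (Real.pi * Complex.I / 4) = 2 * Real.pi * Complex.I := by
    push_cast
    ring
  rw [h1, Complex.exp_two_pi_mul_I, one_mul]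

theorem norm_c4 (m : ℤ) : ‖c4 m‖ ≤ 1 := by
  rcases Int.even_or_odd m with h | h
  · obtain ⟨k, rfl⟩ := h
    rw [← two_mul, c4_even]
    simp
  · obtain ⟨k, rfl⟩ := h
    rw [c4_odd]
    simp

theorem norm_exp_tm (m : ℤ) (τ : ℂ) : ‖Complex.exp (Real.pi * Complex.I * m ^ 2 * τ / 4)‖ =
    Real.exp (-(Real.pi * m ^ 2 * τ.im / 4)) := by
  rw [Complex.norm_exp]
  congr 1
  have : Real.pi * Complex.I * (m : ℂ) ^ 2 * τ / 4 =
      ((Real.pi * m ^ 2 / 4 : ℝ) : ℂ) * (Complex.I * τ) := by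
    push_cast
    ring
  rw [this, Complex.re_ofReal_mul, Complex.I_mul_re]
  ring

theorem summ_bd {δ : ℝ} (hδ : 0 < δ) :
    Summable fun m : ℤ => |(m : ℝ)| * Real.exp (-(Real.pi * m ^ 2 * δ / 4)) := by
  have h := summable_pow_mul_jacobiTheta₂_term_bound 0 (T := δ / 4) (by positivity) 1
  refine h.congr fun m => ?_
  rw [pow_one]
  push_cast
  congr 2
  ring

theorem norm_tm_le {δ : ℝ} (m : ℤ) {τ : ℂ} (hτ : δ < τ.im) :
    ‖tm m τ‖ ≤ |(m : ℝ)| * Real.exp (-(Real.pi * m ^ 2 * δ / 4)) := by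
  rw [tm, norm_mul, norm_mul, norm_exp_tm]
  rw [Complex.norm_intCast]
  have h2 : ‖c4 m‖ * |(m : ℝ)| ≤ |(m : ℝ)| := by
    calc ‖c4 m‖ * |(m : ℝ)| ≤ 1 * |(m : ℝ)| :=
        mul_le_mul_of_nonneg_right (norm_c4 m) (abs_nonneg _)
      _ = |(m : ℝ)| := one_mul _
  refine mul_le_mul h2 ?_ (Real.exp_pos _).le (abs_nonneg _)
  rw [Real.exp_le_exp, neg_le_neg_iff]
  have h3 : 0 ≤ Real.pi * (m : ℝ) ^ 2 := by positivity
  have h4 := mul_le_mul_of_nonneg_left hτ.le h3
  linarith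

theorem differentiableAt_yO {τ : ℂ} (hτ : 0 < τ.im) : DifferentiableAt ℂ yO τ := by
  obtain ⟨δ, hδ, hδ'⟩ := exists_between hτ
  have hU : IsOpen {z : ℂ | δ < z.im} := isOpen_lt continuous_const Complex.continuous_im
  have h1 : DifferentiableOn ℂ (fun w => ∑' m : ℤ, tm m w) {z : ℂ | δ < z.im} := by
    refine differentiableOn_tsum_of_summable_norm (summ_bd hδ) (fun m => ?_) hU
      (fun m w hw => norm_tm_le m hw)
    unfold tm
    fun_prop
  exact (h1 τ hδ').differentiableAt (hU.mem_nhds hδ')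

theorem norm_gm_le (m : ℤ) (τ : ℂ) : ‖tm m τ * Complex.exp (-(Real.pi * Complex.I * τ / 4))‖ ≤
    |(m : ℝ)| * Real.exp (-(Real.pi * ((m : ℝ) ^ 2 - 1) / 4 * τ.im)) := by
  have h0 : ‖Complex.exp (-(Real.pi * Complex.I * τ / 4))‖ = Real.exp (Real.pi * τ.im / 4) := by
    rw [Complex.norm_exp]
    congr 1
    have : -(Real.pi * Complex.I * τ / 4) = ((-(Real.pi / 4) : ℝ) : ℂ) * (Complex.I * τ) := by
      push_cast
      ring
    rw [this, Complex.re_ofReal_mul, Complex.I_mul_re]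
    ring
  rw [norm_mul, tm, norm_mul, norm_mul, norm_exp_tm, h0, Complex.norm_intCast, mul_assoc,
    ← Real.exp_add]
  have h1 : -(Real.pi * (m : ℝ) ^ 2 * τ.im / 4) + Real.pi * τ.im / 4 =
      -(Real.pi * ((m : ℝ) ^ 2 - 1) / 4 * τ.im) := by ring
  rw [h1]
  refine mul_le_mul_of_nonneg_right ?_ (Real.exp_pos _).le
  calc ‖c4 m‖ * |(m : ℝ)| ≤ 1 * |(m : ℝ)| :=
      mul_le_mul_of_nonneg_right (norm_c4 m) (abs_nonneg _)
    _ = |(m : ℝ)| := one_mul _

theorem one_le_sq {m : ℤ} (hm : m ≠ 0) : (1 : ℝ) ≤ (m : ℝ) ^ 2 := by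
  have h1 : (1 : ℤ) ≤ m ^ 2 := by
    have : 0 < m ^ 2 := by positivity
    omega
  exact_mod_cast h1

theorem one_lt_sq {m : ℤ} (h0 : m ≠ 0) (h1 : m ≠ 1) (h2 : m ≠ -1) : (1 : ℝ) < (m : ℝ) ^ 2 := by
  have h3 : (1 : ℤ) < m ^ 2 := by
    by_contra h
    have h4 : m ≤ 1 := by nlinarith
    have h5 : -1 ≤ m := by nlinarith
    omega
  exact_mod_cast h3

theorem tsum_g : ∑' m : ℤ, (if m = 1 ∨ m = -1 then (1 : ℂ) else 0) = 2 := by
  rw [tsum_eq_sum (s := {1, -1})]
  · rw [Finset.sum_pair (by decide)]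
    norm_num
  · intro m hm
    rw [if_neg]
    simpa using hm

theorem c4_neg_one : c4 (-1) = -1 := by
  have := c4_odd (-1)
  simpa using this

theorem c4_one : c4 1 = 1 := by
  have := c4_odd 0
  simpa using this

/-- the limit at infinity -/
theorem lim_yO : Tendsto (fun τ : ℍ => yO (τ : ℂ) *
    Complex.exp (-(Real.pi * Complex.I * (τ : ℂ) / 4))) atImInfty (𝓝 2) := by
  have h0 : ∀ τ : ℍ, yO (τ : ℂ) * Complex.exp (-(Real.pi * Complex.I * (τ : ℂ) / 4)) =
      ∑' m : ℤ, tm m (τ : ℂ) * Complex.exp (-(Real.pi * Complex.I * (τ : ℂ) / 4)) := by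
    intro τ
    rw [yO_eq, tsum_mul_right]
  simp_rw [h0]
  rw [← tsum_g]
  refine tendsto_tsum_of_dominated_convergence
    (bound := fun m : ℤ => |(m : ℝ)| * Real.exp (-(Real.pi * m ^ 2 * 1 / 4)) *
      Real.exp (Real.pi / 4)) ((summ_bd one_pos).mul_right _) ?_ ?_
  · intro m
    by_cases h1 : m = 1
    · subst h1
      rw [if_pos (Or.inl rfl)]
      refine Tendsto.congr (fun τ => ?_) tendsto_const_nhds
      rw [tm, c4_one, ← sub_eq_zero]
      have : Complex.exp (Real.pi * Complex.I * ((1 : ℤ) : ℂ) ^ 2 * (τ : ℂ) / 4) *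
          Complex.exp (-(Real.pi * Complex.I * (τ : ℂ) / 4)) = 1 := by
        rw [← Complex.exp_add]
        have : Real.pi * Complex.I * ((1 : ℤ) : ℂ) ^ 2 * (τ : ℂ) / 4 +
            -(Real.pi * Complex.I * (τ : ℂ) / 4) = 0 := by
          push_cast
          ring
        rw [this, Complex.exp_zero]
      rw [mul_assoc, this]
      push_cast
      ring
    by_cases h2 : m = -1
    · subst h2
      rw [if_pos (Or.inr rfl)]
      refine Tendsto.congr (fun τ => ?_) tendsto_const_nhds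
      rw [tm, c4_neg_one, ← sub_eq_zero]
      have : Complex.exp (Real.pi * Complex.I * ((-1 : ℤ) : ℂ) ^ 2 * (τ : ℂ) / 4) *
          Complex.exp (-(Real.pi * Complex.I * (τ : ℂ) / 4)) = 1 := by
        rw [← Complex.exp_add]
        have : Real.pi * Complex.I * ((-1 : ℤ) : ℂ) ^ 2 * (τ : ℂ) / 4 +
            -(Real.pi * Complex.I * (τ : ℂ) / 4) = 0 := by
          push_cast
          ring
        rw [this, Complex.exp_zero]
      rw [mul_assoc, this]
      push_cast
      ring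
    have h12 : ¬(m = 1 ∨ m = -1) := by
      rintro (h | h)
      · exact h1 h
      · exact h2 h
    rw [if_neg h12]
    by_cases h3 : m = 0
    · subst h3
      refine Tendsto.congr (fun τ => ?_) tendsto_const_nhds
      rw [tm]
      simp
    · refine squeeze_zero_norm (fun τ => norm_gm_le m (τ : ℂ)) ?_
      have h4 : 0 < Real.pi * ((m : ℝ) ^ 2 - 1) / 4 := by
        have h5 := one_lt_sq h3 h1 h2
        have h6 : 0 < (m : ℝ) ^ 2 - 1 := by linarith
        have h7 := Real.pi_pos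
        positivity
      have h5 : Tendsto (fun τ : ℍ => Real.pi * ((m : ℝ) ^ 2 - 1) / 4 * (τ : ℂ).im)
          atImInfty atTop := by
        refine Tendsto.const_mul_atTop h4 ?_
        exact tendsto_comap
      have h6 := (Real.tendsto_exp_neg_atTop_nhds_zero.comp h5).const_mul |(m : ℝ)|
      rw [mul_zero] at h6
      exact h6
  · have h1 : ∀ᶠ τ : ℍ in atImInfty, (1 : ℝ) ≤ τ.im :=
      (tendsto_comap : Tendsto UpperHalfPlane.im atImInfty atTop).eventually
        (eventually_ge_atTop 1)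
    filter_upwards [h1] with τ hτ m
    by_cases h3 : m = 0
    · subst h3
      rw [tm]
      simp
    · refine (norm_gm_le m (τ : ℂ)).trans ?_
      rw [mul_assoc, ← Real.exp_add]
      refine mul_le_mul_of_nonneg_left ?_ (abs_nonneg _)
      rw [Real.exp_le_exp]
      have h4 : 0 ≤ Real.pi * ((m : ℝ) ^ 2 - 1) / 4 := by
        have h5 := one_le_sq h3
        have h6 : 0 ≤ (m : ℝ) ^ 2 - 1 := by linarith
        have h7 := Real.pi_pos
        positivity
      have h5 := mul_le_mul_of_nonneg_left hτ h4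
      have h6 : (τ : ℂ).im = τ.im := rfl
      rw [h6]
      linarith

/-- the eighth power as a function on the upper half plane -/
noncomputable def FO (τ : ℍ) : ℂ := yO (τ : ℂ) ^ 8

theorem lim_FO : Tendsto (fun τ : ℍ => FO τ / Function.Periodic.qParam 1 (τ : ℂ)) atImInfty
    (𝓝 256) := by
  have h1 := lim_yO.pow 8
  have h2 : (2 : ℂ) ^ 8 = 256 := by norm_num
  rw [h2] at h1
  refine h1.congr fun τ => ?_
  rw [mul_pow, FO, ← Complex.exp_nat_mul, Function.Periodic.qParam,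
    div_eq_mul_inv (yO (τ : ℂ) ^ 8), ← Complex.exp_neg]
  congr 2
  push_cast
  ring

theorem FO_zero : IsZeroAtImInfty FO := by
  have h1 := (UpperHalfPlane.qParam_tendsto_atImInfty one_pos).mul lim_FO
  rw [zero_mul] at h1
  refine h1.congr fun τ => ?_
  rw [mul_comm, div_mul_cancel₀]
  rw [Function.Periodic.qParam]
  exact Complex.exp_ne_zero _

set_option backward.isDefEq.respectTransparency.types false in
theorem FO_T : (FO ∣[(12 : ℤ)] ModularGroup.T) = FO := by
  ext z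
  have h1 : FO ((1 : ℝ) +ᵥ z) = FO z := by
    show yO _ ^ 8 = yO _ ^ 8
    rw [UpperHalfPlane.coe_vadd, ← yO_T8 z, add_comm]
    norm_num
  rw [SL_slash_apply, modular_T_smul, h1]
  simp [denom, ModularGroup.T]

set_option backward.isDefEq.respectTransparency.types false in
theorem FO_S : (FO ∣[(12 : ℤ)] ModularGroup.S) = FO := by
  ext z
  suffices yO (-(↑z)⁻¹) ^ 8 * ((z : ℂ) ^ 12)⁻¹ = yO z ^ 8 by
    rw [SL_slash_apply, UpperHalfPlane.modular_S_smul]
    simpa [denom, ModularGroup.S, FO]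
  have h1 := yO_S8 z.2
  rw [neg_div, one_div] at h1
  have h2 : (z : ℂ) ^ 12 ≠ 0 := pow_ne_zero _ z.ne_zero
  rw [h1, mul_comm, ← mul_assoc, inv_mul_cancel₀ h2, one_mul]

/-- the cusp form -/
noncomputable def CF : CuspForm 𝒮ℒ 12 where
  toFun := FO
  slash_action_eq' A hA := by
    obtain ⟨A, rfl⟩ := hA
    exact SlashInvariantForm.slash_action_generators_SL2Z FO_S FO_T A
  holo' := by
    rw [UpperHalfPlane.mdifferentiable_iff]
    refine .congr (fun z hz ↦ (differentiableAt_yO hz).pow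
      8 |>.differentiableWithinAt) fun z hz ↦ ?_
    simp [FO, ofComplex_apply_of_im_pos hz]
  zero_at_cusps' hc := by
    rw [Subgroup.IsArithmetic.isCusp_iff_isCusp_SL2Z] at hc
    rw [OnePoint.isZeroAt_iff_forall_SL2Z hc]
    intro γ _
    rw [SlashInvariantForm.slash_action_generators_SL2Z FO_S FO_T]
    exact FO_zero

theorem FO_eq : ∀ z : ℍ, FO z = 256 * ModularForm.discriminant z := by
  obtain ⟨c, hc⟩ := CuspForm.exists_smul_discriminant_of_weight_eq_twelve CF
  have h1 : ∀ z : ℍ, FO z = c * ModularForm.discriminant z := by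
    intro z
    have h2 : (c • CuspForm.discriminant) z = CF z := by rw [hc]
    exact h2.symm
  have h2 : Tendsto (fun τ : ℍ => FO τ / Function.Periodic.qParam 1 (τ : ℂ)) atImInfty
      (𝓝 (c * 1)) := by
    refine (tendsto_atImInfty_tprod_one_sub_eta_q_pow.const_mul c).congr fun τ => ?_
    rw [h1, discriminant_eq_q_prod, mul_div_assoc, mul_div_cancel_left₀]
    rw [Function.Periodic.qParam]
    exact Complex.exp_ne_zero _
  have h3 := tendsto_nhds_unique h2 lim_FO
  intro z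
  rw [h1, ← h3, mul_one]

end OEtaAux

theorem stEtaO : StEtaO := by
  intro τ hτ
  have h := OEtaAux.FO_eq ⟨τ, hτ⟩
  show yO τ ^ 8 = 256 * RZC.LF 12 ModularForm.discriminant τ 1
  rw [RZC.LF, one_pow, inv_one, one_mul, div_one, UpperHalfPlane.ofComplex_apply_of_im_pos hτ, ← h]
  rfl

end Pool.Agent.Lib.MP_7c08ba_nt.CN
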