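import Mathlib
import Pool.Agent.Lib.MP_7c08ba_nt.CN.StOA
import Pool.Agent.Lib.MP_7c08ba_nt.CN.AFac

set_option autoImplicit false

/-!
Project CN, even `k`, analytic part: the product of two theta series (module OFac).
-/

namespace Pool.Agent.Lib.MP_7c08ba_nt.CN

open NumberField IsDedekindDomain MeasureTheory Polynomial Pool.Agent.Lib.MP_7c08ba_nt.RZ
open scoped nonZeroDivisors ComplexConjugate

namespace OFacAux

open AFacAux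

/-! ### The character modulo 4 -/

lemma c4_cases (m : ℤ) :
    (m % 2 = 0 ∧ c4 m = 0) ∨ (m % 4 = 1 ∧ c4 m = 1) ∨ (m % 4 = 3 ∧ c4 m = -1) := by
  unfold c4
  have h := ZMod.χ₄_int_eq_if_mod_four m
  rcases Int.emod_two_eq_zero_or_one m with h0 | h0
  · left
    refine ⟨h0, ?_⟩
    rw [h, if_pos h0]
    norm_num
  · right
    by_cases h1 : m % 4 = 1
    · left
      refine ⟨h1, ?_⟩
      rw [h, if_neg (by omega), if_pos h1]
      norm_num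
    · right
      refine ⟨by omega, ?_⟩
      rw [h, if_neg (by omega), if_neg h1]
      norm_num

lemma c4_one {m : ℤ} (h : m % 4 = 1) : c4 m = 1 := by
  rcases c4_cases m with h1 | h1 | h1
  · omega
  · exact h1.2
  · omega

lemma c4_three {m : ℤ} (h : m % 4 = 3) : c4 m = -1 := by
  rcases c4_cases m with h1 | h1 | h1
  · omega
  · omega
  · exact h1.2

lemma odd_of_c4 {m : ℤ} (h : c4 m ≠ 0) : m % 2 = 1 := by
  rcases c4_cases m with h1 | h1 | h1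
  · exact absurd h1.2 h
  · omega
  · omega

lemma c4_mul (a b : ℤ) : c4 (a * b) = c4 a * c4 b := by
  unfold c4
  rw [Int.cast_mul, map_mul, Int.cast_mul]

lemma norm_c4 (m : ℤ) : ‖c4 m‖ ≤ 1 := by
  rcases c4_cases m with h1 | h1 | h1 <;> rw [h1.2] <;> simp

lemma conj_c4 (m : ℤ) : conj (c4 m) = c4 m := by
  rcases c4_cases m with h1 | h1 | h1 <;> rw [h1.2] <;> simp

lemma c4_sq {m : ℤ} (h : m % 2 = 1) : c4 m * c4 m = 1 := by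
  rcases c4_cases m with h1 | h1 | h1
  · omega
  · rw [h1.2]; norm_num
  · rw [h1.2]; norm_num

/-- The sign. -/
lemma sign_eq (d₁ d₂ : ℕ) (ω A₁ A₂ U l : ℤ) (o₁ : Odd d₁) (o₂ : Odd d₂)
    (h₁ : ω - 1 = 2 * d₁ * A₁) (h₂ : ω + 1 = 2 * d₂ * A₂) :
    c4 (2 * A₂ * U + d₁ * (2 * l + 1)) * c4 (2 * A₁ * U + d₂ * (2 * l + 1)) =
      c4 (d₁ * d₂) * (-1) ^ U := by
  have hβ : ((d₁ : ℤ) * d₂) % 2 = 1 := by
    have : Odd ((d₁ : ℤ) * d₂) := by exact_mod_cast o₁.mul o₂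
    exact Int.odd_iff.1 this
  obtain ⟨V, hV⟩ : ∃ V : ℤ, V = ω * U + (d₁ * d₂) * (2 * l + 1) := ⟨_, rfl⟩
  have e1 : (d₁ * d₂ : ℤ) * ((2 * A₂ * U + d₁ * (2 * l + 1)) *
      (2 * A₁ * U + d₂ * (2 * l + 1))) = V ^ 2 - U ^ 2 := by
    have f1 : (d₂ : ℤ) * (2 * A₂ * U + d₁ * (2 * l + 1)) = V + U := by
      rw [hV]
      linear_combination (-U) * h₂
    have f2 : (d₁ : ℤ) * (2 * A₁ * U + d₂ * (2 * l + 1)) = V - U := by
      rw [hV]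
      linear_combination (-U) * h₁
    linear_combination (d₁ * (2 * A₁ * U + d₂ * (2 * l + 1))) * f1 + (V + U) * f2
  have hV2 : V % 2 = (U + 1) % 2 := by
    have g1 : ω = 1 + 2 * (d₁ * A₁) := by linear_combination h₁
    obtain ⟨k, hk⟩ : ∃ k : ℤ, (d₁ : ℤ) * d₂ = 2 * k + 1 := ⟨((d₁ : ℤ) * d₂) / 2, by omega⟩
    have g2 : V = U + 1 + 2 * (d₁ * A₁ * U + k * (2 * l + 1) + l) := by
      rw [hV, hk, g1]
      ring
    generalize (d₁ : ℤ) * A₁ * U + k * (2 * l + 1) + l = X at g2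
    omega
  have e2 : c4 (V ^ 2 - U ^ 2) = (-1) ^ U := by
    rcases Int.even_or_odd' U with ⟨u, hu | hu⟩
    · obtain ⟨v, hv⟩ : ∃ v : ℤ, V = 2 * v + 1 := ⟨V / 2, by omega⟩
      have e3 : (V ^ 2 - U ^ 2) % 4 = 1 := by
        have : V ^ 2 - U ^ 2 = 4 * (v ^ 2 + v - u ^ 2) + 1 := by rw [hv, hu]; ring
        omega
      rw [c4_one e3, Even.neg_one_zpow ⟨u, by omega⟩]
    · obtain ⟨v, hv⟩ : ∃ v : ℤ, V = 2 * v := ⟨V / 2, by omega⟩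
      have e3 : (V ^ 2 - U ^ 2) % 4 = 3 := by
        have : V ^ 2 - U ^ 2 = 4 * (v ^ 2 - u ^ 2 - u) - 1 := by rw [hv, hu]; ring
        omega
      rw [c4_three e3, Odd.neg_one_zpow ⟨u, hu⟩]
  have e4 := c4_sq hβ
  rw [← c4_mul]
  calc c4 ((2 * A₂ * U + d₁ * (2 * l + 1)) * (2 * A₁ * U + d₂ * (2 * l + 1)))
      = c4 (d₁ * d₂) * (c4 (d₁ * d₂) *
        c4 ((2 * A₂ * U + d₁ * (2 * l + 1)) * (2 * A₁ * U + d₂ * (2 * l + 1)))) := by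
        rw [← mul_assoc, e4, one_mul]
    _ = c4 (d₁ * d₂) * (-1) ^ U := by rw [← c4_mul, e1, e2]

/-! ### The theta series -/

lemma hthO_term (n q K d : ℕ) (b : ℤ) (hd : 0 < d) (m : ℤ) :
    c4 m * ((aeval (Real.sqrt (2 * Real.pi * (pt q K d b).im) * m / 2) (HP n) : ℝ) : ℂ) *
      Complex.exp (Real.pi * Complex.I * m ^ 2 * pt q K d b / 4) =
    c4 m * ((hf n (gg q K / d * (m / 2)) : ℂ) *
      ee ((m ^ 2 * b / (16 * K * d ^ 2) : ℝ) : ℂ)) := by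
  have hd' : (0 : ℝ) < d := by exact_mod_cast hd
  have h1 : Real.sqrt (2 * Real.pi * (pt q K d b).im) * m / 2 =
      Real.sqrt (2 * Real.pi) * (gg q K / d * (m / 2)) := by
    rw [pt_im, Real.sqrt_mul (by positivity)]
    have h2 : Real.sqrt q / (2 * (K * (d : ℝ) ^ 2)) = (gg q K / d) ^ 2 := by
      rw [div_pow, gg_sq]
      field_simp
    rw [h2, Real.sqrt_sq (by unfold gg; positivity)]
    ring
  have h3 : (gg q K / d * (m / 2)) ^ 2 = Real.sqrt q / (2 * K) / d ^ 2 * (m / 2) ^ 2 := by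
    rw [mul_pow, div_pow, gg_sq]
  have key : Complex.exp (Real.pi * Complex.I * m ^ 2 * pt q K d b / 4) =
      Complex.exp ((-(Real.pi * (gg q K / d * (m / 2)) ^ 2) : ℝ) : ℂ) *
        Complex.exp (2 * Real.pi * Complex.I * ((m ^ 2 * b / (16 * K * d ^ 2) : ℝ) : ℂ)) := by
    rw [← Complex.exp_add]
    congr 1
    rw [h3]
    unfold pt
    push_cast
    have hdc : (d : ℂ) ≠ 0 := by exact_mod_cast hd.ne'
    rcases Nat.eq_zero_or_pos K with hK | hK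
    · subst hK
      simp
    have hKc : (K : ℂ) ≠ 0 := by exact_mod_cast hK.ne'
    field_simp
    linear_combination (64 * (m : ℂ) ^ 2 * (Real.sqrt q : ℂ)) * Complex.I_sq
  rw [h1, key, mul_assoc]
  congr 1
  unfold hf ee
  rw [Complex.ofReal_mul, Complex.ofReal_exp]
  ring

/-- The terms of the theta series. -/
noncomputable def ftO (n q K d : ℕ) (b : ℤ) (m : ℤ) : ℂ :=
  c4 m * ((hf n (gg q K / d * (m / 2)) : ℂ) * ee ((m ^ 2 * b / (16 * K * d ^ 2) : ℝ) : ℂ))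

lemma hthO_eq (n q K d : ℕ) (b : ℤ) (hd : 0 < d) :
    hthO n (pt q K d b) = ∑' m : ℤ, ftO n q K d b m :=
  tsum_congr fun m => hthO_term n q K d b hd m

lemma ftO_sum (n : ℕ) {q K d : ℕ} (b : ℤ) (hq : 0 < q) (hK : 0 < K) (hd : 0 < d) :
    Summable fun m => ‖ftO n q K d b m‖ := by
  have hd' : (0 : ℝ) < d := by exact_mod_cast hd
  have h := hf_sum n (g := gg q K / d / 2)
    (div_pos (div_pos (gg_pos hq hK) hd') two_pos).ne'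
  refine Summable.of_nonneg_of_le (fun m => norm_nonneg _) (fun m => ?_) h
  unfold ftO
  rw [norm_mul, norm_mul, norm_ee_real, mul_one, Complex.norm_real]
  have e : gg q K / d * (m / 2) = gg q K / d / 2 * m := by ring
  rw [e]
  calc ‖c4 m‖ * ‖hf n (gg q K / d / 2 * m)‖ ≤ 1 * ‖hf n (gg q K / d / 2 * m)‖ :=
        mul_le_mul_of_nonneg_right (norm_c4 m) (norm_nonneg _)
    _ = _ := one_mul _

/-- The terms after the change of variables. -/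
lemma termO (n q K d₁ d₂ : ℕ) (b ω A₁ A₂ : ℤ) (hK : 0 < K) (hd₁ : 0 < d₁) (hd₂ : 0 < d₂)
    (h₁ : ω - 1 = 2 * d₁ * A₁) (h₂ : ω + 1 = 2 * d₂ * A₂) (U l : ℤ) :
    ftO n q K d₁ b (2 * A₂ * U + d₁ * (2 * l + 1)) *
        conj (ftO n q K d₂ b (2 * A₁ * U + d₂ * (2 * l + 1))) =
      c4 (2 * A₂ * U + d₁ * (2 * l + 1)) * c4 (2 * A₁ * U + d₂ * (2 * l + 1)) *
      (((hf n (gg q K * ((ω * U / (2 * (d₁ * d₂)) + 1 / 2 : ℝ) + l +
            (U / (d₁ * d₂) : ℝ) / 2)) *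
        hf n (gg q K * ((ω * U / (2 * (d₁ * d₂)) + 1 / 2 : ℝ) + l -
            (U / (d₁ * d₂) : ℝ) / 2)) : ℝ) : ℂ) *
        ee (((b * U / (2 * K * (d₁ * d₂)) : ℝ) : ℂ) *
          (((ω * U / (2 * (d₁ * d₂)) + 1 / 2 : ℝ) : ℂ) + (l : ℂ)))) := by
  have hd₁' : (d₁ : ℝ) ≠ 0 := by exact_mod_cast hd₁.ne'
  have hd₂' : (d₂ : ℝ) ≠ 0 := by exact_mod_cast hd₂.ne'
  have hK' : (K : ℝ) ≠ 0 := by exact_mod_cast hK.ne'
  have e₁ : (A₁ : ℝ) = (ω - 1) / (2 * d₁) := by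
    have h : ((ω : ℝ) - 1) = 2 * d₁ * A₁ := by exact_mod_cast h₁
    rw [h]
    field_simp
  have e₂ : (A₂ : ℝ) = (ω + 1) / (2 * d₂) := by
    have h : ((ω : ℝ) + 1) = 2 * d₂ * A₂ := by exact_mod_cast h₂
    rw [h]
    field_simp
  have f₁ : gg q K / d₁ * (((2 * A₂ * U + d₁ * (2 * l + 1) : ℤ) : ℝ) / 2) =
      gg q K * ((ω * U / (2 * (d₁ * d₂)) + 1 / 2 : ℝ) + l + (U / (d₁ * d₂) : ℝ) / 2) := by
    push_cast
    rw [e₂]
    field_simp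
    ring
  have f₂ : gg q K / d₂ * (((2 * A₁ * U + d₂ * (2 * l + 1) : ℤ) : ℝ) / 2) =
      gg q K * ((ω * U / (2 * (d₁ * d₂)) + 1 / 2 : ℝ) + l - (U / (d₁ * d₂) : ℝ) / 2) := by
    push_cast
    rw [e₁]
    field_simp
    ring
  unfold ftO
  rw [map_mul, map_mul, Complex.conj_ofReal, conj_ee, conj_c4, f₁, f₂]
  have e3 : ∀ s x y t z w : ℂ, s * (x * y) * (t * (z * w)) = s * t * (x * z * (y * w)) :=
    fun s x y t z w => by ring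
  rw [e3, ee_add, ← Complex.ofReal_mul, ← Complex.ofReal_add]
  congr 3
  have f3 : ((2 * A₂ * U + d₁ * (2 * l + 1) : ℤ) : ℝ) ^ 2 * b / (16 * K * d₁ ^ 2) +
      -(((2 * A₁ * U + d₂ * (2 * l + 1) : ℤ) : ℝ) ^ 2 * b / (16 * K * d₂ ^ 2)) =
      (b * U / (2 * K * (d₁ * d₂)) : ℝ) * ((ω * U / (2 * (d₁ * d₂)) + 1 / 2 : ℝ) + l) := by
    push_cast
    rw [e₁, e₂]
    field_simp
    ring
  rw [f3]
  push_cast
  ring

/-- The change of variables. -/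
def Ph (A₁ A₂ d₁ d₂ : ℤ) (p : ℤ × ℤ) : ℤ × ℤ :=
  (2 * A₂ * p.1 + d₁ * (2 * p.2 + 1), 2 * A₁ * p.1 + d₂ * (2 * p.2 + 1))

lemma Ph_inj {A₁ A₂ d₁ d₂ : ℤ} (h : A₂ * d₂ - A₁ * d₁ = 1) :
    Function.Injective (Ph A₁ A₂ d₁ d₂) := by
  rintro ⟨U, l⟩ ⟨U', l'⟩ hp
  unfold Ph at hp
  have h1 := congrArg Prod.fst hp
  have h2 := congrArg Prod.snd hp
  simp only at h1 h2
  have g1 : 2 * U = 2 * U' := by
    linear_combination d₂ * h1 - d₁ * h2 - (2 * U - 2 * U') * h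
  have g2 : 2 * l = 2 * l' := by
    linear_combination A₂ * h2 - A₁ * h1 - (2 * l - 2 * l') * h
  rw [mul_left_cancel₀ two_ne_zero g1, mul_left_cancel₀ two_ne_zero g2]

lemma Ph_surj {A₁ A₂ d₁ d₂ : ℤ} (h : A₂ * d₂ - A₁ * d₁ = 1) (o₁ : d₁ % 2 = 1)
    (o₂ : d₂ % 2 = 1) {r : ℤ × ℤ} (h1 : r.1 % 2 = 1) (h2 : r.2 % 2 = 1) :
    r ∈ Set.range (Ph A₁ A₂ d₁ d₂) := by
  obtain ⟨m₁, m₂⟩ := r
  simp only at h1 h2
  obtain ⟨a, ha⟩ : ∃ a, d₁ = 2 * a + 1 := ⟨d₁ / 2, by omega⟩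
  obtain ⟨c, hc⟩ : ∃ c, d₂ = 2 * c + 1 := ⟨d₂ / 2, by omega⟩
  obtain ⟨x, hx⟩ : ∃ x, m₁ = 2 * x + 1 := ⟨m₁ / 2, by omega⟩
  obtain ⟨y, hy⟩ : ∃ y, m₂ = 2 * y + 1 := ⟨m₂ / 2, by omega⟩
  have hA : A₂ - A₁ = 1 - 2 * (A₂ * c - A₁ * a) := by
    rw [ha, hc] at h
    linear_combination h
  obtain ⟨U, hU⟩ : ∃ U : ℤ, 2 * U = d₂ * m₁ - d₁ * m₂ :=
    ⟨2 * c * x + c + x - 2 * a * y - a - y, by rw [ha, hc, hx, hy]; ring⟩
  obtain ⟨l, hl⟩ : ∃ l : ℤ, 2 * l + 1 = A₂ * m₂ - A₁ * m₁ :=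
    ⟨A₂ * y - A₁ * x - (A₂ * c - A₁ * a), by rw [hx, hy]; linear_combination -hA⟩
  refine ⟨(U, l), ?_⟩
  unfold Ph
  ext
  · show 2 * A₂ * U + d₁ * (2 * l + 1) = m₁
    linear_combination A₂ * hU + d₁ * hl + m₁ * h
  · show 2 * A₁ * U + d₂ * (2 * l + 1) = m₂
    linear_combination A₁ * hU + d₂ * hl + m₂ * h

lemma ee_half (z : ℤ) (x : ℝ) :
    ee (z * ((x + 1 / 2 : ℝ) : ℂ)) = (-1) ^ z * ee (z * (x : ℂ)) := by
  unfold ee
  have e1 : 2 * (Real.pi : ℂ) * Complex.I * (z * ((x + 1 / 2 : ℝ) : ℂ)) =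
      z * ((Real.pi : ℂ) * Complex.I) + 2 * (Real.pi : ℂ) * Complex.I * (z * (x : ℂ)) := by
    push_cast
    ring
  rw [e1, Complex.exp_add, Complex.exp_int_mul, Complex.exp_pi_mul_I]

end OFacAux

open AFacAux OFacAux in
/-- (FacO) the product of two theta series -/
theorem stFacO (h : StPoiH) (h2 : StFac) : StFacO := by
  intro n q K d₁ d₂ b ω hq hK o₁ o₂ hω₁ hω₂
  have hd₁ : 0 < d₁ := o₁.pos
  have hd₂ : 0 < d₂ := o₂.pos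
  have hS := (h2 n q K d₁ d₂ b ω hq hK hd₁ hd₂ hω₁ hω₂).1
  obtain ⟨A₁, hA₁⟩ := hω₁
  obtain ⟨A₂, hA₂⟩ := hω₂
  have hd : 0 < d₁ * d₂ := Nat.mul_pos hd₁ hd₂
  have hd' : (0 : ℝ) < (d₁ * d₂ : ℕ) := by exact_mod_cast hd
  have hq' : (0 : ℝ) < q := by exact_mod_cast hq
  obtain ⟨G, hG⟩ : ∃ G : ℤ × ℤ → ℂ, G = fun p => (-1 : ℂ) ^ (p.1 + p.2) *
      (lag n (4 * Real.pi * Qz q K (d₁ * d₂) b p *
      (1 / (2 * (d₁ * d₂ : ℕ) * Real.sqrt q) : ℝ)) *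
        ee (Complex.I * Qz q K (d₁ * d₂) b p * (1 / (2 * (d₁ * d₂ : ℕ) * Real.sqrt q) : ℝ)) *
        ee ((p.1 * ω * p.2 : ℤ) / (2 * (d₁ * d₂ : ℕ)))) := ⟨_, rfl⟩
  have hGS : Summable G := by
    refine Summable.of_norm (hS.congr fun p => ?_)
    rw [hG]
    simp only
    rw [norm_mul ((-1 : ℂ) ^ _), norm_zpow, norm_neg, norm_one, one_zpow, one_mul,
      norm_mul (_ * _)]
    have e1 : (((p.1 * ω * p.2 : ℤ) : ℂ) / (2 * (d₁ * d₂ : ℕ))) =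
        (((p.1 * ω * p.2 : ℤ) / (2 * (d₁ * d₂ : ℕ)) : ℝ) : ℂ) := by push_cast; ring
    rw [e1, norm_ee_real, mul_one]
  have hdet : A₂ * d₂ - A₁ * d₁ = 1 := by
    have h1 : 2 * (A₂ * d₂ - A₁ * d₁) = 2 * 1 := by linear_combination hA₁ - hA₂
    exact mul_left_cancel₀ two_ne_zero h1
  have o₁' : (d₁ : ℤ) % 2 = 1 := by
    have : Odd (d₁ : ℤ) := by exact_mod_cast o₁
    exact Int.odd_iff.1 this
  have o₂' : (d₂ : ℤ) % 2 = 1 := by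
    have : Odd (d₂ : ℤ) := by exact_mod_cast o₂
    exact Int.odd_iff.1 this
  have hinj := Ph_inj hdet
  -- the product of the series
  have hf₁ := ftO_sum n b hq hK hd₁
  have hf₂ := ftO_sum n b hq hK hd₂
  have hf₂' : Summable fun m => ‖conj (ftO n q K d₂ b m)‖ := by
    refine hf₂.congr fun m => ?_
    rw [RCLike.norm_conj]
  have hsupp : Function.support (fun r : ℤ × ℤ => ftO n q K d₁ b r.1 *
      conj (ftO n q K d₂ b r.2)) ⊆ Set.range (Ph A₁ A₂ d₁ d₂) := by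
    intro r hr
    rw [Function.mem_support] at hr
    have g1 : c4 r.1 ≠ 0 := by
      intro h0
      apply hr
      unfold ftO
      rw [h0, zero_mul, zero_mul]
    have g2 : c4 r.2 ≠ 0 := by
      intro h0
      apply hr
      unfold ftO
      rw [h0, zero_mul, map_zero, mul_zero]
    exact Ph_surj hdet o₁' o₂' (odd_of_c4 g1) (odd_of_c4 g2)
  have e0 : ∑' p : ℤ × ℤ, ftO n q K d₁ b (Ph A₁ A₂ d₁ d₂ p).1 *
      conj (ftO n q K d₂ b (Ph A₁ A₂ d₁ d₂ p).2) =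
      ∑' r : ℤ × ℤ, ftO n q K d₁ b r.1 * conj (ftO n q K d₂ b r.2) := hinj.tsum_eq hsupp
  rw [hthO_eq n q K d₁ b hd₁, hthO_eq n q K d₂ b hd₂, Complex.conj_tsum,
    tsum_mul_tsum_of_summable_norm hf₁ hf₂', ← e0]
  have hFS : Summable fun p : ℤ × ℤ => ftO n q K d₁ b (Ph A₁ A₂ d₁ d₂ p).1 *
      conj (ftO n q K d₂ b (Ph A₁ A₂ d₁ d₂ p).2) :=
    (summable_mul_of_summable_norm hf₁ hf₂').comp_injective hinj
  rw [hFS.tsum_prod]
  have hrow : ∀ U : ℤ, ∑' l : ℤ, ftO n q K d₁ b (Ph A₁ A₂ d₁ d₂ (U, l)).1 *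
      conj (ftO n q K d₂ b (Ph A₁ A₂ d₁ d₂ (U, l)).2) =
      c4 (d₁ * d₂) * (Real.sqrt K * 2 ^ n * n.factorial / Real.sqrt (Real.sqrt q)) *
        ∑' z : ℤ, G (z, U) := by
    intro U
    have e1 : ∀ l : ℤ, ftO n q K d₁ b (Ph A₁ A₂ d₁ d₂ (U, l)).1 *
        conj (ftO n q K d₂ b (Ph A₁ A₂ d₁ d₂ (U, l)).2) = _ := fun l =>
      (termO n q K d₁ d₂ b ω A₁ A₂ hK hd₁ hd₂ hA₁ hA₂ U l).trans
        (congrArg (· * _) (sign_eq d₁ d₂ ω A₁ A₂ U l o₁ o₂ hA₁ hA₂))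
    rw [tsum_congr e1, tsum_mul_left]
    have h1 := (h n (gg q K) (U / (d₁ * d₂)) (b * U / (2 * K * (d₁ * d₂)))
      (ω * U / (2 * (d₁ * d₂)) + 1 / 2) (gg_pos hq hK)).2.2
    rw [h1, mul_assoc, mul_assoc (c4 _)]
    congr 1
    refine (tsum_mul_left.symm.trans ?_).trans tsum_mul_left
    refine tsum_congr fun z => ?_
    have h2 := LG_term n q K (d₁ * d₂) b z U hq hK hd
    rw [hG]
    simp only
    rw [ee_half, zpow_add₀ (by norm_num : (-1 : ℂ) ≠ 0)]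
    have e4 : ((Real.sqrt K : ℂ) * 2 ^ n * n.factorial / Real.sqrt (Real.sqrt q)) *
        ((-1) ^ z * (-1) ^ U * (lag n (4 * Real.pi * Qz q K (d₁ * d₂) b (z, U) *
          (1 / (2 * (d₁ * d₂ : ℕ) * Real.sqrt q) : ℝ)) *
        ee (Complex.I * Qz q K (d₁ * d₂) b (z, U) *
          (1 / (2 * (d₁ * d₂ : ℕ) * Real.sqrt q) : ℝ)) *
        ee ((z * ω * U : ℤ) / (2 * (d₁ * d₂ : ℕ))))) =
        (-1) ^ U * ((((gg q K : ℝ) : ℂ)⁻¹ * LG n (gg q K * (U / (d₁ * d₂ : ℕ)))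
          ((z - b * U / (2 * K * (d₁ * d₂ : ℕ))) / gg q K)) * ((-1) ^ z *
            ee ((z * ω * U : ℤ) / (2 * (d₁ * d₂ : ℕ))))) := by
      rw [h2]
      ring
    rw [e4]
    push_cast
    congr 4
    ring
  rw [tsum_congr hrow, tsum_mul_left]
  congr 1
  have hG' : Summable fun p : ℤ × ℤ => G ((Equiv.prodComm ℤ ℤ) p) :=
    ((Equiv.prodComm ℤ ℤ).summable_iff).2 hGS
  have e2 := hG'.tsum_prod
  rw [(Equiv.prodComm ℤ ℤ).tsum_eq G] at e2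
  have e3 : ∀ N : ℤ, ∑' z : ℤ, G ((Equiv.prodComm ℤ ℤ) (N, z)) = ∑' z : ℤ, G (z, N) :=
    fun N => rfl
  rw [tsum_congr e3] at e2
  rw [← e2, hG]

end Pool.Agent.Lib.MP_7c08ba_nt.CN
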