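import Pool.Agent.Lib.MP_7c08ba_nt.CN.StOP
import Pool.Agent.Lib.MP_7c08ba_nt.RZ.C.All

set_option autoImplicit false

/-! Project CN, even `k`, (FldO): the lattices of the ideals. -/

namespace Pool.Agent.Lib.MP_7c08ba_nt.CN

open NumberField IsDedekindDomain UpperHalfPlane ModularForm EisensteinSeries RZC
open scoped nonZeroDivisors ComplexConjugate MatrixGroups

namespace OFldAux

/-- a power series of order one over a field is transcendental -/
theorem eq_zero_of_aeval {K : Type*} [Field K] {x : PowerSeries K}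
    (h0 : PowerSeries.constantCoeff x = 0) (hx : x ≠ 0) :
    ∀ (n : ℕ) (G : Polynomial K), G.natDegree ≤ n → Polynomial.aeval x G = 0 → G = 0 := by
  have hc : ∀ G : Polynomial K, PowerSeries.constantCoeff (Polynomial.aeval x G) = G.coeff 0 := by
    intro G
    rw [Polynomial.aeval_def, Polynomial.hom_eval₂, h0, Polynomial.eval₂_at_zero]
    simp
  intro n
  induction n with
  | zero =>
    intro G hG h
    have h1 := hc G
    rw [h, map_zero] at h1
    rw [Polynomial.eq_C_of_natDegree_le_zero hG, ← h1, map_zero]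
  | succ n ih =>
    intro G hG h
    have h1 := hc G
    rw [h, map_zero] at h1
    have h2 := Polynomial.divX_mul_X_add G
    rw [← h1, map_zero, add_zero] at h2
    have h3 : Polynomial.aeval x G.divX = 0 := by
      rw [← h2, map_mul, Polynomial.aeval_X] at h
      exact (mul_eq_zero.1 h).resolve_right hx
    have h4 : G.divX.natDegree ≤ n := by
      rw [Polynomial.natDegree_divX_eq_natDegree_tsub_one]
      omega
    rw [← h2, ih _ h4 h3, zero_mul]

/-- reduction modulo 2 -/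
noncomputable def red : PowerSeries ℤ →+* PowerSeries (ZMod 2) :=
  PowerSeries.map (Int.castRingHom (ZMod 2))

theorem red_two : red 2 = 0 := by
  rw [map_ofNat, show (2 : PowerSeries (ZMod 2)) = PowerSeries.C (2 : ZMod 2) from
    (map_ofNat PowerSeries.C 2).symm, show (2 : ZMod 2) = 0 from rfl, map_zero]

theorem red_P2 : red P2 = 1 := by
  rw [P2, show (24 : PowerSeries ℤ) = 2 * 12 by norm_num, map_sub, map_mul, map_mul, red_two,
    zero_mul, zero_mul, sub_zero, map_one]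

theorem red_Q4 : red Q4 = 1 := by
  rw [Q4, show (240 : PowerSeries ℤ) = 2 * 120 by norm_num, map_add, map_mul, map_mul, red_two,
    zero_mul, zero_mul, add_zero, map_one]

theorem red_R6 : red R6 = 1 := by
  rw [R6, show (504 : PowerSeries ℤ) = 2 * 252 by norm_num, map_sub, map_mul, map_mul, red_two,
    zero_mul, zero_mul, sub_zero, map_one]

theorem red_aeval (x : PowerSeries ℤ) (F : Polynomial ℤ) :
    red (Polynomial.aeval x F) = Polynomial.aeval (red x) (F.map (Int.castRingHom (ZMod 2))) := by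
  rw [Polynomial.aeval_def, Polynomial.aeval_def, Polynomial.hom_eval₂, Polynomial.eval₂_map]
  congr 1
  ext n
  simp

/-- the polynomial of `StApp` is `1` modulo 2 -/
theorem poly_mod {F : Polynomial ℤ} {x z : PowerSeries ℤ} (hx : x * Q4 ^ 3 = D12)
    (h : P2 * R6 = Q4 ^ 2 * (Polynomial.aeval x F + 2 ^ 1 * z)) :
    ∃ G : Polynomial ℤ, F = 1 + 2 * G := by
  have h1 : red x = red D12 := by
    have := congrArg red hx
    rwa [map_mul, map_pow, red_Q4, one_pow, mul_one] at this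
  have h2 : Polynomial.aeval (red x) (F.map (Int.castRingHom (ZMod 2))) = 1 := by
    have := congrArg red h
    rw [map_mul, map_mul, map_pow, red_P2, red_Q4, red_R6, map_add, map_mul, map_pow, red_two,
      red_aeval] at this
    simpa using this.symm
  have h3 : PowerSeries.constantCoeff (red x) = 0 := by
    rw [h1, ← PowerSeries.coeff_zero_eq_constantCoeff_apply]
    unfold red
    rw [PowerSeries.coeff_map, stEis.2.1, map_zero]
  have h4 : red x ≠ 0 := by
    intro h0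
    have h5 : (red D12).coeff 1 = 1 := by
      unfold red
      rw [PowerSeries.coeff_map, stEis.2.2.1, map_one]
    rw [← h1, h0, map_zero] at h5
    exact zero_ne_one h5
  have h5 : F.map (Int.castRingHom (ZMod 2)) - 1 = 0 := by
    refine eq_zero_of_aeval h3 h4 _ _ le_rfl ?_
    rw [map_sub, h2, map_one, sub_self]
  have h6 : Polynomial.C (2 : ℤ) ∣ F - 1 := by
    rw [Polynomial.C_dvd_iff_dvd_coeff]
    intro n
    have h7 := congrArg (fun G => Polynomial.coeff G n) h5
    have h8 : ((F - 1).map (Int.castRingHom (ZMod 2))).coeff n = 0 := by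
      rw [Polynomial.map_sub, Polynomial.map_one]
      simpa using h7
    rw [Polynomial.coeff_map] at h8
    have := (ZMod.intCast_zmod_eq_zero_iff_dvd ((F - 1).coeff n) 2).1 (by simpa using h8)
    exact_mod_cast this
  obtain ⟨G, hG⟩ := h6
  refine ⟨G, ?_⟩
  have h9 : (Polynomial.C (2 : ℤ) : Polynomial ℤ) = 2 := rfl
  rw [h9] at hG
  rw [← hG]
  ring

theorem aeval_mem {A : ValuationSubring ℂ} {x : ℂ} (hx : x ∈ A) (G : Polynomial ℤ) :
    Polynomial.aeval x G ∈ A := by
  rw [Polynomial.aeval_eq_sum_range]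
  refine A.toSubring.sum_mem fun i _ => ?_
  rw [zsmul_eq_mul]
  exact A.mul_mem _ _ (int_mem _) (A.toSubring.pow_mem hx i)

end OFldAux

open OFldAux in
/-- (FldO) -/
theorem stFldO : StFldO := by
  intro q F _ _ s σ A hF hA a w₁ w₂ ha hw
  obtain ⟨P, hP, hPn, hPu⟩ := stUnit q F s hF σ A hA
  have hP0 : P ≠ ⊥ := by
    rintro rfl
    simp at hPn
  have hPz : P ∈ (Ideal (𝓞 F))⁰ := mem_nonZeroDivisors_of_ne_zero hP0
  set m : ℕ := Fintype.card (ClassGroup (𝓞 F)) with hm
  have hmodd : Odd m := stClass q F s hF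
  have hm0 : 0 < m := hmodd.pos
  obtain ⟨x, hx⟩ : ∃ x : 𝓞 F, P ^ m = Ideal.span {x} := by
    have h : ClassGroup.mk0 (⟨P ^ m, pow_mem hPz m⟩ : (Ideal (𝓞 F))⁰) = 1 := by
      have h' : (⟨P ^ m, pow_mem hPz m⟩ : (Ideal (𝓞 F))⁰) = ⟨P, hPz⟩ ^ m := rfl
      rw [h', map_pow, hm, pow_card_eq_one]
    obtain ⟨x, hx⟩ := (ClassGroup.mk0_eq_one_iff _).mp h
    exact ⟨x, hx⟩
  have hU : UnitC A m (σ (x : F)) := hPu m x hmodd hx
  obtain ⟨u, v, hc, hb⟩ := pChain q F s hF σ P hP hPn m x hm0 hx a ha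
  have hbm : IsB σ a (u m) (v m) := by
    have := hb m le_rfl
    rwa [Nat.sub_self, pow_zero, one_mul] at this
  have hl := SumAux.IsB.lat_eq hw hbm
  have hpos := hw.1
  have hpos' := hbm.1
  have e4' : e4 w₁ w₂ = e4 (u m) (v m) := SumAux.e4_congr stLat hpos hpos' hl
  have e6' : e6 w₁ w₂ = e6 (u m) (v m) := stLat 6 E₆ _ _ _ _ hpos hpos' hl
  have jv' : jv w₁ w₂ = jv (u m) (v m) := SumAux.jv_congr stLat hpos hpos' hl
  have hO : Ord A w₁ w₂ := by
    obtain ⟨-, h1, h2⟩ := ((pOrdC A hA m _ u v hm0 hc hU).1 m).1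
    exact ⟨hpos, by rw [e4']; exact h1, by rw [jv']; exact h2⟩
  -- the quotient `e6 ^ 2 / e4 ^ 3`
  have h63 : e6 w₁ w₂ ^ 2 / e4 w₁ w₂ ^ 3 - 1 ∈ A.nonunits := by
    have h1 := (pLevel w₁ w₂ hpos).2.2.2.1
    have h2 : e6 w₁ w₂ ^ 2 / e4 w₁ w₂ ^ 3 - 1 = -((((1728 : ℤ) : ℂ)) * jv w₁ w₂) := by
      have h3 : e4 w₁ w₂ ^ 3 ≠ 0 := pow_ne_zero _ hO.2.1
      unfold jv
      rw [eq_neg_iff_add_eq_zero, mul_div_assoc', sub_add_eq_add_sub, ← add_div, sub_eq_zero,
        div_eq_one_iff_eq h3]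
      push_cast
      linear_combination h1
    rw [h2]
    exact nonunits_neg (nonunits_mul_right (even_nonunits hA (by decide)) hO.2.2)
  have h6 : e6 w₁ w₂ ≠ 0 := by
    intro h
    have h1 := (unit_of_sub_one h63).2.2.1
    rw [h] at h1
    simp at h1
  refine ⟨hO, h6, h63, ?_⟩
  -- the quotient `E2s e6 / e4 ^ 2`
  obtain ⟨G, hG, y, z, hy, hz⟩ := pApp A hA m _ u v hm0 hc hU 1
  obtain ⟨G', rfl⟩ := poly_mod hy hz
  have h1 := hG m
  rw [← e4', ← e6', ← jv', ← stE2Lat _ _ _ _ hpos hpos' hl] at h1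
  have h2 : Polynomial.aeval (jv w₁ w₂) (1 + 2 * G') =
      1 + 2 * Polynomial.aeval (jv w₁ w₂) G' := by
    rw [map_add, map_mul, map_one, map_ofNat]
  rw [h2] at h1
  have h3 : E2s w₁ w₂ * e6 w₁ w₂ / e4 w₁ w₂ ^ 2 - 1 =
      2 * ((E2s w₁ w₂ * e6 w₁ w₂ / e4 w₁ w₂ ^ 2 - (1 + 2 * Polynomial.aeval (jv w₁ w₂) G')) /
        2 ^ 1 + Polynomial.aeval (jv w₁ w₂) G') := by
    ring
  rw [h3]
  exact nonunits_mul_right hA (A.add_mem _ _ h1 (aeval_mem hO.2.2 G'))

end Pool.Agent.Lib.MP_7c08ba_nt.CN
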