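import Pool.Agent.Lib.MP_7c08ba_nt.CN.StOA
import Pool.Agent.Lib.MP_7c08ba_nt.RZ.EisAt

set_option autoImplicit false

/-!
Project CN, even `k`, module OHk: the Hecke relation at 2 for the Eisenstein series at `s = -r`.
-/

namespace Pool.Agent.Lib.MP_7c08ba_nt.CN

open Pool.Agent.Lib.MP_7c08ba_nt.RZ

namespace OHkAux

/-- the double series -/
noncomputable def SS (c g : ℕ → ℂ) : ℂ :=
  ∑' p : ℕ × ℕ, c (p.2 + 1) * g ((p.1 + 1) * (p.2 + 1))

/-- The Hecke relation at 2 for a double series. -/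
theorem rel (c g : ℕ → ℂ) (hc : ∀ b, c (2 * b) = c b)
    (hs : Summable fun p : ℕ × ℕ => c (p.2 + 1) * g ((p.1 + 1) * (p.2 + 1))) :
    SS c g + SS c (fun N => (-1) ^ N * g N) + 2 * SS c (fun N => g (4 * N)) =
      4 * SS c (fun N => g (2 * N)) := by
  classical
  set H : ℕ × ℕ → ℂ := fun p => c (p.2 + 1) * g ((p.1 + 1) * (p.2 + 1)) with hH
  set G1 : ℕ × ℕ → ℂ := Set.indicator {p | Odd p.1} H with hG1
  set G2 : ℕ × ℕ → ℂ := Set.indicator {p | Odd p.2} H with hG2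
  set G3 : ℕ × ℕ → ℂ := Set.indicator {p | Odd p.1 ∧ Odd p.2} H with hG3
  have s1 : Summable G1 := hs.indicator _
  have s2 : Summable G2 := hs.indicator _
  have s3 : Summable G3 := hs.indicator _
  have s4 : Summable fun p : ℕ × ℕ => c (p.2 + 1) * ((-1) ^ ((p.1 + 1) * (p.2 + 1)) *
      g ((p.1 + 1) * (p.2 + 1))) := by
    refine Summable.of_norm_bounded hs.norm fun p => ?_
    rw [norm_mul, norm_mul, norm_mul, norm_pow, norm_neg, norm_one, one_pow, one_mul]
  have e1 : SS c (fun N => g (2 * N)) = ∑' p, G1 p := by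
    have hinj : Function.Injective fun p : ℕ × ℕ => (2 * p.1 + 1, p.2) := by
      rintro ⟨a, b⟩ ⟨a', b'⟩ h
      simp only [Prod.mk.injEq] at h ⊢
      omega
    rw [← hinj.tsum_eq]
    · unfold SS
      refine tsum_congr fun p => ?_
      have hm : (2 * p.1 + 1, p.2) ∈ {p : ℕ × ℕ | Odd p.1} := ⟨p.1, rfl⟩
      rw [hG1, Set.indicator_of_mem hm, hH]
      simp only
      congr 2
      ring
    · intro p hp
      have hm : p ∈ {p : ℕ × ℕ | Odd p.1} := by
        by_contra hn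
        exact hp (Set.indicator_of_notMem hn _)
      obtain ⟨a, ha⟩ := hm
      exact ⟨(a, p.2), Prod.ext ha.symm rfl⟩
  have e2 : SS c (fun N => g (2 * N)) = ∑' p, G2 p := by
    have hinj : Function.Injective fun p : ℕ × ℕ => (p.1, 2 * p.2 + 1) := by
      rintro ⟨a, b⟩ ⟨a', b'⟩ h
      simp only [Prod.mk.injEq] at h ⊢
      omega
    rw [← hinj.tsum_eq]
    · unfold SS
      refine tsum_congr fun p => ?_
      have hm : (p.1, 2 * p.2 + 1) ∈ {p : ℕ × ℕ | Odd p.2} := ⟨p.2, rfl⟩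
      rw [hG2, Set.indicator_of_mem hm, hH]
      simp only
      rw [show 2 * p.2 + 1 + 1 = 2 * (p.2 + 1) by ring, hc]
      congr 2
      ring
    · intro p hp
      have hm : p ∈ {p : ℕ × ℕ | Odd p.2} := by
        by_contra hn
        exact hp (Set.indicator_of_notMem hn _)
      obtain ⟨a, ha⟩ := hm
      exact ⟨(p.1, a), Prod.ext rfl ha.symm⟩
  have e3 : SS c (fun N => g (4 * N)) = ∑' p, G3 p := by
    have hinj : Function.Injective fun p : ℕ × ℕ => (2 * p.1 + 1, 2 * p.2 + 1) := by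
      rintro ⟨a, b⟩ ⟨a', b'⟩ h
      simp only [Prod.mk.injEq] at h ⊢
      omega
    rw [← hinj.tsum_eq]
    · unfold SS
      refine tsum_congr fun p => ?_
      have hm : (2 * p.1 + 1, 2 * p.2 + 1) ∈ {p : ℕ × ℕ | Odd p.1 ∧ Odd p.2} :=
        ⟨⟨p.1, rfl⟩, ⟨p.2, rfl⟩⟩
      rw [hG3, Set.indicator_of_mem hm, hH]
      simp only
      rw [show 2 * p.2 + 1 + 1 = 2 * (p.2 + 1) by ring, hc]
      congr 2
      ring
    · intro p hp
      have hm : p ∈ {p : ℕ × ℕ | Odd p.1 ∧ Odd p.2} := by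
        by_contra hn
        exact hp (Set.indicator_of_notMem hn _)
      obtain ⟨⟨a, ha⟩, ⟨b, hb⟩⟩ := hm
      exact ⟨(a, b), Prod.ext ha.symm hb.symm⟩
  have e4 : SS c g + SS c (fun N => (-1) ^ N * g N) =
      2 * (∑' p, G1 p + ∑' p, G2 p - ∑' p, G3 p) := by
    unfold SS
    rw [← hs.tsum_add s4, ← s1.tsum_add s2, ← (s1.add s2).tsum_sub s3, ← tsum_mul_left]
    refine tsum_congr fun p => ?_
    rcases Nat.even_or_odd p.1 with h1 | h1
    · have n1 : ¬ Odd p.1 := Nat.not_odd_iff_even.2 h1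
      have a1 : p ∉ {p : ℕ × ℕ | Odd p.1} := n1
      have a3 : p ∉ {p : ℕ × ℕ | Odd p.1 ∧ Odd p.2} := fun h => n1 h.1
      rw [hG1, hG3, Set.indicator_of_notMem a1, Set.indicator_of_notMem a3]
      rcases Nat.even_or_odd p.2 with h2 | h2
      · have n2 : ¬ Odd p.2 := Nat.not_odd_iff_even.2 h2
        have a2 : p ∉ {p : ℕ × ℕ | Odd p.2} := n2
        rw [hG2, Set.indicator_of_notMem a2]
        have ho : Odd ((p.1 + 1) * (p.2 + 1)) := h1.add_one.mul h2.add_one
        rw [ho.neg_one_pow]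
        ring
      · have a2 : p ∈ {p : ℕ × ℕ | Odd p.2} := h2
        rw [hG2, Set.indicator_of_mem a2]
        have ho : Even ((p.1 + 1) * (p.2 + 1)) := h2.add_one.mul_left _
        rw [ho.neg_one_pow, hH]
        ring
    · have a1 : p ∈ {p : ℕ × ℕ | Odd p.1} := h1
      have ho : Even ((p.1 + 1) * (p.2 + 1)) := h1.add_one.mul_right _
      rw [hG1, Set.indicator_of_mem a1, ho.neg_one_pow]
      rcases Nat.even_or_odd p.2 with h2 | h2
      · have n2 : ¬ Odd p.2 := Nat.not_odd_iff_even.2 h2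
        have a2 : p ∉ {p : ℕ × ℕ | Odd p.2} := n2
        have a3 : p ∉ {p : ℕ × ℕ | Odd p.1 ∧ Odd p.2} := fun h => n2 h.2
        rw [hG2, hG3, Set.indicator_of_notMem a2, Set.indicator_of_notMem a3, hH]
        ring
      · have a2 : p ∈ {p : ℕ × ℕ | Odd p.2} := h2
        have a3 : p ∈ {p : ℕ × ℕ | Odd p.1 ∧ Odd p.2} := ⟨h1, h2⟩
        rw [hG2, hG3, Set.indicator_of_mem a2, Set.indicator_of_mem a3, hH]
        ring
  rw [e4, e3]
  linear_combination (-2 : ℂ) * e1 - 2 * e2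

/-- the terms -/
noncomputable def gg (r : ℕ) (u : ℂ) (N : ℕ) : ℂ :=
  lag r (4 * Real.pi * N * u.im) * ee (N * u)

theorem gg_two (r : ℕ) (u : ℂ) (N : ℕ) : gg r (2 * u) N = gg r u (2 * N) := by
  unfold gg
  have h : (2 * u).im = 2 * u.im := by simp
  rw [h]
  push_cast
  congr 2 <;> ring

theorem gg_four (r : ℕ) (u : ℂ) (N : ℕ) : gg r (4 * u) N = gg r u (4 * N) := by
  unfold gg
  have h : (4 * u).im = 4 * u.im := by simp
  rw [h]
  push_cast
  congr 2 <;> ring

theorem gg_half (r : ℕ) (u : ℂ) (N : ℕ) : gg r (u + 1 / 2) N = (-1) ^ N * gg r u N := by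
  unfold gg
  have h : (u + 1 / 2).im = u.im := by simp
  have h2 : ee (N * (u + 1 / 2)) = (-1) ^ N * ee (N * u) := by
    unfold ee
    rw [← Complex.exp_pi_mul_I, ← Complex.exp_nat_mul, ← Complex.exp_add]
    congr 1
    ring
  rw [h, h2]
  ring

end OHkAux

open OHkAux

/-- (HkO) -/
theorem stHkO (h : RZ.StEisAt) : StHkO := by
  intro q _ χ r u hq hq8 hχ hu
  have hodd : Odd q := Nat.odd_iff.2 (by omega)
  have hq2 : 2 < q := by
    by_contra hn
    interval_cases q <;> omega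
  have hm1 : jacobiSym (-1) q = -1 := by
    rw [jacobiSym.at_neg_one hodd, ZMod.χ₄_nat_eq_if_mod_four]
    rw [if_neg (by omega), if_neg (by omega)]
  have hj2 : jacobiSym 2 q = 1 := by
    rw [jacobiSym.at_two hodd, ZMod.χ₈_nat_eq_if_mod_eight]
    rw [if_neg (by omega), if_pos (by omega)]
  have hχ2 : ∀ b : ℕ, χ (((2 * b : ℕ) : ℤ) : ZMod q) = χ (((b : ℕ) : ℤ) : ZMod q) := by
    intro b
    have h2 : χ ((2 : ℤ) : ZMod q) = 1 := by
      rw [hχ 2, hj2]
      simp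
    have : (((2 * b : ℕ) : ℤ) : ZMod q) = ((2 : ℤ) : ZMod q) * (((b : ℕ) : ℤ) : ZMod q) := by
      push_cast
      ring
    rw [this, map_mul, h2, one_mul]
  obtain ⟨ε, -, hE⟩ := h q inferInstance χ hq hq2 hχ hm1
  set c : ℕ → ℂ := fun b => χ (((b : ℕ) : ℤ) : ZMod q) with hc
  have hS : ∀ v : ℂ, 0 < v.im → eis q χ r (-r) v = ((v.im : ℂ) ^ r)⁻¹ *
      (DirichletCharacter.LFunction χ 1 + ε * (2 * Real.pi / Real.sqrt q) * SS c (gg r v)) := by
    intro v hv
    rw [hE r v hv]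
    congr 3
    unfold SS
    refine tsum_congr fun p => ?_
    rw [hc, gg]
    push_cast
    ring_nf
  have hsum : Summable fun p : ℕ × ℕ => c (p.2 + 1) * gg r u ((p.1 + 1) * (p.2 + 1)) := by
    refine (EisAt.summable_T χ r hu).congr fun p => ?_
    rw [hc, gg]
    push_cast
    ring_nf
  have hrel := rel c (gg r u) hχ2 hsum
  have f2 : SS c (gg r (2 * u)) = SS c (fun N => gg r u (2 * N)) := by
    congr 1
    funext N
    exact gg_two r u N
  have f4 : SS c (gg r (4 * u)) = SS c (fun N => gg r u (4 * N)) := by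
    congr 1
    funext N
    exact gg_four r u N
  have fh : SS c (gg r (u + 1 / 2)) = SS c (fun N => (-1) ^ N * gg r u N) := by
    congr 1
    funext N
    exact gg_half r u N
  have i2 : (2 * u).im = 2 * u.im := by simp
  have i4 : (4 * u).im = 4 * u.im := by simp
  have ih : (u + 1 / 2).im = u.im := by simp
  have E1 := hS u hu
  have E2 := hS (2 * u) (by rw [i2]; linarith)
  have E4 := hS (4 * u) (by rw [i4]; linarith)
  have Eh := hS (u + 1 / 2) (by rw [ih]; exact hu)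
  rw [f2, i2] at E2
  rw [f4, i4] at E4
  rw [fh, ih] at Eh
  have hy : (u.im : ℂ) ^ r ≠ 0 := pow_ne_zero _ (by exact_mod_cast hu.ne')
  have m2 : (2 : ℂ) ^ r * (((2 * u.im : ℝ) : ℂ) ^ r)⁻¹ = ((u.im : ℂ) ^ r)⁻¹ := by
    push_cast
    rw [mul_pow]
    field_simp
  have m4 : (4 : ℂ) ^ r * (((4 * u.im : ℝ) : ℂ) ^ r)⁻¹ = ((u.im : ℂ) ^ r)⁻¹ := by
    push_cast
    rw [mul_pow]
    field_simp
  have first : eis q χ r (-r) u + eis q χ r (-r) (u + 1 / 2) +
      2 * 4 ^ r * eis q χ r (-r) (4 * u) = 4 * 2 ^ r * eis q χ r (-r) (2 * u) := by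
    have a4 : (4 : ℂ) ^ r * eis q χ r (-r) (4 * u) = ((u.im : ℂ) ^ r)⁻¹ *
        (DirichletCharacter.LFunction χ 1 + ε * (2 * Real.pi / Real.sqrt q) *
          SS c (fun N => gg r u (4 * N))) := by
      rw [E4, ← mul_assoc, m4]
    have a2 : (2 : ℂ) ^ r * eis q χ r (-r) (2 * u) = ((u.im : ℂ) ^ r)⁻¹ *
        (DirichletCharacter.LFunction χ 1 + ε * (2 * Real.pi / Real.sqrt q) *
          SS c (fun N => gg r u (2 * N))) := by
      rw [E2, ← mul_assoc, m2]
    linear_combination E1 + Eh + 2 * a4 - 4 * a2 +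
      ((u.im : ℂ) ^ r)⁻¹ * (ε * (2 * Real.pi / Real.sqrt q)) * hrel
  refine ⟨first, ?_⟩
  have hg : gE r (-r) 2 = 1 / 2 := by
    unfold gE
    have : ((Complex.normSq 2 : ℝ) : ℂ) = 4 := by
      have : Complex.normSq 2 = 4 := by
        rw [Complex.normSq_ofNat]
        norm_num
      rw [this]
      norm_num
    rw [this, neg_neg, Complex.cpow_natCast, pow_succ, pow_mul]
    norm_num
  unfold EO
  rw [hg, neg_neg, Complex.cpow_natCast, Complex.cpow_natCast]
  linear_combination (1 / 2 : ℂ) * first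

end Pool.Agent.Lib.MP_7c08ba_nt.CN
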