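import Mathlib
import Pool.Agent.Lib.MP_7c08ba_nt.CN.StOA

set_option autoImplicit false

/-!
Project CN, even `k`: independence of the representatives for squares of ideals.
-/

namespace Pool.Agent.Lib.MP_7c08ba_nt.CN

open NumberField IsDedekindDomain MeasureTheory Polynomial Pool.Agent.Lib.MP_7c08ba_nt.RZ
open scoped nonZeroDivisors ComplexConjugate MatrixGroups

namespace OInv

variable {F : Type} [Field F] [NumberField F] {q : ℕ} {s : 𝓞 F} {σ : F →+* ℂ}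
  {χ : DirichletCharacter ℂ q} {cj : 𝓞 F ≃+* 𝓞 F}

/-- The theta series depends on the class of the ideal only. -/
lemma thl_smul (hN : ∀ x : 𝓞 F, Complex.normSq (σ x) = (Ideal.absNorm (Ideal.span {x}) : ℝ))
    (b : Ideal (𝓞 F)) (r : ℕ) (u : ℂ) {t : 𝓞 F} (ht : t ≠ 0) :
    thl σ (Ideal.span {t} * b) r u = thl σ b r u := by
  have ht' : Complex.normSq (σ (t : F)) ≠ 0 := by
    intro h0
    rw [Complex.normSq_eq_zero, map_eq_zero] at h0
    exact ht (RingOfIntegers.ext h0)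
  have hQ : ∀ x : 𝓞 F, Qa σ (Ideal.span {t} * b) (t * x) = Qa σ b x := by
    intro x
    unfold Qa
    have h1 : σ ((t * x : 𝓞 F) : F) = σ (t : F) * σ (x : F) := by
      rw [← map_mul]
      rfl
    rw [h1, Complex.normSq_mul, map_mul, Nat.cast_mul, ← hN t, mul_div_mul_left _ _ ht']
  have hinj : Function.Injective (fun x : b => (⟨t * (x : 𝓞 F),
      Ideal.mul_mem_mul (Ideal.mem_span_singleton_self t) x.2⟩ :
        (Ideal.span {t} * b : Ideal (𝓞 F)))) := by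
    intro x y hxy
    have := congrArg Subtype.val hxy
    exact Subtype.ext (mul_left_cancel₀ ht this)
  have hsurj : Function.Surjective (fun x : b => (⟨t * (x : 𝓞 F),
      Ideal.mul_mem_mul (Ideal.mem_span_singleton_self t) x.2⟩ :
        (Ideal.span {t} * b : Ideal (𝓞 F)))) := by
    rintro ⟨y, hy⟩
    obtain ⟨z, hz, hzy⟩ := Ideal.mem_span_singleton_mul.mp hy
    exact ⟨⟨z, hz⟩, Subtype.ext hzy⟩
  unfold thl
  congr 1
  rw [← (Equiv.ofBijective _ ⟨hinj, hsurj⟩).tsum_eq]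
  refine tsum_congr fun x => ?_
  simp only [Equiv.ofBijective_apply, hQ]

/-- Coordinates. -/
lemma coord (hD : Dat q s σ χ cj) {m n m' n' : ℤ}
    (h : (m : 𝓞 F) + n * s = m' + n' * s) : m = m' ∧ n = n' := by
  have hq : (0 : ℝ) < Real.sqrt q := Real.sqrt_pos.mpr (by exact_mod_cast hD.prime.pos)
  have h1 : (m : ℂ) + n * (Complex.I * Real.sqrt q) = m' + n' * (Complex.I * Real.sqrt q) := by
    have := congrArg (fun x : 𝓞 F => σ (x : F)) h
    simpa [hD.im] using this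
  have hre := congrArg Complex.re h1
  have him := congrArg Complex.im h1
  simp at hre him
  refine ⟨hre, ?_⟩
  rcases him with h | h
  · exact h
  · exact absurd h (by exact_mod_cast hD.prime.ne_zero)

lemma norm_eq (h1 : StBas) (h2 : StBase) (hD : Dat q s σ χ cj) {a : Ideal (𝓞 F)} {X : 𝓞 F}
    {α : ℤ} {β : ℕ} (hB : OBasis σ a X (β : 𝓞 F)) (hX : 2 * X = α + s) (hβ : β ≠ 0) :
    Ideal.absNorm a = β := by
  have hs0 : s ≠ 0 := by
    intro h0
    have := hD.sq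
    rw [h0] at this
    have h3 : (q : 𝓞 F) = 0 := by
      have : (q : 𝓞 F) = -(0 ^ 2) := by rw [this]; ring
      simpa using this
    exact hD.prime.ne_zero (by exact_mod_cast h3)
  obtain ⟨-, -, hcs, -⟩ := h1 q F _ _ s σ χ cj hD
  obtain ⟨-, hc, -⟩ := h2 q F _ _ s σ χ cj hD
  have e := hc a X β hB
  have e1 : cj (β : 𝓞 F) = β := map_natCast cj β
  rw [e1] at e
  have e2 : 2 * cj X = α - s := by
    have := congrArg cj hX
    rw [map_mul, map_add, map_ofNat, map_intCast, hcs] at this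
    rw [this]
    ring
  have e3 : (2 : 𝓞 F) * (s * β) = 2 * (s * (Ideal.absNorm a : 𝓞 F)) := by
    rw [← e]
    linear_combination (-(β : 𝓞 F)) * hX + (β : 𝓞 F) * e2
  have e4 : (β : 𝓞 F) = (Ideal.absNorm a : 𝓞 F) :=
    mul_left_cancel₀ hs0 (mul_left_cancel₀ two_ne_zero e3)
  exact_mod_cast e4.symm

lemma exists_z (h1 : StBas) (h3 : StReps) (hD : Dat q s σ χ cj) {c c' : Ideal (𝓞 F)}
    (hc : Ideal.absNorm c ≠ 0) (hc' : Ideal.absNorm c' ≠ 0)
    (hcl : ∃ t t' : 𝓞 F, t ≠ 0 ∧ t' ≠ 0 ∧ Ideal.span {t} * c ^ 2 = Ideal.span {t'} * c' ^ 2) :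
    ∃ z : 𝓞 F, z ≠ 0 ∧
      Ideal.span {z ^ 2} * c ^ 2 = Ideal.span {((Ideal.absNorm c ^ 2 : ℕ) : 𝓞 F)} * c' ^ 2 ∧
      Ideal.absNorm (Ideal.span {z}) = Ideal.absNorm c * Ideal.absNorm c' := by
  obtain ⟨-, -, -, -, -, -, hcc, -⟩ := h1 q F _ _ s σ χ cj hD
  obtain ⟨hodd, -⟩ := h3 q F _ _ s σ χ cj hD
  have hc0 : c ≠ ⊥ := by
    rintro rfl
    simp at hc
  have hc0' : c' ≠ ⊥ := by
    rintro rfl
    simp at hc'
  set C : (Ideal (𝓞 F))⁰ := ⟨c, mem_nonZeroDivisors_of_ne_zero hc0⟩ with hC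
  set C' : (Ideal (𝓞 F))⁰ := ⟨c', mem_nonZeroDivisors_of_ne_zero hc0'⟩ with hC'
  obtain ⟨t, t', ht, ht', htt⟩ := hcl
  have e1 : ClassGroup.mk0 (C ^ 2) = ClassGroup.mk0 (C' ^ 2) := by
    rw [ClassGroup.mk0_eq_mk0_iff]
    exact ⟨t, t', ht, ht', by simpa [hC, hC'] using htt⟩
  have e2 : ClassGroup.mk0 C = ClassGroup.mk0 C' := by
    rw [map_pow, map_pow] at e1
    have hco : (Nat.card (ClassGroup (𝓞 F))).Coprime 2 :=
      Nat.coprime_two_right.mpr hodd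
    exact (powCoprime hco).injective e1
  rw [ClassGroup.mk0_eq_mk0_iff] at e2
  obtain ⟨x, y, hx, hy, hxy⟩ := e2
  simp only [hC, hC'] at hxy
  have e3 : Ideal.span {x * ((Ideal.absNorm c : ℕ) : 𝓞 F)} =
      Ideal.span {y} * (c' * c.map (cj : 𝓞 F →+* 𝓞 F)) := by
    rw [← Ideal.span_singleton_mul_span_singleton, ← hcc c, ← mul_assoc, hxy, mul_assoc]
  have e4 : x * ((Ideal.absNorm c : ℕ) : 𝓞 F) ∈ Ideal.span {y} := by
    have := Ideal.mem_span_singleton_self (x * ((Ideal.absNorm c : ℕ) : 𝓞 F))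
    rw [e3] at this
    have h5 : Ideal.span {y} * (c' * c.map (cj : 𝓞 F →+* 𝓞 F)) ≤ Ideal.span {y} :=
      Ideal.mul_le_left
    exact h5 this
  rw [Ideal.mem_span_singleton] at e4
  obtain ⟨z, hz⟩ := e4
  have hyb : Ideal.span {y} ≠ (⊥ : Ideal (𝓞 F)) := by
    rwa [Ne, Ideal.span_singleton_eq_bot]
  have e5 : Ideal.span {z} = c' * c.map (cj : 𝓞 F →+* 𝓞 F) := by
    rw [hz, ← Ideal.span_singleton_mul_span_singleton] at e3
    exact mul_left_cancel₀ hyb e3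
  have e6 : Ideal.span {z} * c = Ideal.span {((Ideal.absNorm c : ℕ) : 𝓞 F)} * c' := by
    rw [e5, ← hcc c]
    ring
  have hz0 : z ≠ 0 := by
    rintro rfl
    have h0 : x * ((Ideal.absNorm c : ℕ) : 𝓞 F) = 0 := by rw [hz, mul_zero]
    rcases mul_eq_zero.mp h0 with h0 | h0
    · exact hx h0
    · exact hc (by exact_mod_cast h0)
  refine ⟨z, hz0, ?_, ?_⟩
  · have : Ideal.span {z ^ 2} = (Ideal.span {z} : Ideal (𝓞 F)) ^ 2 := by
      rw [Ideal.span_singleton_pow]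
    rw [this, ← mul_pow, e6, mul_pow, Ideal.span_singleton_pow, Nat.cast_pow]
  · have e7 := congrArg Ideal.absNorm e6
    rw [map_mul, map_mul] at e7
    have e8 : Ideal.absNorm (Ideal.span {((Ideal.absNorm c : ℕ) : 𝓞 F)}) =
        Ideal.absNorm c ^ 2 := by
      rw [Ideal.absNorm_span_natCast, RingOfIntegers.rank, hD.fin]
    rw [e8] at e7
    have : Ideal.absNorm c * Ideal.absNorm (Ideal.span {z}) =
        Ideal.absNorm c * (Ideal.absNorm c * Ideal.absNorm c') := by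
      linarith
    exact Nat.eq_of_mul_eq_mul_left (Nat.pos_of_ne_zero hc) this

lemma z_form (h1 : StBas) (hD : Dat q s σ χ cj) {z : 𝓞 F}
    (hz : Odd (Ideal.absNorm (Ideal.span {z}))) :
    ∃ u v : ℤ, z = u + v * s ∧ u ^ 2 + q * v ^ 2 = Ideal.absNorm (Ideal.span {z}) ∧
      ∃ P R : ℤ, z ^ 2 = (1 + 4 * P : ℤ) + (4 * R : ℤ) * s ∧ u ^ 2 - q * v ^ 2 = 1 + 4 * P := by
  obtain ⟨hrep, -, hcs, -, hxc, -⟩ := h1 q F _ _ s σ χ cj hD
  obtain ⟨m, n, hmn, h2⟩ := hrep z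
  have e1 : 2 * cj z = m - n * s := by
    have := congrArg cj hmn
    rw [map_mul, map_add, map_ofNat, map_intCast, map_mul, map_intCast, hcs] at this
    rw [this]
    ring
  have e2 : ((m ^ 2 + q * n ^ 2 : ℤ) : 𝓞 F) = ((4 * (Ideal.absNorm (Ideal.span {z}) : ℤ) : ℤ) : 𝓞 F) := by
    push_cast
    rw [← hxc z]
    linear_combination (-(2 * cj z)) * hmn - (m + n * s) * e1 + (n : 𝓞 F) ^ 2 * hD.sq
  have e3 : m ^ 2 + q * n ^ 2 = 4 * (Ideal.absNorm (Ideal.span {z}) : ℤ) := by exact_mod_cast e2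
  have hq8 : (q : ℤ) % 16 = 7 := by exact_mod_cast hD.mod
  obtain ⟨k, hk⟩ := hz
  have hnk : (Ideal.absNorm (Ideal.span {z}) : ℤ) = 2 * k + 1 := by exact_mod_cast hk
  have hq16 : ∃ Q : ℤ, (q : ℤ) = 16 * Q + 7 := ⟨q / 16, by omega⟩
  obtain ⟨Q, hQ⟩ := hq16
  have hn : Even n := by
    by_contra ho
    rw [Int.not_even_iff_odd] at ho
    obtain ⟨n', rfl⟩ := ho
    obtain ⟨w, hw⟩ := h2
    obtain ⟨m', rfl⟩ : ∃ m', m = 2 * m' + 1 := ⟨w + n', by omega⟩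
    rw [hnk, hQ] at e3
    have hm2 : ∃ a : ℤ, m' * (m' + 1) = 2 * a := by
      obtain ⟨a, ha⟩ := Int.even_mul_succ_self m'
      exact ⟨a, by rw [ha]; ring⟩
    have hn2 : ∃ a : ℤ, n' * (n' + 1) = 2 * a := by
      obtain ⟨a, ha⟩ := Int.even_mul_succ_self n'
      exact ⟨a, by rw [ha]; ring⟩
    obtain ⟨a, ha⟩ := hm2
    obtain ⟨b, hb⟩ := hn2
    have : 8 * (a + (16 * Q + 7) * b + 2 * Q + 1 - k) = 4 := by
      linear_combination e3 - 4 * ha - 4 * (16 * Q + 7) * hb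
    omega
  obtain ⟨v, hv⟩ := hn
  obtain ⟨u, hu⟩ : ∃ u, m = u + u := by
    obtain ⟨w, hw⟩ := h2
    exact ⟨w + v, by omega⟩
  have ez : z = u + v * s := by
    have : (2 : 𝓞 F) * z = 2 * (u + v * s) := by
      rw [hmn, hu, hv]
      push_cast
      ring
    exact mul_left_cancel₀ two_ne_zero this
  have en : u ^ 2 + q * v ^ 2 = (Ideal.absNorm (Ideal.span {z}) : ℤ) := by
    rw [hu, hv] at e3
    linarith
  refine ⟨u, v, ez, en, ?_⟩
  have ez2 : z ^ 2 = ((u ^ 2 - q * v ^ 2 : ℤ) : 𝓞 F) + ((2 * u * v : ℤ) : 𝓞 F) * s := by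
    rw [ez]
    push_cast
    linear_combination (v : 𝓞 F) ^ 2 * hD.sq
  rw [hnk, hQ] at en
  rcases Int.even_or_odd u with ⟨a, ha⟩ | ⟨a, ha⟩
  · rcases Int.even_or_odd v with ⟨b, hb⟩ | ⟨b, hb⟩
    · exfalso
      rw [ha, hb] at en
      have : 2 * (2 * a ^ 2 + (16 * Q + 7) * (2 * b ^ 2) - k) = 1 := by linear_combination en
      omega
    · refine ⟨a ^ 2 - (16 * Q + 7) * (b ^ 2 + b) - 4 * Q - 2, a * (2 * b + 1), ?_, ?_⟩
      · rw [ez2, ha, hb, hQ]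
        push_cast
        ring
      · rw [ha, hb, hQ]
        ring
  · rcases Int.even_or_odd v with ⟨b, hb⟩ | ⟨b, hb⟩
    · refine ⟨a ^ 2 + a - (16 * Q + 7) * b ^ 2, (2 * a + 1) * b, ?_, ?_⟩
      · rw [ez2, ha, hb, hQ]
        push_cast
        ring
      · rw [ha, hb, hQ]
        ring
    · exfalso
      rw [ha, hb] at en
      have : 2 * (2 * a ^ 2 + 2 * a + (16 * Q + 7) * (2 * b ^ 2 + 2 * b) + 8 * Q + 4 - k) = 1 := by
        linear_combination en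
      omega

lemma c4_sq {m : ℤ} (hm : Odd m) : c4 (m ^ 2) = 1 := by
  obtain ⟨k, rfl⟩ := hm
  have e : (((2 * k + 1) ^ 2 : ℤ) : ZMod 4) = 1 := by
    have : (((2 * k + 1) ^ 2 : ℤ) : ZMod 4) = ((1 + (4 : ℕ) * (k ^ 2 + k) : ℤ) : ZMod 4) := by
      congr 1
      push_cast
      ring
    rw [this]
    push_cast
    have h4 : (4 : ZMod 4) = 0 := by decide
    rw [h4]
    ring
  unfold c4
  rw [e, map_one]
  simp

/-- The congruences for the matrix. -/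
lemma arith (h1 : StBas) (hD : Dat q s σ χ cj) {X X' z : 𝓞 F} {α α' : ℤ} {β β' δ' : ℕ}
    {u v P R g00 g01 g10 g11 : ℤ} (hX : 2 * X = α + s) (hX' : 2 * X' = α' + s)
    (hα : (q : ℤ) ∣ α) (hα' : (q : ℤ) ∣ α') (hβq : β.Coprime q) (hβq' : β'.Coprime q)
    (hδ : δ' ^ 2 = β') (hN : IsCoprime (u ^ 2 + q * v ^ 2) (q : ℤ))
    (hPR : z ^ 2 = (1 + 4 * P : ℤ) + (4 * R : ℤ) * s) (hP : u ^ 2 - q * v ^ 2 = 1 + 4 * P)
    (hg1 : (β : 𝓞 F) * X' = (g00 : 𝓞 F) * (z ^ 2 * X) + (g01 : 𝓞 F) * (z ^ 2 * β))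
    (hg2 : (β : 𝓞 F) * β' = (g10 : 𝓞 F) * (z ^ 2 * X) + (g11 : 𝓞 F) * (z ^ 2 * β))
    (hdet : g00 * g11 - g01 * g10 = 1) :
    jacobiSym g11 q = 1 ∧ jacobiSym (u ^ 2) q = 1 ∧
    ∃ h m k : ℤ, g10 = 4 * h ∧ g01 = q * m ∧ g11 - g00 = 2 * k := by
  have hq2 : (2 : ℤ) ≠ 0 := two_ne_zero
  have hpr : Prime (q : ℤ) := Nat.prime_iff_prime_int.mp hD.prime
  have hq2 : ¬ (q : ℤ) ∣ 2 := by
    intro h
    have h' : q ∣ 2 := by exact_mod_cast h
    have := Nat.le_of_dvd two_pos h'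
    have := hD.mod
    omega
  have hcop : ∀ {x : ℤ}, IsCoprime x (q : ℤ) → ¬ (q : ℤ) ∣ x := by
    intro x hx hd
    exact hpr.not_unit (hx.symm.isUnit_of_dvd' dvd_rfl hd)
  have hqβ : ¬ (q : ℤ) ∣ (β : ℤ) := hcop (Nat.isCoprime_iff_coprime.mpr hβq)
  have c1 : (β : ℤ) * α' = g00 * ((1 + 4 * P) * α - q * (4 * R)) + 2 * g01 * β * (1 + 4 * P) ∧
      (β : ℤ) = g00 * ((1 + 4 * P) + 4 * R * α) + 2 * g01 * β * (4 * R) := by
    refine coord hD ?_
    push_cast at hPR ⊢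
    linear_combination 2 * hg1 - (β : 𝓞 F) * hX' + (g00 : 𝓞 F) * z ^ 2 * hX +
      ((g00 : 𝓞 F) * (α + s) + 2 * g01 * β) * hPR + (g00 : 𝓞 F) * (4 * R) * hD.sq
  have c2 : 2 * (β : ℤ) * β' = g10 * ((1 + 4 * P) * α - q * (4 * R)) +
        2 * g11 * β * (1 + 4 * P) ∧
      0 = g10 * ((1 + 4 * P) + 4 * R * α) + 2 * g11 * β * (4 * R) := by
    refine coord hD ?_
    push_cast at hPR ⊢
    linear_combination 2 * hg2 + (g10 : 𝓞 F) * z ^ 2 * hX +
      ((g10 : 𝓞 F) * (α + s) + 2 * g11 * β) * hPR + (g10 : 𝓞 F) * (4 * R) * hD.sq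
  obtain ⟨c1, -⟩ := c1
  obtain ⟨c3, c4⟩ := c2
  obtain ⟨α₁, rfl⟩ := hα
  obtain ⟨α₂, rfl⟩ := hα'
  have hqu : ¬ (q : ℤ) ∣ u := by
    rintro ⟨w, rfl⟩
    exact hcop hN ⟨q * w ^ 2 + v ^ 2, by ring⟩
  have hqP : ¬ (q : ℤ) ∣ 1 + 4 * P := by
    rw [← hP]
    rintro ⟨w, hw⟩
    have : (q : ℤ) ∣ u ^ 2 := ⟨w + v ^ 2, by linear_combination hw⟩
    exact hqu (hpr.dvd_of_dvd_pow this)
  have hg10 : g10 = 4 * (-g10 * (P + R * (q * α₁)) - 2 * g11 * β * R) := by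
    linear_combination -c4
  have hg01 : (q : ℤ) ∣ g01 := by
    have hd : (q : ℤ) ∣ 2 * g01 * β * (1 + 4 * P) :=
      ⟨β * α₂ - g00 * ((1 + 4 * P) * α₁ - 4 * R), by linear_combination -c1⟩
    rcases hpr.dvd_or_dvd hd with hd | hd
    · rcases hpr.dvd_or_dvd hd with hd | hd
      · rcases hpr.dvd_or_dvd hd with hd | hd
        · exact absurd hd hq2
        · exact hd
      · exact absurd hd hqβ
    · exact absurd hd hqP
  obtain ⟨m, rfl⟩ := hg01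
  have hcu : Int.gcd u q = 1 := by
    rw [← Int.isCoprime_iff_gcd_eq_one]
    exact ((hpr.irreducible.coprime_iff_not_dvd).mpr hqu).symm
  have hju : jacobiSym (u ^ 2) q = 1 := jacobiSym.sq_one' hcu
  have hd : (q : ℤ) ∣ g11 * u ^ 2 - β' := by
    have hd : (q : ℤ) ∣ 2 * β * (g11 * u ^ 2 - β') :=
      ⟨-(g10 * ((1 + 4 * P) * α₁ - 4 * R)) + 2 * g11 * β * v ^ 2, by
        linear_combination -c3 + 2 * g11 * β * hP⟩
    rcases hpr.dvd_or_dvd hd with hd | hd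
    · rcases hpr.dvd_or_dvd hd with hd | hd
      · exact absurd hd hq2
      · exact absurd hd hqβ
    · exact hd
  have hjβ : jacobiSym (β' : ℤ) q = 1 := by
    rw [← hδ]
    push_cast
    refine jacobiSym.sq_one' ?_
    rw [Int.gcd_natCast_natCast]
    rw [← hδ] at hβq'
    exact (Nat.coprime_pow_left_iff two_pos _ _).mp hβq'
  have hjj : jacobiSym (g11 * u ^ 2) q = jacobiSym (β' : ℤ) q :=
    jacobiSym.mod_left' (Int.ModEq.symm ((Int.modEq_iff_dvd).mpr hd))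
  have hj : jacobiSym g11 q = 1 := by
    rw [jacobiSym.mul_left, hju, mul_one, hjβ] at hjj
    exact hjj
  refine ⟨hj, hju, -g10 * (P + R * (q * α₁)) - 2 * g11 * β * R, m, ?_⟩
  have hev : Even (g11 - g00) := by
    have ho : Odd (g00 * g11) := by
      refine ⟨q * m * (2 * (-g10 * (P + R * (q * α₁)) - 2 * g11 * β * R)), ?_⟩
      have : g00 * g11 = q * m * g10 + 1 := by linear_combination hdet
      rw [this]
      linear_combination q * m * hg10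
    rw [Int.odd_mul] at ho
    exact ho.2.sub_odd ho.1
  obtain ⟨k, hk⟩ := hev
  exact ⟨k, hg10, rfl, by rw [hk]; ring⟩



/-- The transformation at the two points. -/
lemma theta {H : ℂ → ℂ} {k : ℕ} (hW : Wq q χ k H)
    (hchi : ∀ n : ℤ, χ n = (jacobiSym n q : ℂ)) {τ τ' j : ℂ} (hτ : 0 < τ.im)
    {g00 g11 h m l : ℤ} (hdet : g00 * g11 - (q * m) * (4 * h) = 1) (hl : g11 - g00 = 2 * l)
    (hj11 : jacobiSym g11 q = 1) (hj : j = q * (4 * h) * τ + g11) (hj0 : j ≠ 0)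
    (hτ' : τ' = (g00 * τ + m) / j) :
    H (4 * τ') = j ^ k * H (4 * τ) ∧ H (τ' + 1 / 2) = j ^ k * H (τ + 1 / 2) := by
  constructor
  · have h0 : (0 : ℝ) < (4 * τ).im := by
      have : (4 * τ).im = 4 * τ.im := by simp
      rw [this]
      positivity
    have hd : (!![g00, 4 * m; q * h, g11] : Matrix (Fin 2) (Fin 2) ℤ).det = 1 := by
      rw [Matrix.det_fin_two_of]
      linear_combination hdet
    have e := hW ⟨!![g00, 4 * m; q * h, g11], hd⟩ (4 * τ) h0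
      (by
        change (q : ℤ) ∣ q * h
        exact dvd_mul_right _ _)
    have e1 : H ((((g00 : ℤ) : ℂ) * (4 * τ) + ((4 * m : ℤ) : ℂ)) /
        (((q * h : ℤ) : ℂ) * (4 * τ) + ((g11 : ℤ) : ℂ))) =
        χ ((g11 : ℤ) : ZMod q) * (((q * h : ℤ) : ℂ) * (4 * τ) + ((g11 : ℤ) : ℂ)) ^ k *
          H (4 * τ) := e
    have e2 : (((q * h : ℤ) : ℂ) * (4 * τ) + ((g11 : ℤ) : ℂ)) = j := by
      rw [hj]
      push_cast
      ring
    rw [e2, hchi, hj11] at e1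
    have e3 : ((((g00 : ℤ) : ℂ) * (4 * τ) + ((4 * m : ℤ) : ℂ)) / j) = 4 * τ' := by
      rw [hτ']
      push_cast
      ring
    rw [e3] at e1
    rw [e1]
    push_cast
    ring
  · have h0 : (0 : ℝ) < (τ + 1 / 2).im := by
      have : (τ + 1 / 2).im = τ.im := by simp
      rw [this]
      exact hτ
    have hd : (!![g00 + 2 * (q * h), m + l - q * h; 4 * (q * h), g11 - 2 * (q * h)] :
        Matrix (Fin 2) (Fin 2) ℤ).det = 1 := by
      rw [Matrix.det_fin_two_of]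
      linear_combination hdet + 2 * (q * h) * hl
    have e := hW ⟨!![g00 + 2 * (q * h), m + l - q * h; 4 * (q * h), g11 - 2 * (q * h)], hd⟩
      (τ + 1 / 2) h0
      (by
        change (q : ℤ) ∣ 4 * (q * h)
        exact ⟨4 * h, by ring⟩)
    have e1 : H ((((g00 + 2 * (q * h) : ℤ) : ℂ) * (τ + 1 / 2) + ((m + l - q * h : ℤ) : ℂ)) /
        (((4 * (q * h) : ℤ) : ℂ) * (τ + 1 / 2) + ((g11 - 2 * (q * h) : ℤ) : ℂ))) =
        χ ((g11 - 2 * (q * h) : ℤ) : ZMod q) *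
          (((4 * (q * h) : ℤ) : ℂ) * (τ + 1 / 2) + ((g11 - 2 * (q * h) : ℤ) : ℂ)) ^ k *
          H (τ + 1 / 2) := e
    have e2 : (((4 * (q * h) : ℤ) : ℂ) * (τ + 1 / 2) + ((g11 - 2 * (q * h) : ℤ) : ℂ)) = j := by
      rw [hj]
      push_cast
      ring
    have hj' : jacobiSym (g11 - 2 * (q * h)) q = 1 := by
      rw [← hj11]
      refine jacobiSym.mod_left' ?_
      have : g11 - 2 * (q * h) = g11 + q * (-2 * h) := by ring
      rw [this, Int.add_mul_emod_self_left]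
    rw [e2, hchi, hj'] at e1
    have hl' : (g11 : ℂ) - g00 = 2 * l := by exact_mod_cast congrArg (Int.cast (R := ℂ)) hl
    have e3 : ((((g00 + 2 * (q * h) : ℤ) : ℂ) * (τ + 1 / 2) + ((m + l - q * h : ℤ) : ℂ)) / j) =
        τ' + 1 / 2 := by
      rw [hτ', div_add_div _ _ hj0 two_ne_zero, div_eq_div_iff hj0 (mul_ne_zero hj0 two_ne_zero)]
      push_cast
      rw [hj]
      linear_combination (-(q * (4 * h) * τ + g11 : ℂ)) * hl'
    rw [e3] at e1
    rw [e1]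
    push_cast
    ring

end OInv

/-- For squares of ideals the terms depend on the classes only. -/
theorem stInvO (h1 : StBas) (h2 : StBase) (h3 : StReps) (h4 : StThl) (_h5 : StThB) :
    StInvO := by
  intro q F _ _ s σ χ cj n φ a a' c c' b b' X X' α α' β β' hD hφ hB hB' hX hX' hα hα' hβ hβ'
    hβq hβq' hac hac' hb hb' hcl hclb
  subst hac hac'
  have hq := hD.prime
  obtain ⟨-, -, hcs, -, hxc, hN, -, -, -, -, -⟩ := h1 q F _ _ s σ χ cj hD
  obtain ⟨-, -, -, -, hSL, -, hmulB⟩ := h2 q F _ _ s σ χ cj hD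
  have hthl : ∀ u, thl σ b' n u = thl σ b n u := by
    obtain ⟨t, t', ht, ht', e⟩ := hclb
    intro u
    rw [← OInv.thl_smul hN b' n u ht', ← e, OInv.thl_smul hN b n u ht]
  have hna := OInv.norm_eq h1 h2 hD hB hX hβ.pos.ne'
  have hna' := OInv.norm_eq h1 h2 hD hB' hX' hβ'.pos.ne'
  rw [map_pow] at hna hna'
  have hδ0 : Ideal.absNorm c ≠ 0 := by
    intro h0
    rw [h0] at hna
    exact hβ.pos.ne' (by rw [← hna]; norm_num)
  have hδ0' : Ideal.absNorm c' ≠ 0 := by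
    intro h0
    rw [h0] at hna'
    exact hβ'.pos.ne' (by rw [← hna']; norm_num)
  obtain ⟨z, hz0, hzi, hzn⟩ := OInv.exists_z h1 h3 hD hδ0 hδ0' hcl
  have hδo : Odd (Ideal.absNorm c) := by
    rw [← hna] at hβ
    exact Nat.Odd.of_mul_left (n := Ideal.absNorm c) (by rwa [pow_two] at hβ)
  have hδo' : Odd (Ideal.absNorm c') := by
    rw [← hna'] at hβ'
    exact Nat.Odd.of_mul_left (n := Ideal.absNorm c') (by rwa [pow_two] at hβ')
  have hzo : Odd (Ideal.absNorm (Ideal.span {z})) := by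
    rw [hzn]
    exact hδo.mul hδo'
  obtain ⟨u, v, huv, hnz, P, R, hPR, hP⟩ := OInv.z_form h1 hD hzo
  rw [hna] at hzi
  have hβ0 : (β : 𝓞 F) ≠ 0 := by exact_mod_cast hβ.pos.ne'
  have B1 := hmulB _ _ _ (z ^ 2) hB (pow_ne_zero 2 hz0)
  have B2 := hmulB _ _ _ (β : 𝓞 F) hB' hβ0
  rw [hzi] at B1
  obtain ⟨g, hg1, hg2⟩ := hSL _ _ _ _ _ B1 B2
  have hdet : g 0 0 * g 1 1 - g 0 1 * g 1 0 = 1 := by
    have := g.det_coe
    rw [Matrix.det_fin_two] at this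
    exact this
  have hcoN : IsCoprime (u ^ 2 + q * v ^ 2) (q : ℤ) := by
    rw [hnz, hzn, Nat.isCoprime_iff_coprime]
    rw [← hna] at hβq
    rw [← hna'] at hβq'
    exact Nat.Coprime.mul_left ((Nat.coprime_pow_left_iff two_pos _ _).mp hβq)
      ((Nat.coprime_pow_left_iff two_pos _ _).mp hβq')
  obtain ⟨hj11, hju, h, m, l, hh, hm, hl⟩ := OInv.arith h1 hD hX hX' hα hα' hβq hβq' hna' hcoN
    hPR hP hg1 hg2 hdet
  rw [hh, hm] at hdet
  have hqC : (q : ℂ) ≠ 0 := by exact_mod_cast hq.ne_zero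
  have hβC : (β : ℂ) ≠ 0 := by exact_mod_cast hβ.pos.ne'
  have hβC' : (β' : ℂ) ≠ 0 := by exact_mod_cast hβ'.pos.ne'
  have hzC : σ (z : F) ≠ 0 := by
    intro h0
    rw [map_eq_zero] at h0
    exact hz0 (RingOfIntegers.ext h0)
  have hσ : ∀ m : ℕ, σ (((m : ℕ) : 𝓞 F) : F) = m := by
    intro m
    simp
  have E1 : (β : ℂ) * σ (X' : F) = (g 0 0 : ℂ) * (σ (z : F) ^ 2 * σ (X : F)) +
      (g 0 1 : ℂ) * (σ (z : F) ^ 2 * β) := by
    have := congrArg (fun x : 𝓞 F => σ (x : F)) hg1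
    simpa using this
  have E2 : (β : ℂ) * β' = (g 1 0 : ℂ) * (σ (z : F) ^ 2 * σ (X : F)) +
      (g 1 1 : ℂ) * (σ (z : F) ^ 2 * β) := by
    have := congrArg (fun x : 𝓞 F => σ (x : F)) hg2
    simpa using this
  have him : ∀ {X : 𝓞 F} {α : ℤ} {β : ℕ}, 2 * X = α + s → β ≠ 0 →
      (σ (X : F) / (q * β)).im = Real.sqrt q / (2 * q) / β := by
    intro X α β hX hβ
    have h5 : σ (X : F) + σ (X : F) = α + Complex.I * Real.sqrt q := by
      rw [two_mul] at hX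
      have := congrArg (fun x : 𝓞 F => σ (x : F)) hX
      simpa [hD.im] using this
    have h6 := congrArg Complex.im h5
    simp at h6
    have h7 : ((q : ℂ) * β) = ((q * β : ℝ) : ℂ) := by push_cast; rfl
    have hq' : (q : ℝ) ≠ 0 := by exact_mod_cast hq.ne_zero
    have hβ' : (β : ℝ) ≠ 0 := by exact_mod_cast hβ
    rw [h7, Complex.div_ofReal_im]
    field_simp
    linarith
  have hI := him hX hβ.pos.ne'
  have hI' := him hX' hβ'.pos.ne'
  have hsq : 0 < Real.sqrt q := Real.sqrt_pos.mpr (by exact_mod_cast hq.pos)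
  have hqR : (0 : ℝ) < q := by exact_mod_cast hq.pos
  have hβR : (0 : ℝ) < β := by exact_mod_cast hβ.pos
  have hβR' : (0 : ℝ) < β' := by exact_mod_cast hβ'.pos
  set τ : ℂ := σ (X : F) / (q * β) with hτ
  set τ' : ℂ := σ (X' : F) / (q * β') with hτ'
  have hpos : 0 < τ.im := by
    rw [hI]
    positivity
  have hX1 : σ (X : F) = q * β * τ := by
    rw [hτ]
    field_simp
  have hX1' : σ (X' : F) = q * β' * τ' := by
    rw [hτ']
    field_simp
  obtain ⟨j, hj⟩ : ∃ j : ℂ, j = q * (4 * h) * τ + (g 1 1 : ℤ) := ⟨_, rfl⟩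
  have hh' : ((g 1 0 : ℤ) : ℂ) = 4 * h := by rw [hh]; push_cast; rfl
  have hm' : ((g 0 1 : ℤ) : ℂ) = q * m := by rw [hm]; push_cast; rfl
  have J1 : j * σ (z : F) ^ 2 = β' := by
    refine mul_left_cancel₀ hβC ?_
    rw [E2, hh', hX1, hj]
    ring
  have hj0 : j ≠ 0 := by
    rintro rfl
    rw [zero_mul] at J1
    exact hβC' J1.symm
  have T1 : τ' = ((g 0 0 : ℤ) * τ + m) / j := by
    rw [eq_div_iff hj0]
    have hz2 : σ (z : F) ^ 2 ≠ 0 := pow_ne_zero 2 hzC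
    refine mul_left_cancel₀ (mul_ne_zero (mul_ne_zero hqC hβC) hz2) ?_
    rw [hX1, hX1', hm'] at E1
    linear_combination E1 + q * β * τ' * J1
  obtain ⟨S1, S2⟩ := OInv.theta (h4 q F _ _ s σ χ cj b n hD hb).1 hD.chi hpos hdet hl hj11 hj hj0
    T1
  have hzz : σ (z : F) * conj (σ (z : F)) = (Ideal.absNorm c * Ideal.absNorm c' : ℕ) := by
    rw [Complex.mul_conj, hN z, hzn]
    simp
  have J2 : conj j * β = σ (z : F) ^ 2 := by
    refine mul_left_cancel₀ hβC' ?_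
    have e1 : conj j * conj (σ (z : F)) ^ 2 = β' := by
      rw [← map_pow, ← map_mul, J1, map_natCast]
    have e2 : ((Ideal.absNorm c * Ideal.absNorm c' : ℕ) : ℂ) ^ 2 = β * β' := by
      rw [← hna, ← hna']
      push_cast
      ring
    rw [← hzz] at e2
    linear_combination σ (z : F) ^ 2 * e1 - conj j * e2
  have hc4 : ∀ {k : ℤ}, Odd k → c4 (k ^ 2) = 1 := fun hk => OInv.c4_sq hk
  have hφβ : ∀ (β δ : ℕ), Odd β → β.Coprime q → δ ^ 2 = β →
      φ (Ideal.span {(β : 𝓞 F)}) = (β : ℂ) ^ (2 * n + 1) := by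
    intro β δ hβ hβq hδ
    have h0 : (β : 𝓞 F) ≠ 0 := by exact_mod_cast hβ.pos.ne'
    have e1 : Ideal.absNorm (Ideal.span {(β : 𝓞 F)}) = β ^ 2 := by
      rw [Ideal.absNorm_span_natCast, RingOfIntegers.rank, hD.fin]
    have e2 : jacobiSym (β : ℤ) q = 1 := by
      rw [← hδ]
      push_cast
      refine jacobiSym.sq_one' ?_
      rw [Int.gcd_natCast_natCast]
      rw [← hδ] at hβq
      exact (Nat.coprime_pow_left_iff two_pos _ _).mp hβq
    rw [hφ β β h0 (by simp), e1, e2, hσ]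
    push_cast
    rw [hc4 (by exact_mod_cast hβ)]
    ring
  have hφz : φ (Ideal.span {z ^ 2}) = (σ (z : F) ^ 2) ^ (2 * n + 1) := by
    have e1 : Ideal.absNorm (Ideal.span {z ^ 2}) = (Ideal.absNorm (Ideal.span {z})) ^ 2 := by
      rw [← map_pow, Ideal.span_singleton_pow]
    have e2 : s ∣ z ^ 2 - ((u ^ 2 : ℤ) : 𝓞 F) := by
      rw [huv]
      exact ⟨2 * u * v + v ^ 2 * s, by push_cast; ring⟩
    rw [hφ (z ^ 2) (u ^ 2) (pow_ne_zero 2 hz0) e2, hju, e1]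
    push_cast
    rw [hc4 (by exact_mod_cast hzo)]
    simp
  have A3 := congrArg φ hzi
  rw [map_mul, map_mul, hφz, hφβ β _ hβ hβq hna, ← J2] at A3
  have A4 : φ (c' ^ 2) = φ (c ^ 2) * conj j ^ (2 * n + 1) := by
    refine mul_left_cancel₀ (pow_ne_zero (2 * n + 1) hβC) ?_
    rw [← A3]
    ring
  have hcj0 : conj j ≠ 0 := by simpa using hj0
  have hI2 : (β : ℂ) * (τ.im : ℂ) = β' * (τ'.im : ℂ) := by
    rw [hI, hI']
    push_cast
    field_simp
  unfold GO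
  rw [hσ, hσ, ← hτ, ← hτ', hthl, hthl, S1, S2, hφβ β _ hβ hβq hna, hφβ β' _ hβ' hβq' hna', A4,
    mul_inv]
  have e3 : conj (2 * 4 ^ n * (j ^ (2 * n + 1) * thl σ b n (4 * τ)) -
      j ^ (2 * n + 1) * thl σ b n (τ + 1 / 2)) = conj j ^ (2 * n + 1) *
      conj (2 * 4 ^ n * thl σ b n (4 * τ) - thl σ b n (τ + 1 / 2)) := by
    rw [← map_pow, ← map_mul]
    congr 1
    ring
  rw [e3]
  have e4 : (β : ℂ) ^ (2 * n + 1) * (τ.im : ℂ) ^ (2 * n + 1) =
      (β' : ℂ) ^ (2 * n + 1) * (τ'.im : ℂ) ^ (2 * n + 1) := by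
    rw [← mul_pow, ← mul_pow, hI2]
  have e5 : (conj j ^ (2 * n + 1))⁻¹ * conj j ^ (2 * n + 1) = 1 :=
    inv_mul_cancel₀ (pow_ne_zero _ hcj0)
  generalize conj (2 * 4 ^ n * thl σ b n (4 * τ) - thl σ b n (τ + 1 / 2)) = W
  generalize conj j ^ (2 * n + 1) = J at e5 ⊢
  generalize J⁻¹ = J' at e5 ⊢
  generalize (φ (c ^ 2))⁻¹ = A
  linear_combination A * W * e4 -
    A * W * (β' : ℂ) ^ (2 * n + 1) * (τ'.im : ℂ) ^ (2 * n + 1) * e5

end Pool.Agent.Lib.MP_7c08ba_nt.CN
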