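import Mathlib
import Pool.Agent.Lib.MP_7c08ba_nt.CN.StP

set_option autoImplicit false

/-!
Module HP: the derivative and the explicit formula of the Hermite polynomials.
-/

namespace Pool.Agent.Lib.MP_7c08ba_nt.CN

namespace HPAux

open Polynomial Finset

theorem hp_succ (n : ℕ) : HP (n + 1) = 2 * X * HP n - derivative (HP n) := rfl

theorem deriv_hp (n : ℕ) : derivative (HP (n + 1)) = (2 * (n + 1) : ℕ) • HP n := by
  induction n with
  | zero =>
    rw [hp_succ]
    simp [HP]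
  | succ n ih =>
    have h2 : derivative (HP (n + 1)) = 2 * X * HP (n + 1) - HP (n + 2) := by
      rw [hp_succ (n + 1)]; ring
    rw [hp_succ (n + 1)]
    rw [derivative_sub, derivative_mul, ih]
    have h3 : derivative ((2 : ℤ[X]) * X) = 2 := by simp
    rw [h3]
    have h4 : derivative ((2 * (n + 1) : ℕ) • HP n) = (2 * (n + 1) : ℕ) • derivative (HP n) :=
      derivative_smul _ _
    rw [h4]
    have h5 : HP (n + 1) = 2 * X * HP n - derivative (HP n) := hp_succ n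
    rw [h5]
    simp only [nsmul_eq_mul]
    push_cast
    ring

theorem aeval_two (x : ℝ) : aeval x (2 : ℤ[X]) = 2 := map_ofNat (aeval x) 2

theorem rec_hp (n : ℕ) (x : ℝ) : aeval x (HP (n + 2)) =
    2 * x * aeval x (HP (n + 1)) - 2 * (n + 1) * aeval x (HP n) := by
  rw [hp_succ (n + 1), deriv_hp]
  simp only [map_sub, map_mul, aeval_X, nsmul_eq_mul, aeval_two, map_natCast]
  push_cast
  ring

/-- the even part -/
noncomputable def A (x : ℝ) (j : ℕ) : ℝ := ∑ i ∈ antidiagonal j,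
  ((-1) ^ i.1 / (i.1.factorial : ℝ)) * ((2 * x) ^ (2 * i.2) / ((2 * i.2).factorial : ℝ))

/-- the odd part -/
noncomputable def B (x : ℝ) (j : ℕ) : ℝ := ∑ i ∈ antidiagonal j,
  ((-1) ^ i.1 / (i.1.factorial : ℝ)) * ((2 * x) ^ (2 * i.2 + 1) / ((2 * i.2 + 1).factorial : ℝ))

theorem e_succ (k : ℕ) : (2 * ((k + 1 : ℕ) : ℝ)) * ((-1) ^ (k + 1) / ((k + 1).factorial : ℝ)) =
    -2 * ((-1) ^ k / (k.factorial : ℝ)) := by
  rw [Nat.factorial_succ]
  have h1 : (k.factorial : ℝ) ≠ 0 := by positivity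
  have h2 : ((k + 1 : ℕ) : ℝ) ≠ 0 := by positivity
  push_cast at h2 ⊢
  field_simp
  ring

theorem p_succ (y : ℝ) (m : ℕ) : ((m + 1 : ℕ) : ℝ) * (y ^ (m + 1) / ((m + 1).factorial : ℝ)) =
    y * (y ^ m / (m.factorial : ℝ)) := by
  rw [Nat.factorial_succ]
  have h1 : (m.factorial : ℝ) ≠ 0 := by positivity
  have h2 : ((m + 1 : ℕ) : ℝ) ≠ 0 := by positivity
  push_cast at h2 ⊢
  field_simp
  ring

theorem recA (x : ℝ) (j : ℕ) : (2 * (j + 1)) * A x (j + 1) = 2 * x * B x j - 2 * A x j := by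
  have h1 : (2 * ((j : ℝ) + 1)) * A x (j + 1) = ∑ i ∈ antidiagonal (j + 1),
      ((2 * (i.1 : ℝ)) * ((-1) ^ i.1 / (i.1.factorial : ℝ))) *
        ((2 * x) ^ (2 * i.2) / ((2 * i.2).factorial : ℝ)) + ∑ i ∈ antidiagonal (j + 1),
      ((-1) ^ i.1 / (i.1.factorial : ℝ)) *
        ((2 * (i.2 : ℝ)) * ((2 * x) ^ (2 * i.2) / ((2 * i.2).factorial : ℝ))) := by
    rw [A, mul_sum, ← sum_add_distrib]
    refine sum_congr rfl fun i hi => ?_
    have h2 : i.1 + i.2 = j + 1 := mem_antidiagonal.mp hi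
    have h3 : ((i.1 : ℝ) + i.2) = j + 1 := by exact_mod_cast h2
    rw [← h3]
    ring
  rw [h1, Nat.sum_antidiagonal_succ, Nat.sum_antidiagonal_succ']
  simp only [e_succ]
  have h4 : ∀ l : ℕ, (2 * ((l + 1 : ℕ) : ℝ)) * ((2 * x) ^ (2 * (l + 1)) /
      ((2 * (l + 1)).factorial : ℝ)) =
      2 * x * ((2 * x) ^ (2 * l + 1) / ((2 * l + 1).factorial : ℝ)) := by
    intro l
    have h5 := p_succ (2 * x) (2 * l + 1)
    have h6 : 2 * (l + 1) = 2 * l + 1 + 1 := by ring
    rw [h6, ← h5]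
    push_cast
    ring
  simp only [h4]
  rw [A, B, mul_sum, mul_sum]
  simp only [Nat.cast_zero, mul_zero, zero_mul, zero_add]
  rw [sub_eq_add_neg, add_comm, ← sum_neg_distrib]
  congr 1
  · refine sum_congr rfl fun i _ => ?_
    ring
  · refine sum_congr rfl fun i _ => ?_
    ring

theorem recB (x : ℝ) (j : ℕ) : (2 * (j + 1) + 1) * B x (j + 1) =
    2 * x * A x (j + 1) - 2 * B x j := by
  have h1 : (2 * ((j : ℝ) + 1) + 1) * B x (j + 1) = ∑ i ∈ antidiagonal (j + 1),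
      ((2 * (i.1 : ℝ)) * ((-1) ^ i.1 / (i.1.factorial : ℝ))) *
        ((2 * x) ^ (2 * i.2 + 1) / ((2 * i.2 + 1).factorial : ℝ)) + ∑ i ∈ antidiagonal (j + 1),
      ((-1) ^ i.1 / (i.1.factorial : ℝ)) *
        (((2 * i.2 + 1 : ℕ) : ℝ) * ((2 * x) ^ (2 * i.2 + 1) / ((2 * i.2 + 1).factorial : ℝ))) := by
    rw [B, mul_sum, ← sum_add_distrib]
    refine sum_congr rfl fun i hi => ?_
    have h2 : i.1 + i.2 = j + 1 := mem_antidiagonal.mp hi
    have h3 : ((i.1 : ℝ) + i.2) = j + 1 := by exact_mod_cast h2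
    rw [← h3]
    push_cast
    ring
  rw [h1, Nat.sum_antidiagonal_succ]
  simp only [e_succ, p_succ]
  rw [A, B, mul_sum, mul_sum]
  simp only [Nat.cast_zero, mul_zero, zero_mul, zero_add]
  rw [sub_eq_add_neg, add_comm, ← sum_neg_distrib]
  congr 1
  · refine sum_congr rfl fun i _ => ?_
    ring
  · refine sum_congr rfl fun i _ => ?_
    ring

theorem both (x : ℝ) (j : ℕ) : aeval x (HP (2 * j)) = ((2 * j).factorial : ℝ) * A x j ∧
    aeval x (HP (2 * j + 1)) = ((2 * j + 1).factorial : ℝ) * B x j := by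
  induction j with
  | zero =>
    constructor
    · simp [HP, A]
    · simp [HP, B, aeval_two]
  | succ j ih =>
    obtain ⟨h1, h2⟩ := ih
    have h3 : aeval x (HP (2 * (j + 1))) = ((2 * (j + 1)).factorial : ℝ) * A x (j + 1) := by
      have h4 := rec_hp (2 * j) x
      have h5 : 2 * (j + 1) = 2 * j + 2 := by ring
      rw [h5, h4, h1, h2, Nat.factorial_succ (2 * j + 1)]
      have h6 := recA x j
      have h7 : (((2 * j + 1 + 1) * (2 * j + 1).factorial : ℕ) : ℝ) * A x (j + 1) =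
          ((2 * j + 1).factorial : ℝ) * ((2 * (j + 1)) * A x (j + 1)) := by
        push_cast; ring
      rw [h7, h6, Nat.factorial_succ (2 * j)]
      push_cast
      ring
    refine ⟨h3, ?_⟩
    have h4 := rec_hp (2 * j + 1) x
    have h5 : 2 * (j + 1) + 1 = 2 * j + 1 + 2 := by ring
    have h8 : 2 * (j + 1) = 2 * j + 1 + 1 := by ring
    rw [h8] at h3
    rw [h5, h4, h3, h2, Nat.factorial_succ (2 * j + 2)]
    have h6 := recB x j
    have h7 : (((2 * j + 2 + 1) * (2 * j + 2).factorial : ℕ) : ℝ) * B x (j + 1) =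
        ((2 * j + 2).factorial : ℝ) * ((2 * (j + 1) + 1) * B x (j + 1)) := by
      push_cast; ring
    rw [h7, h6, Nat.factorial_succ (2 * j + 1)]
    push_cast
    ring

end HPAux

open HPAux in
theorem stHP : StHP := by
  refine ⟨deriv_hp, fun j x => ?_⟩
  rw [(both x j).1, A, Finset.Nat.sum_antidiagonal_eq_sum_range_succ_mk, Finset.mul_sum]
  refine Finset.sum_congr rfl fun k hk => ?_
  have h1 : 2 * j - 2 * k = 2 * (j - k) := by omega
  have h2 : (2 * x) ^ (2 * (j - k)) = (4 * x ^ 2) ^ (j - k) := by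
    rw [pow_mul]; congr 1; ring
  simp only
  rw [h1, h2]
  have h3 : (k.factorial : ℝ) ≠ 0 := by positivity
  have h4 : ((2 * (j - k)).factorial : ℝ) ≠ 0 := by positivity
  field_simp

end Pool.Agent.Lib.MP_7c08ba_nt.CN
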