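import Mathlib
import Pool.Agent.Lib.MP_7c08ba_nt.CN.StOP
import Pool.Agent.Lib.MP_7c08ba_nt.CN.HP
import Pool.Agent.Lib.MP_7c08ba_nt.RZ.C.Taylor

set_option autoImplicit false

/-!
Project CN, module OLad: the Hermite theta series of odd degree in terms of the polynomials `WO`
(derivatives along a line).
-/

namespace Pool.Agent.Lib.MP_7c08ba_nt.CN

open RZC Polynomial
open scoped ComplexConjugate Real

namespace OLadAux

/-! ### The polynomials -/

/-- the polynomials `p_r` with `H_(2r+1)(x) = 2^(2r+1) x p_r(x^2)` -/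
noncomputable def pp : ℕ → ℂ[X]
  | 0 => 1
  | r + 1 => (X - C ((r : ℂ) + 3 / 2)) * pp r - X * derivative (pp r)

theorem pp_succ (r : ℕ) : pp (r + 1) =
    (X - C ((r : ℂ) + 3 / 2)) * pp r - X * derivative (pp r) := rfl

theorem hp_two (n : ℕ) : HP (n + 2) =
    (4 * X ^ 2 - (2 * (n + 1) : ℤ[X])) * HP n - 2 * X * derivative (HP n) := by
  rw [HPAux.hp_succ (n + 1), HPAux.deriv_hp, HPAux.hp_succ n, nsmul_eq_mul]
  push_cast
  ring

theorem hp_pp (r : ℕ) : (HP (2 * r + 1)).map (Int.castRingHom ℂ) =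
    C (2 ^ (2 * r + 1)) * X * (pp r).comp (X ^ 2) := by
  induction r with
  | zero =>
    simp only [HP, pp, mul_zero, zero_add, pow_one, mul_one, derivative_one, sub_zero, one_comp]
    simp
    rfl
  | succ r ih =>
    have h1 : 2 * (r + 1) + 1 = 2 * r + 1 + 2 := by ring
    rw [h1, hp_two, Polynomial.map_sub, Polynomial.map_mul, Polynomial.map_mul,
      ← Polynomial.derivative_map, ih, pp_succ]
    simp only [Polynomial.map_sub, Polynomial.map_mul, Polynomial.map_pow, Polynomial.map_X,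
      Polynomial.map_add, Polynomial.map_one, Polynomial.map_ofNat, sub_comp, mul_comp, X_comp,
      C_comp, derivative_mul, derivative_C, derivative_X, derivative_comp, derivative_X_pow,
      Polynomial.map_natCast]
    set q := (pp r).comp (X ^ 2)
    set q1 := (derivative (pp r)).comp (X ^ 2)
    have h2 : (C (2 ^ (2 * r + 1 + 2)) : ℂ[X]) = 4 * C (2 ^ (2 * r + 1)) := by
      rw [pow_add, C_mul]
      have : (C (2 ^ 2) : ℂ[X]) = 4 := by
        norm_num
        rfl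
      rw [this]
      ring
    have h3 : (2 : ℂ[X]) * C ((r : ℂ) + 3 / 2) = 2 * (r : ℂ[X]) + 3 := by
      have e1 : (2 : ℂ[X]) = C 2 := rfl
      have e2 : (3 : ℂ[X]) = C 3 := rfl
      rw [e1, e2, ← C_mul, ← C_eq_natCast, ← C_mul, ← C_add]
      congr 1
      ring
    rw [h2]
    push_cast
    simp only [map_ofNat]
    linear_combination (2 * C (2 ^ (2 * r + 1)) * X * q) * h3

/-! ### Theta series -/

theorem c4_norm (m : ℤ) : ‖c4 m‖ ≤ 1 := by
  have h : ∀ a : ZMod 4, |(ZMod.χ₄ a : ℤ)| ≤ 1 := by decide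
  unfold c4
  rw [Complex.norm_intCast]
  exact_mod_cast h (m : ZMod 4)

/-- the exponential -/
noncomputable def et (τ : ℂ) (m : ℤ) : ℂ := Complex.exp (Real.pi * Complex.I * m ^ 2 * τ / 4)

theorem norm_et (τ : ℂ) (m : ℤ) : ‖et τ m‖ = Real.exp (-π * (τ.im / 4 * m ^ 2)) := by
  rw [et, Complex.norm_exp]
  congr 1
  have : (Real.pi * Complex.I * (m : ℂ) ^ 2 * τ / 4) =
      ((Real.pi * (m : ℝ) ^ 2 / 4 : ℝ) : ℂ) * (Complex.I * τ) := by
    push_cast; ring
  rw [this, Complex.re_ofReal_mul, Complex.I_mul_re]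
  ring

theorem bound (j : ℕ) {T : ℝ} (τ : ℂ) (hτ : T ≤ τ.im) (m : ℤ) :
    ‖c4 m * (m : ℂ) ^ j * et τ m‖ ≤
      (|m| ^ j : ℝ) * Real.exp (-π * (T / 4 * m ^ 2 - 2 * 0 * |m|)) := by
  rw [norm_mul, norm_mul, norm_pow, norm_et, Complex.norm_intCast]
  have h1 : (|(m : ℝ)|) = ((|m| : ℤ) : ℝ) := by push_cast; rfl
  rw [h1]
  have h2 : Real.exp (-π * (τ.im / 4 * m ^ 2)) ≤
      Real.exp (-π * (T / 4 * m ^ 2 - 2 * 0 * ((|m| : ℤ) : ℝ))) := by
    apply Real.exp_le_exp.2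
    have h3 : T / 4 * (m : ℝ) ^ 2 ≤ τ.im / 4 * (m : ℝ) ^ 2 :=
      mul_le_mul_of_nonneg_right (by linarith) (sq_nonneg _)
    have h4 := mul_le_mul_of_nonneg_left h3 Real.pi_pos.le
    linarith
  have h5 : (0 : ℝ) ≤ ((|m| : ℤ) : ℝ) ^ j := by
    rw [← h1]
    positivity
  calc ‖c4 m‖ * ((|m| : ℤ) : ℝ) ^ j * Real.exp (-π * (τ.im / 4 * m ^ 2))
      ≤ 1 * ((|m| : ℤ) : ℝ) ^ j * Real.exp (-π * (T / 4 * m ^ 2 - 2 * 0 * ((|m| : ℤ) : ℝ))) :=
        mul_le_mul (mul_le_mul_of_nonneg_right (c4_norm m) h5) h2 (Real.exp_pos _).le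
          (by positivity)
    _ = _ := by rw [one_mul]

theorem summable_th (j : ℕ) (τ : ℂ) (hτ : 0 < τ.im) :
    Summable fun m : ℤ => c4 m * (m : ℂ) ^ j * et τ m := by
  have hT : 0 < τ.im / 4 := by positivity
  exact Summable.of_norm_bounded (summable_pow_mul_jacobiTheta₂_term_bound 0 hT j)
    (fun m => bound j τ le_rfl m)

/-- the derivatives of the theta series -/
noncomputable def Th (j : ℕ) (τ : ℂ) : ℂ := ∑' m : ℤ, c4 m * (m : ℂ) ^ (2 * j + 1) * et τ m

theorem Th_zero (τ : ℂ) : Th 0 τ = yO τ := by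
  unfold Th yO et
  refine tsum_congr fun m => ?_
  rw [mul_zero, zero_add, pow_one]

theorem hasDerivAt_et (m : ℤ) (τ : ℂ) :
    HasDerivAt (fun z => et z m) (Real.pi * Complex.I / 4 * (m : ℂ) ^ 2 * et τ m) τ := by
  unfold et
  have h1 : HasDerivAt (fun z : ℂ => Real.pi * Complex.I * (m : ℂ) ^ 2 * z / 4)
      (Real.pi * Complex.I / 4 * (m : ℂ) ^ 2) τ := by
    have := ((hasDerivAt_id τ).const_mul (Real.pi * Complex.I * (m : ℂ) ^ 2)).div_const 4
    refine this.congr_deriv ?_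
    ring
  refine h1.cexp.congr_deriv ?_
  ring

theorem hasDerivAt_Th (j : ℕ) (τ : ℂ) (hτ : 0 < τ.im) :
    HasDerivAt (Th j) (Real.pi * Complex.I / 4 * Th (j + 1) τ) τ := by
  have hT : 0 < τ.im / 2 / 4 := by positivity
  have h := hasDerivAt_tsum_of_isPreconnected
    (g := fun (m : ℤ) (z : ℂ) => c4 m * (m : ℂ) ^ (2 * j + 1) * et z m)
    (g' := fun (m : ℤ) (z : ℂ) => Real.pi * Complex.I / 4 *
      (c4 m * (m : ℂ) ^ (2 * (j + 1) + 1) * et z m))
    (t := {z : ℂ | τ.im / 2 < z.im}) (y₀ := τ) (y := τ)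
    ((summable_pow_mul_jacobiTheta₂_term_bound 0 hT (2 * (j + 1) + 1)).mul_left (π / 4))
    (isOpen_lt continuous_const Complex.continuous_im)
    (convex_halfSpace_im_gt _).isPreconnected ?_ ?_ ?_ ?_ ?_
  · rw [tsum_mul_left] at h
    exact h
  · intro m z _
    refine ((hasDerivAt_et m z).const_mul (c4 m * (m : ℂ) ^ (2 * j + 1))).congr_deriv ?_
    have : 2 * (j + 1) + 1 = 2 * j + 1 + 2 := by ring
    rw [this, pow_add]
    ring
  · intro m z hz
    rw [norm_mul]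
    have h1 : ‖(Real.pi * Complex.I / 4 : ℂ)‖ = π / 4 := by
      rw [norm_div, norm_mul, Complex.norm_I, mul_one, Complex.norm_real, Real.norm_eq_abs,
        abs_of_pos Real.pi_pos]
      norm_num
    rw [h1]
    exact mul_le_mul_of_nonneg_left (bound _ z (le_of_lt hz) m) (by positivity)
  · show τ.im / 2 < τ.im
    linarith
  · exact summable_th _ τ hτ
  · show τ.im / 2 < τ.im
    linarith

/-! ### The functional -/

/-- the theta series with a polynomial in `u m^2` -/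
noncomputable def LL (u τ : ℂ) (p : ℂ[X]) : ℂ :=
  ∑' m : ℤ, c4 m * m * p.eval (u * (m : ℂ) ^ 2) * et τ m

theorem summable_LL (u τ : ℂ) (hτ : 0 < τ.im) (p : ℂ[X]) :
    Summable fun m : ℤ => c4 m * m * p.eval (u * (m : ℂ) ^ 2) * et τ m := by
  induction p using Polynomial.induction_on' with
  | add p q hp hq =>
    refine (hp.add hq).congr fun m => ?_
    rw [eval_add]
    ring
  | monomial j a =>
    refine ((summable_th (2 * j + 1) τ hτ).mul_left (a * u ^ j)).congr fun m => ?_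
    rw [eval_monomial, mul_pow, ← pow_mul, pow_succ]
    ring

theorem LL_add (u τ : ℂ) (hτ : 0 < τ.im) (p q : ℂ[X]) :
    LL u τ (p + q) = LL u τ p + LL u τ q := by
  unfold LL
  rw [← (summable_LL u τ hτ p).tsum_add (summable_LL u τ hτ q)]
  refine tsum_congr fun m => ?_
  rw [eval_add]
  ring

theorem LL_C_mul (u τ : ℂ) (a : ℂ) (p : ℂ[X]) :
    LL u τ (C a * p) = a * LL u τ p := by
  unfold LL
  rw [← tsum_mul_left]
  refine tsum_congr fun m => ?_
  rw [eval_mul, eval_C]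
  ring

theorem LL_monomial (u τ : ℂ) (j : ℕ) (a : ℂ) :
    LL u τ (monomial j a) = a * u ^ j * Th j τ := by
  unfold LL Th
  rw [← tsum_mul_left]
  refine tsum_congr fun m => ?_
  rw [eval_monomial, mul_pow, ← pow_mul, pow_succ]
  ring

theorem LL_one (u τ : ℂ) : LL u τ 1 = yO τ := by
  have : (1 : ℂ[X]) = monomial 0 1 := rfl
  rw [this, LL_monomial, pow_zero, mul_one, one_mul, Th_zero]

theorem LL_sub (u τ : ℂ) (hτ : 0 < τ.im) (p q : ℂ[X]) :
    LL u τ (p - q) = LL u τ p - LL u τ q := by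
  have h : p - q = p + C (-1) * q := by
    rw [C_neg, C_1]
    ring
  rw [h, LL_add u τ hτ, LL_C_mul]
  ring

/-! ### The line -/

section line

variable (τ₀ : ℂ)

/-- the point -/
noncomputable def zt (t : ℂ) : ℂ := (τ₀ + t * conj τ₀) / (1 + t * 1)

/-- the argument of the polynomials -/
noncomputable def ut (t : ℂ) : ℂ := Real.pi * (τ₀.im : ℂ) / (2 * (1 + t * 1))

variable {τ₀}

theorem ne_of_pos {t : ℂ} (ht : Pos (τ₀ + t * conj τ₀) (1 + t * 1)) : (1 + t * 1 : ℂ) ≠ 0 := by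
  intro h0
  unfold Pos at ht
  rw [h0, div_zero] at ht
  simp at ht

theorem hasDerivAt_ut {t : ℂ} (ht : Pos (τ₀ + t * conj τ₀) (1 + t * 1)) :
    HasDerivAt (ut τ₀) (-(ut τ₀ t / (1 + t * 1))) t := by
  have hne := ne_of_pos ht
  have h1 : HasDerivAt (fun s : ℂ => 2 * (1 + s * 1)) 2 t := by
    have := (((hasDerivAt_id t).mul_const 1).const_add 1).const_mul 2
    refine this.congr_deriv ?_
    ring
  have h2 := (hasDerivAt_const t ((Real.pi : ℂ) * (τ₀.im : ℂ))).div h1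
    (mul_ne_zero two_ne_zero hne)
  refine h2.congr_deriv ?_
  unfold ut
  field_simp
  ring

theorem hasDerivAt_zt {t : ℂ} (ht : Pos (τ₀ + t * conj τ₀) (1 + t * 1)) :
    HasDerivAt (zt τ₀) (-(2 * Complex.I * (τ₀.im : ℂ)) / (1 + t * 1) ^ 2) t := by
  have hne := ne_of_pos ht
  have h1 : HasDerivAt (fun s : ℂ => 1 + s * 1) 1 t := by
    have := ((hasDerivAt_id t).mul_const 1).const_add (1 : ℂ)
    refine this.congr_deriv ?_
    ring
  have h2 : HasDerivAt (fun s : ℂ => τ₀ + s * conj τ₀) (conj τ₀) t := by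
    have := ((hasDerivAt_id t).mul_const (conj τ₀)).const_add τ₀
    refine this.congr_deriv ?_
    ring
  refine (h2.div h1 hne).congr_deriv ?_
  have h3 : (2 * Complex.I * (τ₀.im : ℂ)) = τ₀ - conj τ₀ := by
    rw [Complex.sub_conj]
    push_cast
    ring
  rw [h3]
  congr 1
  ring

theorem line_deriv (p : ℂ[X]) {t : ℂ} (ht : Pos (τ₀ + t * conj τ₀) (1 + t * 1)) :
    HasDerivAt (fun s => LL (ut τ₀ s) (zt τ₀ s) p)
      ((1 + t * 1)⁻¹ * LL (ut τ₀ t) (zt τ₀ t) (X * p - X * derivative p)) t := by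
  have hz : 0 < (zt τ₀ t).im := ht
  have hne := ne_of_pos ht
  induction p using Polynomial.induction_on' with
  | add p q hp hq =>
    have hev : (fun s => LL (ut τ₀ s) (zt τ₀ s) (p + q)) =ᶠ[nhds t]
        fun s => LL (ut τ₀ s) (zt τ₀ s) p + LL (ut τ₀ s) (zt τ₀ s) q := by
      filter_upwards [TaylorAux.pos_open τ₀ 1 (conj τ₀) 1 t ht] with s hs
      exact LL_add _ _ hs p q
    refine ((hp.add hq).congr_of_eventuallyEq hev).congr_deriv ?_
    rw [← mul_add, ← LL_add _ _ hz, derivative_add]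
    congr 2
    ring
  | monomial j a =>
    have h1 : (fun s => LL (ut τ₀ s) (zt τ₀ s) (monomial j a)) =
        fun s => a * (ut τ₀ s) ^ j * Th j (zt τ₀ s) := by
      funext s
      exact LL_monomial _ _ _ _
    rw [h1]
    have h2 := ((hasDerivAt_ut ht).pow j).const_mul a
    have h3 := HasDerivAt.comp t (hasDerivAt_Th j (zt τ₀ t) hz) (hasDerivAt_zt ht)
    refine (h2.mul h3).congr_deriv ?_
    have h4 : (X : ℂ[X]) * monomial j a = monomial (j + 1) a := by
      rw [X_mul_monomial]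
    have h5 : (X : ℂ[X]) * derivative (monomial j a) = monomial j (a * j) := by
      rw [derivative_monomial]
      cases j with
      | zero => simp
      | succ j => simp [X_mul_monomial]
    rw [h4, h5, LL_sub _ _ hz, LL_monomial, LL_monomial]
    have h6 : (j : ℂ) * ut τ₀ t ^ (j - 1) * ut τ₀ t = j * ut τ₀ t ^ j := by
      cases j with
      | zero => simp
      | succ j => rw [Nat.add_sub_cancel, pow_succ]; ring
    have h7 : (Real.pi * Complex.I / 4 : ℂ) * (-(2 * Complex.I * (τ₀.im : ℂ)) / (1 + t * 1) ^ 2) =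
        ut τ₀ t / (1 + t * 1) := by
      have e1 : (Real.pi * Complex.I / 4 : ℂ) *
          (-(2 * Complex.I * (τ₀.im : ℂ)) / (1 + t * 1) ^ 2) =
          -(Complex.I ^ 2) * (Real.pi * (τ₀.im : ℂ)) / (2 * (1 + t * 1) ^ 2) := by
        field_simp
        ring
      rw [e1, Complex.I_sq]
      unfold ut
      field_simp
    simp only [Function.comp_apply, Pi.pow_apply]
    have h8 : a * ((j : ℂ) * ut τ₀ t ^ (j - 1) * -(ut τ₀ t / (1 + t * 1))) =
        -(a * (j * ut τ₀ t ^ j) / (1 + t * 1)) := by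
      rw [← h6]
      ring
    rw [h8]
    have h9 : Real.pi * Complex.I / 4 * Th (j + 1) (zt τ₀ t) *
        (-(2 * Complex.I * (τ₀.im : ℂ)) / (1 + t * 1) ^ 2) =
        ut τ₀ t / (1 + t * 1) * Th (j + 1) (zt τ₀ t) := by
      rw [← h7]
      ring
    rw [h9, pow_succ]
    field_simp
    ring

theorem yO_ne (hE : StEtaO) {τ : ℂ} (hτ : 0 < τ.im) : yO τ ≠ 0 := by
  intro h
  have h1 := hE τ hτ
  rw [h, zero_pow (by norm_num)] at h1
  have h2 : dl τ 1 ≠ 0 := by
    show LF 12 _ τ 1 ≠ 0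
    unfold LF
    rw [one_pow, inv_one, one_mul]
    exact ModularForm.discriminant_ne_zero _
  exact mul_ne_zero (by norm_num) h2 h1.symm

/-- homogeneity of `dl` -/
theorem dl_hom {w₁ w₂ : ℂ} (h : w₂ ≠ 0) : dl (w₁ / w₂) 1 = w₂ ^ 12 * dl w₁ w₂ := by
  show LF 12 _ (w₁ / w₂) 1 = w₂ ^ 12 * LF 12 _ w₁ w₂
  unfold LF
  rw [one_pow, inv_one, one_mul, div_one, ← mul_assoc, mul_inv_cancel₀ (pow_ne_zero _ h), one_mul]

theorem vol_eq : vol τ₀ 1 (conj τ₀) 1 = (τ₀.im : ℂ) := by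
  unfold vol
  rw [one_mul, mul_one, Complex.sub_conj]
  field_simp
  push_cast
  ring

/-- the logarithmic derivative of the theta series -/
theorem log_deriv (h : StLine) (hE : StEtaO) (hτ : 0 < τ₀.im) {t : ℂ}
    (ht : Pos (τ₀ + t * conj τ₀) (1 + t * 1)) {f' : ℂ}
    (hf : HasDerivAt (fun s => yO (zt τ₀ s)) f' t) :
    8 * f' = yO (zt τ₀ t) * (12 / (1 + t * 1) +
      4 * π * (τ₀.im : ℂ) * e2s (τ₀ + t * conj τ₀) (1 + t * 1) (conj τ₀) 1) := by
  have hne := ne_of_pos ht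
  have hz : 0 < (zt τ₀ t).im := ht
  have hv : vol τ₀ 1 (conj τ₀) 1 ≠ 0 := by
    rw [vol_eq]
    exact_mod_cast hτ.ne'
  have hd := TaylorAux.deriv_ev h τ₀ 1 (conj τ₀) 1 hv t ht (MvPolynomial.X 3)
  rw [vol_eq] at hd
  have h1 : HasDerivAt (fun s : ℂ => 1 + s * 1) 1 t := by
    have := ((hasDerivAt_id t).mul_const 1).const_add (1 : ℂ)
    refine this.congr_deriv ?_
    ring
  have h2 := ((h1.pow 12).mul hd).const_mul (256 : ℂ)
  have hev : (fun s => yO (zt τ₀ s) ^ 8) =ᶠ[nhds t] fun s => 256 * ((1 + s * 1) ^ 12 *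
      ev (MvPolynomial.X 3) (τ₀ + s * conj τ₀) (1 + s * 1) (conj τ₀) 1) := by
    filter_upwards [TaylorAux.pos_open τ₀ 1 (conj τ₀) 1 t ht] with s hs
    have h3 : ev (MvPolynomial.X 3) (τ₀ + s * conj τ₀) (1 + s * 1) (conj τ₀) 1 =
        dl (τ₀ + s * conj τ₀) (1 + s * 1) := by
      simp [ev]
    rw [h3, ← dl_hom (ne_of_pos hs)]
    exact hE _ hs
  have h3 := (hf.pow 8).unique (h2.congr_of_eventuallyEq hev)
  have h4 : ev (MvPolynomial.X 3) (τ₀ + t * conj τ₀) (1 + t * 1) (conj τ₀) 1 =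
      dl (τ₀ + t * conj τ₀) (1 + t * 1) := by
    simp [ev]
  have h5 : ev (dd (MvPolynomial.X 3)) (τ₀ + t * conj τ₀) (1 + t * 1) (conj τ₀) 1 =
      e2s (τ₀ + t * conj τ₀) (1 + t * 1) (conj τ₀) 1 *
        dl (τ₀ + t * conj τ₀) (1 + t * 1) := by
    simp [ev, dd, MvPolynomial.mkDerivation_X]
  rw [h4, h5] at h3
  have h6 : yO (zt τ₀ t) ^ 8 = 256 * ((1 + t * 1) ^ 12 *
      dl (τ₀ + t * conj τ₀) (1 + t * 1)) := by
    have := hev.self_of_nhds
    simp only at this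
    rw [this, h4]
  have h7 : yO (zt τ₀ t) ≠ 0 := yO_ne hE hz
  have h8 : yO (zt τ₀ t) ^ 7 ≠ 0 := pow_ne_zero _ h7
  apply mul_left_cancel₀ h8
  set E := e2s (τ₀ + t * conj τ₀) (1 + t * 1) (conj τ₀) 1
  set D := dl (τ₀ + t * conj τ₀) (1 + t * 1)
  set f := yO (zt τ₀ t)
  set w := (1 + t * 1 : ℂ)
  have h9 : f ^ 7 * (8 * f') = 256 * (12 * w ^ 11 * D + w ^ 12 * (4 * π * (τ₀.im : ℂ) * (E * D))) := by
    have h10 := h3
    simp only [Pi.pow_apply] at h10
    push_cast at h10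
    linear_combination h10
  rw [h9]
  have h11 : f ^ 7 * (f * (12 / w + 4 * π * (τ₀.im : ℂ) * E)) =
      f ^ 8 * (12 / w + 4 * π * (τ₀.im : ℂ) * E) := by ring
  rw [h11, h6]
  field_simp

/-- the main induction -/
theorem main (h : StLine) (hE : StEtaO) (hτ : 0 < τ₀.im) (r : ℕ) : ∀ t : ℂ,
    Pos (τ₀ + t * conj τ₀) (1 + t * 1) →
    LL (ut τ₀ t) (zt τ₀ t) (pp r) = (π * (τ₀.im : ℂ) / 2) ^ r * ((1 + t * 1) ^ r *
      (yO (zt τ₀ t) * ev (WO r) (τ₀ + t * conj τ₀) (1 + t * 1) (conj τ₀) 1)) := by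
  induction r with
  | zero =>
    intro t _
    show LL _ _ 1 = _
    rw [LL_one]
    simp [WO, ev]
  | succ r ih =>
    intro t ht
    have hne := ne_of_pos ht
    have hz : 0 < (zt τ₀ t).im := ht
    have hv : vol τ₀ 1 (conj τ₀) 1 ≠ 0 := by
      rw [vol_eq]
      exact_mod_cast hτ.ne'
    have hG := TaylorAux.deriv_ev h τ₀ 1 (conj τ₀) 1 hv t ht (WO r)
    rw [vol_eq] at hG
    have hf : HasDerivAt (fun s => yO (zt τ₀ s))
        ((1 + t * 1)⁻¹ * LL (ut τ₀ t) (zt τ₀ t) (X * 1 - X * derivative 1)) t := by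
      have := line_deriv (τ₀ := τ₀) 1 ht
      simpa only [LL_one] using this
    have hl := log_deriv h hE hτ ht hf
    set f' := (1 + t * 1)⁻¹ * LL (ut τ₀ t) (zt τ₀ t) (X * 1 - X * derivative 1)
    have h1 : HasDerivAt (fun s : ℂ => 1 + s * 1) 1 t := by
      have := ((hasDerivAt_id t).mul_const 1).const_add (1 : ℂ)
      refine this.congr_deriv ?_
      ring
    have h2 := ((h1.pow r).mul (hf.mul hG)).const_mul ((π * (τ₀.im : ℂ) / 2) ^ r)
    have hev : (fun s => LL (ut τ₀ s) (zt τ₀ s) (pp r)) =ᶠ[nhds t] fun s =>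
        (π * (τ₀.im : ℂ) / 2) ^ r * ((1 + s * 1) ^ r *
      (yO (zt τ₀ s) * ev (WO r) (τ₀ + s * conj τ₀) (1 + s * 1) (conj τ₀) 1)) := by
      filter_upwards [TaylorAux.pos_open τ₀ 1 (conj τ₀) 1 t ht] with s hs
      exact ih s hs
    have h3 := (line_deriv (τ₀ := τ₀) (pp r) ht).unique (h2.congr_of_eventuallyEq hev)
    have h4 : pp (r + 1) = (X * pp r - X * derivative (pp r)) - C ((r : ℂ) + 3 / 2) * pp r := by
      rw [pp_succ]
      ring
    rw [h4, LL_sub _ _ hz, LL_C_mul, ih t ht]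
    have h5 : ev (WO (r + 1)) (τ₀ + t * conj τ₀) (1 + t * 1) (conj τ₀) 1 =
        8 * ev (dd (WO r)) (τ₀ + t * conj τ₀) (1 + t * 1) (conj τ₀) 1 +
          e2s (τ₀ + t * conj τ₀) (1 + t * 1) (conj τ₀) 1 *
            ev (WO r) (τ₀ + t * conj τ₀) (1 + t * 1) (conj τ₀) 1 := by
      simp [WO, ev]
    rw [h5]
    set E := e2s (τ₀ + t * conj τ₀) (1 + t * 1) (conj τ₀) 1
    set G := ev (WO r) (τ₀ + t * conj τ₀) (1 + t * 1) (conj τ₀) 1
    set Gd := ev (dd (WO r)) (τ₀ + t * conj τ₀) (1 + t * 1) (conj τ₀) 1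
    set K := LL (ut τ₀ t) (zt τ₀ t) (X * pp r - X * derivative (pp r))
    set f := yO (zt τ₀ t)
    set w := (1 + t * 1 : ℂ)
    set c := (π * (τ₀.im : ℂ) / 2)
    have hc : (4 * π * (τ₀.im : ℂ)) = 8 * c := by
      simp only [c]
      ring
    rw [hc] at hl h3
    have h6 : (r : ℂ) * w ^ (r - 1) * w = r * w ^ r := by
      cases r with
      | zero => simp
      | succ r => rw [Nat.add_sub_cancel, pow_succ]; ring
    have h7 : K = w * (w⁻¹ * K) := by
      rw [← mul_assoc, mul_inv_cancel₀ hne, one_mul]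
    have hl2 : w * f' = f * (3 / 2 + w * c * E) := by
      have : w * (8 * f') = 8 * (f * (3 / 2 + w * c * E)) := by
        rw [hl]
        field_simp
        ring
      linear_combination this / 8
    rw [h7, h3]
    simp only [Pi.pow_apply, Pi.mul_apply]
    linear_combination (c ^ r * f * G) * h6 + (c ^ r * w ^ r * G) * hl2

end line

/-- values of the Hermite polynomials -/
theorem aeval_hp (r : ℕ) (x : ℝ) : ((aeval x (HP (2 * r + 1)) : ℝ) : ℂ) =
    2 ^ (2 * r + 1) * x * (pp r).eval ((x : ℂ) ^ 2) := by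
  have h1 : ((aeval x (HP (2 * r + 1)) : ℝ) : ℂ) = aeval (x : ℂ) (HP (2 * r + 1)) := by
    have := Polynomial.aeval_algebraMap_apply ℂ x (HP (2 * r + 1))
    exact this.symm
  rw [h1, ← Polynomial.eval_map_algebraMap]
  have h2 : (algebraMap ℤ ℂ) = Int.castRingHom ℂ := rfl
  rw [h2, hp_pp]
  simp

end OLadAux

open OLadAux in
theorem stLadO (h : RZC.StLine) (hE : StEtaO) : StLadO := by
  intro r τ hτ
  have hp0 : Pos (τ + 0 * conj τ) (1 + 0 * 1) := by
    unfold Pos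
    rw [zero_mul, zero_mul, add_zero, add_zero, div_one]
    exact hτ
  have hz : zt τ 0 = τ := by
    unfold zt
    rw [zero_mul, zero_mul, add_zero, add_zero, div_one]
  have hu : ut τ 0 = π * (τ.im : ℂ) / 2 := by
    unfold ut
    rw [zero_mul, add_zero, mul_one]
  have hm := main h hE hτ r 0 hp0
  rw [hz, hu, zero_mul, zero_mul, add_zero, add_zero, one_pow, one_mul] at hm
  have hS : (Real.sqrt (2 * Real.pi * τ.im) : ℂ) ^ 2 = 2 * Real.pi * τ.im := by
    rw [← Complex.ofReal_pow, Real.sq_sqrt (by positivity)]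
    push_cast
    rfl
  have h1 : hthO (2 * r + 1) τ = 4 ^ r * Real.sqrt (2 * Real.pi * τ.im) *
      LL (π * (τ.im : ℂ) / 2) τ (pp r) := by
    unfold hthO LL
    rw [← tsum_mul_left]
    refine tsum_congr fun m => ?_
    rw [aeval_hp]
    have h2 : (((Real.sqrt (2 * Real.pi * τ.im) * m / 2 : ℝ)) : ℂ) ^ 2 =
        π * (τ.im : ℂ) / 2 * (m : ℂ) ^ 2 := by
      push_cast
      rw [div_pow, mul_pow, hS]
      ring
    rw [h2]
    have h3 : (2 : ℂ) ^ (2 * r + 1) = 4 ^ r * 2 := by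
      rw [pow_succ, pow_mul]
      norm_num
    rw [h3]
    unfold et
    push_cast
    ring
  rw [h1, hm]
  have h4 : (2 * (π : ℂ) * (τ.im : ℂ)) ^ r = 4 ^ r * (π * (τ.im : ℂ) / 2) ^ r := by
    rw [← mul_pow]
    congr 1
    ring
  rw [h4]
  ring

end Pool.Agent.Lib.MP_7c08ba_nt.CN
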