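import Pool.Agent.Lib.MP_7c08ba_nt.CN.StOA

set_option autoImplicit false

/-!
Project CN, even `k`, module LatO: the sum over an ideal with the character modulo 4 in terms of
Eisenstein series.
-/

namespace Pool.Agent.Lib.MP_7c08ba_nt.CN

open NumberField IsDedekindDomain Pool.Agent.Lib.MP_7c08ba_nt.RZ
open scoped nonZeroDivisors ComplexConjugate

namespace OLat

private lemma conj_cpow_real {x : ℝ} (hx : 0 < x) (m : ℂ) :
    conj ((x : ℂ) ^ m) = (x : ℂ) ^ (conj m) := by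
  have harg : (x : ℂ).arg ≠ Real.pi := by
    rw [Complex.arg_ofReal_of_nonneg hx.le]
    exact Real.pi_pos.ne
  rw [Complex.cpow_conj _ _ harg, Complex.conj_ofReal]

/-- the power of a complex number in terms of the general term -/
private lemma pow_gE (n : ℕ) (z w : ℂ) (hw : w ≠ 0) :
    w ^ (2 * n + 1) * ((Complex.normSq w : ℝ) : ℂ) ^ (-((n : ℂ) + 1 + z)) =
      conj (gE n (conj z - n) w) := by
  have h0 : (0 : ℝ) < Complex.normSq w := Complex.normSq_pos.2 hw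
  have h0' : ((Complex.normSq w : ℝ) : ℂ) ≠ 0 := by exact_mod_cast h0.ne'
  have hcw : conj w ≠ 0 := (map_ne_zero _).2 hw
  have h1 : conj (((Complex.normSq w : ℝ) : ℂ) ^ (-(conj z - n)))
      = ((Complex.normSq w : ℝ) : ℂ) ^ (-(z - n)) := by
    rw [conj_cpow_real h0]
    simp
  rw [gE, map_mul, map_inv₀, map_pow, h1]
  have h2 : ((Complex.normSq w : ℝ) : ℂ) = conj w * w := Complex.normSq_eq_conj_mul_self
  have h3 : ((Complex.normSq w : ℝ) : ℂ) ^ (-(z - n))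
      = ((Complex.normSq w : ℝ) : ℂ) ^ (-((n : ℂ) + 1 + z)) *
        ((Complex.normSq w : ℝ) : ℂ) ^ (2 * n + 1) := by
    rw [← Complex.cpow_natCast, ← Complex.cpow_add _ _ h0']
    congr 1
    push_cast
    ring
  rw [h3]
  generalize ((Complex.normSq w : ℝ) : ℂ) ^ (-((n : ℂ) + 1 + z)) = P
  rw [h2, mul_pow]
  field_simp

/-- pairs of integers and elements of an ideal -/
private noncomputable def pairEquiv {F : Type} [Field F] [NumberField F] {σ : F →+* ℂ}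
    {a : Ideal (𝓞 F)} {x y : 𝓞 F} (hB : OBasis σ a x y)
    (hinj : ∀ m n : ℤ, (m : 𝓞 F) * x + (n : 𝓞 F) * y = 0 → m = 0 ∧ n = 0) : ℤ × ℤ ≃ a :=
  Equiv.ofBijective
    (fun p => ⟨(p.1 : 𝓞 F) * x + (p.2 : 𝓞 F) * y, (hB.mem _).2 ⟨p.1, p.2, rfl⟩⟩) (by
      constructor
      · intro p p' h
        have h1 : (p.1 : 𝓞 F) * x + (p.2 : 𝓞 F) * y = (p'.1 : 𝓞 F) * x + (p'.2 : 𝓞 F) * y :=
          congrArg Subtype.val h
        obtain ⟨h2, h3⟩ := hinj (p.1 - p'.1) (p.2 - p'.2) (by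
          push_cast
          linear_combination h1)
        exact Prod.ext (sub_eq_zero.1 h2) (sub_eq_zero.1 h3)
      · rintro ⟨z, hz⟩
        obtain ⟨m, n, h⟩ := (hB.mem z).1 hz
        exact ⟨(m, n), Subtype.ext h.symm⟩)

private lemma pairEquiv_val {F : Type} [Field F] [NumberField F] {σ : F →+* ℂ}
    {a : Ideal (𝓞 F)} {x y : 𝓞 F} (hB : OBasis σ a x y)
    (hinj : ∀ m n : ℤ, (m : 𝓞 F) * x + (n : 𝓞 F) * y = 0 → m = 0 ∧ n = 0) (p : ℤ × ℤ) :
    ((pairEquiv hB hinj p : a) : 𝓞 F) = (p.1 : 𝓞 F) * x + (p.2 : 𝓞 F) * y := rfl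

private lemma neg_one_sym {q : ℕ} (h : q % 16 = 7) : jacobiSym (-1) q = -1 := by
  have h1 : Odd q := Nat.odd_iff.2 (by omega)
  rw [jacobiSym.at_neg_one h1]
  exact ZMod.χ₄_nat_three_mod_four (by omega)

private lemma two_sym {q : ℕ} (h : q % 16 = 7) : jacobiSym 2 q = 1 := by
  have h1 : Odd q := Nat.odd_iff.2 (by omega)
  rw [jacobiSym.at_two h1, ZMod.χ₈_nat_eq_if_mod_eight]
  have h2 : q % 8 = 7 := by omega
  rw [h2, if_neg (by omega)]
  simp

/-! ### The character modulo 4 -/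

/-- the indicator of divisibility -/
private noncomputable def dv (a l : ℤ) : ℂ := if a ∣ l then 1 else 0

private lemma hasSum_dv (g : ℤ × ℤ → ℂ) {a b : ℤ} (ha : a ≠ 0) (hb : b ≠ 0) {v : ℂ}
    (h : HasSum (fun p : ℤ × ℤ => g (a * p.1, b * p.2)) v) :
    HasSum (fun p : ℤ × ℤ => dv a p.1 * dv b p.2 * g p) v := by
  have hj : Function.Injective (fun p : ℤ × ℤ => (a * p.1, b * p.2)) := by
    rintro ⟨x, y⟩ ⟨x', y'⟩ h
    simp only [Prod.mk.injEq] at h
    exact Prod.ext (mul_left_cancel₀ ha h.1) (mul_left_cancel₀ hb h.2)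
  refine (hj.hasSum_iff (fun x hx => ?_)).1 ?_
  · by_cases h1 : a ∣ x.1
    · by_cases h2 : b ∣ x.2
      · obtain ⟨l, hl⟩ := h1
        obtain ⟨m, hm⟩ := h2
        exact absurd ⟨(l, m), Prod.ext hl.symm hm.symm⟩ hx
      · have h3 : dv b x.2 = 0 := if_neg h2
        rw [h3, mul_zero, zero_mul]
    · have h3 : dv a x.1 = 0 := if_neg h1
      rw [h3, zero_mul, zero_mul]
  · have h3 : ((fun p : ℤ × ℤ => dv a p.1 * dv b p.2 * g p) ∘
        fun p : ℤ × ℤ => (a * p.1, b * p.2)) = fun p : ℤ × ℤ => g (a * p.1, b * p.2) := by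
      funext p
      have h4 : dv a (a * p.1) = 1 := if_pos (dvd_mul_right _ _)
      have h5 : dv b (b * p.2) = 1 := if_pos (dvd_mul_right _ _)
      simp only [Function.comp_apply]
      rw [h4, h5, one_mul, one_mul]
    rw [h3]
    exact h

private lemma key4 : ∀ k l m γ : ZMod 4, (γ = 1 ∨ γ = 3) →
    ZMod.χ₄ (2 * k * l ^ 2 + l * m * γ + m ^ 2) =
      2 * (if l = 0 then 1 else 0) * (1 - if 2 * m = 0 then 1 else 0) -
        (if 2 * l = 0 then 1 else 0) * (1 - if 2 * m = 0 then 1 else 0) := by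
  decide

private lemma odd4 {γ : ℤ} (h : Odd γ) : (γ : ZMod 4) = 1 ∨ (γ : ZMod 4) = 3 := by
  obtain ⟨c, rfl⟩ := h
  have h1 : ∀ c : ZMod 4, 2 * c + 1 = 1 ∨ 2 * c + 1 = 3 := by decide
  push_cast
  exact h1 c

private lemma zero4 (l : ℤ) : (l : ZMod 4) = 0 ↔ (4 : ℤ) ∣ l := by
  exact ZMod.intCast_zmod_eq_zero_iff_dvd l 4

private lemma two4 (l : ℤ) : (2 : ZMod 4) * l = 0 ↔ (2 : ℤ) ∣ l := by
  have h1 : (2 : ZMod 4) * l = ((2 * l : ℤ) : ZMod 4) := by push_cast; rfl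
  rw [h1, zero4]
  omega

private lemma c4_norm {N k l m γ β : ℤ} (hγ : Odd γ) (hβ : Odd β)
    (hN : N = 2 * k * l ^ 2 + l * m * γ + m ^ 2 * β ^ 2) :
    c4 N = 2 * dv 4 l * (1 - dv 2 m) - dv 2 l * (1 - dv 2 m) := by
  have hβ2 : (β : ZMod 4) ^ 2 = 1 := by
    rcases odd4 hβ with h | h <;> rw [h] <;> decide
  have h1 : (N : ZMod 4) = 2 * k * l ^ 2 + l * m * γ + m ^ 2 := by
    rw [hN]
    push_cast
    rw [hβ2, mul_one]
  unfold c4
  rw [h1, key4 _ _ _ _ (odd4 hγ)]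
  simp only [zero4, two4, dv]
  push_cast
  rfl

private lemma conj_dv (a l : ℤ) : conj (dv a l) = dv a l := by
  unfold dv
  split_ifs <;> simp

private lemma gE_mul (n : ℕ) (t z w : ℂ) : gE n t (z * w) = gE n t z * gE n t w := by
  unfold gE
  rw [mul_pow, mul_inv, Complex.normSq_mul, Complex.ofReal_mul,
    Complex.mul_cpow_ofReal_nonneg (Complex.normSq_nonneg _) (Complex.normSq_nonneg _)]
  ring

/-- the sum with the character modulo 4 -/
private lemma ksum (h2 : StEisF) {q : ℕ} [NeZero q] {χ : DirichletCharacter ℂ q} {n : ℕ}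
    (hq : q.Prime) (hmod : q % 16 = 7) (hχ : ∀ n : ℤ, χ n = (jacobiSym n q : ℂ)) {t u : ℂ}
    (ht : 1 / 2 - (n : ℝ) < t.re) (hu : 0 < u.im) :
    HasSum (fun p : ℤ × ℤ => (2 * dv 4 p.1 * (1 - dv 2 p.2) - dv 2 p.1 * (1 - dv 2 p.2)) *
      (χ p.2 * gE n t (p.1 * q * u + p.2))) (2 * ((u.im : ℂ) ^ (-t) * EO q χ n t u)) := by
  have hχ2 : ∀ m : ℤ, χ ((2 * m : ℤ) : ZMod q) = χ m := by
    intro m
    rw [hχ, hχ, jacobiSym.mul_left, two_sym hmod, one_mul]
  -- the sums at the points `c u`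
  have hS : ∀ c : ℕ, 0 < c → HasSum (fun p : ℤ × ℤ => χ p.2 * gE n t (p.1 * q * (c * u) + p.2))
      (2 * ((u.im : ℂ) ^ (-t) * ((c : ℂ) ^ (-t) * eis q χ n t (c * u)))) := by
    intro c hc
    have hc' : (0 : ℝ) < c := by exact_mod_cast hc
    have him : ((c : ℂ) * u).im = c * u.im := by
      rw [← Complex.ofReal_natCast, Complex.im_ofReal_mul]
    obtain ⟨hs1, hs2⟩ := h2 q inferInstance χ n hq (by omega) hχ (neg_one_sym hmod) t (c * u) ht
      (by rw [him]; positivity)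
    have hs3 := hs1.of_norm.hasSum
    have e1 : ((c * u.im : ℝ) : ℂ) ^ t = (c : ℂ) ^ t * (u.im : ℂ) ^ t := by
      rw [Complex.ofReal_mul, Complex.mul_cpow_ofReal_nonneg hc'.le hu.le, Complex.ofReal_natCast]
    have hcC : (c : ℂ) ≠ 0 := by exact_mod_cast hc.ne'
    have huC : (u.im : ℂ) ≠ 0 := by exact_mod_cast hu.ne'
    have e2 : (c : ℂ) ^ t * (c : ℂ) ^ (-t) = 1 := by
      rw [← Complex.cpow_add _ _ hcC, add_neg_cancel, Complex.cpow_zero]
    have e3 : (u.im : ℂ) ^ t * (u.im : ℂ) ^ (-t) = 1 := by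
      rw [← Complex.cpow_add _ _ huC, add_neg_cancel, Complex.cpow_zero]
    rw [him, e1] at hs2
    generalize (∑' p : ℤ × ℤ, χ p.2 * gE n t (p.1 * q * (c * u) + p.2)) = S at hs2 hs3
    have e4 : S = 2 * ((u.im : ℂ) ^ (-t) * ((c : ℂ) ^ (-t) * eis q χ n t (c * u))) := by
      linear_combination (u.im : ℂ) ^ (-t) * (c : ℂ) ^ (-t) * hs2 -
        S * (u.im : ℂ) ^ t * (u.im : ℂ) ^ (-t) * e2 - S * e3
    rw [← e4]
    exact hs3
  have hS1 := hS 1 one_pos
  have hS2 := hS 2 two_pos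
  have hS4 := hS 4 (by norm_num)
  -- the four sums
  obtain ⟨g, hg⟩ : ∃ g : ℤ × ℤ → ℂ, g = fun p => χ p.2 * gE n t (p.1 * q * u + p.2) := ⟨_, rfl⟩
  have k1 : ∀ (c : ℕ) (v : ℂ), 0 < c →
      HasSum (fun p : ℤ × ℤ => χ p.2 * gE n t (p.1 * q * (c * u) + p.2)) v →
      HasSum (fun p : ℤ × ℤ => dv c p.1 * dv 1 p.2 * g p) v := by
    intro c v hc hv
    refine hasSum_dv g (by exact_mod_cast hc.ne') one_ne_zero ?_
    have h3 : (fun p : ℤ × ℤ => g (c * p.1, 1 * p.2)) =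
        fun p : ℤ × ℤ => χ p.2 * gE n t (p.1 * q * (c * u) + p.2) := by
      funext p
      rw [hg]
      simp only
      rw [one_mul]
      congr 2
      push_cast
      ring
    rw [h3]
    exact hv
  have k2 : ∀ (c : ℕ) (v : ℂ), 0 < c →
      HasSum (fun p : ℤ × ℤ => χ p.2 * gE n t (p.1 * q * (c * u) + p.2)) v →
      HasSum (fun p : ℤ × ℤ => dv (2 * c) p.1 * dv 2 p.2 * g p) (gE n t 2 * v) := by
    intro c v hc hv
    refine hasSum_dv g (by positivity) two_ne_zero ?_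
    have h3 : (fun p : ℤ × ℤ => g (2 * c * p.1, 2 * p.2)) =
        fun p : ℤ × ℤ => gE n t 2 * (χ p.2 * gE n t (p.1 * q * (c * u) + p.2)) := by
      funext p
      rw [hg]
      simp only
      rw [hχ2]
      have h4 : ((2 * c * p.1 : ℤ) : ℂ) * q * u + (2 * p.2 : ℤ) =
          2 * (p.1 * q * (c * u) + p.2) := by
        push_cast
        ring
      rw [h4, gE_mul]
      ring
    rw [h3]
    exact hv.mul_left _
  have k41 := k1 4 _ (by norm_num) hS4
  have k21 := k1 2 _ two_pos hS2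
  have k42 := k2 2 _ two_pos hS2
  have k22 := k2 1 _ one_pos hS1
  have hd1 : ∀ m : ℤ, dv 1 m = 1 := fun m => if_pos (one_dvd m)
  have htot := (((k41.mul_left 2).sub (k42.mul_left 2)).sub k21).add k22
  have e1 : (fun p : ℤ × ℤ => (2 * dv 4 p.1 * (1 - dv 2 p.2) - dv 2 p.1 * (1 - dv 2 p.2)) *
      (χ p.2 * gE n t (p.1 * q * u + p.2))) = fun p : ℤ × ℤ =>
      2 * (dv ((4 : ℕ) : ℤ) p.1 * dv 1 p.2 * g p) -
        2 * (dv (2 * ((2 : ℕ) : ℤ)) p.1 * dv 2 p.2 * g p) -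
        dv ((2 : ℕ) : ℤ) p.1 * dv 1 p.2 * g p + dv (2 * ((1 : ℕ) : ℤ)) p.1 * dv 2 p.2 * g p := by
    funext p
    have h3 : (2 * ((2 : ℕ) : ℤ)) = 4 := by norm_num
    have h4 : (2 * ((1 : ℕ) : ℤ)) = 2 := by norm_num
    rw [h3, h4, hd1, hg]
    push_cast
    ring
  rw [e1]
  have e2 : 2 * ((u.im : ℂ) ^ (-t) * EO q χ n t u) =
      2 * (2 * ((u.im : ℂ) ^ (-t) * (((4 : ℕ) : ℂ) ^ (-t) * eis q χ n t ((4 : ℕ) * u)))) -
      2 * (gE n t 2 *
        (2 * ((u.im : ℂ) ^ (-t) * (((2 : ℕ) : ℂ) ^ (-t) * eis q χ n t ((2 : ℕ) * u))))) -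
      2 * ((u.im : ℂ) ^ (-t) * (((2 : ℕ) : ℂ) ^ (-t) * eis q χ n t ((2 : ℕ) * u))) +
      gE n t 2 *
        (2 * ((u.im : ℂ) ^ (-t) * (((1 : ℕ) : ℂ) ^ (-t) * eis q χ n t ((1 : ℕ) * u)))) := by
    unfold EO
    push_cast
    rw [Complex.one_cpow, one_mul]
    ring_nf
  rw [e2]
  exact htot

end OLat

open OLat in
/-- (LatO) sums over an ideal in terms of Eisenstein series. -/
theorem stLatO (h1 : StEisF) (h2 : StBas) (h3 : StBase) : StLatO := by
  intro q _ F _ _ s σ χ cj n φ a X α β hD hφ hB h2X hqα hβ hβq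
  obtain ⟨hco, hcjcj, hcjs, -, -, hnorm, -, -, -, -, -⟩ := h2 q F _ _ s σ χ cj hD
  obtain ⟨-, hdet, -, hinj, -⟩ := h3 q F _ _ s σ χ cj hD
  have hq0 : (0 : ℝ) < q := by exact_mod_cast hD.prime.pos
  have hqC : (q : ℂ) ≠ 0 := by exact_mod_cast hD.prime.ne_zero
  have hmod := hD.mod
  have hs0 : s ≠ 0 := by
    intro h
    have h4 := hD.sq
    rw [h] at h4
    have h5 : (q : 𝓞 F) = 0 := by linear_combination h4
    exact hD.prime.ne_zero (by exact_mod_cast h5)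
  have hβ0 : 0 < β := hβ.pos
  have hβF : (β : 𝓞 F) ≠ 0 := by exact_mod_cast hβ0.ne'
  -- the norm of `a`
  have hNa : Ideal.absNorm a = β := by
    have h4 := hdet a X (β : 𝓞 F) hB
    rw [map_natCast] at h4
    have h5 : 2 * cj X = α - s := by
      have h6 := congrArg cj h2X
      rw [map_mul, map_add, map_ofNat, map_intCast, hcjs] at h6
      rw [h6]
      ring
    have h6 : (2 * s) * ((Ideal.absNorm a : ℕ) : 𝓞 F) = (2 * s) * (β : 𝓞 F) := by
      linear_combination (β : 𝓞 F) * h2X - (β : 𝓞 F) * h5 - 2 * h4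
    have h7 := mul_left_cancel₀ (mul_ne_zero two_ne_zero hs0) h6
    exact_mod_cast h7
  have hβa : (β : 𝓞 F) ∈ a := by
    rw [← hNa]
    exact Ideal.absNorm_mem a
  have hcop : IsCoprime a (Ideal.span {s}) := by
    rw [Ideal.isCoprime_iff_exists]
    obtain ⟨u, v, huv⟩ := Nat.isCoprime_iff_coprime.2 hβq
    refine ⟨u * β, Ideal.mul_mem_left _ _ hβa, v * q, ?_, ?_⟩
    · rw [Ideal.mem_span_singleton]
      exact Dvd.intro (-(v * s)) (by linear_combination -(v : 𝓞 F) * hD.sq)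
    · exact_mod_cast congrArg (Int.cast : ℤ → 𝓞 F) huv
  refine ⟨hNa, hcop, fun z hz => ?_⟩
  -- `s` divides `X`
  have hsX : s ∣ X := by
    obtain ⟨α', rfl⟩ := hqα
    obtain ⟨k, hk⟩ : ∃ k : ℕ, q = 2 * k + 1 := ⟨q / 2, by omega⟩
    refine ⟨-(s * X) - k * (1 - s * α'), ?_⟩
    have hk' : (q : 𝓞 F) = 2 * k + 1 := by exact_mod_cast congrArg (Nat.cast : ℕ → 𝓞 F) hk
    push_cast at h2X
    linear_combination (X - k * α') * hD.sq - X * hk' - (k : 𝓞 F) * h2X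
  -- `α` is odd
  have hα : Odd α := by
    obtain ⟨A, B, hAB, hd⟩ := hco X
    obtain ⟨h4, h5⟩ := hinj a X (β : 𝓞 F) hB (2 * (B - 1) * β) (A - α * B) (by
      push_cast
      linear_combination ((B : 𝓞 F) * β) * h2X - (β : 𝓞 F) * hAB)
    have h6 : B = 1 := by
      rcases mul_eq_zero.1 h4 with h7 | h7 <;> omega
    rw [h6, mul_one] at h5
    rw [h6] at hd
    rw [Int.odd_iff]
    omega
  obtain ⟨k, hk⟩ : ∃ k : ℤ, α ^ 2 + q = 8 * k := by
    obtain ⟨j, hj⟩ := Int.eight_dvd_sq_sub_one_of_odd hα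
    exact ⟨j + (q + 1) / 8, by omega⟩
  -- the point `u`
  have hσβ : σ ((β : 𝓞 F) : F) = (β : ℂ) := by
    simp
  have hσX : 2 * σ X = α + Complex.I * Real.sqrt q := by
    have h4 := congrArg (fun x : 𝓞 F => σ (x : F)) h2X
    simp only [map_mul, map_add, map_ofNat, map_intCast] at h4
    have h5 := hD.im
    rw [RingOfIntegers.coe_eq_algebraMap] at h5
    rw [h5] at h4
    exact h4
  have hβC : (β : ℂ) ≠ 0 := by exact_mod_cast hβ0.ne'
  obtain ⟨u, hu⟩ : ∃ u, u = σ X / (q * β) := ⟨_, rfl⟩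
  rw [← hu]
  have huX : σ X = q * u * β := by
    rw [hu]
    field_simp
  have hupos : 0 < u.im := by
    have h4 : (2 * q * β : ℝ) * u.im = Real.sqrt q := by
      have h5 := congrArg Complex.im hσX
      rw [huX] at h5
      have h6 : 2 * (q * u * β) = ((2 * q * β : ℝ) : ℂ) * u := by
        push_cast
        ring
      rw [h6, Complex.im_ofReal_mul] at h5
      simpa using h5
    have h5 : 0 < Real.sqrt q := Real.sqrt_pos.2 hq0
    have h6 : (0 : ℝ) < β := by exact_mod_cast hβ0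
    by_contra h7
    rw [not_lt] at h7
    have h8 : (2 * q * β : ℝ) * u.im ≤ 0 := mul_nonpos_of_nonneg_of_nonpos (by positivity) h7
    linarith
  -- the norm of the elements
  have hN4 : ∀ l m : ℤ, ((Ideal.absNorm (Ideal.span {(l : 𝓞 F) * X + (m : 𝓞 F) * β}) : ℕ) : ℤ) =
      2 * k * l ^ 2 + l * m * (α * β) + m ^ 2 * (β : ℤ) ^ 2 := by
    intro l m
    have h4 := hnorm ((l : 𝓞 F) * X + (m : 𝓞 F) * β)
    have h5 : σ (((l : 𝓞 F) * X + (m : 𝓞 F) * β : 𝓞 F) : F) = l * σ X + m * β := by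
      push_cast
      simp
    rw [h5] at h4
    have h6 : 4 * Complex.normSq (l * σ X + m * β) = (l * α + 2 * m * β) ^ 2 + q * l ^ 2 := by
      have h7 : Complex.normSq (2 * (l * σ X + m * β)) = 4 * Complex.normSq (l * σ X + m * β) := by
        rw [Complex.normSq_mul]
        norm_num
      rw [← h7]
      have h8 : 2 * (l * σ X + m * β) = ((l * α + 2 * m * β : ℝ) : ℂ) +
          ((l * Real.sqrt q : ℝ) : ℂ) * Complex.I := by
        push_cast
        linear_combination (l : ℂ) * hσX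
      rw [h8, Complex.normSq_add_mul_I, mul_pow, Real.sq_sqrt hq0.le]
      ring
    rw [h4] at h6
    have h7 : 4 * ((Ideal.absNorm (Ideal.span {(l : 𝓞 F) * X + (m : 𝓞 F) * β}) : ℕ) : ℤ) =
        (l * α + 2 * m * β) ^ 2 + q * l ^ 2 := by
      exact_mod_cast h6
    have h8 : 4 * ((Ideal.absNorm (Ideal.span {(l : 𝓞 F) * X + (m : 𝓞 F) * β}) : ℕ) : ℤ) =
        4 * (2 * k * l ^ 2 + l * m * (α * β) + m ^ 2 * (β : ℤ) ^ 2) := by
      rw [h7]
      linear_combination l ^ 2 * hk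
    omega
  have hβZ : Odd (β : ℤ) := by exact_mod_cast hβ
  have hc4 : ∀ l m : ℤ, c4 (Ideal.absNorm (Ideal.span {(l : 𝓞 F) * X + (m : 𝓞 F) * β}) : ℕ) =
      2 * dv 4 l * (1 - dv 2 m) - dv 2 l * (1 - dv 2 m) := fun l m =>
    c4_norm (hα.mul hβZ) hβZ (hN4 l m)
  -- the value at `β`
  have hφβ : φ (Ideal.span {(β : 𝓞 F)}) = (jacobiSym β q : ℂ) * (β : ℂ) ^ (2 * n + 1) := by
    have h4 := hφ (β : 𝓞 F) β hβF (by rw [Int.cast_natCast, sub_self]; exact dvd_zero s)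
    have h5 := hc4 0 1
    rw [Int.cast_zero, zero_mul, zero_add, Int.cast_one, one_mul] at h5
    have h6 : dv 4 0 = 1 := if_pos (dvd_zero _)
    have h7 : dv 2 0 = 1 := if_pos (dvd_zero _)
    have h8 : dv 2 1 = 0 := if_neg (by norm_num)
    rw [h4, h5, h6, h7, h8, hσβ]
    ring
  obtain ⟨E, hE⟩ : ∃ E : ℂ, E = (n : ℂ) + 1 + z := ⟨_, rfl⟩
  rw [← hE]
  have hterm : ∀ p : ℤ × ℤ, φ (Ideal.span {((pairEquiv hB (hinj a X β hB) p : a) : 𝓞 F)}) *
      (Ideal.absNorm (Ideal.span {((pairEquiv hB (hinj a X β hB) p : a) : 𝓞 F)}) : ℂ) ^ (-E) =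
      φ (Ideal.span {(β : 𝓞 F)}) * (β : ℂ) ^ (-(2 * E)) *
        conj ((2 * dv 4 p.1 * (1 - dv 2 p.2) - dv 2 p.1 * (1 - dv 2 p.2)) *
          (χ p.2 * gE n (conj z - n) (p.1 * q * u + p.2))) := by
    rintro ⟨l, m⟩
    rw [pairEquiv_val]
    dsimp only
    by_cases hx : (l : 𝓞 F) * X + (m : 𝓞 F) * β = 0
    · obtain ⟨rfl, rfl⟩ := hinj a X β hB l m hx
      have h1 : χ ((0 : ℤ) : ZMod q) = 0 := by
        rw [hD.chi 0, jacobiSym.zero_left (by have := hD.mod; omega)]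
        simp
      rw [hx, Ideal.span_singleton_eq_bot.2 rfl, ← Ideal.zero_eq_bot, map_zero, zero_mul, h1,
        zero_mul, mul_zero, map_zero, mul_zero]
    · have hσx : σ (((l : 𝓞 F) * X + (m : 𝓞 F) * β : 𝓞 F) : F) =
          β * (l * q * u + m) := by
        have h1 : σ (((l : 𝓞 F) * X + (m : 𝓞 F) * β : 𝓞 F) : F) = l * σ X + m * β := by
          push_cast
          simp
        rw [h1, huX]
        ring
      have hσx0 : σ (((l : 𝓞 F) * X + (m : 𝓞 F) * β : 𝓞 F) : F) ≠ 0 := by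
        intro h
        rw [map_eq_zero] at h
        exact hx (by exact_mod_cast h)
      have hw : (l : ℂ) * q * u + m ≠ 0 := by
        intro h
        rw [hσx, h, mul_zero] at hσx0
        exact hσx0 rfl
      have hdvd : s ∣ ((l : 𝓞 F) * X + (m : 𝓞 F) * β) - ((m * β : ℤ) : 𝓞 F) := by
        have h1 : ((l : 𝓞 F) * X + (m : 𝓞 F) * β) - ((m * β : ℤ) : 𝓞 F) = (l : 𝓞 F) * X := by
          push_cast
          ring
        rw [h1]
        exact Dvd.dvd.mul_left hsX _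
      have h2 : (Ideal.absNorm (Ideal.span {(l : 𝓞 F) * X + (m : 𝓞 F) * β}) : ℂ) =
          (((β : ℝ) * β : ℝ) : ℂ) *
            ((Complex.normSq ((l : ℂ) * q * u + m) : ℝ) : ℂ) := by
        have h3 : ((β : ℝ) * β : ℝ) = Complex.normSq (β : ℂ) := (Complex.normSq_natCast β).symm
        rw [h3, ← Complex.ofReal_mul, ← Complex.normSq_mul, ← hσx, hnorm]
        exact (Complex.ofReal_natCast _).symm
      have h5 : (((β : ℝ) * β : ℝ) : ℂ) ^ (-E) = (β : ℂ) ^ (-(2 * E)) := by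
        rw [Complex.ofReal_mul, Complex.mul_cpow_ofReal_nonneg (Nat.cast_nonneg _)
          (Nat.cast_nonneg _), Complex.ofReal_natCast, ← Complex.cpow_add _ _ hβC]
        congr 1
        ring
      rw [hφ _ (m * β) hx hdvd, hc4, h2, Complex.mul_cpow_ofReal_nonneg (by positivity)
        (Complex.normSq_nonneg _), h5, map_mul, map_mul, ← pow_gE n z _ hw, hφβ, hσx, ← hE,
        jacobiSym.mul_left, hD.chi m]
      simp only [map_intCast, Int.cast_mul, map_sub, map_mul, map_ofNat, map_one, conj_dv]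
      generalize (l : ℂ) * q * u + m = w
      rw [mul_pow]
      ring
  rw [← Equiv.tsum_eq (pairEquiv hB (hinj a X β hB)), tsum_congr hterm, tsum_mul_left,
    ← Complex.conj_tsum, (ksum h1 hD.prime hD.mod hD.chi (by simp; linarith) hupos).tsum_eq,
    map_mul, map_mul, map_ofNat, conj_cpow_real hupos]
  have h4 : conj (-(conj z - (n : ℂ))) = (n : ℂ) - z := by
    simp
  rw [h4]
  ring

end Pool.Agent.Lib.MP_7c08ba_nt.CN
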