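import Mathlib
import Pool.Agent.Lib.MP_7c08ba_nt.CN.StOA
import Pool.Agent.Lib.MP_7c08ba_nt.CN.ALs

set_option autoImplicit false

/-!
(LsO) the `L`-function in terms of Eisenstein series, even `k`.
-/

namespace Pool.Agent.Lib.MP_7c08ba_nt.CN

open NumberField IsDedekindDomain MeasureTheory Polynomial Pool.Agent.Lib.MP_7c08ba_nt.RZ
open scoped nonZeroDivisors ComplexConjugate

namespace OLsAux

section

variable {q : ℕ} {F : Type} [Field F] [NumberField F] {s : 𝓞 F} {σ : F →+* ℂ}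
  {χ : DirichletCharacter ℂ q} {cj : 𝓞 F ≃+* 𝓞 F} {n : ℕ} {φ : Ideal (𝓞 F) →*₀ ℂ}

/-- The size of the character. -/
theorem norm_le (h3 : StCjO) (D : Dat q s σ χ cj) (hφ : IsCanO q s σ (2 * n + 1) φ)
    (b : Ideal (𝓞 F)) : ‖φ b‖ ≤ (Ideal.absNorm b : ℝ) ^ ((n : ℝ) + 1 / 2) := by
  obtain ⟨-, c2, c3, c4⟩ := h3 q F _ _ s σ χ cj n φ D hφ
  by_cases hb : IsCoprime b (Ideal.span {s})
  · by_cases ho : Odd (Ideal.absNorm b)
    · have h := c2 b hb ho
      have hN : (0 : ℝ) ≤ (Ideal.absNorm b : ℝ) := Nat.cast_nonneg _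
      have e : ((Ideal.absNorm b : ℝ) ^ ((n : ℝ) + 1 / 2)) ^ 2 =
          (Ideal.absNorm b : ℝ) ^ (2 * n + 1) := by
        rw [← Real.rpow_natCast, ← Real.rpow_mul hN, ← Real.rpow_natCast]
        congr 1
        push_cast
        ring
      rw [← e] at h
      exact le_of_eq ((pow_left_inj₀ (norm_nonneg _) (by positivity) two_ne_zero).1 h)
    · rw [c4 b ho, norm_zero]
      positivity
  · rw [c3 b hb, norm_zero]
    positivity

theorem ne_zero (h3 : StCjO) (D : Dat q s σ χ cj) (hφ : IsCanO q s σ (2 * n + 1) φ)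
    {b : Ideal (𝓞 F)} (hb : IsCoprime b (Ideal.span {s})) (ho : Odd (Ideal.absNorm b)) :
    φ b ≠ 0 := by
  obtain ⟨-, c2, -, -⟩ := h3 q F _ _ s σ χ cj n φ D hφ
  have h := c2 b hb ho
  intro h1
  rw [h1, norm_zero] at h
  have hN : (0 : ℝ) < (Ideal.absNorm b : ℝ) := by
    exact_mod_cast ho.pos
  have : (0 : ℝ) < (Ideal.absNorm b : ℝ) ^ (2 * n + 1) := by positivity
  rw [← h] at this
  norm_num at this

theorem cpow_neg_diff {x : ℂ} (hx : x ≠ 0) (w : ℂ) :
    DifferentiableAt ℂ (fun t : ℂ => x ^ (-t)) w :=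
  DifferentiableAt.const_cpow differentiableAt_id.neg (Or.inl hx)

theorem diffEO [NeZero q] (h4 : StEisA) (D : Dat q s σ χ cj) {u : ℂ} (hu : 0 < u.im)
    {w : ℂ} (hw : -(n : ℝ) - 1 / 2 < w.re) :
    DifferentiableAt ℂ (fun t => EO q χ n t u) w := by
  have hq2 : 2 < q := by
    have := D.mod
    have := D.prime.two_le
    omega
  obtain ⟨hd, -⟩ := h4 q inferInstance χ n D.prime hq2 D.chi
  have hopen : IsOpen {w : ℂ | -(n : ℝ) - 1 / 2 < w.re} :=
    isOpen_lt continuous_const Complex.continuous_re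
  have hE : ∀ v : ℂ, 0 < v.im → DifferentiableAt ℂ (fun t => eis q χ n t v) w :=
    fun v hv => (hd v hv).differentiableAt (hopen.mem_nhds hw)
  have hg : DifferentiableAt ℂ (fun t : ℂ => gE n t 2) w := by
    unfold gE
    refine DifferentiableAt.const_mul (cpow_neg_diff ?_ w) _
    have : Complex.normSq 2 ≠ 0 := by
      rw [Ne, Complex.normSq_eq_zero]
      norm_num
    exact_mod_cast this
  have h4u : 0 < (4 * u).im := by
    have : (4 * u).im = 4 * u.im := by simp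
    rw [this]; linarith
  have h2u : 0 < (2 * u).im := by
    have : (2 * u).im = 2 * u.im := by simp
    rw [this]; linarith
  unfold EO
  refine DifferentiableAt.add (DifferentiableAt.sub ?_ ?_) ?_
  · exact ((cpow_neg_diff (by norm_num) w).const_mul 2).mul (hE _ h4u)
  · exact (((hg.const_mul 2).const_add 1).mul (cpow_neg_diff (by norm_num) w)).mul (hE _ h2u)
  · exact hg.mul (hE _ hu)

theorem diff [NeZero q] (h4 : StEisA) (D : Dat q s σ χ cj) (c : Reps σ) :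
    DifferentiableOn ℂ (LamO q χ n φ c) {z | -1 / 2 < z.re} := by
  intro z hz
  have hz' : -1 / 2 < z.re := hz
  have hq0 : 0 < q := D.prime.pos
  have hbase : (2 * Real.sqrt q : ℂ) ≠ 0 := by
    have : (0 : ℝ) < Real.sqrt q := Real.sqrt_pos.2 (by exact_mod_cast hq0)
    exact mul_ne_zero two_ne_zero (by exact_mod_cast this.ne')
  apply DifferentiableAt.differentiableWithinAt
  have hA : ∀ A : ClassGroup (𝓞 F), DifferentiableAt ℂ
      (fun z => conj (EO q χ n (conj z - n) (σ (c.X A) / (q * σ (c.Y A))))) z := by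
    intro A
    have hu : 0 < (σ (c.X A) / (q * σ (c.Y A))).im := LsAux.im_pos hq0 (c.bas A).pos
    have hw : DifferentiableAt ℂ (fun w => EO q χ n w (σ (c.X A) / (q * σ (c.Y A))))
        (conj z - n) := by
      refine diffEO h4 D hu ?_
      rw [Complex.sub_re, Complex.conj_re, Complex.natCast_re]
      linarith
    refine LsAux.diff_conj (f := fun w => EO q χ n (w - n) (σ (c.X A) / (q * σ (c.Y A)))) ?_
    exact hw.comp (conj z) (differentiableAt_id.sub_const (n : ℂ))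
  unfold LamO
  refine DifferentiableAt.mul ?_ ?_
  · exact DifferentiableAt.const_cpow (differentiableAt_id.const_add _) (Or.inl hbase)
  · exact DifferentiableAt.fun_sum fun A _ => (hA A).const_mul _

/-- the powers -/
theorem powers (D : Dat q s σ χ cj) {X : 𝓞 F} {α : ℤ} {β : ℕ} (hβ : 0 < β)
    (h2 : 2 * X = α + s) (n : ℕ) (z : ℂ) :
    (β : ℂ) ^ ((n : ℂ) + 1 + z) * ((β : ℂ) ^ (-(2 * ((n : ℂ) + 1 + z))) *
      ((σ X / (q * β)).im : ℂ) ^ ((n : ℂ) - z)) =
    (2 * Real.sqrt q : ℂ) ^ ((n : ℂ) + 1 + z) * ((σ X / (q * β)).im : ℂ) ^ (2 * n + 1) := by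
  have hq0 : (0 : ℝ) < q := by exact_mod_cast D.prime.pos
  have hsq : (0 : ℝ) < Real.sqrt q := Real.sqrt_pos.2 hq0
  have hb0 : (0 : ℝ) < β := by exact_mod_cast hβ
  have hbC : (β : ℂ) ≠ 0 := by exact_mod_cast hβ.ne'
  have hσ : 2 * σ X = α + Complex.I * Real.sqrt q := by
    have h := congrArg (fun x : 𝓞 F => σ (x : F)) h2
    simp only [map_mul, map_add, map_ofNat, map_intCast] at h
    rw [← D.im]
    simpa using h
  have him : (σ X / (q * β)).im = (2 * Real.sqrt q * β)⁻¹ := by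
    have h1 : σ X = (α + Complex.I * Real.sqrt q) / 2 := by
      rw [← hσ]; ring
    have h3 : σ X / (q * β) = ((((α : ℝ) / (2 * q * β) : ℝ)) : ℂ) +
        (((Real.sqrt q / (2 * q * β) : ℝ)) : ℂ) * Complex.I := by
      rw [h1]
      push_cast
      ring
    rw [h3]
    simp only [Complex.add_im, Complex.ofReal_im, Complex.mul_im, Complex.ofReal_re,
      Complex.I_im, Complex.I_re, mul_one, mul_zero, add_zero, zero_add]
    have h5 : Real.sqrt q * Real.sqrt q = q := Real.mul_self_sqrt hq0.le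
    field_simp
    nlinarith [h5]
  rw [him]
  set y : ℝ := (2 * Real.sqrt q * β)⁻¹ with hy
  have hy0 : 0 < y := by rw [hy]; positivity
  have hyC : (y : ℂ) ≠ 0 := by exact_mod_cast hy0.ne'
  set E : ℂ := (n : ℂ) + 1 + z with hE
  have e1 : (y : ℂ) ^ ((n : ℂ) - z) = (y : ℂ) ^ (2 * n + 1) * (y : ℂ) ^ (-E) := by
    rw [← Complex.cpow_natCast, ← Complex.cpow_add _ _ hyC, hE]
    congr 1
    push_cast
    ring
  have e2 : (y : ℂ) ^ (-E) = (2 * Real.sqrt q : ℂ) ^ E * (β : ℂ) ^ E := by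
    have h1 : (y : ℂ) = (((2 * Real.sqrt q * β : ℝ) : ℂ))⁻¹ := by
      rw [hy]; push_cast; rfl
    have h3 : ((2 * Real.sqrt q * β : ℝ) : ℂ) = ((2 * Real.sqrt q : ℝ) : ℂ) * ((β : ℝ) : ℂ) := by
      push_cast; ring
    have harg : ((2 * Real.sqrt q * β : ℝ) : ℂ).arg ≠ Real.pi := by
      rw [Complex.arg_ofReal_of_nonneg (by positivity)]
      exact Real.pi_pos.ne
    rw [h1, Complex.inv_cpow _ _ harg, Complex.cpow_neg, inv_inv, h3,
      Complex.mul_cpow_ofReal_nonneg (by positivity) (by positivity)]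
    push_cast
    ring
  have e3 : (β : ℂ) ^ (-(2 * E)) * (β : ℂ) ^ E * (β : ℂ) ^ E = 1 := by
    rw [← Complex.cpow_add _ _ hbC, ← Complex.cpow_add _ _ hbC]
    have : -(2 * E) + E + E = 0 := by ring
    rw [this, Complex.cpow_zero]
  rw [e1, e2]
  linear_combination (2 * Real.sqrt q : ℂ) ^ E * (y : ℂ) ^ (2 * n + 1) * e3

end

end OLsAux

open OLsAux

theorem stLsO (h1 : StDec) (h2 : StLatO) (h3 : StCjO) (h4 : RZ.StEisA) : StLsO := by
  intro q hNZ F iF iNF s σ χ cj n φ c α β D hφ hR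
  refine ⟨diff h4 D c, ?_⟩
  intro z hz
  have hB : ∀ A, OBasis σ (c.R A : Ideal (𝓞 F)) (c.X A) ((β A : ℕ) : 𝓞 F) := by
    intro A
    rw [← hR.Y A]
    exact c.bas A
  have hL := fun A => h2 q hNZ F _ _ s σ χ cj n φ (c.R A : Ideal (𝓞 F)) (c.X A) (α A) (β A) D hφ
    (hB A) (hR.two A) (hR.dvd A) (hR.odd A) (hR.cop A)
  have hne : ∀ A, φ (c.R A : Ideal (𝓞 F)) ≠ 0 := fun A =>
    ne_zero h3 D hφ (hL A).2.1 (by rw [(hL A).1]; exact hR.odd A)
  obtain ⟨-, -, hP, hsum⟩ := h1 q F _ _ s σ χ cj n φ c D (norm_le h3 D hφ) hne z hz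
  have h5 : ∑' b : (Ideal (𝓞 F))⁰, φ (b : Ideal (𝓞 F)) *
        (Ideal.absNorm (b : Ideal (𝓞 F)) : ℂ) ^ (-((n : ℂ) + 1 + z)) = LamO q χ n φ c z := by
    rw [hsum, LamO, Finset.mul_sum]
    refine Finset.sum_congr rfl fun A _ => ?_
    have h6 := (hL A).2.2 z hz
    have h7 := powers D (hR.odd A).pos (hR.two A) n z
    have h8 : σ (((β A : ℕ) : 𝓞 F) : F) = (β A : ℂ) := by
      simp
    rw [h6, (hL A).1, hR.Y A, h8]
    linear_combination (φ (c.R A : Ideal (𝓞 F)))⁻¹ * φ (Ideal.span {((β A : ℕ) : 𝓞 F)}) *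
      conj (EO q χ n (conj z - n) (σ (c.X A) / (q * β A))) * h7
  rw [h5] at hP
  have e : ∀ v : HeightOneSpectrum (𝓞 F),
      (1 - φ v.asIdeal * (Ideal.absNorm v.asIdeal : ℂ) ^ (-(((n + 1 : ℕ) : ℂ) + z)))⁻¹ =
      (1 - φ v.asIdeal * (Ideal.absNorm v.asIdeal : ℂ) ^ (-((n : ℂ) + 1 + z)))⁻¹ := by
    intro v
    rw [Nat.cast_succ]
  simp only [e]
  exact hP

end Pool.Agent.Lib.MP_7c08ba_nt.CN
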