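import Pool.Agent.Lib.MP_7c08ba_nt.CN.DefsO
import Pool.Agent.Lib.MP_7c08ba_nt.CN.NV

set_option autoImplicit false

/-! Project CN, even `k`: assembly of the analytic part and the `2`-adic part. -/

namespace Pool.Agent.Lib.MP_7c08ba_nt.CN

open NumberField IsDedekindDomain
open scoped nonZeroDivisors ComplexConjugate

namespace ONV

variable {q : ℕ} {F : Type} [Field F] [NumberField F] {s : 𝓞 F} {σ : F →+* ℂ}

theorem isCanO_neg {m : ℕ} {φ : Ideal (𝓞 F) →*₀ ℂ} (h : IsCanO q s σ m φ) :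
    IsCanO q (-s) σ m φ := fun t a ht hta => h t a ht (neg_dvd.1 hta)

theorem main (h1 : StAnO) (h2 : StPaO) (h3 : StSysO) {A : ValuationSubring ℂ} {r : ℕ}
    {φ : Ideal (𝓞 F) →*₀ ℂ} (hF : RZC.FieldC q F (s : F)) (him : 0 < (σ s).im)
    (hA : RZC.Above2 A) (hφ : IsCanO q s σ (2 * (2 * r + 1) + 1) φ) (hres : Res1 A s φ) :
    ∃ Λ : ℂ → ℂ, IsLF φ (2 * r + 2) Λ ∧ Λ 0 ≠ 0 := by
  obtain ⟨χ, cj, hD⟩ := NVAux.exists_dat hF him
  obtain ⟨b, g, d, d', hd, hd', hq, hq', hcop⟩ := h3 q F _ _ s hF 1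
  have hq0 : NeZero q := ⟨hF.1.ne_zero⟩
  obtain ⟨Λ, hΛ, c, hc, hv⟩ := h1 q hq0 F _ _ s σ χ cj (2 * r + 1) φ hD hφ 1 b g d d' le_rfl
    hd hd' hq hq' hcop
  refine ⟨Λ, hΛ, ?_⟩
  have hS : SumO σ (2 * r + 1) (2 ^ 1) g d φ ≠ 0 := by
    refine h2 q F _ _ s σ A r φ hF him hA hres 1 b g d hd fun C =>
      (mul_dvd_mul_left _ ?_).trans (hcop C 1).2
    rw [mul_pow]
    exact dvd_mul_right _ _
  have hS' : SumO σ (2 * r + 1) (2 ^ 1) g d' φ ≠ 0 := by
    refine h2 q F _ _ s σ A r φ hF him hA hres 1 b g d' hd' fun C =>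
      (mul_dvd_mul_left _ ?_).trans (hcop 1 C).2
    rw [mul_pow]
    exact dvd_mul_left _ _
  rw [hv]
  exact mul_ne_zero (mul_ne_zero hc ((map_ne_zero _).2 hS)) hS'

end ONV

open ONV in
/-- The central values are not zero, `k = 2 * r + 2`. -/
theorem stNVO (h1 : StAnO) (h2 : StPaO) (h3 : StSysO) : StNVO := by
  intro q F _ _ s σ A r φ hF hA hφ hres
  by_cases him : 0 < (σ s).im
  · exact main h1 h2 h3 hF him hA hφ hres
  · refine main h1 h2 h3 (NVAux.fieldC_neg hF) ?_ hA (isCanO_neg hφ) (NVAux.res1_neg hres)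
    have h4 : ((-s : 𝓞 F) : F) = -(s : F) := map_neg _ _
    rw [h4, map_neg, Complex.neg_im, neg_pos]
    rcases NVAux.im_cases (σ := σ) hF with h5 | h5
    · exfalso
      apply him
      rw [h5]
      simp only [Complex.mul_im, Complex.I_re, Complex.I_im, Complex.ofReal_re,
        Complex.ofReal_im, zero_mul, one_mul, zero_add]
      exact Real.sqrt_pos.2 (by exact_mod_cast hF.1.pos)
    · rw [h5]
      simp only [Complex.neg_im, Complex.mul_im, Complex.I_re, Complex.I_im, Complex.ofReal_re,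
        Complex.ofReal_im, zero_mul, one_mul, zero_add]
      have := Real.sqrt_pos.2 (show (0 : ℝ) < q by exact_mod_cast hF.1.pos)
      linarith

end Pool.Agent.Lib.MP_7c08ba_nt.CN
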