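import Pool.Agent.Lib.MP_7c08ba_nt.CN.StOP
import Pool.Agent.Lib.MP_7c08ba_nt.RZ.Basic

set_option autoImplicit false

/-! Project CN, even `k`: the final `2`-adic assembly: the sums `SumO` are not zero. -/

namespace Pool.Agent.Lib.MP_7c08ba_nt.CN

open NumberField IsDedekindDomain UpperHalfPlane ModularForm EisensteinSeries RZC
open scoped nonZeroDivisors ComplexConjugate MatrixGroups

noncomputable section

namespace OPaAux

variable {A : ValuationSubring ℂ} {w₁ w₂ : ℂ}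

theorem LF_div {k : ℕ} {G : ℍ → ℂ} (h : w₂ ≠ 0) :
    LF k G (w₁ / w₂) 1 = w₂ ^ k * LF k G w₁ w₂ := by
  unfold LF
  rw [one_pow, inv_one, one_mul, div_one, ← mul_assoc, mul_inv_cancel₀ (pow_ne_zero _ h), one_mul]

theorem vol_conj_ne (h : Pos w₁ w₂) : vol w₁ w₂ (conj w₁) (conj w₂) ≠ 0 := by
  have h0 := h.ne
  have h1 : vol w₁ w₂ (conj w₁) (conj w₂) =
      ((w₁ / w₂).im : ℂ) * (Complex.normSq w₂ : ℂ) := by
    have h2 : w₁ = (w₁ / w₂) * w₂ := (div_mul_cancel₀ _ h0).symm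
    have h3 := Complex.mul_conj w₂
    have h4 : w₁ / w₂ - conj (w₁ / w₂) = 2 * ((w₁ / w₂).im : ℂ) * Complex.I := by
      have := Complex.sub_conj (w₁ / w₂)
      rw [this]
      push_cast
      ring
    unfold vol
    set t := w₁ / w₂ with ht
    rw [← h3]
    have h5 : conj w₁ = conj t * conj w₂ := by rw [h2, map_mul]
    rw [h5]
    have h6 : conj w₂ * w₁ - conj t * conj w₂ * w₂ = (t - conj t) * (w₂ * conj w₂) := by
      conv_lhs => rw [h2]
      ring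
    rw [h6, h4]
    have hI : (2 : ℂ) * Complex.I ≠ 0 := mul_ne_zero two_ne_zero Complex.I_ne_zero
    field_simp
  rw [h1]
  refine mul_ne_zero ?_ ?_
  · have := h
    unfold Pos at this
    exact_mod_cast this.ne'
  · have := Complex.normSq_pos.2 h0
    exact_mod_cast this.ne'

theorem nonunits_sum {ι : Type*} (S : Finset ι) (f : ι → ℂ) (h : ∀ i ∈ S, f i ∈ A.nonunits) :
    ∑ i ∈ S, f i ∈ A.nonunits :=
  Finset.sum_induction f (· ∈ A.nonunits) (fun _ _ => nonunits_add) zero_nonunits h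

theorem sq_sum (hA : Above2 A) {ι : Type*} (S : Finset ι) (f : ι → ℂ) (h : ∀ i ∈ S, f i ∈ A) :
    (∑ i ∈ S, f i) ^ 2 - ∑ i ∈ S, f i ^ 2 ∈ A.nonunits := by
  classical
  induction S using Finset.induction_on with
  | empty => simp
  | insert a S ha ih =>
    rw [Finset.sum_insert ha, Finset.sum_insert ha]
    have h1 := ih fun i hi => h i (Finset.mem_insert_of_mem hi)
    have h2 : ∑ i ∈ S, f i ∈ A := sum_mem fun i hi => h i (Finset.mem_insert_of_mem hi)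
    have h3 : f a * ∑ i ∈ S, f i ∈ A := A.mul_mem _ _ (h a (Finset.mem_insert_self _ _)) h2
    have h4 := nonunits_add (nonunits_mul_left h3 hA) h1
    convert h4 using 1
    ring

theorem sq_sub {x y : ℂ} (hx : x ∈ A) (hy : y ∈ A) (h : x - y ∈ A.nonunits) :
    x ^ 2 - y ^ 2 ∈ A.nonunits := by
  have := nonunits_mul_left (A.add_mem _ _ hx hy) h
  convert this using 1
  ring

theorem pow8_sum (hA : Above2 A) {ι : Type*} (S : Finset ι) (f : ι → ℂ)
    (h : ∀ i ∈ S, f i ∈ A) : (∑ i ∈ S, f i) ^ 8 - ∑ i ∈ S, f i ^ 8 ∈ A.nonunits := by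
  have m1 : ∑ i ∈ S, f i ∈ A := sum_mem h
  have m2 : ∑ i ∈ S, f i ^ 2 ∈ A := sum_mem fun i hi => pow_mem (h i hi) 2
  have m4 : ∑ i ∈ S, f i ^ 4 ∈ A := sum_mem fun i hi => pow_mem (h i hi) 4
  have h1 := sq_sum hA S f h
  have h2 := sq_sum hA S (fun i => f i ^ 2) fun i hi => pow_mem (h i hi) 2
  have h4 := sq_sum hA S (fun i => f i ^ 4) fun i hi => pow_mem (h i hi) 4
  have e2 : ∀ i, (f i ^ 2) ^ 2 = f i ^ 4 := fun i => by ring
  have e4 : ∀ i, (f i ^ 4) ^ 2 = f i ^ 8 := fun i => by ring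
  simp only [e2] at h2
  simp only [e4] at h4
  have a1 := sq_sub (pow_mem m1 2) m2 h1
  have a2 := nonunits_add a1 h2
  rw [sub_add_sub_cancel] at a2
  have a3 := sq_sub (pow_mem (pow_mem m1 2) 2) m4 a2
  have a4 := nonunits_add a3 h4
  rw [sub_add_sub_cancel] at a4
  convert a4 using 1
  ring

theorem mem_of_pow8 {x : ℂ} (h : x ^ 8 ∈ A) : x ∈ A := by
  refine mem_of_root (n := 8) (c := fun i => if i = 0 then -x ^ 8 else 0) ?_ ?_
  · intro i _
    split_ifs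
    · exact A.neg_mem _ h
    · exact A.zero_mem
  · simp

theorem isB_ne_bot {F : Type} [Field F] [NumberField F] {σ : F →+* ℂ} {a : Ideal (𝓞 F)}
    (h : IsB σ a w₁ w₂) : a ≠ ⊥ := by
  rintro rfl
  obtain ⟨x, hx, hx2⟩ := (h.2 w₂).1 (mem_lat.2 ⟨0, 1, by simp⟩)
  rw [Ideal.mem_bot] at hx
  subst hx
  exact h.1.ne (by rw [← hx2]; simp)

end OPaAux

open OPaAux

theorem stPaO (h1 : StEtaO) (h2 : StLadO) (h3 : StWO) (h4 : StFldO) (h5 : StLcO)
    (h6 : StOdd) : StPaO := by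
  intro q F _ _ s σ A r φ hF him hA hres e b g d hsys hdvd
  obtain ⟨l1, l2, l3, l4, l5⟩ := h5 q F _ _ s σ e b g d hF him hsys hdvd
  have l5 := l5 A hA
  have hdC : ∀ C, (d C : ℂ) ≠ 0 := fun C => by
    have := (hsys.odd C).pos
    exact_mod_cast this.ne'
  have h2e : (2 : ℂ) ^ e ≠ 0 := pow_ne_zero _ two_ne_zero
  -- the lattices
  obtain ⟨o0, o1, -, -⟩ := h4 q F _ _ (s : F) σ A hF hA _ _ _ (isB_ne_bot l4) l4
  set E4 : ℂ := e4 (σ (g : F)) (2 ^ e) with hE4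
  set E6 : ℂ := e6 (σ (g : F)) (2 ^ e) with hE6
  have hE4' : E4 ≠ 0 := o0.2.1
  set w : ClassGroup (𝓞 F) → ℂ := fun C => 2 ^ e * (d C : ℂ) ^ 2 with hw
  have hw0 : ∀ C, w C ≠ 0 := fun C => mul_ne_zero h2e (pow_ne_zero _ (hdC C))
  set W : ClassGroup (𝓞 F) → ℂ := fun C =>
    ev (WO r) (σ (g : F)) (w C) (conj (σ (g : F))) (conj (w C)) with hW
  -- the unit factors
  have hφ : ∀ C, φ (idl g (d C)) - 1 ∈ A.nonunits := fun C => by
    refine hres _ ?_ (l2 C).2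
    rw [(l2 C).1]
    exact hsys.odd C
  have hlat : ∀ C, Ord A (σ (g : F)) (w C) ∧
      e4 (σ (g : F)) (w C) / E4 - 1 ∈ A.nonunits ∧
      W C * (E6 / E4 ^ 2) ^ r - 1 ∈ A.nonunits := by
    intro C
    obtain ⟨p1, p2, p3, p4⟩ := h4 q F _ _ (s : F) σ A hF hA _ _ _ (isB_ne_bot (l1 C)) (l1 C)
    have hle : lat (σ (g : F)) (w C) ≤ lat (σ (g : F)) (2 ^ e) := by
      refine Submodule.span_le.2 ?_
      rintro x (rfl | rfl)
      · exact mem_lat.2 ⟨1, 0, by simp⟩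
      · exact mem_lat.2 ⟨0, (d C : ℤ) ^ 2, by rw [hw]; push_cast; ring⟩
    obtain ⟨-, q2, q3⟩ := h6 A hA (σ (g : F)) (2 ^ e) o0 (σ (g : F)) (w C) p1.1 hle (by
      rw [hw]
      dsimp only
      rw [l3 C]
      exact (hsys.odd C).pow)
    change e4 (σ (g : F)) (w C) / E4 - 1 ∈ A.nonunits at q2
    change e6 (σ (g : F)) (w C) / E6 - 1 ∈ A.nonunits at q3
    refine ⟨p1, q2, ?_⟩
    have q4 := h3.2.2 A hA r (σ (g : F)) (w C) (conj (σ (g : F))) (conj (w C)) p1.2.1 p3 p4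
    have q5 : (E6 / E4 ^ 2) / (e6 (σ (g : F)) (w C) / e4 (σ (g : F)) (w C) ^ 2) - 1 ∈
        A.nonunits := by
      have := mul_sub_one (inv_sub_one q3) (nonunits_pow_sub_one q2 2)
      convert this using 2
      have n1 : e4 (σ (g : F)) (w C) ≠ 0 := p1.2.1
      have n2 : e6 (σ (g : F)) (w C) ≠ 0 := p2
      rw [div_pow, inv_div]
      field_simp
    have q6 := mul_sub_one q4 (nonunits_pow_sub_one q5 r)
    convert q6 using 2
    have n1 : e4 (σ (g : F)) (w C) ≠ 0 := p1.2.1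
    have n2 : e6 (σ (g : F)) (w C) ≠ 0 := p2
    have n3 : e6 (σ (g : F)) (w C) / e4 (σ (g : F)) (w C) ^ 2 ≠ 0 :=
      div_ne_zero n2 (pow_ne_zero _ n1)
    rw [mul_assoc, ← mul_pow, mul_div_cancel₀ _ n3]
  -- the imaginary part of `σ g`
  have hσg : 2 * (σ (g : F)).im = (σ (s : F)).im := by
    have h1 := congrArg (algebraMap (𝓞 F) F) hsys.two
    rw [map_mul, map_add, map_ofNat, map_intCast] at h1
    have h2 := congrArg σ h1
    rw [map_mul, map_add, map_ofNat, map_intCast] at h2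
    have h3 := congrArg Complex.im h2
    simpa using h3
  set Y : ℝ := (σ (s : F)).im / 2 / 2 ^ e with hY
  have hY0 : 0 < Y := by positivity
  set τ : ClassGroup (𝓞 F) → ℂ := fun C => σ (g : F) / w C with hτ
  have hτim : ∀ C, (τ C).im = Y / (d C : ℝ) ^ 2 := by
    intro C
    have h1 : w C = ((2 ^ e * (d C : ℝ) ^ 2 : ℝ) : ℂ) := by rw [hw]; push_cast; ring
    rw [hτ]
    dsimp only
    rw [h1, Complex.div_ofReal_im, hY, div_div, div_div]
    have : (σ (g : F)).im = (σ (s : F)).im / 2 := by linarith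
    rw [this]
    ring
  have hdR : ∀ C, 0 < (d C : ℝ) := fun C => by
    have := (hsys.odd C).pos
    exact_mod_cast this
  have hτ0 : ∀ C, 0 < (τ C).im := fun C => by
    rw [hτim C]
    exact div_pos hY0 (pow_pos (hdR C) 2)
  -- the theta values
  have hy8 : ∀ C, yO (τ C) ^ 8 = 256 * (w C ^ 12 * dl (σ (g : F)) (w C)) := by
    intro C
    rw [h1 (τ C) (hτ0 C)]
    congr 1
    exact LF_div (hw0 C)
  have hev : ∀ C, ev (WO r) (τ C) 1 (conj (τ C)) 1 = w C ^ (2 * r) * W C := by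
    intro C
    have hwr : conj (w C) = w C := by
      have : w C = ((2 ^ e * (d C : ℝ) ^ 2 : ℝ) : ℂ) := by rw [hw]; push_cast; ring
      rw [this, Complex.conj_ofReal]
    have hc : (w C)⁻¹ ≠ 0 := inv_ne_zero (hw0 C)
    have hvol : vol (σ (g : F)) (w C) (conj (σ (g : F))) (conj (w C)) ≠ 0 :=
      vol_conj_ne (hlat C).1.1
    have := h3.2.1 r (σ (g : F)) (w C) (conj (σ (g : F))) (conj (w C)) (w C)⁻¹ hc (hw0 C) hvol
    have e1 : (w C)⁻¹ * σ (g : F) = τ C := by rw [hτ]; ring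
    have e2 : (w C)⁻¹ * w C = 1 := inv_mul_cancel₀ (hw0 C)
    have e3 : conj (w C)⁻¹ * conj (σ (g : F)) = conj (τ C) := by rw [← map_mul, e1]
    have e4 : conj (w C)⁻¹ * conj (w C) = 1 := by rw [← map_mul, e2, map_one]
    rw [e1, e2, e3, e4] at this
    rw [this, inv_pow, inv_inv]
  -- the constants
  obtain ⟨T, hT⟩ : ∃ T : ℂ, T ^ 8 = 256 * (2 ^ e) ^ 12 * E4 ^ 3 :=
    IsAlgClosed.exists_pow_nat_eq _ (by norm_num)
  have hT8 : T ^ 8 ≠ 0 := by
    rw [hT]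
    exact mul_ne_zero (mul_ne_zero (by norm_num) (pow_ne_zero _ h2e)) (pow_ne_zero _ hE4')
  have hT0 : T ≠ 0 := fun h => hT8 (by rw [h]; simp)
  set lam : ℂ := E6 / E4 ^ 2 with hlam
  have hlam0 : lam ≠ 0 := div_ne_zero o1 (pow_ne_zero _ hE4')
  set z : ClassGroup (𝓞 F) → ℂ := fun C =>
    φ (idl g (d C)) * (yO (τ C) / (d C : ℂ) ^ 3 / T) * (W C * lam ^ r) with hz
  have hz8 : ∀ C, z C ^ 8 - jv (σ (g : F)) (w C) ∈ A.nonunits := by
    intro C
    obtain ⟨p1, p2, p3⟩ := hlat C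
    have hu := mul_sub_one (mul_sub_one (nonunits_pow_sub_one (hφ C) 8)
      (nonunits_pow_sub_one p2 3)) (nonunits_pow_sub_one p3 8)
    have := nonunits_mul_right hu p1.2.2
    convert this using 1
    have n1 : e4 (σ (g : F)) (w C) ≠ 0 := p1.2.1
    have n2 := hdC C
    have k1 : (yO (τ C) / (d C : ℂ) ^ 3 / T) ^ 8 =
        (e4 (σ (g : F)) (w C) / E4) ^ 3 * jv (σ (g : F)) (w C) := by
      rw [div_pow, div_pow, hy8 C, hT]
      unfold jv
      have k2 : w C ^ 12 = (2 ^ e) ^ 12 * (d C : ℂ) ^ 24 := by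
        rw [hw]
        ring
      rw [k2]
      field_simp
    rw [hz]
    dsimp only
    rw [mul_pow, mul_pow, k1]
    ring
  have hzA : ∀ C, z C ∈ A := by
    intro C
    refine mem_of_pow8 ?_
    have := A.add_mem _ _ (nonunits_mem (hz8 C)) (hlat C).1.2.2
    simpa using this
  -- the sum of the `z C` is not zero
  have hsum0 : ∑ C, z C ≠ 0 := by
    intro h0
    have a1 := pow8_sum hA Finset.univ z fun C _ => hzA C
    rw [h0] at a1
    have a2 : ∑ C, (z C ^ 8 - jv (σ (g : F)) (w C)) ∈ A.nonunits :=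
      nonunits_sum _ _ fun C _ => hz8 C
    rw [Finset.sum_sub_distrib] at a2
    have a3 := nonunits_add a1 (nonunits_add a2 l5)
    refine one_not_nonunits (A := A) ?_
    have a4 := nonunits_neg a3
    convert a4 using 1
    ring
  -- the sum
  set C0 : ℂ := (Real.sqrt (2 * Real.pi * Y) : ℂ) * (2 * Real.pi * Y) ^ r with hC0
  have hC0' : C0 ≠ 0 := by
    refine mul_ne_zero ?_ (pow_ne_zero _ ?_)
    · have : 0 < Real.sqrt (2 * Real.pi * Y) := Real.sqrt_pos.2 (by positivity)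
      exact_mod_cast this.ne'
    · have : 0 < 2 * Real.pi * Y := by positivity
      exact_mod_cast this.ne'
  have hterm : ∀ C, φ (idl g (d C)) * ((d C : ℂ) ^ (2 * r + 1 + 1))⁻¹ *
      hthO (2 * r + 1) (τ C) = C0 * (2 ^ e) ^ (2 * r) * T * (lam ^ r)⁻¹ * z C := by
    intro C
    rw [h2 r (τ C) (hτ0 C), hev C, hτim C]
    have hd := hdC C
    have s1 : Real.sqrt (2 * Real.pi * (Y / (d C : ℝ) ^ 2)) =
        Real.sqrt (2 * Real.pi * Y) / d C := by
      have : 2 * Real.pi * (Y / (d C : ℝ) ^ 2) = 2 * Real.pi * Y / (d C : ℝ) ^ 2 := by ring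
      rw [this, Real.sqrt_div' _ (by positivity), Real.sqrt_sq (hdR C).le]
    have s2 : (2 * (Real.pi : ℂ) * ((Y / (d C : ℝ) ^ 2 : ℝ) : ℂ)) ^ r =
        (2 * Real.pi * Y) ^ r / (d C : ℂ) ^ (2 * r) := by
      push_cast
      rw [← mul_div_assoc, div_pow, ← pow_mul]
    have s3 : w C ^ (2 * r) = (2 ^ e) ^ (2 * r) * (d C : ℂ) ^ (2 * r) * (d C : ℂ) ^ (2 * r) := by
      rw [hw]
      dsimp only
      rw [mul_pow, mul_assoc, ← pow_add, ← pow_mul (d C : ℂ) 2 (2 * r)]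
      congr 2
      ring
    rw [s1, s2, s3, hC0, hz]
    dsimp only
    push_cast
    have hl : lam ^ r ≠ 0 := pow_ne_zero _ hlam0
    have hd2 : (d C : ℂ) ^ (2 * r) ≠ 0 := pow_ne_zero _ hd
    rw [pow_add, pow_add, pow_one]
    field_simp
  have hS : SumO σ (2 * r + 1) (2 ^ e) g d φ =
      C0 * (2 ^ e) ^ (2 * r) * T * (lam ^ r)⁻¹ * ∑ C, z C := by
    unfold SumO
    rw [Finset.mul_sum]
    refine Finset.sum_congr rfl fun C _ => ?_
    rw [← hterm C]
    have : (σ (g : F)) / (((2 ^ e : ℕ) : ℂ) * (d C : ℂ) ^ 2) = τ C := by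
      rw [hτ]
      push_cast
      rfl
    rw [this]
  rw [hS]
  exact mul_ne_zero (mul_ne_zero (mul_ne_zero (mul_ne_zero hC0'
    (pow_ne_zero _ h2e)) hT0) (inv_ne_zero (pow_ne_zero _ hlam0))) hsum0

end

end Pool.Agent.Lib.MP_7c08ba_nt.CN
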