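import Mathlib
import Pool.Agent.Lib.MP_7c08ba_nt.CN.StOA
import Pool.Agent.Lib.MP_7c08ba_nt.CN.APair
import Pool.Agent.Lib.MP_7c08ba_nt.RZ.Bas

set_option autoImplicit false

/-!
Project CN, even `k`, module (PairO): the terms of the central value for the ideals attached to a
pair of coprime norms.
-/

namespace Pool.Agent.Lib.MP_7c08ba_nt.CN

open NumberField IsDedekindDomain MeasureTheory Polynomial Pool.Agent.Lib.MP_7c08ba_nt.RZ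
open scoped nonZeroDivisors ComplexConjugate

namespace OPair

section

variable {F : Type} [Field F] [NumberField F] {q : ℕ} {s : 𝓞 F} {σ : F →+* ℂ}
  {χ : DirichletCharacter ℂ q} {cj : 𝓞 F ≃+* 𝓞 F} {e d₁ d₂ : ℕ} {b a ω : ℤ} {g ga : 𝓞 F}

/-- the form takes integral values -/
lemma Qz_eq (h : PD q s e d₁ d₂ b a ω g ga) (hq : Odd q) :
    Odd b ∧ ∃ A C : ℤ, ∀ p : ℤ × ℤ, Qz q (2 ^ e) (d₁ * d₂) b p =
      ((2 * A * p.1 ^ 2 - b * p.1 * p.2 + 2 * C * p.2 ^ 2 : ℤ) : ℝ) := by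
  obtain ⟨c, hc⟩ := h.dvd
  obtain ⟨e', rfl⟩ : ∃ e', e = e' + 1 := ⟨e - 1, by have := h.epos; omega⟩
  have hβ : 0 < d₁ * d₂ := Nat.mul_pos h.odd₁.pos h.odd₂.pos
  have hβ0 : ((d₁ * d₂ : ℕ) : ℝ) ≠ 0 := by exact_mod_cast hβ.ne'
  constructor
  · by_contra hb
    rw [Int.not_odd_iff_even] at hb
    have h1 : Even (b ^ 2 : ℤ) := hb.pow_of_ne_zero two_ne_zero
    have h2 : Even (b ^ 2 + (q : ℤ)) := by
      rw [hc, show (8 : ℤ) = 2 * 4 by norm_num]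
      exact ((((even_two.mul_right _).mul_right _).mul_right _).mul_right _)
    have h3 : Even (q : ℤ) := by
      have := (Int.even_add.mp h2).mp h1
      exact this
    have h4 : Odd (q : ℤ) := by exact_mod_cast hq
    exact (Int.not_even_iff_odd.mpr h4) h3
  · refine ⟨2 ^ e' * (d₁ * d₂), (d₁ * d₂) * c, fun p => ?_⟩
    have hcC : (b : ℝ) ^ 2 + q = 8 * 2 ^ (e' + 1) * ((d₁ * d₂ : ℕ) : ℝ) ^ 2 * c := by
      have := congrArg (Int.cast : ℤ → ℝ) hc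
      push_cast at this ⊢
      exact this
    have hK0 : (2 ^ (e' + 1) : ℝ) ≠ 0 := pow_ne_zero _ two_ne_zero
    unfold Qz
    have hden : ((2 ^ (e' + 1) : ℕ) : ℝ) * ((d₁ * d₂ : ℕ) : ℝ) ≠ 0 := by
      push_cast at hβ0 ⊢
      exact mul_ne_zero hK0 hβ0
    rw [div_eq_iff hden]
    push_cast
    push_cast at hcC
    rw [pow_succ] at hcC ⊢
    linear_combination ((p.2 : ℝ) ^ 2 / 4) * hcC

lemma Qz_two (p : ℤ × ℤ) (K β : ℕ) :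
    Qz q K β b (2 * p.1, 2 * p.2) = 4 * Qz q K β b p := by
  unfold Qz
  push_cast
  ring

lemma ee_half : ee (1 / 2) = -1 := by
  unfold ee
  rw [show (2 * Real.pi * Complex.I * (1 / 2) : ℂ) = Real.pi * Complex.I by ring]
  exact Complex.exp_pi_mul_I

/-- the sign -/
lemma sign (h : PD q s e d₁ d₂ b a ω g ga) (hq : Odd q) (p : ℤ × ℤ) :
    ee (Qz q (2 ^ e) (d₁ * d₂) b p * (1 / 2)) = (-1 : ℂ) ^ (p.1 * p.2) := by
  obtain ⟨hb, A, C, hQ⟩ := Qz_eq h hq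
  rw [hQ p]
  have key : ∀ m : ℤ, ee ((m : ℂ) * (1 / 2)) = (-1 : ℂ) ^ m := by
    intro m
    rcases Int.even_or_odd' m with ⟨k, rfl | rfl⟩
    · have e1 : (((2 * k : ℤ) : ℂ) * (1 / 2)) = (k : ℤ) := by
        push_cast
        ring
      rw [e1, APair.ee_int', (even_two_mul k).neg_one_zpow]
    · have e1 : (((2 * k + 1 : ℤ) : ℂ) * (1 / 2)) = (k : ℤ) + 1 / 2 := by
        push_cast
        ring
      have h2 : Odd (2 * k + 1) := odd_two_mul_add_one k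
      rw [e1, APair.ee_add', APair.ee_int', one_mul, ee_half, h2.neg_one_zpow]
  have e2 : (((2 * A * p.1 ^ 2 - b * p.1 * p.2 + 2 * C * p.2 ^ 2 : ℤ) : ℝ) : ℂ) =
      ((2 * A * p.1 ^ 2 - b * p.1 * p.2 + 2 * C * p.2 ^ 2 : ℤ) : ℂ) := by
    push_cast
    rfl
  rw [e2, key]
  have h3 : Even (2 * A * p.1 ^ 2 - b * p.1 * p.2 + 2 * C * p.2 ^ 2) ↔ Even (p.1 * p.2) := by
    have e3 : 2 * A * p.1 ^ 2 - b * p.1 * p.2 + 2 * C * p.2 ^ 2 =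
        2 * (A * p.1 ^ 2 + C * p.2 ^ 2) - b * (p.1 * p.2) := by ring
    rw [e3, Int.even_sub, Int.even_mul (m := b)]
    have hb' : ¬ Even b := Int.not_even_iff_odd.mpr hb
    simp [hb']
  rcases Int.even_or_odd (p.1 * p.2) with hp | hp
  · rw [(h3.mpr hp).neg_one_zpow, hp.neg_one_zpow]
  · have h4 : Odd (2 * A * p.1 ^ 2 - b * p.1 * p.2 + 2 * C * p.2 ^ 2) := by
      rw [← Int.not_even_iff_odd] at hp ⊢
      rwa [h3]
    rw [h4.neg_one_zpow, hp.neg_one_zpow]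

lemma thl_re (hD : Dat q s σ χ cj) (h : PD q s e d₁ d₂ b a ω g ga)
    (bb : Ideal (𝓞 F)) (hN : Ideal.absNorm bb = 2 ^ e * (d₁ * d₂))
    (hmem : ∀ x : 𝓞 F, x ∈ bb ↔
      ∃ m k : ℤ, x = ((2 ^ e * (d₁ * d₂) : ℕ) : 𝓞 F) * m - k * cj g) (n : ℕ) (w : ℂ) :
    thl σ bb n w = ((w.im : ℂ) ^ n)⁻¹ * ∑' p : ℤ × ℤ,
      lag n (4 * Real.pi * Qz q (2 ^ e) (d₁ * d₂) b p * w.im) *
        ee (Qz q (2 ^ e) (d₁ * d₂) b p * w) := by
  have hβ : 0 < d₁ * d₂ := Nat.mul_pos h.odd₁.pos h.odd₂.pos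
  have hK : 0 < 2 ^ e := Nat.two_pow_pos e
  have hbij : Function.Bijective (fun p : ℤ × ℤ =>
      (⟨APair.el cj g (2 ^ e) (d₁ * d₂) p, (hmem _).mpr ⟨p.1, p.2, rfl⟩⟩ : bb)) := by
    constructor
    · intro p p' hp
      exact APair.el_inj hD h.two hK hβ (congrArg Subtype.val hp)
    · rintro ⟨x, hx⟩
      obtain ⟨m, k, hmk⟩ := (hmem x).mp hx
      exact ⟨(m, k), Subtype.ext hmk.symm⟩
  unfold thl
  congr 1
  rw [← Equiv.tsum_eq (Equiv.ofBijective _ hbij)]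
  apply tsum_congr
  intro p
  show lag n (4 * Real.pi * Qa σ bb (APair.el cj g (2 ^ e) (d₁ * d₂) p) * w.im) *
      ee (Qa σ bb (APair.el cj g (2 ^ e) (d₁ * d₂) p) * w) = _
  rw [APair.Qa_el hD h.two _ _ _ _ hN]

/-- combination of the sum over all pairs and the sum over the even pairs -/
lemma combine (G : ℤ × ℤ → ℂ) (hG : Summable fun p => ‖G p‖) :
    2 * ∑' p : ℤ × ℤ, G (2 * p.1, 2 * p.2) - ∑' p : ℤ × ℤ, (-1 : ℂ) ^ (p.1 * p.2) * G p =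
      ∑' p : ℤ × ℤ, (-1 : ℂ) ^ (p.1 + p.2) * G p := by
  classical
  have hsum : Summable G := hG.of_norm
  have hinj : Function.Injective (fun p : ℤ × ℤ => ((2 * p.1, 2 * p.2) : ℤ × ℤ)) := by
    intro p p' hp
    have h1 := congrArg Prod.fst hp
    have h2 := congrArg Prod.snd hp
    simp only at h1 h2
    exact Prod.ext (by omega) (by omega)
  set E : Set (ℤ × ℤ) := Set.range (fun p : ℤ × ℤ => ((2 * p.1, 2 * p.2) : ℤ × ℤ)) with hE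
  have e1 : ∑' p : ℤ × ℤ, G (2 * p.1, 2 * p.2) = ∑' p : ℤ × ℤ, E.indicator G p := by
    rw [← hinj.tsum_eq (f := E.indicator G)]
    · apply tsum_congr
      intro p
      rw [Set.indicator_of_mem (Set.mem_range_self p)]
    · intro p hp
      exact Set.mem_of_indicator_ne_zero hp
  have hn : ∀ m : ℤ, ‖(-1 : ℂ) ^ m‖ = 1 := by
    intro m
    rw [norm_zpow, norm_neg, norm_one, one_zpow]
  have s1 : Summable fun p : ℤ × ℤ => (-1 : ℂ) ^ (p.1 * p.2) * G p := by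
    apply Summable.of_norm
    simpa [norm_mul, hn] using hG
  have s2 : Summable fun p : ℤ × ℤ => 2 * E.indicator G p := (hsum.indicator E).mul_left 2
  rw [e1, ← tsum_mul_left, ← s2.tsum_sub s1]
  apply tsum_congr
  rintro ⟨x, y⟩
  have hEm : ((x, y) : ℤ × ℤ) ∈ E ↔ Even x ∧ Even y := by
    constructor
    · rintro ⟨p, hp⟩
      have h1 := congrArg Prod.fst hp
      have h2 := congrArg Prod.snd hp
      simp only at h1 h2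
      exact ⟨⟨p.1, by omega⟩, ⟨p.2, by omega⟩⟩
    · rintro ⟨⟨k, hk⟩, ⟨l, hl⟩⟩
      exact ⟨(k, l), Prod.ext (by simp only; omega) (by simp only; omega)⟩
  show 2 * E.indicator G (x, y) - (-1 : ℂ) ^ (x * y) * G (x, y) = (-1 : ℂ) ^ (x + y) * G (x, y)
  rcases Int.even_or_odd x with hx | hx <;> rcases Int.even_or_odd y with hy | hy
  · rw [Set.indicator_of_mem (hEm.mpr ⟨hx, hy⟩), (hx.mul_right y).neg_one_zpow,
      (hx.add hy).neg_one_zpow]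
    ring
  · rw [Set.indicator_of_notMem (fun hh => (Int.not_even_iff_odd.mpr hy) (hEm.mp hh).2),
      (hx.mul_right y).neg_one_zpow, (hx.add_odd hy).neg_one_zpow]
    ring
  · rw [Set.indicator_of_notMem (fun hh => (Int.not_even_iff_odd.mpr hx) (hEm.mp hh).1),
      (hy.mul_left x).neg_one_zpow, (hx.add_even hy).neg_one_zpow]
    ring
  · rw [Set.indicator_of_notMem (fun hh => (Int.not_even_iff_odd.mpr hx) (hEm.mp hh).1),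
      (hx.mul hy).neg_one_zpow, (hx.add_odd hy).neg_one_zpow]
    ring

lemma norm_ee_real (x : ℝ) : ‖ee x‖ = 1 := by
  unfold ee
  rw [show (2 * Real.pi * Complex.I * (x : ℂ) : ℂ) = ((2 * Real.pi * x : ℝ) : ℂ) * Complex.I by
    push_cast; ring]
  exact Complex.norm_exp_ofReal_mul_I _

lemma c4_sq {m : ℤ} (hm : Odd m) : c4 m * c4 m = 1 := by
  unfold c4
  obtain ⟨k, hk⟩ := hm
  have h : ZMod.χ₄ (m : ZMod 4) = 1 ∨ ZMod.χ₄ (m : ZMod 4) = -1 := by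
    rcases Int.emod_two_eq_zero_or_one k with h0 | h0
    · left
      apply ZMod.χ₄_int_one_mod_four
      omega
    · right
      apply ZMod.χ₄_int_three_mod_four
      omega
  rcases h with h | h <;> rw [h] <;> norm_num

lemma thl_eq (hFacO : StFacO) (hFac : StFac) (hD : Dat q s σ χ cj)
    (h : PD q s e d₁ d₂ b a ω g ga)
    (bb : Ideal (𝓞 F)) (hN : Ideal.absNorm bb = 2 ^ e * (d₁ * d₂))
    (hmem : ∀ x : 𝓞 F, x ∈ bb ↔
      ∃ m k : ℤ, x = ((2 ^ e * (d₁ * d₂) : ℕ) : 𝓞 F) * m - k * cj g) (n : ℕ) :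
    2 * 4 ^ n * thl σ bb n (4 * (σ ga / (q * σ ((d₁ * d₂ : ℕ) : 𝓞 F)))) -
      thl σ bb n (σ ga / (q * σ ((d₁ * d₂ : ℕ) : 𝓞 F)) + 1 / 2) =
      (((1 / (2 * (d₁ * d₂ : ℕ) * Real.sqrt q) : ℝ) : ℂ) ^ n)⁻¹ *
        (c4 (d₁ * d₂ : ℕ) *
          (Real.sqrt (Real.sqrt q) / (Real.sqrt ((2 ^ e : ℕ) : ℝ) * 2 ^ n * n.factorial)) *
          (hthO n (pt q (2 ^ e) d₁ b) * conj (hthO n (pt q (2 ^ e) d₂ b)))) := by
  have hβ : 0 < d₁ * d₂ := Nat.mul_pos h.odd₁.pos h.odd₂.pos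
  have hK : 0 < 2 ^ e := Nat.two_pow_pos e
  have hq2 : 2 < q := by
    have h1 := hD.mod
    omega
  have hqodd : Odd q := by
    have h1 := hD.mod
    exact Nat.odd_iff.mpr (by omega)
  have hF := hFacO n q (2 ^ e) d₁ d₂ b ω (APair.qpos hD) hK h.odd₁ h.odd₂ h.om₁ h.om₂
  obtain ⟨hS, -⟩ := hFac n q (2 ^ e) d₁ d₂ b ω (APair.qpos hD) hK h.odd₁.pos h.odd₂.pos h.om₁ h.om₂
  have hs4 : (Real.sqrt (Real.sqrt (q : ℝ)) : ℂ) ≠ 0 := by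
    exact_mod_cast (Real.sqrt_pos.mpr (APair.sqrt_pos' hD)).ne'
  have hsK : (Real.sqrt ((2 ^ e : ℕ) : ℝ) : ℂ) ≠ 0 := by
    have : 0 < Real.sqrt ((2 ^ e : ℕ) : ℝ) := Real.sqrt_pos.mpr (by exact_mod_cast hK)
    exact_mod_cast this.ne'
  have hfa : ((n.factorial : ℕ) : ℂ) ≠ 0 := by exact_mod_cast n.factorial_ne_zero
  have h2n : (2 ^ n : ℂ) ≠ 0 := pow_ne_zero _ two_ne_zero
  have hc4 : c4 (((d₁ * d₂ : ℕ) : ℤ)) * c4 (((d₁ * d₂ : ℕ) : ℤ)) = 1 :=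
    c4_sq (by exact_mod_cast h.odd₁.mul h.odd₂)
  have hc4e : c4 ((d₁ : ℤ) * (d₂ : ℤ)) = c4 (((d₁ * d₂ : ℕ) : ℤ)) := by
    push_cast
    rfl
  rw [hF]
  have hcancel : ∀ T : ℂ, c4 (((d₁ * d₂ : ℕ) : ℤ)) * ((Real.sqrt (Real.sqrt (q : ℝ)) : ℂ) /
      (Real.sqrt ((2 ^ e : ℕ) : ℝ) * 2 ^ n * n.factorial)) *
      (c4 ((d₁ : ℤ) * (d₂ : ℤ)) *
      (Real.sqrt ((2 ^ e : ℕ) : ℝ) * 2 ^ n * n.factorial / Real.sqrt (Real.sqrt (q : ℝ))) * T) =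
      T := by
    intro T
    rw [hc4e]
    generalize (Real.sqrt (Real.sqrt (q : ℝ)) : ℂ) = A at *
    generalize (Real.sqrt ((2 ^ e : ℕ) : ℝ) : ℂ) = C at *
    generalize ((n.factorial : ℕ) : ℂ) = D at *
    generalize c4 (((d₁ * d₂ : ℕ) : ℤ)) = E at *
    have : E * (A / (C * 2 ^ n * D)) * (E * (C * 2 ^ n * D / A) * T) = (E * E) * T := by
      field_simp
    rw [this, hc4, one_mul]
  rw [hcancel]
  -- the function
  set Y : ℝ := 1 / (2 * (d₁ * d₂ : ℕ) * Real.sqrt q) with hY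
  set u : ℂ := σ ga / (q * σ ((d₁ * d₂ : ℕ) : 𝓞 F)) with hu
  have hum : u.im = Y := APair.u_im hD h
  have hueq : u = (((a : ℝ) / (2 * q * (d₁ * d₂ : ℕ)) : ℝ) : ℂ) + (Y : ℂ) * Complex.I :=
    APair.u_eq hD h
  have hY0 : (Y : ℂ) ≠ 0 := by
    have h1 := APair.sqrt_pos' hD
    have h2 : (0 : ℝ) < ((d₁ * d₂ : ℕ) : ℝ) := by exact_mod_cast hβ
    have : 0 < Y := by rw [hY]; positivity
    exact_mod_cast this.ne'
  set G : ℤ × ℤ → ℂ := fun p => lag n (4 * Real.pi * Qz q (2 ^ e) (d₁ * d₂) b p * Y) *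
    ee (Qz q (2 ^ e) (d₁ * d₂) b p * u) with hG
  have hGeq : ∀ p, G p = lag n (4 * Real.pi * Qz q (2 ^ e) (d₁ * d₂) b p * Y) *
      ee (Complex.I * Qz q (2 ^ e) (d₁ * d₂) b p * Y) *
      ee ((p.1 * ω * p.2 : ℤ) / (2 * (d₁ * d₂ : ℕ))) := by
    intro p
    simp only [hG]
    rw [mul_assoc (lag _ _)]
    congr 1
    rw [← APair.phase h hD.prime hq2 p, ← APair.ee_add', hueq]
    congr 1
    push_cast
    ring
  have hGs : Summable fun p => ‖G p‖ := by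
    have e1 : (fun p => ‖G p‖) = fun p : ℤ × ℤ =>
        ‖lag n (4 * Real.pi * Qz q (2 ^ e) (d₁ * d₂) b p * Y) *
          ee (Complex.I * Qz q (2 ^ e) (d₁ * d₂) b p * Y)‖ := by
      funext p
      rw [hGeq, norm_mul _ (ee ((p.1 * ω * p.2 : ℤ) / (2 * (d₁ * d₂ : ℕ))))]
      have e2 : (((p.1 * ω * p.2 : ℤ) : ℂ) / (2 * ((d₁ * d₂ : ℕ) : ℂ))) =
          ((((p.1 * ω * p.2 : ℤ) : ℝ) / (2 * ((d₁ * d₂ : ℕ) : ℝ)) : ℝ) : ℂ) := by
        push_cast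
        rfl
      rw [e2, norm_ee_real, mul_one]
    rw [e1]
    exact hS
  have t1 : thl σ bb n (4 * u) = ((4 * (Y : ℂ)) ^ n)⁻¹ * ∑' p : ℤ × ℤ, G (2 * p.1, 2 * p.2) := by
    rw [thl_re hD h bb hN hmem n (4 * u)]
    have e1 : ((4 * u).im : ℂ) = 4 * (Y : ℂ) := by
      have : (4 * u).im = 4 * Y := by
        rw [← hum]
        simp
      rw [this]
      push_cast
      rfl
    rw [e1]
    congr 1
    apply tsum_congr
    intro p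
    simp only [hG]
    rw [Qz_two p]
    congr 1
    · congr 1
      push_cast
      ring
    · congr 1
      push_cast
      ring
  have t2 : thl σ bb n (u + 1 / 2) = ((Y : ℂ) ^ n)⁻¹ *
      ∑' p : ℤ × ℤ, (-1 : ℂ) ^ (p.1 * p.2) * G p := by
    rw [thl_re hD h bb hN hmem n (u + 1 / 2)]
    have e1 : ((u + 1 / 2).im : ℂ) = (Y : ℂ) := by
      have : (u + 1 / 2).im = Y := by
        rw [← hum, Complex.add_im]
        have : (1 / 2 : ℂ).im = 0 := by norm_num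
        rw [this, add_zero]
      rw [this]
    rw [e1]
    congr 1
    apply tsum_congr
    intro p
    rw [← sign h hqodd p]
    simp only [hG]
    rw [mul_add, APair.ee_add']
    ring
  rw [t1, t2, mul_pow, mul_inv]
  have h4n : (4 ^ n : ℂ) ≠ 0 := pow_ne_zero _ (by norm_num)
  have e3 : 2 * 4 ^ n * ((4 ^ n : ℂ)⁻¹ * ((Y : ℂ) ^ n)⁻¹ *
      ∑' p : ℤ × ℤ, G (2 * p.1, 2 * p.2)) - ((Y : ℂ) ^ n)⁻¹ *
        ∑' p : ℤ × ℤ, (-1 : ℂ) ^ (p.1 * p.2) * G p =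
      ((Y : ℂ) ^ n)⁻¹ * (2 * ∑' p : ℤ × ℤ, G (2 * p.1, 2 * p.2) -
        ∑' p : ℤ × ℤ, (-1 : ℂ) ^ (p.1 * p.2) * G p) := by
    field_simp
  rw [e3, combine G hGs]
  congr 1
  apply tsum_congr
  intro p
  rw [hGeq]

end

end OPair

open APair OPair in
/-- (PairO) -/
theorem stPairO (h1 : StFacO) (h2 : StCM) (h3 : StCjO) (h4 : StFac) (_h5 : StThB) : StPairO := by
  intro q F _ _ s σ χ cj n e d₁ d₂ b a ω g ga φ hD hφ h
  obtain ⟨n1, n2, nK, hbas, hs, hmem⟩ := h2 q F _ _ s σ χ cj e d₁ d₂ b a ω g ga hD h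
  obtain ⟨c2, c3, -, -⟩ := h3 q F _ _ s σ χ cj n φ hD hφ
  have hbs := RZ.stBas q F _ _ s σ χ cj hD
  have c1 : ∀ a : Ideal (𝓞 F), a.map (cj : 𝓞 F →+* 𝓞 F) * a =
      Ideal.span {(Ideal.absNorm a : 𝓞 F)} := fun a => by
    rw [mul_comm]
    exact hbs.2.2.2.2.2.2.1 a
  have hd1 := h.odd₁.pos
  have hd2 := h.odd₂.pos
  have hβ : 0 < d₁ * d₂ := Nat.mul_pos hd1 hd2
  have hK : 0 < 2 ^ e := Nat.two_pow_pos e
  set D1 := idl g d₁ with hD1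
  set D2 := idl g d₂ with hD2
  set P := idl g (2 ^ e) with hP
  have nA : Ideal.absNorm (D1 * D2.map (cj : 𝓞 F →+* 𝓞 F)) = d₁ * d₂ := by
    rw [map_mul, norm_conj hD c1 D2 (by rw [n2]; exact hd2.ne'), n1, n2]
  have nB : Ideal.absNorm ((P * D1 * D2).map (cj : 𝓞 F →+* 𝓞 F)) = 2 ^ e * (d₁ * d₂) := by
    have e1 : Ideal.absNorm (P * D1 * D2) = 2 ^ e * (d₁ * d₂) := by
      rw [map_mul, map_mul, nK, n1, n2, mul_assoc]
    rw [norm_conj hD c1 _ (by rw [e1]; positivity), e1]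
  -- the ideal is prime to `s`
  have hcop : IsCoprime (D1 * D2.map (cj : 𝓞 F →+* 𝓞 F)) (Ideal.span {s}) := by
    rw [Ideal.isCoprime_iff_exists]
    have hc : IsCoprime ((d₁ * d₂ : ℕ) : ℤ) (q : ℤ) :=
      Nat.isCoprime_iff_coprime.mpr (Nat.Coprime.mul_left h.cq₁ h.cq₂)
    obtain ⟨u, v, huv⟩ := hc
    have hβm : ((d₁ * d₂ : ℕ) : 𝓞 F) ∈ D1 * D2.map (cj : 𝓞 F →+* 𝓞 F) :=
      (hbas.mem _).mpr ⟨0, 1, by push_cast; ring⟩
    refine ⟨(u : 𝓞 F) * ((d₁ * d₂ : ℕ) : 𝓞 F), Ideal.mul_mem_left _ _ hβm, (v : 𝓞 F) * (q : 𝓞 F),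
      ?_, ?_⟩
    · rw [Ideal.mem_span_singleton]
      refine ⟨-(v * s), ?_⟩
      linear_combination (v : 𝓞 F) * hD.sq
    · have := congrArg (Int.cast : ℤ → 𝓞 F) huv
      push_cast at this ⊢
      exact this
  have hφA : φ (D1 * D2.map (cj : 𝓞 F →+* 𝓞 F)) ≠ 0 := by
    intro h0
    have := c3 _ hcop (by rw [nA]; exact h.odd₁.mul h.odd₂)
    rw [h0, nA, norm_zero, zero_pow two_ne_zero] at this
    have hp : (0 : ℝ) < ((d₁ * d₂ : ℕ) : ℝ) ^ (2 * n + 1) := by positivity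
    exact hp.ne this
  have hφ2 : (φ (D1 * D2.map (cj : 𝓞 F →+* 𝓞 F)))⁻¹ * φ (Ideal.span {((d₁ * d₂ : ℕ) : 𝓞 F)}) =
      conj (φ D1) * φ D2 := by
    have e1 := c1 (D1 * D2.map (cj : 𝓞 F →+* 𝓞 F))
    rw [nA] at e1
    have e2 : φ (Ideal.span {((d₁ * d₂ : ℕ) : 𝓞 F)}) =
        φ ((D1 * D2.map (cj : 𝓞 F →+* 𝓞 F)).map (cj : 𝓞 F →+* 𝓞 F)) *
          φ (D1 * D2.map (cj : 𝓞 F →+* 𝓞 F)) := by
      rw [← e1]
      exact map_mul φ _ _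
    rw [e2, mul_comm (φ (Ideal.map _ _)), inv_mul_cancel_left₀ hφA, c2, map_mul φ, c2,
      map_mul, Complex.conj_conj]
  unfold GO
  rw [hφ2, thl_eq h1 h4 hD h _ nB hmem n, u_im hD h, pt_eq hD h.two, pt_eq hD h.two]
  have hc4c : conj (c4 (((d₁ * d₂ : ℕ) : ℤ))) = c4 ((d₁ : ℤ) * (d₂ : ℤ)) := by
    have e1 : (((d₁ * d₂ : ℕ) : ℤ)) = (d₁ : ℤ) * (d₂ : ℤ) := by push_cast; rfl
    rw [e1]
    unfold c4
    exact map_intCast _ _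
  simp only [map_mul, map_div₀, map_inv₀, map_pow, Complex.conj_ofReal, Complex.conj_conj,
    map_natCast, map_ofNat]
  rw [hc4c]
  have hy : ((1 / (2 * (d₁ * d₂ : ℕ) * Real.sqrt q) : ℝ) : ℂ) =
      ((2 * Real.sqrt q : ℂ))⁻¹ * (d₁ : ℂ)⁻¹ * (d₂ : ℂ)⁻¹ := by
    push_cast
    rw [one_div, mul_inv, mul_inv, mul_inv, mul_inv]
    ring
  have hs0 : (Real.sqrt (q : ℝ) : ℂ) ≠ 0 := by exact_mod_cast (sqrt_pos' hD).ne'
  have hd1' : (d₁ : ℂ) ≠ 0 := by exact_mod_cast hd1.ne'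
  have hd2' : (d₂ : ℂ) ≠ 0 := by exact_mod_cast hd2.ne'
  rw [hy]
  have hyn : ((2 * Real.sqrt q : ℂ))⁻¹ * (d₁ : ℂ)⁻¹ * (d₂ : ℂ)⁻¹ ≠ 0 :=
    mul_ne_zero (mul_ne_zero (inv_ne_zero (mul_ne_zero two_ne_zero hs0)) (inv_ne_zero hd1'))
      (inv_ne_zero hd2')
  have hpow : (((2 * Real.sqrt q : ℂ))⁻¹ * (d₁ : ℂ)⁻¹ * (d₂ : ℂ)⁻¹) ^ (2 * n + 1) *
      ((((2 * Real.sqrt q : ℂ))⁻¹ * (d₁ : ℂ)⁻¹ * (d₂ : ℂ)⁻¹) ^ n)⁻¹ =
      ((2 * Real.sqrt q : ℂ) ^ (n + 1))⁻¹ * ((d₁ : ℂ) ^ (n + 1))⁻¹ * ((d₂ : ℂ) ^ (n + 1))⁻¹ := by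
    rw [show 2 * n + 1 = (n + 1) + n by ring, pow_add _ (n + 1) n,
      mul_inv_cancel_right₀ (pow_ne_zero _ hyn), mul_pow, mul_pow, inv_pow, inv_pow, inv_pow]
  generalize hthO n (pt q (2 ^ e) d₁ b) = H1
  generalize hthO n (pt q (2 ^ e) d₂ b) = H2
  generalize c4 ((d₁ : ℤ) * (d₂ : ℤ)) = C4
  calc _ = conj (φ D1) * φ D2 * ((((2 * Real.sqrt q : ℂ))⁻¹ * (d₁ : ℂ)⁻¹ * (d₂ : ℂ)⁻¹) ^ (2 * n + 1) *
      ((((2 * Real.sqrt q : ℂ))⁻¹ * (d₁ : ℂ)⁻¹ * (d₂ : ℂ)⁻¹) ^ n)⁻¹) *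
      (C4 * (Real.sqrt (Real.sqrt q) / (Real.sqrt ((2 ^ e : ℕ) : ℝ) * 2 ^ n * n.factorial)) *
          (conj H1 * H2)) := by ring
    _ = _ := by
      rw [hpow]
      ring

end Pool.Agent.Lib.MP_7c08ba_nt.CN
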