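import Mathlib
import Pool.Agent.Lib.MP_7c08ba_nt.CN.StP
import Pool.Agent.Lib.MP_7c08ba_nt.CN.DefsO
import Pool.Agent.Lib.MP_7c08ba_nt.RZ.Main

set_option autoImplicit false

/-!
Project CN, even `k`: existence of systems of representatives which are squares (`StSysO`).
-/

namespace Pool.Agent.Lib.MP_7c08ba_nt.CN

open NumberField IsDedekindDomain
open scoped nonZeroDivisors

namespace OSysAux

variable {q : ℕ} {F : Type} [Field F] [NumberField F] {s : 𝓞 F}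

/-- The class number is odd and there is a prime ideal of norm two. -/
theorem odd_prime (h3 : RZ.StReps) (hS : RZ.StSplit) (hF : RZC.FieldC q F (s : F)) :
    Odd (Nat.card (ClassGroup (𝓞 F))) ∧
      ∃ P : Ideal (𝓞 F), P.IsPrime ∧ Ideal.absNorm P = 2 := by
  have hne : Nonempty (F →+* ℂ) := inferInstance
  obtain ⟨σ⟩ := hne
  obtain ⟨s', χ, cj, hD⟩ := RZ.MainAux.exists_dat σ hF.1 hF.2.1 hF.2.2.1 hF.2.2.2
  refine ⟨(h3 q F _ _ s' σ χ cj hD).1, ?_⟩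
  have hq := hF.2.1
  have hodd : Odd q := Nat.odd_iff.2 (by omega)
  have hj : jacobiSym ((2 : ℕ) : ℤ) q = 1 := by
    have h2 : jacobiSym ((2 : ℕ) : ℤ) q = jacobiSym 2 q := by norm_num
    rw [h2, jacobiSym.at_two hodd, ZMod.χ₈_nat_eq_if_mod_eight, if_neg (by omega),
      if_pos (by omega)]
  obtain ⟨P, P', hP, -, -, -, hN, -⟩ := (hS q F _ _ s' σ χ cj hD 2 Nat.prime_two).1 hj
  exact ⟨P, hP, hN⟩

theorem coprime_b {b : ℤ} {d : ℕ} (h : d.Coprime q) (h4 : (d : ℤ) ∣ b ^ 2 + q) :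
    IsCoprime (d : ℤ) b := by
  have h1 : IsCoprime (b ^ 2) (d : ℤ) := by
    obtain ⟨y, hy⟩ := h4
    have h2 : IsCoprime (q : ℤ) (d : ℤ) := (Nat.isCoprime_iff_coprime.2 h).symm
    have e : b ^ 2 = -(q : ℤ) + d * y := by linear_combination hy
    rw [e]
    exact (h2.neg_left).add_mul_left_left y
  exact ((IsCoprime.pow_left_iff (by norm_num)).1 h1).symm

/-- The square of an ideal of the system. -/
theorem idl_sq (h2 : StIdl) (hF : RZC.FieldC q F (s : F)) {b n : ℤ} {g : 𝓞 F}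
    (hg : 2 * g = b + s) (hn : 4 * n = b ^ 2 + q) {m : ℕ} (hm : 0 < m) (hq : m.Coprime q)
    (hd : ((m * m : ℕ) : ℤ) ∣ n) : idl g (m ^ 2) = idl g m ^ 2 := by
  obtain ⟨-, -, -, -, -, hmul, -⟩ := h2 q F _ _ s b n g hF hg hn
  have hc : IsCoprime (m : ℤ) b := by
    refine coprime_b hq ?_
    rw [← hn]
    refine Dvd.dvd.mul_left (Dvd.dvd.trans ?_ hd) 4
    exact ⟨(m : ℤ), by push_cast; ring⟩
  rw [sq, sq]
  exact (hmul m m hm hm hd hc).symm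

/-- The system of squares. -/
theorem sys_sq (h2 : StIdl) (hF : RZC.FieldC q F (s : F)) {b n : ℤ} {g : 𝓞 F}
    (hn : 4 * n = b ^ 2 + q) {d : ClassGroup (𝓞 F) → ℕ} (hS : Sys q s b g d) {m : ℕ}
    (hm : Nat.card (ClassGroup (𝓞 F)) = 2 * m + 1)
    (hd : ∀ A, ((d A * d A : ℕ) : ℤ) ∣ n) :
    Sys q s b g (fun A => d (A ^ (m + 1)) ^ 2) ∧ Sqr g (fun A => d (A ^ (m + 1)) ^ 2) := by
  have hpos : ∀ A, 0 < d A := fun A => (hS.odd A).pos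
  have hsq : ∀ A, idl g (d A ^ 2) = idl g (d A) ^ 2 := fun A =>
    idl_sq h2 hF hS.two hn (hpos A) (hS.cop A) (hd A)
  refine ⟨⟨hS.two, hS.dvd, fun A => (hS.odd _).pow, fun A => Nat.Coprime.pow_left 2 (hS.cop _),
    fun A I hI => ?_⟩, fun A => ⟨d (A ^ (m + 1)), rfl, hsq _⟩⟩
  have hJ0 : idl g (d (A ^ (m + 1))) ∈ (Ideal (𝓞 F))⁰ := by
    rw [mem_nonZeroDivisors_iff_ne_zero]
    intro h0
    have h1 : ((d (A ^ (m + 1)) : ℕ) : 𝓞 F) ∈ idl g (d (A ^ (m + 1))) :=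
      Ideal.subset_span (Set.mem_insert _ _)
    rw [h0] at h1
    have h2 : ((d (A ^ (m + 1)) : ℕ) : 𝓞 F) = 0 := h1
    have h3 : d (A ^ (m + 1)) = 0 := by exact_mod_cast h2
    exact absurd h3 (hpos _).ne'
  have hIJ : I = ⟨idl g (d (A ^ (m + 1))), hJ0⟩ * ⟨idl g (d (A ^ (m + 1))), hJ0⟩ := by
    apply Subtype.ext
    rw [hI]
    change idl g (d (A ^ (m + 1)) ^ 2) = idl g (d (A ^ (m + 1))) * idl g (d (A ^ (m + 1)))
    rw [hsq, sq]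
  have hJ : ClassGroup.mk0 (⟨idl g (d (A ^ (m + 1))), hJ0⟩ : (Ideal (𝓞 F))⁰) = A ^ (m + 1) :=
    hS.cls _ _ rfl
  rw [hIJ, map_mul, hJ, ← pow_add]
  have e : m + 1 + (m + 1) = Nat.card (ClassGroup (𝓞 F)) + 1 := by rw [hm]; ring
  rw [e, pow_succ, pow_card_eq_one', one_mul]

end OSysAux

open OSysAux in
/-- (SysO) existence of representatives which are squares -/
theorem stSysO (h1 : StSys) (h2 : StIdl) (h3 : RZ.StReps) (hS : RZ.StSplit) : StSysO := by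
  intro q F _ _ s hF e
  obtain ⟨⟨m, hm⟩, P, hP, hP2⟩ := odd_prime h3 hS hF
  obtain ⟨b, g, d, d', hd, hd', -, hcop⟩ := h1 q F _ _ s hF P hP hP2 e
  obtain ⟨n, hn⟩ : ∃ n : ℤ, 4 * n = b ^ 2 + q := by
    obtain ⟨x, hx⟩ := (hcop 1 1).2
    exact ⟨2 * 2 ^ e * ((d 1 : ℤ) * d' 1) ^ 4 * x, by rw [hx]; ring⟩
  have hodd : ∀ k : ℕ, Odd k → IsCoprime ((k : ℤ) * k) 4 := by
    intro k hk
    have h4 : (4 : ℤ) = 2 ^ 2 := by norm_num
    rw [h4]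
    refine IsCoprime.pow_right ?_
    have h5 : IsCoprime (k : ℤ) 2 := by
      exact_mod_cast Nat.isCoprime_iff_coprime.2 (Nat.coprime_two_right.2 hk)
    exact h5.mul_left h5
  have key : ∀ k : ℕ, Odd k → ((k : ℤ) * k) ∣ b ^ 2 + q → ((k * k : ℕ) : ℤ) ∣ n := by
    intro k hk h
    rw [← hn] at h
    push_cast
    exact (hodd k hk).dvd_of_dvd_mul_left h
  have hdn : ∀ A, ((d A * d A : ℕ) : ℤ) ∣ n := by
    intro A
    refine key _ (hd.odd A) ((Dvd.dvd.trans ?_ (hcop A 1).2))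
    exact ⟨8 * 2 ^ e * (d A : ℤ) ^ 2 * (d' 1 : ℤ) ^ 4, by ring⟩
  have hdn' : ∀ A, ((d' A * d' A : ℕ) : ℤ) ∣ n := by
    intro A
    refine key _ (hd'.odd A) ((Dvd.dvd.trans ?_ (hcop 1 A).2))
    exact ⟨8 * 2 ^ e * (d' A : ℤ) ^ 2 * (d 1 : ℤ) ^ 4, by ring⟩
  obtain ⟨k1, k2⟩ := sys_sq h2 hF hn hd hm hdn
  obtain ⟨k3, k4⟩ := sys_sq h2 hF hn hd' hm hdn'
  refine ⟨b, g, _, _, k1, k3, k2, k4, fun A B => ?_⟩
  obtain ⟨c1, c2⟩ := hcop (A ^ (m + 1)) (B ^ (m + 1))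
  refine ⟨Nat.Coprime.pow 2 2 c1, ?_⟩
  have e1 : (8 * 2 ^ e * (((d (A ^ (m + 1)) ^ 2 : ℕ) : ℤ) * ((d' (B ^ (m + 1)) ^ 2 : ℕ) : ℤ)) ^ 2
      : ℤ) = 8 * 2 ^ e * ((d (A ^ (m + 1)) : ℤ) * d' (B ^ (m + 1))) ^ 4 := by
    push_cast
    ring
  rw [e1]
  exact c2

end Pool.Agent.Lib.MP_7c08ba_nt.CN
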