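import Mathlib
import Pool.Agent.Lib.MP_7c08ba_nt.CN.StOA
import Pool.Agent.Lib.MP_7c08ba_nt.CN.AVal

set_option autoImplicit false

/-!
Project CN, even `k`: the central value as a sum over pairs of classes.
-/

namespace Pool.Agent.Lib.MP_7c08ba_nt.CN

open NumberField IsDedekindDomain MeasureTheory Polynomial Pool.Agent.Lib.MP_7c08ba_nt.RZ
open scoped nonZeroDivisors ComplexConjugate

/-- The central value as a sum over pairs of classes. -/
theorem stValO (h : StHkO) (h2 : RZ.StEisTh) : StValO := by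
  intro q hq0 F _ _ s σ χ cj n φ c hD
  have hq : 0 < q := Nat.pos_of_ne_zero hq0.out
  have hsq : Real.sqrt q ≠ 0 := by
    have : (0 : ℝ) < q := by exact_mod_cast hq
    positivity
  obtain ⟨ε, hε, hE⟩ := h2 q hq0 F _ _ s σ χ cj c hD
  have hε0 : conj ε ≠ 0 := by
    rcases hε with rfl | rfl <;> simp
  have hsq' : (Real.sqrt q : ℂ) ≠ 0 := by exact_mod_cast hsq
  have hpi : (Real.pi : ℂ) ≠ 0 := by exact_mod_cast Real.pi_ne_zero
  refine ⟨(2 * Real.sqrt q : ℂ) ^ ((n : ℂ) + 1 + 0) *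
    (conj ε * (Real.pi / (2 * Real.sqrt q))), ?_, ?_⟩
  · refine mul_ne_zero ?_ (mul_ne_zero hε0 (div_ne_zero hpi (mul_ne_zero two_ne_zero hsq')))
    rw [Complex.cpow_def_of_ne_zero (mul_ne_zero two_ne_zero hsq')]
    exact Complex.exp_ne_zero _
  · unfold LamO GO
    rw [mul_assoc]
    congr 1
    rw [Finset.mul_sum]
    refine Finset.sum_congr rfl fun A _ => ?_
    have hu := AVal.im_pos (c.bas A) hq
    have hm : q % 8 = 7 := by
      have := hD.mod
      omega
    have e0 : (conj (0 : ℂ) - n : ℂ) = -(n : ℂ) := by simp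
    rw [e0, (h q hq0 χ n _ hD.prime hm hD.chi hu).2]
    generalize σ (c.X A) / (q * σ (c.Y A)) = u at hu ⊢
    have hu4 : 0 < (4 * u).im := by
      have : (4 * u).im = 4 * u.im := by simp [Complex.mul_im]
      rw [this]
      positivity
    have hu2 : 0 < (u + 1 / 2).im := by
      have : (u + 1 / 2).im = u.im := by
        rw [Complex.add_im]
        norm_num
      rw [this]
      exact hu
    rw [hE n _ hu4, hE n _ hu2]
    have e1 : (1 / 2 * (2 * 4 ^ n * (ε * (Real.pi / Real.sqrt q) *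
        ∑ B : ClassGroup (𝓞 F), thl σ (c.R B : Ideal (𝓞 F)) n (4 * u)) -
        ε * (Real.pi / Real.sqrt q) *
          ∑ B : ClassGroup (𝓞 F), thl σ (c.R B : Ideal (𝓞 F)) n (u + 1 / 2)) : ℂ) =
        ∑ B : ClassGroup (𝓞 F), ε * (Real.pi / (2 * Real.sqrt q)) *
          (2 * 4 ^ n * thl σ (c.R B : Ideal (𝓞 F)) n (4 * u) -
            thl σ (c.R B : Ideal (𝓞 F)) n (u + 1 / 2)) := by
      rw [← Finset.mul_sum, Finset.sum_sub_distrib, ← Finset.mul_sum]
      field_simp
    rw [e1, map_sum, Finset.mul_sum, Finset.mul_sum]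
    refine Finset.sum_congr rfl fun B _ => ?_
    rw [map_mul, map_mul, map_div₀, map_mul (starRingEnd ℂ) 2, Complex.conj_ofReal,
      Complex.conj_ofReal, Complex.conj_ofNat]
    ring

end Pool.Agent.Lib.MP_7c08ba_nt.CN
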