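import Pool.Agent.Lib.MP_7c08ba_nt.CN.StOP
import Pool.Agent.Lib.MP_7c08ba_nt.RZ.C.DD

set_option autoImplicit false

/-! Project CN, even `k`, module OW: the polynomials of the derivatives of `η³`. -/

namespace Pool.Agent.Lib.MP_7c08ba_nt.CN

open NumberField IsDedekindDomain UpperHalfPlane ModularForm EisensteinSeries RZC
open scoped nonZeroDivisors ComplexConjugate MatrixGroups

noncomputable section

namespace OW

open MvPolynomial

/-- evaluation of a weighted homogeneous polynomial at scaled arguments -/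
theorem eval₂_scale {σ R S : Type} [Fintype σ] [CommRing R] [CommRing S] (φ : R →+* S)
    (w : σ → ℕ) {k : ℕ} {G : MvPolynomial σ R} (hG : G.IsWeightedHomogeneous w k) (x : σ → S)
    (s : S) : eval₂ φ (fun i => s ^ w i * x i) G = s ^ k * eval₂ φ x G := by
  rw [eval₂_eq', eval₂_eq', Finset.mul_sum]
  refine Finset.sum_congr rfl fun m hm => ?_
  have hw : Finsupp.weight w m = k := hG (mem_support_iff.mp hm)
  have h1 : ∏ i, (s ^ w i) ^ m i = s ^ k := by
    rw [← hw, Finsupp.weight_apply, Finsupp.sum_fintype _ _ (by simp), ← Finset.prod_pow_eq_pow_sum]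
    refine Finset.prod_congr rfl fun i _ => ?_
    rw [smul_eq_mul, mul_comm, pow_mul]
  simp only [mul_pow, Finset.prod_mul_distrib]
  rw [h1]
  ring

/-- derivations with homogeneous values -/
theorem hom_der {R : Type} [CommRing R] {w : Fin 3 → ℕ} {f : Fin 3 → MvPolynomial (Fin 3) R}
    (hf : ∀ i, (f i).IsWeightedHomogeneous w (w i + 1)) {k : ℕ} {G : MvPolynomial (Fin 3) R}
    (hG : G.IsWeightedHomogeneous w k) :
    (mkDerivation R f G).IsWeightedHomogeneous w (k + 1) := by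
  classical
  rw [G.as_sum, map_sum]
  refine IsWeightedHomogeneous.sum _ _ _ fun m hm => ?_
  have hw : Finsupp.weight w m = k := hG (mem_support_iff.mp hm)
  rw [mkDerivation_monomial, smul_eq_C_mul, Finsupp.sum]
  refine IsWeightedHomogeneous.C_mul (IsWeightedHomogeneous.sum _ _ _ fun i hi => ?_) _
  have hi0 : m i ≠ 0 := Finsupp.mem_support_iff.mp hi
  rw [smul_eq_mul]
  have h2 : (monomial (m - Finsupp.single i 1) ((m i : ℕ) : R)).IsWeightedHomogeneous w
      (Finsupp.weight w (m - Finsupp.single i 1)) := isWeightedHomogeneous_monomial _ _ _ rfl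
  have h3 := h2.mul (hf i)
  have h4 : Finsupp.weight w (m - Finsupp.single i 1) + w i = Finsupp.weight w m :=
    Finsupp.weight_sub_single_add hi0
  rwa [← add_assoc, h4, hw] at h3

section

variable {A : ValuationSubring ℂ}

/-- the weights -/
def w3 : Fin 3 → ℕ := ![1, 2, 3]

/-- the values of the derivation -/
def dv (t : A) : Fin 3 → MvPolynomial (Fin 3) A :=
  ![C t * (X 0 ^ 2 - X 1), C (4 * t) * (X 0 * X 1 - X 2), C 2 * (X 0 * X 2 - X 1 ^ 2)]

/-- four times the derivation, over `A` -/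
def dl3 (t : A) : Derivation A (MvPolynomial (Fin 3) A) (MvPolynomial (Fin 3) A) :=
  mkDerivation A (dv t)

theorem hom_dv (t : A) (i : Fin 3) : (dv t i).IsWeightedHomogeneous w3 (w3 i + 1) := by
  have h : ∀ j : Fin 3, (X j : MvPolynomial (Fin 3) A).IsWeightedHomogeneous w3 (w3 j) :=
    fun j => isWeightedHomogeneous_X A w3 j
  fin_cases i
  · exact (((h 0).pow 2).sub (h 1)).C_mul _
  · exact (((h 0).mul (h 1)).sub (h 2)).C_mul _
  · exact (((h 0).mul (h 2)).sub ((h 1).pow 2)).C_mul _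

/-- the polynomials, over `A` -/
def WA (t : A) : ℕ → MvPolynomial (Fin 3) A
  | 0 => 1
  | r + 1 => 2 * dl3 t (WA t r) + X 0 * WA t r

/-- half of the difference to the power of `X 0` -/
def GA (t : A) : ℕ → MvPolynomial (Fin 3) A
  | 0 => 0
  | r + 1 => dl3 t (WA t r) + X 0 * GA t r

theorem WA_eq (t : A) : ∀ r : ℕ, WA t r = X 0 ^ r + 2 * GA t r
  | 0 => by simp [WA, GA]
  | r + 1 => by
    rw [WA, GA]
    have h := WA_eq t r
    have h2 : X 0 * WA t r = X 0 ^ (r + 1) + 2 * (X 0 * GA t r) := by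
      rw [h]
      ring
    rw [h2]
    ring

theorem hom_WA (t : A) : ∀ r : ℕ, (WA t r).IsWeightedHomogeneous w3 r
  | 0 => isWeightedHomogeneous_one A w3
  | r + 1 => by
    have h1 := hom_der (hom_dv t) (hom_WA t r)
    have h2 : (C (2 : A) * dl3 t (WA t r)).IsWeightedHomogeneous w3 (r + 1) := h1.C_mul _
    have h3 := (isWeightedHomogeneous_X A w3 0).mul (hom_WA t r)
    rw [show w3 0 + r = r + 1 by simp [w3, add_comm]] at h3
    rw [WA]
    rw [show (C (2 : A) : MvPolynomial (Fin 3) A) = 2 from map_ofNat C 2] at h2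
    exact h2.add h3

theorem hom_GA (t : A) : ∀ r : ℕ, (GA t r).IsWeightedHomogeneous w3 r
  | 0 => isWeightedHomogeneous_zero A w3 0
  | r + 1 => by
    have h1 := hom_der (hom_dv t) (hom_WA t r)
    have h3 := (isWeightedHomogeneous_X A w3 0).mul (hom_GA t r)
    rw [show w3 0 + r = r + 1 by simp [w3, add_comm]] at h3
    rw [GA]
    exact h1.add h3

/-- the embedding -/
def io (A : ValuationSubring ℂ) : MvPolynomial (Fin 3) A →+* MvPolynomial (Fin 4) ℂ :=
  eval₂Hom ((C : ℂ →+* MvPolynomial (Fin 4) ℂ).comp A.subtype) ![X 0, X 1, X 2]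

theorem io_X (i : Fin 3) : io A (X i) = ![X 0, X 1, X 2] i := by
  rw [io, eval₂Hom_X']

theorem io_C (a : A) : io A (C a) = C (a : ℂ) := by
  rw [io, eval₂Hom_C]
  rfl

theorem io_dl3 {t : A} (ht : 3 * (t : ℂ) = 1) (G : MvPolynomial (Fin 3) A) :
    C 8 * dd (io A G) = 2 * io A (dl3 t G) := by
  have h2 : (2 : MvPolynomial (Fin 4) ℂ) = C 2 := (map_ofNat C 2).symm
  have ht' : (t : ℂ) = 1 / 3 := by
    field_simp
    linear_combination ht
  have c4 : ((4 : A) : ℂ) = 4 := map_ofNat A.subtype 4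
  have c2 : ((2 : A) : ℂ) = 2 := map_ofNat A.subtype 2
  have hX : ∀ i : Fin 3, C 8 * dd (io A (X i)) = 2 * io A (dl3 t (X i)) := by
    intro i
    rw [dl3, mkDerivation_X, io_X]
    fin_cases i
    · simp only [dv, Fin.zero_eta, Matrix.cons_val_zero, map_sub, map_mul, map_pow, io_X, io_C]
      rw [dd, mkDerivation_X, h2]
      simp only [Matrix.cons_val_zero, Matrix.cons_val_one]
      rw [← mul_assoc, ← mul_assoc, ← C_mul, ← C_mul, ht']
      norm_num
    · simp only [dv, Fin.mk_one, Matrix.cons_val_one, Matrix.cons_val_zero, map_sub, map_mul,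
        io_X, io_C]
      rw [dd, mkDerivation_X, h2, c4, ht']
      simp only [Matrix.cons_val_zero, Matrix.cons_val_one, Matrix.cons_val]
      rw [← mul_assoc, ← mul_assoc, ← C_mul, ← C_mul, ← C_mul]
      norm_num
    · simp only [dv, Fin.reduceFinMk, Matrix.cons_val, map_sub, map_mul, map_pow, io_X, io_C]
      rw [dd, mkDerivation_X, h2, c2]
      simp only [Matrix.cons_val]
      rw [← mul_assoc, ← mul_assoc, ← C_mul, ← C_mul]
      norm_num
  induction G using MvPolynomial.induction_on with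
  | C a =>
    have e1 : dl3 t (C a) = 0 := by
      rw [← MvPolynomial.algebraMap_eq]
      exact Derivation.map_algebraMap _ _
    have e2 : dd (C (a : ℂ)) = 0 := by
      rw [← MvPolynomial.algebraMap_eq]
      exact Derivation.map_algebraMap _ _
    rw [io_C, e1, e2, map_zero, mul_zero, mul_zero]
  | add p q hp hq =>
    rw [map_add, map_add, map_add, map_add, mul_add, mul_add, hp, hq]
  | mul_X p i hp =>
    rw [Derivation.leibniz, smul_eq_mul, smul_eq_mul, RingHom.map_add, RingHom.map_mul,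
      RingHom.map_mul, RingHom.map_mul, Derivation.leibniz, smul_eq_mul, smul_eq_mul]
    have h3 := hX i
    linear_combination io A p * h3 + io A (X i) * hp

theorem io_WA {t : A} (ht : 3 * (t : ℂ) = 1) : ∀ r : ℕ, io A (WA t r) = WO r
  | 0 => by rw [WA, WO, map_one]
  | r + 1 => by
    rw [WA, WO, map_add, map_mul, map_mul, ← io_WA ht r, io_dl3 ht, io_X, map_ofNat]
    rfl

/-- `1/3` -/
theorem third (hA : Above2 A) : ∃ t : A, 3 * (t : ℂ) = 1 := by
  have h1 : (1 : ℂ) ∉ A.nonunits := by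
    rw [nonunits_iff, map_one]
    exact lt_irrefl _
  have h3 : (3 : ℂ) ∈ A := by
    have : (3 : ℂ) = 1 + 2 := by norm_num
    rw [this]
    exact A.add_mem _ _ A.one_mem (nonunits_mem hA)
  have h3' : (3 : ℂ) ∉ A.nonunits := by
    intro h
    apply h1
    have : (1 : ℂ) = 3 - 2 := by norm_num
    rw [this]
    exact nonunits_sub h hA
  exact ⟨⟨_, inv_mem_of_not_nonunits h3 h3'⟩, mul_inv_cancel₀ (by norm_num)⟩

theorem one_add_pow {x : ℂ} (hx : x - 1 ∈ A.nonunits) : x ∈ A ∧ ∀ r : ℕ, x ^ r - 1 ∈ A.nonunits := by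
  have h1 : x ∈ A := by
    have : x = (x - 1) + 1 := by ring
    rw [this]
    exact A.add_mem _ _ (nonunits_mem hx) A.one_mem
  refine ⟨h1, fun r => ?_⟩
  induction r with
  | zero => rw [pow_zero, sub_self]; exact zero_nonunits
  | succ r ih =>
    have : x ^ (r + 1) - 1 = x * (x ^ r - 1) + (x - 1) := by ring
    rw [this]
    exact nonunits_add (nonunits_mul_left h1 ih) hx

theorem ev_io (w₁ w₂ α β : ℂ) (G : MvPolynomial (Fin 3) A) :
    ev (io A G) w₁ w₂ α β = eval₂ A.subtype ![e2s w₁ w₂ α β, e4 w₁ w₂, e6 w₁ w₂] G := by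
  rw [ev, io, coe_eval₂Hom, eval₂_comp_left]
  congr 1
  · ext a
    simp
  · ext i
    fin_cases i <;> simp

end

end OW

open OW MvPolynomial in
/-- (WO) the polynomials: homogeneity and values modulo the maximal ideal -/
theorem stWO : StWO := by
  have hhom : ∀ r : ℕ, (WO r).IsWeightedHomogeneous wt (2 * r) := by
    intro r
    induction r with
    | zero => exact isWeightedHomogeneous_one ℂ wt
    | succ r ih =>
      have h1 := (DD.hom_dd ih).C_mul (8 : ℂ)
      have h2 := (isWeightedHomogeneous_X ℂ wt 0).mul ih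
      rw [show wt 0 + 2 * r = 2 * r + 2 by simp [wt, add_comm]] at h2
      rw [WO]
      exact h1.add h2
  refine ⟨hhom, ?_, ?_⟩
  · intro r w₁ w₂ α β c hc hw hv
    have hcc : conj c ≠ 0 := (map_ne_zero _).mpr hc
    have hvol : vol (c * w₁) (c * w₂) (conj c * α) (conj c * β) = c * conj c * vol w₁ w₂ α β := by
      unfold vol
      ring
    have he2 : e2s (c * w₁) (c * w₂) (conj c * α) (conj c * β) = (c ^ 2)⁻¹ * e2s w₁ w₂ α β := by
      unfold e2s
      rw [LF_smul hc, hvol]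
      have hpi : (Real.pi : ℂ) ≠ 0 := by exact_mod_cast Real.pi_ne_zero
      field_simp
    have l4 : e4 (c * w₁) (c * w₂) = (c ^ 4)⁻¹ * e4 w₁ w₂ := LF_smul hc
    have l6 : e6 (c * w₁) (c * w₂) = (c ^ 6)⁻¹ * e6 w₁ w₂ := LF_smul hc
    have l12 : dl (c * w₁) (c * w₂) = (c ^ 12)⁻¹ * dl w₁ w₂ := LF_smul hc
    have h := eval₂_scale (RingHom.id ℂ) wt (hhom r)
      ![e2s w₁ w₂ α β, e4 w₁ w₂, e6 w₁ w₂, dl w₁ w₂] c⁻¹
    have h2 : (fun i => c⁻¹ ^ wt i * ![e2s w₁ w₂ α β, e4 w₁ w₂, e6 w₁ w₂, dl w₁ w₂] i) =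
        ![e2s (c * w₁) (c * w₂) (conj c * α) (conj c * β), e4 (c * w₁) (c * w₂),
          e6 (c * w₁) (c * w₂), dl (c * w₁) (c * w₂)] := by
      funext i
      fin_cases i
      · simp only [wt, Fin.zero_eta, Matrix.cons_val_zero]
        rw [he2, inv_pow]
      · simp only [wt, Fin.mk_one, Matrix.cons_val_one, Matrix.cons_val_zero]
        rw [l4, inv_pow]
      · simp only [wt, Fin.reduceFinMk, Matrix.cons_val]
        rw [l6, inv_pow]
      · simp only [wt, Fin.reduceFinMk, Matrix.cons_val]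
        rw [l12, inv_pow]
    rw [h2, inv_pow] at h
    exact h
  · intro A hA r w₁ w₂ α β h4 hc hp
    obtain ⟨t, ht⟩ := third hA
    obtain ⟨hpA, hp'⟩ := one_add_pow hp
    obtain ⟨hcA, -⟩ := one_add_pow hc
    set P := e2s w₁ w₂ α β with hP
    set Q := e4 w₁ w₂ with hQ
    set R := e6 w₁ w₂ with hR
    set lam := R / Q ^ 2 with hlam
    have e1 : (fun i => lam ^ w3 i * ![P, Q, R] i) =
        ![P * R / Q ^ 2, R ^ 2 / Q ^ 3, (R ^ 2 / Q ^ 3) ^ 2] := by
      funext i
      fin_cases i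
      · simp only [w3, Fin.zero_eta, Matrix.cons_val_zero]
        rw [hlam]
        ring
      · simp only [w3, Fin.mk_one, Matrix.cons_val_one, Matrix.cons_val_zero]
        rw [hlam]
        field_simp
      · simp only [w3, Fin.reduceFinMk, Matrix.cons_val]
        rw [hlam]
        field_simp
    have e2 : eval₂ A.subtype ![P * R / Q ^ 2, R ^ 2 / Q ^ 3, (R ^ 2 / Q ^ 3) ^ 2] (GA t r) ∈ A := by
      have h1 : ![P * R / Q ^ 2, R ^ 2 / Q ^ 3, (R ^ 2 / Q ^ 3) ^ 2] =
          (A.subtype : A → ℂ) ∘ ![⟨_, hpA⟩, ⟨_, hcA⟩, ⟨_, pow_mem hcA 2⟩] := by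
        funext i
        fin_cases i <;> rfl
      have h2 := eval₂_comp_left A.subtype (RingHom.id A)
        (![⟨_, hpA⟩, ⟨_, hcA⟩, ⟨_, pow_mem hcA 2⟩] : Fin 3 → A) (GA t r)
      rw [RingHom.comp_id, ← h1] at h2
      rw [← h2]
      exact Subtype.property _
    have e3 := eval₂_scale A.subtype w3 (hom_WA t r) ![P, Q, R] lam
    rw [e1] at e3
    have e5 : eval₂ A.subtype ![P * R / Q ^ 2, R ^ 2 / Q ^ 3, (R ^ 2 / Q ^ 3) ^ 2] (WA t r) =
        (P * R / Q ^ 2) ^ r +
          2 * eval₂ A.subtype ![P * R / Q ^ 2, R ^ 2 / Q ^ 3, (R ^ 2 / Q ^ 3) ^ 2] (GA t r) := by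
      rw [WA_eq, eval₂_add, eval₂_mul, eval₂_pow, eval₂_X, eval₂_ofNat]
      rfl
    have e6' : ev (WO r) w₁ w₂ α β * lam ^ r - 1 = ((P * R / Q ^ 2) ^ r - 1) +
        2 * eval₂ A.subtype ![P * R / Q ^ 2, R ^ 2 / Q ^ 3, (R ^ 2 / Q ^ 3) ^ 2] (GA t r) := by
      rw [← io_WA ht r, ev_io]
      linear_combination e5 - e3
    rw [e6']
    exact nonunits_add (hp' r) (nonunits_mul_right hA e2)

end

end Pool.Agent.Lib.MP_7c08ba_nt.CN
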