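import Pool.Agent.Lib.MP_7c08ba_nt.CN.StP

set_option autoImplicit false

/-! Project CN, module RepM: every ideal class contains an integral ideal prime to a given
ideal. -/

namespace Pool.Agent.Lib.MP_7c08ba_nt.CN

open NumberField

theorem stRepM : StRepM := by
  intro F _ _ c M hM
  by_cases hMt : M = ⊤
  · obtain ⟨I, hI⟩ := ClassGroup.mk0_surjective c
    refine ⟨I, hI, ?_⟩
    rw [hMt, Ideal.isCoprime_iff_sup_eq, sup_top_eq]
  obtain ⟨I, hI⟩ := ClassGroup.mk0_surjective c⁻¹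
  have hI0 : (I : Ideal (𝓞 F)) ≠ ⊥ := nonZeroDivisors.coe_ne_zero I
  obtain ⟨a, ha⟩ := IsDedekindDomain.exists_sup_span_eq
    (I := (I : Ideal (𝓞 F)) * M) (J := (I : Ideal (𝓞 F))) Ideal.mul_le_left
    (mul_ne_zero hI0 hM)
  obtain ⟨K, hK⟩ : (I : Ideal (𝓞 F)) ∣ Ideal.span {a} := by
    rw [Ideal.dvd_iff_le]
    calc Ideal.span {a} ≤ _ := le_sup_right
      _ = _ := ha
  have hsup : M ⊔ K = ⊤ := by
    rw [hK, ← Ideal.mul_sup] at ha
    have h1 : (I : Ideal (𝓞 F)) * (M ⊔ K) = (I : Ideal (𝓞 F)) * 1 := by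
      rw [ha, mul_one]
    have h2 := mul_left_cancel₀ hI0 h1
    rw [h2, Ideal.one_eq_top]
  have hK0 : K ≠ ⊥ := by
    rintro rfl
    rw [sup_bot_eq] at hsup
    exact hMt hsup
  have hKm : K ∈ nonZeroDivisors (Ideal (𝓞 F)) := mem_nonZeroDivisors_of_ne_zero hK0
  refine ⟨⟨K, hKm⟩, ?_, ?_⟩
  · have ha0 : a ≠ 0 := by
      rintro rfl
      rw [Ideal.span_singleton_eq_bot.2 rfl] at hK
      exact mul_ne_zero hI0 hK0 hK.symm
    have hprod : ClassGroup.mk0 (I * ⟨K, hKm⟩) = 1 := by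
      have h1 : (I * ⟨K, hKm⟩ : nonZeroDivisors (Ideal (𝓞 F))) =
          ⟨(I : Ideal (𝓞 F)) * K, mul_mem I.2 hKm⟩ := rfl
      rw [h1, ClassGroup.mk0_eq_one_iff, ← hK]
      exact ⟨⟨a, rfl⟩⟩
    rw [map_mul, hI, inv_mul_eq_one] at hprod
    exact hprod.symm
  · rw [Ideal.isCoprime_iff_sup_eq, sup_comm]
    exact hsup

end Pool.Agent.Lib.MP_7c08ba_nt.CN
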