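import Mathlib
import Pool.Agent.Lib.MP_7c08ba_nt.CN.StP

set_option autoImplicit false

/-!
Project CN, module Sys: existence of the systems of representatives (`StSys`), from the statements
RepM, Idl, Prim and Fam.
-/

namespace Pool.Agent.Lib.MP_7c08ba_nt.CN

open NumberField IsDedekindDomain RZC
open scoped nonZeroDivisors

namespace SysAux

/-! ### integers -/

/-- Newton's step. -/
theorem newton {d b r : ℤ} (h : IsCoprime b d) (h4 : 4 * d ∣ b ^ 2 + r) :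
    ∃ b', 2 * d ∣ b' - b ∧ 4 * d ^ 2 ∣ b' ^ 2 + r := by
  obtain ⟨u, v, huv⟩ := h
  obtain ⟨y, hy⟩ := h4
  refine ⟨b + 2 * d * (-u * y), ⟨-u * y, by ring⟩, ⟨y * v + (u * y) ^ 2, ?_⟩⟩
  linear_combination hy - 4 * d * y * huv

/-- Two steps. -/
theorem newton4 {d b r : ℤ} (h : IsCoprime b d) (h4 : 4 * d ∣ b ^ 2 + r) :
    ∃ b', 2 * d ∣ b' - b ∧ d ^ 4 ∣ b' ^ 2 + r := by
  obtain ⟨b1, ⟨x, hx⟩, h2⟩ := newton h h4
  have h3 : IsCoprime b1 d := by
    have e : b1 = b + d * (2 * x) := by linear_combination hx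
    rw [e]
    exact h.add_mul_left_left (2 * x)
  obtain ⟨b2, ⟨x', hx'⟩, h5⟩ := newton (h3.pow_right (n := 2)) h2
  refine ⟨b2, ⟨x + d * x', by linear_combination hx + hx'⟩, ?_⟩
  obtain ⟨t, ht⟩ := h5
  exact ⟨4 * t, by rw [ht]; ring⟩

/-- The Chinese remainder theorem. -/
theorem crt {ι : Type} [Finite ι] (m x : ι → ℤ)
    (hm : ∀ i j, i ≠ j → IsCoprime (m i) (m j)) : ∃ r : ℤ, ∀ i, m i ∣ r - x i := by
  have h : Pairwise (Function.onFun IsCoprime fun i => Ideal.span {m i}) := by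
    intro i j hij
    exact (Ideal.isCoprime_span_singleton_iff _ _).2 (hm i j hij)
  obtain ⟨r, hr⟩ := Ideal.exists_forall_sub_mem_ideal h x
  exact ⟨r, fun i => Ideal.mem_span_singleton.1 (hr i)⟩

/-! ### ideals -/

section

variable {q : ℕ} {F : Type} [Field F] [NumberField F] {s : 𝓞 F}

theorem s_sq (hF : FieldC q F (s : F)) : s ^ 2 = -(q : 𝓞 F) := by
  have h := hF.2.2.2
  apply RingOfIntegers.coe_injective
  push_cast
  exact h

theorem norm_nat (hF : FieldC q F (s : F)) (m : ℕ) :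
    Ideal.absNorm (Ideal.span {(m : 𝓞 F)}) = m ^ 2 := by
  rw [Ideal.absNorm_span_natCast, RingOfIntegers.rank, hF.2.2.1]

theorem two_mem {P : Ideal (𝓞 F)} (hP : Ideal.absNorm P = 2) : (2 : 𝓞 F) ∈ P := by
  have h := Ideal.absNorm_mem P
  rw [hP] at h
  exact_mod_cast h

/-- `b` is odd. -/
theorem odd_b (hF : FieldC q F (s : F)) {P : Ideal (𝓞 F)} (hP : P.IsPrime)
    (hP2 : Ideal.absNorm P = 2) {b : ℤ} {g : 𝓞 F} (hg : 2 * g = b + s) :
    Odd b ∧ ∃ n : ℤ, 4 * n = b ^ 2 + q := by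
  have h1 : ((b : 𝓞 F)) ^ 2 + (q : 𝓞 F) = 4 * (b * g - g ^ 2) := by
    have h2 := s_sq hF
    have h3 : s = 2 * g - b := by rw [hg]; ring
    rw [h3] at h2
    linear_combination h2
  have hodd : Odd b := by
    rw [← Int.not_even_iff_odd]
    rintro ⟨c, hc⟩
    have hq : ∃ k : ℕ, q = 2 * k + 1 := ⟨q / 2, by have := hF.2.1; omega⟩
    obtain ⟨k, hk⟩ := hq
    apply hP.ne_top
    rw [Ideal.eq_top_iff_one]
    have h2 := two_mem hP2
    have h3 : (1 : 𝓞 F) = 2 * (2 * (b * g - g ^ 2) - 2 * (c : 𝓞 F) ^ 2 - k) := by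
      rw [hc, hk] at h1
      push_cast at h1
      rw [hc]
      push_cast
      linear_combination h1
    rw [h3]
    exact Ideal.mul_mem_right _ _ h2
  refine ⟨hodd, ?_⟩
  obtain ⟨c, hc⟩ := hodd
  refine ⟨c ^ 2 + c + 2 + 4 * (q / 16 : ℕ), ?_⟩
  have h2 : (q : ℤ) = 16 * (q / 16 : ℕ) + 7 := by
    have := hF.2.1
    omega
  rw [hc]
  linear_combination -h2

/-- Integers congruent to `b`. -/
theorem coprime_b {q' : ℕ} {b : ℤ} {d : ℕ} (h : d.Coprime q') (h4 : 4 * (d : ℤ) ∣ b ^ 2 + q') :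
    IsCoprime b (d : ℤ) := by
  have h1 : IsCoprime (b ^ 2) (d : ℤ) := by
    obtain ⟨y, hy⟩ := h4
    have h2 : IsCoprime (q' : ℤ) (d : ℤ) := (Nat.isCoprime_iff_coprime.2 h).symm
    have e : b ^ 2 = -(q' : ℤ) + d * (4 * y) := by linear_combination hy
    rw [e]
    exact (h2.neg_left).add_mul_left_left (4 * y)
  exact (IsCoprime.pow_left_iff (by norm_num)).1 h1

/-- The norm of the ideal divides `n`. -/
theorem norm_dvd (hI : StIdl) (hF : FieldC q F (s : F)) {b n : ℤ} {g : 𝓞 F}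
    (h2 : 2 * g = b + s) (h4 : 4 * n = b ^ 2 + q) {D : Ideal (𝓞 F)} (hg : g ∈ D)
    (hD : D = idl g (Ideal.absNorm D)) (hpos : 0 < Ideal.absNorm D) :
    ((Ideal.absNorm D : ℕ) : ℤ) ∣ n := by
  obtain ⟨hg2, -, -, -, hM, -, -⟩ := hI q F _ _ s b n g hF h2 h4
  set d := Ideal.absNorm D with hd
  set d1 := Int.gcd (d : ℤ) n with hd1
  have hd1pos : 0 < d1 := Int.gcd_pos_of_ne_zero_left _ (by exact_mod_cast hpos.ne')
  have hd1n : (d1 : ℤ) ∣ n := Int.gcd_dvd_right _ _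
  have hd1d : (d1 : ℤ) ∣ (d : ℤ) := Int.gcd_dvd_left _ _
  have hdD : (d : 𝓞 F) ∈ D := Ideal.absNorm_mem D
  have hnD : (n : 𝓞 F) ∈ D := by
    have e : (n : 𝓞 F) = b * g - g * g := by linear_combination hg2
    rw [e]
    exact D.sub_mem (Ideal.mul_mem_left _ _ hg) (Ideal.mul_mem_left _ _ hg)
  have hd1D : (d1 : 𝓞 F) ∈ D := by
    have e : (d1 : ℤ) = d * Int.gcdA d n + n * Int.gcdB d n := Int.gcd_eq_gcd_ab _ _
    have e' : (d1 : 𝓞 F) = (d : 𝓞 F) * (Int.gcdA d n : ℤ) + (n : 𝓞 F) * (Int.gcdB d n : ℤ) := by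
      exact_mod_cast congrArg (Int.cast : ℤ → 𝓞 F) e
    rw [e']
    exact D.add_mem (Ideal.mul_mem_right _ _ hdD) (Ideal.mul_mem_right _ _ hnD)
  have hEq : idl g d1 = D := by
    apply le_antisymm
    · rw [idl, Ideal.span_le]
      rintro x (rfl | rfl)
      · exact hd1D
      · exact hg
    · conv_lhs => rw [hD]
      rw [idl, Ideal.span_le]
      rintro x (rfl | rfl)
      · obtain ⟨k, hk⟩ := hd1d
        have e : ((d : ℕ) : 𝓞 F) = (d1 : 𝓞 F) * (k : ℤ) := by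
          exact_mod_cast congrArg (Int.cast : ℤ → 𝓞 F) hk
        rw [e]
        exact Ideal.mul_mem_right _ _ (Ideal.subset_span (Set.mem_insert _ _))
      · exact Ideal.subset_span (Set.mem_insert_of_mem _ rfl)
  have h5 := (hM d1 hd1pos hd1n).2
  rw [hEq] at h5
  have h6 : d = d1 := hd.trans h5
  rw [h6]
  exact hd1n

/-- The condition on the pair `(d, g₀)`. -/
def Good (q : ℕ) (s : 𝓞 F) (C : ClassGroup (𝓞 F)) (x : ℕ × 𝓞 F) : Prop :=
  Odd x.1 ∧ x.1.Coprime q ∧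
    (∃ b : ℤ, 2 * x.2 = b + s ∧ 4 * (x.1 : ℤ) ∣ b ^ 2 + q) ∧
    ∀ I : (Ideal (𝓞 F))⁰, (I : Ideal (𝓞 F)) = idl x.2 x.1 → ClassGroup.mk0 I = C

theorem exists_good (hR : StRepM) (hI : StIdl) (hPr : StPrim) (hF : FieldC q F (s : F))
    {P : Ideal (𝓞 F)} (hP : P.IsPrime) (hP2 : Ideal.absNorm P = 2) (C : ClassGroup (𝓞 F))
    (M : ℕ) (hM : 0 < M) : ∃ x : ℕ × 𝓞 F, Good q s C x ∧ x.1.Coprime M ∧ 0 < x.1 := by
  have hq : 0 < q := hF.1.pos
  have hM' : (2 * q * M : ℕ) ≠ 0 := by positivity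
  have hbot : Ideal.span {((2 * q * M : ℕ) : 𝓞 F)} ≠ ⊥ := by
    rw [Ne, Ideal.span_singleton_eq_bot]
    exact_mod_cast hM'
  obtain ⟨I, hIC, hcop⟩ := hR F inferInstance inferInstance C _ hbot
  have hI0 : (I : Ideal (𝓞 F)) ≠ ⊥ := nonZeroDivisors.coe_ne_zero I
  obtain ⟨m, D, b, g, hm, hID, hg, hgD, hD⟩ := hPr q F _ _ s hF I hI0
  have hD0 : D ≠ ⊥ := by
    rintro rfl
    apply hI0
    rw [hID, Ideal.mul_bot]
  have hpos : 0 < Ideal.absNorm D := Nat.pos_of_ne_zero fun h =>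
    hD0 (Ideal.absNorm_eq_zero_iff.1 h)
  obtain ⟨hodd, n, hn⟩ := odd_b hF hP hP2 hg
  have hdn := norm_dvd hI hF hg hn hgD hD hpos
  obtain ⟨-, -, hbas, huniq, hMM, -, -⟩ := hI q F _ _ s b n g hF hg hn
  have hcop' : IsCoprime D (Ideal.span {((2 * q * M : ℕ) : 𝓞 F)}) := by
    rw [hID] at hcop
    exact hcop.of_mul_left_right
  have hc : (Ideal.absNorm D).Coprime (2 * q * M) := by
    obtain ⟨i, hi, j, hj, hij⟩ := Ideal.isCoprime_iff_exists.1 hcop'
    rw [hD] at hi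
    obtain ⟨u, v, huv⟩ := ((hMM _ hpos hdn).1 i).1 hi
    obtain ⟨y, hy⟩ := Ideal.mem_span_singleton.1 hj
    obtain ⟨u', v', huv'⟩ := hbas y
    have h1 : ((u * (Ideal.absNorm D : ℕ) + (2 * q * M : ℕ) * u' - 1 : ℤ) : 𝓞 F) +
        ((v + (2 * q * M : ℕ) * v' : ℤ) : 𝓞 F) * g = 0 := by
      rw [huv, hy, huv'] at hij
      push_cast at hij ⊢
      linear_combination hij
    have h2 := (huniq _ _ h1).1
    rw [← Nat.isCoprime_iff_coprime]
    exact ⟨u, u', by linear_combination h2⟩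
  have hc2 : (Ideal.absNorm D).Coprime 2 :=
    Nat.Coprime.coprime_dvd_right (show 2 ∣ 2 * q * M from ⟨q * M, by ring⟩) hc
  have hcq : (Ideal.absNorm D).Coprime q :=
    Nat.Coprime.coprime_dvd_right (show q ∣ 2 * q * M from ⟨2 * M, by ring⟩) hc
  have hcM : (Ideal.absNorm D).Coprime M :=
    Nat.Coprime.coprime_dvd_right (show M ∣ 2 * q * M from ⟨2 * q, by ring⟩) hc
  have h4 : 4 * ((Ideal.absNorm D : ℕ) : ℤ) ∣ b ^ 2 + q := by
    obtain ⟨t, ht⟩ := hdn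
    exact ⟨t, by rw [← hn, ht]; ring⟩
  have hcls : ∀ J : (Ideal (𝓞 F))⁰, (J : Ideal (𝓞 F)) = idl g (Ideal.absNorm D) →
      ClassGroup.mk0 J = C := by
    intro J hJ
    have hm0 : (m : 𝓞 F) ≠ 0 := by exact_mod_cast hm.ne'
    have hJD : (J : Ideal (𝓞 F)) = D := hJ.trans hD.symm
    have h6 : Ideal.span {(m : 𝓞 F)} * (J : Ideal (𝓞 F)) =
        Ideal.span {(1 : 𝓞 F)} * (I : Ideal (𝓞 F)) := by
      rw [hJD, hID, Ideal.span_singleton_one, Ideal.top_mul]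
    have h5 : ClassGroup.mk0 J = ClassGroup.mk0 I :=
      ClassGroup.mk0_eq_mk0_iff.2 ⟨(m : 𝓞 F), (1 : 𝓞 F), hm0, one_ne_zero, h6⟩
    exact h5.trans hIC
  have hG : Good q s C (Ideal.absNorm D, g) :=
    ⟨Nat.coprime_two_right.1 hc2, hcq, ⟨b, hg, h4⟩, hcls⟩
  exact ⟨(Ideal.absNorm D, g), hG, hcM, hpos⟩

/-- `P ^ (e + 1)` contains an element `(b + s) / 2`. -/
theorem exists_P (hI : StIdl) (hPr : StPrim) (hF : FieldC q F (s : F))
    {P : Ideal (𝓞 F)} (hP : P.IsPrime) (hP2 : Ideal.absNorm P = 2) (e : ℕ) :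
    ∃ (b : ℤ) (g : 𝓞 F), 2 * g = b + s ∧ g ∈ P ^ (e + 1) := by
  have hP0 : P ≠ ⊥ := by
    rintro rfl
    rw [Ideal.absNorm_bot] at hP2
    exact absurd hP2 (by norm_num)
  have hPp : Prime P := Ideal.prime_of_isPrime hP0 hP
  -- `2` is not ramified
  have hram : Ideal.span {((2 : ℕ) : 𝓞 F)} ≠ P ^ 2 := by
    intro hEq
    obtain ⟨m, D, b, g, hm, hID, hg, hgD, hD⟩ := hPr q F _ _ s hF P hP0
    have h1 := congrArg Ideal.absNorm hID
    rw [map_mul, norm_nat hF, hP2] at h1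
    have hm1 : m = 1 := by
      have h3 : m ^ 2 ∣ 2 := ⟨_, h1⟩
      have h4 := Nat.le_of_dvd (by norm_num) h3
      nlinarith
    have hPD : P = D := by
      rw [hID, hm1, Nat.cast_one, Ideal.span_singleton_one, Ideal.top_mul]
    have hgP : g ∈ P := hPD ▸ hgD
    obtain ⟨hodd, n, hn⟩ := odd_b hF hP hP2 hg
    obtain ⟨hg2, -, hbas, huniq, -, -, -⟩ := hI q F _ _ s b n g hF hg hn
    have h5 : g ^ 2 ∈ P ^ 2 := Ideal.pow_mem_pow hgP 2
    rw [← hEq, Ideal.mem_span_singleton] at h5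
    obtain ⟨y, hy⟩ := h5
    obtain ⟨u, v, huv⟩ := hbas y
    have h6 : ((-n - 2 * u : ℤ) : 𝓞 F) + ((b - 2 * v : ℤ) : 𝓞 F) * g = 0 := by
      rw [hg2, huv] at hy
      push_cast at hy ⊢
      linear_combination hy
    have h7 := (huniq _ _ h6).2
    obtain ⟨c, hc⟩ := hodd
    omega
  obtain ⟨m, D, b, g, hm, hID, hg, hgD, hD⟩ := hPr q F _ _ s hF (P ^ (e + 1))
    (pow_ne_zero _ hP0)
  have h1 := congrArg Ideal.absNorm hID
  rw [map_mul, norm_nat hF, map_pow, hP2] at h1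
  have hm2 : m ∣ 2 ^ (e + 1) := (dvd_pow_self m (by norm_num)).trans ⟨_, h1⟩
  obtain ⟨i, hi, him⟩ := (Nat.dvd_prime_pow Nat.prime_two).1 hm2
  have hi0 : i = 0 := by
    by_contra hne
    obtain ⟨k, rfl⟩ := Nat.exists_eq_succ_of_ne_zero hne
    have h2 : Ideal.span {((2 : ℕ) : 𝓞 F)} ∣ P ^ (e + 1) := by
      refine Dvd.dvd.trans ?_ ⟨D, hID⟩
      rw [Ideal.dvd_iff_le, Ideal.span_singleton_le_span_singleton, him]
      exact ⟨((2 ^ k : ℕ) : 𝓞 F), by rw [Nat.succ_eq_add_one, pow_succ]; push_cast; ring⟩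
    obtain ⟨j, hj, hass⟩ := (dvd_prime_pow hPp _).1 h2
    have h3 := associated_iff_eq.1 hass
    have h4 := congrArg Ideal.absNorm h3
    rw [norm_nat hF, map_pow, hP2] at h4
    have h5 : 2 = j := Nat.pow_right_injective (le_refl 2) h4
    rw [← h5] at h3
    exact hram h3
  rw [hi0, pow_zero] at him
  refine ⟨b, g, hg, ?_⟩
  rw [hID, him, Nat.cast_one, Ideal.span_singleton_one, Ideal.top_mul]
  exact hgD

end

end SysAux

open SysAux

/-- (SYS) -/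
theorem stSys (hR : StRepM) (hI : StIdl) (hPr : StPrim) (hFam : StFam) : StSys := by
  intro q F _ _ s hF P hP hP2 e
  -- the family
  obtain ⟨x, hx, hxx⟩ := hFam (ClassGroup (𝓞 F) × Bool) (ℕ × 𝓞 F) inferInstance Prod.fst
    (fun i x => Good q s i.1 x) (fun i M hM => exists_good hR hI hPr hF hP hP2 i.1 M hM) 1 one_pos
  have hgood : ∀ i, Good q s i.1 (x i) := fun i => (hx i).1
  choose b0 hb0 hb0' using fun i => (hgood i).2.2.1
  have hcop0 : ∀ i, IsCoprime (b0 i) ((x i).1 : ℤ) := fun i =>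
    coprime_b (hgood i).2.1 (hb0' i)
  choose b1 hb1 hb1' using fun i => newton4 (hcop0 i) (hb0' i)
  obtain ⟨b2, g2, hg2, hg2P⟩ := exists_P hI hPr hF hP hP2 e
  obtain ⟨hodd2, -⟩ := odd_b hF hP hP2 hg2
  have hqodd : Odd q := by
    rw [Nat.odd_iff]
    have := hF.2.1
    omega
  -- the Chinese remainder theorem
  let m : Option (Option (ClassGroup (𝓞 F) × Bool)) → ℤ := fun o =>
    match o with
    | none => 2 ^ (e + 2)
    | some none => q
    | some (some i) => ((x i).1 : ℤ) ^ 4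
  let y : Option (Option (ClassGroup (𝓞 F) × Bool)) → ℤ := fun o =>
    match o with
    | none => b2
    | some none => 0
    | some (some i) => b1 i
  have c2q : IsCoprime ((2 : ℤ) ^ (e + 2)) (q : ℤ) := by
    apply IsCoprime.pow_left
    exact_mod_cast Nat.isCoprime_iff_coprime.2 (Nat.coprime_two_left.2 hqodd)
  have c2x : ∀ i, IsCoprime ((2 : ℤ) ^ (e + 2)) (((x i).1 : ℤ) ^ 4) := by
    intro i
    apply IsCoprime.pow
    exact_mod_cast Nat.isCoprime_iff_coprime.2 (Nat.coprime_two_left.2 (hgood i).1)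
  have cqx : ∀ i, IsCoprime (q : ℤ) (((x i).1 : ℤ) ^ 4) := by
    intro i
    apply IsCoprime.pow_right
    exact (Nat.isCoprime_iff_coprime.2 (hgood i).2.1).symm
  have cxx : ∀ i j, i ≠ j → IsCoprime (((x i).1 : ℤ) ^ 4) (((x j).1 : ℤ) ^ 4) := by
    intro i j hij
    apply IsCoprime.pow
    exact Nat.isCoprime_iff_coprime.2 (hxx i j hij)
  obtain ⟨b, hb⟩ := crt m y (by
    rintro (_ | _ | i) (_ | _ | j) hij
    · exact absurd rfl hij
    · exact c2q
    · exact c2x j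
    · exact c2q.symm
    · exact absurd rfl hij
    · exact cqx j
    · exact (c2x i).symm
    · exact (cqx i).symm
    · exact cxx i j fun h => hij (by rw [h]))
  have hbnone : (2 : ℤ) ^ (e + 2) ∣ b - b2 := hb none
  have hbq : (q : ℤ) ∣ b := by
    have h := hb (some none)
    change (q : ℤ) ∣ b - 0 at h
    rwa [sub_zero] at h
  have hbi : ∀ i, ((x i).1 : ℤ) ^ 4 ∣ b - b1 i := fun i => hb (some (some i))
  obtain ⟨t, ht⟩ := hbnone
  have hg : 2 * (g2 + ((2 ^ (e + 1) * t : ℤ) : 𝓞 F)) = b + s := by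
    have e1 : (b : 𝓞 F) - b2 = 2 ^ (e + 2) * (t : 𝓞 F) := by
      exact_mod_cast congrArg (Int.cast : ℤ → 𝓞 F) ht
    push_cast
    linear_combination hg2 - e1
  set g : 𝓞 F := g2 + ((2 ^ (e + 1) * t : ℤ) : 𝓞 F) with hgdef
  have hgP : g ∈ P ^ (e + 1) := by
    refine (P ^ (e + 1)).add_mem hg2P ?_
    push_cast
    exact Ideal.mul_mem_right _ _ (Ideal.pow_mem_pow (two_mem hP2) _)
  obtain ⟨hodd, n, hn⟩ := odd_b hF hP hP2 hg
  have hb2n : (2 : ℤ) ^ (e + 3) ∣ b ^ 2 + q := by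
    obtain ⟨-, -, -, -, -, -, hk⟩ := hI q F _ _ s b n g hF hg hn
    obtain ⟨h1, -⟩ := hk P hP hP2 (e + 1) hgP
    obtain ⟨z, hz⟩ := h1
    push_cast at hz
    exact ⟨z, by rw [← hn, hz]; ring⟩
  have hxn : ∀ i, ((x i).1 : ℤ) ^ 4 ∣ b ^ 2 + q := by
    intro i
    have e1 : b ^ 2 + (q : ℤ) = (b - b1 i) * (b + b1 i) + (b1 i ^ 2 + q) := by ring
    rw [e1]
    exact dvd_add ((hbi i).mul_right _) (hb1' i)
  -- the ideals
  have hidl : ∀ i, idl g (x i).1 = idl (x i).2 (x i).1 := by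
    intro i
    have hd : ((x i).1 : ℤ) ∣ b - b0 i := by
      have e1 : b - b0 i = (b - b1 i) + (b1 i - b0 i) := by ring
      rw [e1]
      exact dvd_add ((dvd_pow_self _ (by norm_num)).trans (hbi i))
        ((Dvd.intro_left 2 rfl).trans (hb1 i))
    have h2 : (2 : ℤ) ∣ b - b0 i := by
      obtain ⟨hodd0, -⟩ := odd_b hF hP hP2 (hb0 i)
      exact (hodd.sub_odd hodd0).two_dvd
    have h2d : (2 * ((x i).1 : ℤ)) ∣ b - b0 i := by
      refine IsCoprime.mul_dvd ?_ h2 hd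
      exact_mod_cast Nat.isCoprime_iff_coprime.2 (Nat.coprime_two_left.2 (hgood i).1)
    obtain ⟨r, hr⟩ := h2d
    have e2 : g = (x i).2 + ((x i).1 : 𝓞 F) * (r : 𝓞 F) := by
      have e3 : (b : 𝓞 F) - b0 i = 2 * ((x i).1 : 𝓞 F) * (r : 𝓞 F) := by
        exact_mod_cast congrArg (Int.cast : ℤ → 𝓞 F) hr
      have h4 := hb0 i
      have h5 : (2 : 𝓞 F) * g = 2 * ((x i).2 + ((x i).1 : 𝓞 F) * (r : 𝓞 F)) := by
        linear_combination hg - h4 + e3
      exact mul_left_cancel₀ two_ne_zero h5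
    apply le_antisymm
    · rw [idl, Ideal.span_le]
      rintro z (rfl | rfl)
      · exact Ideal.subset_span (Set.mem_insert _ _)
      · rw [e2]
        exact Ideal.add_mem _ (Ideal.subset_span (Set.mem_insert_of_mem _ rfl))
          (Ideal.mul_mem_right _ _ (Ideal.subset_span (Set.mem_insert _ _)))
    · rw [idl, Ideal.span_le]
      rintro z (rfl | rfl)
      · exact Ideal.subset_span (Set.mem_insert _ _)
      · have e4 : (x i).2 = g - ((x i).1 : 𝓞 F) * (r : 𝓞 F) := by rw [e2]; ring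
        rw [e4]
        exact Ideal.sub_mem _ (Ideal.subset_span (Set.mem_insert_of_mem _ rfl))
          (Ideal.mul_mem_right _ _ (Ideal.subset_span (Set.mem_insert _ _)))
  have hsys : ∀ β : Bool, Sys q s b g fun A => (x (A, β)).1 := fun β =>
    { two := hg
      dvd := hbq
      odd := fun A => (hgood (A, β)).1
      cop := fun A => (hgood (A, β)).2.1
      cls := fun A I h => (hgood (A, β)).2.2.2 I (h.trans (hidl (A, β))) }
  refine ⟨b, g, fun A => (x (A, true)).1, fun A => (x (A, false)).1, hsys true, hsys false, hgP,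
    fun A B => ?_⟩
  have hne : (A, true) ≠ (B, false) := by
    intro h
    exact absurd (congrArg Prod.snd h) (by simp)
  refine ⟨hxx _ _ hne, ?_⟩
  have e1 : (8 * 2 ^ e * (((x (A, true)).1 : ℤ) * ((x (B, false)).1 : ℤ)) ^ 4 : ℤ) =
      2 ^ (e + 3) * (((x (A, true)).1 : ℤ) ^ 4 * ((x (B, false)).1 : ℤ) ^ 4) := by ring
  rw [e1]
  have c3 : ∀ i, IsCoprime ((2 : ℤ) ^ (e + 3)) (((x i).1 : ℤ) ^ 4) := by
    intro i
    apply IsCoprime.pow
    exact_mod_cast Nat.isCoprime_iff_coprime.2 (Nat.coprime_two_left.2 (hgood i).1)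
  exact IsCoprime.mul_dvd ((c3 _).mul_right (c3 _)) hb2n
    (IsCoprime.mul_dvd (cxx _ _ hne) (hxn _) (hxn _))

end Pool.Agent.Lib.MP_7c08ba_nt.CN
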