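import Mathlib
import Pool.Agent.Lib.MP_7c08ba_nt.CN.AAll
import Pool.Agent.Lib.MP_7c08ba_nt.CN.OAn
import Pool.Agent.Lib.MP_7c08ba_nt.CN.OCj
import Pool.Agent.Lib.MP_7c08ba_nt.CN.OEta
import Pool.Agent.Lib.MP_7c08ba_nt.CN.OFac
import Pool.Agent.Lib.MP_7c08ba_nt.CN.OFld
import Pool.Agent.Lib.MP_7c08ba_nt.CN.OHk
import Pool.Agent.Lib.MP_7c08ba_nt.CN.OInv
import Pool.Agent.Lib.MP_7c08ba_nt.CN.OLad
import Pool.Agent.Lib.MP_7c08ba_nt.CN.OLat
import Pool.Agent.Lib.MP_7c08ba_nt.CN.OLc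
import Pool.Agent.Lib.MP_7c08ba_nt.CN.OLs
import Pool.Agent.Lib.MP_7c08ba_nt.CN.ONV
import Pool.Agent.Lib.MP_7c08ba_nt.CN.OPa
import Pool.Agent.Lib.MP_7c08ba_nt.CN.OPair
import Pool.Agent.Lib.MP_7c08ba_nt.CN.OSys
import Pool.Agent.Lib.MP_7c08ba_nt.CN.OVal
import Pool.Agent.Lib.MP_7c08ba_nt.CN.OW
import Pool.Agent.Lib.MP_7c08ba_nt.CN.Fam
import Pool.Agent.Lib.MP_7c08ba_nt.CN.Idl
import Pool.Agent.Lib.MP_7c08ba_nt.CN.Jsum
import Pool.Agent.Lib.MP_7c08ba_nt.CN.Prim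
import Pool.Agent.Lib.MP_7c08ba_nt.CN.RepM
import Pool.Agent.Lib.MP_7c08ba_nt.CN.Sys
import Pool.Agent.Lib.MP_7c08ba_nt.RZ.C.All

set_option autoImplicit false

/-!
Project CN, weights of even `k`: assembly.
-/

namespace Pool.Agent.Lib.MP_7c08ba_nt.CN

namespace O

theorem split : RZ.StSplit := RZ.stSplit A.bas

theorem jsum : StJsum :=
  stJsum RZC.stClass RZC.stUnit RZC.stRep RZC.pChain RZC.pOrdC RZC.stLat

theorem sys : StSys := stSys stRepM stIdl stPrim stFam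

theorem fac : StFacO := stFacO (stPoiH stHer) A.fac

theorem cj : StCjO := stCjO A.bas A.reps split

theorem inv : StInvO := stInvO A.bas A.base A.reps A.thl A.thB

theorem pair : StPairO := stPairO fac A.cm cj A.fac A.thB

theorem lat : StLatO := stLatO stEisF A.bas A.base

theorem ls : StLsO := stLsO A.dec lat cj RZ.stEisA

theorem val : StValO := stValO (stHkO (RZ.stEisAt RZ.stEisA)) A.eisTh

theorem lad : StLadO := stLadO RZC.pLine stEtaO

end O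

/-- The analytic part. -/
theorem aAnO : StAnO :=
  stAnO stOm A.cm O.inv O.pair O.ls O.val (stBij A.reps A.bas) A.reps

/-- The `2`-adic part. -/
theorem aPaO : StPaO := stPaO stEtaO O.lad stWO stFldO (stLcO stIdl O.jsum) RZC.pOdd

theorem aSysO : StSysO := stSysO O.sys stIdl A.reps O.split

/-- **Nonvanishing for even `k`**. -/
theorem aNVO : StNVO := stNVO aAnO aPaO aSysO

end Pool.Agent.Lib.MP_7c08ba_nt.CN
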