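import Pool.Agent.Lib.MP_7c08ba_nt.CN.StP
import Pool.Agent.Lib.MP_7c08ba_nt.RZ.C.All

set_option autoImplicit false

/-! Project CN, (M2): the lattices `P ^ (e - k) * (d, g) ^ 2` are ordinary. -/

namespace Pool.Agent.Lib.MP_7c08ba_nt.CN

open NumberField IsDedekindDomain UpperHalfPlane ModularForm EisensteinSeries RZC
open scoped nonZeroDivisors ComplexConjugate MatrixGroups

namespace CMAux

variable {F : Type} [Field F] [NumberField F] {q : ℕ} {s g : 𝓞 F} {b : ℤ} {d e : ℕ}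
  {P : Ideal (𝓞 F)} {σ : F →+* ℂ}

/-- `d` is prime to `b` -/
theorem cop_db (hA : Adm q s P e b g d) : IsCoprime (d : ℤ) b := by
  rw [Int.isCoprime_iff_gcd_eq_one]
  by_contra h
  obtain ⟨l, hl, hld⟩ := Nat.exists_prime_and_dvd h
  have h1 : l ∣ d := by
    have : (l : ℤ) ∣ (d : ℤ) := (Int.natCast_dvd_natCast.2 hld).trans (Int.gcd_dvd_left _ _)
    exact_mod_cast this
  have h2 : (l : ℤ) ∣ b := (Int.natCast_dvd_natCast.2 hld).trans (Int.gcd_dvd_right _ _)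
  have h3 : (l : ℤ) ∣ b ^ 2 + q := by
    refine Dvd.dvd.trans ?_ hA.div
    refine Dvd.dvd.trans (b := (d : ℤ)) (by exact_mod_cast h1) ?_
    exact ⟨8 * 2 ^ e * d, by ring⟩
  have h4 : (l : ℤ) ∣ q := by
    have := dvd_sub h3 (dvd_pow h2 two_ne_zero)
    simpa using this
  have h5 : l ∣ q := by exact_mod_cast h4
  have h6 := Nat.dvd_gcd h1 h5
  rw [hA.cop] at h6
  exact hl.one_lt.ne' (Nat.dvd_one.1 h6)

/-- `b ^ 2 + q = 4 n` -/
theorem exists_n (hA : Adm q s P e b g d) : ∃ n : ℤ, 4 * n = b ^ 2 + q ∧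
    ((2 ^ e * d ^ 2 : ℕ) : ℤ) ∣ n := by
  obtain ⟨c, hc⟩ := hA.div
  refine ⟨2 * 2 ^ e * d ^ 2 * c, by rw [hc]; ring, ⟨2 * c, by push_cast; ring⟩⟩

omit [NumberField F] in
/-- imaginary part of `g` -/
theorem im_g (hg : 2 * g = b + s) (hs : 0 < (σ (s : F)).im) : 0 < (σ (g : F)).im := by
  have h0 : (2 : F) * (g : F) = b + (s : F) := by
    have := congrArg (algebraMap (𝓞 F) F) hg
    rwa [map_mul, map_add, map_ofNat, map_intCast] at this
  have h1 : (2 : ℂ) * σ (g : F) = b + σ (s : F) := by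
    have := congrArg σ h0
    rwa [map_mul, map_add, map_ofNat, map_intCast] at this
  have h2 := congrArg Complex.im h1
  rw [Complex.add_im, Complex.intCast_im, zero_add, Complex.mul_im] at h2
  norm_num at h2
  linarith

/-- `(σ g, M)` is an oriented basis of `(M, g)` -/
theorem isB_idl (hg : 2 * g = b + s) (hs : 0 < (σ (s : F)).im) {M : ℕ} (hM : 0 < M)
    (h : ∀ z : 𝓞 F, z ∈ idl g M ↔ ∃ u v : ℤ, z = u * M + v * g) :
    IsB σ (idl g M) (σ (g : F)) (M : ℂ) := by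
  constructor
  · unfold Pos
    have : σ (g : F) / (M : ℂ) = ((M : ℝ)⁻¹ : ℝ) * σ (g : F) := by
      push_cast
      rw [div_eq_mul_inv, mul_comm]
    rw [this, Complex.im_ofReal_mul]
    exact mul_pos (by positivity) (im_g hg hs)
  · intro z
    rw [mem_lat]
    have key : ∀ u v : ℤ, σ (((u * M + v * g : 𝓞 F)) : F) = v * σ (g : F) + u * M := by
      intro u v
      have : (((u * M + v * g : 𝓞 F)) : F) = u * M + v * (g : F) := by
        change algebraMap (𝓞 F) F _ = _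
        rw [map_add, map_mul, map_mul, map_intCast, map_intCast, map_natCast]
      rw [this, map_add, map_mul, map_mul, map_intCast, map_intCast, map_natCast]
      ring
    constructor
    · rintro ⟨m, n, rfl⟩
      exact ⟨n * M + m * g, (h _).2 ⟨n, m, rfl⟩, key n m⟩
    · rintro ⟨x, hx, rfl⟩
      obtain ⟨u, v, rfl⟩ := (h x).1 hx
      exact ⟨v, u, (key u v).symm⟩

/-- the ideals `(2 ^ i d ^ 2, g)` -/
structure Dt (q : ℕ) (s : 𝓞 F) (σ : F →+* ℂ) (P : Ideal (𝓞 F)) (e : ℕ) (g : 𝓞 F) (d : ℕ) :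
    Prop where
  isB : ∀ i ≤ e, IsB σ (idl g (2 ^ i * d ^ 2)) (σ (g : F)) (2 ^ i * (d : ℂ) ^ 2)
  eq : ∀ i ≤ e, idl g (2 ^ i * d ^ 2) = P ^ i * idl g (d ^ 2)
  nrm : ∀ i ≤ e, Ideal.absNorm (idl g (2 ^ i * d ^ 2)) = 2 ^ i * d ^ 2

theorem dt (hI : StIdl) (hF : FieldC q F (s : F)) (hs : 0 < (σ (s : F)).im) (hP : P.IsPrime)
    (hPn : Ideal.absNorm P = 2) (hA : Adm q s P e b g d) : Dt q s σ P e g d := by
  obtain ⟨n, hn, hdn⟩ := exists_n hA
  obtain ⟨-, hb, -, -, h1, h2, h3⟩ := hI q F _ _ s b n g hF hA.two hn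
  have hd0 : 0 < d := hA.odd.pos
  have hM : ∀ i ≤ e, ((2 ^ i * d ^ 2 : ℕ) : ℤ) ∣ n := by
    intro i hi
    refine Dvd.dvd.trans ?_ hdn
    exact_mod_cast Nat.mul_dvd_mul (Nat.pow_dvd_pow 2 hi) dvd_rfl
  have hpos : ∀ i, 0 < 2 ^ i * d ^ 2 := fun i => by positivity
  refine ⟨fun i hi => ?_, fun i hi => ?_, fun i hi => (h1 _ (hpos i) (hM i hi)).2⟩
  · have := isB_idl (σ := σ) hA.two hs (hpos i) (h1 _ (hpos i) (hM i hi)).1
    push_cast at this
    exact this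
  · have h4 : g ∈ P ^ i := Ideal.pow_le_pow_right (by omega : i ≤ e + 1) hA.mem
    rw [← (h3 P hP hPn i h4).2]
    refine (h2 _ _ (by positivity) (by positivity) (hM i hi) ?_).symm
    push_cast
    refine IsCoprime.pow_left ?_
    rw [Int.isCoprime_iff_gcd_eq_one, Int.gcd_comm]
    have := Int.odd_iff.1 hb
    rw [Int.gcd_comm]
    exact (Int.isCoprime_iff_gcd_eq_one.1 ((Int.prime_two.coprime_iff_not_dvd).2 (by omega)))

theorem XX_congr {w₁ w₂ v₁ v₂ : ℂ} (hw : Pos w₁ w₂) (hv : Pos v₁ v₂)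
    (h : lat w₁ w₂ = lat v₁ v₂) (h' : lat w₁ (w₂ / 2) = lat v₁ (v₂ / 2)) :
    XX w₁ w₂ = XX v₁ v₂ := by
  unfold XX
  rw [SumAux.dl_congr stLat hw hv h, SumAux.dl_congr stLat hw.half hv.half h']

end CMAux

open CMAux in
/-- (M2) -/
theorem stCMP (hI : StIdl) : StCMP := by
  intro q F _ _ s σ A hF hs hA
  obtain ⟨P, hP, hPn, hPu⟩ := stUnit q F (s : F) hF σ A hA
  refine ⟨P, hP, hPn, ?_⟩
  -- the first part
  have main : ∀ (e : ℕ) (b : ℤ) (g : 𝓞 F) (d : ℕ), Adm q s P e b g d → ∀ k ≤ e,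
      Ord A (σ g) (2 ^ (e - k) * (d : ℂ) ^ 2) ∧ (k < e →
          XX (σ g) (2 ^ (e - k) * (d : ℂ) ^ 2) ∈ A ∧
          (XX (σ g) (2 ^ (e - k) * (d : ℂ) ^ 2))⁻¹ ∈ A ∧
          E2s (σ g) (2 ^ (e - k) * (d : ℂ) ^ 2) * e6 (σ g) (2 ^ (e - k) * (d : ℂ) ^ 2) /
            e4 (σ g) (2 ^ (e - k) * (d : ℂ) ^ 2) ^ 2 ∈ A) := by
    intro e b g d hAd k hk
    have hD := dt hI hF hs hP hPn hAd
    -- the chain
    have hP0 : P ≠ ⊥ := by
      rintro rfl
      simp at hPn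
    have hPz : P ∈ (Ideal (𝓞 F))⁰ := mem_nonZeroDivisors_of_ne_zero hP0
    set m : ℕ := Fintype.card (ClassGroup (𝓞 F)) * (2 * e + 1) with hm
    have hmodd : Odd m := (stClass q F (s : F) hF).mul ⟨e, rfl⟩
    have hm0 : 0 < m := hmodd.pos
    have hme : e + 1 ≤ m := by
      have : 0 < Fintype.card (ClassGroup (𝓞 F)) := Fintype.card_pos
      calc e + 1 ≤ 1 * (2 * e + 1) := by omega
        _ ≤ m := Nat.mul_le_mul_right _ this
    obtain ⟨x, hx⟩ : ∃ x : 𝓞 F, P ^ m = Ideal.span {x} := by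
      have h : ClassGroup.mk0 (⟨P ^ m, pow_mem hPz m⟩ : (Ideal (𝓞 F))⁰) = 1 := by
        have h' : (⟨P ^ m, pow_mem hPz m⟩ : (Ideal (𝓞 F))⁰) = ⟨P, hPz⟩ ^ m := rfl
        rw [h', map_pow, hm, pow_mul, pow_card_eq_one, one_pow]
      obtain ⟨x, hx⟩ := (ClassGroup.mk0_eq_one_iff _).mp h
      exact ⟨x, hx⟩
    have hU : UnitC A m (σ (x : F)) := hPu m x hmodd hx
    have ha0 : idl g (d ^ 2) ≠ ⊥ := by
      intro h
      have h1 : ((d ^ 2 : ℕ) : 𝓞 F) ∈ idl g (d ^ 2) := Ideal.subset_span (by simp)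
      rw [h, Ideal.mem_bot] at h1
      have h2 : d ^ 2 = 0 := by exact_mod_cast h1
      exact (pow_pos hAd.odd.pos 2).ne' h2
    obtain ⟨u, v, hc, hb⟩ := pChain q F (s : F) hF σ P hP hPn m x hm0 hx (idl g (d ^ 2)) ha0
    -- the lattice number `m - j`
    have hlat : ∀ j ≤ e, lat (σ (g : F)) (2 ^ j * (d : ℂ) ^ 2) = lat (u (m - j)) (v (m - j)) := by
      intro j hj
      have h1 := hD.isB j hj
      rw [hD.eq j hj] at h1
      have h2 := hb (m - j) (Nat.sub_le _ _)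
      rw [Nat.sub_sub_self (by omega : j ≤ m)] at h2
      exact SumAux.IsB.lat_eq h1 h2
    have hek : e - k ≤ e := Nat.sub_le _ _
    have hpos := (hD.isB (e - k) hek).1
    have hpos' := hc.pos (m - (e - k))
    have hl := hlat (e - k) hek
    obtain ⟨⟨hO1, hO2, hO3⟩, hX1, hX2⟩ := (pOrdC A hA m _ u v hm0 hc hU).1 (m - (e - k))
    have hO : Ord A (σ g) (2 ^ (e - k) * (d : ℂ) ^ 2) := by
      refine ⟨hpos, ?_, ?_⟩
      · rw [SumAux.e4_congr stLat hpos hpos' hl]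
        exact hO2
      · rw [SumAux.jv_congr stLat hpos hpos' hl]
        exact hO3
    refine ⟨hO, fun hke => ?_⟩
    have hX : XX (σ g) (2 ^ (e - k) * (d : ℂ) ^ 2) = XX (u (m - (e - k))) (v (m - (e - k))) := by
      refine XX_congr hpos hpos' hl ?_
      rw [← hc.half]
      have h1 := hlat (e - k - 1) (by omega)
      rw [show m - (e - k - 1) = m - (e - k) + 1 by omega] at h1
      rw [← h1]
      congr 1
      rw [show e - k = (e - k - 1) + 1 by omega, Nat.add_sub_cancel, pow_succ]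
      ring
    refine ⟨hX ▸ hX1, hX ▸ hX2, ?_⟩
    obtain ⟨G, hG, -⟩ := pApp A hA m _ u v hm0 hc hU 0
    have h1 := hG (m - (e - k))
    rw [pow_zero, div_one] at h1
    have h6 : e6 (σ g) (2 ^ (e - k) * (d : ℂ) ^ 2) = e6 (u (m - (e - k))) (v (m - (e - k))) :=
      stLat 6 E₆ _ _ _ _ hpos hpos' hl
    rw [stE2Lat _ _ _ _ hpos hpos' hl, h6, SumAux.e4_congr stLat hpos hpos' hl]
    have h2 : Polynomial.aeval (jv (u (m - (e - k))) (v (m - (e - k)))) G ∈ A := by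
      have h3 : Polynomial.aeval (⟨_, hO3⟩ : A) G ∈ (⊤ : Subring A) := trivial
      have h4 : (Polynomial.aeval (jv (u (m - (e - k))) (v (m - (e - k)))) G : ℂ) =
          ((Polynomial.aeval (⟨_, hO3⟩ : A) G : A) : ℂ) := by
        rw [Polynomial.aeval_def, Polynomial.aeval_def, Polynomial.eval₂_eq_sum_range,
          Polynomial.eval₂_eq_sum_range]
        push_cast
        simp
      rw [h4]
      exact Subtype.property _
    have := A.add_mem _ _ h1 h2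
    rwa [sub_add_cancel] at this
  intro e b g d hAd
  refine ⟨fun k hk => ⟨(main e b g d hAd k hk.le).1, (main e b g d hAd k hk.le).2 hk⟩, fun _ => ?_⟩
  -- the second part
  have hA1 : Adm q s P e b g 1 := by
    refine ⟨hAd.two, hAd.dvd, odd_one, Nat.coprime_one_left _, ?_, hAd.mem⟩
    refine Dvd.dvd.trans ?_ hAd.div
    exact ⟨(d : ℤ) ^ 2, by push_cast; ring⟩
  have hO1 := (main e b g 1 hA1 0 (Nat.zero_le _)).1
  have hD := dt hI hF hs hP hPn hAd
  have hD1 := dt hI hF hs hP hPn hA1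
  have hB := hD.isB e le_rfl
  have hB1 := hD1.isB e le_rfl
  simp only [Nat.cast_one, one_pow, mul_one, Nat.sub_zero] at hO1 hB1
  have hle : idl g (2 ^ e * d ^ 2) ≤ idl g (2 ^ e) := by
    rw [Ideal.span_le]
    intro z hz
    rcases hz with rfl | hz
    · push_cast
      exact Ideal.mul_mem_right _ _ (Ideal.subset_span (by simp))
    · exact Ideal.subset_span (Set.mem_insert_of_mem _ hz)
  have hlatle : lat (σ (g : F)) (2 ^ e * (d : ℂ) ^ 2) ≤ lat (σ (g : F)) (2 ^ e) := by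
    intro z hz
    rw [hB.2] at hz
    rw [hB1.2]
    obtain ⟨x, hx, rfl⟩ := hz
    exact ⟨x, hle hx, rfl⟩
  have hn1 : idl g (2 ^ e) ≠ ⊥ := by
    intro h
    have := hD1.nrm e le_rfl
    simp only [one_pow, mul_one, h, Ideal.absNorm_bot] at this
    exact (pow_pos two_pos e).ne this
  have hn2 : idl g (2 ^ e * d ^ 2) ≠ ⊥ := by
    intro h
    have := hD.nrm e le_rfl
    simp only [h, Ideal.absNorm_bot] at this
    have h3 : 0 < 2 ^ e * d ^ 2 := Nat.mul_pos (pow_pos two_pos e) (pow_pos hAd.odd.pos 2)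
    exact h3.ne this
  obtain ⟨t₁, t₂, ht⟩ := (stBasis q F (s : F) hF σ ⊤ (by simp)).1
  obtain ⟨hl1, hi1⟩ := ((stBasis q F (s : F) hF σ _ hn1).2 _ _ hB1).2 _ _ ht
  obtain ⟨hl2, hi2⟩ := ((stBasis q F (s : F) hF σ _ hn2).2 _ _ hB).2 _ _ ht
  have hidx : (lat (σ (g : F)) (2 ^ e * (d : ℂ) ^ 2)).toAddSubgroup.relIndex
      (lat (σ (g : F)) (2 ^ e)).toAddSubgroup = d ^ 2 := by
    have h1 := AddSubgroup.relIndex_mul_relIndex
      (lat (σ (g : F)) (2 ^ e * (d : ℂ) ^ 2)).toAddSubgroup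
      (lat (σ (g : F)) (2 ^ e)).toAddSubgroup (lat t₁ t₂).toAddSubgroup
      (Submodule.toAddSubgroup_le _ _ |>.2 hlatle) (Submodule.toAddSubgroup_le _ _ |>.2 hl1)
    rw [hi1, hi2, hD.nrm e le_rfl] at h1
    have h2 := hD1.nrm e le_rfl
    simp only [one_pow, mul_one] at h2
    rw [h2, mul_comm] at h1
    exact Nat.eq_of_mul_eq_mul_left (pow_pos two_pos e) h1
  exact (pOdd A hA _ _ hO1 _ _ hB.1 hlatle (by rw [hidx]; exact hAd.odd.pow)).2.1

end Pool.Agent.Lib.MP_7c08ba_nt.CN
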