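import Mathlib
import Pool.Agent.Lib.MP_7c08ba_nt.CN.StP

set_option autoImplicit false

/-!
Project CN, module Der: (R4) the derivatives of `θ₃` in terms of the polynomials `RJ`.
-/

namespace Pool.Agent.Lib.MP_7c08ba_nt.CN

open NumberField IsDedekindDomain UpperHalfPlane ModularForm EisensteinSeries RZC
open scoped nonZeroDivisors ComplexConjugate MatrixGroups

namespace DerAux

theorem summ (T : ℝ) (hT : 0 < T) (k : ℕ) :
    Summable (fun n : ℤ => (|(n : ℝ)| ^ k : ℝ) * Real.exp (-Real.pi * T * (n : ℝ) ^ 2)) := by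
  have h := summable_pow_mul_jacobiTheta₂_term_bound 0 hT k
  refine h.congr fun n => ?_
  have h1 : -Real.pi * (T * (n : ℝ) ^ 2 - 2 * 0 * |(n : ℝ)|) = -Real.pi * T * (n : ℝ) ^ 2 := by
    ring
  simp only [Int.cast_abs] at h1 ⊢
  rw [h1]

theorem norm_term (k : ℕ) (n : ℤ) (z : ℂ) :
    ‖(n : ℂ) ^ k * Complex.exp (Real.pi * Complex.I * (n : ℂ) ^ 2 * z)‖ =
      |(n : ℝ)| ^ k * Real.exp (-Real.pi * z.im * (n : ℝ) ^ 2) := by
  rw [norm_mul, norm_pow, Complex.norm_exp, Complex.norm_intCast]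
  congr 2
  have : (Real.pi : ℂ) * Complex.I * (n : ℂ) ^ 2 * z
      = ((Real.pi * (n : ℝ) ^ 2 : ℝ) : ℂ) * (Complex.I * z) := by
    push_cast; ring
  rw [this, Complex.re_ofReal_mul]
  simp only [Complex.mul_re, Complex.I_re, Complex.I_im]
  ring

theorem summable_tm (j : ℕ) (z : ℂ) (hz : 0 < z.im) :
    Summable fun n : ℤ => (n : ℂ) ^ (2 * j) *
      Complex.exp (Real.pi * Complex.I * (n : ℂ) ^ 2 * z) := by
  refine Summable.of_norm ?_
  refine (summ z.im hz (2 * j)).congr fun n => ?_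
  rw [norm_term]

theorem tm_deriv (j : ℕ) (τ : ℂ) (hτ : 0 < τ.im) :
    HasDerivAt (tm j) (Real.pi * Complex.I * tm (j + 1) τ) τ := by
  have hT : 0 < τ.im / 2 := by linarith
  set S : Set ℂ := {z | τ.im / 2 < z.im} with hS
  have hopen : IsOpen S := isOpen_lt continuous_const Complex.continuous_im
  have hconv : IsPreconnected S := by
    refine Convex.isPreconnected ?_
    exact convex_halfSpace_im_gt _
  have hτS : τ ∈ S := by
    show τ.im / 2 < τ.im
    linarith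
  have key := hasDerivAt_tsum_of_isPreconnected
    (g := fun (n : ℤ) (z : ℂ) => (n : ℂ) ^ (2 * j) *
      Complex.exp (Real.pi * Complex.I * (n : ℂ) ^ 2 * z))
    (g' := fun (n : ℤ) (z : ℂ) => Real.pi * Complex.I * ((n : ℂ) ^ (2 * (j + 1)) *
      Complex.exp (Real.pi * Complex.I * (n : ℂ) ^ 2 * z)))
    (u := fun n : ℤ => Real.pi * ((|(n : ℝ)| ^ (2 * (j + 1)) : ℝ) *
      Real.exp (-Real.pi * (τ.im / 2) * (n : ℝ) ^ 2)))
    ((summ (τ.im / 2) hT (2 * (j + 1))).mul_left Real.pi) hopen hconv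
    (fun n y _ => by
      have h1 : HasDerivAt (fun z : ℂ => Real.pi * Complex.I * (n : ℂ) ^ 2 * z)
          (Real.pi * Complex.I * (n : ℂ) ^ 2) y := by
        simpa using (hasDerivAt_id y).const_mul (Real.pi * Complex.I * (n : ℂ) ^ 2)
      have h2 := (h1.cexp).const_mul ((n : ℂ) ^ (2 * j))
      refine h2.congr_deriv ?_
      ring)
    (fun n y hy => by
      have hy' : τ.im / 2 < y.im := hy
      rw [norm_mul, norm_term, norm_mul, Complex.norm_I, mul_one, Complex.norm_real,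
        Real.norm_of_nonneg Real.pi_pos.le]
      refine mul_le_mul_of_nonneg_left ?_ Real.pi_pos.le
      refine mul_le_mul_of_nonneg_left ?_ (by positivity)
      refine Real.exp_le_exp.2 ?_
      have h3 : 0 ≤ Real.pi * (y.im - τ.im / 2) * (n : ℝ) ^ 2 := by
        have : 0 ≤ y.im - τ.im / 2 := by linarith
        positivity
      nlinarith)
    hτS (summable_tm j τ hτ) hτS
  rw [tsum_mul_left] at key
  exact key

/-- the constant `2 π i / 24` -/
noncomputable def K : ℂ := 2 * Real.pi * Complex.I / 24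

theorem K_ne : K ≠ 0 := by
  unfold K
  have := Complex.I_ne_zero
  have hp : (Real.pi : ℂ) ≠ 0 := by exact_mod_cast Real.pi_pos.ne'
  exact div_ne_zero (mul_ne_zero (mul_ne_zero two_ne_zero hp) this) (by norm_num)
/-- `E₂ / θ₃⁴` -/
noncomputable def eh (z : ℂ) : ℂ := E2 (ofComplex z) / t3 z ^ 4

theorem of_c (τ : ℍ) : ofComplex (τ : ℂ) = τ := ofComplex_apply τ

/-- the relations at a point -/
theorem rel (h2 : StTh2) (h4 : StTh4) (τ : ℍ) :
    t3 τ ≠ 0 ∧ t2 τ ^ 4 = 16 * t3 τ ^ 4 * tt τ ∧ t4 τ ^ 4 = t3 τ ^ 4 * (1 - 16 * tt τ) ∧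
      E2 τ = eh τ * t3 τ ^ 4 := by
  obtain ⟨_, _, h3, _⟩ := h4 τ
  obtain ⟨_, _, _, _, hJ⟩ := h2 τ τ.im_pos
  have e1 : t2 τ ^ 4 = 16 * t3 τ ^ 4 * tt τ := by
    unfold tt
    field_simp
  refine ⟨h3, e1, ?_, ?_⟩
  · have : t4 τ ^ 4 = t3 τ ^ 4 - t2 τ ^ 4 := by rw [hJ]; ring
    rw [this, e1]
    ring
  · unfold eh
    rw [of_c]
    field_simp

theorem d3 (h2 : StTh2) (h4 : StTh4) (h5 : StTh5) (τ : ℍ) :
    HasDerivAt t3 (K * (t3 τ * (t3 τ ^ 4 * (eh τ - 1 + 32 * tt τ)))) τ := by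
  obtain ⟨_, r2, r4, rE⟩ := rel h2 h4 τ
  refine (h5 τ).1.congr_deriv ?_
  unfold K
  rw [r2, r4, rE]
  ring

theorem dt (h2 : StTh2) (h4 : StTh4) (h5 : StTh5) (τ : ℍ) :
    HasDerivAt tt (K * (12 * t3 τ ^ 4 * tt τ * (1 - 16 * tt τ))) τ := by
  obtain ⟨r3, r2, r4, rE⟩ := rel h2 h4 τ
  have a2 := ((h5 τ).2.2.pow 4)
  have a3 := (((h5 τ).1.pow 4).const_mul 16)
  have hne : 16 * t3 τ ^ 4 ≠ 0 := mul_ne_zero (by norm_num) (pow_ne_zero _ r3)
  have a := a2.div a3 hne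
  refine a.congr_deriv ?_
  have e2 : ((4 : ℕ) : ℂ) * t2 τ ^ (4 - 1) * (2 * Real.pi * Complex.I / 24 *
      (t2 τ * (E2 τ + t3 τ ^ 4 + t4 τ ^ 4))) =
      4 * K * t2 τ ^ 4 * (E2 τ + t3 τ ^ 4 + t4 τ ^ 4) := by
    unfold K
    push_cast
    ring
  have e3 : ((4 : ℕ) : ℂ) * t3 τ ^ (4 - 1) * (2 * Real.pi * Complex.I / 24 *
      (t3 τ * (E2 τ + t2 τ ^ 4 - t4 τ ^ 4))) =
      4 * K * t3 τ ^ 4 * (E2 τ + t2 τ ^ 4 - t4 τ ^ 4) := by
    unfold K
    push_cast
    ring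
  simp only [Pi.pow_apply]
  rw [e2, e3, r2, r4, rE]
  rw [div_eq_iff (pow_ne_zero _ hne)]
  ring

theorem dE (h2 : StTh2) (h3 : StTh3) (h4 : StTh4) (hR : StRam) (τ : ℍ) :
    HasDerivAt (fun z : ℂ => E2 (ofComplex z)) (K * (2 * t3 τ ^ 8 *
      (eh τ ^ 2 - (1 - 16 * tt τ + 256 * tt τ ^ 2)))) τ := by
  obtain ⟨r3, r2, r4, rE⟩ := rel h2 h4 τ
  have hdiff : DifferentiableAt ℂ (E2 ∘ ofComplex) (τ : ℂ) := by
    have := UpperHalfPlane.mdifferentiable_iff.1 E2_mdifferentiable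
    exact (this _ τ.im_pos).differentiableAt (isOpen_upperHalfPlaneSet.mem_nhds τ.im_pos)
  have hd := hdiff.hasDerivAt
  have h1 := hR.1 τ
  unfold Derivative.normalizedDerivOfComplex at h1
  have hp : (2 * (Real.pi : ℂ) * Complex.I) ≠ 0 := by
    have hp : (Real.pi : ℂ) ≠ 0 := by exact_mod_cast Real.pi_pos.ne'
    exact mul_ne_zero (mul_ne_zero two_ne_zero hp) Complex.I_ne_zero
  have h5 : deriv (E2 ∘ ofComplex) (τ : ℂ) =
      2 * (Real.pi : ℂ) * Complex.I * ((E2 τ ^ 2 - E₄ τ) / 12) := by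
    rw [← h1, ← mul_assoc, mul_inv_cancel₀ hp, one_mul]
  rw [h5] at hd
  refine hd.congr_deriv ?_
  have e4 : E₄ τ = (t2 τ ^ 8 + t3 τ ^ 8 + t4 τ ^ 8) / 2 := by
    rw [← (h3 τ).1]; ring
  have e8 : t2 τ ^ 8 = (t2 τ ^ 4) ^ 2 := by ring
  have e8' : t4 τ ^ 8 = (t4 τ ^ 4) ^ 2 := by ring
  unfold K
  rw [e4, e8, e8', r2, r4, rE]
  ring

theorem de (h2 : StTh2) (h3 : StTh3) (h4 : StTh4) (h5 : StTh5) (hR : StRam) (τ : ℍ) :
    HasDerivAt eh (K * (t3 τ ^ 4 * (2 * (eh τ ^ 2 - 1 + 16 * tt τ - 256 * tt τ ^ 2) -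
      4 * eh τ * (eh τ - 1 + 32 * tt τ)))) τ := by
  obtain ⟨r3, r2, r4, rE⟩ := rel h2 h4 τ
  have hne : t3 τ ^ 4 ≠ 0 := pow_ne_zero _ r3
  have a := (dE h2 h3 h4 hR τ).div ((d3 h2 h4 h5 τ).pow 4) hne
  refine a.congr_deriv ?_
  simp only [Pi.pow_apply]
  rw [of_c, rE, div_eq_iff (pow_ne_zero _ hne)]
  push_cast
  ring

open MvPolynomial in
/-- chain rule -/
theorem chain (P : MvPolynomial (Fin 2) ℤ) (f g : ℂ → ℂ) (f' g' z : ℂ)
    (hf : HasDerivAt f f' z) (hg : HasDerivAt g g' z) :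
    HasDerivAt (fun w => MvPolynomial.aeval ![f w, g w] P)
      (f' * MvPolynomial.aeval ![f z, g z] (pderiv 0 P) +
        g' * MvPolynomial.aeval ![f z, g z] (pderiv 1 P)) z := by
  induction P using MvPolynomial.induction_on with
  | C a =>
    simp only [MvPolynomial.pderiv_C, map_zero, mul_zero, add_zero]
    have : (fun w => MvPolynomial.aeval ![f w, g w] (C a : MvPolynomial (Fin 2) ℤ)) =
        fun _ => (a : ℂ) := by
      funext w
      simp
    rw [this]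
    exact hasDerivAt_const _ _
  | add p q hp hq =>
    have := hp.add hq
    simp only [map_add]
    refine this.congr_deriv ?_
    ring
  | mul_X p i hp =>
    have hi : HasDerivAt (fun w => MvPolynomial.aeval ![f w, g w] (X i : MvPolynomial (Fin 2) ℤ))
      (f' * MvPolynomial.aeval ![f z, g z] (pderiv 0 (X i : MvPolynomial (Fin 2) ℤ)) +
        g' * MvPolynomial.aeval ![f z, g z] (pderiv 1 (X i : MvPolynomial (Fin 2) ℤ))) z := by
      fin_cases i
      · simp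
        simpa using hf
      · simp
        simpa using hg
    have := hp.mul hi
    simp only [map_mul, Derivation.leibniz, smul_eq_mul, map_add]
    refine this.congr_deriv ?_
    ring

end DerAux

open DerAux in
theorem stDer (h2 : StTh2) (h3 : StTh3) (h4 : StTh4) (h5 : StTh5) (hR : StRam) : StDer := by
  intro j
  suffices h : ∀ τ : ℍ, 12 ^ j * tm j τ =
      t3 τ ^ (4 * j + 1) * MvPolynomial.aeval ![eh τ, tt τ] (RJ j) by
    intro τ
    rw [h τ]
    unfold eh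
    rw [of_c]
  induction j with
  | zero =>
    intro τ
    simp only [pow_zero, one_mul, RJ, map_one, mul_zero, zero_add, pow_one, mul_one]
    unfold tm t3
    simp
  | succ j ih =>
    intro τ
    have hd := (tm_deriv j τ τ.im_pos).const_mul ((12 : ℂ) ^ j)
    have h3' := (d3 h2 h4 h5 τ).pow (4 * j + 1)
    have hc := chain (RJ j) eh tt _ _ τ (de h2 h3 h4 h5 hR τ) (dt h2 h4 h5 τ)
    have hm := h3'.mul hc
    have hev : (fun z : ℂ => (12 : ℂ) ^ j * tm j z) =ᶠ[nhds (τ : ℂ)]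
        (t3 ^ (4 * j + 1) * fun w => MvPolynomial.aeval ![eh w, tt w] (RJ j)) := by
      filter_upwards [isOpen_upperHalfPlaneSet.mem_nhds τ.im_pos] with z hz
      exact ih ⟨z, hz⟩
    have hu := (hm.congr_of_eventuallyEq hev).unique hd
    have hK : (Real.pi : ℂ) * Complex.I = 12 * K := by
      unfold K
      ring
    rw [hK] at hu
    have h6 : K * (12 ^ (j + 1) * tm (j + 1) τ) = K * (t3 τ ^ (4 * (j + 1) + 1) *
        MvPolynomial.aeval ![eh τ, tt τ] (RJ (j + 1))) := by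
      have e0 : K * (12 ^ (j + 1) * tm (j + 1) τ) =
          12 ^ j * (12 * K * tm (j + 1) τ) := by ring
      rw [e0, ← hu]
      simp only [RJ, map_add, map_mul, map_sub, map_one, map_pow, MvPolynomial.aeval_X,
        MvPolynomial.aeval_C, Matrix.cons_val_zero, Matrix.cons_val_one, map_ofNat,
        Pi.pow_apply, Nat.add_sub_cancel]
      push_cast
      ring
    exact mul_left_cancel₀ K_ne h6

end Pool.Agent.Lib.MP_7c08ba_nt.CN
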