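import Pool.Agent.Lib.MP_7c08ba_nt.CN.NV
import Pool.Agent.Lib.MP_7c08ba_nt.CN.StP
import Pool.Agent.Lib.MP_7c08ba_nt.RZ.ExPsi
import Pool.Agent.Lib.MP_7c08ba_nt.RZ.Bas
import Pool.Agent.Lib.MP_7c08ba_nt.RZ.Base
import Pool.Agent.Lib.MP_7c08ba_nt.RZ.Reps
import Pool.Agent.Lib.MP_7c08ba_nt.RZ.Split
import Pool.Agent.Lib.MP_7c08ba_nt.RZ.C.Class
import Pool.Agent.Lib.MP_7c08ba_nt.RZ.Basic

set_option autoImplicit false

/-!
Project CN (F1): for every canonical character there is a valuation ring above `2` such that the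
character is trivial modulo the maximal ideal.
-/

namespace Pool.Agent.Lib.MP_7c08ba_nt.CN

open NumberField IsDedekindDomain RZC
open scoped nonZeroDivisors ComplexConjugate

namespace ExAux

variable {q : ℕ} {F : Type} [Field F] [NumberField F] {s : 𝓞 F} {σ : F →+* ℂ}
  {χ : DirichletCharacter ℂ q} {cj : 𝓞 F ≃+* 𝓞 F} {m : ℕ} {φ : Ideal (𝓞 F) →*₀ ℂ}

omit [NumberField F] in
theorem coe_ne {x : 𝓞 F} (hx : x ≠ 0) : σ (x : F) ≠ 0 := by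
  intro h
  rw [map_eq_zero] at h
  exact hx (RingOfIntegers.coe_injective (h.trans (map_zero _).symm))

/-- values at principal ideals prime to `s` -/
theorem sq_prin (D : RZ.Dat q s σ χ cj) (hφ : IsCan q s σ m φ) {x : 𝓞 F}
    (hx : IsCoprime (Ideal.span {x}) (Ideal.span {s})) :
    x ≠ 0 ∧ φ (Ideal.span {x}) ≠ 0 ∧ φ (Ideal.span {x}) ^ 2 = σ x ^ (2 * m) := by
  obtain ⟨-, -, -, -, -, -, -, -, hsp, hn, hdv⟩ := RZ.stBas q F _ _ s σ χ cj D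
  have hsx : ¬ s ∣ x := by
    intro h
    have h1 : Ideal.span {x} ⊔ Ideal.span {s} = ⊤ := Ideal.isCoprime_iff_sup_eq.1 hx
    rw [sup_eq_right.2 (Ideal.span_singleton_le_span_singleton.2 h)] at h1
    exact hsp.ne_top h1
  have hx0 : x ≠ 0 := by
    rintro rfl
    exact hsx (dvd_zero s)
  obtain ⟨a, ha⟩ := hn x
  have hqa : ¬ (q : ℤ) ∣ a := by
    intro h
    apply hsx
    have h1 := dvd_add ha ((hdv a).2 h)
    simpa using h1
  have hcop : a.gcd q = 1 := by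
    rw [Int.gcd_comm, Int.isCoprime_iff_gcd_eq_one.symm]
    exact ((Nat.prime_iff_prime_int.1 D.prime).coprime_iff_not_dvd).2 hqa
  have hj : ((jacobiSym a q : ℤ) : ℂ) ^ 2 = 1 := by
    have := jacobiSym.sq_one (a := a) (b := q) hcop
    exact_mod_cast this
  have hv := hφ x a hx0 ha
  have hσ := pow_ne_zero m (coe_ne (σ := σ) hx0)
  refine ⟨hx0, ?_, ?_⟩
  · rw [hv]
    refine mul_ne_zero ?_ hσ
    intro h0
    rw [h0] at hj
    norm_num at hj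
  · rw [hv, mul_pow, hj, one_mul, ← pow_mul, mul_comm m 2]

variable (s) in
/-- ideals prime to `s` -/
abbrev Cp (J : (Ideal (𝓞 F))⁰) : Prop := IsCoprime (J : Ideal (𝓞 F)) (Ideal.span {s})

/-- products with the representative of the inverse class -/
theorem prod_prin {R : ClassGroup (𝓞 F) → (Ideal (𝓞 F))⁰} (hR : ∀ c, ClassGroup.mk0 (R c) = c)
    (hRc : ∀ c, Cp s (R c)) {J : (Ideal (𝓞 F))⁰} (hJ : Cp s J) {c : ClassGroup (𝓞 F)}
    (hc : ClassGroup.mk0 J = c) : ∃ x : 𝓞 F,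
      (J : Ideal (𝓞 F)) * (R c⁻¹ : Ideal (𝓞 F)) = Ideal.span {x} ∧
      IsCoprime (Ideal.span {x}) (Ideal.span {s}) := by
  have h1 : ClassGroup.mk0 (J * R c⁻¹) = 1 := by
    rw [map_mul, hR, hc, mul_inv_cancel]
  rw [ClassGroup.mk0_eq_one_iff] at h1
  obtain ⟨x, hx⟩ := h1
  have hx' : (J : Ideal (𝓞 F)) * (R c⁻¹ : Ideal (𝓞 F)) = Ideal.span {x} := hx
  refine ⟨x, hx', ?_⟩
  rw [← hx']
  exact IsCoprime.mul_left hJ (hRc _)

theorem phi_ne (D : RZ.Dat q s σ χ cj) (hφ : IsCan q s σ m φ)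
    {R : ClassGroup (𝓞 F) → (Ideal (𝓞 F))⁰} (hR : ∀ c, ClassGroup.mk0 (R c) = c)
    (hRc : ∀ c, Cp s (R c)) {J : (Ideal (𝓞 F))⁰} (hJ : Cp s J) : φ (J : Ideal (𝓞 F)) ≠ 0 := by
  obtain ⟨x, hx, hxc⟩ := prod_prin hR hRc hJ rfl
  obtain ⟨-, h1, -⟩ := sq_prin D hφ hxc
  rw [← hx, map_mul] at h1
  exact left_ne_zero_of_mul h1

theorem hecke_ne {k : ℕ} {ψ : Ideal (𝓞 F) →*₀ ℂ} (hψ : RZ.IsHecke σ k ψ)
    (J : (Ideal (𝓞 F))⁰) : ψ (J : Ideal (𝓞 F)) ≠ 0 := by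
  obtain ⟨K, hK⟩ := ClassGroup.mk0_surjective (ClassGroup.mk0 J)⁻¹
  have h1 : ClassGroup.mk0 (J * K) = 1 := by rw [map_mul, hK, mul_inv_cancel]
  rw [ClassGroup.mk0_eq_one_iff] at h1
  obtain ⟨x, hx⟩ := h1
  have hx' : (J : Ideal (𝓞 F)) * (K : Ideal (𝓞 F)) = Ideal.span {x} := hx
  have hx0 : x ≠ 0 := by
    rintro rfl
    rw [Ideal.span_singleton_eq_bot.2 rfl] at hx'
    rcases mul_eq_zero.1 hx' with h | h
    · exact nonZeroDivisors.ne_zero J.2 h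
    · exact nonZeroDivisors.ne_zero K.2 h
  have h2 : ψ (J : Ideal (𝓞 F)) * ψ (K : Ideal (𝓞 F)) = σ (x : F) ^ k := by
    rw [← map_mul, hx', hψ x hx0]
  intro h
  rw [h, zero_mul] at h2
  exact pow_ne_zero k (coe_ne (σ := σ) hx0) h2.symm

/-- the ratio depends only on the class -/
theorem ratio (D : RZ.Dat q s σ χ cj) (hφ : IsCan q s σ m φ) {ψ : Ideal (𝓞 F) →*₀ ℂ}
    (hψ : RZ.IsHecke σ (2 * m) ψ)
    {R : ClassGroup (𝓞 F) → (Ideal (𝓞 F))⁰} (hR : ∀ c, ClassGroup.mk0 (R c) = c)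
    (hRc : ∀ c, Cp s (R c)) {J K : (Ideal (𝓞 F))⁰} (hJ : Cp s J) (hK : Cp s K)
    (hJK : ClassGroup.mk0 J = ClassGroup.mk0 K) :
    φ (J : Ideal (𝓞 F)) ^ 2 * ψ (K : Ideal (𝓞 F)) =
      φ (K : Ideal (𝓞 F)) ^ 2 * ψ (J : Ideal (𝓞 F)) := by
  obtain ⟨x, hx, hxc⟩ := prod_prin hR hRc hJ rfl
  obtain ⟨y, hy, hyc⟩ := prod_prin hR hRc hK hJK.symm
  obtain ⟨hx0, -, h1⟩ := sq_prin D hφ hxc
  obtain ⟨hy0, -, h2⟩ := sq_prin D hφ hyc
  have h3 := hψ x hx0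
  have h4 := hψ y hy0
  rw [← hx, map_mul] at h1 h3
  rw [← hy, map_mul] at h2 h4
  set L := R (ClassGroup.mk0 J)⁻¹ with hL
  have hLφ := phi_ne D hφ hR hRc (hRc (ClassGroup.mk0 J)⁻¹)
  have hLψ := hecke_ne hψ (R (ClassGroup.mk0 J)⁻¹)
  rw [← hL] at hLφ hLψ
  have h5 : φ (L : Ideal (𝓞 F)) ^ 2 * ψ (L : Ideal (𝓞 F)) ≠ 0 :=
    mul_ne_zero (pow_ne_zero 2 hLφ) hLψ
  apply mul_right_cancel₀ h5
  have h6 : φ (J : Ideal (𝓞 F)) ^ 2 * φ (L : Ideal (𝓞 F)) ^ 2 =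
      ψ (J : Ideal (𝓞 F)) * ψ (L : Ideal (𝓞 F)) := by rw [← mul_pow, h1, h3]
  have h7 : φ (K : Ideal (𝓞 F)) ^ 2 * φ (L : Ideal (𝓞 F)) ^ 2 =
      ψ (K : Ideal (𝓞 F)) * ψ (L : Ideal (𝓞 F)) := by rw [← mul_pow, h2, h4]
  linear_combination ψ (K : Ideal (𝓞 F)) * ψ (L : Ideal (𝓞 F)) * h6 -
    ψ (J : Ideal (𝓞 F)) * ψ (L : Ideal (𝓞 F)) * h7

/-- an unramified character whose values at the ideals prime to `s` are the squares -/
theorem exists_unr (D : RZ.Dat q s σ χ cj) (hφ : IsCan q s σ m φ) :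
    ∃ ψ : Ideal (𝓞 F) →*₀ ℂ, RZ.IsHecke σ (2 * m) ψ ∧
      ∀ J : (Ideal (𝓞 F))⁰, Cp s J → ψ (J : Ideal (𝓞 F)) = φ (J : Ideal (𝓞 F)) ^ 2 := by
  have hB := RZ.stBas q F _ _ s σ χ cj D
  obtain ⟨-, c, hc⟩ := RZ.stReps RZ.stBas (RZ.stBase RZ.stBas) q F _ _ s σ χ cj D
  have hR := c.cls
  have hu : ∀ u : (𝓞 F)ˣ, σ ((u : 𝓞 F) : F) ^ (2 * m) = 1 := by
    intro u
    rcases hB.2.2.2.2.2.2.2.1 (u : 𝓞 F) u.isUnit with h | h
    · rw [h]; simp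
    · rw [h]; simp
  obtain ⟨ψ₀, hψ₀⟩ := RZX.exists_hecke σ (2 * m) hu
  have hne := hecke_ne hψ₀
  have hval : ∀ A, φ (c.R A : Ideal (𝓞 F)) ^ 2 / ψ₀ (c.R A : Ideal (𝓞 F)) ≠ 0 := fun A =>
    div_ne_zero (pow_ne_zero 2 (phi_ne D hφ hR hc (hc A))) (hne _)
  have hmul : ∀ A B, φ (c.R (A * B) : Ideal (𝓞 F)) ^ 2 / ψ₀ (c.R (A * B) : Ideal (𝓞 F)) =
      φ (c.R A : Ideal (𝓞 F)) ^ 2 / ψ₀ (c.R A : Ideal (𝓞 F)) *
      (φ (c.R B : Ideal (𝓞 F)) ^ 2 / ψ₀ (c.R B : Ideal (𝓞 F))) := by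
    intro A B
    have h1 := ratio D hφ hψ₀ hR hc (J := c.R A * c.R B) (K := c.R (A * B))
      (IsCoprime.mul_left (hc A) (hc B)) (hc _) (by rw [map_mul, hR, hR, hR])
    rw [Submonoid.coe_mul, map_mul, map_mul] at h1
    have h2 := hne (c.R A)
    have h3 := hne (c.R B)
    have h4 := hne (c.R (A * B))
    field_simp
    linear_combination -h1
  let η : ClassGroup (𝓞 F) →* ℂˣ := MonoidHom.mk' (fun A => Units.mk0 _ (hval A)) (by
    intro A B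
    apply Units.ext
    exact hmul A B)
  refine ⟨RZX.mkPsi (RZX.twist ψ₀ hne η⁻¹), ?_, ?_⟩
  · intro t ht
    have hmem : Ideal.span {t} ∈ (Ideal (𝓞 F))⁰ := by
      rw [mem_nonZeroDivisors_iff_ne_zero, Ne, Ideal.zero_eq_bot, Ideal.span_singleton_eq_bot]
      exact ht
    have h1 := RZX.mkPsi_twist ψ₀ hne η⁻¹ ⟨Ideal.span {t}, hmem⟩
    have h2 : ClassGroup.mk0 (⟨Ideal.span {t}, hmem⟩ : (Ideal (𝓞 F))⁰) = 1 := by
      rw [ClassGroup.mk0_eq_one_iff]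
      exact ⟨t, rfl⟩
    rw [h2, map_one, Units.val_one, inv_one, mul_one] at h1
    exact h1.trans (hψ₀ t ht)
  · intro J hJ
    rw [RZX.mkPsi_twist]
    have h1 : ((η⁻¹ (ClassGroup.mk0 J) : ℂˣ) : ℂ)⁻¹ = φ (c.R (ClassGroup.mk0 J) : Ideal (𝓞 F)) ^ 2 /
        ψ₀ (c.R (ClassGroup.mk0 J) : Ideal (𝓞 F)) := by
      rw [MonoidHom.inv_apply, Units.val_inv_eq_inv_val, inv_inv]
      rfl
    rw [h1]
    have h2 := ratio D hφ hψ₀ hR hc hJ (hc (ClassGroup.mk0 J)) (by rw [hR])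
    have h3 := hne (c.R (ClassGroup.mk0 J))
    field_simp
    linear_combination -h2

/-- a prime of norm 2 -/
theorem exists_prime (D : RZ.Dat q s σ χ cj) :
    ∃ P : Ideal (𝓞 F), P.IsPrime ∧ Ideal.absNorm P = 2 := by
  have h1 : jacobiSym 2 q = 1 := by
    have hq : Odd q := Nat.odd_iff.2 (by have := D.mod; omega)
    rw [jacobiSym.at_two hq, ZMod.χ₈_nat_mod_eight]
    have h2 : q % 8 = 7 := by have := D.mod; omega
    rw [h2]
    rfl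
  obtain ⟨P, P', hP, -, -, -, hN, -⟩ :=
    (RZ.stSplit RZ.stBas q F _ _ s σ χ cj D 2 Nat.prime_two).1 (by exact_mod_cast h1)
  exact ⟨P, hP, hN⟩

theorem main (D : RZ.Dat q s σ χ cj) (hF : FieldC q F (s : F)) (hφ : IsCan q s σ 1 φ) :
    ∃ A : ValuationSubring ℂ, Above2 A ∧ Res1 A s φ := by
  obtain ⟨ψ, hψ, hψ2⟩ := exists_unr D hφ
  obtain ⟨P, hP, hPN⟩ := exists_prime D
  have hodd : Odd (Fintype.card (ClassGroup (𝓞 F))) := stClass q F (s : F) hF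
  obtain ⟨V, hV, hV2⟩ := RZX.exists_valuationSubring σ hψ hodd
    ((Nat.coprime_two_left).2 hodd) Nat.prime_two (by norm_num) hP hPN
  have hV' : (2 : ℂ) ∈ V.nonunits := by
    rw [nonunits_iff]
    exact_mod_cast hV
  refine ⟨V, hV', fun a ha hac => ?_⟩
  have ha0 : a ∈ (Ideal (𝓞 F))⁰ := by
    rw [mem_nonZeroDivisors_iff_ne_zero]
    rintro rfl
    simp at ha
  have h1 := hV2 a (fun h => by
    rw [Nat.odd_iff] at ha
    omega)
  rw [hψ2 ⟨a, ha0⟩ hac, ← nonunits_iff] at h1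
  have h2 : φ a ∈ V := by
    have h3 := (unit_of_sub_one h1).1
    rw [← V.valuation_le_one_iff, map_pow] at h3
    rw [← V.valuation_le_one_iff]
    by_contra h4
    exact absurd h3 (not_le.2 (one_lt_pow₀ (not_le.1 h4) two_ne_zero))
  have h3 : (φ a - 1) ^ 2 ∈ V.nonunits := by
    have h4 : (φ a - 1) ^ 2 = (φ a ^ 2 - 1) - (φ a - 1) * 2 := by ring
    rw [h4]
    exact nonunits_sub h1 (nonunits_mul_left (V.sub_mem h2 V.one_mem) hV')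
  exact nonunits_of_pow h3

end ExAux

open ExAux NVAux in
theorem stEx : StEx := by
  intro q F _ _ s σ ψ hF hψ
  have key : ∀ s' : 𝓞 F, FieldC q F (s' : F) → IsCan q s' σ 1 ψ → 0 < (σ s').im →
      ∃ A : ValuationSubring ℂ, Above2 A ∧ Res1 A s' ψ := by
    intro s' hF' hψ' him
    obtain ⟨χ, cj, hD⟩ := exists_dat hF' him
    exact main hD hF' hψ'
  by_cases him : 0 < (σ s).im
  · exact key s hF hψ him
  · obtain ⟨A, hA, hr⟩ := key (-s) (fieldC_neg hF) (isCan_neg hψ) (by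
      have h4 : ((-s : 𝓞 F) : F) = -(s : F) := map_neg _ _
      rw [h4, map_neg, Complex.neg_im, neg_pos]
      rcases im_cases (σ := σ) hF with h5 | h5
      · exfalso
        apply him
        rw [h5]
        simp only [Complex.mul_im, Complex.I_re, Complex.I_im, Complex.ofReal_re,
          Complex.ofReal_im, zero_mul, one_mul, zero_add]
        exact Real.sqrt_pos.2 (by exact_mod_cast hF.1.pos)
      · rw [h5]
        simp only [Complex.neg_im, Complex.mul_im, Complex.I_re, Complex.I_im, Complex.ofReal_re,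
          Complex.ofReal_im, zero_mul, one_mul, zero_add]
        have := Real.sqrt_pos.2 (show (0 : ℝ) < q by exact_mod_cast hF.1.pos)
        linarith)
    refine ⟨A, hA, ?_⟩
    have := res1_neg hr
    rwa [neg_neg] at this

end Pool.Agent.Lib.MP_7c08ba_nt.CN
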