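import Pool.Agent.Lib.MP_7c08ba_nt.CN.StP
import Pool.Agent.Lib.MP_7c08ba_nt.RZ.C.RamQ

set_option autoImplicit false

/-!
Module `Exp` of project CN: rules for expansions in `p = exp(πiτ)`.
-/

namespace Pool.Agent.Lib.MP_7c08ba_nt.CN

open UpperHalfPlane RZC

namespace ExpAux

/-- `p = exp (π i τ)` -/
noncomputable abbrev pp (τ : ℂ) : ℂ := Complex.exp (Real.pi * Complex.I * τ)

theorem pp_two (τ : ℂ) : pp (2 * τ) = RamQ.qp τ := by
  unfold pp RamQ.qp Function.Periodic.qParam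
  congr 1
  push_cast
  ring

theorem pp_two' (τ : ℂ) : pp (2 * τ) = pp τ ^ 2 := by
  unfold pp
  rw [← Complex.exp_nat_mul]
  congr 1
  push_cast
  ring

theorem im_two (τ : ℂ) : (2 * τ).im = 2 * τ.im := by
  rw [Complex.mul_im]
  norm_num

theorem toRep {f : ℂ → ℂ} {g : PowerSeries ℂ} (h : HasExp f g) :
    RamQ.Rep (fun τ : ℍ => f (2 * (τ : ℂ))) g := fun τ => by
  have h1 := h (2 * (τ : ℂ)) (by rw [im_two]; exact mul_pos two_pos τ.im_pos)
  rwa [show Complex.exp (Real.pi * Complex.I * (2 * (τ : ℂ))) = RamQ.qp τ from pp_two τ] at h1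

theorem ofRep {f : ℂ → ℂ} {g : PowerSeries ℂ}
    (h : RamQ.Rep (fun τ : ℍ => f (2 * (τ : ℂ))) g) : HasExp f g := fun τ hτ => by
  have him : 0 < (τ / 2).im := by
    have : τ = 2 * (τ / 2) := by ring
    rw [this, im_two] at hτ
    linarith
  have h1 := h ⟨τ / 2, him⟩
  have h2 : 2 * (((⟨τ / 2, him⟩ : ℍ) : ℂ)) = τ := by
    show 2 * (τ / 2) = τ
    ring
  have h3 : RamQ.qp ((⟨τ / 2, him⟩ : ℍ) : ℂ) = Complex.exp (Real.pi * Complex.I * τ) := by
    rw [← pp_two, h2]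
  have h4 : (fun τ : ℍ => f (2 * (τ : ℂ))) ⟨τ / 2, him⟩ = f τ := congrArg f h2
  rw [h3, h4] at h1
  exact h1

theorem add {f f' : ℂ → ℂ} {g g' : PowerSeries ℂ} (h : HasExp f g) (h' : HasExp f' g') :
    HasExp (fun τ => f τ + f' τ) (g + g') := fun τ hτ => by
  simpa [add_mul] using (h τ hτ).add (h' τ hτ)

theorem smul (c : ℂ) {f : ℂ → ℂ} {g : PowerSeries ℂ} (h : HasExp f g) :
    HasExp (fun τ => c * f τ) (PowerSeries.C c * g) := fun τ hτ => by
  simpa [mul_assoc] using (h τ hτ).mul_left c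

theorem mul {f f' : ℂ → ℂ} {g g' : PowerSeries ℂ} (h : HasExp f g) (h' : HasExp f' g') :
    HasExp (fun τ => f τ * f' τ) (g * g') :=
  ofRep ((toRep h).mul (toRep h'))

theorem unique {f : ℂ → ℂ} {g g' : PowerSeries ℂ} (h : HasExp f g) (h' : HasExp f g') : g = g' :=
  (toRep h).unique (toRep h')

theorem V {f : ℂ → ℂ} {g : PowerSeries ℂ} (h : HasExp f g) :
    HasExp (fun τ => f (2 * τ)) (Vq g) := fun τ hτ => by
  have h1 := h (2 * τ) (by rw [im_two]; exact mul_pos two_pos hτ)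
  have hinj : Function.Injective (fun n : ℕ => 2 * n) := fun a b hab => by
    have : 2 * a = 2 * b := hab
    omega
  rw [← hinj.hasSum_iff]
  · refine RamQ.hs_congr h1 fun m => ?_
    have h2 : (Vq g).coeff (2 * m) = g.coeff m := by
      unfold Vq
      rw [PowerSeries.coeff_mk, if_pos (even_two_mul m), Nat.mul_div_cancel_left _ two_pos]
    show (Vq g).coeff (2 * m) * pp τ ^ (2 * m) = g.coeff m * pp (2 * τ) ^ m
    rw [h2, pp_two', ← pow_mul]
  · intro x hx
    have h3 : ¬ Even x := fun he => by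
      obtain ⟨r, hr⟩ := he
      exact hx ⟨r, by show 2 * r = x; omega⟩
    have h2 : (Vq g).coeff x = 0 := by
      unfold Vq
      rw [PowerSeries.coeff_mk, if_neg h3]
    rw [h2, zero_mul]

theorem deriv {f : ℂ → ℂ} {g : PowerSeries ℂ} (h : HasExp f g) {f' : ℂ → ℂ}
    (hf : ∀ τ : ℂ, 0 < τ.im → HasDerivAt f (Real.pi * Complex.I * f' τ) τ) :
    HasExp f' (th g) := by
  refine ofRep ?_
  have h1 := (toRep h).deriv
  have h2 : Derivative.normalizedDerivOfComplex (fun τ : ℍ => f (2 * (τ : ℂ))) =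
      fun τ : ℍ => f' (2 * (τ : ℂ)) := by
    funext τ
    unfold Derivative.normalizedDerivOfComplex
    have hev : ((fun τ : ℍ => f (2 * (τ : ℂ))) ∘ ofComplex) =ᶠ[nhds (τ : ℂ)]
        fun z : ℂ => f (2 * z) := by
      have hopen : IsOpen {z : ℂ | 0 < z.im} := isOpen_lt continuous_const Complex.continuous_im
      filter_upwards [hopen.mem_nhds (show (τ : ℂ) ∈ {z : ℂ | 0 < z.im} from τ.im_pos)] with z hz
      rw [Function.comp_apply, ofComplex_apply_of_im_pos hz]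
    have h3 : HasDerivAt (fun z : ℂ => f (2 * z))
        (Real.pi * Complex.I * f' (2 * (τ : ℂ)) * 2) (τ : ℂ) := by
      have h4 := hf (2 * (τ : ℂ)) (by rw [im_two]; exact mul_pos two_pos τ.im_pos)
      have h5 : HasDerivAt (fun z : ℂ => 2 * z) 2 (τ : ℂ) := by
        simpa using (hasDerivAt_id (τ : ℂ)).const_mul 2
      exact HasDerivAt.comp (τ : ℂ) h4 h5
    rw [(h3.congr_of_eventuallyEq hev).deriv]
    have h6 : (2 * Real.pi * Complex.I : ℂ) ≠ 0 := Complex.two_pi_I_ne_zero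
    rw [inv_mul_eq_iff_eq_mul₀ h6]
    ring
  rwa [h2] at h1

end ExpAux

/-- (Q1) rules for expansions -/
theorem stExp : StExp :=
  ⟨fun _ _ _ _ h h' => ⟨ExpAux.add h h', ExpAux.mul h h'⟩, fun c _ _ h => ExpAux.smul c h,
    fun _ _ _ h h' => ExpAux.unique h h', fun _ _ h => ExpAux.V h,
    fun _ _ h _ hf => ExpAux.deriv h hf⟩

end Pool.Agent.Lib.MP_7c08ba_nt.CN
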