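import Pool.Agent.Lib.MP_7c08ba_nt.CN.StP
import Pool.Agent.Lib.MP_7c08ba_nt.RZ.C.Eis
import Pool.Agent.Lib.MP_7c08ba_nt.RZ.C.Qrel

set_option autoImplicit false

/-!
Project CN, module ExpT: (Q2) the expansions of theta constants and Eisenstein series.
-/

namespace Pool.Agent.Lib.MP_7c08ba_nt.CN

open NumberField IsDedekindDomain UpperHalfPlane ModularForm EisensteinSeries RZC
open scoped nonZeroDivisors ComplexConjugate MatrixGroups

namespace ExpTAux

open scoped Classical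

/-- `p = exp (π i τ)` -/
noncomputable abbrev pp (τ : ℂ) : ℂ := Complex.exp (Real.pi * Complex.I * τ)

theorem norm_pp {τ : ℂ} (hτ : 0 < τ.im) : ‖pp τ‖ < 1 := by
  unfold pp
  rw [Complex.norm_exp]
  have : (Real.pi * Complex.I * τ).re = -(Real.pi * τ.im) := by
    simp [Complex.mul_re, Complex.mul_im]
  rw [this, Real.exp_lt_one_iff]
  have := mul_pos Real.pi_pos hτ
  linarith

theorem hs_congr {a b : ℕ → ℂ} {s : ℂ} (h : HasSum b s) (hab : ∀ m, a m = b m) :
    HasSum a s := by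
  rwa [show a = b from funext hab]

theorem sq_inj : Function.Injective (fun k : ℕ => k ^ 2) := fun a b h => by
  have h' : a ^ 2 = b ^ 2 := h
  exact Nat.pow_left_injective (n := 2) (by norm_num) h'

theorem sq1_inj : Function.Injective (fun k : ℕ => (k + 1) ^ 2) := fun a b h => by
  have h' : (a + 1) ^ 2 = (b + 1) ^ 2 := h
  have := Nat.pow_left_injective (n := 2) (by norm_num) h'
  omega

theorem pr_inj : Function.Injective (fun k : ℕ => k * (k + 1)) := fun a b h => by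
  have h' : a * (a + 1) = b * (b + 1) := h
  rcases lt_trichotomy a b with h1 | h1 | h1
  · nlinarith
  · exact h1
  · nlinarith

theorem coeff_Th3 (n : ℕ) :
    Th3.coeff n = if n = 0 then 1 else if ∃ k : ℕ, k ^ 2 = n then 2 else 0 := by
  unfold Th3
  rw [PowerSeries.coeff_mk]
  by_cases h0 : n = 0
  · simp [h0]
  · rw [if_neg h0, if_neg h0]
    by_cases h : IsSquare n
    · have h' : ∃ k : ℕ, k ^ 2 = n := by
        obtain ⟨r, hr⟩ := h
        exact ⟨r, by rw [hr]; ring⟩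
      rw [if_pos h, if_pos h']
    · have h' : ¬ ∃ k : ℕ, k ^ 2 = n := by
        rintro ⟨r, hr⟩
        exact h ⟨r, by rw [← hr]; ring⟩
      rw [if_neg h, if_neg h']

theorem coeff_Th4 (n : ℕ) : Th4.coeff n = Th3.coeff n * (-1) ^ n := by
  unfold Th4 Th3
  rw [PowerSeries.coeff_mk, PowerSeries.coeff_mk]
  by_cases h0 : n = 0
  · simp [h0]
  · rw [if_neg h0, if_neg h0]
    by_cases h : IsSquare n
    · rw [if_pos h, if_pos h]
    · rw [if_neg h, if_neg h, zero_mul]

theorem coeff_UU (n : ℕ) : UU.coeff n = if ∃ m : ℕ, m * (m + 1) = n then 1 else 0 := by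
  unfold UU
  rw [PowerSeries.coeff_mk]

theorem coeff_iter (g : PowerSeries ℤ) (j n : ℕ) :
    (th^[j] g).coeff n = (n : ℤ) ^ j * g.coeff n := by
  induction j with
  | zero => simp
  | succ j ih =>
    rw [Function.iterate_succ_apply']
    show (PowerSeries.mk _).coeff n = _
    rw [PowerSeries.coeff_mk, ih]
    ring

theorem coeff_toC (g : PowerSeries ℤ) (n : ℕ) : (toC g).coeff n = ((g.coeff n : ℤ) : ℂ) := by
  show (PowerSeries.map _ g).coeff n = _
  rw [PowerSeries.coeff_map]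
  rfl

/-- summation over all integers of a function of the square -/
theorem hs_sq {h : ℕ → ℂ} (hh : Summable h) :
    HasSum (fun n : ℕ => ((Th3.coeff n : ℤ) : ℂ) * h n) (∑' m : ℤ, h (m.natAbs ^ 2)) := by
  have h1 : Summable (fun k : ℕ => h (k ^ 2)) := hh.comp_injective sq_inj
  have h2 : Summable (fun k : ℕ => h ((k + 1) ^ 2)) := hh.comp_injective sq1_inj
  have h3 : HasSum (fun m : ℤ => h (m.natAbs ^ 2))
      ((∑' k : ℕ, h (k ^ 2)) + ∑' k : ℕ, h ((k + 1) ^ 2)) := by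
    refine HasSum.of_nat_of_neg_add_one ?_ ?_
    · simpa using h1.hasSum
    · have : (fun n : ℕ => h ((-((n : ℤ) + 1)).natAbs ^ 2)) = fun k : ℕ => h ((k + 1) ^ 2) := by
        funext n
        congr 2
      rw [this]
      exact h2.hasSum
  rw [h3.tsum_eq]
  have h4 : HasSum (fun n : ℕ => if ∃ k : ℕ, k ^ 2 = n then h n else 0)
      (∑' k : ℕ, h (k ^ 2)) := by
    refine (sq_inj.hasSum_iff ?_).1 ?_
    · intro x hx
      rw [if_neg]
      rintro ⟨k, hk⟩
      exact hx ⟨k, hk⟩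
    · have : (fun n : ℕ => if ∃ k : ℕ, k ^ 2 = n then h n else 0) ∘ (fun k : ℕ => k ^ 2) =
          fun k : ℕ => h (k ^ 2) := by
        funext k
        exact if_pos ⟨k, rfl⟩
      rw [this]
      exact h1.hasSum
  have h5 : HasSum (fun n : ℕ => if ∃ k : ℕ, (k + 1) ^ 2 = n then h n else 0)
      (∑' k : ℕ, h ((k + 1) ^ 2)) := by
    refine (sq1_inj.hasSum_iff ?_).1 ?_
    · intro x hx
      rw [if_neg]
      rintro ⟨k, hk⟩
      exact hx ⟨k, hk⟩
    · have : (fun n : ℕ => if ∃ k : ℕ, (k + 1) ^ 2 = n then h n else 0) ∘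
          (fun k : ℕ => (k + 1) ^ 2) = fun k : ℕ => h ((k + 1) ^ 2) := by
        funext k
        exact if_pos ⟨k, rfl⟩
      rw [this]
      exact h2.hasSum
  refine hs_congr (h4.add h5) fun n => ?_
  rw [coeff_Th3]
  by_cases h0 : n = 0
  · subst h0
    rw [if_pos rfl, if_pos ⟨0, rfl⟩, if_neg]
    · simp
    · rintro ⟨k, hk⟩
      simp at hk
  · rw [if_neg h0]
    by_cases hs : ∃ k : ℕ, k ^ 2 = n
    · have hs' : ∃ k : ℕ, (k + 1) ^ 2 = n := by
        obtain ⟨k, hk⟩ := hs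
        rcases k with _ | k
        · exact absurd (by simpa using hk.symm) h0
        · exact ⟨k, hk⟩
      rw [if_pos hs, if_pos hs, if_pos hs']
      push_cast
      ring
    · have hs' : ¬ ∃ k : ℕ, (k + 1) ^ 2 = n := by
        rintro ⟨k, hk⟩
        exact hs ⟨k + 1, hk⟩
      rw [if_neg hs, if_neg hs, if_neg hs']
      simp

/-- summation over all integers of a function of `m (m + 1)` -/
theorem hs_pr {h : ℕ → ℂ} (hh : Summable h) (f : ℤ → ℂ) (hf : ∀ k : ℕ, f k = h (k * (k + 1)))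
    (hf' : ∀ k : ℕ, f (-((k : ℤ) + 1)) = h (k * (k + 1))) :
    HasSum (fun n : ℕ => ((UU.coeff n : ℤ) : ℂ) * h n) ((∑' m : ℤ, f m) / 2) := by
  have h1 : Summable (fun k : ℕ => h (k * (k + 1))) := hh.comp_injective pr_inj
  have h3 : HasSum f ((∑' k : ℕ, h (k * (k + 1))) + ∑' k : ℕ, h (k * (k + 1))) := by
    refine HasSum.of_nat_of_neg_add_one ?_ ?_
    · rw [show (fun n : ℕ => f n) = fun k : ℕ => h (k * (k + 1)) from funext hf]
      exact h1.hasSum
    · rw [show (fun n : ℕ => f (-((n : ℤ) + 1))) = fun k : ℕ => h (k * (k + 1)) from funext hf']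
      exact h1.hasSum
  rw [h3.tsum_eq]
  have h4 : HasSum (fun n : ℕ => if ∃ k : ℕ, k * (k + 1) = n then h n else 0)
      (∑' k : ℕ, h (k * (k + 1))) := by
    refine (pr_inj.hasSum_iff ?_).1 ?_
    · intro x hx
      rw [if_neg]
      rintro ⟨k, hk⟩
      exact hx ⟨k, hk⟩
    · have : (fun n : ℕ => if ∃ k : ℕ, k * (k + 1) = n then h n else 0) ∘
          (fun k : ℕ => k * (k + 1)) = fun k : ℕ => h (k * (k + 1)) := by
        funext k
        exact if_pos ⟨k, rfl⟩
      rw [this]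
      exact h1.hasSum
  have h5 : ((∑' k : ℕ, h (k * (k + 1))) + ∑' k : ℕ, h (k * (k + 1))) / 2 =
      ∑' k : ℕ, h (k * (k + 1)) := by ring
  rw [h5]
  refine hs_congr h4 fun n => ?_
  rw [coeff_UU]
  split_ifs <;> simp

theorem natAbs_sq_cast (m : ℤ) : ((m.natAbs ^ 2 : ℕ) : ℂ) = (m : ℂ) ^ 2 := by
  have h : ((m.natAbs ^ 2 : ℕ) : ℤ) = m ^ 2 := by
    rw [Nat.cast_pow]
    exact Int.natAbs_sq m
  rw [← Int.cast_natCast (m.natAbs ^ 2), h, Int.cast_pow]

theorem exp_sq (m : ℤ) (τ : ℂ) :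
    Complex.exp (Real.pi * Complex.I * (m : ℂ) ^ 2 * τ) = pp τ ^ (m.natAbs ^ 2) := by
  unfold pp
  rw [← Complex.exp_nat_mul, natAbs_sq_cast]
  congr 1
  ring

theorem neg_one_zpow (m : ℤ) : (-1 : ℂ) ^ m = (-1 : ℂ) ^ (m.natAbs ^ 2) := by
  rcases Int.even_or_odd m with h | h
  · rw [h.neg_one_zpow, Even.neg_one_pow]
    exact (Int.natAbs_even.2 h).pow_of_ne_zero (by norm_num)
  · rw [h.neg_one_zpow, Odd.neg_one_pow]
    exact (Int.natAbs_odd.2 h).pow

theorem exp_tm (j : ℕ) : HasExp (tm j) (toC (th^[j] Th3)) := by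
  intro τ hτ
  have hp := norm_pp hτ
  have h1 : Summable (fun n : ℕ => (n : ℂ) ^ j * pp τ ^ n) :=
    summable_pow_mul_geometric_of_norm_lt_one j hp
  have h2 := hs_sq h1
  have h3 : (∑' m : ℤ, ((m.natAbs ^ 2 : ℕ) : ℂ) ^ j * pp τ ^ (m.natAbs ^ 2)) = tm j τ := by
    unfold tm
    refine tsum_congr fun m => ?_
    rw [exp_sq, natAbs_sq_cast, ← pow_mul]
  rw [h3] at h2
  refine hs_congr h2 fun n => ?_
  rw [coeff_toC, coeff_iter]
  push_cast
  ring

theorem exp_t3 : HasExp t3 (toC Th3) := by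
  intro τ hτ
  have h := exp_tm 0 τ hτ
  have h1 : tm 0 τ = t3 τ := by
    unfold tm t3
    refine tsum_congr fun m => ?_
    simp
  rw [h1] at h
  exact h

theorem exp_t4 : HasExp t4 (toC Th4) := by
  intro τ hτ
  have hp := norm_pp hτ
  have h1 : Summable (fun n : ℕ => (-1 : ℂ) ^ n * pp τ ^ n) := by
    have : (fun n : ℕ => (-1 : ℂ) ^ n * pp τ ^ n) = fun n : ℕ => (-pp τ) ^ n := by
      funext n
      rw [← mul_pow]
      ring
    rw [this]
    refine summable_geometric_of_norm_lt_one ?_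
    rwa [norm_neg]
  have h2 := hs_sq h1
  have h3 : (∑' m : ℤ, (-1 : ℂ) ^ (m.natAbs ^ 2) * pp τ ^ (m.natAbs ^ 2)) = t4 τ := by
    unfold t4
    refine tsum_congr fun m => ?_
    rw [exp_sq, neg_one_zpow]
  rw [h3] at h2
  refine hs_congr h2 fun n => ?_
  rw [coeff_toC, coeff_Th4]
  push_cast
  ring

/-- `θ₂ / (2 exp (π i τ / 4))` -/
noncomputable def uu (τ : ℂ) : ℂ := (∑' m : ℤ, Complex.exp (Real.pi * Complex.I *
  ((m : ℂ) * (m + 1)) * τ)) / 2

theorem exp_uu : HasExp uu (toC UU) := by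
  intro τ hτ
  have hp := norm_pp hτ
  have h1 : Summable (fun n : ℕ => pp τ ^ n) := summable_geometric_of_norm_lt_one hp
  have h2 := hs_pr h1 (fun m : ℤ => Complex.exp (Real.pi * Complex.I *
    ((m : ℂ) * (m + 1)) * τ)) (fun k => ?_) (fun k => ?_)
  · refine hs_congr h2 fun n => ?_
    rw [coeff_toC]
  · unfold pp
    rw [← Complex.exp_nat_mul]
    congr 1
    push_cast
    ring
  · unfold pp
    rw [← Complex.exp_nat_mul]
    congr 1
    push_cast
    ring

theorem t2_eq (τ : ℂ) : t2 τ = 2 * Complex.exp (Real.pi * Complex.I * τ / 4) * uu τ := by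
  unfold t2 uu
  have h1 : ∀ m : ℤ, Complex.exp (Real.pi * Complex.I * ((m : ℂ) + 1 / 2) ^ 2 * τ) =
      Complex.exp (Real.pi * Complex.I * τ / 4) *
        Complex.exp (Real.pi * Complex.I * ((m : ℂ) * (m + 1)) * τ) := by
    intro m
    rw [← Complex.exp_add]
    congr 1
    ring
  rw [tsum_congr h1, tsum_mul_left]
  ring

theorem exp_pp : HasExp (fun τ => pp τ) (PowerSeries.X : PowerSeries ℂ) := by
  intro τ _
  have h := hasSum_single (f := fun n : ℕ => (PowerSeries.X : PowerSeries ℂ).coeff n * pp τ ^ n) 1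
    (fun n hn => by
      rw [PowerSeries.coeff_X, if_neg hn, zero_mul])
  simpa using h

theorem exp_t2 (hE : StExp) : HasExp (fun τ => t2 τ ^ 4) (toC (16 * FF)) := by
  have hm : ∀ f f' g g', HasExp f g → HasExp f' g' → HasExp (fun τ => f τ * f' τ) (g * g') :=
    fun f f' g g' h h' => (hE.1 f f' g g' h h').2
  have h2 := hm _ _ _ _ exp_uu exp_uu
  have h4 := hm _ _ _ _ h2 h2
  have h5 := hm _ _ _ _ exp_pp h4
  have h6 := hE.2.1 16 _ _ h5
  have h7 : toC (16 * FF) = PowerSeries.C (16 : ℂ) * (PowerSeries.X * (toC UU * toC UU *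
      (toC UU * toC UU))) := by
    unfold toC FF
    rw [map_mul, map_mul, map_pow, PowerSeries.map_X]
    have h16 : PowerSeries.map (Int.castRingHom ℂ) (16 : PowerSeries ℤ) =
        PowerSeries.C (16 : ℂ) := by
      rw [show (16 : PowerSeries ℤ) = PowerSeries.C 16 from rfl, PowerSeries.map_C]
      norm_num
    rw [h16]
    ring
  rw [h7]
  intro τ hτ
  have h8 := h6 τ hτ
  have h9 : t2 τ ^ 4 = 16 * (pp τ * (uu τ * uu τ * (uu τ * uu τ))) := by
    rw [t2_eq]
    have h10 : Complex.exp (Real.pi * Complex.I * τ / 4) ^ 4 = pp τ := by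
      rw [← Complex.exp_nat_mul]
      congr 1
      push_cast
      ring
    rw [← h10]
    ring
  show HasSum _ (t2 τ ^ 4)
  rw [h9]
  exact h8

theorem exp_of_rep {F : ℍ → ℂ} {g : PowerSeries ℤ} (hF : QrelAux.Rep F (toC g)) :
    HasExp (fun τ => F (ofComplex τ)) (toC (Vq g)) := by
  intro τ hτ
  have h1 := hF ⟨τ, hτ⟩
  show HasSum _ (F (ofComplex τ))
  rw [ofComplex_apply_of_im_pos hτ]
  have hinj : Function.Injective (fun k : ℕ => 2 * k) := fun a b h => by
    have h' : 2 * a = 2 * b := h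
    omega
  refine (hinj.hasSum_iff ?_).1 ?_
  · intro x hx
    have hx' : ¬ Even x := fun h => hx (by
      obtain ⟨r, hr⟩ := h
      exact ⟨r, by show 2 * r = x; omega⟩)
    rw [coeff_toC]
    unfold Vq
    rw [PowerSeries.coeff_mk, if_neg hx']
    simp
  · refine hs_congr h1 fun k => ?_
    show (toC (Vq g)).coeff (2 * k) * pp τ ^ (2 * k) = _
    rw [coeff_toC, coeff_toC]
    unfold Vq
    rw [PowerSeries.coeff_mk, if_pos (even_two_mul k), Nat.mul_div_cancel_left k two_pos]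
    congr 1
    rw [pow_mul]
    congr 1
    show _ = Function.Periodic.qParam (1 : ℝ) τ
    unfold pp Function.Periodic.qParam
    rw [← Complex.exp_nat_mul]
    congr 1
    push_cast
    ring

end ExpTAux

/-- (Q2) the expansions of theta constants and Eisenstein series -/
theorem stExpT (hE : StExp) : StExpT :=
  ⟨ExpTAux.exp_t3, ExpTAux.exp_t4, ExpTAux.exp_t2 hE, ExpTAux.exp_tm,
    ExpTAux.exp_of_rep QrelAux.rep_E2, ExpTAux.exp_of_rep (QrelAux.rep_E4 stEis)⟩

end Pool.Agent.Lib.MP_7c08ba_nt.CN
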