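import Mathlib
import Pool.Agent.Lib.MP_7c08ba_nt.CN.StP

set_option autoImplicit false

/-! Project CN: the identities between theta constants at a point. -/

namespace Pool.Agent.Lib.MP_7c08ba_nt.CN

open NumberField IsDedekindDomain UpperHalfPlane ModularForm EisensteinSeries RZC
open scoped nonZeroDivisors ComplexConjugate MatrixGroups

namespace FunAux

theorem LF_one (k : ℕ) (G : ℍ → ℂ) (T : ℍ) : LF k G (T : ℂ) 1 = G T := by
  unfold LF
  rw [one_pow, inv_one, one_mul, div_one, ofComplex_apply]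

theorem dl_half (T T' : ℍ) (h : (T' : ℂ) = 2 * T) :
    dl (T : ℂ) (1 / 2) = 2 ^ 12 * discriminant T' := by
  have e1 : (T : ℂ) / (1 / 2) = (T' : ℂ) := by
    rw [h]
    ring
  show LF 12 discriminant (T : ℂ) (1 / 2) = _
  unfold LF
  rw [e1, ofComplex_apply]
  norm_num

theorem E2s_one (T : ℍ) : E2s (T : ℂ) 1 = E2 T - 3 / (Real.pi * T.im) := by
  unfold E2s e2s vol
  rw [LF_one, map_one, mul_one, mul_one, one_mul, mul_one]
  have e1 : ((T : ℂ) - conj (T : ℂ)) / (2 * Complex.I) = (T.im : ℂ) := by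
    rw [Complex.sub_conj]
    have : (2 * Complex.I : ℂ) ≠ 0 := by simp
    field_simp
    push_cast
    rfl
  rw [e1]

end FunAux

open FunAux in
/-- (T7) all the identities at a point -/
theorem stFun (h2 : StTh2) (h3 : StTh3) (h4 : StTh4) (h6 : StTh6) : StFun := by
  intro τ hτ
  set T : ℍ := ⟨τ, hτ⟩ with hT
  have hTτ : (T : ℂ) = τ := rfl
  have hτ2 : 0 < (2 * τ).im := by simpa using hτ
  set T' : ℍ := ⟨2 * τ, hτ2⟩ with hT'
  have hTτ' : (T' : ℂ) = 2 * τ := rfl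
  have hTT : (T' : ℂ) = 2 * (T : ℂ) := rfl
  obtain ⟨j1, j2, j3, j4, j5⟩ := h2 τ hτ
  obtain ⟨a4, a6⟩ := h3 T
  obtain ⟨d1, nx, ny, nz⟩ := h4 T
  obtain ⟨d2, nX, nY, nZ⟩ := h4 T'
  have k6 := h6 T T' hTT
  have c4 : e4 τ 1 = E₄ T := LF_one 4 _ T
  have c6 : e6 τ 1 = E₆ T := LF_one 6 _ T
  have cd : dl τ 1 = discriminant T := LF_one 12 _ T
  have cd' : dl τ (1 / 2) = 2 ^ 12 * discriminant T' := dl_half T T' hTT
  have cE : E2s τ 1 = E2 T - 3 / (Real.pi * T.im) := E2s_one T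
  have cE' : E2s (2 * τ) 1 = E2 T' - 3 / (Real.pi * T'.im) := E2s_one T'
  have him : (T'.im : ℂ) = 2 * (T.im : ℂ) := by
    have : T'.im = 2 * T.im := by
      show (2 * τ).im = 2 * τ.im
      simp
    rw [this]
    push_cast
    ring
  have him0 : (T.im : ℂ) ≠ 0 := by
    exact_mod_cast T.im_pos.ne'
  have hpi : (Real.pi : ℂ) ≠ 0 := by exact_mod_cast Real.pi_ne_zero
  rw [hTτ] at a4 a6 d1 nx ny nz k6
  rw [hTτ'] at d2 nX nY nZ
  unfold XX jv
  rw [c4, c6, cd, cd']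
  unfold ep rr tt
  rw [cE, cE', him]
  set x := t2 τ
  set y := t3 τ
  set z := t4 τ
  set X := t2 (2 * τ)
  set Y := t3 (2 * τ)
  set Z := t4 (2 * τ)
  have jz : z ^ 4 = y ^ 4 - x ^ 4 := by linear_combination -j5
  have x4 : x ^ 4 = 4 * X ^ 2 * Y ^ 2 := by
    linear_combination (x ^ 2 + 2 * X * Y) * j4
  have hE4 : E₄ T = y ^ 8 * (1 - 16 * (x ^ 4 / (16 * y ^ 4)) + 256 * (x ^ 4 / (16 * y ^ 4)) ^ 2) := by
    have : y ^ 8 * (1 - 16 * (x ^ 4 / (16 * y ^ 4)) + 256 * (x ^ 4 / (16 * y ^ 4)) ^ 2) =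
        y ^ 8 - x ^ 4 * y ^ 4 + x ^ 8 := by
      field_simp
      ring
    rw [this]
    linear_combination (1 / 2) * a4 + (1 / 2) * (z ^ 4 + y ^ 4 - x ^ 4) * jz
  refine ⟨ny, ?_, ?_, ?_, ?_, hE4, ?_, ?_, ?_⟩
  · exact div_ne_zero (pow_ne_zero _ nx) (mul_ne_zero (by norm_num) (pow_ne_zero _ ny))
  · field_simp
    rw [x4, j1]
    ring
  · field_simp
    linear_combination -(x ^ 4 + 4 * X ^ 2 * Y ^ 2) * x4
  · have k7 : E2 T' = (2 * E2 T + y ^ 4 + z ^ 4) / 4 := by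
      linear_combination (1 / 4) * k6
    rw [k7, jz]
    field_simp
    ring
  · have : y ^ 12 * ((1 + 16 * (x ^ 4 / (16 * y ^ 4))) * (1 - 8 * (x ^ 4 / (16 * y ^ 4))) *
        (1 - 32 * (x ^ 4 / (16 * y ^ 4)))) = (y ^ 4 + x ^ 4) * (y ^ 4 - x ^ 4 / 2) *
          (y ^ 4 - 2 * x ^ 4) := by
      field_simp
      ring
    rw [this]
    rw [jz] at a6
    linear_combination (1 / 2) * a6
  · intro he
    have hdisc : discriminant T = y ^ 24 * ((x ^ 4 / (16 * y ^ 4)) ^ 2 *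
        (1 - 16 * (x ^ 4 / (16 * y ^ 4))) ^ 2) := by
      have : y ^ 24 * ((x ^ 4 / (16 * y ^ 4)) ^ 2 *
        (1 - 16 * (x ^ 4 / (16 * y ^ 4))) ^ 2) = x ^ 8 * y ^ 8 * (y ^ 4 - x ^ 4) ^ 2 / 256 := by
        field_simp
        ring
      rw [this, ← jz]
      linear_combination (1 / 256) * d1
    rw [hE4] at he ⊢
    rw [hdisc]
    set P := 1 - 16 * (x ^ 4 / (16 * y ^ 4)) + 256 * (x ^ 4 / (16 * y ^ 4)) ^ 2
    have hP : P ≠ 0 := right_ne_zero_of_mul he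
    set W := (x ^ 4 / (16 * y ^ 4)) ^ 2 * (1 - 16 * (x ^ 4 / (16 * y ^ 4))) ^ 2
    rw [mul_pow]
    field_simp
  · have e1 : discriminant T = (x * y * z) ^ 8 / 256 := by
      linear_combination (1 / 256) * d1
    have e2 : discriminant T' = (X * Y * Z) ^ 8 / 256 := by
      linear_combination (1 / 256) * d2
    rw [e1, e2]
    have hZ : Z ^ 8 = y ^ 4 * z ^ 4 := by
      calc Z ^ 8 = (Z ^ 2) ^ 4 := by ring
        _ = _ := by rw [← j3]; ring
    have hXY : (X * Y) ^ 8 = x ^ 16 / 256 := by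
      have : X * Y = x ^ 2 / 2 := by linear_combination -(1 / 2) * j4
      rw [this]
      ring
    have hXYZ : (X * Y * Z) ^ 8 = x ^ 16 / 256 * (y ^ 4 * z ^ 4) := by
      rw [mul_pow, hXY, hZ]
    rw [hXYZ]
    have e3 : (1 : ℂ) - 16 * (x ^ 4 / (16 * y ^ 4)) = z ^ 4 / y ^ 4 := by
      rw [jz]
      field_simp
    rw [e3]
    field_simp
    norm_num

end Pool.Agent.Lib.MP_7c08ba_nt.CN
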