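import Mathlib
import Pool.Agent.Lib.MP_7c08ba_nt.CN.StP

set_option autoImplicit false

/-!
Project CN, module Hth: the Hermite theta series in terms of the polynomials `RJ`.
-/

namespace Pool.Agent.Lib.MP_7c08ba_nt.CN

open NumberField IsDedekindDomain UpperHalfPlane ModularForm EisensteinSeries RZC
open scoped nonZeroDivisors ComplexConjugate MatrixGroups

namespace HthAux

/-- summability of the derivatives of `θ₃` -/
lemma summable_tm (i : ℕ) (τ : ℂ) (hτ : 0 < τ.im) :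
    Summable (fun m : ℤ => (m : ℂ) ^ (2 * i) *
      Complex.exp (Real.pi * Complex.I * (m : ℂ) ^ 2 * τ)) := by
  have h := summable_pow_mul_jacobiTheta₂_term_bound 0 hτ (2 * i)
  refine Summable.of_norm_bounded h (fun m => ?_)
  rw [norm_mul, norm_pow, Complex.norm_exp]
  have h1 : ‖(m : ℂ)‖ = ((|m| : ℤ) : ℝ) := by
    rw [Complex.norm_intCast]; push_cast; rfl
  rw [h1]
  refine mul_le_mul_of_nonneg_left (le_of_eq ?_) (by positivity)
  congr 1
  have : (Real.pi * Complex.I * (m : ℂ) ^ 2 * τ) =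
      ((Real.pi * (m : ℝ) ^ 2 : ℝ) : ℂ) * (Complex.I * τ) := by
    push_cast; ring
  rw [this, Complex.re_ofReal_mul, Complex.I_mul_re]
  ring

/-- `E₂^*` at `(τ, 1)` -/
lemma E2s_one (τ : ℍ) : E2s τ 1 = E2 τ - 3 / (Real.pi * τ.im) := by
  have him : 0 < (τ : ℂ).im := τ.im_pos
  unfold E2s e2s vol LF
  have h1 : ((τ : ℂ) / 1) = (τ : ℂ) := div_one _
  rw [h1, ofComplex_apply]
  have h2 : ((conj (1 : ℂ)) * (τ : ℂ) - conj (τ : ℂ) * 1) / (2 * Complex.I) = (τ.im : ℂ) := by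
    rw [map_one, one_mul, mul_one, Complex.sub_conj]
    field_simp
    push_cast
    rfl
  rw [h2, map_one]
  simp

/-- termwise evaluation -/
lemma term (j : ℕ) (hHP : StHP) (τ : ℂ) (hτ : 0 < τ.im) (m : ℤ) :
    ((Polynomial.aeval (Real.sqrt (2 * Real.pi * τ.im) * m) (HP (2 * j)) : ℝ) : ℂ) *
      Complex.exp (Real.pi * Complex.I * (m : ℂ) ^ 2 * τ) =
    ∑ k ∈ Finset.range (j + 1), ((-1) ^ k * ((2 * j).factorial : ℂ) /
      ((k.factorial : ℂ) * ((2 * j - 2 * k).factorial : ℂ)) *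
      (8 * Real.pi * τ.im) ^ (j - k)) * ((m : ℂ) ^ (2 * (j - k)) *
        Complex.exp (Real.pi * Complex.I * (m : ℂ) ^ 2 * τ)) := by
  rw [hHP.2 j, Complex.ofReal_sum, Finset.sum_mul]
  refine Finset.sum_congr rfl fun k hk => ?_
  have h1 : (4 * (Real.sqrt (2 * Real.pi * τ.im) * (m : ℝ)) ^ 2) =
      (8 * Real.pi * τ.im) * (m : ℝ) ^ 2 := by
    rw [mul_pow, Real.sq_sqrt (by positivity)]
    ring
  rw [h1, mul_pow]
  push_cast
  rw [pow_mul]
  ring

end HthAux

open HthAux in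
/-- (R5) the Hermite theta series in terms of the polynomials -/
theorem stHth (hHP : StHP) (hDer : StDer) (hRh : StRh) (hTh4 : StTh4) : StHth := by
  intro j τ hτ
  set σ : ℍ := ⟨τ, hτ⟩ with hσ
  have hστ : (σ : ℂ) = τ := rfl
  have ht3 : t3 τ ≠ 0 := (hTh4 σ).2.2.1
  have hy : (τ.im : ℂ) ≠ 0 := by exact_mod_cast hτ.ne'
  have hpi : (Real.pi : ℂ) ≠ 0 := by exact_mod_cast Real.pi_ne_zero
  -- the left side
  have hL : hth (2 * j) τ = ∑ k ∈ Finset.range (j + 1), ((-1) ^ k * ((2 * j).factorial : ℂ) /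
      ((k.factorial : ℂ) * ((2 * j - 2 * k).factorial : ℂ)) *
      (8 * Real.pi * τ.im) ^ (j - k)) * tm (j - k) τ := by
    unfold hth
    rw [tsum_congr (fun m => term j hHP τ hτ m), Summable.tsum_finsetSum]
    · refine Finset.sum_congr rfl fun k _ => ?_
      rw [tsum_mul_left]
      rfl
    · intro k _
      exact (summable_tm (j - k) τ hτ).mul_left _
  -- the right side
  have hep : ep τ = E2 σ / t3 τ ^ 4 + (-3 / (Real.pi * τ.im * t3 τ ^ 4)) := by
    unfold ep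
    have := E2s_one σ
    rw [hστ] at this
    rw [this]
    have h2 : ((σ.im : ℝ) : ℂ) = (τ.im : ℂ) := rfl
    rw [h2]
    field_simp
    ring
  have hD : ∀ i : ℕ, MvPolynomial.aeval ![E2 σ / t3 τ ^ 4, tt τ] (RJ i) =
      12 ^ i * tm i τ / t3 τ ^ (4 * i + 1) := by
    intro i
    have := hDer i σ
    rw [hστ] at this
    rw [this]
    field_simp
  rw [hL, hep, hRh, Finset.mul_sum]
  refine Finset.sum_congr rfl fun k hk => ?_
  have hkj : k ≤ j := by
    have := Finset.mem_range.1 hk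
    omega
  obtain ⟨i, rfl⟩ := Nat.exists_eq_add_of_le hkj
  have e1 : k + i - k = i := by omega
  rw [hD, e1]
  have hf1 : ((k.factorial : ℕ) : ℂ) ≠ 0 := by exact_mod_cast k.factorial_ne_zero
  have hf2 : (((2 * (k + i) - 2 * k).factorial : ℕ) : ℂ) ≠ 0 := by
    exact_mod_cast Nat.factorial_ne_zero _
  generalize tm i τ = T at *
  generalize t3 τ = t at *
  generalize (τ.im : ℂ) = y at *
  generalize (((2 * (k + i)).factorial : ℕ) : ℂ) = A at *
  generalize ((k.factorial : ℕ) : ℂ) = B at *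
  generalize (((2 * (k + i) - 2 * k).factorial : ℕ) : ℂ) = C at *
  generalize (Real.pi : ℂ) = p at *
  have e2 : t ^ (4 * (k + i) + 1) = (t ^ 4) ^ k * t ^ (4 * i + 1) := by
    rw [← pow_mul, ← pow_add]; congr 1; ring
  have e3 : (2 * p * y / 3) ^ (k + i) * 12 ^ i * ((-3 / (p * y * t ^ 4)) ^ k * (t ^ 4) ^ k) =
      (8 * p * y) ^ i * (2 ^ k * (-1) ^ k) := by
    rw [← mul_pow, pow_add]
    have h1 : -3 / (p * y * t ^ 4) * t ^ 4 = -3 / (p * y) := by
      field_simp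
    rw [h1]
    have h2 : (2 * p * y / 3) ^ k * (2 * p * y / 3) ^ i * 12 ^ i * (-3 / (p * y)) ^ k =
        ((2 * p * y / 3) * (-3 / (p * y))) ^ k * ((2 * p * y / 3) * 12) ^ i := by
      rw [mul_pow, mul_pow]; ring
    rw [h2]
    have h3 : (2 * p * y / 3) * (-3 / (p * y)) = 2 * (-1) := by
      field_simp
    have h4 : (2 * p * y / 3) * 12 = 8 * p * y := by ring
    rw [h3, h4, mul_pow]
    ring
  have ht' : t ^ (4 * i + 1) ≠ 0 := pow_ne_zero _ ht3
  have e4 : (2 * p * y / 3) ^ (k + i) * t ^ (4 * (k + i) + 1) *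
      (A / (B * 2 ^ k * C) * (-3 / (p * y * t ^ 4)) ^ k * (12 ^ i * T / t ^ (4 * i + 1))) =
      ((2 * p * y / 3) ^ (k + i) * 12 ^ i * ((-3 / (p * y * t ^ 4)) ^ k * (t ^ 4) ^ k)) *
        (A / (B * 2 ^ k * C)) * T := by
    rw [e2]
    field_simp
  rw [e4, e3]
  field_simp

end Pool.Agent.Lib.MP_7c08ba_nt.CN
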