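import Pool.Agent.Lib.MP_7c08ba_nt.CN.StP

set_option autoImplicit false

/-! (M3) the sum of `1/j` over the lattices `P ^ e * (d, g) ^ 2`. -/

namespace Pool.Agent.Lib.MP_7c08ba_nt.CN

open NumberField IsDedekindDomain UpperHalfPlane ModularForm EisensteinSeries RZC
open scoped nonZeroDivisors ComplexConjugate MatrixGroups

namespace Js2Aux

variable {q : ℕ} {F : Type} [Field F] [NumberField F] {s : 𝓞 F}

/-- The ideal `P ^ e * (d, g) ^ 2` is `(2 ^ e d², g)`. -/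
theorem idl_eq (hI : StIdl) (hF : FieldC q F (s : F)) {P : Ideal (𝓞 F)} {e : ℕ} {b n : ℤ}
    {g : 𝓞 F} {d : ℕ} (hP : P.IsPrime) (hP2 : Ideal.absNorm P = 2) (hn : 4 * n = b ^ 2 + q)
    (h : Adm q s P e b g d) :
    P ^ e * (idl g d * idl g d) = idl g (2 ^ e * (d * d)) ∧ 0 < 2 ^ e * (d * d) ∧
      ((2 ^ e * (d * d) : ℕ) : ℤ) ∣ n := by
  obtain ⟨-, hbo, -, -, hM, hMN, hPk⟩ := hI q F _ _ s b n g hF h.two hn
  have hd0 : 0 < d := h.odd.pos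
  have h4 : (4 : ℤ) * (2 * (2 ^ e * (d * d))) ∣ 4 * n := by
    have h5 := h.div
    rw [hn]
    rw [show (4 : ℤ) * (2 * (2 ^ e * (d * d))) = 8 * 2 ^ e * (d : ℤ) ^ 2 by ring]
    exact h5
  have h5 : (2 : ℤ) * (2 ^ e * (d * d)) ∣ n := (mul_dvd_mul_iff_left (by norm_num)).1 h4
  have h6 : ((2 ^ e * (d * d) : ℕ) : ℤ) ∣ n := by
    push_cast
    exact (Dvd.intro_left _ rfl).trans h5
  have h7 : ((d * d : ℕ) : ℤ) ∣ n := by
    refine dvd_trans ?_ h6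
    push_cast
    exact Dvd.intro_left _ rfl
  have hcop : IsCoprime (d : ℤ) b := by
    obtain ⟨u, v, huv⟩ : IsCoprime (d : ℤ) (q : ℤ) := Nat.isCoprime_iff_coprime.2 h.cop
    obtain ⟨x, hx⟩ : (d : ℤ) ∣ n := dvd_trans (by push_cast; exact Dvd.intro _ rfl) h7
    refine ⟨u + v * (4 * x), -v * b, ?_⟩
    rw [← huv]
    have : (q : ℤ) = 4 * (d * x) - b ^ 2 := by rw [← hx, hn]; ring
    rw [this]
    ring
  have h2b : IsCoprime ((2 ^ e : ℕ) : ℤ) b := by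
    push_cast
    apply IsCoprime.pow_left
    obtain ⟨c, hc⟩ := hbo
    exact ⟨-c, 1, by rw [hc]; ring⟩
  have hgP : g ∈ P ^ e := Ideal.pow_le_pow_right (Nat.le_succ e) h.mem
  refine ⟨?_, by positivity, h6⟩
  rw [hMN d d hd0 hd0 h7 hcop, ← (hPk P hP hP2 e hgP).2,
    hMN (2 ^ e) (d * d) (by positivity) (by positivity) h6 h2b]

/-- Oriented bases. -/
theorem isB (hI : StIdl) (hF : FieldC q F (s : F)) (σ : F →+* ℂ) (hσ : 0 < (σ s).im)
    {b n : ℤ} {g : 𝓞 F} (hg : 2 * g = b + s) (hn : 4 * n = b ^ 2 + q) {M : ℕ} (hM0 : 0 < M)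
    (hMn : (M : ℤ) ∣ n) : IsB σ (idl g M) (σ g) M := by
  obtain ⟨-, -, -, -, hM, -, -⟩ := hI q F _ _ s b n g hF hg hn
  have him : 0 < (σ g).im := by
    have h1 := congrArg (fun x : 𝓞 F => (σ (x : F)).im) hg
    simp only [map_mul, map_add, map_intCast, map_ofNat] at h1
    rw [Complex.add_im, Complex.intCast_im, zero_add] at h1
    have h2 : ((2 : ℂ) * σ g).im = 2 * (σ g).im := by
      rw [Complex.mul_im]
      simp
    rw [h2] at h1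
    linarith
  refine ⟨?_, fun z => ?_⟩
  · unfold Pos
    rw [show (M : ℂ) = ((M : ℝ) : ℂ) by push_cast; rfl, Complex.div_ofReal_im]
    positivity
  · unfold lat
    rw [Submodule.mem_span_pair]
    constructor
    · rintro ⟨u, v, rfl⟩
      refine ⟨v * M + u * g, (hM M hM0 hMn).1 _ |>.2 ⟨v, u, rfl⟩, ?_⟩
      simp only [map_add, map_mul, map_intCast, map_natCast, zsmul_eq_mul]
      ring
    · rintro ⟨x, hx, rfl⟩
      obtain ⟨u, v, rfl⟩ := ((hM M hM0 hMn).1 x).1 hx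
      refine ⟨v, u, ?_⟩
      simp only [map_add, map_mul, map_intCast, map_natCast, zsmul_eq_mul]
      ring

end Js2Aux

open Js2Aux in
theorem stJs2 (hI : StIdl) (hJ : StJsum) (hC : StClass) : StJs2 := by
  intro q F _ _ s σ A hF hσ hA P e b g d hP hP2 hS hAdm
  classical
  -- `n = (b ^ 2 + q) / 4`
  obtain ⟨n, hn⟩ : ∃ n : ℤ, 4 * n = b ^ 2 + q := by
    obtain ⟨x, hx⟩ := (hAdm 1).div
    exact ⟨2 * 2 ^ e * (d 1 : ℤ) ^ 2 * x, by rw [hx]; ring⟩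
  have hP0 : P ≠ ⊥ := by
    rintro rfl
    simp at hP2
  have hPz : P ∈ (Ideal (𝓞 F))⁰ := mem_nonZeroDivisors_of_ne_zero hP0
  have hD0 : ∀ C, idl g (d C) ∈ (Ideal (𝓞 F))⁰ := by
    intro C
    refine mem_nonZeroDivisors_of_ne_zero fun h0 => ?_
    have h1 : (d C : 𝓞 F) ∈ idl g (d C) := Ideal.subset_span (by simp)
    rw [h0] at h1
    have h2 : (d C : 𝓞 F) = 0 := h1
    have h3 : d C = 0 := by exact_mod_cast h2
    have h4 := (hS.odd C).pos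
    omega
  let D : ClassGroup (𝓞 F) → (Ideal (𝓞 F))⁰ := fun C => ⟨idl g (d C), hD0 C⟩
  let J : ClassGroup (𝓞 F) → (Ideal (𝓞 F))⁰ := fun C => ⟨P, hPz⟩ ^ e * (D C * D C)
  have hD : ∀ C, ClassGroup.mk0 (D C) = C := fun C => hS.cls C (D C) rfl
  -- squaring is bijective
  have hodd : (Nat.card (ClassGroup (𝓞 F))).Coprime 2 := by
    rw [Nat.card_eq_fintype_card]
    exact Nat.Coprime.symm ((Nat.coprime_two_left).2 (hC q F (s : F) hF))
  let φ : ClassGroup (𝓞 F) ≃ ClassGroup (𝓞 F) :=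
    (powCoprime hodd).trans (Equiv.mulLeft (ClassGroup.mk0 ⟨P, hPz⟩ ^ e))
  have hJφ : ∀ C, ClassGroup.mk0 (J C) = φ C := by
    intro C
    change ClassGroup.mk0 (⟨P, hPz⟩ ^ e * (D C * D C)) = ClassGroup.mk0 ⟨P, hPz⟩ ^ e * C ^ 2
    rw [map_mul, map_pow, map_mul, hD, pow_two C]
  have hJc : ∀ C, ((J C : (Ideal (𝓞 F))⁰) : Ideal (𝓞 F)) = idl g (2 ^ e * (d C * d C)) :=
    fun C => (idl_eq hI hF hP hP2 hn (hAdm C)).1
  have hB : ∀ C, IsB σ ((J C : (Ideal (𝓞 F))⁰) : Ideal (𝓞 F)) (σ g)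
      (2 ^ e * (d C : ℂ) ^ 2) := by
    intro C
    obtain ⟨-, h1, h2⟩ := idl_eq hI hF hP hP2 hn (hAdm C)
    rw [hJc]
    have h3 := isB hI hF σ hσ hS.two hn h1 h2
    have h4 : ((2 ^ e * (d C * d C) : ℕ) : ℂ) = 2 ^ e * (d C : ℂ) ^ 2 := by
      push_cast
      ring
    rwa [h4] at h3
  have h5 := hJ q F _ _ (s : F) σ A hF hA (fun c => J (φ.symm c)) (fun _ => σ g)
    (fun c => 2 ^ e * (d (φ.symm c) : ℂ) ^ 2)
    (fun c => by rw [hJφ, Equiv.apply_symm_apply]) (fun c => hB _)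
  have h6 : ∑ C, jv (σ g) (2 ^ e * (d C : ℂ) ^ 2) =
      ∑ c, jv (σ g) (2 ^ e * (d (φ.symm c) : ℂ) ^ 2) :=
    Fintype.sum_equiv φ _ _ fun C => by rw [Equiv.symm_apply_apply]
  rw [h6]
  exact h5

end Pool.Agent.Lib.MP_7c08ba_nt.CN
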