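import Pool.Agent.Lib.MP_7c08ba_nt.CN.StP
import Pool.Agent.Lib.MP_7c08ba_nt.RZ.Basic
import Pool.Agent.Lib.MP_7c08ba_nt.RZ.C.Class

set_option autoImplicit false

/-! Project CN: the final `2`-adic assembly: the sums `SumS` are not zero. -/

namespace Pool.Agent.Lib.MP_7c08ba_nt.CN

open NumberField IsDedekindDomain UpperHalfPlane ModularForm EisensteinSeries RZC
open scoped nonZeroDivisors ComplexConjugate MatrixGroups

noncomputable section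

namespace PaAux

variable {A : ValuationSubring ℂ} {w₁ w₂ : ℂ}

/-! ### scaling -/

theorem LF_div {k : ℕ} {G : ℍ → ℂ} (h : w₂ ≠ 0) :
    LF k G (w₁ / w₂) 1 = w₂ ^ k * LF k G w₁ w₂ := by
  unfold LF
  rw [one_pow, inv_one, one_mul, div_one, ← mul_assoc, mul_inv_cancel₀ (pow_ne_zero _ h), one_mul]

theorem jv_div (h : w₂ ≠ 0) : jv (w₁ / w₂) 1 = jv w₁ w₂ := by
  unfold jv dl e4
  rw [LF_div h, LF_div h, mul_pow, ← pow_mul]
  exact mul_div_mul_left _ _ (pow_ne_zero _ h)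

theorem XX_div (h : w₂ ≠ 0) : XX (w₁ / w₂) 1 = XX w₁ w₂ := by
  have h1 : w₁ / w₂ = w₂⁻¹ * w₁ := by ring
  have h2 : (1 : ℂ) = w₂⁻¹ * w₂ := (inv_mul_cancel₀ h).symm
  have h3 : (1 : ℂ) / 2 = w₂⁻¹ * (w₂ / 2) := by field_simp
  have hc : w₂⁻¹ ≠ 0 := inv_ne_zero h
  have h4 : ((w₂⁻¹) ^ 12)⁻¹ ≠ 0 := inv_ne_zero (pow_ne_zero _ hc)
  have e1 : dl (w₁ / w₂) 1 = ((w₂⁻¹) ^ 12)⁻¹ * dl w₁ w₂ := by
    have := LF_smul (k := 12) (F := discriminant) (w₁ := w₁) (w₂ := w₂) hc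
    rwa [← h2, ← h1] at this
  have e2 : dl (w₁ / w₂) (1 / 2) = ((w₂⁻¹) ^ 12)⁻¹ * dl w₁ (w₂ / 2) := by
    have := LF_smul (k := 12) (F := discriminant) (w₁ := w₁) (w₂ := w₂ / 2) hc
    rwa [← h3, ← h1] at this
  unfold XX
  rw [e1, e2, mul_left_comm, mul_div_mul_left _ _ h4]

theorem E2s_smul {c : ℂ} (hc : c ≠ 0) : E2s (c * w₁) (c * w₂) = (c ^ 2)⁻¹ * E2s w₁ w₂ := by
  have hc' : conj c ≠ 0 := by simpa using hc
  have hv : vol (c * w₁) (c * w₂) (conj (c * w₁)) (conj (c * w₂)) =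
      c * conj c * vol w₁ w₂ (conj w₁) (conj w₂) := by
    unfold vol
    rw [map_mul, map_mul]
    ring
  unfold E2s e2s
  rw [hv, LF_smul hc, map_mul, mul_sub]
  congr 1
  have h1 : (conj c) * (conj c)⁻¹ = 1 := mul_inv_cancel₀ hc'
  calc 3 * (conj c * conj w₂) / (Real.pi * (c * w₂) * (c * conj c * vol w₁ w₂ (conj w₁) (conj w₂)))
      = ((conj c) * (conj c)⁻¹) * ((c ^ 2)⁻¹ * (3 * conj w₂ /
        (Real.pi * w₂ * vol w₁ w₂ (conj w₁) (conj w₂)))) := by ring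
    _ = _ := by rw [h1, one_mul]

theorem E2s_div (h : w₂ ≠ 0) : E2s (w₁ / w₂) 1 = w₂ ^ 2 * E2s w₁ w₂ := by
  have h1 : w₁ / w₂ = w₂⁻¹ * w₁ := by ring
  have h2 : (1 : ℂ) = w₂⁻¹ * w₂ := (inv_mul_cancel₀ h).symm
  rw [h1]
  nth_rewrite 1 [h2]
  rw [E2s_smul (inv_ne_zero h), inv_pow, inv_inv]

theorem Ord_div (h : Ord A w₁ w₂) : Ord A (w₁ / w₂) 1 := by
  have h0 := h.1.ne
  refine ⟨?_, ?_, ?_⟩
  · have := h.1
    unfold Pos at this ⊢
    rwa [div_one]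
  · change LF 4 (E₄ : ℍ → ℂ) (w₁ / w₂) 1 ≠ 0
    rw [LF_div h0]
    exact mul_ne_zero (pow_ne_zero _ h0) h.2.1
  · rw [jv_div h0]
    exact h.2.2

theorem quot_div (h : w₂ ≠ 0) : E2s (w₁ / w₂) 1 * e6 (w₁ / w₂) 1 / e4 (w₁ / w₂) 1 ^ 2 =
    E2s w₁ w₂ * e6 w₁ w₂ / e4 w₁ w₂ ^ 2 := by
  unfold e6 e4
  rw [E2s_div h, LF_div h, LF_div h]
  have h1 : w₂ ^ 8 ≠ 0 := pow_ne_zero _ h
  have h2 : w₂ ^ 2 * E2s w₁ w₂ * (w₂ ^ 6 * LF 6 (⇑E₆) w₁ w₂) =
      w₂ ^ 8 * (E2s w₁ w₂ * LF 6 (⇑E₆) w₁ w₂) := by ring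
  have h3 : (w₂ ^ 4 * LF 4 (⇑E₄) w₁ w₂) ^ 2 = w₂ ^ 8 * LF 4 (⇑E₄) w₁ w₂ ^ 2 := by ring
  rw [h2, h3, mul_div_mul_left _ _ h1]

/-! ### the valuation ring -/

theorem nonunits_sum {ι : Type*} (S : Finset ι) (f : ι → ℂ) (h : ∀ i ∈ S, f i ∈ A.nonunits) :
    ∑ i ∈ S, f i ∈ A.nonunits :=
  Finset.sum_induction f (· ∈ A.nonunits) (fun _ _ => nonunits_add) zero_nonunits h

theorem sq_sum (hA : Above2 A) {ι : Type*} (S : Finset ι) (f : ι → ℂ) (h : ∀ i ∈ S, f i ∈ A) :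
    (∑ i ∈ S, f i) ^ 2 - ∑ i ∈ S, f i ^ 2 ∈ A.nonunits := by
  classical
  induction S using Finset.induction_on with
  | empty => simp
  | insert a S ha ih =>
    rw [Finset.sum_insert ha, Finset.sum_insert ha]
    have h1 := ih fun i hi => h i (Finset.mem_insert_of_mem hi)
    have h2 : ∑ i ∈ S, f i ∈ A := sum_mem fun i hi => h i (Finset.mem_insert_of_mem hi)
    have h3 : f a * ∑ i ∈ S, f i ∈ A := A.mul_mem _ _ (h a (Finset.mem_insert_self _ _)) h2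
    have h4 := nonunits_add (nonunits_mul_left h3 hA) h1
    convert h4 using 1
    ring

/-- `x ^ 8 = 1` modulo the maximal ideal implies `x = 1` modulo the maximal ideal -/
theorem sub_one_of_pow8 (hA : Above2 A) {x : ℂ} (h : x ^ 8 - 1 ∈ A.nonunits) :
    x - 1 ∈ A.nonunits := by
  have h8 : x ^ 8 ∈ A := (unit_of_sub_one h).1
  have hx : x ∈ A := by
    refine mem_of_root (n := 8) (c := fun i => if i = 0 then -x ^ 8 else 0) ?_ ?_
    · intro i _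
      split_ifs
      · exact A.neg_mem _ h8
      · exact A.zero_mem
    · simp
  refine nonunits_of_pow (n := 8) ?_
  have h1 : -4 * x ^ 7 + 14 * x ^ 6 - 28 * x ^ 5 + 35 * x ^ 4 - 28 * x ^ 3 + 14 * x ^ 2 -
      4 * x + 1 ∈ A := by
    have hn : ∀ n : ℕ, (n : ℂ) ∈ A := fun n => nat_mem n
    have hp : ∀ n : ℕ, x ^ n ∈ A := fun n => pow_mem hx n
    have ht : ∀ (m n : ℕ), (m : ℂ) * x ^ n ∈ A := fun m n => A.mul_mem _ _ (hn m) (hp n)
    have e1 := ht 4 7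
    have e2 := ht 14 6
    have e3 := ht 28 5
    have e4 := ht 35 4
    have e5 := ht 28 3
    have e6 := ht 14 2
    have e7 := ht 4 1
    push_cast at e1 e2 e3 e4 e5 e6 e7
    rw [pow_one] at e7
    have := A.add_mem _ _ (A.sub_mem (A.add_mem _ _ (A.sub_mem (A.add_mem _ _ (A.sub_mem
      (A.add_mem _ _ (A.neg_mem _ e1) e2) e3) e4) e5) e6) e7) A.one_mem
    convert this using 1
    ring
  have h2 := nonunits_add h (nonunits_mul_left h1 hA)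
  convert h2 using 1
  ring

end PaAux

open PaAux

theorem stPa (hCM : StCMP) (hJs2 : StJs2) (hPt : StPt) (hHth : StHth) (hTh4 : StTh4) : StPa := by
  intro q F _ _ s σ A j φ hF him hA hcan hres
  obtain ⟨P, hP, hP2, hcm⟩ := hCM q F _ _ s σ A hF him hA
  refine ⟨P, 2 * j + 3, hP, hP2, by omega, ?_⟩
  intro b g d hsys hg hdvd
  set e : ℕ := 2 * j + 3 with he
  have hadm : ∀ C, Adm q s P e b g (d C) := fun C =>
    ⟨hsys.two, hsys.dvd, hsys.odd C, hsys.cop C, hdvd C, hg⟩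
  have hadm1 : Adm q s P e b g 1 := by
    refine ⟨hsys.two, hsys.dvd, odd_one, Nat.coprime_one_left q, ?_, hg⟩
    refine Dvd.dvd.trans ?_ (hdvd 1)
    exact ⟨(d 1 : ℤ) ^ 2, by push_cast; ring⟩
  -- the imaginary part of `σ g`
  have hσg : 2 * (σ (g : F)).im = (σ (s : F)).im := by
    have h1 := congrArg (algebraMap (𝓞 F) F) hsys.two
    rw [map_mul, map_add, map_ofNat, map_intCast] at h1
    have h2 := congrArg σ h1
    rw [map_mul, map_add, map_ofNat, map_intCast] at h2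
    have h3 := congrArg Complex.im h2
    simpa using h3
  have hσg0 : 0 < (σ (g : F)).im := by linarith
  -- the points
  have hpoint : ∀ D : ℕ, Adm q s P e b g D →
      0 < (σ (g : F) / ((2 ^ e : ℕ) * (D : ℂ) ^ 2)).im ∧
      (σ (g : F) / ((2 ^ e : ℕ) * (D : ℂ) ^ 2)).im = (σ (s : F)).im / 2 / (2 ^ e * (D : ℝ) ^ 2) ∧
      tt (σ (g : F) / ((2 ^ e : ℕ) * (D : ℂ) ^ 2)) ∈ A ∧
      tt (σ (g : F) / ((2 ^ e : ℕ) * (D : ℂ) ^ 2)) ^ 2 -
        jv (σ (g : F)) (2 ^ e * (D : ℂ) ^ 2) ∈ A.nonunits ∧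
      e4 (σ (g : F) / ((2 ^ e : ℕ) * (D : ℂ) ^ 2)) 1 /
        t3 (σ (g : F) / ((2 ^ e : ℕ) * (D : ℂ) ^ 2)) ^ 8 - 1 ∈ A.nonunits ∧
      e4 (σ (g : F) / ((2 ^ e : ℕ) * (D : ℂ) ^ 2)) 1 =
        (2 ^ e * (D : ℂ) ^ 2) ^ 4 * e4 (σ (g : F)) (2 ^ e * (D : ℂ) ^ 2) ∧
      (1 ≤ j → MvPolynomial.aeval ![ep (σ (g : F) / ((2 ^ e : ℕ) * (D : ℂ) ^ 2)),
        tt (σ (g : F) / ((2 ^ e : ℕ) * (D : ℂ) ^ 2))] (RJ j) / (2 * 12 ^ j) -
          tt (σ (g : F) / ((2 ^ e : ℕ) * (D : ℂ) ^ 2)) ∈ A.nonunits) := by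
    intro D hD
    have hD0 : (D : ℝ) ≠ 0 := by
      have := hD.odd.pos
      exact_mod_cast this.ne'
    have hDC : (D : ℂ) ≠ 0 := by exact_mod_cast hD0
    have hcast : ((2 ^ e : ℕ) : ℂ) * (D : ℂ) ^ 2 = 2 ^ e * (D : ℂ) ^ 2 := by push_cast; ring
    have hK0 : (2 : ℂ) ^ e * (D : ℂ) ^ 2 ≠ 0 :=
      mul_ne_zero (pow_ne_zero _ two_ne_zero) (pow_ne_zero _ hDC)
    rw [hcast]
    have him1 : (σ (g : F) / (2 ^ e * (D : ℂ) ^ 2)).im =
        (σ (s : F)).im / 2 / (2 ^ e * (D : ℝ) ^ 2) := by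
      have h1 : (2 : ℂ) ^ e * (D : ℂ) ^ 2 = ((2 ^ e * (D : ℝ) ^ 2 : ℝ) : ℂ) := by push_cast; ring
      rw [h1, Complex.div_ofReal_im]
      congr 1
      linarith
    have him0 : 0 < (σ (g : F) / (2 ^ e * (D : ℂ) ^ 2)).im := by
      rw [him1]
      positivity
    obtain ⟨hc1, _⟩ := hcm e b g D hD
    have key : ∀ k < e, Ord A (2 ^ k * (σ (g : F) / (2 ^ e * (D : ℂ) ^ 2))) 1 ∧
        XX (2 ^ k * (σ (g : F) / (2 ^ e * (D : ℂ) ^ 2))) 1 ∈ A ∧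
        (XX (2 ^ k * (σ (g : F) / (2 ^ e * (D : ℂ) ^ 2))) 1)⁻¹ ∈ A ∧
        E2s (2 ^ k * (σ (g : F) / (2 ^ e * (D : ℂ) ^ 2))) 1 *
          e6 (2 ^ k * (σ (g : F) / (2 ^ e * (D : ℂ) ^ 2))) 1 /
          e4 (2 ^ k * (σ (g : F) / (2 ^ e * (D : ℂ) ^ 2))) 1 ^ 2 ∈ A := by
      intro k hk
      obtain ⟨a1, a2, a3, a4⟩ := hc1 k hk
      have hw : (2 : ℂ) ^ (e - k) * (D : ℂ) ^ 2 ≠ 0 := a1.1.ne
      have hsplit : (2 : ℂ) ^ e = 2 ^ k * 2 ^ (e - k) := by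
        rw [← pow_add]
        congr 1
        omega
      have hτ : 2 ^ k * (σ (g : F) / (2 ^ e * (D : ℂ) ^ 2)) =
          σ (g : F) / (2 ^ (e - k) * (D : ℂ) ^ 2) := by
        rw [hsplit]
        have h2k : (2 : ℂ) ^ k ≠ 0 := pow_ne_zero _ two_ne_zero
        rw [mul_assoc, ← div_div, ← mul_div_assoc, mul_div_cancel₀ _ h2k]
      rw [hτ]
      exact ⟨Ord_div a1, by rwa [XX_div hw], by rwa [XX_div hw], by rwa [quot_div hw]⟩
    obtain ⟨b1, b2, b3, b4⟩ := hPt A j e (σ (g : F) / (2 ^ e * (D : ℂ) ^ 2)) hA him0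
      (by omega) key
    rw [jv_div hK0] at b2
    exact ⟨him0, him1, b1, b2, b3, LF_div hK0, b4⟩
  set τ : ClassGroup (𝓞 F) → ℂ := fun C => σ (g : F) / ((2 ^ e : ℕ) * (d C : ℂ) ^ 2) with hτ
  set τ₀ : ℂ := σ (g : F) / ((2 ^ e : ℕ) * ((1 : ℕ) : ℂ) ^ 2) with hτ₀
  obtain ⟨c0, -, -, -, c4, c5, -⟩ := hpoint 1 hadm1
  rw [← hτ₀] at c0 c4 c5
  have ht0 : t3 τ₀ ≠ 0 := (hTh4 ⟨τ₀, c0⟩).2.2.1
  have htC : ∀ C, t3 (τ C) ≠ 0 := fun C => (hTh4 ⟨τ C, (hpoint (d C) (hadm C)).1⟩).2.2.1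
  have hdC : ∀ C, (d C : ℂ) ≠ 0 := fun C => by
    have := (hsys.odd C).pos
    exact_mod_cast this.ne'
  have hdC1 : ∀ C, (d C : ℂ) - 1 ∈ A.nonunits := fun C => by
    have := odd_sub_one hA (n := (d C : ℤ)) (by exact_mod_cast hsys.odd C)
    simpa using this
  -- the ratio of the theta values
  have hρ : ∀ C, t3 (τ C) / t3 τ₀ - 1 ∈ A.nonunits := by
    intro C
    refine sub_one_of_pow8 hA ?_
    obtain ⟨-, -, -, -, d4, d5, -⟩ := hpoint (d C) (hadm C)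
    change e4 (τ C) 1 / t3 (τ C) ^ 8 - 1 ∈ A.nonunits at d4
    change e4 (τ C) 1 = _ at d5
    have h1 := (hcm e b g (d C) (hadm C)).2 (by omega)
    obtain ⟨_, _, n1, _⟩ := unit_of_sub_one h1
    obtain ⟨_, _, n2, _⟩ := unit_of_sub_one c4
    obtain ⟨_, _, n3, _⟩ := unit_of_sub_one d4
    have hr : e4 (τ C) 1 / e4 τ₀ 1 = (d C : ℂ) ^ 8 *
        (e4 (σ (g : F)) (2 ^ e * (d C : ℂ) ^ 2) / e4 (σ (g : F)) (2 ^ e)) := by
      rw [d5, c5]
      have e0 : (2 : ℂ) ^ e * (((1 : ℕ) : ℂ)) ^ 2 = 2 ^ e := by push_cast; ring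
      rw [e0]
      have h2e : ((2 : ℂ) ^ e) ^ 4 ≠ 0 := pow_ne_zero _ (pow_ne_zero _ two_ne_zero)
      have e1 : ((2 : ℂ) ^ e * (d C : ℂ) ^ 2) ^ 4 * e4 (σ (g : F)) (2 ^ e * (d C : ℂ) ^ 2) =
          ((2 : ℂ) ^ e) ^ 4 * ((d C : ℂ) ^ 8 * e4 (σ (g : F)) (2 ^ e * (d C : ℂ) ^ 2)) := by ring
      rw [e1, mul_div_mul_left _ _ h2e, mul_div_assoc]
    have hr1 : e4 (τ C) 1 / e4 τ₀ 1 - 1 ∈ A.nonunits := by
      rw [hr]
      exact mul_sub_one (nonunits_pow_sub_one (hdC1 C) 8) h1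
    have h2 := mul_sub_one (mul_sub_one (inv_sub_one d4) hr1) c4
    have h3 : (e4 (τ C) 1 / t3 (τ C) ^ 8)⁻¹ * (e4 (τ C) 1 / e4 τ₀ 1) * (e4 τ₀ 1 / t3 τ₀ ^ 8) =
        (t3 (τ C) / t3 τ₀) ^ 8 := by
      have m1 : e4 (τ C) 1 ≠ 0 := fun h => n3 (by rw [h, zero_div])
      have m2 : e4 τ₀ 1 ≠ 0 := fun h => n2 (by rw [h, zero_div])
      have m3 := htC C
      field_simp
    rwa [h3] at h2
  -- the values of the character
  have hφ : ∀ C, φ (idl g (d C)) - 1 ∈ A.nonunits := by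
    intro C
    refine hres _ ?_ ?_
    · have h1 : Ideal.span {((d C : ℕ) : 𝓞 F)} ≤ idl g (d C) :=
        Ideal.span_mono (by simp)
      have h2 := Ideal.absNorm_dvd_absNorm_of_le h1
      have h3 : Ideal.absNorm (Ideal.span {((d C : ℕ) : 𝓞 F)}) = d C ^ 2 := by
        rw [Ideal.absNorm_span_singleton]
        have h4 : Algebra.norm ℤ ((d C : ℕ) : 𝓞 F) = (d C : ℤ) ^ 2 := by
          have h5 := Algebra.norm_algebraMap (R := ℤ) (S := 𝓞 F) (d C : ℤ)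
          rw [NumberField.RingOfIntegers.rank, hF.2.2.1] at h5
          simpa using h5
        rw [h4]
        simp [Int.natAbs_pow]
      rw [h3] at h2
      exact Odd.of_dvd_nat ((hsys.odd C).pow) h2
    · have h1 : IsCoprime (d C : ℤ) (q : ℤ) := Nat.isCoprime_iff_coprime.2 (hsys.cop C)
      obtain ⟨u, v, huv⟩ := h1
      have h2 : (s : 𝓞 F) ^ 2 = -(q : 𝓞 F) := by
        apply RingOfIntegers.ext
        have := hF.2.2.2
        simpa using this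
      rw [Ideal.isCoprime_iff_exists]
      refine ⟨(u : 𝓞 F) * (d C : 𝓞 F), ?_, (-(v : 𝓞 F) * s) * s, ?_, ?_⟩
      · exact Ideal.mul_mem_left _ _ (Ideal.subset_span (by simp))
      · exact Ideal.mul_mem_left _ _ (Ideal.mem_span_singleton_self _)
      · have h3 := congrArg (fun x : ℤ => (x : 𝓞 F)) huv
        simp only [Int.cast_add, Int.cast_mul, Int.cast_natCast, Int.cast_one] at h3
        linear_combination h3 - (v : 𝓞 F) * h2
  -- the unit factors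
  set u : ClassGroup (𝓞 F) → ℂ := fun C =>
    φ (idl g (d C)) * ((d C : ℂ) ^ (4 * j + 1))⁻¹ * (t3 (τ C) / t3 τ₀) ^ (4 * j + 1) with hu
  have hu1 : ∀ C, u C - 1 ∈ A.nonunits := fun C =>
    mul_sub_one (mul_sub_one (hφ C) (inv_sub_one (nonunits_pow_sub_one (hdC1 C) _)))
      (nonunits_pow_sub_one (hρ C) _)
  -- the sum
  set K0 : ℂ := Real.pi * (σ (s : F)).im / (3 * 2 ^ e) with hK0
  have hK0' : K0 ≠ 0 := by
    have h1 : (Real.pi : ℂ) ≠ 0 := by exact_mod_cast Real.pi_ne_zero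
    have h2 : (((σ (s : F)).im : ℝ) : ℂ) ≠ 0 := by exact_mod_cast him.ne'
    exact div_ne_zero (mul_ne_zero h1 h2)
      (mul_ne_zero three_ne_zero (pow_ne_zero _ two_ne_zero))
  have hsum : SumS σ (2 * j) (2 ^ e) g d φ = K0 ^ j * t3 τ₀ ^ (4 * j + 1) *
      ∑ C, u C * MvPolynomial.aeval ![ep (τ C), tt (τ C)] (RJ j) := by
    unfold SumS
    rw [Finset.mul_sum]
    refine Finset.sum_congr rfl fun C _ => ?_
    obtain ⟨p1, p2, -⟩ := hpoint (d C) (hadm C)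
    change 0 < (τ C).im at p1
    change (τ C).im = _ at p2
    have h1 := hHth j (τ C) p1
    change φ (idl g (d C)) * ((d C : ℂ) ^ (2 * j + 1))⁻¹ * hth (2 * j) (τ C) = _
    rw [h1, p2]
    have hd := hdC C
    have h2 : (2 * (Real.pi : ℂ) * (((σ (s : F)).im / 2 / (2 ^ e * (d C : ℝ) ^ 2) : ℝ) : ℂ) / 3) =
        K0 * ((d C : ℂ) ^ 2)⁻¹ := by
      rw [hK0]
      push_cast
      have : (2 : ℂ) ^ e ≠ 0 := pow_ne_zero _ two_ne_zero
      field_simp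
    rw [h2, hu]
    dsimp only
    have h3 : t3 τ₀ ^ (4 * j + 1) ≠ 0 := pow_ne_zero _ ht0
    have h4 : t3 τ₀ ^ (4 * j + 1) * (t3 (τ C) / t3 τ₀) ^ (4 * j + 1) = t3 (τ C) ^ (4 * j + 1) := by
      rw [← mul_pow, mul_div_cancel₀ _ ht0]
    have h5 : ((d C : ℂ) ^ (4 * j + 1))⁻¹ = ((d C : ℂ) ^ (2 * j + 1))⁻¹ *
        (((d C : ℂ) ^ 2)⁻¹) ^ j := by
      rw [inv_pow, ← pow_mul, ← mul_inv, ← pow_add]
      congr 2
      ring
    rw [h5, mul_pow, ← h4]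
    ring
  rw [hsum]
  refine mul_ne_zero (mul_ne_zero (pow_ne_zero _ hK0') (pow_ne_zero _ ht0)) ?_
  have hcl : (Fintype.card (ClassGroup (𝓞 F)) : ℂ) - 1 ∈ A.nonunits := by
    have h1 := stClass q F (s : F) hF
    have := odd_sub_one hA (n := (Fintype.card (ClassGroup (𝓞 F)) : ℤ)) (by exact_mod_cast h1)
    simpa using this
  rcases Nat.eq_zero_or_pos j with hj | hj
  · -- `j = 0`
    have h1 : ∀ C, MvPolynomial.aeval ![ep (τ C), tt (τ C)] (RJ j) = (1 : ℂ) := by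
      intro C
      rw [hj]
      simp [RJ]
    simp_rw [h1, mul_one]
    have h2 : ∑ C, (u C - 1) ∈ A.nonunits := nonunits_sum _ _ fun C _ => hu1 C
    rw [Finset.sum_sub_distrib] at h2
    simp only [Finset.sum_const, Finset.card_univ, nsmul_eq_mul, mul_one] at h2
    have h3 := nonunits_add h2 hcl
    rw [sub_add_sub_cancel] at h3
    exact (unit_of_sub_one h3).2.2.1
  · -- `1 ≤ j`
    set m : ClassGroup (𝓞 F) → ℂ := fun C =>
      MvPolynomial.aeval ![ep (τ C), tt (τ C)] (RJ j) / (2 * 12 ^ j) - tt (τ C) with hm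
    have hmC : ∀ C, m C ∈ A.nonunits := fun C => (hpoint (d C) (hadm C)).2.2.2.2.2.2 hj
    have htt : ∀ C, tt (τ C) ∈ A := fun C => (hpoint (d C) (hadm C)).2.2.1
    have h12 : (2 : ℂ) * 12 ^ j ≠ 0 := mul_ne_zero two_ne_zero (pow_ne_zero _ (by norm_num))
    have h1 : ∀ C, u C * MvPolynomial.aeval ![ep (τ C), tt (τ C)] (RJ j) =
        2 * 12 ^ j * (u C * (tt (τ C) + m C)) := by
      intro C
      rw [hm]
      dsimp only
      rw [add_sub_cancel]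
      field_simp
    simp_rw [h1]
    rw [← Finset.mul_sum]
    refine mul_ne_zero h12 ?_
    intro h0
    -- `∑ tt = 0` modulo the maximal ideal
    have h2 : ∑ C, ((u C - 1) * (tt (τ C) + m C) + m C) ∈ A.nonunits :=
      nonunits_sum _ _ fun C _ => nonunits_add
        (nonunits_mul_right (hu1 C) (A.add_mem _ _ (htt C) (nonunits_mem (hmC C)))) (hmC C)
    have h3 : ∑ C, ((u C - 1) * (tt (τ C) + m C) + m C) = - ∑ C, tt (τ C) := by
      rw [← sub_zero (∑ C, ((u C - 1) * (tt (τ C) + m C) + m C)), ← h0,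
        ← Finset.sum_sub_distrib, ← Finset.sum_neg_distrib]
      exact Finset.sum_congr rfl fun C _ => by ring
    rw [h3] at h2
    have h4 : ∑ C, tt (τ C) ∈ A.nonunits := by
      have := nonunits_neg h2
      rwa [neg_neg] at this
    have h5 : (∑ C, tt (τ C)) ^ 2 ∈ A.nonunits := by
      rw [sq]
      exact nonunits_mul_left (nonunits_mem h4) h4
    have h6 := sq_sum hA Finset.univ (fun C => tt (τ C)) fun C _ => htt C
    have h7 : ∑ C, (tt (τ C) ^ 2 - jv (σ (g : F)) (2 ^ e * (d C : ℂ) ^ 2)) ∈ A.nonunits :=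
      nonunits_sum _ _ fun C _ => (hpoint (d C) (hadm C)).2.2.2.1
    rw [Finset.sum_sub_distrib] at h7
    have h8 := hJs2 q F _ _ s σ A hF him hA P e b g d hP hP2 hsys hadm
    have h9 := nonunits_sub h5 (nonunits_add h6 (nonunits_add h7 h8))
    refine one_not_nonunits (A := A) ?_
    convert h9 using 1
    ring

end

end Pool.Agent.Lib.MP_7c08ba_nt.CN
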