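import Mathlib
import Pool.Agent.Lib.MP_7c08ba_nt.CN.StP
import Pool.Agent.Lib.MP_7c08ba_nt.RZ.C.Unit

set_option autoImplicit false

/-!
Project CN, (N3): every nonzero ideal is a multiple of an ideal which contains `(b + s) / 2`.
-/

namespace Pool.Agent.Lib.MP_7c08ba_nt.CN

open NumberField IsDedekindDomain RZC
open scoped nonZeroDivisors

namespace PrimAux

section

variable {F : Type} [Field F] [NumberField F]

/-- The ideal of the second coordinates of the elements of `c`. -/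
def HH (c : Ideal (𝓞 F)) (w : 𝓞 F) : Submodule ℤ ℤ where
  carrier := {v | ∃ u : ℤ, (u : 𝓞 F) + v * w ∈ c}
  add_mem' := by
    rintro v v' ⟨u, hu⟩ ⟨u', hu'⟩
    refine ⟨u + u', ?_⟩
    have := c.add_mem hu hu'
    convert this using 1
    push_cast
    ring
  zero_mem' := ⟨0, by simp⟩
  smul_mem' := by
    rintro a v ⟨u, hu⟩
    refine ⟨a * u, ?_⟩
    have := c.mul_mem_left (a : 𝓞 F) hu
    convert this using 1
    simp only [smul_eq_mul]
    push_cast
    ring

theorem mem_HH {c : Ideal (𝓞 F)} {w : 𝓞 F} {v : ℤ} :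
    v ∈ HH c w ↔ ∃ u : ℤ, (u : 𝓞 F) + v * w ∈ c := Iff.rfl

/-- If all elements are congruent to integers modulo `D`, then the integers in `D` are divisible
by the norm of `D`. -/
theorem dvd_of_mem {D : Ideal (𝓞 F)} (h : ∀ x : 𝓞 F, ∃ t : ℤ, x - t ∈ D) {t : ℤ}
    (ht : (t : 𝓞 F) ∈ D) : (Ideal.absNorm D : ℤ) ∣ t := by
  have hgen : ∀ y : 𝓞 F ⧸ D, y ∈ AddSubgroup.zmultiples (1 : 𝓞 F ⧸ D) := by
    intro y
    obtain ⟨x, rfl⟩ := Ideal.Quotient.mk_surjective y
    obtain ⟨t, ht⟩ := h x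
    rw [AddSubgroup.mem_zmultiples_iff]
    refine ⟨t, ?_⟩
    rw [zsmul_eq_mul, mul_one]
    have h1 : Ideal.Quotient.mk D x = Ideal.Quotient.mk D (t : 𝓞 F) :=
      Ideal.Quotient.eq.2 ht
    rw [h1, map_intCast]
  have hord : addOrderOf (1 : 𝓞 F ⧸ D) = Ideal.absNorm D := by
    rw [addOrderOf_eq_card_of_forall_mem_zmultiples hgen, Ideal.absNorm_apply,
      Submodule.cardQuot_apply]
  rw [← hord, addOrderOf_dvd_iff_zsmul_eq_zero, zsmul_eq_mul, mul_one, ← map_intCast
    (Ideal.Quotient.mk D), Ideal.Quotient.eq_zero_iff_mem]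
  exact ht

end

end PrimAux

open PrimAux in
/-- (N3) every nonzero ideal is a multiple of an ideal which contains an element
`(b + s) / 2`. -/
theorem stPrim : StPrim := by
  intro q F _ _ s hFC c hc
  obtain ⟨k, w, -, hw, hw2⟩ := Unit.exists_theta hFC
  have hco := Unit.coordsO hFC hw
  have h2w : 2 * w = 1 + s := by
    apply RingOfIntegers.ext
    simp only [map_mul, map_ofNat, map_add, map_one]
    rw [show algebraMap (𝓞 F) F w = (1 + (s : F)) / 2 from hw]
    rw [RingOfIntegers.coe_eq_algebraMap]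
    field_simp
  -- the generator of the ideal of second coordinates
  obtain ⟨m0, hm0⟩ : ∃ m0 : ℤ, HH c w = Submodule.span ℤ {m0} :=
    (IsPrincipalIdealRing.principal (HH c w)).principal
  obtain ⟨m, hm⟩ : ∃ m : ℕ, ∀ v : ℤ, v ∈ HH c w ↔ (m : ℤ) ∣ v := by
    refine ⟨m0.natAbs, fun v => ?_⟩
    rw [hm0]
    rw [show (v ∈ Submodule.span ℤ {m0}) = (v ∈ Ideal.span {m0}) from rfl,
      Ideal.mem_span_singleton, Int.natAbs_dvd]
  have hN : (Ideal.absNorm c : 𝓞 F) ∈ c := Ideal.absNorm_mem c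
  have hN0 : Ideal.absNorm c ≠ 0 := by
    rw [Ne, Ideal.absNorm_eq_zero_iff]
    exact hc
  have hmpos : 0 < m := by
    rw [Nat.pos_iff_ne_zero]
    rintro rfl
    have h1 : (Ideal.absNorm c : ℤ) ∈ HH c w := by
      refine ⟨0, ?_⟩
      have := c.mul_mem_right w hN
      simpa using this
    rw [hm] at h1
    have h2 : (Ideal.absNorm c : ℤ) = 0 := by simpa using h1
    exact hN0 (by exact_mod_cast h2)
  have hm0' : ((m : ℕ) : 𝓞 F) ≠ 0 := by exact_mod_cast hmpos.ne'
  -- both coordinates are divisible by `m`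
  have hdiv : ∀ u v : ℤ, (u : 𝓞 F) + v * w ∈ c → (m : ℤ) ∣ u ∧ (m : ℤ) ∣ v := by
    intro u v huv
    have h1 : (m : ℤ) ∣ v := (hm v).1 ⟨u, huv⟩
    have h2 : (m : ℤ) ∣ u + v := by
      refine (hm _).1 ⟨-(2 * (2 * k + 1) * v), ?_⟩
      have := c.mul_mem_left w huv
      convert this using 1
      push_cast
      linear_combination (-(v : 𝓞 F)) * hw2
    exact ⟨(Int.dvd_add_left h1).1 h2, h1⟩
  have hle : c ≤ Ideal.span {((m : ℕ) : 𝓞 F)} := by
    intro x hx
    obtain ⟨u, v, rfl⟩ := hco x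
    obtain ⟨⟨u', hu'⟩, ⟨v', hv'⟩⟩ := hdiv u v hx
    rw [Ideal.mem_span_singleton]
    refine ⟨u' + v' * w, ?_⟩
    rw [hu', hv']
    push_cast
    ring
  obtain ⟨D, hD⟩ := Ideal.dvd_iff_le.2 hle
  obtain ⟨u, hu⟩ := (hm m).2 dvd_rfl
  obtain ⟨⟨u', hu'⟩, -⟩ := hdiv u m hu
  have hg : (u' : 𝓞 F) + w ∈ D := by
    have h1 : ((m : ℕ) : 𝓞 F) * ((u' : 𝓞 F) + w) ∈ Ideal.span {((m : ℕ) : 𝓞 F)} * D := by
      rw [← hD]
      convert hu using 1
      rw [hu']
      push_cast
      ring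
    rw [Ideal.mem_span_singleton_mul] at h1
    obtain ⟨z, hz, hz'⟩ := h1
    rw [← mul_left_cancel₀ hm0' hz']
    exact hz
  refine ⟨m, D, 2 * u' + 1, u' + w, hmpos, hD, ?_, hg, ?_⟩
  · push_cast
    linear_combination h2w
  · apply le_antisymm
    · intro x hx
      obtain ⟨a, b, rfl⟩ := hco x
      have hcong : ∀ x : 𝓞 F, ∃ t : ℤ, x - t ∈ D := by
        intro x
        obtain ⟨a, b, rfl⟩ := hco x
        refine ⟨a - b * u', ?_⟩
        have := D.mul_mem_left (b : 𝓞 F) hg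
        convert this using 1
        push_cast
        ring
      have ht : ((a - b * u' : ℤ) : 𝓞 F) ∈ D := by
        have := D.sub_mem hx (D.mul_mem_left (b : 𝓞 F) hg)
        convert this using 1
        push_cast
        ring
      obtain ⟨r, hr⟩ := dvd_of_mem hcong ht
      rw [Ideal.mem_span_pair]
      refine ⟨r, b, ?_⟩
      have hr' : ((a - b * u' : ℤ) : 𝓞 F) = ((Ideal.absNorm D * r : ℤ) : 𝓞 F) := by rw [hr]
      push_cast at hr'
      linear_combination -hr'
    · rw [Ideal.span_le]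
      intro x hx
      simp only [Set.mem_insert_iff, Set.mem_singleton_iff] at hx
      rcases hx with rfl | rfl
      · exact Ideal.absNorm_mem D
      · exact hg

end Pool.Agent.Lib.MP_7c08ba_nt.CN
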