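import Mathlib
import Pool.Agent.Lib.MP_7c08ba_nt.CN.StP
import Pool.Agent.Lib.MP_7c08ba_nt.RZ.Basic

set_option autoImplicit false

/-!
Project CN, (M4): the values of the modular functions at the points of a chain.
Proof: team store `cn_plan.md`, section M, Pt.
-/

namespace Pool.Agent.Lib.MP_7c08ba_nt.CN

open NumberField IsDedekindDomain RZC

namespace PtAux

variable {A : ValuationSubring ℂ} {x y b c : ℂ}

/-- roots of a monic quadratic polynomial with coefficients in `A` -/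
theorem quad_mem (hb : b ∈ A) (hc : c ∈ A) (h : x ^ 2 + b * x + c = 0) : x ∈ A := by
  have h1 : ∀ i < 2, (fun i : ℕ => if i = 0 then c else b) i ∈ A := by
    intro i _
    by_cases hi : i = 0
    · simp [hi, hc]
    · simp [hi, hb]
  refine mem_of_root (n := 2) (c := fun i : ℕ => if i = 0 then c else b) h1 ?_
  rw [Finset.sum_range_succ, Finset.sum_range_one]
  simp only [if_true, pow_zero, mul_one, one_ne_zero, if_false, pow_one]
  linear_combination h

theorem num_mem (n : ℕ) [n.AtLeastTwo] : (OfNat.ofNat n : ℂ) ∈ A := by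
  have := nat_mem (A := A) (OfNat.ofNat n)
  rwa [Nat.cast_ofNat] at this

/-- `(2 * x)` is in the maximal ideal -/
theorem two_mul_nonunits (hA : Above2 A) (hx : x ∈ A) : 2 * x ∈ A.nonunits :=
  nonunits_mul_right hA hx

/-- `1 - 16 t + 256 t ^ 2` -/
theorem fac4 (hA : Above2 A) (hx : x ∈ A) : (1 - 16 * x + 256 * x ^ 2) - 1 ∈ A.nonunits := by
  have h1 : 2 * (-8 * x + 128 * x ^ 2) ∈ A.nonunits := by
    refine two_mul_nonunits hA (A.add_mem _ _ (A.mul_mem _ _ (A.neg_mem _ (num_mem 8)) hx)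
      (A.mul_mem _ _ (num_mem 128) (pow_mem hx 2)))
  convert h1 using 1
  ring

/-- `1 + n x` for `n` even -/
theorem fac1 (hA : Above2 A) (n : ℤ) (hn : Even n) (hx : x ∈ A) :
    (1 + n * x) - 1 ∈ A.nonunits := by
  have := nonunits_mul_right (even_nonunits hA hn) hx
  convert this using 1
  ring

theorem fac6 (hA : Above2 A) (hx : x ∈ A) :
    ((1 + 16 * x) * (1 - 8 * x) * (1 - 32 * x)) - 1 ∈ A.nonunits := by
  have h1 := fac1 hA 16 (by decide) hx
  have h2 := fac1 hA (-8) (by decide) hx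
  have h3 := fac1 hA (-32) (by decide) hx
  have h4 := mul_sub_one (mul_sub_one h1 h2) h3
  convert h4 using 1
  push_cast
  ring

/-- change of rings -/
theorem aeval_coe (P : MvPolynomial (Fin 2) ℤ) (a b : A) :
    ((MvPolynomial.aeval ![a, b] P : A) : ℂ) = MvPolynomial.aeval ![(a : ℂ), (b : ℂ)] P := by
  have h := MvPolynomial.map_aeval (![a, b] : Fin 2 → A) A.subtype P
  have h1 : (fun i => A.subtype ((![a, b] : Fin 2 → A) i)) = ![(a : ℂ), (b : ℂ)] := by
    funext i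
    fin_cases i <;> rfl
  rw [h1] at h
  rw [MvPolynomial.aeval_def, ← MvPolynomial.coe_eval₂Hom]
  have h2 : A.subtype.comp (algebraMap ℤ A) = algebraMap ℤ ℂ := Subsingleton.elim _ _
  rw [h2] at h
  exact h

/-- `X` is not zero -/
theorem XX_ne {w₁ w₂ : ℂ} (h : Pos w₁ w₂) : XX w₁ w₂ ≠ 0 := by
  have h1 : ∀ {v₁ v₂ : ℂ}, Pos v₁ v₂ → dl v₁ v₂ ≠ 0 := by
    intro v₁ v₂ hv
    exact mul_ne_zero (inv_ne_zero (pow_ne_zero _ hv.ne)) (ModularForm.discriminant_ne_zero _)
  exact div_ne_zero (mul_ne_zero (by norm_num) (h1 h)) (h1 h.half)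

end PtAux

open PtAux in
theorem stPt (hFun : StFun) (hUniv : StUniv) : StPt := by
  intro A j e τ hA hτ hje hch
  -- the points
  have hpos : ∀ k : ℕ, 0 < ((2 : ℂ) ^ k * τ).im := by
    intro k
    have : ((2 : ℂ) ^ k * τ) = ((2 ^ k : ℝ) : ℂ) * τ := by push_cast; ring
    rw [this, Complex.im_ofReal_mul]
    positivity
  have hF := fun k : ℕ => hFun (2 ^ k * τ) (hpos k)
  have hsucc : ∀ k : ℕ, 2 * ((2 : ℂ) ^ k * τ) = 2 ^ (k + 1) * τ := by
    intro k; ring
  -- `t_k` is a unit of `A`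
  have ht : ∀ k < e, tt (2 ^ k * τ) ∈ A ∧ (tt (2 ^ k * τ))⁻¹ ∈ A := by
    intro k hk
    obtain ⟨-, hX, hXi, -⟩ := hch k hk
    obtain ⟨-, ht0, -, -, -, -, -, -, hXX⟩ := hF k
    have hX0 : XX (2 ^ k * τ) 1 ≠ 0 := XX_ne (by simpa [Pos] using hpos k)
    generalize XX (2 ^ k * τ) 1 = X at hX hXi hXX hX0
    generalize tt (2 ^ k * τ) = t at ht0 hXX
    have h1 : t ∈ A := by
      refine quad_mem (b := 16 * X⁻¹) (c := -X⁻¹) (A.mul_mem _ _ (num_mem 16) hXi)
        (A.neg_mem _ hXi) ?_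
      field_simp
      linear_combination hXX
    refine ⟨h1, ?_⟩
    have h2 : t⁻¹ = X * t + 16 := by
      field_simp
      linear_combination -hXX
    rw [h2]
    exact A.add_mem _ _ (A.mul_mem _ _ hX h1) (num_mem 16)
  -- `r_k` is in `A`, and a unit for `k + 1 < e`
  have hr : ∀ k, k + 1 < e → rr (2 ^ k * τ) ∈ A ∧
      ∃ z ∈ A, 1 - rr (2 ^ k * τ) = 4 * z := by
    intro k hk
    obtain ⟨h1, h1i⟩ := ht k (by omega)
    obtain ⟨h2, h2i⟩ := ht (k + 1) hk
    obtain ⟨-, ht0, hrr, htr, -⟩ := hF k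
    rw [hsucc] at htr
    generalize tt (2 ^ (k + 1) * τ) = t' at h2 h2i htr
    generalize tt (2 ^ k * τ) = t at h1 h1i htr hrr ht0
    generalize rr (2 ^ k * τ) = r at htr hrr
    have hrA : r ∈ A := by
      refine quad_mem (b := -1) (c := 4 * t) (A.neg_mem _ A.one_mem)
        (A.mul_mem _ _ (num_mem 4) h1) ?_
      linear_combination hrr
    have hr0 : r ≠ 0 := by
      rintro rfl
      apply ht0
      have : t ^ 2 = 0 := by rw [← htr]; ring
      exact pow_eq_zero_iff (two_ne_zero) |>.1 this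
    have hri : r⁻¹ ∈ A := by
      have h3 : r⁻¹ = r ^ 3 * t' * (t⁻¹) ^ 2 := by
        field_simp
        linear_combination -htr
      rw [h3]
      exact A.mul_mem _ _ (A.mul_mem _ _ (pow_mem hrA 3) h2) (pow_mem h1i 2)
    refine ⟨hrA, t * r⁻¹, A.mul_mem _ _ h1 hri, ?_⟩
    field_simp
    linear_combination -hrr
  -- `e_k` is in `A`
  have heK : ep (2 ^ (2 * j + 2) * τ) ∈ A := by
    obtain ⟨h1, h1i⟩ := ht (2 * j + 2) (by omega)
    obtain ⟨⟨-, he4, -⟩, -, -, hE⟩ := hch (2 * j + 2) (by omega)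
    obtain ⟨ht30, -, -, -, -, h4, h6, -⟩ := hF (2 * j + 2)
    have ha := fac4 hA h1
    have hb := fac6 hA h1
    obtain ⟨haA, -, ha0, -⟩ := unit_of_sub_one ha
    obtain ⟨hbA, -, hb0, hbi⟩ := unit_of_sub_one hb
    rw [h4, h6] at hE
    unfold ep
    generalize (1 - 16 * tt (2 ^ (2 * j + 2) * τ) + 256 * tt (2 ^ (2 * j + 2) * τ) ^ 2) = a
      at haA ha0 hE
    generalize ((1 + 16 * tt (2 ^ (2 * j + 2) * τ)) * (1 - 8 * tt (2 ^ (2 * j + 2) * τ)) *
      (1 - 32 * tt (2 ^ (2 * j + 2) * τ))) = b at hbA hb0 hbi hE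
    generalize t3 (2 ^ (2 * j + 2) * τ) = θ at ht30 hE
    generalize E2s (2 ^ (2 * j + 2) * τ) 1 = E at hE
    have h2 : E / θ ^ 4 = E * (θ ^ 12 * b) / (θ ^ 8 * a) ^ 2 * a ^ 2 * b⁻¹ := by
      field_simp
    rw [h2]
    exact A.mul_mem _ _ (A.mul_mem _ _ hE (pow_mem haA 2)) hbi
  have he' : ∀ m, m ≤ 2 * j + 2 → ep (2 ^ (2 * j + 2 - m) * τ) ∈ A := by
    intro m
    induction m with
    | zero => intro _; simpa using heK
    | succ m ih =>
      intro hm
      have h1 := ih (by omega)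
      obtain ⟨k, hk⟩ : ∃ k, 2 * j + 2 - (m + 1) = k := ⟨_, rfl⟩
      have hk1 : 2 * j + 2 - m = k + 1 := by omega
      rw [hk]
      rw [hk1] at h1
      obtain ⟨-, -, -, -, h5, -⟩ := hF k
      rw [hsucc] at h5
      rw [h5]
      have h2 := (hr k (by omega)).1
      have h3 := (ht k (by omega)).1
      exact A.add_mem _ _ (A.sub_mem (A.mul_mem _ _ (A.mul_mem _ _ (num_mem 2)
        (pow_mem h2 2)) h1) A.one_mem) (A.mul_mem _ _ (num_mem 8) h3)
  have he : ∀ k ≤ 2 * j + 2, ep (2 ^ k * τ) ∈ A := by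
    intro k hk
    have := he' (2 * j + 2 - k) (by omega)
    rwa [show 2 * j + 2 - (2 * j + 2 - k) = k by omega] at this
  -- the point `τ`
  have ht0 := (ht 0 (by omega)).1
  have hF0 := hF 0
  rw [pow_zero, one_mul] at ht0 hF0
  obtain ⟨ht30, htt0, -, -, -, h4, -, hj', -⟩ := hF0
  have he40 : e4 τ 1 ≠ 0 := by
    have := (hch 0 (by omega)).1.2.1
    rwa [pow_zero, one_mul] at this
  have hj := hj' he40
  have ha := fac4 hA ht0
  refine ⟨ht0, ?_, ?_, ?_⟩
  · obtain ⟨haA, -, ha0, hai⟩ := unit_of_sub_one ha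
    have h1 := nonunits_pow_sub_one ha 3
    have h2 := nonunits_pow_sub_one (fac1 hA (-16) (by decide) ht0) 2
    have h3 : tt τ ^ 2 - jv τ 1 = (tt τ ^ 2 * ((1 - 16 * tt τ + 256 * tt τ ^ 2)⁻¹) ^ 3) *
        (((1 - 16 * tt τ + 256 * tt τ ^ 2) ^ 3 - 1) -
          ((1 + ((-16 : ℤ) : ℂ) * tt τ) ^ 2 - 1)) := by
      have hjv : jv τ 1 = tt τ ^ 2 * (1 - 16 * tt τ) ^ 2 *
          ((1 - 16 * tt τ + 256 * tt τ ^ 2)⁻¹) ^ 3 := by
        rw [← hj, mul_assoc, ← mul_pow, mul_inv_cancel₀ ha0, one_pow, mul_one]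
      have h5 : (1 - 16 * tt τ + 256 * tt τ ^ 2) ^ 3 *
          ((1 - 16 * tt τ + 256 * tt τ ^ 2)⁻¹) ^ 3 = 1 := by
        rw [← mul_pow, mul_inv_cancel₀ ha0, one_pow]
      rw [hjv]
      push_cast
      linear_combination -(tt τ ^ 2) * h5
    rw [h3]
    exact nonunits_mul_left (A.mul_mem _ _ (pow_mem ht0 2) (pow_mem hai 3))
      (nonunits_sub h1 h2)
  · rw [h4, mul_div_cancel_left₀ _ (pow_ne_zero 8 ht30)]
    exact ha
  · intro hj1
    classical
    obtain ⟨z, hz⟩ := hUniv j hj1 A inferInstance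
      (fun k => if h : tt (2 ^ k * τ) ∈ A then ⟨_, h⟩ else 0)
      (fun k => if h : rr (2 ^ k * τ) ∈ A then ⟨_, h⟩ else 0)
      (fun k => if h : ep (2 ^ k * τ) ∈ A then ⟨_, h⟩ else 0) (by
        intro k hk
        have h1 := (ht k (by omega)).1
        have h2 := (ht (k + 1) (by omega)).1
        obtain ⟨h3, w, hw, hrw⟩ := hr k (by omega)
        have h4 := he k (by omega)
        have h5 := he (k + 1) (by omega)
        obtain ⟨-, -, g1, g2, g3, -⟩ := hF k
        rw [hsucc] at g2 g3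
        simp only [dif_pos h1, dif_pos h2, dif_pos h3, dif_pos h4, dif_pos h5]
        refine ⟨?_, ⟨⟨w, hw⟩, ?_⟩, ?_, ?_⟩
        · apply Subtype.coe_injective
          push_cast
          exact g1
        · apply Subtype.coe_injective
          push_cast
          exact hrw
        · apply Subtype.coe_injective
          push_cast
          exact g2
        · apply Subtype.coe_injective
          push_cast
          exact g3)
    have hc := congrArg (fun y : A => (y : ℂ)) hz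
    simp only [aeval_coe] at hc
    have he0 := he 0 (by omega)
    have ht0' := (ht 0 (by omega)).1
    rw [dif_pos he0, dif_pos ht0'] at hc
    push_cast at hc
    rw [pow_zero, one_mul, show ((2 : A) : ℂ) = 2 from map_ofNat A.subtype 2,
      show ((12 : A) : ℂ) = 12 from map_ofNat A.subtype 12] at hc
    rw [hc]
    have h3 : (3 : ℂ) - 1 ∈ A.nonunits := by
      have := odd_sub_one hA (n := 3) (by decide)
      simpa using this
    obtain ⟨-, -, h30, h3i⟩ := unit_of_sub_one h3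
    have h12 : (12 : ℂ) ^ j = 2 ^ (2 * j) * 3 ^ j := by
      rw [pow_mul, ← mul_pow]
      norm_num
    have hfin : (2 * 12 ^ j * tt τ + 2 ^ (2 * j + 2) * (z : ℂ)) / (2 * 12 ^ j) - tt τ =
        2 * ((z : ℂ) * (3⁻¹) ^ j) := by
      rw [h12, inv_pow]
      have h31 : (3 : ℂ) ^ j ≠ 0 := pow_ne_zero _ h30
      have h21 : (2 : ℂ) ^ (2 * j) ≠ 0 := pow_ne_zero _ two_ne_zero
      field_simp
      ring
    rw [hfin]
    exact two_mul_nonunits hA (A.mul_mem _ _ z.2 (pow_mem h3i j))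

end Pool.Agent.Lib.MP_7c08ba_nt.CN
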