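import Pool.Agent.Lib.MP_7c08ba_nt.CN.StP
import Pool.Agent.Lib.MP_7c08ba_nt.RZ.C.App
import Pool.Agent.Lib.MP_7c08ba_nt.RZ.C.Theta

set_option autoImplicit false

/-!
Project CN, module Qexp (R7): power series which satisfy the relations between the theta
constants.
-/

namespace Pool.Agent.Lib.MP_7c08ba_nt.CN

open RZC RZC.AppAux RZC.ThetaAux

noncomputable section

namespace QexpAux

/-! ### congruences modulo 2 -/

theorem two_dvd {g : PowerSeries ℤ} (h : ∀ n, (2 : ℤ) ∣ g.coeff n) : ∃ z, g = 2 * z := by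
  choose z hz using h
  refine ⟨PowerSeries.mk z, ?_⟩
  ext n
  have h2 : (2 : PowerSeries ℤ) = PowerSeries.C 2 := rfl
  rw [h2, PowerSeries.coeff_C_mul, PowerSeries.coeff_mk, hz n]

theorem sq_zmod (f : PowerSeries (ZMod 2)) : f ^ 2 = PowerSeries.expand 2 two_ne_zero f := by
  have h := MvPowerSeries.map_frobenius_expand (σ := Unit) (R := ZMod 2) 2 two_ne_zero (f := f)
  rw [ZMod.frobenius_zmod, MvPowerSeries.map_id] at h
  exact h.symm

theorem sq_mod (g : PowerSeries ℤ) : ∃ z, g ^ 2 = Vq g + 2 * z := by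
  have h : ∀ n, (2 : ℤ) ∣ (g ^ 2 - Vq g).coeff n := by
    intro n
    have h1 := congrArg (PowerSeries.coeff n) (sq_zmod (g.map (Int.castRingHom (ZMod 2))))
    rw [← map_pow, PowerSeries.coeff_map, PowerSeries.coeff_expand, PowerSeries.coeff_map] at h1
    have h2 : ((Vq g).coeff n : ZMod 2) = ((g ^ 2).coeff n : ZMod 2) := by
      rw [coeff_Vq]
      have h3 : Even n ↔ 2 ∣ n := even_iff_two_dvd
      by_cases hn : 2 ∣ n
      · rw [if_pos (h3.2 hn)]
        rw [if_pos hn] at h1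
        exact h1.symm
      · rw [if_neg (fun h => hn (h3.1 h))]
        rw [if_neg hn] at h1
        rw [Int.cast_zero]
        exact h1.symm
    rw [map_sub]
    have h4 := (ZMod.intCast_eq_intCast_iff_dvd_sub _ _ 2).1 h2
    exact_mod_cast h4
  obtain ⟨z, hz⟩ := two_dvd h
  exact ⟨z, by linear_combination hz⟩

theorem four_mod (g : PowerSeries ℤ) : ∃ z, g ^ 4 = Vq (Vq g) + 2 * z := by
  obtain ⟨z, hz⟩ := sq_mod g
  obtain ⟨w, hw⟩ := sq_mod (Vq g)
  refine ⟨w + 2 * Vq g * z + 2 * z ^ 2, ?_⟩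
  have : g ^ 4 = (g ^ 2) ^ 2 := by ring
  rw [this, hz]
  linear_combination hw

/-! ### the derivation -/

theorem th_smul (c : ℤ) (g : PowerSeries ℤ) :
    th (PowerSeries.C c * g) = PowerSeries.C c * th g := by
  rw [th_mul, th_C, mul_zero, add_zero]

theorem th_pow_succ (g : PowerSeries ℤ) (n : ℕ) :
    th (g ^ (n + 1)) = ((n : PowerSeries ℤ) + 1) * g ^ n * th g := by
  induction n with
  | zero => simp
  | succ n ih =>
    rw [pow_succ g (n + 1), th_mul, ih]
    push_cast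
    ring

theorem th_Vq (g : PowerSeries ℤ) : th (Vq g) = 2 * Vq (th g) := by
  ext n
  have h2 : (2 : PowerSeries ℤ) = PowerSeries.C 2 := rfl
  rw [h2, PowerSeries.coeff_C_mul, coeff_th, coeff_Vq, coeff_Vq]
  split_ifs with h
  · obtain ⟨m, rfl⟩ := h
    rw [coeff_th, show (m + m) / 2 = m by omega]
    push_cast
    ring
  · simp

theorem th_iter_coeff (g : PowerSeries ℤ) (j n : ℕ) :
    (th^[j] g).coeff n = (n : ℤ) ^ j * g.coeff n := by
  induction j with
  | zero => simp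
  | succ j ih =>
    rw [Function.iterate_succ_apply', coeff_th, ih]
    ring

open MvPolynomial in
theorem th_aeval (e t : PowerSeries ℤ) (P : MvPolynomial (Fin 2) ℤ) :
    th (aeval ![e, t] P) = th e * aeval ![e, t] (pderiv 0 P) +
      th t * aeval ![e, t] (pderiv 1 P) := by
  induction P using MvPolynomial.induction_on with
  | C a =>
    have : (aeval ![e, t] (C a : MvPolynomial (Fin 2) ℤ) : PowerSeries ℤ) = PowerSeries.C a := by
      rw [aeval_C]
      rfl
    rw [this, th_C, pderiv_C, pderiv_C, map_zero, mul_zero, mul_zero, add_zero]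
  | add p q hp hq =>
    rw [map_add, th_add, hp, hq, map_add, map_add, map_add, map_add]
    ring
  | mul_X p i hp =>
    rw [map_mul, th_mul, hp, pderiv_mul, pderiv_mul, map_add, map_add, map_mul, map_mul, map_mul,
      map_mul, aeval_X]
    have h01 : pderiv (0 : Fin 2) (X 1 : MvPolynomial (Fin 2) ℤ) = 0 :=
      pderiv_X_of_ne (by decide)
    have h10 : pderiv (1 : Fin 2) (X 0 : MvPolynomial (Fin 2) ℤ) = 0 :=
      pderiv_X_of_ne (by decide)
    have h00 : pderiv (0 : Fin 2) (X 0 : MvPolynomial (Fin 2) ℤ) = 1 := pderiv_X_self _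
    have h11 : pderiv (1 : Fin 2) (X 1 : MvPolynomial (Fin 2) ℤ) = 1 := pderiv_X_self _
    fin_cases i
    · show _ * th e + e * _ = _
      simp only [Fin.zero_eta, h00, h10, map_one, map_zero]
      show _ = th e * (_ * e + _) + th t * (_ * e + _)
      ring
    · show _ * th t + t * _ = _
      simp only [Fin.mk_one, h01, h11, map_one, map_zero]
      show _ = th e * (_ * t + _) + th t * (_ * t + _)
      ring

/-! ### constant coefficients -/

theorem cc_Th3 : PowerSeries.constantCoeff Th3 = 1 := by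
  rw [← PowerSeries.coeff_zero_eq_constantCoeff_apply]
  unfold Th3
  rw [PowerSeries.coeff_mk, if_pos rfl]

theorem cc_UU : PowerSeries.constantCoeff UU = 1 := by
  rw [← PowerSeries.coeff_zero_eq_constantCoeff_apply]
  unfold UU
  rw [PowerSeries.coeff_mk, if_pos ⟨0, rfl⟩]

theorem exists_inv {g : PowerSeries ℤ} (h : PowerSeries.constantCoeff g = 1) :
    ∃ w, g * w = 1 ∧ PowerSeries.constantCoeff w = 1 := by
  have h1 : IsUnit g := by
    rw [PowerSeries.isUnit_iff_constantCoeff, h]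
    exact isUnit_one
  obtain ⟨w, hw⟩ := h1.exists_right_inv
  refine ⟨w, hw, ?_⟩
  have := congrArg PowerSeries.constantCoeff hw
  rw [map_mul, h, one_mul, map_one] at this
  exact this

theorem cc_Vq {g : PowerSeries ℤ} (h : PowerSeries.constantCoeff g = 1) :
    PowerSeries.constantCoeff (Vq g) = 1 := by
  rw [← PowerSeries.coeff_zero_eq_constantCoeff_apply, coeff_Vq, if_pos ⟨0, rfl⟩,
    Nat.zero_div, PowerSeries.coeff_zero_eq_constantCoeff_apply, h]

/-- the sum of `p ^ (m ^ 2)`, `m > 0` odd -/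
def HH : PowerSeries ℤ := PowerSeries.X * Vq (Vq UU)

theorem Th3_mod : ∃ z, Th3 = 1 + 2 * z := by
  have h : ∀ n, (2 : ℤ) ∣ (Th3 - 1).coeff n := by
    intro n
    rw [map_sub, PowerSeries.coeff_one]
    unfold Th3
    rw [PowerSeries.coeff_mk]
    by_cases hn : n = 0
    · rw [if_pos hn, if_pos hn]
      exact ⟨0, by norm_num⟩
    · rw [if_neg hn, if_neg hn]
      split_ifs
      · exact ⟨1, by norm_num⟩
      · exact ⟨0, by norm_num⟩
  obtain ⟨z, hz⟩ := two_dvd h
  exact ⟨z, by linear_combination hz⟩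

theorem FF_mod : ∃ z, FF = HH + 2 * z := by
  obtain ⟨z, hz⟩ := four_mod UU
  refine ⟨PowerSeries.X * z, ?_⟩
  unfold FF HH
  rw [hz]
  ring

theorem HH_coeff (n : ℕ) : HH.coeff n = if Odd n ∧ IsSquare n then 1 else 0 := by
  unfold HH
  rcases n with _ | n
  · rw [PowerSeries.coeff_zero_X_mul, if_neg]
    rintro ⟨h, -⟩
    exact absurd h (by decide)
  · rw [PowerSeries.coeff_succ_X_mul, coeff_Vq, coeff_Vq]
    unfold UU
    rw [PowerSeries.coeff_mk]
    by_cases h1 : Even n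
    · rw [if_pos h1]
      obtain ⟨a, rfl⟩ := h1
      rw [show (a + a) / 2 = a by omega]
      by_cases h2 : Even a
      · obtain ⟨b, rfl⟩ := h2
        rw [if_pos ⟨b, rfl⟩, show (b + b) / 2 = b by omega]
        have key : (∃ m : ℕ, m * (m + 1) = b) ↔
            (Odd (b + b + (b + b) + 1) ∧ IsSquare (b + b + (b + b) + 1)) := by
          constructor
          · rintro ⟨m, hm⟩
            refine ⟨⟨b + b, by ring⟩, ⟨2 * m + 1, ?_⟩⟩
            rw [← hm]
            ring
          · rintro ⟨-, ⟨r, hr⟩⟩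
            have hro : Odd r := by
              by_contra hne
              rw [Nat.not_odd_iff_even] at hne
              obtain ⟨c, hc⟩ := hne
              subst hc
              have : (c + c) * (c + c) = 4 * (c * c) := by ring
              omega
            obtain ⟨m, hm⟩ := hro
            refine ⟨m, ?_⟩
            subst hm
            have : (2 * m + 1) * (2 * m + 1) = 4 * (m * (m + 1)) + 1 := by ring
            omega
        by_cases hk : ∃ m : ℕ, m * (m + 1) = b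
        · rw [if_pos hk, if_pos (key.1 hk)]
        · rw [if_neg hk, if_neg (fun h => hk (key.2 h))]
      · rw [if_neg h2, if_neg]
        rintro ⟨-, ⟨r, hr⟩⟩
        rw [Nat.not_even_iff_odd] at h2
        obtain ⟨c, hc⟩ := h2
        subst hc
        have hro : Odd r := by
          by_contra hne
          rw [Nat.not_odd_iff_even] at hne
          obtain ⟨d, hd⟩ := hne
          subst hd
          have : (d + d) * (d + d) = 4 * (d * d) := by ring
          omega
        obtain ⟨m, hm⟩ := hro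
        subst hm
        have : (2 * m + 1) * (2 * m + 1) = 4 * (m * (m + 1)) + 1 := by ring
        omega
    · rw [if_neg h1, if_neg]
      rintro ⟨h, -⟩
      rw [Nat.not_even_iff_odd] at h1
      obtain ⟨a, ha⟩ := h
      obtain ⟨c, hc⟩ := h1
      omega

theorem der_mod (j : ℕ) (hj : 1 ≤ j) : ∃ z, th^[j] Th3 = 2 * (HH + 2 * z) := by
  have h : ∀ n, (2 : ℤ) ∣ (PowerSeries.mk (fun n : ℕ => (n : ℤ) ^ j *
      (if IsSquare n then (1 : ℤ) else 0)) - HH).coeff n := by
    intro n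
    rw [map_sub, PowerSeries.coeff_mk, HH_coeff]
    by_cases h1 : IsSquare n
    · rw [if_pos h1, mul_one]
      by_cases h2 : Odd n
      · rw [if_pos ⟨h2, h1⟩]
        obtain ⟨m, hm⟩ := h2
        have h3 : Odd ((n : ℤ) ^ j) := Odd.pow ⟨(m : ℤ), by rw [hm]; push_cast; ring⟩
        obtain ⟨k, hk⟩ := h3
        exact ⟨k, by rw [hk]; ring⟩
      · rw [if_neg (fun h => h2 h.1), sub_zero]
        rw [Nat.not_odd_iff_even] at h2
        obtain ⟨m, hm⟩ := h2
        exact dvd_pow ⟨(m : ℤ), by rw [hm]; push_cast; ring⟩ (by omega)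
    · rw [if_neg h1, if_neg (fun h => h1 h.2)]
      simp
  obtain ⟨z, hz⟩ := two_dvd h
  refine ⟨z, ?_⟩
  rw [← hz]
  ext n
  have h2 : (2 : PowerSeries ℤ) = PowerSeries.C 2 := rfl
  rw [th_iter_coeff, h2, PowerSeries.coeff_C_mul, map_add, map_sub, PowerSeries.coeff_mk]
  unfold Th3
  rw [PowerSeries.coeff_mk]
  by_cases hn : n = 0
  · subst hn
    rw [if_pos rfl, Nat.cast_zero, zero_pow (by omega)]
    ring
  · rw [if_neg hn]
    split_ifs
    · ring
    · ring

end QexpAux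

open QexpAux in
theorem stQexp (h1 : StRelT) (h2 : StRamQ) : StQexp := by
  obtain ⟨r1, r2, r3, r4, r5, r6, r7⟩ := h1
  obtain ⟨Ti, hTi, cTi⟩ := exists_inv cc_Th3
  obtain ⟨Wi, hWi, -⟩ := exists_inv (cc_Vq cc_Th3)
  have hVTi : Vq Th3 * Vq Ti = 1 := by rw [← Vq_mul, hTi, Vq_one]
  have hVpow : ∀ (g : PowerSeries ℤ) (n : ℕ), Vq (g ^ n) = Vq g ^ n := fun g n =>
    map_pow vqHom g n
  have hT4 : Th3 ^ 4 * Ti ^ 4 = 1 := by rw [← mul_pow, hTi, one_pow]
  -- the derivative of the inverse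
  have hthTi : th Ti = -(Ti ^ 2 * th Th3) := by
    have e1 : th (Th3 * Ti) = 0 := by
      rw [hTi]
      have := th_C (R := ℤ) 1
      rwa [map_one] at this
    rw [th_mul] at e1
    linear_combination Ti * e1 - th Ti * hTi
  set t : PowerSeries ℤ := FF * Ti ^ 4 with ht
  set r : PowerSeries ℤ := Vq Th3 ^ 2 * Ti ^ 2 with hr
  set e : PowerSeries ℤ := Vq P2 * Ti ^ 4 with he
  have eFF : FF = Th3 ^ 4 * t := by rw [ht]; linear_combination -FF * hT4
  have eP : Vq P2 = Th3 ^ 4 * e := by rw [he]; linear_combination -Vq P2 * hT4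
  -- derivatives
  have d1 : 12 * th Th3 = Th3 ^ 5 * (e - 1 + 32 * t) := by
    rw [r5, eP, eFF]; ring
  have d2 : 3 * th FF = Th3 ^ 8 * t * (e + 2 - 16 * t) := by
    rw [r7, eP, eFF]; ring
  have d3 : 12 * th (Vq P2) = 2 * (Th3 ^ 8 * (e ^ 2 - (1 - 16 * t + 256 * t ^ 2))) := by
    have e1 : Vq (12 * th P2) = Vq P2 ^ 2 - Vq Q4 := by
      rw [h2.1]
      have : ∀ x y : PowerSeries ℤ, Vq (x - y) = Vq x - Vq y := fun x y => map_sub vqHom x y
      rw [this, hVpow]
    have e2 : Vq (12 * th P2) = 12 * Vq (th P2) := by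
      rw [Vq_mul]
      congr 1
      exact map_ofNat vqHom 12
    rw [e2, r4, eP, eFF] at e1
    rw [th_Vq]
    linear_combination 2 * e1
  have dT : 12 * th (Ti ^ 4) = -(4 * (e - 1 + 32 * t)) := by
    rw [show (4 : ℕ) = 3 + 1 from rfl, th_pow_succ, hthTi]
    push_cast
    have : 12 * (((3 : PowerSeries ℤ) + 1) * Ti ^ 3 * -(Ti ^ 2 * th Th3)) =
        -(4 * Ti ^ 5 * (12 * th Th3)) := by ring
    rw [this, d1]
    have h5 : Ti ^ 5 * Th3 ^ 5 = 1 := by rw [← mul_pow, mul_comm, hTi, one_pow]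
    linear_combination (-(4 * (e - 1 + 32 * t))) * h5
  have dt : 12 * th t = 12 * (Th3 ^ 4 * t * (1 - 16 * t)) := by
    have e1 : 12 * th t = 12 * (FF * th (Ti ^ 4) + Ti ^ 4 * th FF) := by
      rw [ht, th_mul]
    rw [e1]
    linear_combination FF * dT + 4 * Ti ^ 4 * d2 - (4 * (e - 1 + 32 * t)) * eFF +
      4 * Th3 ^ 4 * t * (e + 2 - 16 * t) * hT4
  have de : 12 * th e = Th3 ^ 4 * (2 * (e ^ 2 - (1 - 16 * t + 256 * t ^ 2)) -
      4 * e * (e - 1 + 32 * t)) := by
    have e1 : 12 * th e = 12 * (Vq P2 * th (Ti ^ 4) + Ti ^ 4 * th (Vq P2)) := by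
      rw [he, th_mul]
    rw [e1]
    linear_combination Vq P2 * dT + Ti ^ 4 * d3 - (4 * (e - 1 + 32 * t)) * eP +
      2 * Th3 ^ 4 * (e ^ 2 - (1 - 16 * t + 256 * t ^ 2)) * hT4
  -- the derivatives of theta
  have key : ∀ j : ℕ, Th3 ^ (4 * j + 1) * MvPolynomial.aeval ![e, t] (RJ j) =
      PowerSeries.C (12 ^ j) * th^[j] Th3 := by
    intro j
    induction j with
    | zero => simp [RJ]
    | succ j ih =>
      have e1 := congrArg th ih
      rw [th_smul, th_mul, th_pow_succ, th_aeval] at e1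
      rw [Function.iterate_succ_apply']
      have e2 : (PowerSeries.C (12 ^ (j + 1)) : PowerSeries ℤ) = 12 * PowerSeries.C (12 ^ j) := by
        rw [pow_succ, map_mul, mul_comm]
        rfl
      rw [e2, mul_assoc, ← e1]
      have e3 : MvPolynomial.aeval ![e, t] (RJ (j + 1)) =
          (4 * (j : PowerSeries ℤ) + 1) * (e - 1 + 32 * t) * MvPolynomial.aeval ![e, t] (RJ j) +
          12 * t * (1 - 16 * t) * MvPolynomial.aeval ![e, t] (MvPolynomial.pderiv 1 (RJ j)) +
          (2 * (e ^ 2 - 1 + 16 * t - 256 * t ^ 2) - 4 * e * (e - 1 + 32 * t)) *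
            MvPolynomial.aeval ![e, t] (MvPolynomial.pderiv 0 (RJ j)) := by
        rw [RJ]
        simp
      rw [e3]
      generalize MvPolynomial.aeval ![e, t] (RJ j) = A
      generalize MvPolynomial.aeval ![e, t] (MvPolynomial.pderiv 0 (RJ j)) = A0
      generalize MvPolynomial.aeval ![e, t] (MvPolynomial.pderiv 1 (RJ j)) = A1
      push_cast
      linear_combination (-(4 * (j : PowerSeries ℤ) + 1) * Th3 ^ (4 * j) * A) * d1 -
        Th3 ^ (4 * j + 1) * A0 * de - Th3 ^ (4 * j + 1) * A1 * dt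
  -- congruences modulo 2
  obtain ⟨z1, hz1⟩ := Th3_mod
  obtain ⟨z2, hz2⟩ := FF_mod
  have hTim : ∃ z, Ti = 1 + 2 * z := ⟨-(z1 * Ti), by
    have : Th3 * Ti = Ti + 2 * (z1 * Ti) := by
      conv_lhs => rw [hz1]
      ring
    rw [hTi] at this
    linear_combination -this⟩
  obtain ⟨z3, hz3⟩ := hTim
  have hpm : ∀ n : ℕ, ∃ z, Ti ^ n = 1 + 2 * z := by
    intro n
    induction n with
    | zero => exact ⟨0, by simp⟩
    | succ n ih =>
      obtain ⟨z, hz⟩ := ih
      refine ⟨z + z3 + 2 * z * z3, ?_⟩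
      rw [pow_succ, hz]
      conv_lhs => rw [hz3]
      ring
  have htm : ∃ z, t = HH + 2 * z := by
    obtain ⟨z, hz⟩ := hpm 4
    refine ⟨z2 + HH * z + 2 * z2 * z, ?_⟩
    rw [ht, hz2, hz]
    ring
  have hrr : r ^ 2 - r + 4 * t = 0 := by
    have h4 : (4 : PowerSeries ℤ) ≠ 0 := by
      have c : (4 : PowerSeries ℤ) = PowerSeries.C 4 := rfl
      rw [c]
      intro h
      have := congrArg (PowerSeries.coeff 0) h
      rw [PowerSeries.coeff_zero_C, map_zero] at this
      norm_num at this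
    apply mul_left_cancel₀ h4
    rw [mul_zero, hr, ht]
    have e1 : 4 * Vq Th3 ^ 4 = (Th3 ^ 2 + Th4 ^ 2) ^ 2 := by rw [← r2]; ring
    have h22 : Th3 ^ 2 * Ti ^ 2 = 1 := by rw [← mul_pow, hTi, one_pow]
    linear_combination Ti ^ 4 * e1 - 2 * Ti ^ 2 * r2 - Ti ^ 4 * r1 +
      (2 * Ti ^ 2 * (Th3 ^ 2 + Th4 ^ 2)) * h22
  refine ⟨t, r, e, ?_, ?_, ?_, ?_, ?_, ?_, ?_⟩
  · rw [ht, PowerSeries.coeff_zero_eq_constantCoeff_apply, map_mul]
    unfold FF
    rw [map_mul, PowerSeries.constantCoeff_X, zero_mul, zero_mul]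
  · rw [ht]
    unfold FF
    rw [mul_assoc, show (1 : ℕ) = 0 + 1 from rfl, PowerSeries.coeff_succ_X_mul,
      PowerSeries.coeff_zero_eq_constantCoeff_apply, map_mul, map_pow, map_pow, cc_UU, cTi]
    norm_num
  · exact hrr
  · refine ⟨t * (Wi ^ 2 * Th3 ^ 2), ?_⟩
    have e1 : r * (Wi ^ 2 * Th3 ^ 2) = 1 := by
      have e2 : r * (Wi ^ 2 * Th3 ^ 2) = (Vq Th3 * Wi) ^ 2 * (Th3 * Ti) ^ 2 := by rw [hr]; ring
      rw [e2, hWi, hTi]
      ring
    linear_combination (r - 1) * e1 - (Wi ^ 2 * Th3 ^ 2) * hrr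
  · rw [ht, Vq_mul, hVpow, hr]
    have e1 : Vq Th3 ^ 4 * Vq Ti ^ 4 = 1 := by rw [← mul_pow, hVTi, one_pow]
    linear_combination (Vq FF * Vq Th3 ^ 4 * Ti ^ 8) * e1 + Ti ^ 8 * r3
  · rw [hr, he, Vq_mul, hVpow, ht]
    have e1 : Vq Th3 ^ 4 * Vq Ti ^ 4 = 1 := by rw [← mul_pow, hVTi, one_pow]
    linear_combination (-2 * Ti ^ 4 * Vq (Vq P2)) * e1 - Ti ^ 4 * r6 - hT4
  · intro j hj
    obtain ⟨z, hz⟩ := der_mod j hj
    obtain ⟨z4, hz4⟩ := hpm (4 * j + 1)
    obtain ⟨z5, hz5⟩ := htm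
    have h5 : Th3 ^ (4 * j + 1) * Ti ^ (4 * j + 1) = 1 := by rw [← mul_pow, hTi, one_pow]
    have e1 := key j
    rw [hz] at e1
    refine ⟨-z5 + z + HH * z4 + 2 * z * z4, ?_⟩
    have e2 : (12 : PowerSeries ℤ) ^ j = PowerSeries.C (12 ^ j) := by
      rw [map_pow]
      rfl
    rw [e2]
    have e3 : MvPolynomial.aeval ![e, t] (RJ j) =
        Ti ^ (4 * j + 1) * (Th3 ^ (4 * j + 1) * MvPolynomial.aeval ![e, t] (RJ j)) := by
      linear_combination (-MvPolynomial.aeval ![e, t] (RJ j)) * h5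
    rw [e3, e1, hz4]
    linear_combination (-2 * PowerSeries.C (12 ^ j)) * hz5

end

end Pool.Agent.Lib.MP_7c08ba_nt.CN
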