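import Pool.Agent.Lib.MP_7c08ba_nt.CN.StP

set_option autoImplicit false

/-!
Project CN: the derivative of the polynomials `RJ` with respect to the first variable.
-/

namespace Pool.Agent.Lib.MP_7c08ba_nt.CN

namespace ReAux

open MvPolynomial

/-- Partial derivatives commute. -/
theorem comm {σ R : Type} [CommRing R] (i j : σ) (p : MvPolynomial σ R) :
    pderiv i (pderiv j p) = pderiv j (pderiv i p) := by
  have h : ⁅pderiv (R := R) i, pderiv (R := R) j⁆ = 0 := by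
    refine MvPolynomial.derivation_ext fun k => ?_
    classical
    rw [Derivation.commutator_apply, pderiv_X, pderiv_X, Derivation.coe_zero, Pi.zero_apply]
    rcases eq_or_ne k i with rfl | hi <;> rcases eq_or_ne k j with rfl | hj <;> simp [*]
  have h1 := DFunLike.congr_fun h p
  rw [Derivation.commutator_apply, Derivation.coe_zero, Pi.zero_apply, sub_eq_zero] at h1
  exact h1

theorem d_X0 : pderiv 0 (X 0 : MvPolynomial (Fin 2) ℤ) = 1 := pderiv_X_self 0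

theorem d_X1 : pderiv 0 (X 1 : MvPolynomial (Fin 2) ℤ) = 0 :=
  pderiv_X_of_ne (by decide)

theorem dadd (a b : MvPolynomial (Fin 2) ℤ) : pderiv 0 (a + b) = pderiv 0 a + pderiv 0 b :=
  map_add _ a b

theorem dsub (a b : MvPolynomial (Fin 2) ℤ) : pderiv 0 (a - b) = pderiv 0 a - pderiv 0 b :=
  map_sub _ a b

theorem d_nat (n : ℕ) : pderiv 0 ((n : ℕ) : MvPolynomial (Fin 2) ℤ) = 0 :=
  Derivation.map_natCast _ n

theorem d2 : pderiv 0 (2 : MvPolynomial (Fin 2) ℤ) = 0 := d_nat 2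
theorem d4 : pderiv 0 (4 : MvPolynomial (Fin 2) ℤ) = 0 := d_nat 4
theorem d12 : pderiv 0 (12 : MvPolynomial (Fin 2) ℤ) = 0 := d_nat 12
theorem d16 : pderiv 0 (16 : MvPolynomial (Fin 2) ℤ) = 0 := d_nat 16
theorem d32 : pderiv 0 (32 : MvPolynomial (Fin 2) ℤ) = 0 := d_nat 32
theorem d256 : pderiv 0 (256 : MvPolynomial (Fin 2) ℤ) = 0 := d_nat 256

end ReAux

open ReAux MvPolynomial in
theorem stRe : StRe := by
  intro j
  induction j with
  | zero =>
    have h : RJ (0 + 1) = C (4 * ((0 : ℕ) : ℤ) + 1) * (X 0 - 1 + 32 * X 1) * RJ 0 +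
      12 * X 1 * (1 - 16 * X 1) * pderiv 1 (RJ 0) +
      (2 * (X 0 ^ 2 - 1 + 16 * X 1 - 256 * X 1 ^ 2) - 4 * X 0 * (X 0 - 1 + 32 * X 1)) *
        pderiv 0 (RJ 0) := rfl
    have h0 : RJ 0 = 1 := rfl
    rw [h, h0]
    simp only [pderiv_one, mul_zero, add_zero, mul_one, map_add, map_sub, pderiv_mul, pderiv_C,
      d_X0, d_X1, d32, zero_mul, sub_zero, zero_add]
    simp
  | succ j ih =>
    have h : RJ (j + 1 + 1) = C (4 * ((j + 1 : ℕ) : ℤ) + 1) * (X 0 - 1 + 32 * X 1) *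
        RJ (j + 1) + 12 * X 1 * (1 - 16 * X 1) * pderiv 1 (RJ (j + 1)) +
      (2 * (X 0 ^ 2 - 1 + 16 * X 1 - 256 * X 1 ^ 2) - 4 * X 0 * (X 0 - 1 + 32 * X 1)) *
        pderiv 0 (RJ (j + 1)) := rfl
    have h' : RJ (j + 1) = C (4 * (j : ℤ) + 1) * (X 0 - 1 + 32 * X 1) *
        RJ j + 12 * X 1 * (1 - 16 * X 1) * pderiv 1 (RJ j) +
      (2 * (X 0 ^ 2 - 1 + 16 * X 1 - 256 * X 1 ^ 2) - 4 * X 0 * (X 0 - 1 + 32 * X 1)) *
        pderiv 0 (RJ j) := rfl
    have h01 : pderiv 0 (pderiv 1 (RJ (j + 1))) =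
        C (((j : ℤ) + 1) * (2 * j + 1)) * pderiv 1 (RJ j) := by
      rw [comm 0 1, ih, pderiv_C_mul]
    rw [h]
    simp only [dadd, dsub, pderiv_mul, pderiv_pow, pderiv_C, pderiv_one, d_X0, d_X1, h01, ih, d2, d4, d12, d16, d32, d256]
    generalize RJ (j + 1) = R1 at *
    generalize pderiv 0 (RJ j) = P0 at *
    generalize pderiv 1 (RJ j) = P1 at *
    simp only [map_add, map_mul, map_one, map_ofNat, map_natCast, Nat.cast_add, Nat.cast_one]
      at h' ⊢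
    linear_combination (-(((j : MvPolynomial (Fin 2) ℤ) + 1) * (2 * j + 1))) * h'

end Pool.Agent.Lib.MP_7c08ba_nt.CN
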