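import Pool.Agent.Lib.MP_7c08ba_nt.CN.StP
import Pool.Agent.Lib.MP_7c08ba_nt.RZ.C.RamQ

set_option autoImplicit false

/-!
Module `RelT` of project CN: (Q3) relations between the power series.
-/

namespace Pool.Agent.Lib.MP_7c08ba_nt.CN

open UpperHalfPlane ModularForm EisensteinSeries RZC

namespace RelTAux

/-- `f` is given by the power series `g` with integral coefficients -/
def HZ (f : ℂ → ℂ) (g : PowerSeries ℤ) : Prop := HasExp f (toC g)

theorem HZ.add (hE : StExp) {f f' : ℂ → ℂ} {g g' : PowerSeries ℤ} (h : HZ f g) (h' : HZ f' g') :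
    HZ (fun τ => f τ + f' τ) (g + g') := by
  have h1 := (hE.1 f f' _ _ h h').1
  unfold HZ
  rwa [show toC (g + g') = toC g + toC g' from map_add _ _ _]

theorem HZ.mul (hE : StExp) {f f' : ℂ → ℂ} {g g' : PowerSeries ℤ} (h : HZ f g) (h' : HZ f' g') :
    HZ (fun τ => f τ * f' τ) (g * g') := by
  have h1 := (hE.1 f f' _ _ h h').2
  unfold HZ
  rwa [show toC (g * g') = toC g * toC g' from map_mul _ _ _]

theorem HZ.int (hE : StExp) (c : ℤ) {f : ℂ → ℂ} {g : PowerSeries ℤ} (h : HZ f g) :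
    HZ (fun τ => (c : ℂ) * f τ) ((c : PowerSeries ℤ) * g) := by
  have h1 := hE.2.1 (c : ℂ) f _ h
  unfold HZ
  have h2 : toC ((c : PowerSeries ℤ) * g) = PowerSeries.C (c : ℂ) * toC g := by
    unfold toC
    rw [map_mul, map_intCast, map_intCast]
  rwa [h2]

theorem HZ.pow (hE : StExp) {f : ℂ → ℂ} {g : PowerSeries ℤ} (h : HZ f g) (n : ℕ) :
    HZ (fun τ => f τ ^ (n + 1)) (g ^ (n + 1)) := by
  induction n with
  | zero => simpa using h
  | succ n ih =>
    have h1 := ih.mul hE h
    simpa only [pow_succ] using h1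

theorem HZ.V (hE : StExp) {f : ℂ → ℂ} {g : PowerSeries ℤ} (h : HZ f g) :
    HZ (fun τ => f (2 * τ)) (Vq g) := by
  have h1 := hE.2.2.2.1 f _ h
  unfold HZ
  have h2 : toC (Vq g) = Vq (toC g) := by
    ext n
    unfold toC Vq
    rw [PowerSeries.coeff_map, PowerSeries.coeff_mk, PowerSeries.coeff_mk]
    split_ifs
    · rw [PowerSeries.coeff_map]
    · rw [map_zero]
  rwa [h2]

theorem HZ.der (hE : StExp) {f f' : ℂ → ℂ} {g : PowerSeries ℤ} (h : HZ f g)
    (hf : ∀ τ : ℂ, 0 < τ.im → HasDerivAt f (Real.pi * Complex.I * f' τ) τ) : HZ f' (th g) := by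
  have h1 := hE.2.2.2.2 f _ h f' hf
  unfold HZ
  rwa [← RamQ.th_toC]

theorem HZ.eq (hE : StExp) {f f' : ℂ → ℂ} {g g' : PowerSeries ℤ} (h : HZ f g) (h' : HZ f' g')
    (hf : ∀ τ : ℂ, 0 < τ.im → f τ = f' τ) : g = g' := by
  apply RamQ.toC_inj
  refine hE.2.2.1 f _ _ h fun τ hτ => ?_
  have h1 := h' τ hτ
  rwa [← hf τ hτ] at h1

theorem cast_C (c : ℤ) : (c : PowerSeries ℤ) = PowerSeries.C c := by
  simp

theorem Vq_int (c : ℤ) (g : PowerSeries ℤ) :
    Vq ((c : PowerSeries ℤ) * g) = (c : PowerSeries ℤ) * Vq g := by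
  rw [cast_C]
  ext n
  unfold Vq
  rw [PowerSeries.coeff_C_mul, PowerSeries.coeff_mk, PowerSeries.coeff_mk]
  split_ifs
  · rw [PowerSeries.coeff_C_mul]
  · rw [mul_zero]

theorem th_int (c : ℤ) (g : PowerSeries ℤ) :
    th ((c : PowerSeries ℤ) * g) = (c : PowerSeries ℤ) * th g := by
  rw [cast_C, RamQ.th_C]

theorem cancel (c : ℤ) (hc : c ≠ 0) {g g' : PowerSeries ℤ}
    (h : (c : PowerSeries ℤ) * g = (c : PowerSeries ℤ) * g') : g = g' := by
  have h1 : (c : PowerSeries ℤ) ≠ 0 := by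
    rw [cast_C]
    intro h0
    exact hc (PowerSeries.C_injective (by rw [h0, map_zero]))
  exact mul_left_cancel₀ h1 h

end RelTAux

open RelTAux

/-- (Q3) relations between the power series -/
theorem stRelT (hE : StExp) (hT : StExpT) (h2 : StTh2) (h3 : StTh3) (h5 : StTh5) (h6 : StTh6) :
    StRelT := by
  obtain ⟨e3, e4, e2, -, eE2, eE4⟩ := hT
  have e3 : HZ t3 Th3 := e3
  have e4 : HZ t4 Th4 := e4
  have e2 : HZ (fun τ => t2 τ ^ 4) (((16 : ℤ) : PowerSeries ℤ) * FF) := by
    have : ((16 : ℤ) : PowerSeries ℤ) = 16 := by norm_num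
    rw [this]
    exact e2
  have eE2 : HZ (fun τ => E2 (ofComplex τ)) (Vq P2) := eE2
  have eE4 : HZ (fun τ => E₄ (ofComplex τ)) (Vq Q4) := eE4
  have hof : ∀ τ : ℂ, 0 < τ.im → ((ofComplex τ : ℍ) : ℂ) = τ := fun τ hτ => by
    rw [ofComplex_apply_of_im_pos hτ]
  have him : ∀ τ : ℂ, 0 < τ.im → 0 < (2 * τ).im := fun τ hτ => by
    rw [Complex.mul_im]
    norm_num
    exact hτ
  refine ⟨?_, ?_, ?_, ?_, ?_, ?_, ?_⟩
  · -- Jacobi
    have h := HZ.eq hE (e3.pow hE 3) ((e4.pow hE 3).add hE e2) fun τ hτ => by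
      have := (h2 τ hτ).2.2.2.2
      simp only [Nat.reduceAdd]
      rw [this]
      ring
    simpa using h
  · have h := HZ.eq hE (((e3.V hE).pow hE 1).int hE 2) ((e3.pow hE 1).add hE (e4.pow hE 1))
      fun τ hτ => by
        have a := (h2 τ hτ).1
        have b := (h2 τ hτ).2.1
        simp only [Nat.reduceAdd]
        rw [a, b]
        push_cast
        ring
    simpa using h
  · have h := HZ.eq hE (((e2.V hE).mul hE ((e3.V hE).pow hE 3)).int hE 16) (e2.pow hE 1)
      fun τ hτ => by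
        have a := (h2 τ hτ).2.2.2.1
        simp only [Nat.reduceAdd]
        have b : (t2 τ ^ 4) ^ 2 = (t2 τ ^ 2) ^ 4 := by ring
        rw [b, a]
        push_cast
        ring
    rw [Vq_int] at h
    apply cancel 256 (by norm_num)
    have c16 : ((16 : ℤ) : PowerSeries ℤ) = 16 := by norm_num
    have c256 : ((256 : ℤ) : PowerSeries ℤ) = 256 := by norm_num
    rw [c16] at h
    rw [c256]
    linear_combination h
  · have h := HZ.eq hE eE4 (((e3.pow hE 7).add hE ((e2.mul hE (e3.pow hE 3)).int hE (-1))).add hE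
      (e2.pow hE 1)) fun τ hτ => by
        have a := (h3 (ofComplex τ)).1
        rw [hof τ hτ] at a
        have b := (h2 τ hτ).2.2.2.2
        simp only [Nat.reduceAdd]
        have c : t4 τ ^ 8 = (t3 τ ^ 4 - t2 τ ^ 4) ^ 2 := by
          rw [b]
          ring
        rw [c] at a
        push_cast
        linear_combination a / 2
    have c16 : ((16 : ℤ) : PowerSeries ℤ) = 16 := by norm_num
    have c1 : ((-1 : ℤ) : PowerSeries ℤ) = -1 := by norm_num
    rw [c16, c1] at h
    linear_combination h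
  · have h0 : HZ (fun τ => 1 / 12 * (t3 τ * (E2 (ofComplex τ) + t2 τ ^ 4 - t4 τ ^ 4))) (th Th3) :=
      e3.der hE fun τ hτ => by
        have a := (h5 (ofComplex τ)).1
        rw [hof τ hτ] at a
        convert a using 1
        ring
    have h := HZ.eq hE (h0.int hE 12) (e3.mul hE ((eE2.add hE ((e3.pow hE 3).int hE (-1))).add hE
      (e2.int hE 2))) fun τ hτ => by
        have b := (h2 τ hτ).2.2.2.2
        simp only [Nat.reduceAdd]
        push_cast
        linear_combination t3 τ * b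
    have c16 : ((16 : ℤ) : PowerSeries ℤ) = 16 := by norm_num
    have c12 : ((12 : ℤ) : PowerSeries ℤ) = 12 := by norm_num
    have c2 : ((2 : ℤ) : PowerSeries ℤ) = 2 := by norm_num
    have c1 : ((-1 : ℤ) : PowerSeries ℤ) = -1 := by norm_num
    rw [c16, c1, c12, c2] at h
    linear_combination h
  · have h := HZ.eq hE ((eE2.V hE).int hE 4) (((eE2.int hE 2).add hE ((e3.pow hE 3).int hE 2)).add
      hE (e2.int hE (-1))) fun τ hτ => by
        have a := h6 (ofComplex τ) (ofComplex (2 * τ)) (by rw [hof _ (him τ hτ), hof τ hτ])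
        rw [hof τ hτ] at a
        have b := (h2 τ hτ).2.2.2.2
        simp only [Nat.reduceAdd]
        push_cast
        linear_combination a - b
    have c16 : ((16 : ℤ) : PowerSeries ℤ) = 16 := by norm_num
    have c4 : ((4 : ℤ) : PowerSeries ℤ) = 4 := by norm_num
    have c2 : ((2 : ℤ) : PowerSeries ℤ) = 2 := by norm_num
    have c1 : ((-1 : ℤ) : PowerSeries ℤ) = -1 := by norm_num
    apply cancel 2 (by norm_num)
    rw [c16, c1, c4, c2] at h
    rw [c2]
    linear_combination h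
  · have h0 : HZ (fun τ => 1 / 3 * (t2 τ ^ 4 * (E2 (ofComplex τ) + t3 τ ^ 4 + t4 τ ^ 4)))
        (th (((16 : ℤ) : PowerSeries ℤ) * FF)) :=
      e2.der hE fun τ hτ => by
        have a := (h5 (ofComplex τ)).2.2
        rw [hof τ hτ] at a
        have b := a.pow 4
        refine b.congr_deriv ?_
        push_cast
        ring
    have h := HZ.eq hE (h0.int hE 3) (e2.mul hE ((eE2.add hE ((e3.pow hE 3).int hE 2)).add hE
      (e2.int hE (-1)))) fun τ hτ => by
        have b := (h2 τ hτ).2.2.2.2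
        simp only [Nat.reduceAdd]
        push_cast
        linear_combination (-(t2 τ) ^ 4) * b
    rw [th_int] at h
    have c16 : ((16 : ℤ) : PowerSeries ℤ) = 16 := by norm_num
    have c3 : ((3 : ℤ) : PowerSeries ℤ) = 3 := by norm_num
    have c2 : ((2 : ℤ) : PowerSeries ℤ) = 2 := by norm_num
    have c1 : ((-1 : ℤ) : PowerSeries ℤ) = -1 := by norm_num
    apply cancel 16 (by norm_num)
    rw [c16, c1, c3, c2] at h
    rw [c16]
    linear_combination h

end Pool.Agent.Lib.MP_7c08ba_nt.CN
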