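import Mathlib
import Pool.Agent.Lib.MP_7c08ba_nt.CN.StP

set_option autoImplicit false

/-!
Project CN, module (R2): translation of the first variable of the polynomials `RJ j`
(`stRh : StRe → StRh`).
-/

namespace Pool.Agent.Lib.MP_7c08ba_nt.CN

namespace RhAux

/-- the derivative of `h ↦ p(e + h, t)` -/
theorem hasDerivAt_aeval (e t : ℂ) (p : MvPolynomial (Fin 2) ℤ) (h : ℂ) :
    HasDerivAt (fun h : ℂ => MvPolynomial.aeval ![e + h, t] p)
      (MvPolynomial.aeval ![e + h, t] (MvPolynomial.pderiv 0 p)) h := by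
  induction p using MvPolynomial.induction_on with
  | C a =>
    simpa using hasDerivAt_const h ((a : ℤ) : ℂ)
  | add p q hp hq =>
    have h2 := hp.fun_add hq
    simp only [map_add]
    exact h2
  | mul_X p i hp =>
    fin_cases i
    · have h1 : HasDerivAt (fun h : ℂ => e + h) 1 h := by
        simpa using (hasDerivAt_id h).const_add e
      have h2 := hp.fun_mul h1
      have h3 : MvPolynomial.aeval ![e + h, t] (MvPolynomial.pderiv 0
          (p * (MvPolynomial.X 0 : MvPolynomial (Fin 2) ℤ))) =
          MvPolynomial.aeval ![e + h, t] (MvPolynomial.pderiv 0 p) * (e + h) +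
            MvPolynomial.aeval ![e + h, t] p * 1 := by
        simp [Derivation.leibniz]
        ring
      have h4 : (fun h : ℂ => MvPolynomial.aeval ![e + h, t]
          (p * (MvPolynomial.X 0 : MvPolynomial (Fin 2) ℤ))) =
          fun h => MvPolynomial.aeval ![e + h, t] p * (e + h) := by
        funext h
        simp
      change HasDerivAt (fun h : ℂ => MvPolynomial.aeval ![e + h, t]
          (p * (MvPolynomial.X 0 : MvPolynomial (Fin 2) ℤ))) (MvPolynomial.aeval ![e + h, t]
          (MvPolynomial.pderiv 0 (p * (MvPolynomial.X 0 : MvPolynomial (Fin 2) ℤ)))) h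
      rw [h3, h4]
      exact h2
    · have h2 := hp.mul_const t
      simpa [Derivation.leibniz, add_comm, mul_comm, MvPolynomial.pderiv_X] using h2

/-- the coefficients -/
noncomputable def co (j k : ℕ) : ℂ := ((2 * j).factorial : ℂ) /
    ((k.factorial : ℂ) * 2 ^ k * ((2 * j - 2 * k).factorial : ℂ))

theorem co_succ (j k : ℕ) : co (j + 1) (k + 1) * ((k : ℂ) + 1) =
    (((j : ℂ) + 1) * (2 * j + 1)) * co j k := by
  have h1 : 2 * (j + 1) - 2 * (k + 1) = 2 * j - 2 * k := by omega
  have h2 : 2 * (j + 1) = (2 * j + 1) + 1 := by ring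
  unfold co
  rw [h1, h2, Nat.factorial_succ, Nat.factorial_succ, Nat.factorial_succ]
  have h3 : ((k.factorial : ℕ) : ℂ) ≠ 0 := by exact_mod_cast k.factorial_ne_zero
  have h4 : (((2 * j - 2 * k).factorial : ℕ) : ℂ) ≠ 0 := by
    exact_mod_cast (2 * j - 2 * k).factorial_ne_zero
  have h5 : (k : ℂ) + 1 ≠ 0 := by exact_mod_cast k.succ_ne_zero
  push_cast
  field_simp
  ring

theorem main (hR : StRe) (e t : ℂ) : ∀ (j : ℕ) (h : ℂ),
    MvPolynomial.aeval ![e + h, t] (RJ j) = ∑ k ∈ Finset.range (j + 1),
      co j k * h ^ k * MvPolynomial.aeval ![e, t] (RJ (j - k)) := by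
  intro j
  induction j with
  | zero =>
    intro h
    simp [co, RJ]
  | succ j ih =>
    have hd : ∀ h : ℂ, HasDerivAt (fun h : ℂ => MvPolynomial.aeval ![e + h, t] (RJ (j + 1)) -
        ∑ k ∈ Finset.range (j + 1 + 1),
          co (j + 1) k * h ^ k * MvPolynomial.aeval ![e, t] (RJ (j + 1 - k))) 0 h := by
      intro h
      have h1 := hasDerivAt_aeval e t (RJ (j + 1)) h
      rw [hR j, map_mul, ih h] at h1
      have h2 : HasDerivAt (fun h : ℂ => ∑ k ∈ Finset.range (j + 1 + 1),
          co (j + 1) k * h ^ k * MvPolynomial.aeval ![e, t] (RJ (j + 1 - k)))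
          (∑ k ∈ Finset.range (j + 1 + 1), co (j + 1) k * ((k : ℂ) * h ^ (k - 1)) *
            MvPolynomial.aeval ![e, t] (RJ (j + 1 - k))) h := by
        apply HasDerivAt.fun_sum
        intro k _
        exact ((hasDerivAt_pow k h).const_mul _).mul_const _
      have h3 := h1.fun_sub h2
      refine h3.congr_deriv ?_
      rw [Finset.sum_range_succ' _ (j + 1), Finset.mul_sum]
      simp only [Nat.cast_zero, zero_mul, mul_zero, add_zero, Nat.add_sub_cancel,
        Nat.add_sub_add_right]
      rw [sub_eq_zero]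
      apply Finset.sum_congr rfl
      intro k _
      have h4 := co_succ j k
      have h5 : (MvPolynomial.aeval ![e + h, t]) (MvPolynomial.C (((j : ℤ) + 1) * (2 * j + 1)) :
          MvPolynomial (Fin 2) ℤ) = ((j : ℂ) + 1) * (2 * j + 1) := by
        simp
      rw [h5]
      push_cast
      linear_combination (-(h ^ k * MvPolynomial.aeval ![e, t] (RJ (j - k)))) * h4
    intro h
    have h6 := is_const_of_deriv_eq_zero (fun x => (hd x).differentiableAt)
      (fun x => (hd x).deriv) h 0
    have h7 : MvPolynomial.aeval ![e + (0 : ℂ), t] (RJ (j + 1)) -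
        ∑ k ∈ Finset.range (j + 1 + 1),
          co (j + 1) k * (0 : ℂ) ^ k * MvPolynomial.aeval ![e, t] (RJ (j + 1 - k)) = 0 := by
      rw [Finset.sum_range_succ']
      have h8 : ((2 * (j + 1)).factorial : ℂ) ≠ 0 := by
        exact_mod_cast (2 * (j + 1)).factorial_ne_zero
      simp [co, div_self h8]
    exact sub_eq_zero.1 (h6.trans h7)

end RhAux

/-- (R2) translation of the first variable -/
theorem stRh (hR : StRe) : StRh := by
  intro j e h t
  exact RhAux.main hR e t j h

end Pool.Agent.Lib.MP_7c08ba_nt.CN
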