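import Mathlib
import Pool.Agent.Lib.MP_7c08ba_nt.CN.StP

set_option autoImplicit false

/-!
Project CN, module T1: transformation formulas of the theta constants.
-/

namespace Pool.Agent.Lib.MP_7c08ba_nt.CN

namespace Th1Aux

open Complex

theorem exp_pi_int (m : ℤ) : Complex.exp (Real.pi * Complex.I * (m : ℂ)) = (-1 : ℂ) ^ m := by
  rw [mul_comm, Complex.exp_int_mul, Complex.exp_pi_mul_I]

theorem neg_one_sq (m : ℤ) : (-1 : ℂ) ^ (m * m) = (-1 : ℂ) ^ m := by
  rcases Int.even_or_odd m with h | h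
  · rw [h.neg_one_zpow, (h.mul_left m).neg_one_zpow]
  · rw [h.neg_one_zpow, (h.mul h).neg_one_zpow]

theorem exp_sq (m : ℤ) : Complex.exp (Real.pi * Complex.I * (m : ℂ) ^ 2) = (-1 : ℂ) ^ m := by
  rw [← neg_one_sq, ← exp_pi_int]
  congr 1
  push_cast
  ring

theorem t3_eq (τ : ℂ) : t3 τ = jacobiTheta₂ 0 τ := by
  refine tsum_congr fun m => ?_
  rw [jacobiTheta₂_term]
  congr 1
  ring

theorem t4_eq (τ : ℂ) : t4 τ = jacobiTheta₂ (1 / 2) τ := by
  refine tsum_congr fun m => ?_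
  rw [jacobiTheta₂_term, ← exp_pi_int, ← Complex.exp_add]
  congr 1
  ring

theorem t2_eq (τ : ℂ) : t2 τ = Complex.exp (Real.pi * Complex.I * τ / 4) *
    jacobiTheta₂ (τ / 2) τ := by
  rw [jacobiTheta₂, ← tsum_mul_left]
  refine tsum_congr fun m => ?_
  rw [jacobiTheta₂_term, ← Complex.exp_add]
  congr 1
  ring

theorem sq_half {x : ℂ} : (x ^ (1 / 2 : ℂ)) ^ 2 = x := by
  rw [← Complex.cpow_nat_mul]
  norm_num

/-- the first two formulas for `S` -/
theorem S_aux {τ : ℂ} (hτ : 0 < τ.im) :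
    t3 (-1 / τ) ^ 2 = -Complex.I * τ * t3 τ ^ 2 ∧
    t4 (-1 / τ) ^ 2 = -Complex.I * τ * t2 τ ^ 2 := by
  have h0 : τ ≠ 0 := by
    rintro rfl
    simp at hτ
  have h1 : -Complex.I * τ ≠ 0 := mul_ne_zero (neg_ne_zero.2 Complex.I_ne_zero) h0
  have h2 : (-Complex.I * τ) ^ (1 / 2 : ℂ) ≠ 0 := by
    rw [Ne, Complex.cpow_eq_zero_iff]
    exact fun h => h1 h.1
  have h3 : t3 (-1 / τ) = (-Complex.I * τ) ^ (1 / 2 : ℂ) * t3 τ := by
    rw [t3_eq, t3_eq, jacobiTheta₂_functional_equation 0 τ]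
    simp only [zero_div, ne_eq, OfNat.ofNat_ne_zero, not_false_eq_true, zero_pow, mul_zero,
      Complex.exp_zero, mul_one]
    field_simp
  have h4 : t4 (-1 / τ) = (-Complex.I * τ) ^ (1 / 2 : ℂ) * t2 τ := by
    rw [t4_eq, t2_eq, jacobiTheta₂_functional_equation (τ / 2) τ]
    have e1 : τ / 2 / τ = 1 / 2 := by field_simp
    have e2 : Complex.exp (Real.pi * Complex.I * τ / 4) *
        Complex.exp (-Real.pi * Complex.I * (τ / 2) ^ 2 / τ) = 1 := by
      rw [← Complex.exp_add]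
      have : Real.pi * Complex.I * τ / 4 + -Real.pi * Complex.I * (τ / 2) ^ 2 / τ = 0 := by
        field_simp
        ring
      rw [this, Complex.exp_zero]
    rw [e1]
    calc jacobiTheta₂ (1 / 2) (-1 / τ)
        = (Complex.exp (Real.pi * Complex.I * τ / 4) *
            Complex.exp (-Real.pi * Complex.I * (τ / 2) ^ 2 / τ)) *
            ((-Complex.I * τ) ^ (1 / 2 : ℂ) * (1 / (-Complex.I * τ) ^ (1 / 2 : ℂ))) *
            jacobiTheta₂ (1 / 2) (-1 / τ) := by
          rw [e2, mul_one_div_cancel h2, one_mul, one_mul]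
      _ = _ := by ring
  rw [h3, h4, mul_pow, mul_pow, sq_half]
  exact ⟨rfl, rfl⟩

end Th1Aux

open Th1Aux in
theorem stTh1 : StTh1 := by
  intro τ hτ
  have h0 : τ ≠ 0 := by
    rintro rfl
    simp at hτ
  refine ⟨?_, ?_, ?_, (S_aux hτ).1, (S_aux hτ).2, ?_⟩
  · refine tsum_congr fun m => ?_
    rw [← exp_sq, ← Complex.exp_add]
    congr 1
    ring
  · refine tsum_congr fun m => ?_
    have h1 : Complex.exp (Real.pi * Complex.I * (m : ℂ) ^ 2 * (τ + 1)) =
        Complex.exp (Real.pi * Complex.I * (m : ℂ) ^ 2) *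
          Complex.exp (Real.pi * Complex.I * (m : ℂ) ^ 2 * τ) := by
      rw [← Complex.exp_add]
      congr 1
      ring
    rw [h1, exp_sq, ← mul_assoc]
    have h2 : (-1 : ℂ) ^ m * (-1 : ℂ) ^ m = 1 := by
      rw [← mul_zpow]
      norm_num
    rw [h2, one_mul]
  · rw [t2, t2, ← tsum_mul_left]
    refine tsum_congr fun m => ?_
    have h1 : Complex.exp (Real.pi * Complex.I * ((m * (m + 1) : ℤ) : ℂ)) = 1 := by
      rw [exp_pi_int]
      exact (Int.even_mul_succ_self m).neg_one_zpow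
    have h2 : Real.pi * Complex.I * ((m : ℂ) + 1 / 2) ^ 2 * (τ + 1) =
        (Real.pi * Complex.I / 4 + Real.pi * Complex.I * ((m : ℂ) + 1 / 2) ^ 2 * τ) +
          Real.pi * Complex.I * ((m * (m + 1) : ℤ) : ℂ) := by
      push_cast
      ring
    rw [h2, Complex.exp_add, h1, mul_one, Complex.exp_add]
  · have him : 0 < (-1 / τ).im := by
      rw [neg_div, one_div, Complex.neg_im, Complex.inv_im, neg_div, neg_neg]
      exact div_pos hτ (Complex.normSq_pos.2 h0)
    have h1 := (S_aux him).2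
    have h2 : -1 / (-1 / τ) = τ := by field_simp
    rw [h2] at h1
    rw [h1]
    generalize t2 (-1 / τ) = x
    have h3 : -Complex.I * τ * (-Complex.I * (-1 / τ) * x ^ 2) =
        -(Complex.I * Complex.I) * (τ / τ) * x ^ 2 := by ring
    rw [h3, Complex.I_mul_I, div_self h0, neg_neg, one_mul, one_mul]

end Pool.Agent.Lib.MP_7c08ba_nt.CN
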