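import Mathlib
import Pool.Agent.Lib.MP_7c08ba_nt.CN.StP

set_option autoImplicit false

/-!
Project CN, module T2: duplication formulas of the theta constants and the identity of Jacobi.
-/

namespace Pool.Agent.Lib.MP_7c08ba_nt.CN

namespace Th2Aux

open Complex

/-- The pairs of integers by the parity of the sum. -/
def prt : (ℤ × ℤ) ⊕ (ℤ × ℤ) ≃ ℤ × ℤ where
  toFun := Sum.elim (fun p => (p.1 + p.2, p.1 - p.2)) (fun p => (p.1 + p.2 + 1, p.1 - p.2))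
  invFun q := if (q.1 + q.2) % 2 = 0 then Sum.inl ((q.1 + q.2) / 2, (q.1 - q.2) / 2)
    else Sum.inr ((q.1 + q.2 - 1) / 2, (q.1 - q.2 - 1) / 2)
  left_inv p := by
    rcases p with ⟨x, y⟩ | ⟨x, y⟩
    · have h : (x + y + (x - y)) % 2 = 0 := by omega
      simp only [Sum.elim_inl, h, if_true, Sum.inl.injEq, Prod.mk.injEq]
      omega
    · have h : ¬ (x + y + 1 + (x - y)) % 2 = 0 := by omega
      simp only [Sum.elim_inr, h, if_false, Sum.inr.injEq, Prod.mk.injEq]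
      omega
  right_inv q := by
    rcases q with ⟨m, n⟩
    by_cases h : (m + n) % 2 = 0
    · simp only [h, if_true, Sum.elim_inl, Prod.mk.injEq]
      omega
    · simp only [h, if_false, Sum.elim_inr, Prod.mk.injEq]
      omega

theorem split {F : ℤ × ℤ → ℂ} {a b : ℂ}
    (h1 : HasSum (fun p : ℤ × ℤ => F (p.1 + p.2, p.1 - p.2)) a)
    (h2 : HasSum (fun p : ℤ × ℤ => F (p.1 + p.2 + 1, p.1 - p.2)) b) : HasSum F (a + b) := by
  rw [← prt.hasSum_iff]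
  exact HasSum.sum h1 h2

theorem mulSum {f g : ℤ → ℂ} {a b : ℂ} (hf : HasSum f a) (hg : HasSum g b) :
    HasSum (fun p : ℤ × ℤ => f p.1 * g p.2) (a * b) :=
  hf.mul hg (summable_mul_of_summable_norm hf.summable.norm hg.summable.norm)

theorem hs3 {τ : ℂ} (hτ : 0 < τ.im) :
    HasSum (fun m : ℤ => Complex.exp (Real.pi * Complex.I * (m : ℂ) ^ 2 * τ)) (t3 τ) := by
  have h : (fun m : ℤ => Complex.exp (Real.pi * Complex.I * (m : ℂ) ^ 2 * τ)) =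
      fun m => jacobiTheta₂_term m 0 τ := by
    funext m
    rw [jacobiTheta₂_term]
    congr 1
    ring
  have h2 : Summable (fun m : ℤ => Complex.exp (Real.pi * Complex.I * (m : ℂ) ^ 2 * τ)) := by
    rw [h]
    exact (summable_jacobiTheta₂_term_iff 0 τ).2 hτ
  exact h2.hasSum

theorem exp_pi_int (m : ℤ) : Complex.exp (Real.pi * Complex.I * (m : ℂ)) = (-1 : ℂ) ^ m := by
  rw [mul_comm, Complex.exp_int_mul, Complex.exp_pi_mul_I]

theorem hs4 {τ : ℂ} (hτ : 0 < τ.im) :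
    HasSum (fun m : ℤ => (-1 : ℂ) ^ m * Complex.exp (Real.pi * Complex.I * (m : ℂ) ^ 2 * τ))
      (t4 τ) := by
  have h : (fun m : ℤ => (-1 : ℂ) ^ m *
      Complex.exp (Real.pi * Complex.I * (m : ℂ) ^ 2 * τ)) =
      fun m => jacobiTheta₂_term m (1 / 2) τ := by
    funext m
    rw [jacobiTheta₂_term, ← exp_pi_int, ← Complex.exp_add]
    congr 1
    ring
  have h2 : Summable (fun m : ℤ => (-1 : ℂ) ^ m *
      Complex.exp (Real.pi * Complex.I * (m : ℂ) ^ 2 * τ)) := by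
    rw [h]
    exact (summable_jacobiTheta₂_term_iff (1 / 2) τ).2 hτ
  exact h2.hasSum

theorem hs2 {τ : ℂ} (hτ : 0 < τ.im) :
    HasSum (fun m : ℤ => Complex.exp (Real.pi * Complex.I * ((m : ℂ) + 1 / 2) ^ 2 * τ))
      (t2 τ) := by
  have h : (fun m : ℤ => Complex.exp (Real.pi * Complex.I * ((m : ℂ) + 1 / 2) ^ 2 * τ)) =
      fun m => Complex.exp (Real.pi * Complex.I * τ / 4) * jacobiTheta₂_term m (τ / 2) τ := by
    funext m
    rw [jacobiTheta₂_term, ← Complex.exp_add]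
    congr 1
    ring
  have h2 : Summable (fun m : ℤ =>
      Complex.exp (Real.pi * Complex.I * ((m : ℂ) + 1 / 2) ^ 2 * τ)) := by
    rw [h]
    exact ((summable_jacobiTheta₂_term_iff (τ / 2) τ).2 hτ).mul_left _
  exact h2.hasSum

theorem sgn_mul (x : ℤ) : (-1 : ℂ) ^ x * (-1 : ℂ) ^ x = 1 := by
  rw [← mul_zpow]
  norm_num

theorem sgn_add (x y : ℤ) : (-1 : ℂ) ^ (x + y) = (-1 : ℂ) ^ x * (-1 : ℂ) ^ y :=
  zpow_add₀ (by norm_num) x y

theorem sgn_sub (x y : ℤ) : (-1 : ℂ) ^ (x - y) = (-1 : ℂ) ^ x * (-1 : ℂ) ^ y := by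
  rw [zpow_sub₀ (by norm_num), div_eq_iff (zpow_ne_zero _ (by norm_num)), mul_assoc, sgn_mul,
    mul_one]

theorem sgn_one (x : ℤ) : (-1 : ℂ) ^ (x + 1) = -(-1 : ℂ) ^ x := by
  rw [sgn_add, zpow_one, mul_neg_one]

/-- the exponentials -/
theorem ex1 (x y : ℤ) (τ : ℂ) :
    Complex.exp (Real.pi * Complex.I * ((x + y : ℤ) : ℂ) ^ 2 * τ) *
      Complex.exp (Real.pi * Complex.I * ((x - y : ℤ) : ℂ) ^ 2 * τ) =
    Complex.exp (Real.pi * Complex.I * (x : ℂ) ^ 2 * (2 * τ)) *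
      Complex.exp (Real.pi * Complex.I * (y : ℂ) ^ 2 * (2 * τ)) := by
  rw [← Complex.exp_add, ← Complex.exp_add]
  congr 1
  push_cast
  ring

theorem ex2 (x y : ℤ) (τ : ℂ) :
    Complex.exp (Real.pi * Complex.I * ((x + y + 1 : ℤ) : ℂ) ^ 2 * τ) *
      Complex.exp (Real.pi * Complex.I * ((x - y : ℤ) : ℂ) ^ 2 * τ) =
    Complex.exp (Real.pi * Complex.I * ((x : ℂ) + 1 / 2) ^ 2 * (2 * τ)) *
      Complex.exp (Real.pi * Complex.I * ((y : ℂ) + 1 / 2) ^ 2 * (2 * τ)) := by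
  rw [← Complex.exp_add, ← Complex.exp_add]
  congr 1
  push_cast
  ring

theorem ex3 (x y : ℤ) (τ : ℂ) :
    Complex.exp (Real.pi * Complex.I * (((x + y : ℤ) : ℂ) + 1 / 2) ^ 2 * τ) *
      Complex.exp (Real.pi * Complex.I * (((x - y : ℤ) : ℂ) + 1 / 2) ^ 2 * τ) =
    Complex.exp (Real.pi * Complex.I * ((x : ℂ) + 1 / 2) ^ 2 * (2 * τ)) *
      Complex.exp (Real.pi * Complex.I * (y : ℂ) ^ 2 * (2 * τ)) := by
  rw [← Complex.exp_add, ← Complex.exp_add]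
  congr 1
  push_cast
  ring

theorem ex4 (x y : ℤ) (τ : ℂ) :
    Complex.exp (Real.pi * Complex.I * (((x + y + 1 : ℤ) : ℂ) + 1 / 2) ^ 2 * τ) *
      Complex.exp (Real.pi * Complex.I * (((x - y : ℤ) : ℂ) + 1 / 2) ^ 2 * τ) =
    Complex.exp (Real.pi * Complex.I * ((x + 1 : ℤ) : ℂ) ^ 2 * (2 * τ)) *
      Complex.exp (Real.pi * Complex.I * ((y : ℂ) + 1 / 2) ^ 2 * (2 * τ)) := by
  rw [← Complex.exp_add, ← Complex.exp_add]
  congr 1
  push_cast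
  ring

/-- the alternating sum over the half integers vanishes -/
theorem alt_zero {τ : ℂ} (hτ : 0 < τ.im) :
    HasSum (fun m : ℤ => (-1 : ℂ) ^ m *
      Complex.exp (Real.pi * Complex.I * ((m : ℂ) + 1 / 2) ^ 2 * τ)) 0 := by
  have hs : Summable (fun m : ℤ => (-1 : ℂ) ^ m *
      Complex.exp (Real.pi * Complex.I * ((m : ℂ) + 1 / 2) ^ 2 * τ)) := by
    apply Summable.of_norm
    have h := (hs2 hτ).summable.norm
    refine h.congr fun m => ?_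
    rw [norm_mul, norm_zpow, norm_neg, norm_one, one_zpow, one_mul]
  obtain ⟨a, ha⟩ := hs
  have h1 : HasSum (fun m : ℤ => -((-1 : ℂ) ^ m *
      Complex.exp (Real.pi * Complex.I * ((m : ℂ) + 1 / 2) ^ 2 * τ))) a := by
    have h2 := ((Equiv.subLeft (-1 : ℤ)).hasSum_iff).2 ha
    refine h2.congr_fun ?_ 
    intro m
    simp only [Function.comp, Equiv.subLeft_apply]
    rw [sgn_sub, zpow_neg_one, inv_neg, inv_one, neg_one_mul, neg_mul]
    congr 3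
    push_cast
    ring
  have h3 := h1.unique ha.neg
  have h4 : a = 0 := by linear_combination h3 / 2
  rw [← h4]
  exact ha

theorem pw1 (a b : ℂ) (x y : ℤ) : (-1 : ℂ) ^ (x + y) * a * ((-1 : ℂ) ^ (x - y) * b) = a * b := by
  rw [sgn_add, sgn_sub]
  calc (-1 : ℂ) ^ x * (-1 : ℂ) ^ y * a * ((-1 : ℂ) ^ x * (-1 : ℂ) ^ y * b)
      = ((-1 : ℂ) ^ x * (-1 : ℂ) ^ x) * ((-1 : ℂ) ^ y * (-1 : ℂ) ^ y) * (a * b) := by ring
    _ = a * b := by rw [sgn_mul, sgn_mul, one_mul, one_mul]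

theorem pw2 (a b : ℂ) (x y : ℤ) :
    (-1 : ℂ) ^ (x + y + 1) * a * ((-1 : ℂ) ^ (x - y) * b) = -(a * b) := by
  rw [sgn_one, neg_mul, neg_mul, pw1]

theorem pw3 (a b : ℂ) (x y : ℤ) :
    a * ((-1 : ℂ) ^ (x - y) * b) = (-1 : ℂ) ^ x * (-1 : ℂ) ^ y * (a * b) := by
  rw [sgn_sub]
  ring

theorem pw4 (a b c d : ℂ) : a * b * (c * d) = a * c * (b * d) := by ring

theorem form2a {τ : ℂ} (hτ : 0 < τ.im) :
    HasSum (fun p : ℤ × ℤ => (-1 : ℂ) ^ (p.1 + p.2) *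
      Complex.exp (Real.pi * Complex.I * ((p.1 + p.2 : ℤ) : ℂ) ^ 2 * τ) *
      ((-1 : ℂ) ^ (p.1 - p.2) *
        Complex.exp (Real.pi * Complex.I * ((p.1 - p.2 : ℤ) : ℂ) ^ 2 * τ)))
      (t3 (2 * τ) * t3 (2 * τ)) := by
  have h2τ : 0 < (2 * τ).im := by simpa using hτ
  simp only [pw1, ex1]
  have hm := mulSum (hs3 h2τ) (hs3 h2τ)
  exact hm

theorem form2b {τ : ℂ} (hτ : 0 < τ.im) :
    HasSum (fun p : ℤ × ℤ => (-1 : ℂ) ^ (p.1 + p.2 + 1) *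
      Complex.exp (Real.pi * Complex.I * ((p.1 + p.2 + 1 : ℤ) : ℂ) ^ 2 * τ) *
      ((-1 : ℂ) ^ (p.1 - p.2) *
        Complex.exp (Real.pi * Complex.I * ((p.1 - p.2 : ℤ) : ℂ) ^ 2 * τ)))
      (-(t2 (2 * τ) * t2 (2 * τ))) := by
  have h2τ : 0 < (2 * τ).im := by simpa using hτ
  simp only [pw2, ex2]
  have hm := (mulSum (hs2 h2τ) (hs2 h2τ)).neg
  exact hm

theorem form3a {τ : ℂ} (hτ : 0 < τ.im) :
    HasSum (fun p : ℤ × ℤ =>
      Complex.exp (Real.pi * Complex.I * ((p.1 + p.2 : ℤ) : ℂ) ^ 2 * τ) *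
      ((-1 : ℂ) ^ (p.1 - p.2) *
        Complex.exp (Real.pi * Complex.I * ((p.1 - p.2 : ℤ) : ℂ) ^ 2 * τ)))
      (t4 (2 * τ) * t4 (2 * τ)) := by
  have h2τ : 0 < (2 * τ).im := by simpa using hτ
  have h := mulSum (hs4 h2τ) (hs4 h2τ)
  simp only [pw3, ex1]
  convert h using 2 with p
  exact (pw4 _ _ _ _).symm

theorem form3b {τ : ℂ} (hτ : 0 < τ.im) :
    HasSum (fun p : ℤ × ℤ =>
      Complex.exp (Real.pi * Complex.I * ((p.1 + p.2 + 1 : ℤ) : ℂ) ^ 2 * τ) *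
      ((-1 : ℂ) ^ (p.1 - p.2) *
        Complex.exp (Real.pi * Complex.I * ((p.1 - p.2 : ℤ) : ℂ) ^ 2 * τ))) 0 := by
  have h2τ : 0 < (2 * τ).im := by simpa using hτ
  have h := mulSum (alt_zero h2τ) (alt_zero h2τ)
  rw [mul_zero] at h
  simp only [pw3, ex2]
  convert h using 2 with p
  exact (pw4 _ _ _ _).symm

theorem form4a {τ : ℂ} (hτ : 0 < τ.im) :
    HasSum (fun p : ℤ × ℤ =>
      Complex.exp (Real.pi * Complex.I * (((p.1 + p.2 : ℤ) : ℂ) + 1 / 2) ^ 2 * τ) *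
        Complex.exp (Real.pi * Complex.I * (((p.1 - p.2 : ℤ) : ℂ) + 1 / 2) ^ 2 * τ))
      (t2 (2 * τ) * t3 (2 * τ)) := by
  have h2τ : 0 < (2 * τ).im := by simpa using hτ
  simp only [ex3]
  have hm := mulSum (hs2 h2τ) (hs3 h2τ)
  exact hm

theorem form4b {τ : ℂ} (hτ : 0 < τ.im) :
    HasSum (fun p : ℤ × ℤ =>
      Complex.exp (Real.pi * Complex.I * (((p.1 + p.2 + 1 : ℤ) : ℂ) + 1 / 2) ^ 2 * τ) *
        Complex.exp (Real.pi * Complex.I * (((p.1 - p.2 : ℤ) : ℂ) + 1 / 2) ^ 2 * τ))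
      (t3 (2 * τ) * t2 (2 * τ)) := by
  have h2τ : 0 < (2 * τ).im := by simpa using hτ
  have h : HasSum (fun m : ℤ =>
      Complex.exp (Real.pi * Complex.I * ((m + 1 : ℤ) : ℂ) ^ 2 * (2 * τ))) (t3 (2 * τ)) :=
    ((Equiv.addRight (1 : ℤ)).hasSum_iff).2 (hs3 h2τ)
  simp only [ex4]
  have hm := mulSum h (hs2 h2τ)
  exact hm

end Th2Aux

open Th2Aux in
theorem stTh2 : StTh2 := by
  intro τ hτ
  have h2τ : 0 < (2 * τ).im := by simpa using hτ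
  have e1 : t3 τ ^ 2 = t3 (2 * τ) ^ 2 + t2 (2 * τ) ^ 2 := by
    rw [sq, sq, sq]
    have hm0 := mulSum (hs3 hτ) (hs3 hτ)
    refine hm0.unique (split ?_ ?_)
    · simp only [ex1]
      have hm := mulSum (hs3 h2τ) (hs3 h2τ)
      exact hm
    · simp only [ex2]
      have hm := mulSum (hs2 h2τ) (hs2 h2τ)
      exact hm
  have e2 : t4 τ ^ 2 = t3 (2 * τ) ^ 2 - t2 (2 * τ) ^ 2 := by
    rw [sq, sq, sq, sub_eq_add_neg]
    have hm := mulSum (hs4 hτ) (hs4 hτ)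
    exact hm.unique (split (form2a hτ) (form2b hτ))
  have e3 : t3 τ * t4 τ = t4 (2 * τ) ^ 2 := by
    rw [sq, ← add_zero (t4 (2 * τ) * t4 (2 * τ))]
    have hm := mulSum (hs3 hτ) (hs4 hτ)
    exact hm.unique (split (form3a hτ) (form3b hτ))
  have e4 : t2 τ ^ 2 = 2 * t2 (2 * τ) * t3 (2 * τ) := by
    have e : 2 * t2 (2 * τ) * t3 (2 * τ) =
        t2 (2 * τ) * t3 (2 * τ) + t3 (2 * τ) * t2 (2 * τ) := by ring
    rw [sq, e]
    have hm := mulSum (hs2 hτ) (hs2 hτ)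
    exact hm.unique (split (form4a hτ) (form4b hτ))
  refine ⟨e1, e2, e3, e4, ?_⟩
  have e5 : t3 τ ^ 4 - t4 τ ^ 4 = t2 τ ^ 4 := by
    have h1 : t3 τ ^ 4 - t4 τ ^ 4 = (t3 τ ^ 2) ^ 2 - (t4 τ ^ 2) ^ 2 := by ring
    have h2 : t2 τ ^ 4 = (t2 τ ^ 2) ^ 2 := by ring
    rw [h1, h2, e1, e2, e4]
    ring
  linear_combination e5

end Pool.Agent.Lib.MP_7c08ba_nt.CN
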