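import Pool.Agent.Lib.MP_7c08ba_nt.CN.StP
import Pool.Agent.Lib.MP_7c08ba_nt.RZ.C.Ram

set_option autoImplicit false

/-!
Project CN, module Th3: `E₄` and `E₆` in terms of theta constants.
-/

namespace Pool.Agent.Lib.MP_7c08ba_nt.CN

open UpperHalfPlane ModularForm EisensteinSeries RZC Filter
open scoped Real Manifold ComplexConjugate MatrixGroups Topology

namespace Th3Aux

/-! ### theta constants and `jacobiTheta₂` -/

theorem t3_eq (τ : ℂ) : t3 τ = jacobiTheta₂ 0 τ := by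
  unfold t3 jacobiTheta₂ jacobiTheta₂_term
  refine tsum_congr fun m => ?_
  congr 1
  ring

theorem t3_eq_one (τ : ℂ) : t3 τ = jacobiTheta τ := by
  rw [t3_eq, jacobiTheta_eq_jacobiTheta₂]

theorem exp_pi_int (m : ℤ) : Complex.exp (Real.pi * Complex.I * m) = (-1 : ℂ) ^ m := by
  rw [mul_comm ((Real.pi : ℂ) * Complex.I) (m : ℂ), Complex.exp_int_mul, Complex.exp_pi_mul_I]

theorem t4_eq (τ : ℂ) : t4 τ = jacobiTheta₂ (1 / 2) τ := by
  unfold t4 jacobiTheta₂ jacobiTheta₂_term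
  refine tsum_congr fun m => ?_
  rw [Complex.exp_add, ← exp_pi_int]
  congr 2
  ring

theorem t2_eq (τ : ℂ) :
    t2 τ = Complex.exp (Real.pi * Complex.I * τ / 4) * jacobiTheta₂ (τ / 2) τ := by
  unfold t2 jacobiTheta₂ jacobiTheta₂_term
  rw [← tsum_mul_left]
  refine tsum_congr fun m => ?_
  rw [← Complex.exp_add]
  congr 1
  ring

/-! ### differentiability -/

theorem t3_diff {τ : ℂ} (h : 0 < τ.im) : DifferentiableAt ℂ t3 τ := by
  have : t3 = jacobiTheta₂ 0 := funext t3_eq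
  rw [this]
  exact differentiableAt_jacobiTheta₂_snd 0 h

theorem t4_diff {τ : ℂ} (h : 0 < τ.im) : DifferentiableAt ℂ t4 τ := by
  have : t4 = jacobiTheta₂ (1 / 2) := funext t4_eq
  rw [this]
  exact differentiableAt_jacobiTheta₂_snd _ h

theorem t2_diff {τ : ℂ} (h : 0 < τ.im) : DifferentiableAt ℂ t2 τ := by
  have e : t2 = fun z => Complex.exp (Real.pi * Complex.I * z / 4) *
      ((fun p : ℂ × ℂ => jacobiTheta₂ p.1 p.2) ∘ (fun z : ℂ => (z / 2, z))) z := funext t2_eq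
  have hg : DifferentiableAt ℂ (fun z : ℂ => (z / 2, z)) τ := by fun_prop
  have hf : DifferentiableAt ℂ (fun p : ℂ × ℂ => jacobiTheta₂ p.1 p.2) ((fun z : ℂ => (z / 2, z)) τ) :=
    (hasFDerivAt_jacobiTheta₂ (τ / 2) h).differentiableAt
  rw [e]
  exact DifferentiableAt.mul (by fun_prop)
    (DifferentiableAt.comp (f := fun z : ℂ => (z / 2, z)) τ hf hg)

theorem mdiff_of {G : ℂ → ℂ} (h : ∀ τ : ℂ, 0 < τ.im → DifferentiableAt ℂ G τ) :
    MDiff (fun τ : ℍ => G τ) := by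
  rw [UpperHalfPlane.mdifferentiable_iff]
  intro z hz
  have hz' : 0 < z.im := hz
  refine DifferentiableAt.differentiableWithinAt ?_
  refine (h z hz').congr_of_eventuallyEq ?_
  have : {w : ℂ | 0 < w.im} ∈ 𝓝 z := (isOpen_lt continuous_const Complex.continuous_im).mem_nhds hz'
  filter_upwards [this] with w hw
  rw [Function.comp_apply, ofComplex_apply_of_im_pos hw]

/-! ### limits at infinity -/

theorem t3_lim : Tendsto (fun τ : ℍ => t3 τ) atImInfty (𝓝 1) := by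
  have h1 := isBigO_at_im_infty_jacobiTheta_sub_one
  have h2 : Tendsto (fun τ : ℂ => Real.exp (-π * τ.im)) (comap Complex.im atTop) (𝓝 0) := by
    have : Tendsto (fun y : ℝ => Real.exp (-π * y)) atTop (𝓝 0) := by
      have h3 : Tendsto (fun y : ℝ => -π * y) atTop atBot := by
        simp_rw [neg_mul]
        exact tendsto_neg_atTop_atBot.comp (tendsto_id.const_mul_atTop Real.pi_pos)
      exact Real.tendsto_exp_atBot.comp h3
    exact this.comp tendsto_comap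
  have h3 : Tendsto (fun τ : ℂ => jacobiTheta τ - 1) (comap Complex.im atTop) (𝓝 0) :=
    h1.trans_tendsto h2
  have h4 : Tendsto (fun τ : ℂ => jacobiTheta τ) (comap Complex.im atTop) (𝓝 1) := by
    simpa using h3.add_const 1
  have h5 := h4.comp tendsto_coe_atImInfty
  refine h5.congr fun τ => ?_
  rw [Function.comp_apply, ← t3_eq_one]

theorem t4_lim (h1 : StTh1) : Tendsto (fun τ : ℍ => t4 τ) atImInfty (𝓝 1) := by
  have h : Tendsto (fun τ : ℍ => (1 : ℝ) +ᵥ τ) atImInfty atImInfty := by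
    rw [atImInfty, tendsto_comap_iff]
    refine tendsto_comap.congr fun τ => ?_
    simp
  refine (t3_lim.comp h).congr fun τ => ?_
  rw [Function.comp_apply, ← (h1 τ τ.im_pos).1]
  congr 1
  rw [UpperHalfPlane.coe_vadd]
  push_cast
  ring

theorem t2_term (τ : ℂ) (m : ℤ) :
    ‖Complex.exp (Real.pi * Complex.I * ((m : ℂ) + 1 / 2) ^ 2 * τ)‖ =
      Real.exp (-(Real.pi * ((m : ℝ) + 1 / 2) ^ 2 * τ.im)) := by
  rw [Complex.norm_exp]
  congr 1
  have : (Real.pi * Complex.I * ((m : ℂ) + 1 / 2) ^ 2 * τ) =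
      ((Real.pi * ((m : ℝ) + 1 / 2) ^ 2 : ℝ) : ℂ) * (Complex.I * τ) := by
    push_cast
    ring
  rw [this, Complex.re_ofReal_mul, Complex.I_mul_re]
  ring

theorem sq_ge (m : ℤ) : (1 : ℝ) / 4 ≤ ((m : ℝ) + 1 / 2) ^ 2 := by
  have h : (0 : ℤ) ≤ m * (m + 1) := by
    rcases le_or_gt 0 m with h | h
    · exact mul_nonneg h (by omega)
    · exact mul_nonneg_of_nonpos_of_nonpos h.le (by omega)
  have h2 : (0 : ℝ) ≤ (m : ℝ) * (m + 1) := by exact_mod_cast h
  nlinarith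

theorem summable_half : Summable fun m : ℤ =>
    Real.exp (-(Real.pi * ((m : ℝ) + 1 / 2) ^ 2 * (1 / 2))) := by
  have h := (hasSum_jacobiTheta₂_term (Complex.I / 4) (τ := Complex.I / 2) (by simp)).summable.norm
  have h2 := h.mul_left (Real.exp (-(Real.pi / 8)))
  refine h2.congr fun m => ?_
  rw [norm_jacobiTheta₂_term, ← Real.exp_add]
  congr 1
  simp
  ring

theorem t2_lim : Tendsto (fun τ : ℍ => t2 τ) atImInfty (𝓝 0) := by
  set S : ℝ := ∑' m : ℤ, Real.exp (-(Real.pi * ((m : ℝ) + 1 / 2) ^ 2 * (1 / 2))) with hS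
  have key : ∀ τ : ℍ, 1 ≤ τ.im → ‖t2 τ‖ ≤ Real.exp (-(Real.pi / 8) * τ.im) * S := by
    intro τ hτ
    have hterm : ∀ m : ℤ, ‖Complex.exp (Real.pi * Complex.I * ((m : ℂ) + 1 / 2) ^ 2 * τ)‖ ≤
        Real.exp (-(Real.pi / 8) * τ.im) *
          Real.exp (-(Real.pi * ((m : ℝ) + 1 / 2) ^ 2 * (1 / 2))) := by
      intro m
      rw [t2_term, ← Real.exp_add]
      apply Real.exp_le_exp.2
      have h1 := sq_ge m
      have h2 := Real.pi_pos
      have h3 : (τ : ℂ).im = τ.im := rfl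
      rw [h3]
      have h4 : ((m : ℝ) + 1 / 2) ^ 2 * τ.im ≥ (1 / 8) * τ.im + ((m : ℝ) + 1 / 2) ^ 2 * (1 / 2) := by
        nlinarith
      nlinarith
    have hs := summable_half.mul_left (Real.exp (-(Real.pi / 8) * τ.im))
    unfold t2
    refine (norm_tsum_le_tsum_norm (Summable.of_nonneg_of_le (fun _ => norm_nonneg _) hterm hs)).trans ?_
    rw [hS, ← tsum_mul_left]
    exact (Summable.of_nonneg_of_le (fun _ => norm_nonneg _) hterm hs).tsum_le_tsum hterm hs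
  have hlim : Tendsto (fun τ : ℍ => Real.exp (-(Real.pi / 8) * τ.im) * S) atImInfty (𝓝 0) := by
    have h3 : Tendsto (fun y : ℝ => -(Real.pi / 8) * y) atTop atBot := by
      simp_rw [neg_mul]
      exact tendsto_neg_atTop_atBot.comp (tendsto_id.const_mul_atTop (by positivity))
    have h4 := (Real.tendsto_exp_atBot.comp h3).comp (tendsto_comap : Tendsto UpperHalfPlane.im atImInfty atTop)
    have h5 := h4.mul_const S
    rw [zero_mul] at h5
    exact h5
  have hev : ∀ᶠ τ : ℍ in atImInfty, 1 ≤ τ.im :=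
    (tendsto_comap : Tendsto UpperHalfPlane.im atImInfty atTop).eventually (eventually_ge_atTop 1)
  exact squeeze_zero_norm' (hev.mono key) hlim

/-! ### modular functions from S and T -/

theorem inv_of (k : ℕ) (F : ℍ → ℂ) (hS : ∀ τ : ℍ, F (ModularGroup.S • τ) = (τ : ℂ) ^ k * F τ)
    (hT : ∀ τ : ℍ, F (ModularGroup.T • τ) = F τ) (γ : SL(2, ℤ)) : F ∣[(k : ℤ)] γ = F := by
  have hmem : γ ∈ Subgroup.closure {ModularGroup.S, ModularGroup.T} := by
    rw [SpecialLinearGroup.SL2Z_generators]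
    trivial
  induction hmem using Subgroup.closure_induction with
  | mem x hx =>
    rcases hx with rfl | hx
    · funext τ
      rw [ModularForm.slash_action_eq'_iff, hS, zpow_natCast]
      simp [ModularGroup.coe_S]
    · rw [Set.mem_singleton_iff] at hx
      subst hx
      funext τ
      rw [ModularForm.slash_action_eq'_iff, hT, zpow_natCast]
      simp [ModularGroup.coe_T]
  | one => exact SlashAction.slash_one _ _
  | mul x y _ _ hx hy => rw [SlashAction.slash_mul, hx, hy]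
  | inv x _ hx =>
    conv_lhs => rw [← hx]
    rw [← SlashAction.slash_mul, mul_inv_cancel, SlashAction.slash_one]

theorem S_val {k : ℕ} (f : ModularForm 𝒮ℒ (k : ℤ)) (τ : ℍ) :
    f (ModularGroup.S • τ) = (τ : ℂ) ^ k * f τ := by
  have h := congrFun (Ram.form_inv f ModularGroup.S) τ
  rw [ModularForm.slash_action_eq'_iff, zpow_natCast] at h
  rw [h]
  simp [ModularGroup.coe_S]

theorem T_val {k : ℕ} (f : ModularForm 𝒮ℒ (k : ℤ)) (τ : ℍ) :
    f (ModularGroup.T • τ) = f τ := by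
  have h := congrFun (Ram.form_inv f ModularGroup.T) τ
  rw [ModularForm.slash_action_eq'_iff, zpow_natCast] at h
  rw [h]
  simp [ModularGroup.coe_T]

theorem coe_S_smul (τ : ℍ) : ((ModularGroup.S • τ : ℍ) : ℂ) = -1 / τ := by
  rw [UpperHalfPlane.modular_S_smul]
  simp [neg_div]

theorem coe_T_smul (τ : ℍ) : ((ModularGroup.T • τ : ℍ) : ℂ) = τ + 1 := by
  rw [UpperHalfPlane.modular_T_smul, UpperHalfPlane.coe_vadd]
  push_cast
  ring

/-! ### transformation of the fourth powers -/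

variable (h1 : StTh1)
include h1

theorem t3_S (τ : ℍ) : t3 (ModularGroup.S • τ : ℍ) ^ 4 = -(τ : ℂ) ^ 2 * t3 τ ^ 4 := by
  have h := (h1 τ τ.im_pos).2.2.2.1
  rw [coe_S_smul]
  linear_combination (t3 (-1 / τ) ^ 2 + -Complex.I * τ * t3 τ ^ 2) * h +
    (τ : ℂ) ^ 2 * t3 τ ^ 4 * Complex.I_sq

theorem t4_S (τ : ℍ) : t4 (ModularGroup.S • τ : ℍ) ^ 4 = -(τ : ℂ) ^ 2 * t2 τ ^ 4 := by
  have h := (h1 τ τ.im_pos).2.2.2.2.1
  rw [coe_S_smul]
  linear_combination (t4 (-1 / τ) ^ 2 + -Complex.I * τ * t2 τ ^ 2) * h +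
    (τ : ℂ) ^ 2 * t2 τ ^ 4 * Complex.I_sq

theorem t2_S (τ : ℍ) : t2 (ModularGroup.S • τ : ℍ) ^ 4 = -(τ : ℂ) ^ 2 * t4 τ ^ 4 := by
  have h := (h1 τ τ.im_pos).2.2.2.2.2
  rw [coe_S_smul]
  linear_combination (t2 (-1 / τ) ^ 2 + -Complex.I * τ * t4 τ ^ 2) * h +
    (τ : ℂ) ^ 2 * t4 τ ^ 4 * Complex.I_sq

theorem t3_T (τ : ℍ) : t3 (ModularGroup.T • τ : ℍ) = t4 τ := by
  rw [coe_T_smul]
  exact (h1 τ τ.im_pos).1

theorem t4_T (τ : ℍ) : t4 (ModularGroup.T • τ : ℍ) = t3 τ := by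
  rw [coe_T_smul]
  exact (h1 τ τ.im_pos).2.1

theorem t2_T (τ : ℍ) : t2 (ModularGroup.T • τ : ℍ) ^ 4 = -t2 τ ^ 4 := by
  rw [coe_T_smul, (h1 τ τ.im_pos).2.2.1, mul_pow, ← Complex.exp_nat_mul]
  have : ((4 : ℕ) : ℂ) * (Real.pi * Complex.I / 4) = Real.pi * Complex.I := by
    push_cast
    ring
  rw [this, Complex.exp_pi_mul_I]
  ring

end Th3Aux

open Th3Aux

/-- (T3) -/
theorem stTh3 (h1 : StTh1) : StTh3 := by
  have hE4 : MDiff (E₄ : ℍ → ℂ) := ModularFormClass.holo E₄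
  have hE6 : MDiff (E₆ : ℍ → ℂ) := ModularFormClass.holo E₆
  have F4 : (fun τ : ℍ => (t2 τ ^ 4) ^ 2 + (t3 τ ^ 4) ^ 2 + (t4 τ ^ 4) ^ 2 - 2 * E₄ τ) = 0 := by
    refine Ram.eq_zero (k := ((4 : ℕ) : ℤ)) (by norm_num) _ ?_ (inv_of 4 _ ?_ ?_) ?_
    · refine MDifferentiable.sub (mdiff_of (G := fun τ => (t2 τ ^ 4) ^ 2 + (t3 τ ^ 4) ^ 2 +
        (t4 τ ^ 4) ^ 2) ?_) (hE4.const_smul (2 : ℂ))
      intro τ hτ
      have a2 := t2_diff hτ
      have a3 := t3_diff hτ
      have a4 := t4_diff hτ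
      fun_prop
    · intro τ
      simp only [t2_S h1, t3_S h1, t4_S h1]
      rw [S_val (k := 4) E₄ τ]
      ring
    · intro τ
      simp only [t2_T h1, t3_T h1, t4_T h1]
      rw [T_val (k := 4) E₄ τ]
      ring
    · have := (((t2_lim.pow 4).pow 2).add ((t3_lim.pow 4).pow 2)).add (((t4_lim h1).pow 4).pow 2)
      have h2 := this.sub (Ram.E4_tendsto.const_mul 2)
      norm_num at h2
      exact h2
  have F6 : (fun τ : ℍ => (t2 τ ^ 4 + t3 τ ^ 4) * (t3 τ ^ 4 + t4 τ ^ 4) * (t4 τ ^ 4 - t2 τ ^ 4) -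
      2 * E₆ τ) = 0 := by
    refine Ram.eq_zero (k := ((6 : ℕ) : ℤ)) (by norm_num) _ ?_ (inv_of 6 _ ?_ ?_) ?_
    · refine MDifferentiable.sub (mdiff_of (G := fun τ => (t2 τ ^ 4 + t3 τ ^ 4) *
        (t3 τ ^ 4 + t4 τ ^ 4) * (t4 τ ^ 4 - t2 τ ^ 4)) ?_) (hE6.const_smul (2 : ℂ))
      intro τ hτ
      have a2 := t2_diff hτ
      have a3 := t3_diff hτ
      have a4 := t4_diff hτ
      fun_prop
    · intro τ
      simp only [t2_S h1, t3_S h1, t4_S h1]
      rw [S_val (k := 6) E₆ τ]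
      ring
    · intro τ
      simp only [t2_T h1, t3_T h1, t4_T h1]
      rw [T_val (k := 6) E₆ τ]
      ring
    · have h2 := ((((t2_lim.pow 4).add (t3_lim.pow 4)).mul ((t3_lim.pow 4).add
        ((t4_lim h1).pow 4))).mul (((t4_lim h1).pow 4).sub (t2_lim.pow 4))).sub
          (Ram.E6_tendsto.const_mul 2)
      norm_num at h2
      exact h2
  intro τ
  have e4 := congrFun F4 τ
  have e6 := congrFun F6 τ
  simp only [Pi.zero_apply] at e4 e6
  exact ⟨by linear_combination -e4, by linear_combination -e6⟩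

end Pool.Agent.Lib.MP_7c08ba_nt.CN
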