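import Pool.Agent.Lib.MP_7c08ba_nt.CN.StP

set_option autoImplicit false

/-!
Project CN, module T4: the discriminant in terms of the theta constants.
-/

namespace Pool.Agent.Lib.MP_7c08ba_nt.CN

open UpperHalfPlane ModularForm EisensteinSeries

/-- (T4) the discriminant. -/
theorem stTh4 (h2 : StTh2) (h3 : StTh3) : StTh4 := by
  intro τ
  obtain ⟨h4, h6⟩ := h3 τ
  have hJ := (h2 τ τ.im_pos).2.2.2.2
  have hD := discriminant_eq_E₄_cube_sub_E₆_sq τ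
  have e4 : E₄ τ = t2 τ ^ 8 + t2 τ ^ 4 * t4 τ ^ 4 + t4 τ ^ 8 := by
    have h8 : t3 τ ^ 8 = (t2 τ ^ 4 + t4 τ ^ 4) ^ 2 := by
      rw [← hJ]
      ring
    rw [h8] at h4
    linear_combination h4 / 2
  have e6 : 2 * E₆ τ = (2 * t2 τ ^ 4 + t4 τ ^ 4) * (t2 τ ^ 4 + 2 * t4 τ ^ 4) *
      (t4 τ ^ 4 - t2 τ ^ 4) := by
    rw [h6, hJ]
    ring
  have e6' : E₆ τ = (2 * t2 τ ^ 4 + t4 τ ^ 4) * (t2 τ ^ 4 + 2 * t4 τ ^ 4) *
      (t4 τ ^ 4 - t2 τ ^ 4) / 2 := by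
    linear_combination e6 / 2
  have hP : (t2 τ * t3 τ * t4 τ) ^ 8 = t2 τ ^ 8 * (t2 τ ^ 4 + t4 τ ^ 4) ^ 2 * t4 τ ^ 8 := by
    rw [← hJ]
    ring
  have hmain : 256 * discriminant τ = (t2 τ * t3 τ * t4 τ) ^ 8 := by
    rw [hP, hD, e4, e6']
    ring
  have hne : (t2 τ * t3 τ * t4 τ) ^ 8 ≠ 0 := by
    rw [← hmain]
    exact mul_ne_zero (by norm_num) (discriminant_ne_zero τ)
  have hne' : t2 τ * t3 τ * t4 τ ≠ 0 := fun h => hne (by rw [h]; norm_num)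
  refine ⟨hmain, ?_, ?_, ?_⟩
  · exact left_ne_zero_of_mul (left_ne_zero_of_mul hne')
  · exact right_ne_zero_of_mul (left_ne_zero_of_mul hne')
  · exact right_ne_zero_of_mul hne'

end Pool.Agent.Lib.MP_7c08ba_nt.CN
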