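import Mathlib
import Pool.Agent.Lib.MP_7c08ba_nt.CN.StP

set_option autoImplicit false

/-!
Project CN, module T6: `E₂` at `2 * τ`.
-/

namespace Pool.Agent.Lib.MP_7c08ba_nt.CN

open UpperHalfPlane ModularForm EisensteinSeries

/-- (T6) -/
theorem stTh6 (h2 : StTh2) (h4 : StTh4) (h5 : StTh5) : StTh6 := by
  intro τ τ' hτ
  obtain ⟨d3, d4, -⟩ := h5 τ
  obtain ⟨-, d4', -⟩ := h5 τ'
  obtain ⟨-, -, n3, n4⟩ := h4 τ
  obtain ⟨r1, r2, r3, -, -⟩ := h2 τ τ.im_pos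
  rw [← hτ] at r1 r2 r3
  have hk : (2 * (Real.pi : ℂ) * Complex.I / 24) ≠ 0 := by
    have h1 : (Real.pi : ℂ) ≠ 0 := Complex.ofReal_ne_zero.2 Real.pi_ne_zero
    have h3 : Complex.I ≠ 0 := Complex.I_ne_zero
    exact div_ne_zero (mul_ne_zero (mul_ne_zero two_ne_zero h1) h3) (by norm_num)
  generalize 2 * (Real.pi : ℂ) * Complex.I / 24 = k at hk d3 d4 d4'
  have hA := d3.mul d4
  have hB : HasDerivAt (fun z : ℂ => t4 (2 * z))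
      (k * (t4 τ' * (E2 τ' - t2 τ' ^ 4 - t3 τ' ^ 4)) * 2) (τ : ℂ) := by
    have e1 : HasDerivAt (fun z : ℂ => 2 * z) 2 (τ : ℂ) := by
      simpa using (hasDerivAt_id (τ : ℂ)).const_mul (2 : ℂ)
    rw [hτ] at d4'
    rw [hτ]
    exact d4'.comp (τ : ℂ) e1
  have hB2 := hB.pow 2
  have hE : (fun z : ℂ => t4 (2 * z)) ^ 2 =ᶠ[nhds (τ : ℂ)] t3 * t4 := by
    have ho : IsOpen {z : ℂ | 0 < z.im} := isOpen_lt continuous_const Complex.continuous_im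
    filter_upwards [ho.mem_nhds τ.im_pos] with z hz
    exact ((h2 z hz).2.2.1).symm
  have hU := hA.unique (hE.hasDerivAt_iff.1 hB2)
  simp only [← hτ] at hU
  have hU2 : k * (t3 τ * t4 τ) * (2 * E2 τ - t3 τ ^ 4 - t4 τ ^ 4)
      = k * (t3 τ * t4 τ) * (4 * (E2 τ' - t2 τ' ^ 4 - t3 τ' ^ 4)) := by
    have e : k * (t3 τ * t4 τ) * (4 * (E2 τ' - t2 τ' ^ 4 - t3 τ' ^ 4))
        = k * (t4 τ' ^ 2) * (4 * (E2 τ' - t2 τ' ^ 4 - t3 τ' ^ 4)) := by rw [r3]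
    rw [e]
    push_cast at hU
    linear_combination hU
  have hne : k * (t3 τ * t4 τ) ≠ 0 := mul_ne_zero hk (mul_ne_zero n3 n4)
  have hU3 := mul_left_cancel₀ hne hU2
  have e3 : t3 τ ^ 4 = (t3 τ' ^ 2 + t2 τ' ^ 2) ^ 2 := by rw [← r1]; ring
  have e4 : t4 τ ^ 4 = (t3 τ' ^ 2 - t2 τ' ^ 2) ^ 2 := by rw [← r2]; ring
  linear_combination -hU3 - 2 * e3 - 2 * e4

end Pool.Agent.Lib.MP_7c08ba_nt.CN
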