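import Mathlib
import Pool.Agent.Lib.MP_7c08ba_nt.CN.StP
import Pool.Agent.Lib.MP_7c08ba_nt.RZ.C.App

set_option autoImplicit false

/-!
Project CN, module R8: the universal congruence.
-/

namespace Pool.Agent.Lib.MP_7c08ba_nt.CN

open RZC

namespace UnivAux

/-- Values of integral polynomials in two variables. -/
noncomputable abbrev evM {R : Type} [CommRing R] (x t : R) (P : MvPolynomial (Fin 2) ℤ) : R :=
  MvPolynomial.eval₂ (Int.castRingHom R) ![x, t] P

/-- Values of integral polynomials in one variable. -/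
noncomputable abbrev evP {R : Type} [CommRing R] (t : R) (P : Polynomial ℤ) : R :=
  Polynomial.eval₂ (Int.castRingHom R) t P

theorem aevM {R : Type} [CommRing R] [Algebra ℤ R] (x t : R) (P : MvPolynomial (Fin 2) ℤ) :
    MvPolynomial.aeval ![x, t] P = evM x t P := by
  rw [MvPolynomial.aeval_def, RingHom.ext_int (algebraMap ℤ R) (Int.castRingHom R)]

theorem aevP {R : Type} [CommRing R] [Algebra ℤ R] (t : R) (P : Polynomial ℤ) :
    Polynomial.aeval t P = evP t P := by
  rw [Polynomial.aeval_def, RingHom.ext_int (algebraMap ℤ R) (Int.castRingHom R)]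

theorem map_evM {R S : Type} [CommRing R] [CommRing S] (f : R →+* S) (x t : R)
    (P : MvPolynomial (Fin 2) ℤ) : f (evM x t P) = evM (f x) (f t) P := by
  rw [evM, MvPolynomial.eval₂_comp_left, RingHom.ext_int (f.comp (Int.castRingHom R))
    (Int.castRingHom S)]
  have h4 : (f ∘ ![x, t]) = ![f x, f t] := by
    funext i
    fin_cases i <;> rfl
  rw [h4]

/-- Values of a polynomial at two points which are congruent in the first variable. -/
theorem aeval_congr {R : Type} [CommRing R] (P : MvPolynomial (Fin 2) ℤ) (c x y t z : R)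
    (h : x = y + c * z) : ∃ w, evM x t P = evM y t P + c * w := by
  have h1 : evM x t P - evM y t P ∈ Ideal.span {c} := by
    rw [← Ideal.Quotient.eq, map_evM, map_evM]
    have h5 : Ideal.Quotient.mk (Ideal.span {c}) x = Ideal.Quotient.mk (Ideal.span {c}) y := by
      rw [Ideal.Quotient.eq, h]
      rw [add_sub_cancel_left]
      exact Ideal.mem_span_singleton.2 (dvd_mul_right _ _)
    rw [h5]
  obtain ⟨w, hw⟩ := Ideal.mem_span_singleton.1 h1
  exact ⟨w, by rw [← hw]; ring⟩

/-- Substitution of a polynomial in the first variable. -/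
theorem aeval_comp {R : Type} [CommRing R] (P : MvPolynomial (Fin 2) ℤ) (G : Polynomial ℤ) (t : R) :
    evM (evP t G) t P = evP t (evM G Polynomial.X P) := by
  have h := map_evM (Polynomial.eval₂RingHom (Int.castRingHom R) t) G Polynomial.X P
  rw [Polynomial.coe_eval₂RingHom] at h
  rw [evP, evP, h, Polynomial.eval₂_X]

/-- A polynomial is divisible by `c` if its value at `t = X + ...` is. -/
theorem dvd_of_aeval {c : ℤ} {t z : PowerSeries ℤ} (h0 : t.coeff 0 = 0) (h1 : t.coeff 1 = 1)
    (U : Polynomial ℤ) (h : evP t U = PowerSeries.C c * z) :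
    ∃ V : Polynomial ℤ, U = Polynomial.C c * V := by
  have hX : (PowerSeries.X : PowerSeries ℤ) ∣ t := by
    rw [PowerSeries.X_dvd_iff, ← PowerSeries.coeff_zero_eq_constantCoeff_apply]
    exact h0
  obtain ⟨s, hs⟩ := hX
  have hs0 : s.coeff 0 = 1 := by
    have : (PowerSeries.X * s).coeff (0 + 1) = s.coeff 0 := PowerSeries.coeff_succ_X_mul 0 s
    rw [← this, ← hs]
    exact h1
  have hd : ∀ k, c ∣ U.coeff k := by
    intro k
    induction k using Nat.strong_induction_on with
    | _ k ih =>
      by_cases hk : k ∈ Finset.range (U.natDegree + 1)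
      · have e1 : (evP t U).coeff k =
            ∑ i ∈ Finset.range (U.natDegree + 1), U.coeff i * (t ^ i).coeff k := by
          rw [evP, Polynomial.eval₂_eq_sum_range, map_sum]
          apply Finset.sum_congr rfl
          intro i _
          have e0 : (Int.castRingHom (PowerSeries ℤ)) (U.coeff i) = PowerSeries.C (U.coeff i) := by
            simp
          rw [e0, PowerSeries.coeff_C_mul]
        have e2 : (evP t U).coeff k = c * z.coeff k := by
          rw [h, PowerSeries.coeff_C_mul]
        rw [← Finset.add_sum_erase _ _ hk] at e1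
        have e3 : (t ^ k).coeff k = 1 := by
          rw [hs, mul_pow, PowerSeries.coeff_X_pow_mul', if_pos le_rfl, Nat.sub_self,
            PowerSeries.coeff_zero_eq_constantCoeff_apply, map_pow,
            ← PowerSeries.coeff_zero_eq_constantCoeff_apply, hs0, one_pow]
        have e4 : c ∣ ∑ i ∈ (Finset.range (U.natDegree + 1)).erase k,
            U.coeff i * (t ^ i).coeff k := by
          apply Finset.dvd_sum
          intro i hi
          rcases lt_or_gt_of_ne (Finset.ne_of_mem_erase hi) with hlt | hgt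
          · exact (ih i hlt).mul_right _
          · have : (t ^ i).coeff k = 0 := by
              rw [hs, mul_pow, PowerSeries.coeff_X_pow_mul', if_neg (by omega)]
            rw [this, mul_zero]
            exact dvd_zero _
        have e5 : U.coeff k = c * z.coeff k - ∑ i ∈ (Finset.range (U.natDegree + 1)).erase k,
            U.coeff i * (t ^ i).coeff k := by
          rw [← e2, e1, e3]
          ring
        rw [e5]
        exact dvd_sub (dvd_mul_right _ _) e4
      · rw [Polynomial.coeff_eq_zero_of_natDegree_lt]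
        · exact dvd_zero _
        · rw [Finset.mem_range] at hk
          omega
  have := (Polynomial.C_dvd_iff_dvd_coeff c U).2 hd
  exact this

end UnivAux

open UnivAux

/-- (R8) -/
theorem stUniv (hG : StUnivG) (hQ : StQexp) : StUniv := by
  intro j hj
  obtain ⟨G, hG⟩ := hG (2 * j + 2)
  obtain ⟨t, r, e, ht0, ht1, hr, hz, hV, he, hW⟩ := hQ
  -- the sequences of power series
  set v : PowerSeries ℤ →+* PowerSeries ℤ := AppAux.vqHom with hv
  have hvq : ∀ f, v f = Vq f := fun f => rfl
  have hrel : ∀ k < 2 * j + 2, (v^[k] r) ^ 2 - v^[k] r + 4 * v^[k] t = 0 ∧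
      (∃ z, 1 - v^[k] r = 4 * z) ∧ v^[k + 1] t * (v^[k] r) ^ 4 = (v^[k] t) ^ 2 ∧
      v^[k] e = 2 * (v^[k] r) ^ 2 * v^[k + 1] e - 1 + 8 * v^[k] t := by
    intro k _
    have hpow : ∀ f : PowerSeries ℤ, v^[k] f = (v ^ k) f := by
      intro f
      rw [RingHom.coe_pow]
    have hpow1 : ∀ f : PowerSeries ℤ, v^[k + 1] f = (v ^ k) (Vq f) := by
      intro f
      rw [Function.iterate_succ_apply, RingHom.coe_pow, hvq]
    rw [hpow, hpow, hpow, hpow1, hpow1]
    obtain ⟨z, hz⟩ := hz
    refine ⟨?_, ⟨(v ^ k) z, ?_⟩, ?_, ?_⟩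
    · have := congrArg (v ^ k) hr
      simpa only [map_add, map_sub, map_pow, map_mul, map_ofNat, map_zero] using this
    · have := congrArg (v ^ k) hz
      simpa only [map_sub, map_mul, map_ofNat, map_one] using this
    · have := congrArg (v ^ k) hV
      simpa only [map_pow, map_mul] using this
    · have := congrArg (v ^ k) he
      simpa only [map_add, map_sub, map_pow, map_mul, map_ofNat, map_one] using this
  obtain ⟨z1, hz1⟩ := hG (PowerSeries ℤ) inferInstance (fun k => v^[k] t) (fun k => v^[k] r)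
    (fun k => v^[k] e) hrel
  simp only [Function.iterate_zero, id] at hz1
  rw [@aevP (PowerSeries ℤ) _ (Ring.toIntAlgebra (PowerSeries ℤ))] at hz1
  set W : Polynomial ℤ := evM G Polynomial.X (RJ j) with hWdef
  obtain ⟨z2, hz2⟩ := aeval_congr (RJ j) ((2 : PowerSeries ℤ) ^ (2 * j + 2)) e
    (evP t G) t z1 hz1
  rw [aeval_comp] at hz2
  obtain ⟨z3, hz3⟩ := hW j hj
  rw [aevM] at hz3
  have h12 : (4 : PowerSeries ℤ) * 12 ^ j = 2 ^ (2 * j + 2) * 3 ^ j := by
    have : (12 : PowerSeries ℤ) = 2 ^ 2 * 3 := by norm_num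
    rw [this, mul_pow, ← pow_mul, pow_add]
    ring
  have hU : evP t (W - Polynomial.C (2 * 12 ^ j) * Polynomial.X) =
      PowerSeries.C ((2 : ℤ) ^ (2 * j + 2)) * (3 ^ j * z3 - z2) := by
    rw [evP, Polynomial.eval₂_sub, Polynomial.eval₂_mul, Polynomial.eval₂_X, Polynomial.eval₂_C]
    have e1 : Polynomial.eval₂ (Int.castRingHom (PowerSeries ℤ)) t W =
        2 * 12 ^ j * (t + 2 * z3) - 2 ^ (2 * j + 2) * z2 := by
      rw [← hz3, hz2]
      ring
    rw [e1]
    have e2 : (Int.castRingHom (PowerSeries ℤ)) (2 * 12 ^ j) = 2 * 12 ^ j := by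
      simp
    have e3 : (PowerSeries.C ((2 : ℤ) ^ (2 * j + 2)) : PowerSeries ℤ) = 2 ^ (2 * j + 2) := by
      simp
    rw [e2, e3]
    linear_combination z3 * h12
  obtain ⟨V, hVV⟩ := dvd_of_aeval ht0 ht1 _ hU
  intro R _ t' r' e' hR
  obtain ⟨y, hy⟩ := hG R inferInstance t' r' e' hR
  rw [aevP] at hy
  obtain ⟨y2, hy2⟩ := aeval_congr (RJ j) ((2 : R) ^ (2 * j + 2)) (e' 0)
    (evP (t' 0) G) (t' 0) y hy
  rw [aeval_comp] at hy2
  refine ⟨evP (t' 0) V + y2, ?_⟩
  have e4 : W = Polynomial.C (2 * 12 ^ j) * Polynomial.X +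
      Polynomial.C ((2 : ℤ) ^ (2 * j + 2)) * V := by
    rw [← hVV]
    ring
  rw [aevM, hy2, ← hWdef, e4, evP, Polynomial.eval₂_add, Polynomial.eval₂_mul,
    Polynomial.eval₂_mul, Polynomial.eval₂_X, Polynomial.eval₂_C, Polynomial.eval₂_C]
  have e5 : (Int.castRingHom R) (2 * 12 ^ j) = 2 * 12 ^ j := by simp
  have e6 : (Int.castRingHom R) ((2 : ℤ) ^ (2 * j + 2)) = 2 ^ (2 * j + 2) := by simp
  rw [e5, e6]
  ring

end Pool.Agent.Lib.MP_7c08ba_nt.CN
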