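import Pool.Agent.Lib.MP_7c08ba_nt.CN.AAll
import Pool.Agent.Lib.MP_7c08ba_nt.CN.RepM
import Pool.Agent.Lib.MP_7c08ba_nt.CN.Idl
import Pool.Agent.Lib.MP_7c08ba_nt.CN.Prim
import Pool.Agent.Lib.MP_7c08ba_nt.CN.Fam
import Pool.Agent.Lib.MP_7c08ba_nt.CN.Sys
import Pool.Agent.Lib.MP_7c08ba_nt.CN.Th1
import Pool.Agent.Lib.MP_7c08ba_nt.CN.Th2
import Pool.Agent.Lib.MP_7c08ba_nt.CN.Th3
import Pool.Agent.Lib.MP_7c08ba_nt.CN.Th4
import Pool.Agent.Lib.MP_7c08ba_nt.CN.Th5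
import Pool.Agent.Lib.MP_7c08ba_nt.CN.Th6
import Pool.Agent.Lib.MP_7c08ba_nt.CN.Fun
import Pool.Agent.Lib.MP_7c08ba_nt.CN.Exp
import Pool.Agent.Lib.MP_7c08ba_nt.CN.ExpT
import Pool.Agent.Lib.MP_7c08ba_nt.CN.RelT
import Pool.Agent.Lib.MP_7c08ba_nt.CN.Re
import Pool.Agent.Lib.MP_7c08ba_nt.CN.Rh
import Pool.Agent.Lib.MP_7c08ba_nt.CN.HP
import Pool.Agent.Lib.MP_7c08ba_nt.CN.Der
import Pool.Agent.Lib.MP_7c08ba_nt.CN.Hth
import Pool.Agent.Lib.MP_7c08ba_nt.CN.UnivG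
import Pool.Agent.Lib.MP_7c08ba_nt.CN.Qexp
import Pool.Agent.Lib.MP_7c08ba_nt.CN.Univ
import Pool.Agent.Lib.MP_7c08ba_nt.CN.Jsum
import Pool.Agent.Lib.MP_7c08ba_nt.CN.CM
import Pool.Agent.Lib.MP_7c08ba_nt.CN.Js2
import Pool.Agent.Lib.MP_7c08ba_nt.CN.Pt
import Pool.Agent.Lib.MP_7c08ba_nt.CN.Pa
import Pool.Agent.Lib.MP_7c08ba_nt.CN.NV
import Pool.Agent.Lib.MP_7c08ba_nt.CN.Ex
import Pool.Agent.Lib.MP_7c08ba_nt.RZ.C.All

set_option autoImplicit false

/-!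
Project CN: assembly of the `2`-adic part; the central values of the odd powers of canonical Hecke
characters.
-/

namespace Pool.Agent.Lib.MP_7c08ba_nt.CN

open NumberField IsDedekindDomain RZC

namespace P

theorem sys : StSys := stSys stRepM stIdl stPrim stFam
theorem th1 : StTh1 := stTh1
theorem th2 : StTh2 := stTh2
theorem th3 : StTh3 := stTh3 th1
theorem th4 : StTh4 := stTh4 th2 th3
theorem th5 : StTh5 := stTh5 th1 th4
theorem th6 : StTh6 := stTh6 th2 th4 th5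
theorem fn : StFun := stFun th2 th3 th4 th6
theorem expT : StExpT := stExpT stExp
theorem relT : StRelT := stRelT stExp expT th2 th3 th5 th6
theorem rh : StRh := stRh stRe
theorem der : StDer := stDer th2 th3 th4 th5 stRam
theorem hth : StHth := stHth stHP der rh th4
theorem qexp : StQexp := stQexp relT pRamQ
theorem univ : StUniv := stUniv stUnivG qexp
theorem jsum : StJsum := stJsum stClass stUnit RZC.stRep pChain pOrdC stLat
theorem js2 : StJs2 := stJs2 stIdl jsum stClass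
theorem pt : StPt := stPt fn univ
theorem pa : StPa := stPa (stCMP stIdl) js2 pt hth th4

end P

/-- **The central values are not zero.** -/
theorem aNV : StNV := stNV aAn P.sys P.pa

/-- the powers of a character -/
noncomputable def pw {F : Type} [Field F] [NumberField F] (ψ : Ideal (𝓞 F) →*₀ ℂ) (m : ℕ)
    (hm : m ≠ 0) : Ideal (𝓞 F) →*₀ ℂ := (powMonoidWithZeroHom hm).comp ψ

/-- **Odd powers of canonical Hecke characters.** -/
theorem canonical (q : ℕ) (F : Type) [Field F] [NumberField F] (s : 𝓞 F) (σ : F →+* ℂ)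
    (ψ : Ideal (𝓞 F) →*₀ ℂ) (hF : FieldC q F (s : F)) (hψ : IsCan q s σ 1 ψ) (j : ℕ) :
    ∃ Λ : ℂ → ℂ, IsLF (pw ψ (4 * j + 1) (by omega)) (2 * j + 1) Λ ∧ Λ 0 ≠ 0 := by
  obtain ⟨A, hA, hres⟩ := stEx q F _ _ s σ ψ hF hψ
  have hsq : ∀ a : ℤ, ((jacobiSym a q : ℤ) : ℂ) ^ (4 * j + 1) = (jacobiSym a q : ℂ) := by
    intro a
    rcases jacobiSym.trichotomy a q with h | h | h
    · rw [h]; simp
    · rw [h]; simp
    · rw [h]
      have : Odd (4 * j + 1) := ⟨2 * j, by ring⟩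
      push_cast
      exact this.neg_one_pow
  refine aNV q F _ _ s σ A j _ hF hA ?_ ?_
  · intro t a ht hta
    have h1 : pw ψ (4 * j + 1) (by omega) (Ideal.span {t}) = ψ (Ideal.span {t}) ^ (4 * j + 1) := rfl
    rw [h1, hψ t a ht hta, pow_one, mul_pow, hsq]
  · intro a ha hac
    exact nonunits_pow_sub_one (hres a ha hac) _

end Pool.Agent.Lib.MP_7c08ba_nt.CN
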