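import Mathlib
import Pool.Agent.Lib.MP_7c08ba_nt.CN.StAn

set_option autoImplicit false

/-!
Project CN, module Inv: the terms of the central value depend on the classes only.
-/

namespace Pool.Agent.Lib.MP_7c08ba_nt.CN

open NumberField IsDedekindDomain Pool.Agent.Lib.MP_7c08ba_nt.RZ
open scoped nonZeroDivisors ComplexConjugate MatrixGroups

namespace AInv

section

variable {F : Type} [Field F] [NumberField F]

theorem sigma_ne (σ : F →+* ℂ) {t : 𝓞 F} (ht : t ≠ 0) : σ t ≠ 0 := by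
  rw [Ne, map_eq_zero]
  exact_mod_cast ht

theorem Qa_smul (σ : F →+* ℂ)
    (hN : ∀ x : 𝓞 F, Complex.normSq (σ x) = (Ideal.absNorm (Ideal.span {x}) : ℝ))
    (b : Ideal (𝓞 F)) {t : 𝓞 F} (ht : t ≠ 0) (x : 𝓞 F) :
    Qa σ (Ideal.span {t} * b) (t * x) = Qa σ b x := by
  have h0 : (Complex.normSq (σ t)) ≠ 0 := by
    rw [Ne, Complex.normSq_eq_zero]
    exact sigma_ne σ ht
  unfold Qa
  rw [map_mul (Ideal.absNorm), Nat.cast_mul, ← hN t]
  have : (σ ((t * x : 𝓞 F) : F)) = σ t * σ x := by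
    push_cast
    rw [map_mul]
  rw [this, map_mul Complex.normSq]
  exact mul_div_mul_left _ _ h0

theorem thl_smul (σ : F →+* ℂ)
    (hN : ∀ x : 𝓞 F, Complex.normSq (σ x) = (Ideal.absNorm (Ideal.span {x}) : ℝ))
    (b : Ideal (𝓞 F)) {t : 𝓞 F} (ht : t ≠ 0) (r : ℕ) (u : ℂ) :
    thl σ (Ideal.span {t} * b) r u = thl σ b r u := by
  let e : b ≃ (Ideal.span {t} * b : Ideal (𝓞 F)) := Equiv.ofBijective
    (fun x => ⟨t * x, Ideal.mem_span_singleton_mul.mpr ⟨x, x.2, rfl⟩⟩) (by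
      constructor
      · intro x y hxy
        have h : t * (x : 𝓞 F) = t * y := congrArg Subtype.val hxy
        exact Subtype.ext (mul_left_cancel₀ ht h)
      · rintro ⟨y, hy⟩
        obtain ⟨z, hz, hzy⟩ := Ideal.mem_span_singleton_mul.mp hy
        exact ⟨⟨z, hz⟩, Subtype.ext hzy⟩)
  unfold thl
  congr 1
  rw [← e.tsum_eq]
  refine tsum_congr fun x => ?_
  have : Qa σ (Ideal.span {t} * b) ((e x : (Ideal.span {t} * b : Ideal (𝓞 F))) : 𝓞 F) =
      Qa σ b x := Qa_smul σ hN b ht x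
  rw [this]

theorem GG_smul (q : ℕ) (σ : F →+* ℂ) (n : ℕ) (φ : Ideal (𝓞 F) →*₀ ℂ)
    (a b : Ideal (𝓞 F)) (X Y : 𝓞 F) {t : 𝓞 F} (ht : t ≠ 0) (hφ : φ (Ideal.span {t}) ≠ 0) :
    GG q σ n φ (Ideal.span {t} * a) b (t * X) (t * Y) = GG q σ n φ a b X Y := by
  have ht' := sigma_ne σ ht
  have h1 : σ ((t * X : 𝓞 F) : F) / (q * σ ((t * Y : 𝓞 F) : F)) = σ X / (q * σ Y) := by
    push_cast
    rw [map_mul, map_mul]
    rw [show (q : ℂ) * (σ t * σ Y) = σ t * (q * σ Y) by ring]
    exact mul_div_mul_left _ _ ht'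
  unfold GG
  rw [h1, ← Ideal.span_singleton_mul_span_singleton, map_mul φ, map_mul φ, mul_inv]
  field_simp

end

end AInv

open AInv

theorem stInv (h1 : StBas) (h2 : StBase) (h3 : StThl) : StInv := by
  intro q F _ _ s σ χ cj n φ a a' b b' X Y X' Y' hD hφ hB hB' hsX hsX' hca hca' hb hb'
    ⟨t, t', ht, ht', htt⟩ ⟨v, v', hv, hv', hvv⟩
  obtain ⟨-, hcc, hcs, hsub, hmul, hnsq, hN, -, hprime, hrep, hdvd⟩ := h1 q F _ _ s σ χ cj hD
  obtain ⟨-, -, him, -, hch, -, hsc⟩ := h2 q F _ _ s σ χ cj hD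
  have hq1 : 1 < q := hD.prime.one_lt
  have hs0 : s ≠ 0 := by
    rintro rfl
    have h := (hdvd 1).mp
    have h2 := (hdvd q).mpr dvd_rfl
    rw [zero_dvd_iff] at h2
    have h4 : (q : 𝓞 F) = 0 := by exact_mod_cast h2
    exact (by omega : q ≠ 0) (by exact_mod_cast h4)
  have hsI : (Ideal.span {s} : Ideal (𝓞 F)) ≠ ⊥ := by
    rwa [Ne, Ideal.span_singleton_eq_bot]
  have hmax : (Ideal.span {s} : Ideal (𝓞 F)).IsMaximal := hprime.isMaximal hsI
  have hsp : Prime s := (Ideal.span_singleton_prime hs0).mp hprime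
  have hnle : ∀ a : Ideal (𝓞 F), IsCoprime a (Ideal.span {s}) → ¬ a ≤ Ideal.span {s} := by
    intro a h' h
    rw [Ideal.isCoprime_iff_sup_eq, sup_eq_right.mpr h] at h'
    exact hprime.ne_top h'
  have hpz : Prime (q : ℤ) := Nat.prime_iff_prime_int.mp hD.prime
  have hjac : ∀ m : ℤ, ¬ (q : ℤ) ∣ m → (jacobiSym m q : ℂ) ^ 2 = 1 := by
    intro m hm
    have h := (Int.isCoprime_iff_gcd_eq_one (m := (q : ℤ)) (n := m)).mp
      ((Prime.coprime_iff_not_dvd hpz).mpr hm)
    rw [Int.gcd_comm] at h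
    have := jacobiSym.sq_one (a := m) (b := q) h
    exact_mod_cast this
  -- the values at generators prime to `s`
  have hφt : ∀ t : 𝓞 F, t ≠ 0 → ¬ s ∣ t → φ (Ideal.span {t}) ≠ 0 := by
    intro t ht hst
    obtain ⟨m, hm⟩ := hrep t
    have hqm : ¬ (q : ℤ) ∣ m := by
      intro hd
      exact hst ((dvd_sub_left ((hdvd m).mpr hd)).mp hm)
    rw [hφ t m ht hm]
    refine mul_ne_zero ?_ (pow_ne_zero _ (sigma_ne σ ht))
    intro h0
    have := hjac m hqm
    rw [h0] at this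
    norm_num at this
  -- the same ideal
  have hsame : ∀ (c : Ideal (𝓞 F)) (X Y X' Y' : 𝓞 F), OBasis σ c X Y → OBasis σ c X' Y' →
      s ∣ X → s ∣ X' → ¬ c ≤ Ideal.span {s} →
      GG q σ n φ c b X Y = GG q σ n φ c b X' Y' := by
    clear hB hB' hsX hsX' hca hca' htt
    intro c X Y X' Y' hB hB' hsX hsX' hc
    obtain ⟨g, hg1, hg2⟩ := hch c X Y X' Y' hB hB'
    have hsY : ¬ s ∣ Y := by
      intro hsY
      apply hc
      intro z hz
      obtain ⟨m, k, rfl⟩ := (hB.mem z).mp hz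
      rw [Ideal.mem_span_singleton]
      exact dvd_add (hsX.mul_left _) (hsY.mul_left _)
    have hg01 : (q : ℤ) ∣ g 0 1 := by
      rw [← hdvd]
      have h5 : s ∣ (g 0 1 : 𝓞 F) * Y := by
        rw [hg1] at hsX'
        exact (dvd_add_right (hsX.mul_left _)).mp hsX'
      exact (hsp.dvd_or_dvd h5).resolve_right hsY
    obtain ⟨h, hh⟩ := hg01
    have hdet : g 0 0 * g 1 1 - g 0 1 * g 1 0 = 1 := by
      have := g.det_coe
      rw [Matrix.det_fin_two] at this
      exact this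
    have hdet' : (!![g 0 0, h; (q : ℤ) * g 1 0, g 1 1] : Matrix (Fin 2) (Fin 2) ℤ).det = 1 := by
      rw [Matrix.det_fin_two_of]
      have := hdet
      rw [hh] at this
      linarith
    let g' : SL(2, ℤ) := ⟨!![g 0 0, h; (q : ℤ) * g 1 0, g 1 1], hdet'⟩
    have hq11 : ¬ (q : ℤ) ∣ g 1 1 := by
      intro hd
      have h6 : (q : ℤ) ∣ g 0 0 * g 1 1 - g 0 1 * g 1 0 := by
        rw [hh]
        exact dvd_sub (hd.mul_left _) ((dvd_mul_right _ _).mul_right _)
      rw [hdet] at h6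
      exact hpz.not_dvd_one h6
    have hpos := hB.pos
    have hpos' := hB'.pos
    have hY : Y ≠ 0 := by
      rintro rfl
      simp at hpos
    have hY' : Y' ≠ 0 := by
      rintro rfl
      simp at hpos'
    have hσY := sigma_ne σ hY
    have hσY' := sigma_ne σ hY'
    have hqC : (q : ℂ) ≠ 0 := by exact_mod_cast (by omega : q ≠ 0)
    have hqR : (0 : ℝ) < q := by exact_mod_cast (by omega : 0 < q)
    -- imaginary parts
    have himu : ∀ x y : ℂ, y ≠ 0 → (x / (q * y)).im * Complex.normSq y = (x * conj y).im / q := by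
      intro x y hy
      have hy2 : Complex.normSq y ≠ 0 := by rwa [Ne, Complex.normSq_eq_zero]
      have : x / (q * y) = (((Complex.normSq y * q : ℝ))⁻¹ : ℝ) * (x * conj y) := by
        have hcy : (conj y) ≠ 0 := by
          rwa [Ne, map_eq_zero]
        push_cast
        rw [← Complex.mul_conj]
        field_simp
      rw [this, Complex.im_ofReal_mul]
      field_simp
    set u := σ X / (q * σ Y) with hu
    set u' := σ X' / (q * σ Y') with hu'
    have hnY : 0 < Complex.normSq (σ Y) := Complex.normSq_pos.mpr hσY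
    have hnY' : 0 < Complex.normSq (σ Y') := Complex.normSq_pos.mpr hσY'
    have hupos : 0 < u.im := by
      have h7 := himu (σ X) (σ Y) hσY
      have h8 : 0 < (σ X * conj (σ Y)).im / q := by positivity
      rw [← h7] at h8
      exact pos_of_mul_pos_left h8 hnY.le
    have hims : u'.im * Complex.normSq (σ Y') = u.im * Complex.normSq (σ Y) := by
      rw [himu _ _ hσY', himu _ _ hσY, him c X Y hB, him c X' Y' hB']
    -- the transformation
    have hX'σ : σ X' = g 0 0 * σ X + g 0 1 * σ Y := by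
      rw [hg1]; push_cast; simp
    have hY'σ : σ Y' = g 1 0 * σ X + g 1 1 * σ Y := by
      rw [hg2]; push_cast; simp
    have hj : ((q * g 1 0 : ℤ) : ℂ) * u + g 1 1 = σ Y' / σ Y := by
      rw [hY'σ, hu]
      push_cast
      field_simp
    have hnum : (g 0 0 : ℂ) * u + h = σ X' / (q * σ Y) := by
      have hh' : (g 0 1 : ℂ) = q * h := by rw [hh]; push_cast; ring
      rw [hX'σ, hu, hh']
      field_simp
    have hW := (h3 q F _ _ s σ χ cj b n hD hb).1 g' u hupos (by
      show (q : ℤ) ∣ (q : ℤ) * g 1 0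
      exact dvd_mul_right _ _)
    have hW' : thl σ b n u' = χ (g 1 1 : ℤ) * (σ Y' / σ Y) ^ (2 * n + 1) * thl σ b n u := by
      have e00 : g' 0 0 = g 0 0 := rfl
      have e01 : g' 0 1 = h := rfl
      have e10 : g' 1 0 = (q : ℤ) * g 1 0 := rfl
      have e11 : g' 1 1 = g 1 1 := rfl
      rw [e00, e01, e10, e11, hj, hnum] at hW
      rw [← hW]
      congr 1
      rw [hu']
      field_simp
    -- the character
    obtain ⟨m, hm⟩ := hrep Y
    have hm' : s ∣ Y' - ((g 1 1 * m : ℤ) : 𝓞 F) := by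
      have : Y' - ((g 1 1 * m : ℤ) : 𝓞 F) = (g 1 0 : 𝓞 F) * X + (g 1 1 : 𝓞 F) * (Y - m) := by
        rw [hg2]; push_cast; ring
      rw [this]
      exact dvd_add (hsX.mul_left _) (hm.mul_left _)
    have hφY := hφ Y m hY hm
    have hφY' := hφ Y' _ hY' hm'
    rw [jacobiSym.mul_left] at hφY'
    have hsq := hjac _ hq11
    have hconj : σ Y' * (u'.im : ℂ) * conj (σ Y' / σ Y) = σ Y * u.im := by
      have hcy : conj (σ Y) ≠ 0 := by
        rwa [Ne, map_eq_zero]
      rw [map_div₀]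
      rw [show σ Y' * (u'.im : ℂ) * (conj (σ Y') / conj (σ Y)) =
        (u'.im : ℂ) * (σ Y' * conj (σ Y')) / conj (σ Y) by ring]
      rw [Complex.mul_conj, ← Complex.ofReal_mul, hims, Complex.ofReal_mul, ← Complex.mul_conj]
      field_simp
    unfold GG
    rw [← hu, ← hu', hW', hφY, hφY', hD.chi, map_mul, map_mul, map_pow]
    have hcj : conj ((jacobiSym (g 1 1) q : ℤ) : ℂ) = (jacobiSym (g 1 1) q : ℂ) := by
      exact_mod_cast Complex.conj_ofReal _
    rw [hcj]
    calc (φ c)⁻¹ * ((jacobiSym m q : ℂ) * σ Y ^ (2 * n + 1)) * (u.im : ℂ) ^ (2 * n + 1) *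
          conj (thl σ b n u)
        = (φ c)⁻¹ * (jacobiSym m q : ℂ) * (jacobiSym (g 1 1) q : ℂ) ^ 2 *
            (σ Y * (u.im : ℂ)) ^ (2 * n + 1) * conj (thl σ b n u) := by
          rw [hsq, mul_pow]; ring
      _ = _ := by
          rw [← hconj, mul_pow, mul_pow]
          push_cast
          ring
  -- the ideal `b`
  have hbb : ∀ u : ℂ, thl σ b n u = thl σ b' n u := by
    intro u
    rw [← thl_smul σ hnsq b hv n u, hvv, thl_smul σ hnsq b' hv' n u]
  have hGb : GG q σ n φ a' b' X' Y' = GG q σ n φ a' b X' Y' := by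
    unfold GG
    rw [hbb]
  rw [hGb]
  -- removing the powers of `s`
  have key : ∀ (t t' : 𝓞 F) (k k' : ℕ) (a a' : Ideal (𝓞 F)), IsCoprime a (Ideal.span {s}) →
      IsCoprime a' (Ideal.span {s}) → ¬ s ∣ t → ¬ s ∣ t' → k ≤ k' →
      Ideal.span {s ^ k * t} * a = Ideal.span {s ^ k' * t'} * a' →
      Ideal.span {t} * a = Ideal.span {t'} * a' := by
    intro t t' k k' a a' ha ha' hst hst' hkk h
    obtain ⟨l, rfl⟩ := Nat.exists_eq_add_of_le hkk
    have hpow : (Ideal.span {s ^ k} : Ideal (𝓞 F)) ≠ 0 := by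
      rw [Ne, Ideal.zero_eq_bot, Ideal.span_singleton_eq_bot]
      exact pow_ne_zero _ hs0
    rw [pow_add, mul_assoc, ← Ideal.span_singleton_mul_span_singleton,
      ← Ideal.span_singleton_mul_span_singleton (s ^ k) (s ^ l * t'), mul_assoc, mul_assoc] at h
    have h9 := mul_left_cancel₀ hpow h
    rcases Nat.eq_zero_or_pos l with rfl | hl
    · simpa using h9
    · exfalso
      have h10 : Ideal.span {t} * a ≤ Ideal.span {s} := by
        rw [h9]
        refine Ideal.mul_le_left.trans ?_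
        rw [Ideal.span_singleton_le_span_singleton]
        exact (dvd_pow_self s hl.ne').mul_right _
      rcases hprime.mul_le.mp h10 with h11 | h11
      · exact hst (Ideal.span_singleton_le_span_singleton.mp h11)
      · exact hnle a ha h11
  have hfin : ∀ t : 𝓞 F, t ≠ 0 → ∃ (k : ℕ) (r : 𝓞 F), ¬ s ∣ r ∧ t = s ^ k * r := by
    intro t ht
    obtain ⟨k, hk1, hk2⟩ := WfDvdMonoid.max_power_factor ht hsp.irreducible
    obtain ⟨hk2, hk3⟩ := hk2
    exact ⟨k, hk1, hk2, hk3⟩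
  obtain ⟨k, r, hr, rfl⟩ := hfin t ht
  obtain ⟨k', r', hr', rfl⟩ := hfin t' ht'
  have hrr : Ideal.span {r} * a = Ideal.span {r'} * a' := by
    rcases le_total k k' with hk | hk
    · exact key r r' k k' a a' hca hca' hr hr' hk htt
    · exact (key r' r k' k a' a hca' hca hr' hr hk htt.symm).symm
  have hr0 : r ≠ 0 := by rintro rfl; exact hr (dvd_zero s)
  have hr0' : r' ≠ 0 := by rintro rfl; exact hr' (dvd_zero s)
  rw [← GG_smul q σ n φ a b X Y hr0 (hφt r hr0 hr),
    ← GG_smul q σ n φ a' b X' Y' hr0' (hφt r' hr0' hr'), ← hrr]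
  have hB1 := hsc a X Y r hB hr0
  have hB2 := hsc a' X' Y' r' hB' hr0'
  rw [← hrr] at hB2
  refine hsame _ _ _ _ _ hB1 hB2 (hsX.mul_left _) (hsX'.mul_left _) ?_
  intro hle
  rcases hprime.mul_le.mp hle with h11 | h11
  · exact hr (Ideal.span_singleton_le_span_singleton.mp h11)
  · exact hnle a hca h11

end Pool.Agent.Lib.MP_7c08ba_nt.CN
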