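import Pool.Agent.Lib.MP_7c08ba_nt.CN.StP
import Pool.Agent.Lib.MP_7c08ba_nt.CN.StOP
import Pool.Agent.Lib.MP_7c08ba_nt.CN.Js2
import Pool.Agent.Lib.MP_7c08ba_nt.RZ.C.All

set_option autoImplicit false

/-! Project CN, even `k`: the lattices `(2 ^ e, g) (d, g) ^ 2`. -/

namespace Pool.Agent.Lib.MP_7c08ba_nt.CN

open NumberField IsDedekindDomain UpperHalfPlane ModularForm EisensteinSeries RZC
open scoped nonZeroDivisors ComplexConjugate MatrixGroups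

namespace LcOAux

variable {q : ℕ} {F : Type} [Field F] [NumberField F] {s : 𝓞 F}

/-- The ideal `(2 ^ e, g) (d, g) ^ 2` is `(2 ^ e d², g)`. -/
theorem idl_eq (hI : StIdl) (hF : FieldC q F (s : F)) {e : ℕ} {b n : ℤ}
    {g : 𝓞 F} {d : ℕ} (hg : 2 * g = b + s) (hn : 4 * n = b ^ 2 + q) (hd : Odd d)
    (hc : d.Coprime q) (hdv : (8 * 2 ^ e * (d : ℤ) ^ 2 : ℤ) ∣ b ^ 2 + q) :
    idl g (2 ^ e) * idl g d ^ 2 = idl g (2 ^ e * (d * d)) ∧ 0 < 2 ^ e * (d * d) ∧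
      ((2 ^ e * (d * d) : ℕ) : ℤ) ∣ n ∧ Ideal.absNorm (idl g d) = d := by
  obtain ⟨-, hbo, -, -, hM, hMN, -⟩ := hI q F _ _ s b n g hF hg hn
  have hd0 : 0 < d := hd.pos
  have h4 : (4 : ℤ) * (2 * (2 ^ e * (d * d))) ∣ 4 * n := by
    rw [hn]
    rw [show (4 : ℤ) * (2 * (2 ^ e * (d * d))) = 8 * 2 ^ e * (d : ℤ) ^ 2 by ring]
    exact hdv
  have h5 : (2 : ℤ) * (2 ^ e * (d * d)) ∣ n := (mul_dvd_mul_iff_left (by norm_num)).1 h4
  have h6 : ((2 ^ e * (d * d) : ℕ) : ℤ) ∣ n := by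
    push_cast
    exact (Dvd.intro_left _ rfl).trans h5
  have h7 : ((d * d : ℕ) : ℤ) ∣ n := by
    refine dvd_trans ?_ h6
    push_cast
    exact Dvd.intro_left _ rfl
  have h8 : (d : ℤ) ∣ n := dvd_trans (by push_cast; exact Dvd.intro _ rfl) h7
  have hcop : IsCoprime (d : ℤ) b := by
    obtain ⟨u, v, huv⟩ : IsCoprime (d : ℤ) (q : ℤ) := Nat.isCoprime_iff_coprime.2 hc
    obtain ⟨x, hx⟩ := h8
    refine ⟨u + v * (4 * x), -v * b, ?_⟩
    rw [← huv]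
    have : (q : ℤ) = 4 * (d * x) - b ^ 2 := by rw [← hx, hn]; ring
    rw [this]
    ring
  have h2b : IsCoprime ((2 ^ e : ℕ) : ℤ) b := by
    push_cast
    apply IsCoprime.pow_left
    obtain ⟨c, hc⟩ := hbo
    exact ⟨-c, 1, by rw [hc]; ring⟩
  refine ⟨?_, by positivity, h6, (hM d hd0 h8).2⟩
  rw [pow_two, hMN d d hd0 hd0 h7 hcop,
    hMN (2 ^ e) (d * d) (by positivity) (by positivity) h6 h2b]

end LcOAux

open LcOAux in
theorem stLcO (hI : StIdl) (hJ : StJsum) : StLcO := by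
  intro q F _ _ s σ e b g d hF hσ hS hdv
  classical
  -- `n = (b ^ 2 + q) / 4`
  obtain ⟨n, hn⟩ : ∃ n : ℤ, 4 * n = b ^ 2 + q := by
    obtain ⟨x, hx⟩ := hdv 1
    exact ⟨2 * 2 ^ e * (d 1 : ℤ) ^ 2 * x, by rw [hx]; ring⟩
  have hid := fun C => idl_eq hI hF (e := e) hS.two hn (hS.odd C) (hS.cop C) (hdv C)
  have h2n : ((2 ^ e : ℕ) : ℤ) ∣ n := by
    refine dvd_trans ?_ (hid 1).2.2.1
    push_cast
    exact Dvd.intro _ rfl
  have hcast : ∀ C, ((2 ^ e * (d C * d C) : ℕ) : ℂ) = 2 ^ e * (d C : ℂ) ^ 2 := by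
    intro C
    push_cast
    ring
  have hB : ∀ C, IsB σ (idl g (2 ^ e * (d C * d C))) (σ g) (2 ^ e * (d C : ℂ) ^ 2) := by
    intro C
    obtain ⟨-, h1, h2, -⟩ := hid C
    have h3 := Js2Aux.isB hI hF σ hσ hS.two hn h1 h2
    rwa [hcast] at h3
  have hB1 : IsB σ (idl g (2 ^ e)) (σ g) (2 ^ e) := by
    have h3 := Js2Aux.isB hI hF σ hσ hS.two hn (M := 2 ^ e) (by positivity) h2n
    push_cast at h3
    exact h3
  obtain ⟨-, -, -, -, hM, -, -⟩ := hI q F _ _ s b n g hF hS.two hn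
  have hne : ∀ M : ℕ, 0 < M → idl g M ≠ ⊥ := by
    intro M hM0 h0
    have h1 : (M : 𝓞 F) ∈ idl g M := Ideal.subset_span (by simp)
    rw [h0, Ideal.mem_bot] at h1
    have h3 : M = 0 := by exact_mod_cast h1
    omega
  have hD0 : ∀ C, idl g (d C) ∈ (Ideal (𝓞 F))⁰ := fun C =>
    mem_nonZeroDivisors_of_ne_zero (hne _ (hS.odd C).pos)
  have h20 : idl g (2 ^ e) ∈ (Ideal (𝓞 F))⁰ :=
    mem_nonZeroDivisors_of_ne_zero (hne _ (by positivity))
  refine ⟨fun C => ?_, fun C => ⟨(hid C).2.2.2, ?_⟩, fun C => ?_, hB1, fun A hA => ?_⟩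
  · rw [(hid C).1]
    exact hB C
  · -- coprime to `s`
    obtain ⟨u, v, huv⟩ : IsCoprime (d C : ℤ) (q : ℤ) := Nat.isCoprime_iff_coprime.2 (hS.cop C)
    rw [Ideal.isCoprime_iff_exists]
    have hs2 : s ^ 2 = -(q : 𝓞 F) := by
      have h := hF.2.2.2
      apply RingOfIntegers.ext
      simpa using h
    refine ⟨(u : 𝓞 F) * (d C : 𝓞 F), Ideal.mul_mem_left _ _ (Ideal.subset_span (by simp)),
      (v : 𝓞 F) * (q : 𝓞 F), ?_, ?_⟩
    · rw [Ideal.mem_span_singleton]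
      refine ⟨-(v : 𝓞 F) * s, ?_⟩
      have : (q : 𝓞 F) = -(s ^ 2) := by rw [hs2, neg_neg]
      rw [this]
      ring
    · exact_mod_cast congrArg (fun z : ℤ => (z : 𝓞 F)) huv
  · -- index
    have hle : idl g (2 ^ e * (d C * d C)) ≤ idl g (2 ^ e) := by
      rw [Ideal.span_le]
      intro z hz
      rcases hz with rfl | hz
      · push_cast
        exact Ideal.mul_mem_right _ _ (Ideal.subset_span (by simp))
      · exact Ideal.subset_span (Set.mem_insert_of_mem _ hz)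
    have hlatle : lat (σ (g : F)) (2 ^ e * (d C : ℂ) ^ 2) ≤ lat (σ (g : F)) (2 ^ e) := by
      intro z hz
      rw [(hB C).2] at hz
      rw [hB1.2]
      obtain ⟨x, hx, rfl⟩ := hz
      exact ⟨x, hle hx, rfl⟩
    obtain ⟨t₁, t₂, ht⟩ := (stBasis q F (s : F) hF σ ⊤ (by simp)).1
    obtain ⟨hl1, hi1⟩ := ((stBasis q F (s : F) hF σ _ (hne _ (by positivity))).2 _ _ hB1).2 _ _ ht
    obtain ⟨-, hi2⟩ :=
      ((stBasis q F (s : F) hF σ _ (hne _ (hid C).2.1)).2 _ _ (hB C)).2 _ _ ht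
    have h1 := AddSubgroup.relIndex_mul_relIndex
      (lat (σ (g : F)) (2 ^ e * (d C : ℂ) ^ 2)).toAddSubgroup
      (lat (σ (g : F)) (2 ^ e)).toAddSubgroup (lat t₁ t₂).toAddSubgroup
      (Submodule.toAddSubgroup_le _ _ |>.2 hlatle) (Submodule.toAddSubgroup_le _ _ |>.2 hl1)
    rw [hi1, hi2, (hM _ (by positivity) h2n).2, (hM _ (hid C).2.1 (hid C).2.2.1).2, mul_comm] at h1
    rw [Nat.eq_of_mul_eq_mul_left (pow_pos two_pos e) h1, pow_two]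
  · -- the sum
    let I2 : (Ideal (𝓞 F))⁰ := ⟨idl g (2 ^ e), h20⟩
    let D : ClassGroup (𝓞 F) → (Ideal (𝓞 F))⁰ := fun C => ⟨idl g (d C), hD0 C⟩
    let J : ClassGroup (𝓞 F) → (Ideal (𝓞 F))⁰ := fun C => I2 * D C ^ 2
    have hD : ∀ C, ClassGroup.mk0 (D C) = C := fun C => hS.cls C (D C) rfl
    have hodd : (Nat.card (ClassGroup (𝓞 F))).Coprime 2 := by
      rw [Nat.card_eq_fintype_card]
      exact Nat.Coprime.symm ((Nat.coprime_two_left).2 (stClass q F (s : F) hF))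
    let φ : ClassGroup (𝓞 F) ≃ ClassGroup (𝓞 F) :=
      (powCoprime hodd).trans (Equiv.mulLeft (ClassGroup.mk0 I2))
    have hJφ : ∀ C, ClassGroup.mk0 (J C) = φ C := by
      intro C
      change ClassGroup.mk0 (I2 * D C ^ 2) = ClassGroup.mk0 I2 * C ^ 2
      rw [map_mul, map_pow, hD]
    have hJc : ∀ C, ((J C : (Ideal (𝓞 F))⁰) : Ideal (𝓞 F)) = idl g (2 ^ e * (d C * d C)) :=
      fun C => (hid C).1
    have h5 := hJ q F _ _ (s : F) σ A hF hA (fun c => J (φ.symm c)) (fun _ => σ g)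
      (fun c => 2 ^ e * (d (φ.symm c) : ℂ) ^ 2)
      (fun c => by rw [hJφ, Equiv.apply_symm_apply]) (fun c => by rw [hJc]; exact hB _)
    have h6 : ∑ C, jv (σ g) (2 ^ e * (d C : ℂ) ^ 2) =
        ∑ c, jv (σ g) (2 ^ e * (d (φ.symm c) : ℂ) ^ 2) :=
      Fintype.sum_equiv φ _ _ fun C => by rw [Equiv.symm_apply_apply]
    rw [h6]
    exact h5

end Pool.Agent.Lib.MP_7c08ba_nt.CN
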