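import Mathlib
import Pool.Agent.Lib.MP_7c08ba_nt.CN.StP
import Pool.Agent.Lib.MP_7c08ba_nt.RZ.C.Ram

set_option autoImplicit false

/-!
Project CN, module T5: logarithmic derivatives of the theta constants.
-/

namespace Pool.Agent.Lib.MP_7c08ba_nt.CN

open UpperHalfPlane ModularForm EisensteinSeries Filter Topology Derivative
open scoped MatrixGroups Manifold

namespace Th5Aux

theorem t3_eq (τ : ℂ) : t3 τ = jacobiTheta τ := by
  simp only [t3, jacobiTheta]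

theorem t2_eq (τ : ℂ) :
    t2 τ = Complex.exp (Real.pi * Complex.I * τ / 4) * jacobiTheta₂ (τ / 2) τ := by
  simp only [t2, jacobiTheta₂, jacobiTheta₂_term, ← tsum_mul_left]
  refine tsum_congr fun m => ?_
  rw [← Complex.exp_add]
  congr 1
  ring

theorem diff3 (τ : ℂ) (hτ : 0 < τ.im) : DifferentiableAt ℂ t3 τ := by
  have : t3 = jacobiTheta := funext t3_eq
  rw [this]
  exact differentiableAt_jacobiTheta hτ

theorem diff4 (h1 : StTh1) (τ : ℂ) (hτ : 0 < τ.im) : DifferentiableAt ℂ t4 τ := by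
  have e : t4 =ᶠ[𝓝 τ] fun z => t3 (z + 1) := by
    filter_upwards [isOpen_upperHalfPlaneSet.mem_nhds hτ] with w hw
    exact (h1 w hw).1.symm
  refine DifferentiableAt.congr_of_eventuallyEq ?_ e
  have h2 : DifferentiableAt ℂ t3 (τ + 1) := diff3 (τ + 1) (by simpa using hτ)
  exact DifferentiableAt.comp (g := t3) τ h2 (by fun_prop : DifferentiableAt ℂ (fun z => z + 1) τ)

theorem diff2 (τ : ℂ) (hτ : 0 < τ.im) : DifferentiableAt ℂ t2 τ := by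
  have : t2 = fun τ => Complex.exp (Real.pi * Complex.I * τ / 4) * jacobiTheta₂ (τ / 2) τ :=
    funext t2_eq
  rw [this]
  refine DifferentiableAt.mul (by fun_prop) ?_
  have h1 := (hasFDerivAt_jacobiTheta₂ (τ / 2) hτ).differentiableAt
  have h2 : DifferentiableAt ℂ (fun z : ℂ => (z / 2, z)) τ := by fun_prop
  exact DifferentiableAt.comp (g := fun p : ℂ × ℂ => jacobiTheta₂ p.1 p.2)
    (f := fun z : ℂ => (z / 2, z)) τ h1 h2

/-- the function on the upper half plane -/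
def up (f : ℂ → ℂ) (τ : ℍ) : ℂ := f τ

theorem up_eq (f : ℂ → ℂ) (τ : ℂ) (hτ : 0 < τ.im) : (up f ∘ ofComplex) =ᶠ[𝓝 τ] f := by
  filter_upwards [isOpen_upperHalfPlaneSet.mem_nhds hτ] with w hw
  rw [Function.comp_apply, ofComplex_apply_of_im_pos hw]
  rfl

theorem up_D (f : ℂ → ℂ) (τ : ℍ) :
    normalizedDerivOfComplex (up f) τ = (2 * Real.pi * Complex.I)⁻¹ * deriv f τ := by
  unfold normalizedDerivOfComplex
  rw [(up_eq f τ τ.im_pos).deriv_eq]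

theorem up_md (f : ℂ → ℂ) (h : ∀ τ : ℂ, 0 < τ.im → DifferentiableAt ℂ f τ) : MDiff (up f) := by
  intro τ
  refine UpperHalfPlane.mdifferentiableAt_iff.2 ?_
  exact (h τ τ.im_pos).congr_of_eventuallyEq (up_eq f τ τ.im_pos)

/-- logarithmic derivative and the inversion -/
theorem S_deriv (f g : ℂ → ℂ) (hf : ∀ τ : ℂ, 0 < τ.im → DifferentiableAt ℂ f τ)
    (hg : ∀ τ : ℂ, 0 < τ.im → DifferentiableAt ℂ g τ)
    (h : ∀ τ : ℂ, 0 < τ.im → f (-1 / τ) ^ 2 = -Complex.I * τ * g τ ^ 2) (τ : ℂ) (hτ : 0 < τ.im)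
    (hg0 : g τ ≠ 0) :
    deriv f (-1 / τ) / f (-1 / τ) = τ / 2 + τ ^ 2 * (deriv g τ / g τ) := by
  have h0 : τ ≠ 0 := fun h => by simp [h] at hτ
  have him : 0 < (-1 / τ).im := by
    have := UpperHalfPlane.im_inv_neg_coe_pos ⟨τ, hτ⟩
    rw [neg_div, one_div, ← inv_neg]
    exact this
  have h1 : HasDerivAt (fun z : ℂ => f (-1 / z)) (deriv f (-1 / τ) * (1 / τ ^ 2)) τ := by
    have h2 : HasDerivAt (fun z : ℂ => -1 / z) (1 / τ ^ 2) τ := by
      have := (hasDerivAt_const τ (-1 : ℂ)).div (hasDerivAt_id τ) h0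
      refine this.congr_deriv ?_
      simp
    exact (hf _ him).hasDerivAt.comp τ h2
  have h3 := h1.pow 2
  have h4 : HasDerivAt (fun z : ℂ => -Complex.I * z * g z ^ 2)
      (-Complex.I * g τ ^ 2 + -Complex.I * τ * (2 * g τ * deriv g τ)) τ := by
    have h5 := ((hasDerivAt_id τ).const_mul (-Complex.I)).mul ((hg τ hτ).hasDerivAt.pow 2)
    refine h5.congr_deriv ?_
    simp
  have h6 : (fun z : ℂ => f (-1 / z) ^ 2) =ᶠ[𝓝 τ] fun z => -Complex.I * z * g z ^ 2 := by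
    filter_upwards [isOpen_upperHalfPlaneSet.mem_nhds hτ] with w hw
    exact h w hw
  have h7 := (h4.congr_of_eventuallyEq h6).unique h3
  have h8 := h τ hτ
  have h9 : f (-1 / τ) ≠ 0 := by
    intro h10
    rw [h10] at h8
    have : -Complex.I * τ * g τ ^ 2 ≠ 0 := by
      refine mul_ne_zero (mul_ne_zero (neg_ne_zero.2 Complex.I_ne_zero) h0) (pow_ne_zero _ hg0)
    exact this (by rw [← h8]; ring)
  push_cast at h7
  have h11 : 2 * f (-1 / τ) * deriv f (-1 / τ) =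
      τ ^ 2 * (-Complex.I * g τ ^ 2 + -Complex.I * τ * (2 * g τ * deriv g τ)) := by
    rw [h7]
    field_simp
  rw [div_eq_iff h9]
  apply mul_left_cancel₀ h9
  have h12 : f (-1 / τ) * (( τ / 2 + τ ^ 2 * (deriv g τ / g τ)) * f (-1 / τ)) =
      (τ / 2 + τ ^ 2 * (deriv g τ / g τ)) * (-Complex.I * τ * g τ ^ 2) := by
    rw [← h8]
    ring
  rw [h12]
  have h13 : (τ / 2 + τ ^ 2 * (deriv g τ / g τ)) * (-Complex.I * τ * g τ ^ 2) =
      -Complex.I * τ * (τ / 2 * g τ ^ 2 + τ ^ 2 * deriv g τ * g τ) := by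
    field_simp
  rw [h13]
  linear_combination h11 / 2

/-- derivatives and translation -/
theorem T_deriv (f g : ℂ → ℂ) (c : ℂ)
    (h : ∀ τ : ℂ, 0 < τ.im → f (τ + 1) = c * g τ) (τ : ℂ) (hτ : 0 < τ.im) :
    deriv f (τ + 1) = c * deriv g τ := by
  have h1 : (fun z => f (z + 1)) =ᶠ[𝓝 τ] fun z => c * g z := by
    filter_upwards [isOpen_upperHalfPlaneSet.mem_nhds hτ] with w hw
    exact h w hw
  rw [← deriv_comp_add_const, h1.deriv_eq, deriv_const_mul_field]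

/-- the logarithmic derivative -/
noncomputable def LL (f : ℂ → ℂ) (τ : ℍ) : ℂ := normalizedDerivOfComplex (up f) τ / f τ

theorem LL_S (f g : ℂ → ℂ) (hf : ∀ τ : ℂ, 0 < τ.im → DifferentiableAt ℂ f τ)
    (hg : ∀ τ : ℂ, 0 < τ.im → DifferentiableAt ℂ g τ)
    (h : ∀ τ : ℂ, 0 < τ.im → f (-1 / τ) ^ 2 = -Complex.I * τ * g τ ^ 2)
    (hg0 : ∀ τ : ℍ, g τ ≠ 0) :
    (LL f) ∣[(2 : ℤ)] ModularGroup.S = fun τ : ℍ =>
      LL g τ + (2 * Real.pi * Complex.I)⁻¹ / (2 * τ) := by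
  funext τ
  rw [SlashInvariantForm.slash_S_apply]
  have h0 : (τ : ℂ) ≠ 0 := ne_zero τ
  have e1 : ((.mk _ τ.im_inv_neg_coe_pos : ℍ) : ℂ) = -1 / (τ : ℂ) := by
    simp [neg_div, inv_neg]
  rw [LL, up_D, LL, up_D, e1, mul_div_assoc, S_deriv f g hf hg h τ τ.im_pos (hg0 τ)]
  rw [show (-2 : ℤ) = -((2 : ℕ) : ℤ) by norm_num, zpow_neg, zpow_natCast]
  field_simp
  ring

theorem LL_T (f g : ℂ → ℂ) (c : ℂ) (hc : c ≠ 0)
    (h : ∀ τ : ℂ, 0 < τ.im → f (τ + 1) = c * g τ) :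
    (LL f) ∣[(2 : ℤ)] ModularGroup.T = LL g := by
  funext τ
  rw [SL_slash_apply, modular_T_smul]
  have e1 : (((1 : ℝ) +ᵥ τ : ℍ) : ℂ) = (τ : ℂ) + 1 := by
    rw [coe_vadd, add_comm]
    simp
  have e2 : denom (ModularGroup.T : GL (Fin 2) ℝ) τ = 1 := by
    rw [ModularGroup.denom_apply]
    simp [ModularGroup.T]
  rw [LL, up_D, LL, up_D, e1, e2, T_deriv f g c h τ τ.im_pos, h τ τ.im_pos]
  simp only [one_zpow, mul_one]
  rw [← mul_assoc, mul_comm _ c, mul_assoc, mul_div_mul_left _ _ hc]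

theorem pw_S (f g : ℂ → ℂ) (h : ∀ τ : ℂ, 0 < τ.im → f (-1 / τ) ^ 2 = -Complex.I * τ * g τ ^ 2) :
    (fun τ : ℍ => f τ ^ 4) ∣[(2 : ℤ)] ModularGroup.S = fun τ : ℍ => -g τ ^ 4 := by
  funext τ
  rw [SlashInvariantForm.slash_S_apply]
  have h0 : (τ : ℂ) ≠ 0 := ne_zero τ
  have e1 : ((.mk _ τ.im_inv_neg_coe_pos : ℍ) : ℂ) = -1 / (τ : ℂ) := by
    simp [neg_div, inv_neg]
  rw [e1, show (4 : ℕ) = 2 * 2 by norm_num, pow_mul, h τ τ.im_pos]
  rw [show (-2 : ℤ) = -((2 : ℕ) : ℤ) by norm_num, zpow_neg, zpow_natCast]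
  field_simp
  rw [Complex.I_sq]
  ring

theorem pw_T (f g : ℂ → ℂ) (h : ∀ τ : ℂ, 0 < τ.im → f (τ + 1) = g τ) :
    (fun τ : ℍ => f τ) ∣[(2 : ℤ)] ModularGroup.T = fun τ : ℍ => g τ := by
  funext τ
  rw [SL_slash_apply, modular_T_smul]
  have e1 : (((1 : ℝ) +ᵥ τ : ℍ) : ℂ) = (τ : ℂ) + 1 := by
    rw [coe_vadd, add_comm]
    simp
  have e2 : denom (ModularGroup.T : GL (Fin 2) ℝ) τ = 1 := by
    rw [ModularGroup.denom_apply]
    simp [ModularGroup.T]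
  rw [e1, e2, h τ τ.im_pos]
  simp

theorem E2_T : E2 ∣[(2 : ℤ)] ModularGroup.T = E2 := by
  rw [E2_slash_action, D2_T, smul_zero, sub_zero]

theorem E2_S : E2 ∣[(2 : ℤ)] ModularGroup.S = fun τ : ℍ =>
    E2 τ + 12 * (2 * Real.pi * Complex.I)⁻¹ / τ := by
  rw [E2_slash_action]
  funext τ
  have h2 : (Real.pi : ℂ) ≠ 0 := Complex.ofReal_ne_zero.2 Real.pi_ne_zero
  have h3 := Complex.I_ne_zero
  have h0 : (τ : ℂ) ≠ 0 := ne_zero τ
  simp only [Pi.sub_apply, Pi.smul_apply, smul_eq_mul, D2_S, riemannZeta_two]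
  field_simp
  ring_nf
  simp only [Complex.I_sq]
  ring

section main

variable (h1 : StTh1) (h4 : StTh4)

theorem ne2 (h4 : StTh4) (τ : ℍ) : t2 τ ≠ 0 := (h4 τ).2.1
theorem ne3 (h4 : StTh4) (τ : ℍ) : t3 τ ≠ 0 := (h4 τ).2.2.1
theorem ne4 (h4 : StTh4) (τ : ℍ) : t4 τ ≠ 0 := (h4 τ).2.2.2

/-- the sum of the logarithmic derivatives -/
theorem sum_LL (h1 : StTh1) (h4 : StTh4) (τ : ℍ) : 8 * (LL t2 τ + LL t3 τ + LL t4 τ) = E2 τ := by
  have hD := Pool.Agent.Lib.MP_7c08ba_nt.RZC.Ram.ramD τ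
  have d2 := (diff2 τ τ.im_pos).hasDerivAt
  have d3 := (diff3 τ τ.im_pos).hasDerivAt
  have d4 := (diff4 h1 τ τ.im_pos).hasDerivAt
  have hp := (((d2.mul d3).mul d4).pow 8).const_mul (256⁻¹ : ℂ)
  have e : (discriminant ∘ ofComplex) =ᶠ[𝓝 (τ : ℂ)]
      fun z => 256⁻¹ * (t2 z * t3 z * t4 z) ^ 8 := by
    filter_upwards [isOpen_upperHalfPlaneSet.mem_nhds τ.2] with w hw
    rw [Function.comp_apply, ofComplex_apply_of_im_pos hw]
    have := (h4 ⟨w, hw⟩).1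
    have h5 : ((⟨w, hw⟩ : ℍ) : ℂ) = w := rfl
    rw [h5] at this
    rw [← this]
    ring
  have hd := (hp.congr_of_eventuallyEq e).deriv
  unfold normalizedDerivOfComplex at hD
  rw [hd] at hD
  have n2 := ne2 h4 τ
  have n3 := ne3 h4 τ
  have n4 := ne4 h4 τ
  have hΔ : (256 : ℂ) * discriminant τ = (t2 τ * t3 τ * t4 τ) ^ 8 := (h4 τ).1
  have hΔ' : discriminant τ = 256⁻¹ * (t2 τ * t3 τ * t4 τ) ^ 8 := by
    rw [← hΔ]
    ring
  rw [hΔ'] at hD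
  have hne : (256⁻¹ : ℂ) * (t2 τ * t3 τ * t4 τ) ^ 8 ≠ 0 :=
    mul_ne_zero (by norm_num) (pow_ne_zero _ (mul_ne_zero (mul_ne_zero n2 n3) n4))
  apply mul_right_cancel₀ hne
  rw [← hD]
  simp only [LL, up_D]
  field_simp
  push_cast
  simp only [Pi.mul_apply]
  ring

/-- limits at infinity -/
theorem lim3 : Tendsto (up t3) atImInfty (𝓝 1) := by
  have h2 : Tendsto (fun τ : ℂ => jacobiTheta τ - 1) (comap Complex.im atTop) (𝓝 0) := by
    refine isBigO_at_im_infty_jacobiTheta_sub_one.trans_tendsto ?_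
    have : Tendsto (fun y : ℝ => Real.exp (-Real.pi * y)) atTop (𝓝 0) := by
      refine Real.tendsto_exp_atBot.comp ?_
      exact tendsto_id.const_mul_atTop_of_neg (by linarith [Real.pi_pos])
    exact this.comp tendsto_comap
  have h3 : Tendsto (fun τ : ℍ => jacobiTheta τ - 1) atImInfty (𝓝 0) := by
    refine h2.comp ?_
    rw [tendsto_comap_iff]
    exact tendsto_comap
  have h4 := h3.add_const 1
  simp only [sub_add_cancel, zero_add] at h4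
  refine h4.congr fun τ => ?_
  rw [up, t3_eq]

theorem lim4 (h1 : StTh1) : Tendsto (up t4) atImInfty (𝓝 1) := by
  have h2 : Tendsto (fun τ : ℍ => (1 : ℝ) +ᵥ τ) atImInfty atImInfty := by
    refine tendsto_comap_iff.2 ?_
    have : (UpperHalfPlane.im ∘ fun τ : ℍ => (1 : ℝ) +ᵥ τ) = UpperHalfPlane.im := by
      funext τ
      simp
    rw [this]
    exact tendsto_comap
  refine (lim3.comp h2).congr fun τ => ?_
  have e1 : (((1 : ℝ) +ᵥ τ : ℍ) : ℂ) = (τ : ℂ) + 1 := by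
    rw [coe_vadd, add_comm]
    simp
  rw [Function.comp_apply, up, up, e1, (h1 τ τ.im_pos).1]

theorem limD (f : ℂ → ℂ) (hf : ∀ τ : ℂ, 0 < τ.im → DifferentiableAt ℂ f τ)
    (h : Tendsto (up f) atImInfty (𝓝 1)) : Tendsto (LL f) atImInfty (𝓝 0) := by
  have h2 : IsBoundedAtImInfty (up f) := h.isBigO_one ℝ
  have h3 := (Pool.Agent.Lib.MP_7c08ba_nt.RZC.Ram.D_tendsto (up_md f hf) h2).div h one_ne_zero
  rw [zero_div] at h3
  exact h3

/-- the fourth power of the second function -/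
theorem lim2 (h1 : StTh1) (h4 : StTh4) : Tendsto (fun τ : ℍ => t2 τ ^ 4) atImInfty (𝓝 0) := by
  have hΔ : Tendsto (discriminant : ℍ → ℂ) atImInfty (𝓝 0) := discriminant_isZeroAtImInfty
  have h3 := (lim3.pow 8)
  have h5 := ((lim4 h1).pow 8)
  have h6 := (hΔ.const_mul 256).div (h3.mul h5) (by norm_num)
  have h7 : Tendsto (fun τ : ℍ => t2 τ ^ 8) atImInfty (𝓝 0) := by
    rw [mul_zero, zero_div] at h6
    refine h6.congr fun τ => ?_
    have := (h4 τ).1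
    have n3 := ne3 h4 τ
    have n4 := ne4 h4 τ
    simp only [Pi.div_apply, up]
    rw [this]
    field_simp
  rw [tendsto_zero_iff_norm_tendsto_zero] at h7 ⊢
  have h8 := (Real.continuous_sqrt.tendsto 0).comp h7
  rw [Real.sqrt_zero] at h8
  refine h8.congr fun τ => ?_
  rw [Function.comp_apply, show (8 : ℕ) = 4 * 2 by norm_num, pow_mul, norm_pow (t2 τ ^ 4) 2,
    Real.sqrt_sq (norm_nonneg _)]

/-- the three functions -/
noncomputable def A3 (τ : ℍ) : ℂ := 24 * LL t3 τ - E2 τ - t2 τ ^ 4 + t4 τ ^ 4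
noncomputable def A4 (τ : ℍ) : ℂ := 24 * LL t4 τ - E2 τ + t2 τ ^ 4 + t3 τ ^ 4
noncomputable def A2 (τ : ℍ) : ℂ := 24 * LL t2 τ - E2 τ - t3 τ ^ 4 - t4 τ ^ 4

theorem LL_md (f : ℂ → ℂ) (hf : ∀ τ : ℂ, 0 < τ.im → DifferentiableAt ℂ f τ)
    (h0 : ∀ τ : ℍ, f τ ≠ 0) : MDiff (LL f) := by
  have h2 : MDiff (up fun z => (2 * Real.pi * Complex.I)⁻¹ * deriv f z / f z) := by
    refine up_md _ fun τ hτ => ?_
    have h3 : AnalyticAt ℂ f τ := by
      refine DifferentiableOn.analyticAt (s := upperHalfPlaneSet) ?_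
        (isOpen_upperHalfPlaneSet.mem_nhds hτ)
      exact fun w hw => (hf w hw).differentiableWithinAt
    exact ((h3.deriv.differentiableAt).const_mul _).div (hf τ hτ) (h0 ⟨τ, hτ⟩)
  have h4 : LL f = up fun z => (2 * Real.pi * Complex.I)⁻¹ * deriv f z / f z := by
    funext τ
    rw [LL, up_D, up]
  rw [h4]
  exact h2

theorem pw_md (f : ℂ → ℂ) (hf : ∀ τ : ℂ, 0 < τ.im → DifferentiableAt ℂ f τ) :
    MDiff fun τ : ℍ => f τ ^ 4 :=
  up_md (fun z => f z ^ 4) fun τ hτ => (hf τ hτ).pow 4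

theorem A3_md (h1 : StTh1) (h4 : StTh4) : MDiff A3 :=
  ((((LL_md t3 diff3 (ne3 h4)).const_smul (24 : ℂ)).sub E2_mdifferentiable).sub
    (pw_md t2 diff2)).add (pw_md t4 (diff4 h1))

theorem A4_md (h1 : StTh1) (h4 : StTh4) : MDiff A4 :=
  ((((LL_md t4 (diff4 h1) (ne4 h4)).const_smul (24 : ℂ)).sub E2_mdifferentiable).add
    (pw_md t2 diff2)).add (pw_md t3 diff3)

theorem A2_md (h1 : StTh1) (h4 : StTh4) : MDiff A2 :=
  ((((LL_md t2 diff2 (ne2 h4)).const_smul (24 : ℂ)).sub E2_mdifferentiable).sub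
    (pw_md t3 diff3)).sub (pw_md t4 (diff4 h1))

theorem A3_S (h1 : StTh1) (h4 : StTh4) : A3 ∣[(2 : ℤ)] ModularGroup.S = A3 := by
  funext τ
  have a1 := congrFun (LL_S t3 t3 diff3 diff3 (fun τ hτ => (h1 τ hτ).2.2.2.1) (ne3 h4)) τ
  have a2 := congrFun E2_S τ
  have a3 := congrFun (pw_S t2 t4 fun τ hτ => (h1 τ hτ).2.2.2.2.2) τ
  have a4 := congrFun (pw_S t4 t2 fun τ hτ => (h1 τ hτ).2.2.2.2.1) τ
  rw [SlashInvariantForm.slash_S_apply] at a1 a2 a3 a4 ⊢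
  simp only [A3]
  linear_combination 24 * a1 - a2 - a3 + a4

theorem A4_S (h1 : StTh1) (h4 : StTh4) : A4 ∣[(2 : ℤ)] ModularGroup.S = A2 := by
  funext τ
  have a1 := congrFun (LL_S t4 t2 (diff4 h1) diff2 (fun τ hτ => (h1 τ hτ).2.2.2.2.1) (ne2 h4)) τ
  have a2 := congrFun E2_S τ
  have a3 := congrFun (pw_S t2 t4 fun τ hτ => (h1 τ hτ).2.2.2.2.2) τ
  have a4 := congrFun (pw_S t3 t3 fun τ hτ => (h1 τ hτ).2.2.2.1) τ
  rw [SlashInvariantForm.slash_S_apply] at a1 a2 a3 a4 ⊢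
  simp only [A4, A2]
  linear_combination 24 * a1 - a2 + a3 + a4

theorem A2_S (h1 : StTh1) (h4 : StTh4) : A2 ∣[(2 : ℤ)] ModularGroup.S = A4 := by
  funext τ
  have a1 := congrFun (LL_S t2 t4 diff2 (diff4 h1) (fun τ hτ => (h1 τ hτ).2.2.2.2.2) (ne4 h4)) τ
  have a2 := congrFun E2_S τ
  have a3 := congrFun (pw_S t3 t3 fun τ hτ => (h1 τ hτ).2.2.2.1) τ
  have a4 := congrFun (pw_S t4 t2 fun τ hτ => (h1 τ hτ).2.2.2.2.1) τ
  rw [SlashInvariantForm.slash_S_apply] at a1 a2 a3 a4 ⊢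
  simp only [A4, A2]
  linear_combination 24 * a1 - a2 - a3 - a4

theorem exp4 : Complex.exp (Real.pi * Complex.I / 4) ^ 4 = -1 := by
  rw [← Complex.exp_nat_mul]
  have : ((4 : ℕ) : ℂ) * (Real.pi * Complex.I / 4) = Real.pi * Complex.I := by
    push_cast
    ring
  rw [this, Complex.exp_pi_mul_I]

theorem A3_T (h1 : StTh1) : A3 ∣[(2 : ℤ)] ModularGroup.T = A4 := by
  funext τ
  have a1 := congrFun (LL_T t3 t4 1 one_ne_zero fun τ hτ => by
    rw [(h1 τ hτ).1, one_mul]) τ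
  have a2 := congrFun E2_T τ
  have a3 := congrFun (pw_T (fun z => t2 z ^ 4) (fun z => -t2 z ^ 4) fun τ hτ => by
    show t2 (τ + 1) ^ 4 = -t2 τ ^ 4
    rw [(h1 τ hτ).2.2.1, mul_pow, exp4]
    ring) τ
  have a4 := congrFun (pw_T (fun z => t4 z ^ 4) (fun z => t3 z ^ 4) fun τ hτ => by
    show t4 (τ + 1) ^ 4 = t3 τ ^ 4
    rw [(h1 τ hτ).2.1]) τ
  rw [SL_slash_apply] at a1 a2 a3 a4 ⊢
  simp only [A3, A4]
  linear_combination 24 * a1 - a2 - a3 + a4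

theorem A4_T (h1 : StTh1) : A4 ∣[(2 : ℤ)] ModularGroup.T = A3 := by
  funext τ
  have a1 := congrFun (LL_T t4 t3 1 one_ne_zero fun τ hτ => by
    rw [(h1 τ hτ).2.1, one_mul]) τ
  have a2 := congrFun E2_T τ
  have a3 := congrFun (pw_T (fun z => t2 z ^ 4) (fun z => -t2 z ^ 4) fun τ hτ => by
    show t2 (τ + 1) ^ 4 = -t2 τ ^ 4
    rw [(h1 τ hτ).2.2.1, mul_pow, exp4]
    ring) τ
  have a4 := congrFun (pw_T (fun z => t3 z ^ 4) (fun z => t4 z ^ 4) fun τ hτ => by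
    show t3 (τ + 1) ^ 4 = t4 τ ^ 4
    rw [(h1 τ hτ).1]) τ
  rw [SL_slash_apply] at a1 a2 a3 a4 ⊢
  simp only [A3, A4]
  linear_combination 24 * a1 - a2 + a3 + a4

theorem A2_T (h1 : StTh1) : A2 ∣[(2 : ℤ)] ModularGroup.T = A2 := by
  funext τ
  have a1 := congrFun (LL_T t2 t2 (Complex.exp (Real.pi * Complex.I / 4)) (Complex.exp_ne_zero _)
    fun τ hτ => (h1 τ hτ).2.2.1) τ
  have a2 := congrFun E2_T τ
  have a3 := congrFun (pw_T (fun z => t3 z ^ 4) (fun z => t4 z ^ 4) fun τ hτ => by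
    show t3 (τ + 1) ^ 4 = t4 τ ^ 4
    rw [(h1 τ hτ).1]) τ
  have a4 := congrFun (pw_T (fun z => t4 z ^ 4) (fun z => t3 z ^ 4) fun τ hτ => by
    show t4 (τ + 1) ^ 4 = t3 τ ^ 4
    rw [(h1 τ hτ).2.1]) τ
  rw [SL_slash_apply] at a1 a2 a3 a4 ⊢
  simp only [A2]
  linear_combination 24 * a1 - a2 - a3 - a4

theorem A3_lim (h1 : StTh1) (h4 : StTh4) : Tendsto A3 atImInfty (𝓝 0) := by
  have l1 := (limD t3 diff3 lim3).const_mul 24
  have l4 := (lim4 h1).pow 4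
  have := ((l1.sub Pool.Agent.Lib.MP_7c08ba_nt.RZC.Ram.E2_tendsto).sub (lim2 h1 h4)).add l4
  norm_num at this
  exact this

theorem A4_lim (h1 : StTh1) (h4 : StTh4) : Tendsto A4 atImInfty (𝓝 0) := by
  have l1 := (limD t4 (diff4 h1) (lim4 h1)).const_mul 24
  have l4 := lim3.pow 4
  have := ((l1.sub Pool.Agent.Lib.MP_7c08ba_nt.RZC.Ram.E2_tendsto).add (lim2 h1 h4)).add l4
  norm_num at this
  exact this

theorem A_sum (h1 : StTh1) (h4 : StTh4) (τ : ℍ) : A2 τ + A3 τ + A4 τ = 0 := by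
  have := sum_LL h1 h4 τ
  simp only [A2, A3, A4]
  linear_combination 3 * this

theorem A2_lim (h1 : StTh1) (h4 : StTh4) : Tendsto A2 atImInfty (𝓝 0) := by
  have h2 := ((A3_lim h1 h4).add (A4_lim h1 h4)).neg
  rw [add_zero, neg_zero] at h2
  refine h2.congr fun τ => ?_
  linear_combination -A_sum h1 h4 τ

theorem A_e2 (h1 : StTh1) (h4 : StTh4) : A2 * A3 + A3 * A4 + A4 * A2 = 0 := by
  have m2 := A2_md h1 h4
  have m3 := A3_md h1 h4
  have m4 := A4_md h1 h4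
  have hm : ∀ (γ : SL(2, ℤ)) (f g : ℍ → ℂ),
      (f * g) ∣[(4 : ℤ)] γ = f ∣[(2 : ℤ)] γ * g ∣[(2 : ℤ)] γ := fun γ f g =>
    ModularForm.mul_slash_SL2 2 2 γ f g
  refine Pool.Agent.Lib.MP_7c08ba_nt.RZC.Ram.eq_zero (k := 4) (by norm_num) _
    (((m2.mul m3).add (m3.mul m4)).add (m4.mul m2))
    (SlashInvariantForm.slash_action_generators_SL2Z ?_ ?_) ?_
  · rw [SlashAction.add_slash, SlashAction.add_slash, hm, hm, hm, A2_S h1 h4, A3_S h1 h4,
      A4_S h1 h4]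
    ring
  · rw [SlashAction.add_slash, SlashAction.add_slash, hm, hm, hm, A2_T h1, A3_T h1, A4_T h1]
    ring
  · have l2 := A2_lim h1 h4
    have l3 := A3_lim h1 h4
    have l4 := A4_lim h1 h4
    have := ((l2.mul l3).add (l3.mul l4)).add (l4.mul l2)
    norm_num at this
    exact this

theorem A_e3 (h1 : StTh1) (h4 : StTh4) : A2 * (A3 * A4) = 0 := by
  have m2 := A2_md h1 h4
  have m3 := A3_md h1 h4
  have m4 := A4_md h1 h4
  have hm : ∀ (γ : SL(2, ℤ)) (f g : ℍ → ℂ),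
      (f * g) ∣[(4 : ℤ)] γ = f ∣[(2 : ℤ)] γ * g ∣[(2 : ℤ)] γ := fun γ f g =>
    ModularForm.mul_slash_SL2 2 2 γ f g
  have hm' : ∀ (γ : SL(2, ℤ)) (f g : ℍ → ℂ),
      (f * g) ∣[(6 : ℤ)] γ = f ∣[(2 : ℤ)] γ * g ∣[(4 : ℤ)] γ := fun γ f g =>
    ModularForm.mul_slash_SL2 2 4 γ f g
  refine Pool.Agent.Lib.MP_7c08ba_nt.RZC.Ram.eq_zero (k := 6) (by norm_num) _
    (m2.mul (m3.mul m4)) (SlashInvariantForm.slash_action_generators_SL2Z ?_ ?_) ?_
  · rw [hm', hm, A2_S h1 h4, A3_S h1 h4, A4_S h1 h4]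
    ring
  · rw [hm', hm, A2_T h1, A3_T h1, A4_T h1]
    ring
  · have l2 := A2_lim h1 h4
    have l3 := A3_lim h1 h4
    have l4 := A4_lim h1 h4
    have := l2.mul (l3.mul l4)
    norm_num at this
    exact this

theorem A_zero (h1 : StTh1) (h4 : StTh4) (τ : ℍ) : A2 τ = 0 ∧ A3 τ = 0 ∧ A4 τ = 0 := by
  have e1 := A_sum h1 h4 τ
  have e2 := congrFun (A_e2 h1 h4) τ
  have e3 := congrFun (A_e3 h1 h4) τ
  simp only [Pi.add_apply, Pi.mul_apply, Pi.zero_apply] at e2 e3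
  refine ⟨?_, ?_, ?_⟩
  · refine pow_eq_zero_iff (n := 3) (by norm_num) |>.1 ?_
    linear_combination (A2 τ ^ 2) * e1 - A2 τ * e2 + e3
  · refine pow_eq_zero_iff (n := 3) (by norm_num) |>.1 ?_
    linear_combination (A3 τ ^ 2) * e1 - A3 τ * e2 + e3
  · refine pow_eq_zero_iff (n := 3) (by norm_num) |>.1 ?_
    linear_combination (A4 τ ^ 2) * e1 - A4 τ * e2 + e3

theorem LL_deriv (f : ℂ → ℂ) (τ : ℍ) (x : ℂ) (h0 : f τ ≠ 0) (h : 24 * LL f τ = x) :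
    deriv f τ = 2 * Real.pi * Complex.I / 24 * (f τ * x) := by
  rw [← h, LL, up_D]
  have h2 : (Real.pi : ℂ) ≠ 0 := Complex.ofReal_ne_zero.2 Real.pi_ne_zero
  have h3 := Complex.I_ne_zero
  field_simp

end main

end Th5Aux

open Th5Aux in
/-- (T5) logarithmic derivatives -/
theorem stTh5 (h1 : StTh1) (h4 : StTh4) : StTh5 := by
  intro τ
  obtain ⟨a2, a3, a4⟩ := A_zero h1 h4 τ
  simp only [A2, A3, A4] at a2 a3 a4
  refine ⟨?_, ?_, ?_⟩
  · rw [← LL_deriv t3 τ _ (ne3 h4 τ) (by linear_combination a3)]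
    exact (diff3 τ τ.im_pos).hasDerivAt
  · rw [← LL_deriv t4 τ _ (ne4 h4 τ) (by linear_combination a4)]
    exact (diff4 h1 τ τ.im_pos).hasDerivAt
  · rw [← LL_deriv t2 τ _ (ne2 h4 τ) (by linear_combination a2)]
    exact (diff2 τ τ.im_pos).hasDerivAt

end Pool.Agent.Lib.MP_7c08ba_nt.CN
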