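import Mathlib
import Pool.Agent.Lib.MP_7c08ba_nt.CN.StP

set_option autoImplicit false

/-!
Project CN, module UnivG: universal 2-adic approximation.
-/

namespace Pool.Agent.Lib.MP_7c08ba_nt.CN

namespace UnivGAux

open Polynomial

/-- Division by `1 + 4 w` modulo powers of two. -/
theorem cancel {R : Type} [CommRing R] {x w y : R} {M : ℕ} (h : x * (1 + 4 * w) = 2 ^ M * y) :
    ∃ z, x = 2 ^ M * z := by
  have key : ∀ m ≤ M, ∃ z, x = 2 ^ m * z := by
    intro m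
    induction m with
    | zero => exact fun _ => ⟨x, by ring⟩
    | succ m ih =>
      intro hm
      obtain ⟨z, hz⟩ := ih (by omega)
      obtain ⟨n, rfl⟩ := Nat.exists_eq_add_of_le hm
      refine ⟨2 ^ n * y - 2 * w * z, ?_⟩
      have h1 : x = 2 ^ (m + 1 + n) * y - 4 * w * x := by linear_combination h
      rw [h1]
      nth_rewrite 1 [hz]
      ring
  exact key M le_rfl

/-- The square root of `1 - 16 X` modulo powers of two. -/
theorem newton (M : ℕ) : ∃ C D E : ℤ[X], C = 1 + 4 * D ∧ C ^ 2 - C + 4 * X = 2 ^ (M + 2) * E := by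
  induction M with
  | zero => exact ⟨1, 0, X, by ring, by ring⟩
  | succ M ih =>
    obtain ⟨C, D, E, hC, hE⟩ := ih
    refine ⟨C - 2 ^ (M + 2) * E, D - 2 ^ M * E, -4 * D * E + 2 ^ (M + 1) * E ^ 2, ?_, ?_⟩
    · rw [hC]
      ring
    · have h1 : (C - 2 ^ (M + 2) * E) ^ 2 - (C - 2 ^ (M + 2) * E) + 4 * X =
          (C ^ 2 - C + 4 * X) - 2 ^ (M + 2) * E * (2 * C - 1) + (2 ^ (M + 2) * E) ^ 2 := by ring
      rw [h1, hE, hC]
      ring

/-- Powers of two in a polynomial. -/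
theorem aeval_two_pow {R : Type} [CommRing R] (a : R) (M : ℕ) :
    aeval a ((2 : ℤ[X]) ^ M) = 2 ^ M := by
  rw [map_pow, map_ofNat]

/-- (i), (ii) -/
theorem approx (M : ℕ) : ∃ C D : ℤ[X], ∀ (R : Type) (_ : CommRing R) (t r t' : R),
    r ^ 2 - r + 4 * t = 0 → (∃ z, 1 - r = 4 * z) → t' * r ^ 4 = t ^ 2 →
    (∃ z, r = aeval t C + 2 ^ M * z) ∧ ∃ z, t' = aeval t D + 2 ^ M * z := by
  obtain ⟨C, D, E, hC, hE⟩ := newton M
  -- `C ^ 4 = 1 - 4 * W`
  obtain ⟨W, hW⟩ : ∃ W : ℤ[X], C ^ 4 = 1 - 4 * W :=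
    ⟨-(4 * D + 24 * D ^ 2 + 64 * D ^ 3 + 64 * D ^ 4), by rw [hC]; ring⟩
  refine ⟨C, X ^ 2 * ∑ i ∈ Finset.range M, (4 * W) ^ i, ?_⟩
  intro R _ t r t' hr ⟨z, hz⟩ ht
  have hCt : aeval t C = 1 + 4 * aeval t D := by
    rw [hC, map_add, map_mul, map_one, map_ofNat]
  have hEt : aeval t C ^ 2 - aeval t C + 4 * t = 2 ^ (M + 2) * aeval t E := by
    have h1 := congrArg (aeval t) hE
    simpa only [map_add, map_sub, map_mul, map_pow, map_ofNat, aeval_X] using h1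
  have h1 : (r - aeval t C) * (1 + 4 * (aeval t D - z)) = 2 ^ M * (-4 * aeval t E) := by
    have h2 : 1 + 4 * (aeval t D - z) = r + aeval t C - 1 := by
      rw [hCt]
      linear_combination hz
    rw [h2]
    have h3 : (2 : R) ^ (M + 2) = 4 * 2 ^ M := by ring
    rw [h3] at hEt
    linear_combination hr - hEt
  obtain ⟨y, hy⟩ := cancel h1
  have hr' : r = aeval t C + 2 ^ M * y := by linear_combination hy
  refine ⟨⟨y, hr'⟩, ?_⟩
  have hWt : aeval t C ^ 4 = 1 - 4 * aeval t W := by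
    have h2 := congrArg (aeval t) hW
    simpa only [map_sub, map_mul, map_pow, map_ofNat, map_one] using h2
  have hS : (∑ i ∈ Finset.range M, (4 * aeval t W) ^ i) * (1 - 4 * aeval t W) =
      1 - (4 * aeval t W) ^ M := by
    have h2 := geom_sum_mul (4 * aeval t W) M
    linear_combination -h2
  have hDt : aeval t (X ^ 2 * ∑ i ∈ Finset.range M, (4 * W) ^ i) =
      t ^ 2 * ∑ i ∈ Finset.range M, (4 * aeval t W) ^ i := by
    simp only [map_mul, map_pow, map_sum, map_ofNat, aeval_X]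
  rw [hDt]
  set S := ∑ i ∈ Finset.range M, (4 * aeval t W) ^ i
  obtain ⟨u, hu⟩ : ∃ u, r ^ 4 = aeval t C ^ 4 + 2 ^ M * u := by
    refine ⟨y * (4 * aeval t C ^ 3 + 6 * aeval t C ^ 2 * (2 ^ M * y) +
      4 * aeval t C * (2 ^ M * y) ^ 2 + (2 ^ M * y) ^ 3), ?_⟩
    rw [hr']
    ring
  have h4 : (4 * aeval t W) ^ M = 2 ^ M * (2 ^ M * aeval t W ^ M) := by
    rw [mul_pow, show (4 : R) = 2 * 2 by norm_num, mul_pow]
    ring
  have hr4 : r ^ 4 = 1 + 4 * (-(4 * z) + 24 * z ^ 2 - 64 * z ^ 3 + 64 * z ^ 4) := by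
    have h5 : r = 1 - 4 * z := by linear_combination -hz
    rw [h5]
    ring
  have h5 : (t' - t ^ 2 * S) * (1 + 4 * (-(4 * z) + 24 * z ^ 2 - 64 * z ^ 3 + 64 * z ^ 4)) =
      2 ^ M * (t ^ 2 * (2 ^ M * aeval t W ^ M) - t ^ 2 * S * u) := by
    rw [← hr4]
    have h6 : t ^ 2 * S * r ^ 4 = t ^ 2 * S * (aeval t C ^ 4 + 2 ^ M * u) := by rw [← hu]
    rw [hWt] at h6
    rw [h4] at hS
    linear_combination ht - h6 - t ^ 2 * hS
  obtain ⟨y', hy'⟩ := cancel h5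
  exact ⟨y', by linear_combination hy'⟩

end UnivGAux

open Polynomial UnivGAux in
theorem stUnivG : StUnivG := by
  intro N
  induction N with
  | zero =>
    refine ⟨0, ?_⟩
    intro R _ t r e _
    exact ⟨e 0, by simp⟩
  | succ N ih =>
    obtain ⟨G, hG⟩ := ih
    obtain ⟨C, D, hCD⟩ := approx N
    refine ⟨2 * C ^ 2 * G.comp D - 1 + 8 * X, ?_⟩
    intro R _ t r e h
    obtain ⟨z, hz⟩ := hG R _ (fun k => t (k + 1)) (fun k => r (k + 1)) (fun k => e (k + 1))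
      fun k hk => h (k + 1) (by omega)
    obtain ⟨h1, h2, h3, h4⟩ := h 0 (by omega)
    obtain ⟨⟨a, ha⟩, b, hb⟩ := hCD R _ (t 0) (r 0) (t (0 + 1)) h1 h2 h3
    simp only [zero_add] at hz hb h4 h3
    obtain ⟨c, hc⟩ : ∃ c, aeval (t 1) G = aeval (aeval (t 0) D) G + 2 ^ N * c := by
      obtain ⟨c, hc⟩ := sub_dvd_eval_sub (t 1) (aeval (t 0) D) (G.map (algebraMap ℤ R))
      rw [eval_map_algebraMap, eval_map_algebraMap] at hc
      refine ⟨b * c, ?_⟩
      have h5 : t 1 - aeval (t 0) D = 2 ^ N * b := by linear_combination hb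
      rw [h5] at hc
      linear_combination hc
    have hX : aeval (t 0) (2 * C ^ 2 * G.comp D - 1 + 8 * X) =
        2 * aeval (t 0) C ^ 2 * aeval (aeval (t 0) D) G - 1 + 8 * t 0 := by
      simp only [map_add, map_sub, map_mul, map_pow, map_ofNat, map_one, aeval_X, aeval_comp]
    rw [hX, h4, hz, hc, ha]
    refine ⟨(2 * aeval (t 0) C * a + 2 ^ N * a ^ 2) * aeval (aeval (t 0) D) G +
      (aeval (t 0) C + 2 ^ N * a) ^ 2 * (c + z), ?_⟩
    ring

end Pool.Agent.Lib.MP_7c08ba_nt.CN
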